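import Pool.Agent.SqF.Defs

/-!
# MP_0b2319_an: common lemmas
-/

set_option autoImplicit false

open MeasureTheory Filter Topology
open scoped ComplexConjugate

namespace Pool.Agent.SqF

/-! ## the exponential -/

lemma e_zero : e 0 = 1 := by simp [e]

lemma e_add (x y : ℝ) : e (x + y) = e x * e y := by
  unfold e; rw [← Complex.exp_add]; congr 1; push_cast; ring

lemma norm_e (x : ℝ) : ‖e x‖ = 1 := by
  unfold e; exact Complex.norm_exp_ofReal_mul_I _

lemma conj_e (x : ℝ) : conj (e x) = e (-x) := by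
  unfold e
  rw [← Complex.exp_conj]
  congr 1
  rw [map_mul, Complex.conj_ofReal, Complex.conj_I]
  push_cast; ring

lemma e_neg (x : ℝ) : e (-x) = conj (e x) := (conj_e x).symm

lemma e_sub (x y : ℝ) : e (x - y) = e x * conj (e y) := by
  rw [sub_eq_add_neg, e_add, conj_e]

lemma e_ne_zero (x : ℝ) : e x ≠ 0 := by
  intro h; have := norm_e x; rw [h] at this; simp at this

lemma e_mul_conj (x : ℝ) : e x * conj (e x) = 1 := by
  rw [← e_sub, sub_self, e_zero]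

lemma e_conj_mul (x : ℝ) : conj (e x) * e x = 1 := by
  rw [mul_comm, e_mul_conj]

lemma e_int (n : ℤ) : e (n : ℝ) = 1 := by
  unfold e
  rw [Complex.exp_eq_one_iff]
  exact ⟨n, by push_cast; ring⟩

lemma e_nat (n : ℕ) : e (n : ℝ) = 1 := by exact_mod_cast e_int n

lemma e_add_int (x : ℝ) (n : ℤ) : e (x + n) = e x := by rw [e_add, e_int, mul_one]

lemma e_sum {ι : Type} (s : Finset ι) (f : ι → ℝ) : e (∑ i ∈ s, f i) = ∏ i ∈ s, e (f i) := by
  classical
  induction s using Finset.induction_on with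
  | empty => simp [e_zero]
  | insert a s ha ih => rw [Finset.sum_insert ha, Finset.prod_insert ha, e_add, ih]

lemma e_nat_mul (n : ℕ) (x : ℝ) : e (n * x) = e x ^ n := by
  induction n with
  | zero => simp [e_zero]
  | succ n ih => push_cast; rw [add_mul, one_mul, e_add, ih, pow_succ]

lemma e_int_mul (n : ℤ) (x : ℝ) : e (n * x) = e x ^ n := by
  obtain ⟨k, rfl | rfl⟩ := n.eq_nat_or_neg
  · rw [zpow_natCast]; exact_mod_cast e_nat_mul k x
  · rw [zpow_neg, zpow_natCast, Int.cast_neg, neg_mul, e_neg, Int.cast_natCast, e_nat_mul]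
    have h1 : ‖e x ^ k‖ = 1 := by rw [norm_pow, norm_e, one_pow]
    rw [Complex.inv_def, Complex.normSq_eq_norm_sq, h1]; simp

lemma continuous_e : Continuous e := by unfold e; fun_prop

lemma measurable_e : Measurable e := continuous_e.measurable

/-- `e` is Lipschitz -/
lemma norm_e_sub_le (x y : ℝ) : ‖e x - e y‖ ≤ 2 * Real.pi * |x - y| := by
  have h : e x - e y = e y * (e (x - y) - 1) := by
    rw [mul_sub, ← e_add]; simp
  rw [h, norm_mul, norm_e, one_mul]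
  unfold e
  have := Real.norm_exp_I_mul_ofReal_sub_one_le (x := 2 * Real.pi * (x - y))
  rw [mul_comm]
  refine this.trans ?_
  rw [Real.norm_eq_abs, abs_mul, abs_of_pos Real.two_pi_pos]

/-! ## windows -/

lemma L_pos (N : ℕ) : 0 < L N := Nat.succ_pos _

lemma L_pos' (N : ℕ) : (0 : ℝ) < L N := by exact_mod_cast L_pos N

lemma L_ne (N : ℕ) : (L N : ℂ) ≠ 0 := by exact_mod_cast (L_pos N).ne'

@[simp] lemma card_W (N : ℕ) : (W N).card = L N := by simp [W]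

lemma mem_W {N n : ℕ} : n ∈ W N ↔ N ≤ n ∧ n < N + L N := by simp [W]

lemma W_nonempty (N : ℕ) : (W N).Nonempty := ⟨N, by simp [W, L_pos]⟩

lemma L_div_tendsto : Tendsto (fun N : ℕ => (L N : ℝ) / N) atTop (𝓝 0) := by
  have h1 : Tendsto (fun N : ℕ => 1 / Real.log ((N : ℝ) + 2)) atTop (𝓝 0) := by
    have : Tendsto (fun N : ℕ => Real.log ((N : ℝ) + 2)) atTop atTop :=
      Real.tendsto_log_atTop.comp (tendsto_atTop_add_const_right _ _ tendsto_natCast_atTop_atTop)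
    exact this.inv_tendsto_atTop.congr fun N => by simp [one_div]
  have h2 : Tendsto (fun N : ℕ => 1 / (N : ℝ)) atTop (𝓝 0) := tendsto_one_div_atTop_nhds_zero_nat
  have h3 := h1.add h2
  rw [add_zero] at h3
  refine squeeze_zero' (Eventually.of_forall fun N => by positivity) ?_ h3
  filter_upwards [eventually_ge_atTop 1] with N hN
  have hN' : (0 : ℝ) < N := by exact_mod_cast hN
  have hl : 0 < Real.log ((N : ℝ) + 2) := Real.log_pos (by linarith)
  rw [div_le_iff₀ hN']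
  have hf : ((⌊(N : ℝ) / Real.log ((N : ℝ) + 2)⌋₊ : ℕ) : ℝ) ≤ (N : ℝ) / Real.log ((N : ℝ) + 2) :=
    Nat.floor_le (by positivity)
  have : (L N : ℝ) = ((⌊(N : ℝ) / Real.log ((N : ℝ) + 2)⌋₊ : ℕ) : ℝ) + 1 := by
    unfold L; push_cast; ring
  rw [this, add_mul, one_div, one_div, inv_mul_eq_div, inv_mul_cancel₀ hN'.ne']
  linarith

/-- lower bound of `L` -/
lemma div_log_le_L (N : ℕ) : (N : ℝ) / Real.log ((N : ℝ) + 2) ≤ L N := by
  unfold L; push_cast; exact (Nat.lt_floor_add_one _).le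

/-! ## averages -/

lemma av_apply {X : Type} (N : ℕ) (v : ℕ → X → ℂ) (x : X) :
    av N v x = avs N (fun n => v n x) := rfl

lemma norm_avs_le_of {N : ℕ} {v : ℕ → ℂ} {C : ℝ} (h : ∀ n ∈ W N, ‖v n‖ ≤ C) :
    ‖avs N v‖ ≤ C := by
  unfold avs
  rw [norm_mul, norm_inv]
  have h1 : ‖∑ n ∈ W N, v n‖ ≤ L N * C := by
    calc ‖∑ n ∈ W N, v n‖ ≤ ∑ n ∈ W N, ‖v n‖ := norm_sum_le _ _
      _ ≤ ∑ n ∈ W N, C := Finset.sum_le_sum h
      _ = L N * C := by rw [Finset.sum_const, card_W, nsmul_eq_mul]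
  rw [Complex.norm_natCast]
  calc ((L N : ℝ))⁻¹ * ‖∑ n ∈ W N, v n‖ ≤ ((L N : ℝ))⁻¹ * (L N * C) := by
        have := L_pos' N; gcongr
    _ = C := by have := L_pos' N; field_simp

lemma norm_avs_le {N : ℕ} {v : ℕ → ℂ} (h : ∀ n, ‖v n‖ ≤ 1) : ‖avs N v‖ ≤ 1 :=
  norm_avs_le_of fun n _ => h n

lemma avs_add (N : ℕ) (v w : ℕ → ℂ) : avs N (fun n => v n + w n) = avs N v + avs N w := by
  unfold avs; rw [Finset.sum_add_distrib, mul_add]

lemma avs_sub (N : ℕ) (v w : ℕ → ℂ) : avs N (fun n => v n - w n) = avs N v - avs N w := by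
  unfold avs; rw [Finset.sum_sub_distrib, mul_sub]

lemma avs_mul_left (N : ℕ) (c : ℂ) (v : ℕ → ℂ) : avs N (fun n => c * v n) = c * avs N v := by
  unfold avs; rw [← Finset.mul_sum]; ring

lemma avs_mul_right (N : ℕ) (c : ℂ) (v : ℕ → ℂ) : avs N (fun n => v n * c) = avs N v * c := by
  unfold avs; rw [← Finset.sum_mul]; ring

lemma avs_const (N : ℕ) (c : ℂ) : avs N (fun _ => c) = c := by
  unfold avs; rw [Finset.sum_const, card_W, nsmul_eq_mul, ← mul_assoc, inv_mul_cancel₀ (L_ne N),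
    one_mul]

lemma avs_sum {ι : Type} (s : Finset ι) (N : ℕ) (v : ι → ℕ → ℂ) :
    avs N (fun n => ∑ i ∈ s, v i n) = ∑ i ∈ s, avs N (v i) := by
  unfold avs; rw [Finset.sum_comm, Finset.mul_sum]

lemma avs_conj (N : ℕ) (v : ℕ → ℂ) : avs N (fun n => conj (v n)) = conj (avs N v) := by
  unfold avs; rw [map_mul, map_sum, map_inv₀, Complex.conj_natCast]

lemma avs_congr {N : ℕ} {v w : ℕ → ℂ} (h : ∀ n ∈ W N, v n = w n) : avs N v = avs N w := by
  unfold avs; rw [Finset.sum_congr rfl h]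

/-! ## B1 -/

variable {X : Type} [MeasurableSpace X] {μ : Measure X}

lemma B1.conj' {f : X → ℂ} (hf : B1 f) : B1 (fun x => conj (f x)) :=
  ⟨Complex.continuous_conj.measurable.comp hf.meas, fun x => by simpa using hf.le x⟩

lemma B1.mul' {f g : X → ℂ} (hf : B1 f) (hg : B1 g) : B1 (fun x => f x * g x) :=
  ⟨hf.meas.mul hg.meas, fun x => by
    rw [norm_mul]; exact mul_le_one₀ (hf.le x) (norm_nonneg _) (hg.le x)⟩

lemma B1.comp' {Y : Type} [MeasurableSpace Y] {f : X → ℂ} (hf : B1 f) {T : Y → X}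
    (hT : Measurable T) : B1 (fun y => f (T y)) := ⟨hf.meas.comp hT, fun _ => hf.le _⟩

lemma B1.const {c : ℂ} (hc : ‖c‖ ≤ 1) : B1 (fun _ : X => c) := ⟨measurable_const, fun _ => hc⟩

lemma B1.one : B1 (fun _ : X => (1 : ℂ)) := B1.const (by simp)

lemma B1.zero : B1 (fun _ : X => (0 : ℂ)) := B1.const (by simp)

lemma B1.const_mul' {f : X → ℂ} (hf : B1 f) {c : ℂ} (hc : ‖c‖ ≤ 1) : B1 (fun x => c * f x) :=
  (B1.const hc).mul' hf

lemma B1.neg' {f : X → ℂ} (hf : B1 f) : B1 (fun x => - f x) :=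
  ⟨hf.meas.neg, fun x => by simpa using hf.le x⟩

lemma B1.prod' {ι : Type} (s : Finset ι) {f : ι → X → ℂ} (hf : ∀ i ∈ s, B1 (f i)) :
    B1 (fun x => ∏ i ∈ s, f i x) := by
  classical
  induction s using Finset.induction_on with
  | empty => simpa using B1.one
  | insert a s ha ih =>
    have := (hf a (Finset.mem_insert_self a s)).mul'
      (ih fun i hi => hf i (Finset.mem_insert_of_mem hi))
    simpa [Finset.prod_insert ha] using this

lemma B1.avs' {N : ℕ} {v : ℕ → X → ℂ} (hv : ∀ n, B1 (v n)) : B1 (fun x => avs N fun n => v n x) :=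
  ⟨by
    unfold Pool.Agent.SqF.avs
    exact (Finset.measurable_sum _ fun n _ => (hv n).meas).const_mul _,
   fun x => norm_avs_le fun n => (hv n).le x⟩

lemma B1.av' {N : ℕ} {v : ℕ → X → ℂ} (hv : ∀ n, B1 (v n)) : B1 (av N v) := B1.avs' hv

lemma B1.integrable [IsProbabilityMeasure μ] {f : X → ℂ} (hf : B1 f) : Integrable f μ :=
  Integrable.of_bound hf.meas.aestronglyMeasurable 1 (Eventually.of_forall hf.le)

lemma B1.norm_integral_le [IsProbabilityMeasure μ] {f : X → ℂ} (hf : B1 f) :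
    ‖∫ x, f x ∂μ‖ ≤ 1 := by
  have := norm_integral_le_of_norm_le_const (μ := μ) (C := 1) (Eventually.of_forall hf.le)
  simpa using this

/-! ## the action -/

lemma Sys.meas (S : Sys X μ) (n : ℤ) : Measurable (S.φ n) := (S.mp n).measurable

lemma Sys.neg_cancel (S : Sys X μ) (n : ℤ) (x : X) : S.φ (-n) (S.φ n x) = x := by
  rw [← S.add]; simp [S.zero]

lemma Sys.cancel_neg (S : Sys X μ) (n : ℤ) (x : X) : S.φ n (S.φ (-n) x) = x := by
  rw [← S.add]; simp [S.zero]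

lemma Sys.comm (S : Sys X μ) (m n : ℤ) (x : X) : S.φ m (S.φ n x) = S.φ n (S.φ m x) := by
  rw [← S.add, ← S.add, add_comm]

/-- `φ n` as a measurable equivalence -/
def Sys.equiv (S : Sys X μ) (n : ℤ) : X ≃ᵐ X where
  toFun := S.φ n
  invFun := S.φ (-n)
  left_inv := S.neg_cancel n
  right_inv := S.cancel_neg n
  measurable_toFun := S.meas n
  measurable_invFun := S.meas (-n)

lemma Sys.integral_comp {E : Type} [NormedAddCommGroup E] [NormedSpace ℝ E] (S : Sys X μ) (n : ℤ)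
    (f : X → E) : ∫ x, f (S.φ n x) ∂μ = ∫ x, f x ∂μ :=
  (S.mp n).integral_comp (S.equiv n).measurableEmbedding f

lemma B1.sh {f : X → ℂ} (hf : B1 f) (S : Sys X μ) (n : ℤ) : B1 (fun x => f (S.φ n x)) :=
  hf.comp' (S.meas n)

lemma Sys.ae_comp (S : Sys X μ) (n : ℤ) {p : X → Prop} (h : ∀ᵐ x ∂μ, p x) :
    ∀ᵐ x ∂μ, p (S.φ n x) := (S.mp n).quasiMeasurePreserving.ae h

/-- iterating an eigenvalue equation -/
lemma Sys.eig_iter (S : Sys X μ) {χ : X → ℂ} {α : ℝ} (h : ∀ᵐ x ∂μ, χ (S.φ 1 x) = e α * χ x)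
    (n : ℤ) : ∀ᵐ x ∂μ, χ (S.φ n x) = e (α * n) * χ x := by
  have hnat : ∀ n : ℕ, ∀ᵐ x ∂μ, χ (S.φ n x) = e (α * n) * χ x := by
    intro n
    induction n with
    | zero => exact Eventually.of_forall fun x => by simp [S.zero, e_zero]
    | succ n ih =>
      filter_upwards [ih, S.ae_comp n h] with x h1 h2
      have : ((n + 1 : ℕ) : ℤ) = 1 + (n : ℤ) := by push_cast; ring
      rw [this, S.add, h2, h1, ← mul_assoc, ← e_add]
      congr 2; push_cast; ring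
  obtain ⟨k, rfl | rfl⟩ := n.eq_nat_or_neg
  · exact_mod_cast hnat k
  · filter_upwards [S.ae_comp (-(k : ℤ)) (hnat k)] with x h1
    rw [S.cancel_neg] at h1
    rw [h1, ← mul_assoc, ← e_add]
    have : α * ((-(k : ℤ) : ℤ) : ℝ) + α * (k : ℝ) = 0 := by push_cast; ring
    rw [this, e_zero, one_mul]

/-! ## Q -/

lemma Q_nonneg (F : X → ℂ) : 0 ≤ Q μ F := integral_nonneg fun x => by positivity

lemma Q_congr {F G : X → ℂ} (h : ∀ᵐ x ∂μ, F x = G x) : Q μ F = Q μ G :=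
  integral_congr_ae (by filter_upwards [h] with x hx; rw [hx])

lemma Q_comp (S : Sys X μ) (n : ℤ) (F : X → ℂ) : Q μ (fun x => F (S.φ n x)) = Q μ F :=
  S.integral_comp n (fun x => ‖F x‖ ^ 2)

/-- bounded measurable functions -/
def Bd (F : X → ℂ) : Prop := Measurable F ∧ ∃ C : ℝ, ∀ x, ‖F x‖ ≤ C

lemma B1.bd {f : X → ℂ} (hf : B1 f) : Bd f := ⟨hf.meas, 1, hf.le⟩

lemma Bd.add {F G : X → ℂ} (hF : Bd F) (hG : Bd G) : Bd (fun x => F x + G x) := by
  obtain ⟨h1, C, hC⟩ := hF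
  obtain ⟨h2, D, hD⟩ := hG
  exact ⟨h1.add h2, C + D, fun x => (norm_add_le _ _).trans (add_le_add (hC x) (hD x))⟩

lemma Bd.sub {F G : X → ℂ} (hF : Bd F) (hG : Bd G) : Bd (fun x => F x - G x) := by
  obtain ⟨h1, C, hC⟩ := hF
  obtain ⟨h2, D, hD⟩ := hG
  exact ⟨h1.sub h2, C + D, fun x => (norm_sub_le _ _).trans (add_le_add (hC x) (hD x))⟩

lemma Bd.mul {F G : X → ℂ} (hF : Bd F) (hG : Bd G) : Bd (fun x => F x * G x) := by
  obtain ⟨h1, C, hC⟩ := hF
  obtain ⟨h2, D, hD⟩ := hG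
  refine ⟨h1.mul h2, |C| * |D|, fun x => ?_⟩
  rw [norm_mul]
  exact mul_le_mul ((hC x).trans (le_abs_self _)) ((hD x).trans (le_abs_self _)) (norm_nonneg _)
    (abs_nonneg _)

lemma Bd.const_mul {F : X → ℂ} (hF : Bd F) (c : ℂ) : Bd (fun x => c * F x) := by
  obtain ⟨h1, C, hC⟩ := hF
  exact ⟨h1.const_mul _, ‖c‖ * C, fun x => by rw [norm_mul]; gcongr; exact hC x⟩

lemma Bd.sum {ι : Type} (s : Finset ι) {F : ι → X → ℂ} (hF : ∀ i ∈ s, Bd (F i)) :
    Bd (fun x => ∑ i ∈ s, F i x) := by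
  classical
  induction s using Finset.induction_on with
  | empty => exact ⟨by simp, 0, by simp⟩
  | insert a s ha ih =>
    have := (hF a (Finset.mem_insert_self a s)).add
      (ih fun i hi => hF i (Finset.mem_insert_of_mem hi))
    simpa [Finset.sum_insert ha] using this

lemma Bd.integrable [IsFiniteMeasure μ] {F : X → ℂ} (hF : Bd F) : Integrable F μ := by
  obtain ⟨h1, C, hC⟩ := hF
  exact Integrable.of_bound h1.aestronglyMeasurable C (Eventually.of_forall hC)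

lemma Bd.sq_integrable [IsFiniteMeasure μ] {F : X → ℂ} (hF : Bd F) :
    Integrable (fun x => ‖F x‖ ^ 2) μ := by
  obtain ⟨h1, C, hC⟩ := hF
  refine Integrable.of_bound (h1.norm.pow_const 2).aestronglyMeasurable (C ^ 2)
    (Eventually.of_forall fun x => ?_)
  rw [Real.norm_eq_abs, abs_of_nonneg (by positivity)]
  exact pow_le_pow_left₀ (norm_nonneg _) (hC x) 2

lemma Q_mono [IsFiniteMeasure μ] {F G : X → ℂ} (hG : Bd G) (h : ∀ x, ‖F x‖ ≤ ‖G x‖) :
    Q μ F ≤ Q μ G :=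
  integral_mono_of_nonneg (Eventually.of_forall fun x => by positivity) hG.sq_integrable
    (Eventually.of_forall fun x => pow_le_pow_left₀ (norm_nonneg _) (h x) 2)

lemma Q_le_of_norm_le [IsProbabilityMeasure μ] {F : X → ℂ} {C : ℝ} (hF : ∀ x, ‖F x‖ ≤ C) :
    Q μ F ≤ C ^ 2 := by
  have h := norm_integral_le_of_norm_le_const (μ := μ) (f := fun x => ‖F x‖ ^ 2) (C := C ^ 2)
    (Eventually.of_forall fun x => by
      rw [Real.norm_eq_abs, abs_of_nonneg (by positivity)]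
      exact pow_le_pow_left₀ (norm_nonneg _) (hF x) 2)
  simp only [probReal_univ, mul_one] at h
  exact (le_abs_self _).trans h

lemma Q_le_one [IsProbabilityMeasure μ] {F : X → ℂ} (hF : B1 F) : Q μ F ≤ 1 := by
  simpa using Q_le_of_norm_le (μ := μ) hF.le

lemma Q_const_mul (c : ℂ) (F : X → ℂ) : Q μ (fun x => c * F x) = ‖c‖ ^ 2 * Q μ F := by
  unfold Q
  rw [← integral_const_mul]
  congr 1; ext x; rw [norm_mul, mul_pow]

lemma Q_mul_le [IsFiniteMeasure μ] {G F : X → ℂ} (hF : Bd F) (hG : ∀ x, ‖G x‖ ≤ 1) :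
    Q μ (fun x => G x * F x) ≤ Q μ F :=
  Q_mono hF fun x => by
    rw [norm_mul]; exact mul_le_of_le_one_left (norm_nonneg _) (hG x)

lemma Q_sum_le [IsFiniteMeasure μ] {ι : Type} (s : Finset ι) {F : ι → X → ℂ}
    (hF : ∀ i ∈ s, Bd (F i)) :
    Q μ (fun x => ∑ i ∈ s, F i x) ≤ s.card * ∑ i ∈ s, Q μ (F i) := by
  unfold Q
  rw [← integral_finsetSum _ fun i hi => (hF i hi).sq_integrable, ← integral_const_mul]
  refine integral_mono_of_nonneg (Eventually.of_forall fun x => by positivity)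
    ((integrable_finsetSum _ fun i hi => (hF i hi).sq_integrable).const_mul _)
    (Eventually.of_forall fun x => ?_)
  have h1 : ‖∑ i ∈ s, F i x‖ ≤ ∑ i ∈ s, ‖F i x‖ := norm_sum_le _ _
  calc ‖∑ i ∈ s, F i x‖ ^ 2 ≤ (∑ i ∈ s, ‖F i x‖) ^ 2 := pow_le_pow_left₀ (norm_nonneg _) h1 2
    _ ≤ s.card * ∑ i ∈ s, ‖F i x‖ ^ 2 := sq_sum_le_card_mul_sum_sq

lemma Q_add_le [IsFiniteMeasure μ] {F G : X → ℂ} (hF : Bd F) (hG : Bd G) :
    Q μ (fun x => F x + G x) ≤ 2 * Q μ F + 2 * Q μ G := by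
  unfold Q
  rw [← integral_const_mul, ← integral_const_mul, ← integral_add
    (hF.sq_integrable.const_mul _) (hG.sq_integrable.const_mul _)]
  refine integral_mono_of_nonneg (Eventually.of_forall fun x => by positivity)
    ((hF.sq_integrable.const_mul _).add (hG.sq_integrable.const_mul _))
    (Eventually.of_forall fun x => ?_)
  have h1 : ‖F x + G x‖ ≤ ‖F x‖ + ‖G x‖ := norm_add_le _ _
  calc ‖F x + G x‖ ^ 2 ≤ (‖F x‖ + ‖G x‖) ^ 2 := pow_le_pow_left₀ (norm_nonneg _) h1 2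
    _ ≤ 2 * ‖F x‖ ^ 2 + 2 * ‖G x‖ ^ 2 := by nlinarith [sq_nonneg (‖F x‖ - ‖G x‖)]

/-- convexity: average over a finite set -/
lemma Q_avg_le [IsFiniteMeasure μ] {ι : Type} (s : Finset ι) (hs : s.Nonempty) {F : ι → X → ℂ}
    (hF : ∀ i ∈ s, Bd (F i)) :
    Q μ (fun x => (s.card : ℂ)⁻¹ * ∑ i ∈ s, F i x) ≤ (s.card : ℝ)⁻¹ * ∑ i ∈ s, Q μ (F i) := by
  rw [Q_const_mul]
  have h := Q_sum_le (μ := μ) s hF
  have hc : (0 : ℝ) < s.card := by exact_mod_cast hs.card_pos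
  rw [norm_inv, Complex.norm_natCast]
  calc ((s.card : ℝ)⁻¹) ^ 2 * Q μ (fun x => ∑ i ∈ s, F i x)
      ≤ ((s.card : ℝ)⁻¹) ^ 2 * (s.card * ∑ i ∈ s, Q μ (F i)) := by gcongr
    _ = (s.card : ℝ)⁻¹ * ∑ i ∈ s, Q μ (F i) := by field_simp

lemma Q_av_le [IsFiniteMeasure μ] {N : ℕ} {v : ℕ → X → ℂ} (hv : ∀ n, Bd (v n)) :
    Q μ (av N v) ≤ (L N : ℝ)⁻¹ * ∑ n ∈ W N, Q μ (v n) := by
  have := Q_avg_le (μ := μ) (W N) (W_nonempty N) (F := v) fun n _ => hv n
  rw [card_W] at this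
  exact this

/-- Cauchy-Schwarz against a bounded function -/
lemma norm_integral_mul_le [IsProbabilityMeasure μ] {F ψ : X → ℂ} (hF : Bd F)
    (hψ : ∀ x, ‖ψ x‖ ≤ 1) : ‖∫ x, F x * ψ x ∂μ‖ ≤ Real.sqrt (Q μ F) := by
  have h1 : ‖∫ x, F x * ψ x ∂μ‖ ≤ ∫ x, ‖F x‖ ∂μ := by
    refine norm_integral_le_of_norm_le hF.integrable.norm (Eventually.of_forall fun x => ?_)
    rw [norm_mul]; exact mul_le_of_le_one_right (norm_nonneg _) (hψ x)
  refine h1.trans (Real.le_sqrt_of_sq_le ?_)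
  -- variance is nonnegative
  set m := ∫ x, ‖F x‖ ∂μ with hm
  have h2 : 0 ≤ ∫ x, (‖F x‖ - m) ^ 2 ∂μ := integral_nonneg fun x => sq_nonneg _
  have h3 : ∫ x, (‖F x‖ - m) ^ 2 ∂μ = Q μ F - 2 * m * m + m ^ 2 := by
    have e1 : ∀ x, (‖F x‖ - m) ^ 2 = ‖F x‖ ^ 2 - 2 * m * ‖F x‖ + m ^ 2 := fun x => by ring
    simp_rw [e1]
    have i1 : Integrable (fun x => ‖F x‖ ^ 2 - 2 * m * ‖F x‖) μ :=
      hF.sq_integrable.sub (hF.integrable.norm.const_mul _)
    have i2 : Integrable (fun _ : X => m ^ 2) μ := integrable_const _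
    have i3 : Integrable (fun x => 2 * m * ‖F x‖) μ := hF.integrable.norm.const_mul _
    rw [integral_add i1 i2, integral_sub hF.sq_integrable i3, integral_const_mul]
    simp [Q, hm]
  rw [h3] at h2
  nlinarith

lemma norm_integral_le_sqrt_Q [IsProbabilityMeasure μ] {F : X → ℂ} (hF : Bd F) :
    ‖∫ x, F x ∂μ‖ ≤ Real.sqrt (Q μ F) := by
  have := norm_integral_mul_le (μ := μ) hF (ψ := fun _ => 1) (by simp)
  simpa using this

/-! ## ultralimits -/

lemma tendsto_ulim (𝒰 : Ultrafilter ℕ) {a : ℕ → ℝ} {C : ℝ} (h : ∀ n, |a n| ≤ C) :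
    Tendsto a (𝒰 : Filter ℕ) (𝓝 (ulim 𝒰 a)) := by
  have hc : IsCompact (Set.Icc (-C) C) := isCompact_Icc
  have hm : (↑(𝒰.map a) : Filter ℝ) ≤ 𝓟 (Set.Icc (-C) C) := by
    rw [Ultrafilter.coe_map, le_principal_iff, mem_map]
    exact Filter.univ_mem' fun n => abs_le.mp (h n)
  obtain ⟨y, _, hy⟩ := hc.ultrafilter_le_nhds (𝒰.map a) hm
  exact tendsto_nhds_limUnder ⟨y, hy⟩

lemma ulim_eq (𝒰 : Ultrafilter ℕ) {a : ℕ → ℝ} {y : ℝ} (h : Tendsto a (𝒰 : Filter ℕ) (𝓝 y)) :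
    ulim 𝒰 a = y := h.limUnder_eq

/-- bounded complex sequences converge along ultrafilters -/
lemma exists_clim (𝒰 : Ultrafilter ℕ) {a : ℕ → ℂ} {C : ℝ} (h : ∀ n, ‖a n‖ ≤ C) :
    ∃ z : ℂ, ‖z‖ ≤ C ∧ Tendsto a (𝒰 : Filter ℕ) (𝓝 z) := by
  have hc : IsCompact (Metric.closedBall (0 : ℂ) C) := isCompact_closedBall _ _
  have hm : (↑(𝒰.map a) : Filter ℂ) ≤ 𝓟 (Metric.closedBall (0 : ℂ) C) := by
    rw [Ultrafilter.coe_map, le_principal_iff, mem_map]
    exact Filter.univ_mem' fun n => by simpa using h n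
  obtain ⟨y, hy1, hy⟩ := hc.ultrafilter_le_nhds (𝒰.map a) hm
  exact ⟨y, by simpa using hy1, hy⟩

lemma hyperfilter_le_atTop : (hyperfilter ℕ : Filter ℕ) ≤ atTop := by
  rw [← Nat.cofinite_eq_atTop]; exact hyperfilter_le_cofinite

lemma hyperfilter_eventually_ge (M : ℕ) : ∀ᶠ H in (hyperfilter ℕ : Filter ℕ), M ≤ H :=
  hyperfilter_le_atTop (eventually_ge_atTop M)

/-! ## boxes -/

lemma mem_box {r : ℕ} {H h : Fin r → ℕ} : h ∈ box H ↔ ∀ j, h j < H j := by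
  simp [box]

lemma card_box {r : ℕ} (H : Fin r → ℕ) : (box H).card = ∏ j, H j := by
  simp [box]

lemma box_nonempty {r : ℕ} {H : Fin r → ℕ} (hH : ∀ j, 0 < H j) : (box H).Nonempty :=
  ⟨fun _ => 0, mem_box.mpr hH⟩

lemma card_box_pos {r : ℕ} {H : Fin r → ℕ} (hH : ∀ j, 0 < H j) : (0 : ℝ) < (box H).card := by
  exact_mod_cast (box_nonempty hH).card_pos

lemma boxE_const {E : Type} [AddCommGroup E] [Module ℝ E] {r : ℕ} {H : Fin r → ℕ}
    (hH : ∀ j, 0 < H j) (c : E) : boxE H (fun _ => c) = c := by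
  unfold boxE
  have := (card_box_pos hH).ne'
  rw [Finset.sum_const, ← Nat.cast_smul_eq_nsmul ℝ, smul_smul, inv_mul_cancel₀ this, one_smul]

lemma boxE_add {E : Type} [AddCommGroup E] [Module ℝ E] {r : ℕ} (H : Fin r → ℕ)
    (F G : (Fin r → ℕ) → E) : boxE H (fun h => F h + G h) = boxE H F + boxE H G := by
  unfold boxE; rw [Finset.sum_add_distrib, smul_add]

lemma boxE_sub {E : Type} [AddCommGroup E] [Module ℝ E] {r : ℕ} (H : Fin r → ℕ)
    (F G : (Fin r → ℕ) → E) : boxE H (fun h => F h - G h) = boxE H F - boxE H G := by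
  unfold boxE; rw [Finset.sum_sub_distrib, smul_sub]

lemma boxE_sum {E : Type} [AddCommGroup E] [Module ℝ E] {ι : Type} (s : Finset ι) {r : ℕ}
    (H : Fin r → ℕ) (F : ι → (Fin r → ℕ) → E) :
    boxE H (fun h => ∑ i ∈ s, F i h) = ∑ i ∈ s, boxE H (F i) := by
  unfold boxE; rw [Finset.sum_comm, Finset.smul_sum]

lemma boxE_congr {E : Type} [AddCommGroup E] [Module ℝ E] {r : ℕ} {H : Fin r → ℕ}
    {F G : (Fin r → ℕ) → E} (h : ∀ q ∈ box H, F q = G q) : boxE H F = boxE H G := by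
  unfold boxE; rw [Finset.sum_congr rfl h]

lemma boxE_mono {r : ℕ} {H : Fin r → ℕ} {F G : (Fin r → ℕ) → ℝ} (h : ∀ q ∈ box H, F q ≤ G q) :
    boxE H F ≤ boxE H G := by
  unfold boxE
  exact smul_le_smul_of_nonneg_left (Finset.sum_le_sum h) (by positivity)

lemma boxE_nonneg {r : ℕ} {H : Fin r → ℕ} {F : (Fin r → ℕ) → ℝ} (h : ∀ q ∈ box H, 0 ≤ F q) :
    0 ≤ boxE H F := by
  unfold boxE
  exact smul_nonneg (by positivity) (Finset.sum_nonneg h)

lemma norm_boxE_le {E : Type} [NormedAddCommGroup E] [NormedSpace ℝ E] {r : ℕ}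
    (H : Fin r → ℕ) (F : (Fin r → ℕ) → E) : ‖boxE H F‖ ≤ boxE H (fun h => ‖F h‖) := by
  unfold boxE
  rw [norm_smul, norm_inv, Real.norm_natCast, smul_eq_mul]
  gcongr
  exact norm_sum_le _ _

lemma norm_boxE_le_of {E : Type} [NormedAddCommGroup E] [NormedSpace ℝ E] {r : ℕ}
    {H : Fin r → ℕ} (hH : ∀ j, 0 < H j) {F : (Fin r → ℕ) → E} {C : ℝ}
    (h : ∀ q ∈ box H, ‖F q‖ ≤ C) : ‖boxE H F‖ ≤ C :=
  (norm_boxE_le H F).trans ((boxE_mono h).trans_eq (boxE_const hH C))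

lemma boxE_re {r : ℕ} (H : Fin r → ℕ) (F : (Fin r → ℕ) → ℂ) :
    (boxE H F).re = boxE H (fun h => (F h).re) := by
  unfold boxE
  rw [Complex.smul_re, Complex.re_sum]

lemma boxE_mul_left {r : ℕ} (H : Fin r → ℕ) (c : ℂ) (F : (Fin r → ℕ) → ℂ) :
    boxE H (fun h => c * F h) = c * boxE H F := by
  unfold boxE; rw [← Finset.mul_sum, mul_smul_comm]

lemma boxE_mul_left_real {r : ℕ} (H : Fin r → ℕ) (c : ℝ) (F : (Fin r → ℕ) → ℝ) :
    boxE H (fun h => c * F h) = c * boxE H F := by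
  unfold boxE; rw [← Finset.mul_sum, mul_smul_comm]

lemma boxE_comm {E : Type} [AddCommGroup E] [Module ℝ E] {r r' : ℕ} (H : Fin r → ℕ)
    (H' : Fin r' → ℕ) (F : (Fin r → ℕ) → (Fin r' → ℕ) → E) :
    boxE H (fun h => boxE H' (F h)) = boxE H' (fun h' => boxE H (fun h => F h h')) := by
  unfold boxE
  rw [← Finset.smul_sum, ← Finset.smul_sum, smul_comm, Finset.sum_comm]

/-- there is a point where the function is at least its average -/
lemma exists_boxE_le {r : ℕ} {H : Fin r → ℕ} (hH : ∀ j, 0 < H j) (F : (Fin r → ℕ) → ℝ) :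
    ∃ q ∈ box H, boxE H F ≤ F q := by
  by_contra hcon
  push Not at hcon
  have hc := card_box_pos hH
  have h1 : ∑ h ∈ box H, F h < ∑ h ∈ box H, boxE H F :=
    Finset.sum_lt_sum_of_nonempty (box_nonempty hH) hcon
  rw [Finset.sum_const, nsmul_eq_mul] at h1
  unfold boxE at h1
  rw [smul_eq_mul, ← mul_assoc, mul_inv_cancel₀ hc.ne', one_mul] at h1
  exact lt_irrefl _ h1

end Pool.Agent.SqF
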