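import Pool.Agent.SqF.Targets
import Pool.Agent.SqF.Basic

/-!
# MP_0b2319_an, part B0: nontrivial scalar weights have mean zero

Choice of the parameters `t`, `D`, `σ`, `ρ` in the core statement `T_B0C`.
-/

set_option autoImplicit false

open MeasureTheory Filter Topology

namespace Pool.Agent.SqF.B0

/-- finite linear combinations of polynomial approximations -/
lemma PA_sum {ι : Type} (s : Finset ι) (R : ℕ → ℕ) (D : ℕ) (x : ι → ℕ → ℝ)
    (θ : ι → ℕ → ℕ → ℕ → ℝ) (β : ι → ℝ) (h : ∀ i ∈ s, PA R D (x i) (θ i)) :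
    PA R D (fun n => ∑ i ∈ s, β i * x i n) (fun N n j => ∑ i ∈ s, β i * θ i N n j) := by
  intro y ε hε
  have hK0 : (0 : ℝ) ≤ ∑ i ∈ s, |β i| := Finset.sum_nonneg fun i _ => abs_nonneg _
  have hKpos : 0 < ∑ i ∈ s, |β i| + 1 := by linarith
  have h1 : ∀ i ∈ s, ∀ᶠ N in atTop, ∀ n ∈ W N,
      |x i (n + R N * y) - ∑ j ∈ Finset.range (D + 1), θ i N n j * (y : ℝ) ^ j| ≤
        ε / (∑ i ∈ s, |β i| + 1) :=
    fun i hi => h i hi y _ (by positivity)
  have h2 := (Filter.eventually_all_finset s).2 h1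
  filter_upwards [h2] with N hN n hn
  have h3 : ∑ i ∈ s, β i * x i (n + R N * y) -
      ∑ j ∈ Finset.range (D + 1), (∑ i ∈ s, β i * θ i N n j) * (y : ℝ) ^ j
     = ∑ i ∈ s, β i * (x i (n + R N * y) -
        ∑ j ∈ Finset.range (D + 1), θ i N n j * (y : ℝ) ^ j) := by
    simp_rw [mul_sub, Finset.sum_sub_distrib, Finset.sum_mul, Finset.mul_sum]
    congr 1
    rw [Finset.sum_comm]
    refine Finset.sum_congr rfl fun i _ => Finset.sum_congr rfl fun j _ => by ring
  rw [h3]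
  calc |∑ i ∈ s, β i * (x i (n + R N * y) -
        ∑ j ∈ Finset.range (D + 1), θ i N n j * (y : ℝ) ^ j)|
      ≤ ∑ i ∈ s, |β i * (x i (n + R N * y) -
        ∑ j ∈ Finset.range (D + 1), θ i N n j * (y : ℝ) ^ j)| := Finset.abs_sum_le_sum_abs _ _
    _ ≤ ∑ i ∈ s, |β i| * (ε / (∑ i ∈ s, |β i| + 1)) := by
        refine Finset.sum_le_sum fun i hi => ?_
        rw [abs_mul]
        exact mul_le_mul_of_nonneg_left (hN i hi n hn) (abs_nonneg _)
    _ = (∑ i ∈ s, |β i|) * (ε / (∑ i ∈ s, |β i| + 1)) := by rw [Finset.sum_mul]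
    _ ≤ (∑ i ∈ s, |β i| + 1) * (ε / (∑ i ∈ s, |β i| + 1)) :=
        mul_le_mul_of_nonneg_right (by linarith) (by positivity)
    _ = ε := by field_simp

/-- finite linear combinations of leading coefficients -/
lemma Lead_sum {ι : Type} (s : Finset ι) (D : ℕ) (θ : ι → ℕ → ℕ → ℕ → ℝ) (β lam : ι → ℝ)
    (h : ∀ i ∈ s, Lead D (θ i) (lam i)) :
    Lead D (fun N n j => ∑ i ∈ s, β i * θ i N n j) (∑ i ∈ s, β i * lam i) := by
  intro ε hε
  have hK0 : (0 : ℝ) ≤ ∑ i ∈ s, |β i| := Finset.sum_nonneg fun i _ => abs_nonneg _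
  have hKpos : 0 < ∑ i ∈ s, |β i| + 1 := by linarith
  have h1 : ∀ i ∈ s, ∀ᶠ N in atTop, ∀ n ∈ W N,
      |θ i N n D - lam i| ≤ ε / (∑ i ∈ s, |β i| + 1) :=
    fun i hi => h i hi _ (by positivity)
  have h2 := (Filter.eventually_all_finset s).2 h1
  filter_upwards [h2] with N hN n hn
  have h3 : ∑ i ∈ s, β i * θ i N n D - ∑ i ∈ s, β i * lam i
     = ∑ i ∈ s, β i * (θ i N n D - lam i) := by
    simp_rw [mul_sub, Finset.sum_sub_distrib]
  rw [h3]
  calc |∑ i ∈ s, β i * (θ i N n D - lam i)|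
      ≤ ∑ i ∈ s, |β i * (θ i N n D - lam i)| := Finset.abs_sum_le_sum_abs _ _
    _ ≤ ∑ i ∈ s, |β i| * (ε / (∑ i ∈ s, |β i| + 1)) := by
        refine Finset.sum_le_sum fun i hi => ?_
        rw [abs_mul]
        exact mul_le_mul_of_nonneg_left (hN i hi n hn) (abs_nonneg _)
    _ = (∑ i ∈ s, |β i|) * (ε / (∑ i ∈ s, |β i| + 1)) := by rw [Finset.sum_mul]
    _ ≤ (∑ i ∈ s, |β i| + 1) * (ε / (∑ i ∈ s, |β i| + 1)) :=
        mul_le_mul_of_nonneg_right (by linarith) (by positivity)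
    _ = ε := by field_simp

/-- Taylor expansion with a uniform description of the leading coefficient -/
lemma tay' (hT : T_TAY) {σ ρ : ℝ} (h0 : 0 < σ) (h1 : σ < 1) (hρ : 0 < ρ) {c : ℝ} (hc : 0 < c)
    {D : ℕ} (hD : c ≤ D * (1 - σ)) :
    ∃ θ : ℕ → ℕ → ℕ → ℝ, PA (fun N => ⌊ρ * (N : ℝ) ^ σ⌋₊) D (fun n => (n : ℝ) ^ c) θ ∧
      Lead D θ (if c = D * (1 - σ) then bin c D * ρ ^ D else 0) := by
  obtain ⟨θ, hθ, hθ1, hθ2⟩ := hT σ ρ h0 h1 hρ c hc D (by nlinarith)
  refine ⟨θ, hθ, ?_⟩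
  split_ifs with h
  · exact hθ1 h
  · have h' : c < D * (1 - σ) := lt_of_le_of_ne hD h
    intro ε hε
    filter_upwards with N n _
    rw [hθ2 h' N n]
    simpa using hε.le

lemma bin_ne {c : ℝ} (hc : ∀ m : ℤ, c ≠ m) (D : ℕ) : bin c D ≠ 0 := by
  unfold bin
  refine div_ne_zero ?_ (by positivity)
  refine Finset.prod_ne_zero_iff.2 fun i _ h => hc i ?_
  have : c = (i : ℝ) := by linarith
  rw [this]; simp

lemma bin_pos {c : ℝ} {D : ℕ} (hc : (D : ℝ) < c + 1) : 0 < bin c D := by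
  unfold bin
  refine div_pos ?_ (by positivity)
  refine Finset.prod_pos fun i hi => ?_
  have hi' : i + 1 ≤ D := Finset.mem_range.1 hi
  have : (i : ℝ) + 1 ≤ D := by exact_mod_cast hi'
  linarith

/-- the core statement for the weight, with all parameters -/
lemma core (hB : T_B0C) (hT : T_TAY) (hR : T_RL) {ι : Type} [Fintype ι] (w : Wts ι)
    (hw : w.Ok) {σ ρ : ℝ} (h0 : 0 < σ) (h1 : σ < 1) (hρ : 0 < ρ) (t D : ℕ) (ht : 1 ≤ t)
    (hDt : 2 * D ≤ t)
    (hA : ∀ i, w.ty i = true → w.c i < (D + 1) * (1 - σ))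
    (hB' : ∀ i, w.ty i = false → w.c i ≤ t * (1 - σ))
    (lam : ι → ℤ)
    (hlam : 2 * D = t → ∀ i, w.ty i = true → w.c i ≤ D * (1 - σ) ∧
      (lam i : ℝ) = if w.c i = D * (1 - σ) then bin (w.c i) D * ρ ^ D else 0)
    (hirr : Irrational ((t.factorial : ℝ) * (∑ i ∈ Finset.univ.filter (fun i => w.ty i = false),
        w.β i * (if w.c i = t * (1 - σ) then bin (w.c i) t * ρ ^ t else 0) +
      if 2 * D = t then ∑ i ∈ Finset.univ.filter (fun i => w.ty i = true),
        w.β i * (lam i : ℝ) ^ 2 else 0)))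
    (heq : ∀ i, w.ty i = true → ∀ l : ℤ, l ≠ 0 →
      Tendsto (fun N => avs N (fun n => e (l * (n : ℝ) ^ w.c i))) atTop (𝓝 0)) :
    Tendsto (fun N => avs N w.w) atTop (𝓝 0) := by
  classical
  -- the approximations of the sequences of the first type
  have hx : ∀ i : {i // w.ty i = true}, ∃ θ : ℕ → ℕ → ℕ → ℝ,
      PA (fun N => ⌊ρ * (N : ℝ) ^ σ⌋₊) D (fun n => (n : ℝ) ^ w.c i.1) θ ∧
      (2 * D = t → Lead D θ (lam i.1)) := by
    intro i
    by_cases h2 : 2 * D = t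
    · obtain ⟨h3, h4⟩ := hlam h2 i.1 i.2
      obtain ⟨θ, hθ, hθ'⟩ := tay' hT h0 h1 hρ (hw.pos i.1) h3
      refine ⟨θ, hθ, fun _ => ?_⟩
      rw [h4]; exact hθ'
    · obtain ⟨θ, hθ, _⟩ := hT σ ρ h0 h1 hρ (w.c i.1) (hw.pos i.1) D (hA i.1 i.2)
      exact ⟨θ, hθ, fun h => absurd h h2⟩
  choose θ hθ hθ' using hx
  -- the approximations of the sequences of the second type
  have hy : ∀ i : ι, ∃ θ : ℕ → ℕ → ℕ → ℝ, w.ty i = false →
      PA (fun N => ⌊ρ * (N : ℝ) ^ σ⌋₊) t (fun n => (n : ℝ) ^ w.c i) θ ∧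
      Lead t θ (if w.c i = t * (1 - σ) then bin (w.c i) t * ρ ^ t else 0) := by
    intro i
    by_cases h2 : w.ty i = false
    · obtain ⟨θ, hθ, hθ'⟩ := tay' hT h0 h1 hρ (hw.pos i) (hB' i h2)
      exact ⟨θ, fun _ => ⟨hθ, hθ'⟩⟩
    · exact ⟨fun _ _ _ => 0, fun h => absurd h h2⟩
  choose η hη using hy
  have hPA := PA_sum (Finset.univ.filter (fun i => w.ty i = false))
    (fun N => ⌊ρ * (N : ℝ) ^ σ⌋₊) t (fun i n => (n : ℝ) ^ w.c i) η w.β
    (fun i hi => (hη i (Finset.mem_filter.1 hi).2).1)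
  have hLead := Lead_sum (Finset.univ.filter (fun i => w.ty i = false)) t η w.β
    (fun i => if w.c i = t * (1 - σ) then bin (w.c i) t * ρ ^ t else 0)
    (fun i hi => (hη i (Finset.mem_filter.1 hi).2).2)
  have hsum : ∀ f : ι → ℝ, ∑ i : {i // w.ty i = true}, f i.1 =
      ∑ i ∈ Finset.univ.filter (fun i => w.ty i = true), f i := by
    intro f
    rw [Finset.sum_subtype (Finset.univ.filter (fun i => w.ty i = true)) (p := fun i => w.ty i = true)
      (by simp) f]
  have key := hB {i // w.ty i = true} (fun N => ⌊ρ * (N : ℝ) ^ σ⌋₊) (hR σ ρ h0 h1 hρ) t D ht hDt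
    (fun i n => (n : ℝ) ^ w.c i.1) θ hθ _ _ hPA _ hLead (fun i => w.β i.1) (fun i => lam i.1)
    (fun h i => hθ' i h)
    (by
      rw [hsum (fun i => w.β i * (lam i : ℝ) ^ 2)]
      exact hirr)
    (fun i l hl => heq i.1 i.2 l hl)
  refine key.congr fun N => ?_
  refine congrArg (avs N) (funext fun n => ?_)
  unfold Wts.w Wts.ph
  congr 1
  rw [Finset.sum_ite]
  rw [hsum (fun i => w.β i * ((⌊(n : ℝ) ^ w.c i⌋ : ℤ) : ℝ) ^ 2)]
  have h6 : (Finset.univ.filter (fun i => ¬ w.ty i = true)) =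
      Finset.univ.filter (fun i => w.ty i = false) := by
    ext i; simp
  rw [h6]
  congr 1
  refine Finset.sum_congr rfl fun i _ => ?_
  simp [b]

lemma pow_inv_eq {x : ℝ} (hx : 0 ≤ x) {n : ℕ} (hn : n ≠ 0) : (x ^ ((n : ℝ)⁻¹)) ^ n = x :=
  Real.rpow_inv_natCast_pow hx hn

lemma irr_fact {x : ℝ} (hx : Irrational x) (t : ℕ) : Irrational ((t.factorial : ℝ) * x) :=
  hx.natCast_mul (Nat.factorial_ne_zero t)

/-- the maximal exponent is of the second type, and at least twice the others of the first type -/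
lemma caseB (hB : T_B0C) (hT : T_TAY) (hR : T_RL) {ι : Type} [Fintype ι] (w : Wts ι)
    (hw : w.Ok) (j0 : ι) (hj0 : w.ty j0 = false) (hmax : ∀ j, w.ty j = false → w.c j ≤ w.c j0)
    (hA : ∀ i, w.ty i = true → 2 * w.c i ≤ w.c j0)
    (heq : ∀ i, w.ty i = true → ∀ l : ℤ, l ≠ 0 →
      Tendsto (fun N => avs N (fun n => e (l * (n : ℝ) ^ w.c i))) atTop (𝓝 0)) :
    Tendsto (fun N => avs N w.w) atTop (𝓝 0) := by
  classical
  set c := w.c j0 with hc
  have hcpos : 0 < c := hw.pos j0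
  set k : ℕ := ⌊c⌋₊ with hk
  have hkc : c < k + 1 := Nat.lt_floor_add_one c
  have hk0 : (0 : ℝ) ≤ k := Nat.cast_nonneg k
  set tr : ℝ := 2 * k + 1 with htr
  have htrpos : 0 < tr := by positivity
  have hctr : c < tr := by linarith
  have hcast : ((2 * k + 1 : ℕ) : ℝ) = tr := by push_cast; rfl
  have hσ0 : 0 < 1 - c / tr := by
    have : c / tr < 1 := (div_lt_one htrpos).2 hctr
    linarith
  have hσ1 : 1 - c / tr < 1 := by
    have : 0 < c / tr := by positivity
    linarith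
  have h1σ : 1 - (1 - c / tr) = c / tr := by ring
  have htσ : tr * (c / tr) = c := by field_simp
  have hβ0 : w.β j0 ≠ 0 := hw.ne j0 hj0
  have hbin : bin c (2 * k + 1) ≠ 0 := bin_ne (hw.nonint j0) _
  have hpos : 0 < |w.β j0 * bin c (2 * k + 1)| := abs_pos.2 (mul_ne_zero hβ0 hbin)
  set ρ : ℝ := (√2 / |w.β j0 * bin c (2 * k + 1)|) ^ (((2 * k + 1 : ℕ) : ℝ)⁻¹) with hρdef
  have hρ : 0 < ρ := Real.rpow_pos_of_pos (by positivity) _
  have hρpow : ρ ^ (2 * k + 1) = √2 / |w.β j0 * bin c (2 * k + 1)| :=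
    pow_inv_eq (by positivity) (by omega)
  have hD2 : ¬ (2 * k = 2 * k + 1) := by omega
  refine core hB hT hR w hw hσ0 hσ1 hρ (2 * k + 1) k (by omega) (by omega) ?_ ?_ (fun _ => 0)
    (fun h => absurd h hD2) ?_ heq
  · intro i hi
    have := hA i hi
    rw [h1σ]
    have h3 : c / 2 < (k + 1) * (c / tr) := by
      rw [div_lt_iff₀ (by norm_num)]
      have : (k + 1) * (c / tr) * 2 = c * ((2 * k + 2) / tr) := by ring
      rw [this]
      have h4 : 1 < (2 * k + 2) / tr := by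
        rw [one_lt_div htrpos]; linarith
      nlinarith
    linarith
  · intro i hi
    rw [hcast, h1σ, htσ]
    exact hmax i hi
  · rw [if_neg hD2, add_zero]
    apply irr_fact
    have h5 : ∑ i ∈ Finset.univ.filter (fun i => w.ty i = false),
        w.β i * (if w.c i = ((2 * k + 1 : ℕ) : ℝ) * (1 - (1 - c / tr)) then
          bin (w.c i) (2 * k + 1) * ρ ^ (2 * k + 1) else 0) =
        w.β j0 * (bin c (2 * k + 1) * ρ ^ (2 * k + 1)) := by
      rw [hcast, h1σ, htσ]
      rw [Finset.sum_eq_single j0]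
      · rw [if_pos rfl]
      · intro i _ hi
        rw [if_neg, mul_zero]
        intro h
        exact hi (hw.inj h)
      · intro h
        exact (h (Finset.mem_filter.2 ⟨Finset.mem_univ _, hj0⟩)).elim
    rw [h5, hρpow, ← mul_assoc]
    set z := w.β j0 * bin c (2 * k + 1) with hz
    rcases lt_or_gt_of_ne (abs_pos.1 hpos) with hneg | hpos'
    · rw [abs_of_neg hneg]
      have hz0 : z ≠ 0 := hneg.ne
      have : z * (√2 / -z) = -√2 := by
        rw [div_neg, mul_neg, mul_div_assoc', mul_div_cancel_left₀ _ hz0]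
      rw [this]
      exact irrational_sqrt_two.neg
    · rw [abs_of_pos hpos']
      have : z * (√2 / z) = √2 := by field_simp
      rw [this]
      exact irrational_sqrt_two

/-- pure frequencies -/
lemma single (hB : T_B0C) (hT : T_TAY) (hR : T_RL) {c : ℝ} (hc : 0 < c) (hcn : ∀ m : ℤ, c ≠ m)
    {β : ℝ} (hβ : β ≠ 0) :
    Tendsto (fun N => avs N (fun n => e (β * (n : ℝ) ^ c))) atTop (𝓝 0) := by
  have h := caseB hB hT hR (ι := Unit) ⟨fun _ => c, fun _ => false, fun _ => β⟩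
    ⟨fun _ _ _ => rfl, fun _ => hc, fun _ => hcn, fun _ h => by simp at h, fun _ _ => hβ⟩
    () rfl (fun _ _ => le_rfl) (fun _ h => by simp at h) (fun _ h => by simp at h)
  refine h.congr fun N => ?_
  refine congrArg (avs N) (funext fun n => ?_)
  simp [Wts.w, Wts.ph]

/-- the maximal exponent of the first type is more than half of all others -/
lemma caseA (hB : T_B0C) (hT : T_TAY) (hR : T_RL) {ι : Type} [Fintype ι] (w : Wts ι)
    (hw : w.Ok) (j0 : ι) (hj0 : w.ty j0 = true) (hmax : ∀ j, w.ty j = true → w.c j ≤ w.c j0)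
    (hA : ∀ i, w.ty i = false → w.c i < 2 * w.c j0) :
    Tendsto (fun N => avs N w.w) atTop (𝓝 0) := by
  classical
  set c := w.c j0 with hc
  have hcpos : 0 < c := hw.pos j0
  set k : ℕ := ⌊c⌋₊ with hk
  have hkc : c < k + 1 := Nat.lt_floor_add_one c
  have hkc' : (k : ℝ) < c := by
    refine lt_of_le_of_ne (Nat.floor_le hcpos.le) fun h => ?_
    exact hw.nonint j0 k (by rw [← hc, ← h]; simp)
  have hk0 : (0 : ℝ) ≤ k := Nat.cast_nonneg k
  set tr : ℝ := k + 1 with htr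
  have htrpos : 0 < tr := by positivity
  have hcast : ((k + 1 : ℕ) : ℝ) = tr := by push_cast; rfl
  have hcast2 : ((2 * (k + 1) : ℕ) : ℝ) = 2 * tr := by push_cast; rfl
  have hσ0 : 0 < 1 - c / tr := by
    have : c / tr < 1 := (div_lt_one htrpos).2 hkc
    linarith
  have hσ1 : 1 - c / tr < 1 := by
    have : 0 < c / tr := by positivity
    linarith
  have h1σ : 1 - (1 - c / tr) = c / tr := by ring
  have htσ : tr * (c / tr) = c := by field_simp
  have hbin : 0 < bin c (k + 1) := bin_pos (by rw [hcast]; linarith)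
  set ρ : ℝ := ((bin c (k + 1))⁻¹) ^ (((k + 1 : ℕ) : ℝ)⁻¹) with hρdef
  have hρ : 0 < ρ := Real.rpow_pos_of_pos (by positivity) _
  have hρpow : ρ ^ (k + 1) = (bin c (k + 1))⁻¹ :=
    pow_inv_eq (by positivity) (by omega)
  have heq : ∀ i, w.ty i = true → ∀ l : ℤ, l ≠ 0 →
      Tendsto (fun N => avs N (fun n => e (l * (n : ℝ) ^ w.c i))) atTop (𝓝 0) :=
    fun i _ l hl => single hB hT hR (hw.pos i) (hw.nonint i) (by exact_mod_cast hl)
  refine core hB hT hR w hw hσ0 hσ1 hρ (2 * (k + 1)) (k + 1) (by omega) (by omega) ?_ ?_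
    (fun i => if w.c i = c then 1 else 0) ?_ ?_ heq
  · intro i hi
    have := hmax i hi
    rw [hcast, h1σ]
    have h3 : (tr + 1) * (c / tr) = c + c / tr := by rw [add_mul, htσ, one_mul]
    have : 0 < c / tr := by positivity
    linarith
  · intro i hi
    rw [hcast2, h1σ, mul_assoc, htσ]
    exact (hA i hi).le
  · intro _ i hi
    rw [hcast, h1σ, htσ]
    refine ⟨hmax i hi, ?_⟩
    by_cases h : w.c i = c
    · rw [if_pos h, if_pos h, h, hρpow, mul_inv_cancel₀ hbin.ne']; simp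
    · rw [if_neg h, if_neg h]; simp
  · rw [if_pos rfl]
    apply irr_fact
    have h5 : ∑ i ∈ Finset.univ.filter (fun i => w.ty i = false),
        w.β i * (if w.c i = ((2 * (k + 1) : ℕ) : ℝ) * (1 - (1 - c / tr)) then
          bin (w.c i) (2 * (k + 1)) * ρ ^ (2 * (k + 1)) else 0) = 0 := by
      refine Finset.sum_eq_zero fun i hi => ?_
      rw [if_neg, mul_zero]
      rw [hcast2, h1σ, mul_assoc, htσ]
      exact (hA i (Finset.mem_filter.1 hi).2).ne
    rw [h5, zero_add]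
    rw [Finset.sum_eq_single j0]
    · rw [if_pos rfl]
      simpa using hw.irr j0 hj0
    · intro i _ hi
      rw [if_neg]
      · simp
      · intro h
        exact hi (hw.inj h)
    · intro h
      exact (h (Finset.mem_filter.2 ⟨Finset.mem_univ _, hj0⟩)).elim

end Pool.Agent.SqF.B0

namespace Pool.Agent.SqF

open B0 in
/-- nontrivial scalar weights have mean zero -/
theorem b0 (hB : T_B0C) (hT : T_TAY) (hR : T_RL) : T_B0 := by
  classical
  intro ι _ _ w hw
  have heq : ∀ i, w.ty i = true → ∀ l : ℤ, l ≠ 0 →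
      Tendsto (fun N => avs N (fun n => e (l * (n : ℝ) ^ w.c i))) atTop (𝓝 0) :=
    fun i _ l hl => single hB hT hR (hw.pos i) (hw.nonint i) (by exact_mod_cast hl)
  by_cases hAe : (Finset.univ.filter (fun i => w.ty i = true)).Nonempty
  · obtain ⟨i0, hi0, hi0max⟩ := Finset.exists_max_image _ w.c hAe
    have hi0' : w.ty i0 = true := (Finset.mem_filter.1 hi0).2
    have hi0max' : ∀ j, w.ty j = true → w.c j ≤ w.c i0 :=
      fun j hj => hi0max j (Finset.mem_filter.2 ⟨Finset.mem_univ _, hj⟩)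
    by_cases hall : ∀ i, w.ty i = false → w.c i < 2 * w.c i0
    · exact caseA hB hT hR w hw i0 hi0' hi0max' hall
    · push Not at hall
      obtain ⟨j1, hj1, hj1'⟩ := hall
      obtain ⟨j0, hj0, hj0max⟩ := Finset.exists_max_image
        (Finset.univ.filter (fun i => w.ty i = false)) w.c
        ⟨j1, Finset.mem_filter.2 ⟨Finset.mem_univ _, hj1⟩⟩
      have hj0max' : ∀ j, w.ty j = false → w.c j ≤ w.c j0 :=
        fun j hj => hj0max j (Finset.mem_filter.2 ⟨Finset.mem_univ _, hj⟩)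
      refine caseB hB hT hR w hw j0 (Finset.mem_filter.1 hj0).2 hj0max' ?_ heq
      intro i hi
      have h1 := hi0max' i hi
      have h2 := hj0max' j1 hj1
      linarith
  · have hno : ∀ i, w.ty i = false := by
      intro i
      by_contra h
      exact hAe ⟨i, Finset.mem_filter.2 ⟨Finset.mem_univ _, by simpa using h⟩⟩
    obtain ⟨j0, _, hj0max⟩ := Finset.exists_max_image Finset.univ w.c Finset.univ_nonempty
    refine caseB hB hT hR w hw j0 (hno j0) (fun j _ => hj0max j (Finset.mem_univ _)) ?_ heq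
    intro i hi
    rw [hno i] at hi
    exact absurd hi (by simp)

end Pool.Agent.SqF
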