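import Pool.Agent.SqF.Targets
import Pool.Agent.SqF.Basic

/-!
# MP_0b2319_an: the core of the scalar case, by a partition of unity on the torus
-/

set_option autoImplicit false

open MeasureTheory Filter Topology
open scoped ComplexConjugate

namespace Pool.Agent.SqF.B0C

/-! ## the hats -/

/-- clamping to the unit interval -/
noncomputable def cl (x : ℝ) : ℝ := max 0 (min 1 x)

lemma cl_nonneg (x : ℝ) : 0 ≤ cl x := le_max_left _ _

lemma cl_le_one (x : ℝ) : cl x ≤ 1 := max_le zero_le_one (min_le_left _ _)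

lemma cl_mono {x y : ℝ} (h : x ≤ y) : cl x ≤ cl y :=
  max_le_max le_rfl (min_le_min le_rfl h)

lemma cl_of_nonpos {x : ℝ} (h : x ≤ 0) : cl x = 0 := by
  unfold cl
  rw [min_eq_right (by linarith), max_eq_left h]

lemma cl_of_one_le {x : ℝ} (h : 1 ≤ x) : cl x = 1 := by
  unfold cl
  rw [min_eq_left h]; simp

lemma continuous_cl : Continuous cl := by unfold cl; fun_prop

/-- the hat number `j` on the grid with `K` cells -/
noncomputable def hat (K j : ℕ) (y : ℝ) : ℝ :=
  cl (K * Int.fract y - j) - cl (K * Int.fract y - (j + 1))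

/-- the sum of the hats -/
noncomputable def rho (K : ℕ) (y : ℝ) : ℝ :=
  cl (K * Int.fract y) - cl (K * Int.fract y - ((K - 1 : ℕ) : ℝ))

lemma continuous_of_fract {f : ℝ → ℝ} (hf : Continuous f) (h : f 0 = f 1) :
    Continuous (fun y => f (Int.fract y)) :=
  hf.continuousOn.comp_fract'' h

lemma continuous_hat {K j : ℕ} (hj : j + 2 ≤ K) : Continuous (hat K j) := by
  refine continuous_of_fract (f := fun z => cl (K * z - j) - cl (K * z - (j + 1))) ?_ ?_
  · exact (continuous_cl.comp (by fun_prop)).sub (continuous_cl.comp (by fun_prop))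
  · have h1 : ((j : ℕ) : ℝ) + 2 ≤ K := by exact_mod_cast hj
    have h2 : (0 : ℝ) ≤ j := Nat.cast_nonneg j
    simp only [mul_zero, mul_one]
    rw [cl_of_nonpos (by linarith), cl_of_nonpos (by linarith), cl_of_one_le (by linarith),
      cl_of_one_le (by linarith)]
    simp

lemma continuous_rho {K : ℕ} (hK : 2 ≤ K) : Continuous (rho K) := by
  refine continuous_of_fract (f := fun z => cl (K * z) - cl (K * z - ((K - 1 : ℕ) : ℝ))) ?_ ?_
  · exact (continuous_cl.comp (by fun_prop)).sub (continuous_cl.comp (by fun_prop))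
  · have h1 : (2 : ℝ) ≤ K := by exact_mod_cast hK
    have h2 : ((K - 1 : ℕ) : ℝ) = K - 1 := by
      rw [Nat.cast_sub (by omega)]; simp
    simp only [mul_zero, mul_one]
    rw [h2, cl_of_nonpos (by linarith), cl_of_nonpos (by linarith), cl_of_one_le (by linarith),
      cl_of_one_le (by linarith)]
    simp

lemma hat_per (K j : ℕ) (y : ℝ) : hat K j (y + 1) = hat K j y := by
  unfold hat; rw [Int.fract_add_one]

lemma rho_per (K : ℕ) (y : ℝ) : rho K (y + 1) = rho K y := by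
  unfold rho; rw [Int.fract_add_one]

lemma hat_nonneg (K j : ℕ) (y : ℝ) : 0 ≤ hat K j y :=
  sub_nonneg.2 (cl_mono (by linarith))

lemma hat_le_one (K j : ℕ) (y : ℝ) : hat K j y ≤ 1 := by
  unfold hat
  have h1 := cl_le_one (K * Int.fract y - j)
  have h2 := cl_nonneg (K * Int.fract y - (j + 1))
  linarith

lemma rho_nonneg (K : ℕ) (y : ℝ) : 0 ≤ rho K y :=
  sub_nonneg.2 (cl_mono (by have := Nat.cast_nonneg (α := ℝ) (K - 1); linarith))

lemma rho_le_one (K : ℕ) (y : ℝ) : rho K y ≤ 1 := by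
  unfold rho
  have h1 := cl_le_one (K * Int.fract y)
  have h2 := cl_nonneg (K * Int.fract y - ((K - 1 : ℕ) : ℝ))
  linarith

lemma hat_supp {K j : ℕ} (hK : 0 < K) {y : ℝ} (h : hat K j y ≠ 0) :
    |Int.fract y - ((j : ℝ) + 1) / K| ≤ 1 / K := by
  have hK' : (0 : ℝ) < K := by exact_mod_cast hK
  have h1 : |K * Int.fract y - (j + 1)| ≤ 1 := by
    by_contra hcon
    push Not at hcon
    apply h
    unfold hat
    rcases lt_abs.1 hcon with h2 | h2
    · rw [cl_of_one_le (by linarith), cl_of_one_le (by linarith), sub_self]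
    · rw [cl_of_nonpos (by linarith), cl_of_nonpos (by linarith), sub_self]
  have h2 : Int.fract y - ((j : ℝ) + 1) / K = (K * Int.fract y - (j + 1)) / K := by
    field_simp
  rw [h2, abs_div, abs_of_pos hK']
  gcongr

lemma sum_hat (K : ℕ) (y : ℝ) : ∑ j : Fin (K - 1), hat K j y = rho K y := by
  rw [Fin.sum_univ_eq_sum_range (fun j => hat K j y) (K - 1)]
  have h : ∀ j : ℕ, hat K j y = (fun j : ℕ => cl (K * Int.fract y - j)) j -
      (fun j : ℕ => cl (K * Int.fract y - j)) (j + 1) := by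
    intro j
    unfold hat
    push_cast
    rfl
  simp_rw [h]
  rw [Finset.sum_range_sub' (fun j : ℕ => cl (K * Int.fract y - j))]
  unfold rho
  simp

lemma rho_eq_one {K : ℕ} (hK : 2 ≤ K) {y : ℝ} (h1 : 1 / (K : ℝ) ≤ y) (h2 : y ≤ 1 - 1 / (K : ℝ)) :
    rho K y = 1 := by
  have hK' : (2 : ℝ) ≤ K := by exact_mod_cast hK
  have hp : 0 < 1 / (K : ℝ) := by positivity
  have hf : Int.fract y = y := Int.fract_eq_self.2 ⟨by linarith, by linarith⟩
  have h3 : 1 ≤ K * y := by
    have := mul_le_mul_of_nonneg_left h1 (by linarith : (0 : ℝ) ≤ K)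
    rwa [mul_one_div_cancel (by linarith : (K : ℝ) ≠ 0)] at this
  have h4 : K * y ≤ K - 1 := by
    have := mul_le_mul_of_nonneg_left h2 (by linarith : (0 : ℝ) ≤ K)
    rwa [mul_sub, mul_one, mul_one_div_cancel (by linarith : (K : ℝ) ≠ 0)] at this
  have h5 : ((K - 1 : ℕ) : ℝ) = K - 1 := by
    rw [Nat.cast_sub (by omega)]; simp
  unfold rho
  rw [hf, h5, cl_of_one_le h3, cl_of_nonpos (by linarith), sub_zero]

/-- the mean of the defect -/
lemma integral_defect {K : ℕ} (hK : 2 ≤ K) :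
    ‖∫ y in (0 : ℝ)..1, ((1 - rho K y : ℝ) : ℂ)‖ ≤ 2 / K := by
  have hK' : (2 : ℝ) ≤ K := by exact_mod_cast hK
  have hc : Continuous fun y => ((1 - rho K y : ℝ) : ℂ) :=
    Complex.continuous_ofReal.comp (continuous_const.sub (continuous_rho hK))
  have hi : ∀ a b : ℝ, IntervalIntegrable (fun y => ((1 - rho K y : ℝ) : ℂ)) volume a b :=
    fun a b => hc.intervalIntegrable a b
  have hb : ∀ y : ℝ, ‖((1 - rho K y : ℝ) : ℂ)‖ ≤ 1 := by
    intro y
    rw [Complex.norm_real, Real.norm_eq_abs, abs_of_nonneg (by linarith [rho_le_one K y])]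
    linarith [rho_nonneg K y]
  have hp : 0 < 1 / (K : ℝ) := by positivity
  have hle : 1 / (K : ℝ) ≤ 1 - 1 / (K : ℝ) := by
    have : 1 / (K : ℝ) ≤ 1 / 2 := by gcongr
    linarith
  rw [← intervalIntegral.integral_add_adjacent_intervals (hi 0 (1 / K)) (hi (1 / K) 1),
    ← intervalIntegral.integral_add_adjacent_intervals (hi (1 / K) (1 - 1 / K)) (hi (1 - 1 / K) 1)]
  have h1 : ‖∫ y in (0 : ℝ)..(1 / K), ((1 - rho K y : ℝ) : ℂ)‖ ≤ 1 / K := by
    have := intervalIntegral.norm_integral_le_of_norm_le_const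
      (a := 0) (b := 1 / (K : ℝ)) (C := 1) (fun y _ => hb y)
    simpa [abs_of_pos hp] using this
  have h2 : ∫ y in (1 / (K : ℝ))..(1 - 1 / K), ((1 - rho K y : ℝ) : ℂ) = 0 := by
    rw [intervalIntegral.integral_congr (g := fun _ => (0 : ℂ))]
    · simp
    · intro y hy
      rw [Set.uIcc_of_le hle] at hy
      simp only
      rw [rho_eq_one hK hy.1 hy.2]
      simp
  have h3 : ‖∫ y in (1 - 1 / (K : ℝ))..1, ((1 - rho K y : ℝ) : ℂ)‖ ≤ 1 / K := by
    have := intervalIntegral.norm_integral_le_of_norm_le_const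
      (a := 1 - 1 / (K : ℝ)) (b := 1) (C := 1) (fun y _ => hb y)
    simpa [abs_of_pos hp] using this
  rw [h2, zero_add]
  refine (norm_add_le _ _).trans ?_
  have : 2 / (K : ℝ) = 1 / K + 1 / K := by ring
  rw [this]
  exact add_le_add h1 h3

/-! ## equidistribution -/

lemma integral_e {l : ℤ} (hl : l ≠ 0) : ∫ y in (0 : ℝ)..1, e (l * y) = 0 := by
  have h1 : ∀ y : ℝ, e (l * y) = Complex.exp (((2 * Real.pi * l : ℝ) * Complex.I) * y) := by
    intro y
    unfold e
    congr 1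
    push_cast
    ring
  simp_rw [h1]
  have hne : ((2 * Real.pi * l : ℝ) : ℂ) * Complex.I ≠ 0 := by
    refine mul_ne_zero ?_ Complex.I_ne_zero
    have : (2 * Real.pi * l : ℝ) ≠ 0 := by
      have : (l : ℝ) ≠ 0 := by exact_mod_cast hl
      have := Real.pi_ne_zero
      positivity
    exact_mod_cast this
  rw [integral_exp_mul_complex hne]
  have h2 := h1 1
  have h3 := h1 0
  rw [mul_one] at h2
  rw [e_int] at h2
  rw [mul_zero, e_zero] at h3
  rw [← h2, ← h3]
  simp

/-- equidistribution for continuous periodic functions -/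
lemma equi (hT : T_TRIG) (x : ℕ → ℝ)
    (hx : ∀ l : ℤ, l ≠ 0 → Tendsto (fun N => avs N (fun n => e (l * x n))) atTop (𝓝 0))
    (g : ℝ → ℂ) (hg : Continuous g) (hper : ∀ y, g (y + 1) = g y) :
    Tendsto (fun N => avs N (fun n => g (x n))) atTop (𝓝 (∫ y in (0 : ℝ)..1, g y)) := by
  rw [Metric.tendsto_atTop]
  intro ε hε
  obtain ⟨F, a, hFa⟩ := hT g hg hper (ε / 4) (by positivity)
  -- averages of the trigonometric polynomial
  have hav : ∀ N, avs N (fun n => ∑ l ∈ F, a l * e (l * x n)) =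
      ∑ l ∈ F, a l * avs N (fun n => e (l * x n)) := by
    intro N
    rw [avs_sum]
    exact Finset.sum_congr rfl fun l _ => avs_mul_left N _ _
  have hint : ∫ y in (0 : ℝ)..1, ∑ l ∈ F, a l * e (l * y) =
      ∑ l ∈ F, a l * (if l = 0 then 1 else 0) := by
    rw [intervalIntegral.integral_finsetSum]
    · refine Finset.sum_congr rfl fun l _ => ?_
      rw [intervalIntegral.integral_const_mul]
      congr 1
      split_ifs with h
      · subst h
        simp [e_zero]
      · exact integral_e h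
    · intro l _
      exact (continuous_const.mul (continuous_e.comp (by fun_prop))).intervalIntegrable _ _
  have hlim : Tendsto (fun N => avs N (fun n => ∑ l ∈ F, a l * e (l * x n))) atTop
      (𝓝 (∫ y in (0 : ℝ)..1, ∑ l ∈ F, a l * e (l * y))) := by
    rw [hint]
    simp_rw [hav]
    refine tendsto_finsetSum _ fun l _ => ?_
    refine Tendsto.const_mul _ ?_
    split_ifs with h
    · subst h
      simp only [Int.cast_zero, zero_mul, e_zero, avs_const]
      exact tendsto_const_nhds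
    · exact hx l h
  have hd : ‖(∫ y in (0 : ℝ)..1, ∑ l ∈ F, a l * e (l * y)) - ∫ y in (0 : ℝ)..1, g y‖ ≤ ε / 4 := by
    rw [← intervalIntegral.integral_sub]
    · have := intervalIntegral.norm_integral_le_of_norm_le_const
        (a := 0) (b := (1 : ℝ)) (C := ε / 4)
        (f := fun y => (∑ l ∈ F, a l * e (l * y)) - g y)
        (fun y _ => by rw [norm_sub_rev]; exact hFa y)
      simpa using this
    · refine Continuous.intervalIntegrable ?_ _ _
      exact continuous_finsetSum _ fun l _ =>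
        continuous_const.mul (continuous_e.comp (by fun_prop))
    · exact hg.intervalIntegrable _ _
  obtain ⟨N₀, hN₀⟩ := (Metric.tendsto_atTop.1 hlim) (ε / 4) (by positivity)
  refine ⟨N₀, fun N hN => ?_⟩
  have h1 := hN₀ N hN
  have h2 : ‖avs N (fun n => g (x n)) - avs N (fun n => ∑ l ∈ F, a l * e (l * x n))‖ ≤ ε / 4 := by
    rw [← avs_sub]
    exact norm_avs_le_of fun n _ => hFa (x n)
  rw [dist_eq_norm] at h1 ⊢
  calc ‖avs N (fun n => g (x n)) - ∫ y in (0 : ℝ)..1, g y‖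
      = ‖(avs N (fun n => g (x n)) - avs N (fun n => ∑ l ∈ F, a l * e (l * x n))) +
        (avs N (fun n => ∑ l ∈ F, a l * e (l * x n)) -
          ∫ y in (0 : ℝ)..1, ∑ l ∈ F, a l * e (l * y)) +
        ((∫ y in (0 : ℝ)..1, ∑ l ∈ F, a l * e (l * y)) - ∫ y in (0 : ℝ)..1, g y)‖ := by
        congr 1; ring
    _ ≤ ‖avs N (fun n => g (x n)) - avs N (fun n => ∑ l ∈ F, a l * e (l * x n))‖ +
        ‖avs N (fun n => ∑ l ∈ F, a l * e (l * x n)) -
          ∫ y in (0 : ℝ)..1, ∑ l ∈ F, a l * e (l * y)‖ +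
        ‖(∫ y in (0 : ℝ)..1, ∑ l ∈ F, a l * e (l * y)) - ∫ y in (0 : ℝ)..1, g y‖ :=
        norm_add₃_le
    _ < ε := by linarith

lemma one_sub_prod_le {ι : Type} (s : Finset ι) (r : ι → ℝ) (h0 : ∀ i, 0 ≤ r i)
    (h1 : ∀ i, r i ≤ 1) : 1 - ∏ i ∈ s, r i ≤ ∑ i ∈ s, (1 - r i) := by
  classical
  induction s using Finset.induction_on with
  | empty => simp
  | insert a s ha ih =>
    rw [Finset.prod_insert ha, Finset.sum_insert ha]
    have hp0 : 0 ≤ ∏ i ∈ s, r i := Finset.prod_nonneg fun i _ => h0 i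
    have hp1 : ∏ i ∈ s, r i ≤ 1 := Finset.prod_le_one (fun i _ => h0 i) fun i _ => h1 i
    nlinarith [h0 a, h1 a]

end Pool.Agent.SqF.B0C

namespace Pool.Agent.SqF

open Pool.Agent.SqF.B0C in
/-- the core of the scalar case -/
theorem b0c (hC : T_CELL) (hT : T_TRIG) : T_B0C := by
  classical
  intro ι _ R hR t D ht hD x θ hθ Ψ ϑ hϑ γ hγ α lam hlam hirr hequi
  set v : ℕ → ℂ := fun n => e (∑ i, α i * ((⌊x i n⌋ : ℤ) : ℝ) ^ 2 + Ψ n) with hv
  have hv1 : ∀ n, ‖v n‖ = 1 := fun n => norm_e _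
  rw [Metric.tendsto_atTop]
  intro ε hε
  -- choice of the grid
  obtain ⟨K, hK⟩ : ∃ K : ℕ, 2 ≤ K ∧ (2 : ℝ) ^ t < K ∧ (Fintype.card ι : ℝ) * (3 / K) < ε / 2 := by
    obtain ⟨K₁, hK₁⟩ := exists_nat_gt (max (2 : ℝ) (max ((2 : ℝ) ^ t)
      ((Fintype.card ι : ℝ) * 3 * (2 / ε))))
    have a1 : (2 : ℝ) < K₁ := (le_max_left _ _).trans_lt hK₁
    have a2 : (2 : ℝ) ^ t < K₁ := ((le_max_left _ _).trans (le_max_right _ _)).trans_lt hK₁
    have a3 : (Fintype.card ι : ℝ) * 3 * (2 / ε) < K₁ :=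
      ((le_max_right _ _).trans (le_max_right _ _)).trans_lt hK₁
    refine ⟨K₁, by exact_mod_cast a1.le, a2, ?_⟩
    have hKp : (0 : ℝ) < K₁ := by linarith
    rw [← mul_div_assoc, div_lt_iff₀ hKp]
    have := mul_lt_mul_of_pos_right a3 (by positivity : (0 : ℝ) < ε / 2)
    have h4 : (Fintype.card ι : ℝ) * 3 * (2 / ε) * (ε / 2) = (Fintype.card ι : ℝ) * 3 := by
      field_simp
    rw [h4] at this
    linarith
  obtain ⟨hK2, hKt, hKε⟩ := hK
  have hKp : (0 : ℝ) < K := by
    have : (2 : ℝ) ≤ K := by exact_mod_cast hK2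
    linarith
  -- the cells
  have hcell : ∀ J : ι → Fin (K - 1), Tendsto (fun N => avs N (fun n => v n *
      ∏ i, (hat K (J i) (x i n) : ℂ))) atTop (𝓝 0) := by
    intro J
    refine hC ι R hR t D ht hD x θ hθ Ψ ϑ hϑ γ hγ α lam hlam hirr (fun i => hat K (J i))
      (fun i => (((J i : ℕ) : ℝ) + 1) / K) (1 / K) ?_ ?_ ?_ ?_ ?_
    · intro i
      have := (J i).2
      exact continuous_hat (by omega)
    · intro i y; exact hat_per _ _ _
    · intro i y; exact ⟨hat_nonneg _ _ _, hat_le_one _ _ _⟩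
    · intro i y hy; exact hat_supp (by omega) hy
    · rw [mul_one_div, div_lt_one hKp]; exact hKt
  have hmain : Tendsto (fun N => avs N (fun n => v n * ∏ i, (rho K (x i n) : ℂ))) atTop (𝓝 0) := by
    have h1 : Tendsto (fun N => ∑ J : ι → Fin (K - 1), avs N (fun n => v n *
      ∏ i, (hat K (J i) (x i n) : ℂ))) atTop (𝓝 (∑ _J : ι → Fin (K - 1), (0 : ℂ))) :=
      tendsto_finsetSum _ fun J _ => hcell J
    rw [Finset.sum_const_zero] at h1
    refine h1.congr fun N => ?_
    rw [← avs_sum]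
    congr 1
    ext n
    rw [← Finset.mul_sum]
    congr 1
    have h2 : ∀ i, (rho K (x i n) : ℂ) = ∑ j : Fin (K - 1), (hat K j (x i n) : ℂ) := by
      intro i
      rw [← sum_hat K (x i n)]
      push_cast
      rfl
    simp_rw [h2]
    rw [Finset.prod_univ_sum]
    simp
  -- the defect
  have hdef : ∀ i, Tendsto (fun N => avs N (fun n => ((1 - rho K (x i n) : ℝ) : ℂ))) atTop
      (𝓝 (∫ y in (0 : ℝ)..1, ((1 - rho K y : ℝ) : ℂ))) := by
    intro i
    exact equi hT (x i) (hequi i) (fun y => ((1 - rho K y : ℝ) : ℂ))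
      (Complex.continuous_ofReal.comp (continuous_const.sub (continuous_rho hK2)))
      (fun y => by rw [rho_per])
  have hdef' : ∀ i, ∀ᶠ N in atTop, ‖avs N (fun n => ((1 - rho K (x i n) : ℝ) : ℂ))‖ < 3 / K := by
    intro i
    have h1 : ‖∫ y in (0 : ℝ)..1, ((1 - rho K y : ℝ) : ℂ)‖ < 3 / K := by
      refine (integral_defect hK2).trans_lt ?_
      gcongr
      norm_num
    exact (hdef i).norm.eventually (gt_mem_nhds h1)
  have hev : ∀ᶠ N in atTop, (∀ i, ‖avs N (fun n => ((1 - rho K (x i n) : ℝ) : ℂ))‖ < 3 / K) ∧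
      ‖avs N (fun n => v n * ∏ i, (rho K (x i n) : ℂ))‖ < ε / 2 := by
    refine (eventually_all.2 hdef').and ?_
    have := hmain.norm
    rw [norm_zero] at this
    exact this.eventually (gt_mem_nhds (by positivity))
  obtain ⟨N₀, hN₀⟩ := eventually_atTop.1 hev
  refine ⟨N₀, fun N hN => ?_⟩
  obtain ⟨h1, h2⟩ := hN₀ N hN
  rw [dist_zero_right]
  have h3 : avs N v = avs N (fun n => v n * ∏ i, (rho K (x i n) : ℂ)) +
      avs N (fun n => v n * ((1 - ∏ i, rho K (x i n) : ℝ) : ℂ)) := by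
    rw [← avs_add]
    congr 1
    ext n
    push_cast
    ring
  have h4 : ‖avs N (fun n => v n * ((1 - ∏ i, rho K (x i n) : ℝ) : ℂ))‖ ≤
      ∑ i, ‖avs N (fun n => ((1 - rho K (x i n) : ℝ) : ℂ))‖ := by
    have hLp := L_pos' N
    have h5 : ‖avs N (fun n => v n * ((1 - ∏ i, rho K (x i n) : ℝ) : ℂ))‖ ≤
        (L N : ℝ)⁻¹ * ∑ n ∈ W N, ∑ i, (1 - rho K (x i n)) := by
      unfold avs
      rw [norm_mul, norm_inv, Complex.norm_natCast]
      gcongr
      refine (norm_sum_le _ _).trans ?_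
      refine Finset.sum_le_sum fun n _ => ?_
      have hp1 : ∏ i, rho K (x i n) ≤ 1 :=
        Finset.prod_le_one (fun i _ => rho_nonneg _ _) fun i _ => rho_le_one _ _
      rw [norm_mul, hv1, one_mul, Complex.norm_real, Real.norm_eq_abs,
        abs_of_nonneg (by linarith)]
      exact one_sub_prod_le _ _ (fun i => rho_nonneg _ _) fun i => rho_le_one _ _
    refine h5.trans ?_
    rw [Finset.sum_comm, Finset.mul_sum]
    refine Finset.sum_le_sum fun i _ => ?_
    have h6 : avs N (fun n => ((1 - rho K (x i n) : ℝ) : ℂ)) =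
        (((L N : ℝ)⁻¹ * ∑ n ∈ W N, (1 - rho K (x i n)) : ℝ) : ℂ) := by
      unfold avs
      push_cast
      rfl
    rw [h6, Complex.norm_real, Real.norm_eq_abs]
    exact le_abs_self _
  have h7 : ∑ i, ‖avs N (fun n => ((1 - rho K (x i n) : ℝ) : ℂ))‖ ≤
      (Fintype.card ι : ℝ) * (3 / K) := by
    calc ∑ i, ‖avs N (fun n => ((1 - rho K (x i n) : ℝ) : ℂ))‖ ≤ ∑ _i : ι, (3 / (K : ℝ)) :=
          Finset.sum_le_sum fun i _ => (h1 i).le
      _ = (Fintype.card ι : ℝ) * (3 / K) := by simp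
  rw [h3]
  calc ‖avs N (fun n => v n * ∏ i, (rho K (x i n) : ℂ)) +
      avs N (fun n => v n * ((1 - ∏ i, rho K (x i n) : ℝ) : ℂ))‖ ≤ _ + _ := norm_add_le _ _
    _ < ε := by linarith

end Pool.Agent.SqF
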