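import Pool.Agent.SqF.Targets

/-!
# MP_0b2319_an, part BOX: box Cauchy-Schwarz
-/

set_option autoImplicit false

open MeasureTheory Filter Topology
open scoped ComplexConjugate

namespace Pool.Agent.SqF

namespace BOX

/-! ### bounded measurable functions -/

section B1
variable {Z : Type} [MeasurableSpace Z]

theorem b1_mul {f g : Z → ℂ} (hf : B1 f) (hg : B1 g) : B1 (fun z => f z * g z) := by
  constructor
  · exact hf.meas.mul hg.meas
  · intro z
    rw [norm_mul]
    exact mul_le_one₀ (hf.le z) (norm_nonneg _) (hg.le z)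

theorem b1_conj {f : Z → ℂ} (hf : B1 f) : B1 (fun z => conj (f z)) := by
  constructor
  · exact Complex.continuous_conj.measurable.comp hf.meas
  · intro z
    rw [Complex.norm_conj]
    exact hf.le z

theorem b1_prod {ι : Type} (s : Finset ι) {f : ι → Z → ℂ} (hf : ∀ i, B1 (f i)) :
    B1 (fun z => ∏ i ∈ s, f i z) := by
  constructor
  · exact Finset.measurable_fun_prod s (fun i _ => (hf i).meas)
  · intro z
    rw [norm_prod]
    exact Finset.prod_le_one (fun i _ => norm_nonneg _) (fun i _ => (hf i).le z)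

theorem b1_int {f : Z → ℂ} (hf : B1 f) (ν : Measure Z) [IsProbabilityMeasure ν] :
    Integrable f ν :=
  Integrable.of_bound hf.meas.aestronglyMeasurable 1 (Eventually.of_forall hf.le)

end B1

/-- average over `range n` -/
noncomputable def aE {E : Type} [AddCommGroup E] [Module ℝ E] (n : ℕ) (f : ℕ → E) : E :=
  (n : ℝ)⁻¹ • ∑ k ∈ Finset.range n, f k

theorem sum_box_succ {E : Type} [AddCommMonoid E] {r : ℕ} (H : Fin (r + 1) → ℕ)
    (F : (Fin (r + 1) → ℕ) → E) :
    ∑ h ∈ box H, F h = ∑ k ∈ Finset.range (H 0), ∑ t ∈ box (Fin.tail H), F (Fin.cons k t) := by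
  rw [← Finset.sum_product']
  refine Finset.sum_bij' (fun h _ => (h 0, Fin.tail h)) (fun p _ => Fin.cons p.1 p.2) ?_ ?_ ?_ ?_ ?_
  · intro h hh
    simp only [box, Fintype.mem_piFinset, Finset.mem_product] at hh ⊢
    exact ⟨hh 0, fun j => hh j.succ⟩
  · intro p hp
    simp only [box, Fintype.mem_piFinset, Finset.mem_product] at hp ⊢
    intro j
    refine Fin.cases ?_ (fun i => ?_) j
    · simpa using hp.1
    · simpa [Fin.tail] using hp.2 i
  · intro h _
    simp
  · intro p _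
    simp
  · intro h _
    simp

theorem card_box_succ {r : ℕ} (H : Fin (r + 1) → ℕ) :
    (box H).card = H 0 * (box (Fin.tail H)).card := by
  unfold box
  rw [Fintype.card_piFinset, Fintype.card_piFinset, Fin.prod_univ_succ]
  simp [Fin.tail]

theorem card_box_pos {r : ℕ} (H : Fin r → ℕ) (hH : ∀ j, 0 < H j) : 0 < (box H).card := by
  unfold box
  rw [Fintype.card_piFinset]
  apply Finset.prod_pos
  intro j _
  simpa using hH j

theorem boxE_succ {E : Type} [AddCommGroup E] [Module ℝ E] {r : ℕ} (H : Fin (r + 1) → ℕ)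
    (F : (Fin (r + 1) → ℕ) → E) :
    boxE H F = aE (H 0) (fun k => boxE (Fin.tail H) (fun t => F (Fin.cons k t))) := by
  unfold boxE aE
  rw [sum_box_succ, card_box_succ, ← Finset.smul_sum, smul_smul]
  push_cast
  rw [mul_inv]

theorem aE_boxE_comm {E : Type} [AddCommGroup E] [Module ℝ E] {r : ℕ} (n : ℕ) (H : Fin r → ℕ)
    (F : ℕ → (Fin r → ℕ) → E) :
    aE n (fun k => boxE H (fun t => F k t)) = boxE H (fun t => aE n (fun k => F k t)) := by
  unfold aE boxE
  rw [← Finset.smul_sum, ← Finset.smul_sum, smul_smul, smul_smul, mul_comm, Finset.sum_comm]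

/-- norms of averages -/
theorem norm_boxE_le {r : ℕ} (H : Fin r → ℕ) (F : (Fin r → ℕ) → ℂ) :
    ‖boxE H F‖ ≤ boxE H (fun h => ‖F h‖) := by
  unfold boxE
  rw [norm_smul, norm_inv, Real.norm_natCast, smul_eq_mul]
  exact mul_le_mul_of_nonneg_left (norm_sum_le _ _) (by positivity)

theorem boxE_mono {r : ℕ} (H : Fin r → ℕ) (F G : (Fin r → ℕ) → ℝ) (h : ∀ t, F t ≤ G t) :
    boxE H F ≤ boxE H G := by
  unfold boxE
  rw [smul_eq_mul, smul_eq_mul]
  exact mul_le_mul_of_nonneg_left (Finset.sum_le_sum (fun t _ => h t)) (by positivity)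

theorem aE_mono (n : ℕ) (F G : ℕ → ℝ) (h : ∀ t, F t ≤ G t) : aE n F ≤ aE n G := by
  unfold aE
  rw [smul_eq_mul, smul_eq_mul]
  exact mul_le_mul_of_nonneg_left (Finset.sum_le_sum (fun t _ => h t)) (by positivity)

theorem boxE_re {r : ℕ} (H : Fin r → ℕ) (F : (Fin r → ℕ) → ℂ) :
    (boxE H F).re = boxE H (fun h => (F h).re) := by
  unfold boxE
  rw [Complex.real_smul, Complex.re_ofReal_mul, Complex.re_sum, smul_eq_mul]

theorem aE_re (n : ℕ) (F : ℕ → ℂ) : (aE n F).re = aE n (fun h => (F h).re) := by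
  unfold aE
  rw [Complex.real_smul, Complex.re_ofReal_mul, Complex.re_sum, smul_eq_mul]

/-- power means -/
theorem pow_boxE_le {r : ℕ} (H : Fin r → ℕ) (F : (Fin r → ℕ) → ℝ) (hF : ∀ t, 0 ≤ F t) (m : ℕ)
    (hH : ∀ j, 0 < H j) : (boxE H F) ^ m ≤ boxE H (fun t => F t ^ m) := by
  unfold boxE
  have hc : (0 : ℝ) < ((box H).card : ℝ) := by exact_mod_cast card_box_pos H hH
  have := Real.pow_arith_mean_le_arith_mean_pow (box H) (fun _ => ((box H).card : ℝ)⁻¹) F
    (fun _ _ => by positivity) (by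
      rw [Finset.sum_const, nsmul_eq_mul]
      exact mul_inv_cancel₀ hc.ne') (fun t _ => hF t) m
  rw [smul_eq_mul, smul_eq_mul, Finset.mul_sum, Finset.mul_sum]
  exact this

theorem pow_aE_le (n : ℕ) (F : ℕ → ℝ) (hF : ∀ t, 0 ≤ F t) (m : ℕ)
    (hn : 0 < n) : (aE n F) ^ m ≤ aE n (fun t => F t ^ m) := by
  unfold aE
  have hc : (0 : ℝ) < (n : ℝ) := by exact_mod_cast hn
  have := Real.pow_arith_mean_le_arith_mean_pow (Finset.range n) (fun _ => (n : ℝ)⁻¹) F
    (fun _ _ => by positivity) (by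
      rw [Finset.sum_const, nsmul_eq_mul, Finset.card_range]
      exact mul_inv_cancel₀ hc.ne') (fun t _ => hF t) m
  rw [smul_eq_mul, smul_eq_mul, Finset.mul_sum, Finset.mul_sum]
  exact this

theorem aE_nonneg (n : ℕ) (F : ℕ → ℝ) (hF : ∀ t, 0 ≤ F t) : 0 ≤ aE n F := by
  unfold aE
  rw [smul_eq_mul]
  exact mul_nonneg (by positivity) (Finset.sum_nonneg (fun t _ => hF t))

theorem boxE_nonneg {r : ℕ} (H : Fin r → ℕ) (F : (Fin r → ℕ) → ℝ) (hF : ∀ t, 0 ≤ F t) :
    0 ≤ boxE H F := by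
  unfold boxE
  rw [smul_eq_mul]
  exact mul_nonneg (by positivity) (Finset.sum_nonneg (fun t _ => hF t))

/-- an average of functions in the unit ball is in the unit ball -/
theorem aE_norm_le (n : ℕ) (F : ℕ → ℂ) (hF : ∀ k, ‖F k‖ ≤ 1) : ‖aE n F‖ ≤ 1 := by
  unfold aE
  rw [norm_smul, norm_inv, Real.norm_natCast]
  rcases Nat.eq_zero_or_pos n with rfl | hn
  · simp
  · have hc : (0 : ℝ) < (n : ℝ) := by exact_mod_cast hn
    rw [inv_mul_le_iff₀ hc, mul_one]
    refine (norm_sum_le _ _).trans ?_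
    refine (Finset.sum_le_sum (fun k _ => hF k)).trans ?_
    simp

section
variable {Z : Type} [MeasurableSpace Z] (ν : Measure Z) [IsProbabilityMeasure ν]

theorem b1_aE (n : ℕ) {f : ℕ → Z → ℂ} (hf : ∀ k, B1 (f k)) :
    B1 (fun z => aE n (fun k => f k z)) := by
  constructor
  · unfold aE
    exact (Finset.measurable_fun_sum _ (fun k _ => (hf k).meas)).const_smul _
  · intro z
    exact aE_norm_le n _ (fun k => (hf k).le z)

theorem sq_int_le {f : Z → ℂ} (hf : B1 f) : (∫ z, ‖f z‖ ∂ν) ^ 2 ≤ ∫ z, ‖f z‖ ^ 2 ∂ν := by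
  set m := ∫ z, ‖f z‖ ∂ν with hm
  have hi1 : Integrable (fun z => ‖f z‖) ν := (b1_int hf ν).norm
  have hi2 : Integrable (fun z => ‖f z‖ ^ 2) ν := by
    refine Integrable.of_bound (hf.meas.norm.pow_const 2).aestronglyMeasurable 1
      (Eventually.of_forall (fun z => ?_))
    rw [norm_pow, norm_norm]
    exact pow_le_one₀ (norm_nonneg _) (hf.le z)
  have h0 : 0 ≤ ∫ z, (‖f z‖ - m) ^ 2 ∂ν := integral_nonneg (fun z => sq_nonneg _)
  have h1 : ∫ z, (‖f z‖ - m) ^ 2 ∂ν = (∫ z, ‖f z‖ ^ 2 ∂ν) - m ^ 2 := by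
    have : (fun z => (‖f z‖ - m) ^ 2) = fun z => (‖f z‖ ^ 2 - (2 * m) * ‖f z‖) + m ^ 2 := by
      funext z; ring
    have hi3 : Integrable (fun z => ‖f z‖ ^ 2 - (2 * m) * ‖f z‖) ν :=
      hi2.sub (hi1.const_mul _)
    rw [this, integral_add hi3 (integrable_const _),
      integral_sub hi2 (hi1.const_mul _), integral_const_mul, ← hm]
    simp
    ring
  linarith

/-- `int |E_k f_k|^2` expanded -/
theorem int_sq_aE (n : ℕ) {f : ℕ → Z → ℂ} (hf : ∀ k, B1 (f k)) :
    ∫ z, ‖aE n (fun k => f k z)‖ ^ 2 ∂ν =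
      aE n (fun k => aE n (fun k' => (∫ z, f k z * conj (f k' z) ∂ν).re)) := by
  have h1 : ∀ z, ‖aE n (fun k => f k z)‖ ^ 2 =
      (aE n (fun k => aE n (fun k' => f k z * conj (f k' z)))).re := by
    intro z
    have : ((‖aE n (fun k => f k z)‖ ^ 2 : ℝ) : ℂ) =
        aE n (fun k => aE n (fun k' => f k z * conj (f k' z))) := by
      push_cast
      rw [← Complex.mul_conj']
      unfold aE
      simp only [Complex.real_smul, map_mul, map_sum, Complex.conj_ofReal]
      rw [mul_mul_mul_comm, Finset.sum_mul_sum]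
      simp only [Finset.mul_sum]
      refine Finset.sum_congr rfl (fun k _ => Finset.sum_congr rfl (fun k' _ => ?_))
      ring
    rw [← this, Complex.ofReal_re]
  simp_rw [h1]
  have h2 : (∫ z, (aE n (fun k => aE n (fun k' => f k z * conj (f k' z)))).re ∂ν) =
      (∫ z, (aE n (fun k => aE n (fun k' => f k z * conj (f k' z)))) ∂ν).re := by
    have hb : B1 (fun z => aE n (fun k => aE n (fun k' => f k z * conj (f k' z)))) :=
      b1_aE n (fun k => b1_aE n (fun k' => b1_mul (hf k) (b1_conj (hf k'))))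
    have := integral_re (b1_int hb ν)
    simpa using this
  rw [h2]
  have h3 : ∫ z, (aE n (fun k => aE n (fun k' => f k z * conj (f k' z)))) ∂ν =
      aE n (fun k => aE n (fun k' => ∫ z, f k z * conj (f k' z) ∂ν)) := by
    unfold aE
    rw [integral_smul, integral_finsetSum]
    · congr 1
      refine Finset.sum_congr rfl (fun k _ => ?_)
      rw [integral_smul, integral_finsetSum]
      intro k' _
      exact b1_int (b1_mul (hf k) (b1_conj (hf k'))) ν
    · intro k _
      exact b1_int (b1_aE n (fun k' => b1_mul (hf k) (b1_conj (hf k')))) ν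
  rw [h3, aE_re]
  congr 1
  funext k
  rw [aE_re]

/-- one Cauchy-Schwarz step -/
theorem step {r : ℕ} (H : Fin (r + 1) → ℕ) (hH : ∀ j, 0 < H j)
    (A : (Fin (r + 1) → ℕ) → Z → ℂ) (Ψ : Fin (r + 1) → (Fin (r + 1) → ℕ) → Z → ℂ)
    (hA : ∀ h, B1 (A h)) (hΨ : ∀ j h, B1 (Ψ j h))
    (hi : ∀ j h t, Ψ j (Function.update h j t) = Ψ j h) :
    ‖boxE H (fun h => ∫ z, A h z * ∏ j, Ψ j h z ∂ν)‖ ^ 2 ≤
      aE (H 0) (fun k => aE (H 0) (fun k' => (boxE (Fin.tail H) (fun t =>
        ∫ z, (A (Fin.cons k t) z * conj (A (Fin.cons k' t) z)) *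
          ∏ j : Fin r, (Ψ j.succ (Fin.cons k t) z * conj (Ψ j.succ (Fin.cons k' t) z)) ∂ν)).re)) := by
  -- the functions without the factor `Ψ 0`
  set B : ℕ → (Fin r → ℕ) → Z → ℂ := fun k t z =>
    A (Fin.cons k t) z * ∏ j : Fin r, Ψ j.succ (Fin.cons k t) z with hB
  have hB1 : ∀ k t, B1 (B k t) := fun k t =>
    b1_mul (hA _) (b1_prod _ (fun j => hΨ _ _))
  have htail : ∀ j, 0 < Fin.tail H j := fun j => hH j.succ
  -- first, the left hand side
  have h0 : ∀ k t, Ψ 0 (Fin.cons k t : Fin (r + 1) → ℕ) = Ψ 0 (Fin.cons 0 t) := by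
    intro k t
    have := hi 0 (Fin.cons 0 t : Fin (r + 1) → ℕ) k
    rw [Fin.update_cons_zero] at this
    exact this
  have hL : boxE H (fun h => ∫ z, A h z * ∏ j, Ψ j h z ∂ν) =
      boxE (Fin.tail H) (fun t => ∫ z, Ψ 0 (Fin.cons 0 t) z * aE (H 0) (fun k => B k t z) ∂ν) := by
    rw [boxE_succ, aE_boxE_comm]
    congr 1
    funext t
    have e1 : ∀ z, Ψ 0 (Fin.cons 0 t) z * aE (H 0) (fun k => B k t z) =
        aE (H 0) (fun k => A (Fin.cons k t) z * ∏ j, Ψ j (Fin.cons k t : Fin (r + 1) → ℕ) z) := by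
      intro z
      unfold aE
      rw [Complex.real_smul, Complex.real_smul, mul_left_comm, Finset.mul_sum]
      congr 1
      refine Finset.sum_congr rfl (fun k _ => ?_)
      simp only [hB]
      rw [Fin.prod_univ_succ, h0 k t]
      ring
    simp_rw [e1]
    unfold aE
    rw [integral_smul, integral_finsetSum]
    intro k _
    exact b1_int (b1_mul (hA _) (b1_prod _ (fun j => hΨ _ _))) ν
  have h1 : ‖boxE H (fun h => ∫ z, A h z * ∏ j, Ψ j h z ∂ν)‖ ≤
      boxE (Fin.tail H) (fun t => ∫ z, ‖aE (H 0) (fun k => B k t z)‖ ∂ν) := by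
    rw [hL]
    refine (norm_boxE_le _ _).trans (boxE_mono _ _ _ (fun t => ?_))
    refine (norm_integral_le_integral_norm _).trans ?_
    refine integral_mono (b1_int (b1_mul (hΨ _ _) (b1_aE _ (fun k => hB1 k t))) ν).norm
      (b1_int (b1_aE _ (fun k => hB1 k t)) ν).norm (fun z => ?_)
    simp only [norm_mul]
    exact mul_le_of_le_one_left (norm_nonneg _) ((hΨ _ _).le z)
  have h2 : ‖boxE H (fun h => ∫ z, A h z * ∏ j, Ψ j h z ∂ν)‖ ^ 2 ≤
      boxE (Fin.tail H) (fun t => ∫ z, ‖aE (H 0) (fun k => B k t z)‖ ^ 2 ∂ν) := by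
    refine (pow_le_pow_left₀ (norm_nonneg _) h1 2).trans ?_
    refine (pow_boxE_le _ _ (fun t => integral_nonneg (fun z => norm_nonneg _)) 2 htail).trans ?_
    exact boxE_mono _ _ _ (fun t => sq_int_le ν (b1_aE _ (fun k => hB1 k t)))
  refine h2.trans (le_of_eq ?_)
  have h3 : ∀ t, ∫ z, ‖aE (H 0) (fun k => B k t z)‖ ^ 2 ∂ν =
      aE (H 0) (fun k => aE (H 0) (fun k' => (∫ z, B k t z * conj (B k' t z) ∂ν).re)) :=
    fun t => int_sq_aE ν (H 0) (fun k => hB1 k t)
  simp_rw [h3]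
  rw [← aE_boxE_comm]
  congr 1
  funext k
  rw [← aE_boxE_comm]
  congr 1
  funext k'
  rw [boxE_re]
  congr 1
  funext t
  congr 1
  congr 1
  funext z
  rw [hB]
  simp only [map_mul, map_prod, Finset.prod_mul_distrib]
  ring

omit [IsProbabilityMeasure ν] in
theorem expand {r : ℕ} (H : Fin (r + 1) → ℕ) (A : (Fin (r + 1) → ℕ) → Z → ℂ) :
    (boxE H fun h => boxE H fun h' => ∫ z, cb (r + 1) (fun t => A t z) h h' ∂ν).re =
      aE (H 0) (fun k => aE (H 0) (fun k' => (boxE (Fin.tail H) fun t => boxE (Fin.tail H) fun t' =>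
        ∫ z, cb r (fun s => A (Fin.cons k s) z * conj (A (Fin.cons k' s) z)) t t' ∂ν).re)) := by
  rw [boxE_succ, aE_re]
  congr 1
  funext k
  rw [← aE_re]
  congr 1
  rw [aE_boxE_comm]
  congr 1
  funext t
  rw [boxE_succ]
  congr 1

theorem aE_aE_pow (n : ℕ) (hn : 0 < n) (F : ℕ → ℕ → ℝ) (hF : ∀ k k', 0 ≤ F k k') (m : ℕ) :
    (aE n (fun k => aE n (fun k' => F k k'))) ^ m ≤
      aE n (fun k => aE n (fun k' => F k k' ^ m)) := by
  refine (pow_aE_le n _ (fun k => aE_nonneg n _ (hF k)) m hn).trans ?_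
  exact aE_mono n _ _ (fun k => pow_aE_le n _ (hF k) m hn)

end

end BOX

open BOX

theorem box_cs : T_BOX := by
  intro Z _ ν _ r
  induction r with
  | zero => intro H h; omega
  | succ r ih =>
    intro H _ hH A Ψ hA hΨ hi
    have hs := step ν H hH A Ψ hA hΨ hi
    rw [expand]
    rcases Nat.eq_zero_or_pos r with rfl | hr
    · refine hs.trans (le_of_eq ?_)
      congr 1
      funext k
      congr 1
      funext k'
      congr 1
      simp [boxE, cb, box]
    · have htail : ∀ j, 0 < Fin.tail H j := fun j => hH j.succ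
      rw [pow_succ', pow_mul]
      refine (pow_le_pow_left₀ (by positivity) hs (2 ^ r)).trans ?_
      have hle : aE (H 0) (fun k => aE (H 0) (fun k' => (boxE (Fin.tail H) (fun t =>
        ∫ z, (A (Fin.cons k t) z * conj (A (Fin.cons k' t) z)) *
          ∏ j : Fin r, (Ψ j.succ (Fin.cons k t) z * conj (Ψ j.succ (Fin.cons k' t) z)) ∂ν)).re)) ≤
          aE (H 0) (fun k => aE (H 0) (fun k' => ‖boxE (Fin.tail H) (fun t =>
        ∫ z, (A (Fin.cons k t) z * conj (A (Fin.cons k' t) z)) *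
          ∏ j : Fin r, (Ψ j.succ (Fin.cons k t) z * conj (Ψ j.succ (Fin.cons k' t) z)) ∂ν)‖)) :=
        aE_mono _ _ _ (fun k => aE_mono _ _ _ (fun k' => Complex.re_le_norm _))
      refine (pow_le_pow_left₀ ((sq_nonneg _).trans hs) hle (2 ^ r)).trans ?_
      refine (aE_aE_pow _ (hH 0) _ (fun k k' => norm_nonneg _) _).trans ?_
      refine aE_mono _ _ _ (fun k => aE_mono _ _ _ (fun k' => ?_))
      have := ih (Fin.tail H) hr htail
        (fun t z => A (Fin.cons k t) z * conj (A (Fin.cons k' t) z))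
        (fun j t z => Ψ j.succ (Fin.cons k t) z * conj (Ψ j.succ (Fin.cons k' t) z))
        (fun t => b1_mul (hA _) (b1_conj (hA _)))
        (fun j t => b1_mul (hΨ _ _) (b1_conj (hΨ _ _)))
        (fun j t s => by
          funext z
          have e1 : ∀ k : ℕ, Ψ j.succ (Fin.cons k (Function.update t j s) : Fin (r + 1) → ℕ) =
              Ψ j.succ (Fin.cons k t) := by
            intro k
            rw [Fin.cons_update]
            exact hi _ _ _
          simp only [e1])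
      exact this

end Pool.Agent.SqF
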