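import Pool.Agent.SqF.Targets
import Pool.Agent.SqF.Basic

/-!
# MP_0b2319_an, part CELL: scalar averages localised to a cell
-/

set_option autoImplicit false

open MeasureTheory Filter Topology
open scoped ComplexConjugate

namespace Pool.Agent.SqF

namespace CELL

lemma acb_add : ∀ (r : ℕ) (a a' : (Fin r → ℕ) → ℝ) (h h' : Fin r → ℕ),
    acb r (fun t => a t + a' t) h h' = acb r a h h' + acb r a' h h'
  | 0, a, a', h, h' => rfl
  | r + 1, a, a', h, h' => by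
    simp only [acb]
    rw [← acb_add r]
    congr 1
    ext t
    ring

lemma acb_zero : ∀ (r : ℕ) (h h' : Fin r → ℕ), acb r (fun _ => 0) h h' = 0
  | 0, h, h' => rfl
  | r + 1, h, h' => by
    simp only [acb]
    rw [sub_self]
    exact acb_zero r _ _

lemma acb_sum {ι : Type} (s : Finset ι) (r : ℕ) (a : ι → (Fin r → ℕ) → ℝ) (h h' : Fin r → ℕ) :
    acb r (fun t => ∑ i ∈ s, a i t) h h' = ∑ i ∈ s, acb r (a i) h h' := by
  classical
  induction s using Finset.induction_on with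
  | empty => simp [acb_zero]
  | insert x s hx ih =>
    rw [Finset.sum_insert hx, ← ih, ← acb_add]
    congr 1
    ext t
    rw [Finset.sum_insert hx]

lemma prod_sub_le {ι : Type} (s : Finset ι) (a b : ι → ℂ) (δ : ℝ) (hδ : 0 ≤ δ)
    (ha : ∀ i ∈ s, ‖a i‖ ≤ 1) (hab : ∀ i ∈ s, ‖b i - a i‖ ≤ δ) :
    ‖∏ i ∈ s, b i - ∏ i ∈ s, a i‖ ≤ (1 + δ) ^ s.card - 1 := by
  classical
  induction s using Finset.induction_on with
  | empty => simp
  | insert x s hx ih =>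
    rw [Finset.prod_insert hx, Finset.prod_insert hx, Finset.card_insert_of_notMem hx]
    have h1 := ih (fun i hi => ha i (Finset.mem_insert_of_mem hi))
      (fun i hi => hab i (Finset.mem_insert_of_mem hi))
    have h2 : b x * ∏ i ∈ s, b i - a x * ∏ i ∈ s, a i =
      b x * (∏ i ∈ s, b i - ∏ i ∈ s, a i) + (b x - a x) * ∏ i ∈ s, a i := by ring
    have h0 := hab x (Finset.mem_insert_self x s)
    have h3 : ‖b x‖ ≤ 1 + δ := by
      calc ‖b x‖ = ‖a x + (b x - a x)‖ := by congr 1; ring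
        _ ≤ ‖a x‖ + ‖b x - a x‖ := norm_add_le _ _
        _ ≤ 1 + δ := add_le_add (ha x (Finset.mem_insert_self x s)) h0
    have h4 : ‖∏ i ∈ s, a i‖ ≤ 1 := by
      rw [norm_prod]
      exact Finset.prod_le_one (fun i _ => norm_nonneg _)
        (fun i hi => ha i (Finset.mem_insert_of_mem hi))
    rw [h2]
    calc ‖b x * (∏ i ∈ s, b i - ∏ i ∈ s, a i) + (b x - a x) * ∏ i ∈ s, a i‖
        ≤ ‖b x‖ * ‖∏ i ∈ s, b i - ∏ i ∈ s, a i‖ + ‖b x - a x‖ * ‖∏ i ∈ s, a i‖ := by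
          refine (norm_add_le _ _).trans ?_
          rw [norm_mul, norm_mul]
      _ ≤ (1 + δ) * ((1 + δ) ^ s.card - 1) + δ * 1 := by
          refine add_le_add (mul_le_mul h3 h1 (norm_nonneg _) (by linarith))
            (mul_le_mul h0 h4 (norm_nonneg _) hδ)
      _ = (1 + δ) ^ (s.card + 1) - 1 := by ring

lemma sm_cast {t : ℕ} (q : Fin t → ℕ) : (sm q : ℝ) = ((∑ j, q j : ℕ) : ℝ) := by
  unfold sm; push_cast; rfl

lemma vtx_le {t : ℕ} {H h h' : Fin t → ℕ} (hh : h ∈ box H) (hh' : h' ∈ box H)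
    (ω : Fin t → Bool) : ∑ j, vtx h h' ω j ≤ ∑ j, H j := by
  rw [mem_box] at hh hh'
  refine Finset.sum_le_sum fun j _ => ?_
  unfold vtx
  split_ifs
  · exact (hh' j).le
  · exact (hh j).le

lemma box_sum_le {t : ℕ} {H h : Fin t → ℕ} (hh : h ∈ box H) : ∑ j, h j ≤ ∑ j, H j := by
  rw [mem_box] at hh
  exact Finset.sum_le_sum fun j _ => (hh j).le

lemma abs_sub_box {t : ℕ} {H h h' : Fin t → ℕ} (hh : h ∈ box H) (hh' : h' ∈ box H) (l : Fin t) :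
    |(h l : ℝ) - h' l| ≤ H l := by
  rw [mem_box] at hh hh'
  have h1 : (h l : ℝ) ≤ H l := by exact_mod_cast (hh l).le
  have h2 : (h' l : ℝ) ≤ H l := by exact_mod_cast (hh' l).le
  have h3 : (0 : ℝ) ≤ h l := Nat.cast_nonneg _
  have h4 : (0 : ℝ) ≤ h' l := Nat.cast_nonneg _
  rw [abs_le]; constructor <;> linarith

lemma prod_one_add_le {t : ℕ} {H h h' : Fin t → ℕ} (hh : h ∈ box H) (hh' : h' ∈ box H) :
    ∏ l, (1 + |(h l : ℝ) - h' l|) ≤ ∏ l, (1 + (H l : ℝ)) :=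
  Finset.prod_le_prod (fun l _ => by positivity)
    (fun l _ => by have := abs_sub_box hh hh' l; linarith)

lemma abs_prod_le {t : ℕ} {H h h' : Fin t → ℕ} (hh : h ∈ box H) (hh' : h' ∈ box H) :
    |∏ l, ((h l : ℝ) - h' l)| ≤ ∏ l, (1 + (H l : ℝ)) := by
  rw [Finset.abs_prod]
  exact Finset.prod_le_prod (fun l _ => abs_nonneg _)
    (fun l _ => by have := abs_sub_box hh hh' l; linarith)

/-- the phase on the cube -/
lemma phase_cube (hcube : T_CUBE) (hpoly : T_ACB_poly) (hvtx : T_CB_vtx)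
    {ι : Type} [Fintype ι] {t D : ℕ} (ht : 1 ≤ t) (hD : 2 * D ≤ t) {H : Fin t → ℕ}
    {X : ι → ℕ → ℝ} {θ : ι → ℕ → ℝ} {P : ℕ → ℝ} {ϑ : ℕ → ℝ} {γ : ℝ} {α : ι → ℝ} {lam : ι → ℤ}
    {g : ι → ℝ → ℝ} {a : ι → ℝ} {δ η : ℝ}
    (hX : ∀ i, ∀ y ≤ ∑ j, H j, |X i y - ∑ j ∈ Finset.range (D + 1), θ i j * (y : ℝ) ^ j| ≤ η)
    (hP : ∀ y ≤ ∑ j, H j, |P y - ∑ j ∈ Finset.range (t + 1), ϑ j * (y : ℝ) ^ j| ≤ η)
    (hγ : |ϑ t - γ| ≤ η) (hlam : 2 * D = t → ∀ i, |θ i D - lam i| ≤ η)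
    (hg : ∀ i y, g i y ≠ 0 → |Int.fract y - a i| ≤ δ)
    (hη : 2 ^ t * (δ + η) + η * (D.factorial : ℝ) * ∏ l, (1 + (H l : ℝ)) < 1)
    {h h' : Fin t → ℕ} (hh : h ∈ box H) (hh' : h' ∈ box H)
    (hc : ∀ ω i, g i (X i (∑ j, vtx h h' ω j)) ≠ 0) :
    |acb t (fun q => ∑ i, α i * ((⌊X i (∑ j, q j)⌋ : ℤ) : ℝ) ^ 2 + P (∑ j, q j)) h h' -
      ((t.factorial : ℝ) * (γ + if 2 * D = t then ∑ i, α i * (lam i : ℝ) ^ 2 else 0)) *
        ∏ l, ((h l : ℝ) - h' l)| ≤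
      2 ^ t * η + η * (t.factorial : ℝ) * ∏ l, (1 + (H l : ℝ)) := by
  have hη0 : 0 ≤ η := (abs_nonneg _).trans hγ
  have hprod0 : (0 : ℝ) ≤ ∏ l, (1 + (H l : ℝ)) := Finset.prod_nonneg fun l _ => by positivity
  rw [acb_add, acb_sum]
  -- the squares
  have hsq : ∀ i, acb t (fun q => α i * ((⌊X i (∑ j, q j)⌋ : ℤ) : ℝ) ^ 2) h h' =
      if 2 * D = t then α i * (lam i : ℝ) ^ 2 * (t.factorial : ℝ) * ∏ l, ((h l : ℝ) - h' l)
        else 0 := by
    intro i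
    refine hcube t D ht hD h h' (fun q => ⌊X i (∑ j, q j)⌋) (θ i) (a i) (δ + η) (lam i) ?_ ?_ (α i)
    · intro ω
      have e1 := hX i _ (vtx_le hh hh' ω)
      have e2 := hg i _ (hc ω i)
      rw [sm_cast]
      have e3 : ((⌊X i (∑ j, vtx h h' ω j)⌋ : ℤ) : ℝ) =
        X i (∑ j, vtx h h' ω j) - Int.fract (X i (∑ j, vtx h h' ω j)) := by
        rw [Int.self_sub_fract]
      rw [e3]
      rw [abs_le] at e1 e2 ⊢
      constructor <;> linarith [e1.1, e1.2, e2.1, e2.2]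
    · refine lt_of_le_of_lt ?_ hη
      gcongr
      split_ifs with h2
      · have e1 := hlam h2 i
        have e2 := prod_one_add_le hh hh'
        have e3 : (0 : ℝ) ≤ ∏ l, (1 + |(h l : ℝ) - h' l|) := Finset.prod_nonneg fun l _ => by positivity
        gcongr
      · positivity
  -- the polynomial part
  have hpl : |acb t (fun q => P (∑ j, q j)) h h' - ϑ t * (t.factorial : ℝ) *
      ∏ l, ((h l : ℝ) - h' l)| ≤ 2 ^ t * η := by
    rw [← (hpoly t h h').1 ϑ]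
    refine (hvtx t h h').2.2.2.2 _ _ η fun ω => ?_
    have e1 := hP _ (vtx_le hh hh' ω)
    rw [sm_cast]
    exact e1
  have hsum : ∑ i, acb t (fun q => α i * ((⌊X i (∑ j, q j)⌋ : ℤ) : ℝ) ^ 2) h h' =
      ((t.factorial : ℝ) * (if 2 * D = t then ∑ i, α i * (lam i : ℝ) ^ 2 else 0)) *
        ∏ l, ((h l : ℝ) - h' l) := by
    rw [Finset.sum_congr rfl fun i _ => hsq i]
    split_ifs with h2
    · rw [Finset.mul_sum, Finset.sum_mul]
      refine Finset.sum_congr rfl fun i _ => ?_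
      ring
    · simp
  rw [hsum]
  have hpr := abs_prod_le hh hh'
  have h5 : |(ϑ t - γ) * ((t.factorial : ℝ) * ∏ l, ((h l : ℝ) - h' l))| ≤
      η * (t.factorial : ℝ) * ∏ l, (1 + (H l : ℝ)) := by
    rw [abs_mul, abs_mul, abs_of_nonneg (Nat.cast_nonneg (α := ℝ) t.factorial), mul_assoc]
    gcongr
  have h6 : ((t.factorial : ℝ) * (if 2 * D = t then ∑ i, α i * (lam i : ℝ) ^ 2 else 0)) *
        ∏ l, ((h l : ℝ) - h' l) + acb t (fun q => P (∑ j, q j)) h h' -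
      ((t.factorial : ℝ) * (γ + if 2 * D = t then ∑ i, α i * (lam i : ℝ) ^ 2 else 0)) *
        ∏ l, ((h l : ℝ) - h' l) = (acb t (fun q => P (∑ j, q j)) h h' - ϑ t * (t.factorial : ℝ) *
      ∏ l, ((h l : ℝ) - h' l)) + (ϑ t - γ) * ((t.factorial : ℝ) * ∏ l, ((h l : ℝ) - h' l)) := by
    ring
  rw [h6]
  exact (abs_add_le _ _).trans (add_le_add hpl h5)

/-- the weight: replacing the cutoff by a trigonometric polynomial -/
lemma weight_bound (hlowc : T_LOWC) (hfac : T_CB_fac)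
    {ι : Type} [Fintype ι] [DecidableEq ι] {t D : ℕ} (ht : 1 ≤ t) (hD : 2 * D ≤ t)
    {H : Fin t → ℕ} (hH : ∀ j, 0 < H j) {X : ι → ℕ → ℝ} {θ : ι → ℕ → ℝ}
    {g : ι → ℝ → ℝ} (hg1 : ∀ i y, 0 ≤ g i y ∧ g i y ≤ 1)
    {F : ι → Finset ℤ} {A : ι → ℤ → ℂ} {ε₂ η ρ ξ : ℝ} (hε₂ : 0 ≤ ε₂) (hρ : 0 ≤ ρ)
    (htrig : ∀ i y, ‖(g i y : ℂ) - ∑ l ∈ F i, A i l * e (l * y)‖ ≤ ε₂)
    (hX : ∀ i, ∀ y ≤ ∑ j, H j, |X i y - ∑ j ∈ Finset.range (D + 1), θ i j * (y : ℝ) ^ j| ≤ η)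
    (hη : ∀ i, (∑ l ∈ F i, ‖A i l‖ * (2 * Real.pi * |(l : ℝ)|)) * η ≤ ε₂)
    (hbox : ‖boxE H (fun r => boxE H fun r' => e (ξ * ∏ l, ((r l : ℝ) - r' l)))‖ ≤ ρ ^ (2 ^ t))
    (h' : Fin t → ℕ) :
    ‖boxE H (fun h => e (ξ * ∏ l, ((h l : ℝ) - h' l)) *
      cb t (fun q => ∏ i, (g i (X i (∑ j, q j)) : ℂ)) h h')‖ ≤
      ((1 + 2 * ε₂) ^ (Fintype.card ι) - 1) +
        (∑ l ∈ Fintype.piFinset F, ∏ i, ‖A i (l i)‖) * ρ := by
  -- factorisation
  have hgn : ∀ i y, ‖(g i y : ℂ)‖ ≤ 1 := fun i y => by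
    rw [Complex.norm_real, Real.norm_eq_abs, abs_of_nonneg (hg1 i y).1]; exact (hg1 i y).2
  obtain ⟨Ψ, hΨ1, hΨ2, hΨ3⟩ := hfac Unit t
    (fun q _ => ∏ i, (g i (X i (∑ j, q j)) : ℂ)) h' (fun q => B1.const (by
      rw [norm_prod]
      exact Finset.prod_le_one (fun i _ => norm_nonneg _) (fun i _ => hgn i _)))
  have hΨn : ∀ h : Fin t → ℕ, ‖∏ j, Ψ j h ()‖ ≤ 1 := fun h => by
    rw [norm_prod]
    exact Finset.prod_le_one (fun i _ => norm_nonneg _) (fun i _ => (hΨ1 i h).le ())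
  set p : ι → (Fin t → ℕ) → ℝ := fun i h =>
    ∑ j ∈ Finset.range (D + 1), θ i j * (sm h : ℝ) ^ j with hp
  set T : (Fin t → ℕ) → ℂ := fun h => ∏ i, ∑ l ∈ F i, A i l * e (l * p i h) with hT
  -- closeness of the cutoff and the trigonometric polynomial
  have hclose : ∀ h ∈ box H, ‖T h - ∏ i, (g i (X i (∑ j, h j)) : ℂ)‖ ≤
      (1 + 2 * ε₂) ^ (Fintype.card ι) - 1 := by
    intro h hh
    refine prod_sub_le Finset.univ _ _ (2 * ε₂) (by positivity) (fun i _ => hgn i _) fun i _ => ?_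
    have e1 := htrig i (X i (∑ j, h j))
    have e2 := hX i _ (box_sum_le hh)
    have e3 : ‖∑ l ∈ F i, A i l * e (l * p i h) - ∑ l ∈ F i, A i l * e (l * X i (∑ j, h j))‖ ≤
        ε₂ := by
      rw [← Finset.sum_sub_distrib]
      refine (norm_sum_le _ _).trans (le_trans ?_ (hη i))
      rw [Finset.sum_mul]
      refine Finset.sum_le_sum fun l _ => ?_
      rw [← mul_sub, norm_mul, mul_assoc]
      refine mul_le_mul_of_nonneg_left ?_ (norm_nonneg _)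
      refine (norm_e_sub_le _ _).trans ?_
      have e4 : |p i h - X i (∑ j, h j)| ≤ η := by
        rw [abs_sub_comm, hp]
        simp only [sm_cast]
        exact e2
      calc 2 * Real.pi * |(l : ℝ) * p i h - (l : ℝ) * X i (∑ j, h j)|
          = (2 * Real.pi * |(l : ℝ)|) * |p i h - X i (∑ j, h j)| := by
            rw [← mul_sub, abs_mul]; ring
        _ ≤ (2 * Real.pi * |(l : ℝ)|) * η :=
            mul_le_mul_of_nonneg_left e4 (by positivity)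
    calc ‖∑ l ∈ F i, A i l * e (l * p i h) - (g i (X i (∑ j, h j)) : ℂ)‖
        = ‖(∑ l ∈ F i, A i l * e (l * p i h) - ∑ l ∈ F i, A i l * e (l * X i (∑ j, h j))) -
          ((g i (X i (∑ j, h j)) : ℂ) - ∑ l ∈ F i, A i l * e (l * X i (∑ j, h j)))‖ := by
          congr 1; ring
      _ ≤ ε₂ + ε₂ := (norm_sub_le _ _).trans (add_le_add e3 e1)
      _ = 2 * ε₂ := by ring
  -- expansion of the trigonometric polynomial
  have hTexp : ∀ h, T h = ∑ l ∈ Fintype.piFinset F, (∏ i, A i (l i)) *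
      e (∑ j ∈ Finset.range t, (if j ≤ D then ∑ i, (l i : ℝ) * θ i j else 0) * (sm h : ℝ) ^ j) := by
    intro h
    rw [hT]
    simp only
    rw [Finset.prod_univ_sum]
    refine Finset.sum_congr rfl fun l _ => ?_
    rw [Finset.prod_mul_distrib]
    congr 1
    rw [← e_sum]
    congr 1
    have hDt : D + 1 ≤ t := by omega
    have h1 : ∑ j ∈ Finset.range t, (if j ≤ D then ∑ i, (l i : ℝ) * θ i j else 0) * (sm h : ℝ) ^ j
        = ∑ j ∈ Finset.range (D + 1), (∑ i, (l i : ℝ) * θ i j) * (sm h : ℝ) ^ j := by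
      symm
      apply Finset.sum_subset_zero_on_sdiff
      · intro j hj
        rw [Finset.mem_range] at hj ⊢
        omega
      · intro j hj
        rw [Finset.mem_sdiff, Finset.mem_range, Finset.mem_range] at hj
        rw [if_neg (by omega), zero_mul]
      · intro j hj
        rw [Finset.mem_range] at hj
        rw [if_pos (by omega)]
    rw [h1, hp]
    simp only [Finset.mul_sum, Finset.sum_mul]
    rw [Finset.sum_comm]
    refine Finset.sum_congr rfl fun j _ => Finset.sum_congr rfl fun i _ => ?_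
    ring
  -- one term
  have hterm : ∀ l : ι → ℤ, ‖boxE H (fun h => e (ξ * ∏ l, ((h l : ℝ) - h' l)) *
      e (∑ j ∈ Finset.range t, (if j ≤ D then ∑ i, (l i : ℝ) * θ i j else 0) * (sm h : ℝ) ^ j) *
        ∏ j, Ψ j h ())‖ ≤ ρ := by
    intro l
    have h1 := hlowc t ht H hH ξ (fun j => if j ≤ D then ∑ i, (l i : ℝ) * θ i j else 0) h'
      (fun j h => Ψ j h ()) (fun j h => (hΨ1 j h).le ()) (fun j h s => by rw [hΨ2])
    exact le_of_pow_le_pow_left₀ (n := 2 ^ t) (by positivity) hρ (h1.trans hbox)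
  -- assembling
  have hsplit : boxE H (fun h => e (ξ * ∏ l, ((h l : ℝ) - h' l)) *
      cb t (fun q => ∏ i, (g i (X i (∑ j, q j)) : ℂ)) h h') =
      boxE H (fun h => e (ξ * ∏ l, ((h l : ℝ) - h' l)) * T h * ∏ j, Ψ j h ()) -
      boxE H (fun h => e (ξ * ∏ l, ((h l : ℝ) - h' l)) *
        (T h - ∏ i, (g i (X i (∑ j, h j)) : ℂ)) * ∏ j, Ψ j h ()) := by
    rw [← boxE_sub]
    refine boxE_congr fun h _ => ?_
    rw [hΨ3 h ()]
    ring
  rw [hsplit]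
  have hA : ‖boxE H (fun h => e (ξ * ∏ l, ((h l : ℝ) - h' l)) * T h * ∏ j, Ψ j h ())‖ ≤
      (∑ l ∈ Fintype.piFinset F, ∏ i, ‖A i (l i)‖) * ρ := by
    have h1 : boxE H (fun h => e (ξ * ∏ l, ((h l : ℝ) - h' l)) * T h * ∏ j, Ψ j h ()) =
        ∑ l ∈ Fintype.piFinset F, (∏ i, A i (l i)) * boxE H (fun h =>
          e (ξ * ∏ l, ((h l : ℝ) - h' l)) *
          e (∑ j ∈ Finset.range t, (if j ≤ D then ∑ i, (l i : ℝ) * θ i j else 0) *
            (sm h : ℝ) ^ j) * ∏ j, Ψ j h ()) := by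
      simp_rw [← boxE_mul_left]
      rw [← boxE_sum]
      refine boxE_congr fun h _ => ?_
      rw [hTexp, Finset.mul_sum, Finset.sum_mul]
      refine Finset.sum_congr rfl fun l _ => ?_
      ring
    rw [h1, Finset.sum_mul]
    refine (norm_sum_le _ _).trans (Finset.sum_le_sum fun l _ => ?_)
    rw [norm_mul, norm_prod]
    exact mul_le_mul_of_nonneg_left (hterm l) (Finset.prod_nonneg fun i _ => norm_nonneg _)
  have hB : ‖boxE H (fun h => e (ξ * ∏ l, ((h l : ℝ) - h' l)) *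
        (T h - ∏ i, (g i (X i (∑ j, h j)) : ℂ)) * ∏ j, Ψ j h ())‖ ≤
      (1 + 2 * ε₂) ^ (Fintype.card ι) - 1 := by
    refine norm_boxE_le_of hH fun h hh => ?_
    rw [norm_mul, norm_mul, norm_e, one_mul]
    exact (mul_le_of_le_one_right (norm_nonneg _) (hΨn h)).trans (hclose h hh)
  calc _ ≤ _ := norm_sub_le _ _
    _ ≤ _ := add_le_add hA hB
    _ = _ := by ring

/-- the cube average at one point of the window -/
lemma local_bound (hlowc : T_LOWC) (hcube : T_CUBE) (hpoly : T_ACB_poly) (hvtx : T_CB_vtx)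
    (hfac : T_CB_fac) (hmul : T_CB_mul) (hcbe : T_CB_e)
    {ι : Type} [Fintype ι] [DecidableEq ι] {t D : ℕ} (ht : 1 ≤ t) (hD : 2 * D ≤ t)
    {H : Fin t → ℕ} (hH : ∀ j, 0 < H j)
    {X : ι → ℕ → ℝ} {θ : ι → ℕ → ℝ} {P : ℕ → ℝ} {ϑ : ℕ → ℝ} {γ : ℝ} {α : ι → ℝ} {lam : ι → ℤ}
    {g : ι → ℝ → ℝ} {a : ι → ℝ} {δ η : ℝ} (hg1 : ∀ i y, 0 ≤ g i y ∧ g i y ≤ 1)
    (hX : ∀ i, ∀ y ≤ ∑ j, H j, |X i y - ∑ j ∈ Finset.range (D + 1), θ i j * (y : ℝ) ^ j| ≤ η)
    (hP : ∀ y ≤ ∑ j, H j, |P y - ∑ j ∈ Finset.range (t + 1), ϑ j * (y : ℝ) ^ j| ≤ η)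
    (hγ : |ϑ t - γ| ≤ η) (hlam : 2 * D = t → ∀ i, |θ i D - lam i| ≤ η)
    (hg : ∀ i y, g i y ≠ 0 → |Int.fract y - a i| ≤ δ)
    (hη : 2 ^ t * (δ + η) + η * (D.factorial : ℝ) * ∏ l, (1 + (H l : ℝ)) < 1)
    {F : ι → Finset ℤ} {A : ι → ℤ → ℂ} {ε₂ ρ ξ : ℝ} (hε₂ : 0 ≤ ε₂) (hρ : 0 ≤ ρ)
    (hξ : ξ = (t.factorial : ℝ) * (γ + if 2 * D = t then ∑ i, α i * (lam i : ℝ) ^ 2 else 0))
    (htrig : ∀ i y, ‖(g i y : ℂ) - ∑ l ∈ F i, A i l * e (l * y)‖ ≤ ε₂)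
    (hη2 : ∀ i, (∑ l ∈ F i, ‖A i l‖ * (2 * Real.pi * |(l : ℝ)|)) * η ≤ ε₂)
    (hbox : ‖boxE H (fun r => boxE H fun r' => e (ξ * ∏ l, ((r l : ℝ) - r' l)))‖ ≤ ρ ^ (2 ^ t))
    {h' : Fin t → ℕ} (hh' : h' ∈ box H) :
    ‖boxE H (fun h => cb t (fun q =>
      e (∑ i, α i * ((⌊X i (∑ j, q j)⌋ : ℤ) : ℝ) ^ 2 + P (∑ j, q j)) *
        ∏ i, (g i (X i (∑ j, q j)) : ℂ)) h h')‖ ≤
      2 * Real.pi * (2 ^ t * η + η * (t.factorial : ℝ) * ∏ l, (1 + (H l : ℝ))) +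
      (((1 + 2 * ε₂) ^ (Fintype.card ι) - 1) +
        (∑ l ∈ Fintype.piFinset F, ∏ i, ‖A i (l i)‖) * ρ) := by
  have hη0 : 0 ≤ η := (abs_nonneg _).trans hγ
  have hprod0 : (0 : ℝ) ≤ ∏ l, (1 + (H l : ℝ)) := Finset.prod_nonneg fun l _ => by positivity
  have hw := weight_bound hlowc hfac ht hD hH (X := X) (θ := θ) hg1 (F := F) (A := A)
    (ξ := ξ) hε₂ hρ htrig hX hη2 hbox h'
  set C : (Fin t → ℕ) → ℂ := fun q => ∏ i, (g i (X i (∑ j, q j)) : ℂ) with hC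
  have hCn : ∀ q, ‖C q‖ ≤ 1 := fun q => by
    rw [hC]
    simp only
    rw [norm_prod]
    refine Finset.prod_le_one (fun i _ => norm_nonneg _) (fun i _ => ?_)
    rw [Complex.norm_real, Real.norm_eq_abs, abs_of_nonneg (hg1 i _).1]; exact (hg1 i _).2
  have hdiff : ∀ h ∈ box H, ‖cb t (fun q =>
      e (∑ i, α i * ((⌊X i (∑ j, q j)⌋ : ℤ) : ℝ) ^ 2 + P (∑ j, q j)) * C q) h h' -
      e (ξ * ∏ l, ((h l : ℝ) - h' l)) * cb t C h h'‖ ≤
      2 * Real.pi * (2 ^ t * η + η * (t.factorial : ℝ) * ∏ l, (1 + (H l : ℝ))) := by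
    intro h hh
    rw [hmul, hcbe, ← sub_mul, norm_mul]
    by_cases hz : cb t C h h' = 0
    · rw [hz, norm_zero, mul_zero]; positivity
    · have hv := (hvtx t h h').2.2.1 C hz
      have hc : ∀ ω i, g i (X i (∑ j, vtx h h' ω j)) ≠ 0 := by
        intro ω i h0
        refine hv ω ?_
        rw [hC]
        exact Finset.prod_eq_zero (Finset.mem_univ i) (by rw [h0]; simp)
      have h1 := phase_cube hcube hpoly hvtx ht hD hX hP hγ hlam hg hη hh hh' hc (α := α)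
      rw [← hξ] at h1
      have h2 : ‖cb t C h h'‖ ≤ 1 := (hvtx t h h').2.2.2.1 C hCn
      refine (mul_le_of_le_one_right (norm_nonneg _) h2).trans ?_
      refine (norm_e_sub_le _ _).trans ?_
      exact mul_le_mul_of_nonneg_left h1 (by positivity)
  have h3 : boxE H (fun h => cb t (fun q =>
      e (∑ i, α i * ((⌊X i (∑ j, q j)⌋ : ℤ) : ℝ) ^ 2 + P (∑ j, q j)) * C q) h h') =
      boxE H (fun h => cb t (fun q =>
      e (∑ i, α i * ((⌊X i (∑ j, q j)⌋ : ℤ) : ℝ) ^ 2 + P (∑ j, q j)) * C q) h h' -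
      e (ξ * ∏ l, ((h l : ℝ) - h' l)) * cb t C h h') +
      boxE H (fun h => e (ξ * ∏ l, ((h l : ℝ) - h' l)) * cb t C h h') := by
    rw [← boxE_add]
    refine boxE_congr fun h _ => ?_
    ring
  rw [h3]
  exact (norm_add_le _ _).trans (add_le_add (norm_boxE_le_of hH hdiff) hw)

lemma boxE_avs {t : ℕ} (H : Fin t → ℕ) (N : ℕ) (G : (Fin t → ℕ) → ℕ → ℂ) :
    boxE H (fun h => avs N (G h)) = avs N (fun n => boxE H (fun h => G h n)) := by
  unfold boxE avs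
  rw [← Finset.mul_sum, ← Finset.smul_sum, mul_smul_comm, Finset.sum_comm]

end CELL

open CELL in
theorem cell (hwbox : T_WBOX) (hlowc : T_LOWC) (hcube : T_CUBE) (hpoly : T_ACB_poly)
    (hvtx : T_CB_vtx) (hfac : T_CB_fac) (hmul : T_CB_mul) (hcbe : T_CB_e) (htrig : T_TRIG)
    (hexps : T_EXPS) : T_CELL := by
  classical
  intro ι _ R hR t D ht hD x θ hx Ψ ϑ hΨ γ hγ α lam hlam hirr g a δ hgc hgp hg1 hgs hδ
  set v : ℕ → ℂ := fun n => e (∑ i, α i * ((⌊x i n⌋ : ℤ) : ℝ) ^ 2 + Ψ n) *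
    ∏ i, (g i (x i n) : ℂ) with hv
  have hvn : ∀ n, ‖v n‖ ≤ 1 := fun n => by
    rw [hv]
    simp only
    rw [norm_mul, norm_e, one_mul, norm_prod]
    refine Finset.prod_le_one (fun i _ => norm_nonneg _) (fun i _ => ?_)
    rw [Complex.norm_real, Real.norm_eq_abs, abs_of_nonneg (hg1 i _).1]; exact (hg1 i _).2
  rw [Metric.tendsto_nhds]
  intro ε hε
  set κ : ℝ := (ε / 2) ^ (2 ^ t) / 4 with hκ
  have hκ0 : 0 < κ := by positivity
  -- closeness of the trigonometric polynomials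
  obtain ⟨ε₂, hε₂0, hε₂⟩ : ∃ ε₂ > (0 : ℝ), (1 + 2 * ε₂) ^ (Fintype.card ι) - 1 ≤ κ := by
    have h1 : Tendsto (fun y : ℝ => (1 + 2 * y) ^ (Fintype.card ι) - 1) (𝓝[>] 0)
        (𝓝 ((1 + 2 * 0) ^ (Fintype.card ι) - 1)) := by
      refine Tendsto.mono_left ?_ nhdsWithin_le_nhds
      exact Continuous.tendsto (by fun_prop) 0
    have h2 : ((1 : ℝ) + 2 * 0) ^ (Fintype.card ι) - 1 < κ := by simpa using hκ0
    obtain ⟨y, hy1, hy2⟩ := ((h1.eventually (gt_mem_nhds h2)).and self_mem_nhdsWithin).exists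
    exact ⟨y, hy2, hy1.le⟩
  have htr : ∀ i, ∃ (F : Finset ℤ) (A : ℤ → ℂ), ∀ y, ‖(g i y : ℂ) - ∑ l ∈ F, A l * e (l * y)‖ ≤
      ε₂ := fun i => htrig (fun y => (g i y : ℂ)) (Complex.continuous_ofReal.comp (hgc i))
        (fun y => by rw [hgp]) ε₂ hε₂0
  choose F A hFA using htr
  set Atot : ℝ := ∑ l ∈ Fintype.piFinset F, ∏ i, ‖A i (l i)‖ with hAtot
  have hAtot0 : 0 ≤ Atot := Finset.sum_nonneg fun l _ => Finset.prod_nonneg fun i _ => norm_nonneg _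
  set ρ : ℝ := κ / (Atot + 1) with hρ
  have hρ0 : 0 < ρ := by positivity
  have hAρ : Atot * ρ ≤ κ := by
    rw [hρ, mul_div_assoc', div_le_iff₀ (by positivity)]
    nlinarith
  set ξ : ℝ := (t.factorial : ℝ) * (γ + if 2 * D = t then ∑ i, α i * (lam i : ℝ) ^ 2 else 0)
    with hξ
  obtain ⟨H, hH, hbox⟩ := hexps ξ hirr t ht (ρ ^ (2 ^ t)) (by positivity)
  set M : ℝ := ∏ l, (1 + (H l : ℝ)) with hM
  -- the precision
  obtain ⟨η, hη0, hη1, hη2, hη3⟩ : ∃ η > (0 : ℝ),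
      2 ^ t * (δ + η) + η * (D.factorial : ℝ) * M < 1 ∧
      2 * Real.pi * (2 ^ t * η + η * (t.factorial : ℝ) * M) < κ ∧
      ∀ i, (∑ l ∈ F i, ‖A i l‖ * (2 * Real.pi * |(l : ℝ)|)) * η < ε₂ := by
    have h1 : ∀ᶠ η : ℝ in 𝓝[>] 0, 2 ^ t * (δ + η) + η * (D.factorial : ℝ) * M < 1 := by
      have h : Tendsto (fun η : ℝ => 2 ^ t * (δ + η) + η * (D.factorial : ℝ) * M) (𝓝[>] 0)
          (𝓝 (2 ^ t * (δ + 0) + 0 * (D.factorial : ℝ) * M)) := by
        refine Tendsto.mono_left ?_ nhdsWithin_le_nhds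
        exact Continuous.tendsto (by fun_prop) 0
      exact h.eventually (gt_mem_nhds (by simpa using hδ))
    have h2 : ∀ᶠ η : ℝ in 𝓝[>] 0,
        2 * Real.pi * (2 ^ t * η + η * (t.factorial : ℝ) * M) < κ := by
      have h : Tendsto (fun η : ℝ => 2 * Real.pi * (2 ^ t * η + η * (t.factorial : ℝ) * M))
          (𝓝[>] 0) (𝓝 (2 * Real.pi * (2 ^ t * 0 + 0 * (t.factorial : ℝ) * M))) := by
        refine Tendsto.mono_left ?_ nhdsWithin_le_nhds
        exact Continuous.tendsto (by fun_prop) 0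
      exact h.eventually (gt_mem_nhds (by simpa using hκ0))
    have h3 : ∀ᶠ η : ℝ in 𝓝[>] 0,
        ∀ i, (∑ l ∈ F i, ‖A i l‖ * (2 * Real.pi * |(l : ℝ)|)) * η < ε₂ := by
      rw [eventually_all]
      intro i
      have h : Tendsto (fun η : ℝ => (∑ l ∈ F i, ‖A i l‖ * (2 * Real.pi * |(l : ℝ)|)) * η)
          (𝓝[>] 0) (𝓝 ((∑ l ∈ F i, ‖A i l‖ * (2 * Real.pi * |(l : ℝ)|)) * 0)) := by
        refine Tendsto.mono_left ?_ nhdsWithin_le_nhds
        exact Continuous.tendsto (by fun_prop) 0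
      exact h.eventually (gt_mem_nhds (by simpa using hε₂0))
    obtain ⟨η, h4, h5, h6, h7⟩ := (h1.and (h2.and (h3.and self_mem_nhdsWithin))).exists
    exact ⟨η, h7, h4, h5, h6⟩
  -- the conditions hold eventually
  have hE1 : ∀ᶠ N in atTop, ∀ i, ∀ y ∈ Finset.range (∑ j, H j + 1), ∀ n ∈ W N,
      |x i (n + R N * y) - ∑ j ∈ Finset.range (D + 1), θ i N n j * (y : ℝ) ^ j| ≤ η := by
    rw [eventually_all]
    intro i
    rw [Filter.eventually_all_finset]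
    intro y _
    exact hx i y η hη0
  have hE2 : ∀ᶠ N in atTop, ∀ y ∈ Finset.range (∑ j, H j + 1), ∀ n ∈ W N,
      |Ψ (n + R N * y) - ∑ j ∈ Finset.range (t + 1), ϑ N n j * (y : ℝ) ^ j| ≤ η := by
    rw [Filter.eventually_all_finset]
    intro y _
    exact hΨ y η hη0
  have hE4 : ∀ᶠ N in atTop, 2 * D = t → ∀ i, ∀ n ∈ W N, |θ i N n D - lam i| ≤ η := by
    by_cases h : 2 * D = t
    · have : ∀ᶠ N in atTop, ∀ i, ∀ n ∈ W N, |θ i N n D - lam i| ≤ η := by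
        rw [eventually_all]
        intro i
        exact hlam h i η hη0
      filter_upwards [this] with N hN _
      exact hN
    · exact Eventually.of_forall fun N h' => absurd h' h
  filter_upwards [hE1, hE2, hγ η hη0, hE4, hwbox R hR t ht H hH κ hκ0] with N h1 h2 h3 h4 h5
  have h6 := h5 v hvn
  rw [boxE_comm] at h6
  have h7 : ‖boxE H (fun h' => boxE H fun h =>
      avs N (fun n => cb t (fun q => v (n + R N * ∑ j, q j)) h h'))‖ ≤ 3 * κ := by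
    refine norm_boxE_le_of hH fun h' hh' => ?_
    rw [boxE_avs]
    refine norm_avs_le_of fun n hn => ?_
    have h8 := local_bound hlowc hcube hpoly hvtx hfac hmul hcbe ht hD hH
      (X := fun i y => x i (n + R N * y)) (θ := fun i => θ i N n) (P := fun y => Ψ (n + R N * y))
      (ϑ := ϑ N n) (γ := γ) (α := α) (lam := lam) (g := g) (a := a) (δ := δ) (η := η) hg1
      (fun i y hy => h1 i y (Finset.mem_range.mpr (by omega)) n hn)
      (fun y hy => h2 y (Finset.mem_range.mpr (by omega)) n hn) (h3 n hn)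
      (fun h i => h4 h i n hn) hgs hη1 (F := F) (A := A) (ε₂ := ε₂) (ρ := ρ) (ξ := ξ)
      hε₂0.le hρ0.le hξ hFA (fun i => (hη3 i).le) hbox hh'
    refine h8.trans ?_
    have := hη2.le
    linarith
  have h9 : ‖avs N v‖ ^ (2 ^ t) ≤ (ε / 2) ^ (2 ^ t) := by
    have h10 := (Complex.abs_re_le_norm _).trans h7
    have h11 := (le_abs_self _).trans h10
    have h12 : (ε / 2) ^ (2 ^ t) = 3 * κ + κ := by rw [hκ]; ring
    rw [h12]
    exact h6.trans (by linarith)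
  have h10 : ‖avs N v‖ ≤ ε / 2 :=
    le_of_pow_le_pow_left₀ (n := 2 ^ t) (by positivity) (by positivity) h9
  rw [dist_zero_right]
  linarith

end Pool.Agent.SqF
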