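import Pool.Agent.SqF.Targets

/-!
# MP_0b2319_an: alternating sums of squares of integer valued near-polynomials (T_CUBE)
-/

set_option autoImplicit false

open Finset

namespace Pool.Agent.SqF

namespace CUBE

/-! ### The alternating sum as a sum over sets -/

lemma vtx_cons {r : ℕ} (h h' : Fin (r + 1) → ℕ) (x : Bool) (ω : Fin r → Bool) :
    vtx h h' (Fin.cons x ω : Fin (r + 1) → Bool) =
      Fin.cons (if x then h' 0 else h 0) (vtx (Fin.tail h) (Fin.tail h') ω) := by
  funext l
  refine Fin.cases ?_ (fun i => ?_) l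
  · simp [vtx]
  · simp [vtx, Fin.tail]

lemma acb_fun (r : ℕ) (F : (Fin r → ℕ) → ℝ) (h h' : Fin r → ℕ) :
    acb r F h h' = ∑ ω : Fin r → Bool, (∏ l, (if ω l then (-1 : ℝ) else 1)) * F (vtx h h' ω) := by
  induction r with
  | zero =>
    have e1 : ∀ ω : Fin 0 → Bool, vtx h h' ω = h := fun ω => funext fun l => l.elim0
    simp [acb, e1]
  | succ r ih =>
    rw [acb, ih, ← (Fin.consEquiv (fun _ : Fin (r + 1) => Bool)).sum_comp, Fintype.sum_prod_type,
      Fintype.sum_bool, ← Finset.sum_add_distrib]
    refine Finset.sum_congr rfl fun ω _ => ?_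
    have e1 : ∀ x : Bool, (Fin.consEquiv (fun _ : Fin (r + 1) => Bool)) (x, ω) =
        (Fin.cons x ω : Fin (r + 1) → Bool) := fun x => rfl
    rw [e1, e1, vtx_cons, vtx_cons, Fin.prod_univ_succ, Fin.prod_univ_succ]
    simp only [Fin.cons_zero, Fin.cons_succ, if_true, Bool.false_eq_true, if_false]
    ring

variable {t : ℕ}

/-- vertex attached to a set -/
def vt (h h' : Fin t → ℕ) (I : Finset (Fin t)) : Fin t → ℕ := fun l => if l ∈ I then h l else h' l

/-- choice functions and sets -/
def eqv (t : ℕ) : (Fin t → Bool) ≃ Finset (Fin t) where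
  toFun ω := univ.filter fun l => ω l = false
  invFun I := fun l => decide (l ∉ I)
  left_inv ω := by
    funext l
    cases h : ω l <;> simp [h]
  right_inv I := by
    ext l
    simp

lemma acb_set (F : (Fin t → ℕ) → ℝ) (h h' : Fin t → ℕ) :
    acb t F h h' = ∑ I : Finset (Fin t), (-1 : ℝ) ^ (univ \ I).card * F (vt h h' I) := by
  rw [acb_fun, ← (eqv t).sum_comp]
  refine Finset.sum_congr rfl fun ω _ => ?_
  congr 1
  · rw [Finset.prod_ite, Finset.prod_const, Finset.prod_const, one_pow, mul_one]
    congr 2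
    ext l
    simp [eqv]
  · congr 1
    funext l
    cases hl : ω l <;> simp [vtx, vt, eqv, hl]

lemma vt_eq_vtx (h h' : Fin t → ℕ) (I : Finset (Fin t)) :
    ∃ ω : Fin t → Bool, vt h h' I = vtx h h' ω := by
  refine ⟨(eqv t).symm I, ?_⟩
  funext l
  by_cases hl : l ∈ I <;> simp [vt, vtx, eqv, hl]

/-! ### Moebius inversion -/

/-- the difference operator -/
def Dl (f : Finset (Fin t) → ℝ) (J : Finset (Fin t)) : ℝ :=
  ∑ I ∈ J.powerset, (-1 : ℝ) ^ (J \ I).card * f I

lemma sum_neg (x : Finset (Fin t)) :
    ∑ M ∈ x.powerset, (-1 : ℝ) ^ M.card = if x = ∅ then 1 else 0 := by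
  have h := Finset.sum_powerset_neg_one_pow_card (x := x)
  have h2 := congrArg (fun z : ℤ => (z : ℝ)) h
  push_cast at h2
  rw [h2]

lemma sumA (K U : Finset (Fin t)) :
    ∑ I : Finset (Fin t), (if K ⊆ I ∧ I ⊆ U then (-1 : ℝ) ^ (U \ I).card else 0) =
      if K = U then 1 else 0 := by
  by_cases hKU : K ⊆ U
  · rw [← Finset.sum_filter]
    have h1 : ∑ I ∈ univ.filter (fun I => K ⊆ I ∧ I ⊆ U), (-1 : ℝ) ^ (U \ I).card =
        ∑ M ∈ (U \ K).powerset, (-1 : ℝ) ^ M.card := by
      refine Finset.sum_nbij' (fun I => U \ I) (fun M => U \ M) ?_ ?_ ?_ ?_ ?_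
      · intro I hI
        simp only [mem_filter, mem_univ, true_and] at hI
        rw [mem_powerset]
        exact sdiff_subset_sdiff (subset_refl _) hI.1
      · intro M hM
        rw [mem_powerset] at hM
        simp only [mem_filter, mem_univ, true_and]
        refine ⟨fun x hx => ?_, sdiff_subset⟩
        rw [mem_sdiff]
        exact ⟨hKU hx, fun hxM => (mem_sdiff.1 (hM hxM)).2 hx⟩
      · intro I hI
        simp only [mem_filter, mem_univ, true_and] at hI
        exact Finset.sdiff_sdiff_eq_self hI.2
      · intro M hM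
        rw [mem_powerset] at hM
        exact Finset.sdiff_sdiff_eq_self (hM.trans sdiff_subset)
      · intro I _; rfl
    rw [h1, sum_neg]
    by_cases h : K = U
    · subst h; simp
    · rw [if_neg h, if_neg]
      intro h2
      exact h (subset_antisymm hKU (sdiff_eq_empty_iff_subset.1 h2))
  · have h1 : K ≠ U := fun h => hKU (h ▸ subset_refl _)
    rw [if_neg h1]
    refine Finset.sum_eq_zero fun I _ => if_neg ?_
    rintro ⟨h2, h3⟩
    exact hKU (h2.trans h3)

lemma sumB (K U : Finset (Fin t)) :
    ∑ I : Finset (Fin t), (if K ⊆ I ∧ I ⊆ U then (-1 : ℝ) ^ (I \ K).card else 0) =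
      if K = U then 1 else 0 := by
  by_cases hKU : K ⊆ U
  · rw [← Finset.sum_filter]
    have h1 : ∑ I ∈ univ.filter (fun I => K ⊆ I ∧ I ⊆ U), (-1 : ℝ) ^ (I \ K).card =
        ∑ M ∈ (U \ K).powerset, (-1 : ℝ) ^ M.card := by
      refine Finset.sum_nbij' (fun I => I \ K) (fun M => K ∪ M) ?_ ?_ ?_ ?_ ?_
      · intro I hI
        simp only [mem_filter, mem_univ, true_and] at hI
        rw [mem_powerset]
        exact sdiff_subset_sdiff hI.2 (subset_refl _)
      · intro M hM
        rw [mem_powerset] at hM
        simp only [mem_filter, mem_univ, true_and]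
        exact ⟨subset_union_left, union_subset hKU (hM.trans sdiff_subset)⟩
      · intro I hI
        simp only [mem_filter, mem_univ, true_and] at hI
        exact union_sdiff_of_subset hI.1
      · intro M hM
        rw [mem_powerset] at hM
        ext x
        simp only [mem_sdiff, mem_union]
        constructor
        · rintro ⟨h1 | h1, h2⟩
          · exact absurd h1 h2
          · exact h1
        · intro h1
          exact ⟨Or.inr h1, (mem_sdiff.1 (hM h1)).2⟩
      · intro I _; rfl
    rw [h1, sum_neg]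
    by_cases h : K = U
    · subst h; simp
    · rw [if_neg h, if_neg]
      intro h2
      exact h (subset_antisymm hKU (sdiff_eq_empty_iff_subset.1 h2))
  · have h1 : K ≠ U := fun h => hKU (h ▸ subset_refl _)
    rw [if_neg h1]
    refine Finset.sum_eq_zero fun I _ => if_neg ?_
    rintro ⟨h2, h3⟩
    exact hKU (h2.trans h3)

lemma Dl_eq (f : Finset (Fin t) → ℝ) (J : Finset (Fin t)) :
    Dl f J = ∑ I : Finset (Fin t), if I ⊆ J then (-1 : ℝ) ^ (J \ I).card * f I else 0 := by
  rw [Dl, ← Finset.sum_filter]
  refine Finset.sum_congr ?_ fun _ _ => rfl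
  ext I
  simp

lemma inversion (f : Finset (Fin t) → ℝ) (I : Finset (Fin t)) :
    f I = ∑ J : Finset (Fin t), if J ⊆ I then Dl f J else 0 := by
  have h1 : ∀ J : Finset (Fin t), (if J ⊆ I then Dl f J else 0) =
      ∑ K : Finset (Fin t), (if K ⊆ J ∧ J ⊆ I then (-1 : ℝ) ^ (J \ K).card else 0) * f K := by
    intro J
    by_cases hJ : J ⊆ I
    · rw [if_pos hJ, Dl_eq]
      refine Finset.sum_congr rfl fun K _ => ?_
      by_cases hK : K ⊆ J
      · rw [if_pos hK, if_pos ⟨hK, hJ⟩]
      · rw [if_neg hK, if_neg (fun h => hK h.1), zero_mul]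
    · rw [if_neg hJ]
      symm
      refine Finset.sum_eq_zero fun K _ => ?_
      rw [if_neg (fun h => hJ h.2), zero_mul]
  rw [Finset.sum_congr rfl fun J _ => h1 J, Finset.sum_comm]
  have h2 : ∀ K : Finset (Fin t), ∑ J : Finset (Fin t),
      (if K ⊆ J ∧ J ⊆ I then (-1 : ℝ) ^ (J \ K).card else 0) * f K =
      if K = I then f I else 0 := by
    intro K
    rw [← Finset.sum_mul, sumB]
    by_cases h : K = I
    · subst h; simp
    · rw [if_neg h, if_neg h, zero_mul]
  rw [Finset.sum_congr rfl fun K _ => h2 K]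
  simp

lemma product (f g : Finset (Fin t) → ℝ) :
    ∑ I : Finset (Fin t), (-1 : ℝ) ^ (univ \ I).card * (f I * g I) =
      ∑ J : Finset (Fin t), ∑ K : Finset (Fin t),
        if J ∪ K = univ then Dl f J * Dl g K else 0 := by
  have h1 : ∀ I : Finset (Fin t), (-1 : ℝ) ^ (univ \ I).card * (f I * g I) =
      ∑ J : Finset (Fin t), ∑ K : Finset (Fin t),
        (if J ∪ K ⊆ I ∧ I ⊆ univ then (-1 : ℝ) ^ (univ \ I).card else 0) * (Dl f J * Dl g K) := by
    intro I
    rw [inversion f I, inversion g I, Finset.sum_mul_sum, Finset.mul_sum]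
    refine Finset.sum_congr rfl fun J _ => ?_
    rw [Finset.mul_sum]
    refine Finset.sum_congr rfl fun K _ => ?_
    by_cases hJ : J ⊆ I
    · by_cases hK : K ⊆ I
      · rw [if_pos hJ, if_pos hK, if_pos ⟨union_subset hJ hK, subset_univ _⟩]
      · rw [if_neg hK, if_neg (fun h : J ∪ K ⊆ I ∧ I ⊆ univ => hK (subset_union_right.trans h.1))]; ring
    · rw [if_neg hJ, if_neg (fun h : J ∪ K ⊆ I ∧ I ⊆ univ => hJ (subset_union_left.trans h.1))]; ring
  rw [Finset.sum_congr rfl fun I _ => h1 I, Finset.sum_comm]
  refine Finset.sum_congr rfl fun J _ => ?_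
  rw [Finset.sum_comm]
  refine Finset.sum_congr rfl fun K _ => ?_
  rw [← Finset.sum_mul, sumA]
  by_cases h : J ∪ K = univ
  · rw [if_pos h, if_pos h, one_mul]
  · rw [if_neg h, if_neg h, zero_mul]

/-! ### Polynomials -/

open Polynomial in
lemma taylor_diff (p : Polynomial ℝ) (n : ℕ) (x : ℝ) (hp : p.natDegree ≤ n + 1) :
    (taylor x p - p).natDegree ≤ n ∧
      (taylor x p - p).coeff n = (n + 1) * x * p.coeff (n + 1) := by
  have key : ∀ m : ℕ, (taylor x p).coeff m =
      ∑ i ∈ Finset.range (n + 2), (i.choose m : ℝ) * p.coeff i * x ^ (i - m) := by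
    intro m
    rw [taylor_coeff, hasseDeriv_apply, Polynomial.sum_over_range' _ _ (n + 2) (by omega)]
    · rw [Polynomial.eval_finsetSum]
      refine Finset.sum_congr rfl fun i _ => ?_
      rw [Polynomial.eval_monomial]
    · intro i; simp
  have h0 : ∀ i, n + 1 < i → p.coeff i = 0 := fun i hi =>
    coeff_eq_zero_of_natDegree_lt (by omega)
  constructor
  · rw [natDegree_le_iff_coeff_eq_zero]
    intro m hm
    rw [coeff_sub, key, Finset.sum_eq_single_of_mem (n + 1) (by simp)]
    · rcases Nat.lt_or_ge (n + 1) m with h | h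
      · rw [Nat.choose_eq_zero_of_lt h, h0 m h]; simp
      · have : m = n + 1 := by omega
        subst this; simp
    · intro i hi hne
      have hi' : i < m := by
        have := Finset.mem_range.1 hi
        omega
      rw [Nat.choose_eq_zero_of_lt hi']; simp
  · rw [coeff_sub, key, Finset.sum_range_succ, Finset.sum_range_succ, Finset.sum_eq_zero]
    · have e1 : ((n + 1).choose n : ℝ) = n + 1 := by
        rw [Nat.choose_succ_self_right]; push_cast; ring
      have e2 : n + 1 - n = 1 := by omega
      rw [e1, e2, Nat.choose_self, Nat.sub_self]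
      push_cast
      ring
    · intro i hi
      rw [Nat.choose_eq_zero_of_lt (Finset.mem_range.1 hi)]; simp

lemma Dl_poly (d : Fin t → ℝ) (J : Finset (Fin t)) : ∀ (s : ℝ) (p : Polynomial ℝ),
    p.natDegree ≤ J.card →
    Dl (fun I => p.eval (s + ∑ l ∈ I, d l)) J =
      (J.card.factorial : ℝ) * p.coeff J.card * ∏ l ∈ J, d l := by
  induction J using Finset.induction_on with
  | empty =>
    intro s p hp
    have h1 : p = Polynomial.C (p.coeff 0) := Polynomial.eq_C_of_natDegree_le_zero (by simpa using hp)
    rw [h1]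
    simp [Dl]
  | insert l J hl ih =>
    intro s p hp
    rw [Finset.card_insert_of_notMem hl] at hp ⊢
    obtain ⟨h1, h2⟩ := taylor_diff p J.card (d l) hp
    have h3 := ih s _ h1
    rw [h2] at h3
    have h4 : Dl (fun I => p.eval (s + ∑ l ∈ I, d l)) (insert l J) =
        Dl (fun I => (Polynomial.taylor (d l) p - p).eval (s + ∑ l ∈ I, d l)) J := by
      rw [Dl, Finset.sum_powerset_insert hl, Dl, ← Finset.sum_add_distrib]
      refine Finset.sum_congr rfl fun I hI => ?_
      rw [Finset.mem_powerset] at hI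
      have hlI : l ∉ I := fun h => hl (hI h)
      have e1 : (insert l J \ I).card = (J \ I).card + 1 := by
        rw [Finset.insert_sdiff_of_notMem _ hlI, Finset.card_insert_of_notMem]
        intro h
        exact hl (Finset.mem_sdiff.1 h).1
      have e2 : insert l J \ insert l I = J \ I := by
        rw [Finset.insert_sdiff_insert, Finset.sdiff_insert]
        apply Finset.erase_eq_of_notMem
        intro h
        exact hl (Finset.mem_sdiff.1 h).1
      rw [e1, e2, Finset.sum_insert hlI, Polynomial.eval_sub, Polynomial.taylor_eval, pow_succ]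
      have e3 : s + ∑ l ∈ I, d l + d l = s + (d l + ∑ l ∈ I, d l) := by ring
      rw [e3]
      ring
    rw [h4, h3, Finset.prod_insert hl, Nat.factorial_succ]
    push_cast
    ring

/-! ### Closeness and integrality -/

lemma Dl_close (f g : Finset (Fin t) → ℝ) (δ : ℝ) (h : ∀ I, |f I - g I| ≤ δ)
    (J : Finset (Fin t)) : |Dl f J - Dl g J| ≤ 2 ^ t * δ := by
  have hδ : 0 ≤ δ := (abs_nonneg _).trans (h ∅)
  rw [Dl, Dl, ← Finset.sum_sub_distrib]
  calc |∑ I ∈ J.powerset, ((-1 : ℝ) ^ (J \ I).card * f I - (-1 : ℝ) ^ (J \ I).card * g I)|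
      ≤ ∑ I ∈ J.powerset, |(-1 : ℝ) ^ (J \ I).card * f I - (-1 : ℝ) ^ (J \ I).card * g I| :=
        Finset.abs_sum_le_sum_abs _ _
    _ ≤ ∑ I ∈ J.powerset, δ := by
        refine Finset.sum_le_sum fun I _ => ?_
        rw [← mul_sub, abs_mul, abs_pow, abs_neg, abs_one, one_pow, one_mul]
        exact h I
    _ = 2 ^ J.card * δ := by
        rw [Finset.sum_const, Finset.card_powerset, nsmul_eq_mul]; push_cast; ring
    _ ≤ 2 ^ t * δ := by
        refine mul_le_mul_of_nonneg_right ?_ hδ
        refine pow_le_pow_right₀ (by norm_num) ?_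
        have := Finset.card_le_univ J
        simpa using this

lemma int_eq (z w : ℤ) (h : |(z : ℝ) - w| < 1) : z = w := by
  have h1 : |((z - w : ℤ) : ℝ)| < 1 := by push_cast; exact h
  have h2 : |z - w| < 1 := by exact_mod_cast h1
  have h3 := Int.abs_lt_one_iff.1 h2
  omega

lemma Dl_int (F : Finset (Fin t) → ℤ) (J : Finset (Fin t)) :
    ∃ z : ℤ, Dl (fun I => (F I : ℝ)) J = z :=
  ⟨∑ I ∈ J.powerset, (-1) ^ (J \ I).card * F I, by rw [Dl]; push_cast; rfl⟩

end CUBE

open CUBE

theorem cube : T_CUBE := by
  intro t D ht hD r r' a θ a₀ δ lam hcl hlt α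
  have hδ : 0 ≤ δ := (abs_nonneg _).trans (hcl (fun _ => false))
  set d : Fin t → ℝ := fun l => (r l : ℝ) - r' l with hd
  set s : ℝ := ∑ l, (r' l : ℝ) with hs
  set F : Finset (Fin t) → ℤ := fun I => a (vt r r' I) with hF
  let p : Polynomial ℝ := (∑ j ∈ Finset.range (D + 1), Polynomial.monomial j (θ j)) -
    Polynomial.C a₀
  have hpe : ∀ x : ℝ, p.eval x = ∑ j ∈ Finset.range (D + 1), θ j * x ^ j - a₀ := by
    intro x
    simp only [p, Polynomial.eval_sub, Polynomial.eval_finsetSum, Polynomial.eval_monomial,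
      Polynomial.eval_C]
  have hpd : p.natDegree ≤ D := by
    refine (Polynomial.natDegree_sub_le _ _).trans ?_
    rw [Polynomial.natDegree_C, max_eq_left (Nat.zero_le _)]
    refine Polynomial.natDegree_sum_le_of_forall_le _ _ fun j hj => ?_
    refine (Polynomial.natDegree_monomial_le _).trans ?_
    have := Finset.mem_range.1 hj
    omega
  have hpc : 1 ≤ D → p.coeff D = θ D := by
    intro h1
    simp only [p, Polynomial.coeff_sub, Polynomial.finsetSum_coeff, Polynomial.coeff_monomial]
    rw [Polynomial.coeff_C_of_ne_zero (by omega), sub_zero]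
    simp
  have hsm : ∀ I, (sm (vt r r' I) : ℝ) = s + ∑ l ∈ I, d l := by
    intro I
    have e1 : ∀ l : Fin t, ((vt r r' I l : ℕ) : ℝ) = (r' l : ℝ) + if l ∈ I then d l else 0 := by
      intro l
      by_cases hl : l ∈ I
      · simp [vt, hl, hd]
      · simp [vt, hl]
    rw [sm]
    push_cast
    simp only [e1, Finset.sum_add_distrib]
    rw [hs]
    congr 1
    rw [← Finset.sum_filter]
    congr 1
    ext l; simp
  have hclose : ∀ I, |(F I : ℝ) - p.eval (s + ∑ l ∈ I, d l)| ≤ δ := by
    intro I
    obtain ⟨ω, hω⟩ := vt_eq_vtx r r' I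
    have h1 := hcl ω
    rw [← hω] at h1
    rw [hpe, ← hsm]
    have e1 : (F I : ℝ) - (∑ j ∈ Finset.range (D + 1), θ j * (sm (vt r r' I) : ℝ) ^ j - a₀) =
        (a (vt r r' I) : ℝ) + a₀ - ∑ j ∈ Finset.range (D + 1), θ j * (sm (vt r r' I) : ℝ) ^ j := by
      simp only [hF]; ring
    rw [e1]; exact h1
  have hDc := Dl_close (fun I => (F I : ℝ)) (fun I => p.eval (s + ∑ l ∈ I, d l)) δ hclose
  have hif0 : 0 ≤ (if 2 * D = t then |θ D - lam| * (D.factorial : ℝ) *
      ∏ l, (1 + |(r l : ℝ) - r' l|) else 0) := by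
    split_ifs
    · positivity
    · exact le_rfl
  have hδ1 : 2 ^ t * δ < 1 := by linarith
  -- sets with more than `D` elements
  have hbig : ∀ J : Finset (Fin t), D < J.card → Dl (fun I => (F I : ℝ)) J = 0 := by
    intro J hJ
    have h1 := Dl_poly d J s p (by omega)
    rw [Polynomial.coeff_eq_zero_of_natDegree_lt (by omega), mul_zero, zero_mul] at h1
    obtain ⟨z, hz⟩ := Dl_int F J
    have h2 := hDc J
    rw [h1, hz] at h2
    have h3 : z = 0 := int_eq z 0 (by push_cast; linarith)
    rw [hz, h3]; simp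
  have hmul : acb t (fun q => α * (a q : ℝ) ^ 2) r r' = α *
      ∑ J : Finset (Fin t), ∑ K : Finset (Fin t), if J ∪ K = univ then
        Dl (fun I => (F I : ℝ)) J * Dl (fun I => (F I : ℝ)) K else 0 := by
    rw [acb_set, ← product, Finset.mul_sum]
    refine Finset.sum_congr rfl fun I _ => ?_
    simp only [hF]
    ring
  have hcard : ∀ J K : Finset (Fin t), J ∪ K = univ → t ≤ J.card + K.card := by
    intro J K h
    have h1 := Finset.card_union_le J K
    rw [h, Finset.card_univ, Fintype.card_fin] at h1
    exact h1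
  rw [hmul]
  by_cases h2 : 2 * D = t
  · rw [if_pos h2]
    have hD1 : 1 ≤ D := by omega
    rw [if_pos h2] at hlt
    have hmid : ∀ J : Finset (Fin t), J.card = D → Dl (fun I => (F I : ℝ)) J =
        (D.factorial : ℝ) * lam * ∏ l ∈ J, d l := by
      intro J hJ
      have h1 := Dl_poly d J s p (by omega)
      rw [hJ, hpc hD1] at h1
      obtain ⟨z, hz⟩ := Dl_int F J
      have h3 := hDc J
      rw [h1, hz] at h3
      have hprod : |∏ l ∈ J, d l| ≤ ∏ l, (1 + |(r l : ℝ) - r' l|) := by
        rw [Finset.abs_prod]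
        calc ∏ l ∈ J, |d l| ≤ ∏ l ∈ J, (1 + |(r l : ℝ) - r' l|) :=
              Finset.prod_le_prod (fun _ _ => abs_nonneg _) fun l _ => by simp [hd]
          _ ≤ ∏ l, (1 + |(r l : ℝ) - r' l|) := by
              rw [← Finset.prod_mul_prod_compl J]
              refine le_mul_of_one_le_right (Finset.prod_nonneg fun _ _ => by positivity) ?_
              refine Finset.prod_induction _ (fun x : ℝ => 1 ≤ x)
                (fun a b ha hb => one_le_mul_of_one_le_of_one_le ha hb) le_rfl fun l _ => ?_
              have := abs_nonneg ((r l : ℝ) - r' l)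
              linarith
      have h4 : |(D.factorial : ℝ) * θ D * ∏ l ∈ J, d l -
          (D.factorial : ℝ) * lam * ∏ l ∈ J, d l| ≤
          |θ D - lam| * (D.factorial : ℝ) * ∏ l, (1 + |(r l : ℝ) - r' l|) := by
        have e1 : (D.factorial : ℝ) * θ D * ∏ l ∈ J, d l -
          (D.factorial : ℝ) * lam * ∏ l ∈ J, d l = (θ D - lam) * (D.factorial : ℝ) *
            ∏ l ∈ J, d l := by ring
        rw [e1, abs_mul, abs_mul, abs_of_nonneg (by positivity : (0 : ℝ) ≤ (D.factorial : ℝ))]
        exact mul_le_mul_of_nonneg_left hprod (by positivity)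
      have h5 : |(z : ℝ) - (D.factorial : ℝ) * lam * ∏ l ∈ J, d l| < 1 := by
        calc |(z : ℝ) - (D.factorial : ℝ) * lam * ∏ l ∈ J, d l|
            ≤ |(z : ℝ) - (D.factorial : ℝ) * θ D * ∏ l ∈ J, d l| +
              |(D.factorial : ℝ) * θ D * ∏ l ∈ J, d l -
                (D.factorial : ℝ) * lam * ∏ l ∈ J, d l| := abs_sub_le _ _ _
          _ < 1 := by linarith
      have h6 : z = (D.factorial : ℤ) * lam * ∏ l ∈ J, ((r l : ℤ) - r' l) := by
        refine int_eq _ _ ?_
        push_cast
        exact h5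
      rw [hz, h6]
      push_cast
      rfl
    have hsum : ∀ J : Finset (Fin t), (∑ K : Finset (Fin t), if J ∪ K = univ then
        Dl (fun I => (F I : ℝ)) J * Dl (fun I => (F I : ℝ)) K else 0) =
        if J.card = D then (D.factorial : ℝ) ^ 2 * (lam : ℝ) ^ 2 * ∏ l, d l else 0 := by
      intro J
      by_cases hJ : J.card = D
      · rw [if_pos hJ, Finset.sum_eq_single Jᶜ]
        · have hJc : Jᶜ.card = D := by
            rw [Finset.card_compl, Fintype.card_fin]; omega
          rw [if_pos (Finset.union_compl J), hmid J hJ, hmid _ hJc]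
          have h3 : ∏ l, d l = (∏ l ∈ J, d l) * ∏ l ∈ Jᶜ, d l :=
            (Finset.prod_mul_prod_compl J d).symm
          rw [h3]
          ring
        · intro K _ hK
          by_cases hJK : J ∪ K = univ
          · rw [if_pos hJK]
            by_cases hK2 : D < K.card
            · rw [hbig K hK2, mul_zero]
            · exfalso
              apply hK
              have h3 := hcard J K hJK
              have h4 := Finset.card_union_add_card_inter J K
              rw [hJK, Finset.card_univ, Fintype.card_fin] at h4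
              have h5 : (J ∩ K).card = 0 := by omega
              rw [Finset.card_eq_zero] at h5
              ext l
              rw [Finset.mem_compl]
              constructor
              · intro hlK hlJ
                have : l ∈ J ∩ K := Finset.mem_inter.2 ⟨hlJ, hlK⟩
                rw [h5] at this
                exact absurd this (Finset.notMem_empty _)
              · intro hlJ
                have : l ∈ J ∪ K := by rw [hJK]; exact Finset.mem_univ _
                exact (Finset.mem_union.1 this).resolve_left hlJ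
          · rw [if_neg hJK]
        · intro h; exact absurd (Finset.mem_univ _) h
      · rw [if_neg hJ]
        refine Finset.sum_eq_zero fun K _ => ?_
        by_cases hJK : J ∪ K = univ
        · rw [if_pos hJK]
          by_cases hJ2 : D < J.card
          · rw [hbig J hJ2, zero_mul]
          · have h3 := hcard J K hJK
            rw [hbig K (by omega), mul_zero]
        · rw [if_neg hJK]
    rw [Finset.sum_congr rfl fun J _ => hsum J, ← Finset.sum_filter, Finset.sum_const,
      nsmul_eq_mul]
    have hcnt : ((univ : Finset (Finset (Fin t))).filter fun J => J.card = D).card =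
        t.choose D := by
      have h3 := Finset.card_powersetCard D (univ : Finset (Fin t))
      rw [Finset.card_univ, Fintype.card_fin] at h3
      rw [← h3]
      congr 1
      ext J
      simp [Finset.mem_powersetCard]
    rw [hcnt]
    have hfac : (t.choose D : ℝ) * ((D.factorial : ℝ) * (D.factorial : ℝ)) = (t.factorial : ℝ) := by
      have h3 := Nat.choose_mul_factorial_mul_factorial (n := t) (k := D) (by omega)
      have h4 : t - D = D := by omega
      rw [h4] at h3
      have h5 : ((t.choose D * D.factorial * D.factorial : ℕ) : ℝ) = (t.factorial : ℝ) := by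
        rw [h3]
      push_cast at h5
      linarith
    rw [← hfac]
    ring
  · rw [if_neg h2]
    have h0 : (∑ J : Finset (Fin t), ∑ K : Finset (Fin t), if J ∪ K = univ then
        Dl (fun I => (F I : ℝ)) J * Dl (fun I => (F I : ℝ)) K else 0) = 0 := by
      refine Finset.sum_eq_zero fun J _ => Finset.sum_eq_zero fun K _ => ?_
      by_cases hJK : J ∪ K = univ
      · rw [if_pos hJK]
        have h3 := hcard J K hJK
        by_cases hJ2 : D < J.card
        · rw [hbig J hJ2, zero_mul]
        · rw [hbig K (by omega), mul_zero]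
      · rw [if_neg hJK]
    rw [h0, mul_zero]

end Pool.Agent.SqF
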