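import Pool.Agent.SqF.Targets

/-!
# MP_0b2319_an, part CUBEALG: algebra of the cube products and alternating sums
-/

set_option autoImplicit false

open MeasureTheory Filter Topology
open scoped ComplexConjugate

namespace Pool.Agent.SqF

namespace CUBEALG

theorem e_sub (x y : ℝ) : e (x - y) = e x * conj (e y) := by
  unfold e
  rw [← Complex.exp_conj, ← Complex.exp_add]
  congr 1
  simp only [map_mul, Complex.conj_ofReal, Complex.conj_I]
  push_cast
  ring

theorem vtx_false {r : ℕ} (h h' : Fin (r + 1) → ℕ) (ω : Fin r → Bool) :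
    vtx h h' (Fin.cons false ω) = Fin.cons (h 0) (vtx (Fin.tail h) (Fin.tail h') ω) := by
  funext l
  refine Fin.cases ?_ (fun j => ?_) l
  · simp [vtx]
  · simp [vtx, Fin.tail]

theorem vtx_true {r : ℕ} (h h' : Fin (r + 1) → ℕ) (ω : Fin r → Bool) :
    vtx h h' (Fin.cons true ω) = Fin.cons (h' 0) (vtx (Fin.tail h) (Fin.tail h') ω) := by
  funext l
  refine Fin.cases ?_ (fun j => ?_) l
  · simp [vtx]
  · simp [vtx, Fin.tail]

theorem cb_congr : ∀ (r : ℕ) (h h' : Fin r → ℕ) (A A' : (Fin r → ℕ) → ℂ),
    (∀ ω, A (vtx h h' ω) = A' (vtx h h' ω)) → cb r A h h' = cb r A' h h' := by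
  intro r
  induction r with
  | zero =>
    intro h h' A A' hA
    have := hA (fun _ => false)
    have hv : vtx h h' (fun _ => false) = h := by
      funext l; exact l.elim0
    rw [hv] at this
    simpa [cb] using this
  | succ r ih =>
    intro h h' A A' hA
    simp only [cb]
    apply ih
    intro ω
    have h1 := hA (Fin.cons false ω)
    have h2 := hA (Fin.cons true ω)
    rw [vtx_false] at h1
    rw [vtx_true] at h2
    rw [h1, h2]

theorem acb_congr : ∀ (r : ℕ) (h h' : Fin r → ℕ) (a a' : (Fin r → ℕ) → ℝ),
    (∀ ω, a (vtx h h' ω) = a' (vtx h h' ω)) → acb r a h h' = acb r a' h h' := by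
  intro r
  induction r with
  | zero =>
    intro h h' A A' hA
    have := hA (fun _ => false)
    have hv : vtx h h' (fun _ => false) = h := by
      funext l; exact l.elim0
    rw [hv] at this
    simpa [acb] using this
  | succ r ih =>
    intro h h' A A' hA
    simp only [acb]
    apply ih
    intro ω
    have h1 := hA (Fin.cons false ω)
    have h2 := hA (Fin.cons true ω)
    rw [vtx_false] at h1
    rw [vtx_true] at h2
    rw [h1, h2]

theorem cb_ne : ∀ (r : ℕ) (h h' : Fin r → ℕ) (A : (Fin r → ℕ) → ℂ),
    cb r A h h' ≠ 0 → ∀ ω, A (vtx h h' ω) ≠ 0 := by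
  intro r
  induction r with
  | zero =>
    intro h h' A hA ω
    have hv : vtx h h' ω = h := by
      funext l; exact l.elim0
    rw [hv]
    simpa [cb] using hA
  | succ r ih =>
    intro h h' A hA ω
    simp only [cb] at hA
    have h1 := ih _ _ _ hA (Fin.tail ω)
    rw [← Fin.cons_self_tail ω]
    cases hω : ω 0 with
    | false =>
      rw [vtx_false]
      exact left_ne_zero_of_mul h1
    | true =>
      rw [vtx_true]
      have h2 := right_ne_zero_of_mul h1
      intro h0
      apply h2
      rw [h0, map_zero]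

theorem cb_norm : ∀ (r : ℕ) (h h' : Fin r → ℕ) (A : (Fin r → ℕ) → ℂ),
    (∀ t, ‖A t‖ ≤ 1) → ‖cb r A h h'‖ ≤ 1 := by
  intro r
  induction r with
  | zero =>
    intro h h' A hA
    simpa [cb] using hA h
  | succ r ih =>
    intro h h' A hA
    simp only [cb]
    apply ih
    intro t
    rw [norm_mul, Complex.norm_conj]
    exact mul_le_one₀ (hA _) (norm_nonneg _) (hA _)

theorem acb_close : ∀ (r : ℕ) (h h' : Fin r → ℕ) (a a' : (Fin r → ℕ) → ℝ) (ε : ℝ),
    (∀ ω, |a (vtx h h' ω) - a' (vtx h h' ω)| ≤ ε) →
    |acb r a h h' - acb r a' h h'| ≤ 2 ^ r * ε := by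
  intro r
  induction r with
  | zero =>
    intro h h' A A' ε hA
    have := hA (fun _ => false)
    have hv : vtx h h' (fun _ => false) = h := by
      funext l; exact l.elim0
    rw [hv] at this
    simpa [acb] using this
  | succ r ih =>
    intro h h' A A' ε hA
    simp only [acb]
    have := ih (Fin.tail h) (Fin.tail h')
      (fun t => A (Fin.cons (h 0) t) - A (Fin.cons (h' 0) t))
      (fun t => A' (Fin.cons (h 0) t) - A' (Fin.cons (h' 0) t)) (2 * ε) (by
        intro ω
        have h1 := hA (Fin.cons false ω)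
        have h2 := hA (Fin.cons true ω)
        rw [vtx_false] at h1
        rw [vtx_true] at h2
        rw [abs_le] at h1 h2 ⊢
        constructor <;> linarith [h1.1, h1.2, h2.1, h2.2])
    refine this.trans (le_of_eq ?_)
    ring

theorem sm_cons {r : ℕ} (k : ℕ) (t : Fin r → ℕ) :
    sm (Fin.cons k t : Fin (r + 1) → ℕ) = (k : ℤ) + sm t := by
  unfold sm
  rw [Fin.sum_univ_succ]
  simp

/-- the difference of two translates of a polynomial of degree at most `t + 1` -/
theorem deg_diff (t : ℕ) (P : Polynomial ℝ) (hP : P.natDegree ≤ t + 1) (x y : ℝ) :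
    (Polynomial.taylor x P - Polynomial.taylor y P).natDegree ≤ t ∧
    (Polynomial.taylor x P - Polynomial.taylor y P).coeff t =
      ((t : ℝ) + 1) * P.coeff (t + 1) * (x - y) := by
  have hev : ∀ (k : ℕ) (z : ℝ), t < k → (Polynomial.taylor z P).coeff k = P.coeff k := by
    intro k z hk
    rw [Polynomial.taylor_coeff]
    have hd : (Polynomial.hasseDeriv k P).natDegree ≤ 0 := by
      refine (Polynomial.natDegree_hasseDeriv_le P k).trans ?_
      omega
    rw [Polynomial.eq_C_of_natDegree_le_zero hd, Polynomial.eval_C,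
      Polynomial.hasseDeriv_coeff]
    simp
  have hev2 : ∀ z : ℝ, (Polynomial.taylor z P).coeff t =
      P.coeff t + ((t : ℝ) + 1) * P.coeff (t + 1) * z := by
    intro z
    rw [Polynomial.taylor_coeff]
    have hd : (Polynomial.hasseDeriv t P).natDegree ≤ 1 := by
      refine (Polynomial.natDegree_hasseDeriv_le P t).trans ?_
      omega
    rw [Polynomial.eq_X_add_C_of_natDegree_le_one hd]
    simp only [Polynomial.eval_add, Polynomial.eval_mul, Polynomial.eval_C, Polynomial.eval_X,
      Polynomial.hasseDeriv_coeff]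
    have h1 : ((1 + t).choose t : ℝ) = (t : ℝ) + 1 := by
      have h2 : (1 + t).choose t = t + 1 := by
        rw [Nat.add_comm 1 t]
        exact Nat.choose_succ_self_right t
      rw [h2]
      push_cast; ring
    rw [h1]
    simp [add_comm]
  constructor
  · rw [Polynomial.natDegree_le_iff_coeff_eq_zero]
    intro k hk
    rw [Polynomial.coeff_sub, hev k x hk, hev k y hk, sub_self]
  · rw [Polynomial.coeff_sub, hev2, hev2]
    ring

theorem acb_polynomial : ∀ (t : ℕ) (r r' : Fin t → ℕ) (s : ℝ) (P : Polynomial ℝ),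
    P.natDegree ≤ t →
    acb t (fun q => P.eval (s + (sm q : ℝ))) r r' =
      P.coeff t * (t.factorial : ℝ) * ∏ l, ((r l : ℝ) - r' l) := by
  intro t
  induction t with
  | zero =>
    intro r r' s P hP
    simp only [acb]
    rw [Polynomial.eq_C_of_natDegree_le_zero hP]
    simp
  | succ t ih =>
    intro r r' s P hP
    obtain ⟨hd, hc⟩ := deg_diff t P hP (r 0 : ℝ) (r' 0 : ℝ)
    simp only [acb]
    have key := ih (Fin.tail r) (Fin.tail r') s _ hd
    have hfun : (fun q : Fin t → ℕ => Polynomial.eval
        (s + (sm (Fin.cons (r 0) q : Fin (t + 1) → ℕ) : ℝ)) P -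
        Polynomial.eval (s + (sm (Fin.cons (r' 0) q : Fin (t + 1) → ℕ) : ℝ)) P) =
        (fun q => Polynomial.eval (s + (sm q : ℝ))
          (Polynomial.taylor (r 0 : ℝ) P - Polynomial.taylor (r' 0 : ℝ) P)) := by
      funext q
      rw [Polynomial.eval_sub, Polynomial.taylor_eval, Polynomial.taylor_eval, sm_cons, sm_cons]
      push_cast
      congr 2 <;> ring
    rw [hfun, key, hc, Fin.prod_univ_succ, Nat.factorial_succ]
    push_cast
    simp only [Fin.tail]
    ring

theorem acb_prod : ∀ (t : ℕ) (r r' : Fin t → ℕ) (ξ : ℝ),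
    acb t (fun q => ξ * ∏ l, (q l : ℝ)) r r' = ξ * ∏ l, ((r l : ℝ) - r' l) := by
  intro t
  induction t with
  | zero =>
    intro r r' ξ
    simp [acb]
  | succ t ih =>
    intro r r' ξ
    simp only [acb]
    have hfun : (fun q : Fin t → ℕ =>
        ξ * ∏ l, ((Fin.cons (r 0) q : Fin (t + 1) → ℕ) l : ℝ) -
        ξ * ∏ l, ((Fin.cons (r' 0) q : Fin (t + 1) → ℕ) l : ℝ)) =
        (fun q => (ξ * ((r 0 : ℝ) - r' 0)) * ∏ l, (q l : ℝ)) := by
      funext q
      rw [Fin.prod_univ_succ, Fin.prod_univ_succ]
      simp only [Fin.cons_zero, Fin.cons_succ]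
      ring
    rw [hfun, ih, Fin.prod_univ_succ]
    simp only [Fin.tail]
    ring

end CUBEALG

open CUBEALG

theorem cb_mul : T_CB_mul := by
  intro r
  induction r with
  | zero => intro A A' h h'; rfl
  | succ r ih =>
    intro A A' h h'
    simp only [cb]
    rw [← ih]
    congr 1
    funext t
    simp only [map_mul]
    ring

theorem cb_conj : T_CB_conj := by
  intro r
  induction r with
  | zero => intro A h h'; rfl
  | succ r ih =>
    intro A h h'
    simp only [cb]
    rw [← ih]
    congr 1
    funext t
    simp only [map_mul]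

theorem cb_e : T_CB_e := by
  intro r
  induction r with
  | zero => intro a h h'; rfl
  | succ r ih =>
    intro a h h'
    simp only [cb, acb]
    rw [← ih]
    congr 1
    funext t
    rw [e_sub]

theorem cb_fac : T_CB_fac := by
  intro Z _ r
  induction r with
  | zero =>
    intro A h' hA
    refine ⟨fun j => j.elim0, fun j => j.elim0, fun j => j.elim0, ?_⟩
    intro h z
    simp [cb]
  | succ r ih =>
    intro A h' hA
    have hk : ∀ k : ℕ, ∀ t : Fin r → ℕ, B1 (fun z => A (Fin.cons k t) z *
        conj (A (Fin.cons (h' 0) t) z)) := by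
      intro k t
      constructor
      · exact (hA _).meas.mul (Complex.continuous_conj.measurable.comp (hA _).meas)
      · intro z
        rw [norm_mul, Complex.norm_conj]
        exact mul_le_one₀ ((hA _).le z) (norm_nonneg _) ((hA _).le z)
    choose Ψ hΨ1 hΨ2 hΨ3 using fun k : ℕ => ih
      (fun t z => A (Fin.cons k t) z * conj (A (Fin.cons (h' 0) t) z)) (Fin.tail h') (hk k)
    refine ⟨fun j h => Fin.cases (fun z => conj (A (Fin.cons (h' 0) (Fin.tail h)) z))
      (fun i => Ψ (h 0) i (Fin.tail h)) j, ?_, ?_, ?_⟩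
    · intro j h
      refine Fin.cases ?_ (fun i => ?_) j
      · simp only [Fin.cases_zero]
        constructor
        · exact Complex.continuous_conj.measurable.comp (hA _).meas
        · intro z
          rw [Complex.norm_conj]
          exact (hA _).le z
      · simp only [Fin.cases_succ]
        exact hΨ1 _ _ _
    · intro j h t
      refine Fin.cases ?_ (fun i => ?_) j
      · simp only [Fin.cases_zero, Fin.tail_update_zero]
      · simp only [Fin.cases_succ]
        rw [Fin.tail_update_succ]
        have h0 : Function.update h i.succ t 0 = h 0 := by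
          rw [Function.update_of_ne]
          exact (Fin.succ_ne_zero i).symm
        rw [h0]
        exact hΨ2 _ _ _ _
    · intro h z
      simp only [cb]
      rw [hΨ3 (h 0) (Fin.tail h) z, Fin.prod_univ_succ]
      simp only [Fin.cases_zero, Fin.cases_succ, Fin.cons_self_tail]
      ring

theorem acb_fac : T_ACB_fac := by
  intro r
  induction r with
  | zero =>
    intro a h'
    refine ⟨fun j => j.elim0, fun j => j.elim0, ?_⟩
    intro h
    simp [acb]
  | succ r ih =>
    intro a h'
    choose β hβ1 hβ2 using fun k : ℕ => ih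
      (fun t => a (Fin.cons k t) - a (Fin.cons (h' 0) t)) (Fin.tail h')
    refine ⟨fun j h => Fin.cases (-(a (Fin.cons (h' 0) (Fin.tail h))))
      (fun i => β (h 0) i (Fin.tail h)) j, ?_, ?_⟩
    · intro j h t
      refine Fin.cases ?_ (fun i => ?_) j
      · simp only [Fin.cases_zero, Fin.tail_update_zero]
      · simp only [Fin.cases_succ]
        rw [Fin.tail_update_succ]
        have h0 : Function.update h i.succ t 0 = h 0 := by
          rw [Function.update_of_ne]
          exact (Fin.succ_ne_zero i).symm
        rw [h0]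
        exact hβ1 _ _ _ _
    · intro h
      simp only [acb]
      rw [hβ2 (h 0) (Fin.tail h), Fin.sum_univ_succ]
      simp only [Fin.cases_zero, Fin.cases_succ, Fin.cons_self_tail]
      ring

theorem cb_vtx : T_CB_vtx := by
  intro r h h'
  exact ⟨cb_congr r h h', acb_congr r h h', cb_ne r h h', cb_norm r h h', acb_close r h h'⟩

theorem acb_poly : T_ACB_poly := by
  intro t r r'
  refine ⟨?_, acb_prod t r r'⟩
  intro θ
  have key := acb_polynomial t r r' 0
    (∑ j ∈ Finset.range (t + 1), Polynomial.C (θ j) * Polynomial.X ^ j) (by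
      apply Polynomial.natDegree_sum_le_of_forall_le
      intro j hj
      refine (Polynomial.natDegree_C_mul_X_pow_le _ _).trans ?_
      have := Finset.mem_range.1 hj
      omega)
  have hfun : (fun q : Fin t → ℕ => ∑ j ∈ Finset.range (t + 1), θ j * (sm q : ℝ) ^ j) =
      (fun q => Polynomial.eval (0 + (sm q : ℝ))
        (∑ j ∈ Finset.range (t + 1), Polynomial.C (θ j) * Polynomial.X ^ j)) := by
    funext q
    rw [Polynomial.eval_finsetSum]
    simp
  rw [hfun, key]
  congr 2
  rw [Polynomial.finsetSum_coeff]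
  simp [Polynomial.coeff_X_pow]

end Pool.Agent.SqF
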