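import Pool.Agent.SqF.DRAT

/-!
# MP_0b2319_an, part DEG: the characteristic factor at the last place
-/

set_option autoImplicit false

open MeasureTheory Filter Topology
open scoped ComplexConjugate

namespace Pool.Agent.SqF

namespace DEG

variable {X : Type} [MeasurableSpace X] {μ : Measure X}

open DRAT

/-- the dual functions of level `N` -/
noncomputable def FN {m : ℕ} (S : Sys X μ) (bs : Fin m → ℕ → ℤ) (bm : ℕ → ℤ) (w : ℕ → ℂ)
    (A : ℕ → X → ℂ) (g : Fin m → X → ℂ) (N : ℕ) : X → ℂ := fun x =>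
  avs N fun n => conj (w n) * (A N (S.φ (-bm n) x) * ∏ i, g i (S.φ (bs i n) (S.φ (-bm n) x)))

lemma B1_FN {m : ℕ} (S : Sys X μ) (bs : Fin m → ℕ → ℤ) (bm : ℕ → ℤ) {w : ℕ → ℂ}
    (hw : ∀ n, ‖w n‖ ≤ 1) {A : ℕ → X → ℂ} (hA : ∀ N, B1 (A N)) {g : Fin m → X → ℂ}
    (hg : ∀ i, B1 (g i)) (N : ℕ) : B1 (FN S bs bm w A g N) := by
  apply B1.avs'
  intro n
  refine B1.const_mul' ?_ (by rw [Complex.norm_conj]; exact hw n)
  exact ((hA N).sh S _).mul' (B1.prod' _ fun i _ => ((hg i).sh S (bs i n)).sh S (-bm n))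

lemma int_FN [IsProbabilityMeasure μ] {m : ℕ} (S : Sys X μ) (bs : Fin m → ℕ → ℤ) (bm : ℕ → ℤ)
    (w : ℕ → ℂ) {A : ℕ → X → ℂ} (hA : ∀ N, B1 (A N))
    {g : Fin m → X → ℂ} (hg : ∀ i, B1 (g i)) {ψ : X → ℂ} (hψ : B1 ψ) (N : ℕ) :
    (avs N fun n => conj (w n) *
        ∫ x, A N x * (∏ i, g i (S.φ (bs i n) x)) * ψ (S.φ (bm n) x) ∂μ) =
      ∫ x, FN S bs bm w A g N x * ψ x ∂μ := by
  have h1 : ∀ x, FN S bs bm w A g N x * ψ x = avs N (fun n => conj (w n) *
      (A N (S.φ (-bm n) x) * (∏ i, g i (S.φ (bs i n) (S.φ (-bm n) x))) *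
        ψ (S.φ (bm n) (S.φ (-bm n) x)))) := by
    intro x
    unfold FN
    rw [← avs_mul_right]
    congr 1
    ext n
    rw [S.cancel_neg]
    ring
  rw [integral_congr_ae (Eventually.of_forall h1), integral_avs]
  · congr 1
    ext n
    rw [integral_const_mul,
      S.integral_comp (-bm n) (fun x => A N x * (∏ i, g i (S.φ (bs i n) x)) * ψ (S.φ (bm n) x))]
  · intro n
    refine Integrable.const_mul ?_ _
    exact ((((hA N).sh S (-bm n)).mul' (B1.prod' _ fun i _ =>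
      ((hg i).sh S (bs i n)).sh S (-bm n))).mul' ((hψ.sh S (bm n)).sh S (-bm n))).integrable

end DEG

open DEG DRAT

theorem DEG (hD : T_DRAT) (hW : T_WLIM) : T_DEG := by
  intro X _ μ _ S hE m bs bm w hw hA1 hA3 hA3' f hf hfo g hg
  have hw1 : ∀ n, ‖w n‖ ≤ 1 := fun n => (hw n).le
  rw [tendsto_iff_ultrafilter]
  intro 𝒰 hU
  set A : ℕ → X → ℂ := fun N => mav1 S bs bm w g f N with hAdef
  have hA : ∀ N, B1 (A N) := fun N => B1.mav1 S bs bm hw1 hg hf N
  have hgc : ∀ i, B1 (fun x => conj (g i x)) := fun i => (hg i).conj'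
  obtain ⟨F, hFB, hF⟩ := hW X μ (FN S bs bm w A fun i x => conj (g i x))
    (B1_FN S bs bm hw1 hA hgc) 𝒰
  have hdual : IsDual S bs bm w 𝒰 F := by
    refine ⟨hFB, Unit, inferInstance, fun _ => 1, fun N _ => A N,
      fun _ i x => conj (g i x), fun _ => zero_le_one, by simp, fun N _ => hA N,
      fun _ i => hgc i, fun ψ hψ => ?_⟩
    refine (hF ψ hψ).congr fun N => ?_
    rw [← int_FN S bs bm w hA hgc hψ N]
    simp
  have h0 := hD X μ S hE m bs bm w hw hA1 hA3 hA3' 𝒰 hU F hdual f hf hfo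
  have h1 := hF (fun x => conj (f x)) hf.conj'
  rw [h0] at h1
  have h2 : ∀ N, ∫ x, FN S bs bm w A (fun i x => conj (g i x)) N x * conj (f x) ∂μ =
      ((Q μ (A N) : ℝ) : ℂ) := by
    intro N
    rw [← int_FN S bs bm w hA hgc hf.conj' N, term_eq S bs bm hw1 (hA N) hgc hf.conj' N]
    unfold Q
    rw [← integral_complex_ofReal]
    congr 1
    ext x
    simp only [Complex.conj_conj]
    show conj (A N x) * A N x = _
    rw [mul_comm, Complex.mul_conj, Complex.normSq_eq_norm_sq]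
  simp only [h2] at h1
  have h3 := (Complex.continuous_re.tendsto _).comp h1
  rw [Complex.zero_re] at h3
  exact h3

end Pool.Agent.SqF
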