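import Pool.Agent.SqF.Targets
import Pool.Agent.SqF.Basic

/-!
# MP_0b2319_an: degree lowering
-/

set_option autoImplicit false

open MeasureTheory Filter Topology
open scoped ComplexConjugate

namespace Pool.Agent.SqF

namespace DL

lemma cb_one (r : ℕ) (h h' : Fin r → ℕ) : cb r (fun _ => 1) h h' = 1 := by
  induction r with
  | zero => simp [cb]
  | succ r ih => simp [cb, ih]

lemma cb_const {r : ℕ} (hr : 1 ≤ r) {a : ℂ} (ha : ‖a‖ = 1) (h h' : Fin r → ℕ) :
    cb r (fun _ => a) h h' = 1 := by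
  obtain ⟨k, rfl⟩ : ∃ k, r = k + 1 := ⟨r - 1, by omega⟩
  have : a * conj a = 1 := by
    rw [Complex.mul_conj, Complex.normSq_eq_norm_sq, ha]; simp
  simp [cb, this, cb_one]

lemma mul_conj_of_norm {a : ℂ} (ha : ‖a‖ = 1) : a * conj a = 1 := by
  rw [Complex.mul_conj, Complex.normSq_eq_norm_sq, ha]; simp

lemma norm_cb (hmul : T_CB_mul) (hconj : T_CB_conj) (hvtx : T_CB_vtx) {r : ℕ}
    {A : (Fin r → ℕ) → ℂ} {h h' : Fin r → ℕ} (hA : ∀ ω, ‖A (vtx h h' ω)‖ = 1) :
    ‖cb r A h h'‖ = 1 := by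
  have h1 : cb r (fun t => A t * conj (A t)) h h' = 1 := by
    rw [(hvtx r h h').1 _ (fun _ => 1) (fun ω => mul_conj_of_norm (hA ω)), cb_one]
  rw [hmul, hconj, Complex.mul_conj, Complex.normSq_eq_norm_sq] at h1
  have h2 : ‖cb r A h h'‖ ^ 2 = 1 := by exact_mod_cast h1
  exact (pow_eq_one_iff_of_nonneg (norm_nonneg _) two_ne_zero).mp h2

lemma cb_B1 (hfac : T_CB_fac) {X : Type} [MeasurableSpace X] {r : ℕ}
    {A : (Fin r → ℕ) → X → ℂ} (hA : ∀ t, B1 (A t)) (h h' : Fin r → ℕ) :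
    B1 (fun x => cb r (fun t => A t x) h h') := by
  obtain ⟨Ψ, h1, _, h3⟩ := hfac X r A h' hA
  have : (fun x => cb r (fun t => A t x) h h') = fun x => A h x * ∏ j, Ψ j h x := by
    ext x; exact h3 h x
  rw [this]
  exact (hA h).mul' (B1.prod' _ fun j _ => h1 j h)

lemma cubeF_B1 (hfac : T_CB_fac) {X : Type} [MeasurableSpace X] {μ : Measure X} (S : Sys X μ)
    {r : ℕ} {F : X → ℂ} (hF : B1 F) (h h' : Fin r → ℕ) : B1 (cubeF S r F h h') :=
  cb_B1 hfac (A := fun t x => F (S.φ (sm t) x)) (fun _ => hF.sh S _) h h'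

lemma boxE_ofReal {r : ℕ} (H : Fin r → ℕ) (g : (Fin r → ℕ) → ℝ) :
    boxE H (fun h => ((g h : ℝ) : ℂ)) = ((boxE H g : ℝ) : ℂ) := by
  unfold boxE
  rw [smul_eq_mul, Complex.real_smul]
  push_cast
  rfl

/-- eigenvalue equation for the cube product -/
lemma cb_eig (hmul : T_CB_mul) (he : T_CB_e) {X : Type} [MeasurableSpace X] {μ : Measure X}
    (S : Sys X μ) {r : ℕ} {Φ : (Fin r → ℕ) → X → ℂ} {α : (Fin r → ℕ) → ℝ}
    (hΦ : ∀ h, ∀ᵐ x ∂μ, Φ h (S.φ 1 x) = e (α h) * Φ h x) (h h' : Fin r → ℕ) :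
    ∀ᵐ x ∂μ, cb r (fun t => Φ t (S.φ 1 x)) h h' = e (acb r α h h') * cb r (fun t => Φ t x) h h' := by
  have h1 : ∀ᵐ x ∂μ, ∀ t, Φ t (S.φ 1 x) = e (α t) * Φ t x := ae_all_iff.mpr hΦ
  filter_upwards [h1] with x hx
  simp_rw [hx]
  rw [hmul r (fun t => e (α t)) (fun t => Φ t x), he]

/-- a.e. invariant functions are constant -/
lemma const_of_inv {X : Type} [MeasurableSpace X] {μ : Measure X} (S : Sys X μ)
    (hE : Ergodic (S.φ 1) μ) {ζ : X → ℂ} (hm : Measurable ζ)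
    (hinv : ∀ᵐ x ∂μ, ζ (S.φ 1 x) = ζ x) : ∃ κ : ℂ, ∀ᵐ x ∂μ, ζ x = κ := by
  obtain ⟨c, hc⟩ := hE.ae_eq_const_of_ae_eq_comp₀ hm.nullMeasurable hinv
  exact ⟨c, hc⟩

/-- the square of the modulus of an integral as a double integral -/
lemma normSq_integral {X : Type} [MeasurableSpace X] {μ : Measure X} [IsProbabilityMeasure μ]
    (f : X → ℂ) :
    ((‖∫ x, f x ∂μ‖ ^ 2 : ℝ) : ℂ) = ∫ z, f z.1 * conj (f z.2) ∂(μ.prod μ) := by
  rw [integral_prod_mul f (fun y => conj (f y)), integral_conj, Complex.mul_conj,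
    Complex.normSq_eq_norm_sq]

/-- last part of the argument: box Cauchy-Schwarz on the product -/
lemma final_cs (hmul : T_CB_mul) (hconj : T_CB_conj) (hBOX : T_BOX)
    {X : Type} [MeasurableSpace X] {μ : Measure X}
    [IsProbabilityMeasure μ] (S : Sys X μ) {r : ℕ} (hr : 1 ≤ r) {H : Fin r → ℕ}
    (hH : ∀ j, 0 < H j) {F χ : X → ℂ} (hF : B1 F) (hχ : Measurable χ) (hχ1 : ∀ x, ‖χ x‖ = 1)
    {Ψ : Fin r → (Fin r → ℕ) → X → ℂ} (hΨ : ∀ j h, B1 (Ψ j h))
    (hΨi : ∀ j h t, Ψ j (Function.update h j t) = Ψ j h) :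
    (boxE H fun h => ‖∫ x, F (S.φ (sm h) x) * χ x * ∏ j, Ψ j h x ∂μ‖ ^ 2) ^ (2 ^ r) ≤
      boxE H (fun h => boxE H fun h' => V S 0 (cubeF S r F h h')) := by
  have hχB : B1 χ := ⟨hχ, fun x => (hχ1 x).le⟩
  have hAB : ∀ h : Fin r → ℕ, B1 (fun x => F (S.φ (sm h) x) * χ x) := fun h => (hF.sh S _).mul' hχB
  have key := hBOX (X × X) (μ.prod μ) r H hr hH
    (fun h z => (F (S.φ (sm h) z.1) * χ z.1) * conj (F (S.φ (sm h) z.2) * χ z.2))
    (fun j h z => Ψ j h z.1 * conj (Ψ j h z.2))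
    (fun h => ((hAB h).comp' measurable_fst).mul' (((hAB h).comp' measurable_snd).conj'))
    (fun j h => ((hΨ j h).comp' measurable_fst).mul' (((hΨ j h).comp' measurable_snd).conj'))
    (fun j h t => by simp only [hΨi])
  have e1 : ∀ h : Fin r → ℕ, ∫ z, ((F (S.φ (sm h) z.1) * χ z.1) *
      conj (F (S.φ (sm h) z.2) * χ z.2)) * ∏ j, (Ψ j h z.1 * conj (Ψ j h z.2)) ∂(μ.prod μ) =
      ((‖∫ x, F (S.φ (sm h) x) * χ x * ∏ j, Ψ j h x ∂μ‖ ^ 2 : ℝ) : ℂ) := by
    intro h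
    rw [normSq_integral]
    congr 1; ext z
    rw [Finset.prod_mul_distrib, map_mul, map_mul, map_mul, map_prod]
    ring
  have e2 : ∀ h h' : Fin r → ℕ, ∫ z, cb r (fun t => (F (S.φ (sm t) z.1) * χ z.1) *
      conj (F (S.φ (sm t) z.2) * χ z.2)) h h' ∂(μ.prod μ) =
      ((V S 0 (cubeF S r F h h') : ℝ) : ℂ) := by
    intro h h'
    have : V S 0 (cubeF S r F h h') = ‖∫ x, cubeF S r F h h' x ∂μ‖ ^ 2 := rfl
    rw [this, normSq_integral]
    congr 1; ext z
    rw [hmul r (fun t => F (S.φ (sm t) z.1) * χ z.1)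
      (fun t => conj (F (S.φ (sm t) z.2) * χ z.2)),
      hmul r (fun t => F (S.φ (sm t) z.1)) (fun _ => χ z.1), cb_const hr (hχ1 _),
      hconj r (fun t => F (S.φ (sm t) z.2) * χ z.2),
      hmul r (fun t => F (S.φ (sm t) z.2)) (fun _ => χ z.2), cb_const hr (hχ1 _)]
    simp [cubeF]
  simp_rw [e1, e2] at key
  rw [boxE_ofReal] at key
  have e3 : (boxE H fun h => boxE H fun h' => ((V S 0 (cubeF S r F h h') : ℝ) : ℂ)) =
      ((boxE H (fun h => boxE H fun h' => V S 0 (cubeF S r F h h')) : ℝ) : ℂ) := by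
    rw [← boxE_ofReal]
    congr 1; ext h
    rw [← boxE_ofReal]
  rw [e3, Complex.ofReal_re, Complex.norm_real] at key
  refine le_trans (le_of_eq ?_) key
  rw [Real.norm_eq_abs, abs_of_nonneg]
  exact boxE_nonneg fun q _ => by positivity

end DL

open DL in
/-- degree lowering -/
theorem dl (hNB : T_NB) (hU2 : T_U2) (hDL1 : T_DL1) (hmul : T_CB_mul) (hconj : T_CB_conj)
    (he : T_CB_e) (hfac : T_CB_fac) (hvtx : T_CB_vtx) (hBOX : T_BOX) (hVbd : T_V_bd) : T_DL := by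
  classical
  intro X _ μ _ S hErg m bs bm w hw hA3 r hr δ hδ
  -- constants
  set c : ℝ := δ / 4 * Real.sqrt (δ / 32) with hc
  have hc0 : 0 < c := by positivity
  obtain ⟨Λ, c', hc', hmain⟩ := hDL1 X μ S m bs bm w hw hA3 r hr c hc0
  set c'' : ℝ := c' / (Λ.card + 1) with hc''
  have hc''0 : 0 < c'' := by positivity
  set c3 : ℝ := c'' * (δ / 32) with hc3
  have hc30 : 0 < c3 := by positivity
  set ρ : ℝ := c3 ^ (2 ^ r) / 2 with hρ
  have hρ0 : 0 < ρ := by positivity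
  refine ⟨ρ, hρ0, ?_⟩
  intro 𝒰 h𝒰 F hD hVF
  have hF : B1 F := hD.1
  obtain ⟨H, hH, hN1, hN2⟩ := hNB X μ S r F hF (min (δ / 2) ρ) (lt_min (by positivity) hρ0)
  have hV1 : δ / 2 ≤ boxE H (fun h => boxE H fun h' => V S 1 (cubeF S r F h h')) := by
    have := min_le_left (δ / 2) ρ
    linarith
  have hcB : ∀ h h', B1 (cubeF S r F h h') := fun h h' => cubeF_B1 hfac S hF h h'
  rw [boxE_comm] at hV1
  obtain ⟨h0, -, hh0⟩ := exists_boxE_le hH (fun h' => boxE H fun h => V S 1 (cubeF S r F h h'))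
  have hV2 : δ / 2 ≤ boxE H (fun h => V S 1 (cubeF S r F h h0)) := hV1.trans hh0
  -- good shifts
  set good : (Fin r → ℕ) → Prop := fun h => δ / 4 ≤ V S 1 (cubeF S r F h h0) with hgood
  have hgd : δ / 4 ≤ boxE H (fun h => if good h then (1 : ℝ) else 0) := by
    have h1 : boxE H (fun h => V S 1 (cubeF S r F h h0)) ≤
        boxE H (fun h => (if good h then (1 : ℝ) else 0) + δ / 4) := by
      refine boxE_mono fun q _ => ?_
      by_cases hq : good q
      · simp only [hq, if_true]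
        have := (hVbd X μ S 1 _ (hcB q h0)).2
        linarith
      · simp only [hq, if_false]
        simp only [hgood, not_le] at hq
        linarith
    rw [boxE_add, boxE_const hH] at h1
    linarith
  -- eigenfunctions
  have hex : ∀ h, ∃ (χ : X → ℂ) (α : ℝ), good h → (Eig S χ α ∧
      δ / 4 / 8 ≤ ‖∫ x, cubeF S r F h h0 x * conj (χ x) ∂μ‖ ^ 2) := by
    intro h
    by_cases hg : good h
    · obtain ⟨χ, α, h1, h2⟩ := hU2 X μ S hErg _ (hcB h h0) (δ / 4) (by positivity) hg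
      exact ⟨χ, α, fun _ => ⟨h1, h2⟩⟩
    · exact ⟨fun _ => 0, 0, fun h => absurd h hg⟩
  choose χ β hχ using hex
  set z : (Fin r → ℕ) → ℂ := fun h => ∫ x, cubeF S r F h h0 x * conj (χ h x) ∂μ with hz
  have hznorm : ∀ h, good h → Real.sqrt (δ / 32) ≤ ‖z h‖ := by
    intro h hg
    rw [← Real.sqrt_sq (norm_nonneg (z h))]
    apply Real.sqrt_le_sqrt
    have := (hχ h hg).2
    calc δ / 32 = δ / 4 / 8 := by ring
      _ ≤ _ := this
  have hz0 : ∀ h, good h → ‖z h‖ ≠ 0 := fun h hg =>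
    (lt_of_lt_of_le (by positivity : 0 < Real.sqrt (δ / 32)) (hznorm h hg)).ne'
  set Φ : (Fin r → ℕ) → X → ℂ := fun h x =>
    if good h then (conj (z h) / (‖z h‖ : ℂ)) * conj (χ h x) else 0 with hΦ
  have hph : ∀ h, good h → ‖conj (z h) / (‖z h‖ : ℂ)‖ = 1 := by
    intro h hg
    rw [norm_div, Complex.norm_real, norm_norm, RCLike.norm_conj, div_self (hz0 h hg)]
  have hΦnorm : ∀ h x, good h → ‖Φ h x‖ = 1 := by
    intro h x hg
    simp only [hΦ, hg, if_true]
    rw [norm_mul, hph h hg, RCLike.norm_conj, (hχ h hg).1.nm, one_mul]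
  have hΦ0 : ∀ h x, ¬ good h → Φ h x = 0 := by
    intro h x hg; simp only [hΦ, hg, if_false]
  have hΦB : ∀ h, B1 (Φ h) := by
    intro h
    by_cases hg : good h
    · refine ⟨?_, fun x => (hΦnorm h x hg).le⟩
      have : Φ h = fun x => (conj (z h) / (‖z h‖ : ℂ)) * conj (χ h x) := by
        ext x; simp only [hΦ, hg, if_true]
      rw [this]
      exact (Complex.continuous_conj.measurable.comp (hχ h hg).1.meas).const_mul _
    · have : Φ h = fun _ => 0 := by ext x; exact hΦ0 h x hg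
      rw [this]; exact B1.zero
  set α : (Fin r → ℕ) → ℝ := fun h => - β h with hα
  have hΦe : ∀ h, ∀ᵐ x ∂μ, Φ h (S.φ 1 x) = e (α h) * Φ h x := by
    intro h
    by_cases hg : good h
    · filter_upwards [(hχ h hg).1.eig] with x hx
      simp only [hΦ, hg, if_true, hα]
      rw [hx, map_mul, conj_e]; ring
    · exact Eventually.of_forall fun x => by rw [hΦ0 h _ hg, hΦ0 h _ hg, mul_zero]
  -- factorisation of the cube functions
  obtain ⟨Ψ, hΨB, hΨi, hΨf⟩ := hfac X r (fun t x => F (S.φ (sm t) x)) h0 (fun t => hF.sh S _)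
  have hcube : ∀ h x, cubeF S r F h h0 x = F (S.φ (sm h) x) * ∏ j, Ψ j h x := fun h x => hΨf h x
  have hint : ∀ h, ∫ x, F (S.φ (sm h) x) * (∏ j, Ψ j h x) * Φ h x ∂μ =
      (((if good h then ‖z h‖ else 0 : ℝ)) : ℂ) := by
    intro h
    by_cases hg : good h
    · have e1 : ∀ x, F (S.φ (sm h) x) * (∏ j, Ψ j h x) * Φ h x =
          (conj (z h) / (‖z h‖ : ℂ)) * (cubeF S r F h h0 x * conj (χ h x)) := by
        intro x
        rw [← hcube]
        simp only [hΦ, hg, if_true]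
        ring
      simp_rw [e1]
      rw [integral_const_mul]
      change (conj (z h) / (‖z h‖ : ℂ)) * z h = _
      rw [if_pos hg, div_mul_eq_mul_div, mul_comm (conj (z h)), Complex.mul_conj,
        Complex.normSq_eq_norm_sq]
      have : (‖z h‖ : ℂ) ≠ 0 := by exact_mod_cast hz0 h hg
      push_cast
      field_simp
    · have e1 : ∀ x, F (S.φ (sm h) x) * (∏ j, Ψ j h x) * Φ h x = 0 := by
        intro x; rw [hΦ0 h x hg, mul_zero]
      simp_rw [e1]
      simp [hg]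
  have hlow : c ≤ ‖boxE H (fun h => ∫ x, F (S.φ (sm h) x) * (∏ j, Ψ j h x) * Φ h x ∂μ)‖ := by
    simp_rw [hint]
    rw [boxE_ofReal, Complex.norm_real]
    refine le_trans ?_ (le_abs_self _)
    calc c ≤ boxE H (fun h => if good h then (1 : ℝ) else 0) * Real.sqrt (δ / 32) := by
          rw [hc]; gcongr
      _ = boxE H (fun h => Real.sqrt (δ / 32) * if good h then (1 : ℝ) else 0) := by
          rw [boxE_mul_left_real, mul_comm]
      _ ≤ _ := by
          refine boxE_mono fun q _ => ?_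
          by_cases hq : good q
          · simp only [hq, if_true, mul_one]; exact hznorm q hq
          · simp only [hq, if_false, mul_zero]; exact le_refl _
  have hbig := hmain 𝒰 h𝒰 F hD H hH Φ α Ψ hΦB hΦe hΨB hΨi hlow
  rw [boxE_comm] at hbig
  obtain ⟨h1, -, hh1⟩ := exists_boxE_le hH (fun h' => boxE H fun h =>
    (∫ x, ‖cb r (fun t => Φ t x) h h'‖ ∂μ) *
      (if ∃ q ∈ Λ, ∃ z : ℤ, acb r α h h' = q + z then (1 : ℝ) else 0))
  have hbig2 := hbig.trans hh1
  -- all vertices good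
  set P : (Fin r → ℕ) → Prop := fun h => ∀ ω, good (vtx h h1 ω) with hP
  have hPi : ∀ h, ∫ x, ‖cb r (fun t => Φ t x) h h1‖ ∂μ ≤ if P h then (1 : ℝ) else 0 := by
    intro h
    by_cases hp : P h
    · rw [if_pos hp]
      have : ∀ x, ‖cb r (fun t => Φ t x) h h1‖ = 1 := fun x =>
        norm_cb hmul hconj hvtx fun ω => hΦnorm _ _ (hp ω)
      simp_rw [this]; simp
    · rw [if_neg hp]
      have : ∀ x, cb r (fun t => Φ t x) h h1 = 0 := by
        intro x
        by_contra hne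
        exact hp fun ω => by
          by_contra hb
          exact (hvtx r h h1).2.2.1 _ hne ω (hΦ0 _ _ hb)
      simp_rw [this]; simp
  set Gq : ℚ → (Fin r → ℕ) → Prop := fun q h => P h ∧ ∃ z : ℤ, acb r α h h1 = q + z with hGq
  have hsum : c' ≤ ∑ q ∈ Λ, boxE H (fun h => if Gq q h then (1 : ℝ) else 0) := by
    rw [← boxE_sum]
    refine hbig2.trans (boxE_mono fun h _ => ?_)
    by_cases hp : P h
    · by_cases hq : ∃ q ∈ Λ, ∃ z : ℤ, acb r α h h1 = q + z
      · obtain ⟨q, hqΛ, hqz⟩ := hq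
        rw [if_pos ⟨q, hqΛ, hqz⟩, mul_one]
        refine (hPi h).trans ?_
        rw [if_pos hp]
        have hg1 : Gq q h := ⟨hp, hqz⟩
        calc (1 : ℝ) = if Gq q h then (1 : ℝ) else 0 := by rw [if_pos hg1]
          _ ≤ _ := Finset.single_le_sum (f := fun q => if Gq q h then (1 : ℝ) else 0)
              (fun q _ => by split_ifs <;> norm_num) hqΛ
      · rw [if_neg hq, mul_zero]
        exact Finset.sum_nonneg fun q _ => by split_ifs <;> norm_num
    · have h2 := hPi h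
      rw [if_neg hp] at h2
      have h3 : 0 ≤ ∫ x, ‖cb r (fun t => Φ t x) h h1‖ ∂μ := integral_nonneg fun x => norm_nonneg _
      rw [le_antisymm h2 h3, zero_mul]
      exact Finset.sum_nonneg fun q _ => by split_ifs <;> norm_num
  obtain ⟨q, hqΛ, hq⟩ : ∃ q ∈ Λ, c'' ≤ boxE H (fun h => if Gq q h then (1 : ℝ) else 0) := by
    by_contra hcon
    push Not at hcon
    have h2 : ∑ q ∈ Λ, boxE H (fun h => if Gq q h then (1 : ℝ) else 0) ≤ Λ.card * c'' := by
      rw [← nsmul_eq_mul, ← Finset.sum_const]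
      exact Finset.sum_le_sum fun q hq => (hcon q hq).le
    have h3 : (Λ.card : ℝ) * c'' < c' := by
      rw [hc'', mul_div_assoc', div_lt_iff₀ (by positivity)]
      nlinarith
    linarith
  -- a good point
  obtain ⟨k0, -, hk0⟩ := exists_boxE_le hH (fun h => if Gq q h then (1 : ℝ) else 0)
  have hGk0 : Gq q k0 := by
    by_contra hcon
    rw [if_neg hcon] at hk0
    linarith
  set X0 : X → ℂ := fun x => cb r (fun t => Φ t x) k0 h1 with hX0
  have hX0m : Measurable X0 := (cb_B1 hfac hΦB k0 h1).meas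
  have hX0n : ∀ x, ‖X0 x‖ = 1 := fun x =>
    norm_cb hmul hconj hvtx fun ω => hΦnorm _ _ (hGk0.1 ω)
  obtain ⟨Ψ', hΨ'B, hΨ'i, hΨ'f⟩ := hfac X r Φ h1 hΦB
  have hvtx0 : ∀ h : Fin r → ℕ, vtx h h1 (fun _ => false) = h := by
    intro h; ext l; simp [vtx]
  have hzG : ∀ h, Gq q h → ‖z h‖ =
      ‖∫ x, F (S.φ (sm h) x) * X0 x * ∏ j, (Ψ j h x * conj (Ψ' j h x)) ∂μ‖ := by
    intro h hG
    have hgh : good h := by have := hG.1 (fun _ => false); rwa [hvtx0] at this
    -- the quotient is invariant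
    obtain ⟨z1, hz1⟩ := hG.2
    obtain ⟨z2, hz2⟩ := hGk0.2
    have hinv : ∀ᵐ x ∂μ, (cb r (fun t => Φ t (S.φ 1 x)) h h1 * conj (X0 (S.φ 1 x))) =
        cb r (fun t => Φ t x) h h1 * conj (X0 x) := by
      filter_upwards [cb_eig hmul he S hΦe h h1, cb_eig hmul he S hΦe k0 h1] with x hx1 hx2
      simp only [hX0]
      rw [hx1, hx2, map_mul, hz1, hz2, e_add_int, e_add_int]
      have := e_mul_conj (q : ℝ)
      linear_combination (cb r (fun t => Φ t x) h h1 * conj (cb r (fun t => Φ t x) k0 h1)) * this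
    obtain ⟨κ, hκ⟩ := const_of_inv S hErg
      (ζ := fun x => cb r (fun t => Φ t x) h h1 * conj (X0 x))
      ((cb_B1 hfac hΦB h h1).meas.mul (Complex.continuous_conj.measurable.comp hX0m)) hinv
    have hcbn : ∀ x, ‖cb r (fun t => Φ t x) h h1‖ = 1 := fun x =>
      norm_cb hmul hconj hvtx fun ω => hΦnorm _ _ (hG.1 ω)
    have hκ1 : ‖κ‖ = 1 := by
      obtain ⟨x, hx⟩ := hκ.exists
      rw [← hx, norm_mul, RCLike.norm_conj, hcbn, hX0n, one_mul]
    have hprod1 : ∀ x, ‖∏ j, Ψ' j h x‖ = 1 := by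
      intro x
      have h3 := hΨ'f h x
      have h4 := hcbn x
      rw [h3, norm_mul, hΦnorm h x hgh, one_mul] at h4
      exact h4
    have hΦκ : ∀ᵐ x ∂μ, Φ h x = κ * X0 x * conj (∏ j, Ψ' j h x) := by
      filter_upwards [hκ] with x hx
      have h3 := hΨ'f h x
      have h4 := mul_conj_of_norm (hprod1 x)
      have h5 := mul_conj_of_norm (hX0n x)
      rw [h3] at hx
      calc Φ h x = Φ h x * 1 * 1 := by ring
        _ = Φ h x * ((∏ j, Ψ' j h x) * conj (∏ j, Ψ' j h x)) * (X0 x * conj (X0 x)) := by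
            rw [h4, h5]
        _ = (Φ h x * (∏ j, Ψ' j h x) * conj (X0 x)) * X0 x * conj (∏ j, Ψ' j h x) := by ring
        _ = κ * X0 x * conj (∏ j, Ψ' j h x) := by rw [hx]
    have h6 := hint h
    rw [if_pos hgh] at h6
    have h7 : ∫ x, F (S.φ (sm h) x) * (∏ j, Ψ j h x) * Φ h x ∂μ =
        κ * ∫ x, F (S.φ (sm h) x) * X0 x * ∏ j, (Ψ j h x * conj (Ψ' j h x)) ∂μ := by
      rw [← integral_const_mul]
      refine integral_congr_ae ?_
      filter_upwards [hΦκ] with x hx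
      rw [hx, Finset.prod_mul_distrib, map_prod]
      ring
    rw [h7] at h6
    have h8 := congrArg norm h6
    rw [norm_mul, hκ1, one_mul, Complex.norm_real, norm_norm] at h8
    exact h8.symm
  -- lower bound for the average of squares
  have hc3le : c3 ≤ boxE H (fun h => ‖∫ x, F (S.φ (sm h) x) * X0 x *
      ∏ j, (Ψ j h x * conj (Ψ' j h x)) ∂μ‖ ^ 2) := by
    calc c3 ≤ (δ / 32) * boxE H (fun h => if Gq q h then (1 : ℝ) else 0) := by
          rw [hc3, mul_comm]; gcongr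
      _ = boxE H (fun h => (δ / 32) * if Gq q h then (1 : ℝ) else 0) := by
          rw [boxE_mul_left_real]
      _ ≤ _ := by
          refine boxE_mono fun h _ => ?_
          by_cases hG : Gq q h
          · rw [if_pos hG, mul_one, ← hzG h hG]
            have hgh : good h := by have := hG.1 (fun _ => false); rwa [hvtx0] at this
            have := (hχ h hgh).2
            calc δ / 32 = δ / 4 / 8 := by ring
              _ ≤ _ := this
          · rw [if_neg hG, mul_zero]; positivity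
  have hfin := final_cs hmul hconj hBOX S hr hH hF hX0m hX0n
    (Ψ := fun j h x => Ψ j h x * conj (Ψ' j h x))
    (fun j h => (hΨB j h).mul' (hΨ'B j h).conj')
    (fun j h t => by simp only [hΨi, hΨ'i])
  have hpow : c3 ^ (2 ^ r) ≤ (boxE H fun h => ‖∫ x, F (S.φ (sm h) x) * X0 x *
      ∏ j, (Ψ j h x * conj (Ψ' j h x)) ∂μ‖ ^ 2) ^ (2 ^ r) :=
    pow_le_pow_left₀ hc30.le hc3le _
  have hmin := min_le_right (δ / 2) ρ
  have : c3 ^ (2 ^ r) = 2 * ρ := by rw [hρ]; ring
  linarith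

end Pool.Agent.SqF
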