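import Pool.Agent.SqF.Targets
import Pool.Agent.SqF.Basic

/-!
# MP_0b2319_an: degree lowering, first half
-/

set_option autoImplicit false

open MeasureTheory Filter Topology
open scoped ComplexConjugate

namespace Pool.Agent.SqF.DL1

variable {X : Type} [MeasurableSpace X] {μ : Measure X}

/-- Jensen inequality for sub-probability weights -/
lemma jensen {ι : Type} (s : Finset ι) (p z : ι → ℝ) (hp : ∀ i ∈ s, 0 ≤ p i)
    (hs : ∑ i ∈ s, p i ≤ 1) (hz : ∀ i ∈ s, 0 ≤ z i) (T : ℕ) (hT : T ≠ 0) :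
    (∑ i ∈ s, p i * z i) ^ T ≤ ∑ i ∈ s, p i * z i ^ T := by
  have h := Real.pow_arith_mean_le_arith_mean_pow (Finset.insertNone s)
    (fun o => o.elim (1 - ∑ i ∈ s, p i) p) (fun o => o.elim 0 z)
    (by
      intro i hi
      rcases i with _ | i
      · simpa using hs
      · exact hp i (by simpa using hi))
    (by rw [Finset.sum_insertNone]; simp)
    (by
      intro i hi
      rcases i with _ | i
      · simp
      · exact hz i (by simpa using hi)) T
  rw [Finset.sum_insertNone, Finset.sum_insertNone] at h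
  simpa [zero_pow hT] using h

lemma cb_one (r : ℕ) (h h' : Fin r → ℕ) : cb r (fun _ => (1 : ℂ)) h h' = 1 := by
  induction r with
  | zero => simp [cb]
  | succ r ih => simp only [cb, map_one, mul_one]; exact ih _ _

lemma cb_const {r : ℕ} (hr : 1 ≤ r) {c : ℂ} (hc : ‖c‖ = 1) (h h' : Fin r → ℕ) :
    cb r (fun _ => c) h h' = 1 := by
  obtain ⟨r, rfl⟩ : ∃ k, r = k + 1 := ⟨r - 1, by omega⟩
  have h1 : c * conj c = 1 := by
    rw [Complex.mul_conj, Complex.normSq_eq_norm_sq, hc]; simp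
  simp only [cb, h1]
  exact cb_one _ _ _

lemma cb_prod (hm : T_CB_mul) {ι : Type} (s : Finset ι) (r : ℕ) (A : ι → (Fin r → ℕ) → ℂ)
    (h h' : Fin r → ℕ) :
    cb r (fun t => ∏ i ∈ s, A i t) h h' = ∏ i ∈ s, cb r (A i) h h' := by
  classical
  induction s using Finset.induction_on with
  | empty => simpa using cb_one r h h'
  | insert a s ha ih =>
    simp only [Finset.prod_insert ha]
    rw [hm, ih]

lemma cb_B1 (r : ℕ) : ∀ (A : (Fin r → ℕ) → X → ℂ) (h h' : Fin r → ℕ), (∀ t, B1 (A t)) →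
    B1 (fun x => cb r (fun t => A t x) h h') := by
  induction r with
  | zero => intro A h _ hA; exact hA h
  | succ r ih =>
    intro A h h' hA
    exact ih (fun t x => A (Fin.cons (h 0) t) x * conj (A (Fin.cons (h' 0) t) x)) _ _
      fun _ => (hA _).mul' (hA _).conj'

lemma cubeF_B1 (S : Sys X μ) (r : ℕ) {F : X → ℂ} (hF : B1 F) (h h' : Fin r → ℕ) :
    B1 (cubeF S r F h h') :=
  cb_B1 r (fun t x => F (S.φ (sm t) x)) h h' fun t => hF.sh S _

lemma avs_integral [IsProbabilityMeasure μ] (N : ℕ) {v : ℕ → X → ℂ} (hv : ∀ n, B1 (v n)) :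
    avs N (fun n => ∫ x, v n x ∂μ) = ∫ x, avs N (fun n => v n x) ∂μ := by
  unfold avs
  rw [integral_const_mul, integral_finsetSum _ fun n _ => (hv n).integrable]

lemma tendsto_boxE {l : Filter ℕ} {r : ℕ} (H : Fin r → ℕ) {G : ℕ → (Fin r → ℕ) → ℂ}
    {g : (Fin r → ℕ) → ℂ} (hG : ∀ h, Tendsto (fun N => G N h) l (𝓝 (g h))) :
    Tendsto (fun N => boxE H (G N)) l (𝓝 (boxE H g)) := by
  unfold boxE
  exact (tendsto_finsetSum _ fun h _ => hG h).const_smul _

/-- the shifted test function -/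
noncomputable def psi (S : Sys X μ) {r : ℕ} (Φ : (Fin r → ℕ) → X → ℂ)
    (Ψ : Fin r → (Fin r → ℕ) → X → ℂ) (h : Fin r → ℕ) (y : X) : ℂ :=
  (∏ j, Ψ j h (S.φ (-sm h) y)) * Φ h (S.φ (-sm h) y)

lemma psi_B1 (S : Sys X μ) {r : ℕ} {Φ : (Fin r → ℕ) → X → ℂ}
    {Ψ : Fin r → (Fin r → ℕ) → X → ℂ} (hΦ : ∀ h, B1 (Φ h)) (hΨ : ∀ j h, B1 (Ψ j h))
    (h : Fin r → ℕ) : B1 (psi S Φ Ψ h) :=
  (B1.prod' Finset.univ fun j _ => (hΨ j h).sh S _).mul' ((hΦ h).sh S _)

lemma int_psi (S : Sys X μ) {r : ℕ} (Φ : (Fin r → ℕ) → X → ℂ)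
    (Ψ : Fin r → (Fin r → ℕ) → X → ℂ) (F : X → ℂ) (h : Fin r → ℕ) :
    ∫ x, F (S.φ (sm h) x) * (∏ j, Ψ j h x) * Φ h x ∂μ = ∫ y, F y * psi S Φ Ψ h y ∂μ := by
  rw [← S.integral_comp (sm h) (fun y => F y * psi S Φ Ψ h y)]
  congr 1
  ext x
  simp only [psi, S.neg_cancel]
  ring

/-- the function to which the box inequality is applied -/
noncomputable def AA (S : Sys X μ) {m : ℕ} (bs : Fin m → ℕ → ℤ) (bm : ℕ → ℤ) (w : ℕ → ℂ)
    (g : X → ℂ) (f : Fin m → X → ℂ) {r : ℕ} (Φ : (Fin r → ℕ) → X → ℂ) (α : (Fin r → ℕ) → ℝ)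
    (n : ℕ) (t : Fin r → ℕ) (x : X) : ℂ :=
  conj (w n) * (e (α t * bm n) * ((g (S.φ (sm t) x) * ∏ i, f i (S.φ (bs i n) (S.φ (sm t) x))) *
    Φ t x))

lemma AA_B1 (S : Sys X μ) {m : ℕ} {bs : Fin m → ℕ → ℤ} {bm : ℕ → ℤ} {w : ℕ → ℂ}
    (hw : ∀ n, ‖w n‖ = 1)
    {g : X → ℂ} {f : Fin m → X → ℂ} {r : ℕ} {Φ : (Fin r → ℕ) → X → ℂ} {α : (Fin r → ℕ) → ℝ}
    (hg : B1 g) (hf : ∀ i, B1 (f i)) (hΦ : ∀ h, B1 (Φ h)) (n : ℕ) (t : Fin r → ℕ) :
    B1 (AA S bs bm w g f Φ α n t) := by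
  refine B1.const_mul' (B1.const_mul' (B1.mul' (B1.mul' (hg.sh S _)
    (B1.prod' Finset.univ fun i _ => ?_)) (hΦ t)) (norm_e _).le) ?_
  · exact ((hf i).sh S (bs i n)).sh S (sm t)
  · rw [RCLike.norm_conj, hw]

/-- the integral in the dual class with the shifted test function -/
lemma int_AA (S : Sys X μ) {m : ℕ} (bs : Fin m → ℕ → ℤ) (bm : ℕ → ℤ) (w : ℕ → ℂ)
    (g : X → ℂ) (f : Fin m → X → ℂ) {r : ℕ} (Φ : (Fin r → ℕ) → X → ℂ) (α : (Fin r → ℕ) → ℝ)
    (Ψ : Fin r → (Fin r → ℕ) → X → ℂ)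
    (hE : ∀ h, ∀ᵐ x ∂μ, Φ h (S.φ 1 x) = e (α h) * Φ h x) (n : ℕ) (h : Fin r → ℕ) :
    conj (w n) * ∫ x, g x * (∏ i, f i (S.φ (bs i n) x)) * psi S Φ Ψ h (S.φ (bm n) x) ∂μ =
      ∫ x, AA S bs bm w g f Φ α n h x * ∏ j, Ψ j h (S.φ (bm n) x) ∂μ := by
  rw [← S.integral_comp (sm h)
    (fun x => g x * (∏ i, f i (S.φ (bs i n) x)) * psi S Φ Ψ h (S.φ (bm n) x)),
    ← integral_const_mul]
  refine integral_congr_ae ?_
  filter_upwards [S.eig_iter (hE h) (bm n)] with x hx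
  have h1 : S.φ (-sm h) (S.φ (bm n) (S.φ (sm h) x)) = S.φ (bm n) x := by
    rw [S.comm (bm n) (sm h), S.neg_cancel]
  simp only [psi, h1, hx, AA]
  ring

lemma AA_cb (hm : T_CB_mul) (he : T_CB_e) (S : Sys X μ) {m : ℕ} (bs : Fin m → ℕ → ℤ)
    (bm : ℕ → ℤ) {w : ℕ → ℂ} (hw : ∀ n, ‖w n‖ = 1)
    (g : X → ℂ) (f : Fin m → X → ℂ) {r : ℕ} (hr : 1 ≤ r) (Φ : (Fin r → ℕ) → X → ℂ)
    (α : (Fin r → ℕ) → ℝ) (n : ℕ) (h h' : Fin r → ℕ) (x : X) :
    cb r (fun t => AA S bs bm w g f Φ α n t x) h h' =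
      (e (acb r (fun t => α t * bm n) h h') * ∏ i, cubeF S r (f i) h h' (S.φ (bs i n) x)) *
      (cubeF S r g h h' x * cb r (fun t => Φ t x) h h') := by
  unfold AA
  rw [hm, cb_const hr (by rw [RCLike.norm_conj, hw]), one_mul, hm, he, hm, hm, cb_prod hm]
  have h1 : ∀ i, cb r (fun t => f i (S.φ (bs i n) (S.φ (sm t) x))) h h' =
      cubeF S r (f i) h h' (S.φ (bs i n) x) := by
    intro i
    unfold cubeF
    congr 1
    ext t
    rw [S.comm]
  rw [Finset.prod_congr rfl fun i _ => h1 i]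
  unfold cubeF
  ring

lemma acb_mul_const (r : ℕ) : ∀ (a : (Fin r → ℕ) → ℝ) (c : ℝ) (h h' : Fin r → ℕ),
    acb r (fun t => a t * c) h h' = acb r a h h' * c := by
  induction r with
  | zero => intro a c h h'; simp [acb]
  | succ r ih =>
    intro a c h h'
    simp only [acb]
    rw [← ih]
    congr 1
    ext t
    ring

lemma avs_cb (hm : T_CB_mul) (he : T_CB_e) [IsProbabilityMeasure μ] (S : Sys X μ) {m : ℕ}
    (bs : Fin m → ℕ → ℤ) (bm : ℕ → ℤ) {w : ℕ → ℂ} (hw : ∀ n, ‖w n‖ = 1)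
    {g : X → ℂ} {f : Fin m → X → ℂ} {r : ℕ} (hr : 1 ≤ r) {Φ : (Fin r → ℕ) → X → ℂ}
    {α : (Fin r → ℕ) → ℝ} (hg : B1 g) (hf : ∀ i, B1 (f i)) (hΦ : ∀ h, B1 (Φ h))
    (N : ℕ) (h h' : Fin r → ℕ) :
    avs N (fun n => ∫ x, cb r (fun t => AA S bs bm w g f Φ α n t x) h h' ∂μ) =
      ∫ x, mav S bs (fun n => 1 * e (acb r α h h' * bm n)) (fun i => cubeF S r (f i) h h') N x *
      (cubeF S r g h h' x * cb r (fun t => Φ t x) h h') ∂μ := by
  rw [avs_integral N fun n => cb_B1 r _ h h' fun t => AA_B1 S hw hg hf hΦ n t]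
  congr 1
  ext x
  unfold mav
  rw [av_apply, ← avs_mul_right]
  refine avs_congr fun n _ => ?_
  rw [AA_cb hm he S bs bm hw g f hr Φ α n h h' x, acb_mul_const]
  simp only [one_mul]

lemma mav_B1 (S : Sys X μ) {m : ℕ} (bs : Fin m → ℕ → ℤ) {w : ℕ → ℂ} (hw : ∀ n, ‖w n‖ ≤ 1)
    {g : Fin m → X → ℂ} (hg : ∀ i, B1 (g i)) (N : ℕ) : B1 (mav S bs w g N) :=
  B1.av' fun n => B1.const_mul' (B1.prod' Finset.univ fun i _ => (hg i).sh S _) (hw n)

end Pool.Agent.SqF.DL1

namespace Pool.Agent.SqF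

open DL1

theorem dl1 (hBOX : T_BOX) (hm : T_CB_mul) (he : T_CB_e) : T_DL1 := by
  intro X _ μ _ S m bs bm w hw hA3 r hr c hc
  set T : ℕ := 2 ^ r with hT
  have hT0 : T ≠ 0 := by positivity
  have hcT : 0 < c ^ T / 2 := by positivity
  obtain ⟨Λ, hΛ⟩ := hA3 ((c ^ T / 2) ^ 2) (by positivity)
  refine ⟨Λ, c ^ T / 2, hcT, ?_⟩
  intro 𝒰 h𝒰 F hF H hH Φ α Ψ hΦ hE hΨ hΨi hcI
  obtain ⟨-, A, _, p, g, f, hp, hp1, hg, hf, hlim⟩ := hF
  classical
  set B : ℝ := boxE H (fun h => boxE H fun h' =>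
    (∫ x, ‖cb r (fun t => Φ t x) h h'‖ ∂μ) *
      (if ∃ q ∈ Λ, ∃ z : ℤ, acb r α h h' = q + z then (1 : ℝ) else 0)) with hB
  have hgoal : c ^ T / 2 ≤ B → c ^ T / 2 ≤ boxE H (fun h => boxE H fun h' =>
    (∫ x, ‖cb r (fun t => Φ t x) h h'‖ ∂μ) *
      (open Classical in if ∃ q ∈ Λ, ∃ z : ℤ, acb r α h h' = q + z then (1 : ℝ) else 0)) := by
    intro h
    exact h
  apply hgoal
  -- the sequence converging to the integral
  set SS : ℕ → ℂ := fun N => boxE H (fun h => ∑ a, (p a : ℂ) * avs N fun n => conj (w n) *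
        ∫ x, g N a x * (∏ i, f a i (S.φ (bs i n) x)) * psi S Φ Ψ h (S.φ (bm n) x) ∂μ) with hSS
  have hlim1 : Tendsto SS (𝒰 : Filter ℕ)
      (𝓝 (boxE H fun h => ∫ x, F x * psi S Φ Ψ h x ∂μ)) :=
    tendsto_boxE H fun h => hlim _ (psi_B1 S hΦ hΨ h)
  have hI : c ≤ ‖boxE H fun h => ∫ x, F x * psi S Φ Ψ h x ∂μ‖ := by
    refine hcI.trans_eq ?_
    congr 1
    exact boxE_congr fun h _ => int_psi S Φ Ψ F h
  -- bad pairs
  have hbad : ∀ᶠ N in (𝒰 : Filter ℕ), ∀ a : A, ∀ h ∈ box H, ∀ h' ∈ box H,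
      (¬ ∃ q ∈ Λ, ∃ z : ℤ, acb r α h h' = q + z) →
      Q μ (mav S bs (fun n => 1 * e (acb r α h h' * bm n))
        (fun i => cubeF S r (f a i) h h') N) ≤ (c ^ T / 2) ^ 2 := by
    refine h𝒰 (eventually_all.mpr fun a => (Filter.eventually_all_finset _).mpr fun h _ =>
      (Filter.eventually_all_finset _).mpr fun h' _ => ?_)
    by_cases hq : ∃ q ∈ Λ, ∃ z : ℤ, acb r α h h' = q + z
    · exact Eventually.of_forall fun N h0 => absurd hq h0
    · have h0 : ∀ q ∈ Λ, ∀ z : ℤ, acb r α h h' ≠ q + z := by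
        intro q hq' z hz
        exact hq ⟨q, hq', z, hz⟩
      filter_upwards [hΛ _ h0 (fun i => cubeF S r (f a i) h h')
        fun i => cubeF_B1 S r (hf a i) h h'] with N hN _
      exact hN
  -- the main bound
  have hmain : ∀ᶠ N in (𝒰 : Filter ℕ), ‖SS N‖ ^ T ≤ c ^ T / 2 + B := by
    filter_upwards [hbad] with N hN
    -- rewrite the sum
    set z : A → ℕ → ℂ := fun a n => boxE H fun h =>
      ∫ x, AA S bs bm w (g N a) (f a) Φ α n h x * ∏ j, Ψ j h (S.φ (bm n) x) ∂μ with hz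
    have e1 : SS N = ∑ a, (p a : ℂ) * avs N (z a) := by
      rw [hSS]
      simp only
      rw [boxE_sum]
      refine Finset.sum_congr rfl fun a _ => ?_
      rw [boxE_mul_left]
      congr 1
      rw [hz]
      simp only
      unfold avs boxE
      rw [← Finset.smul_sum, Finset.sum_comm, ← Finset.mul_sum, mul_smul_comm]
      congr 2
      refine Finset.sum_congr rfl fun h _ => Finset.sum_congr rfl fun n _ => ?_
      exact int_AA S bs bm w (g N a) (f a) Φ α Ψ hE n h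
    have e2 : ‖SS N‖ ≤ ∑ q ∈ (Finset.univ : Finset A) ×ˢ W N,
        (p q.1 * (L N : ℝ)⁻¹) * ‖z q.1 q.2‖ := by
      rw [e1, Finset.sum_product]
      refine (norm_sum_le _ _).trans (Finset.sum_le_sum fun a _ => ?_)
      unfold avs
      rw [norm_mul, norm_mul, Complex.norm_real, Real.norm_of_nonneg (hp a), norm_inv,
        Complex.norm_natCast, ← mul_assoc]
      simp only
      rw [← Finset.mul_sum]
      have h2 : 0 ≤ p a * (L N : ℝ)⁻¹ := mul_nonneg (hp a) (by positivity)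
      exact mul_le_mul_of_nonneg_left (norm_sum_le _ _) h2
    have e3 : ‖SS N‖ ^ T ≤ ∑ q ∈ (Finset.univ : Finset A) ×ˢ W N,
        (p q.1 * (L N : ℝ)⁻¹) * ‖z q.1 q.2‖ ^ T := by
      refine (pow_le_pow_left₀ (norm_nonneg _) e2 T).trans ?_
      refine jensen _ _ _ (fun q _ => mul_nonneg (hp _) (by positivity)) ?_
        (fun q _ => norm_nonneg _) T hT0
      rw [Finset.sum_product]
      simp only [Finset.sum_const, card_W, nsmul_eq_mul]
      refine le_trans (le_of_eq ?_) hp1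
      refine Finset.sum_congr rfl fun a _ => ?_
      have := (L_pos' N).ne'
      field_simp
    refine e3.trans ?_
    rw [Finset.sum_product]
    simp only
    -- bound for every a
    have e4 : ∀ a : A, ∑ n ∈ W N, (p a * (L N : ℝ)⁻¹) * ‖z a n‖ ^ T ≤
        p a * (c ^ T / 2 + B) := by
      intro a
      rw [← Finset.mul_sum, mul_assoc]
      refine mul_le_mul_of_nonneg_left ?_ (hp a)
      -- box inequality
      have e5 : ∀ n, ‖z a n‖ ^ T ≤ (boxE H fun h => boxE H fun h' =>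
          ∫ x, cb r (fun t => AA S bs bm w (g N a) (f a) Φ α n t x) h h' ∂μ).re := by
        intro n
        exact hBOX X μ r H hr hH (fun h => AA S bs bm w (g N a) (f a) Φ α n h)
          (fun j h x => Ψ j h (S.φ (bm n) x))
          (fun h => AA_B1 S hw (hg N a) (hf a) hΦ n h) (fun j h => (hΨ j h).sh S _)
          (fun j h t => by ext x; simp only [hΨi j h t])
      have e6 : (L N : ℝ)⁻¹ * ∑ n ∈ W N, ‖z a n‖ ^ T ≤
          (boxE H fun h => boxE H fun h' => avs N fun n =>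
            ∫ x, cb r (fun t => AA S bs bm w (g N a) (f a) Φ α n t x) h h' ∂μ).re := by
        have e7 : (boxE H fun h => boxE H fun h' => avs N fun n =>
            ∫ x, cb r (fun t => AA S bs bm w (g N a) (f a) Φ α n t x) h h' ∂μ) =
            avs N fun n => boxE H fun h => boxE H fun h' =>
            ∫ x, cb r (fun t => AA S bs bm w (g N a) (f a) Φ α n t x) h h' ∂μ := by
          unfold avs
          have e8 : ∀ h : Fin r → ℕ, (boxE H fun h' => (L N : ℂ)⁻¹ * ∑ n ∈ W N,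
              ∫ x, cb r (fun t => AA S bs bm w (g N a) (f a) Φ α n t x) h h' ∂μ) =
              (L N : ℂ)⁻¹ * ∑ n ∈ W N, boxE H fun h' =>
              ∫ x, cb r (fun t => AA S bs bm w (g N a) (f a) Φ α n t x) h h' ∂μ := by
            intro h
            rw [boxE_mul_left, boxE_sum]
          simp only [e8]
          rw [boxE_mul_left, boxE_sum]
        rw [e7]
        unfold avs
        rw [← Complex.ofReal_natCast, ← Complex.ofReal_inv, Complex.re_ofReal_mul,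
          Complex.re_sum]
        exact mul_le_mul_of_nonneg_left (Finset.sum_le_sum fun n _ => e5 n) (by positivity)
      refine e6.trans ((Complex.re_le_norm _).trans ?_)
      refine (norm_boxE_le H _).trans ?_
      have e9 : c ^ T / 2 + B = boxE H (fun h => boxE H fun h' => c ^ T / 2 +
          (∫ x, ‖cb r (fun t => Φ t x) h h'‖ ∂μ) *
            (if ∃ q ∈ Λ, ∃ z : ℤ, acb r α h h' = q + z then (1 : ℝ) else 0)) := by
        have e10 : ∀ h : Fin r → ℕ, (boxE H fun h' => c ^ T / 2 +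
          (∫ x, ‖cb r (fun t => Φ t x) h h'‖ ∂μ) *
            (if ∃ q ∈ Λ, ∃ z : ℤ, acb r α h h' = q + z then (1 : ℝ) else 0)) =
          c ^ T / 2 + boxE H fun h' => (∫ x, ‖cb r (fun t => Φ t x) h h'‖ ∂μ) *
            (if ∃ q ∈ Λ, ∃ z : ℤ, acb r α h h' = q + z then (1 : ℝ) else 0) := by
          intro h
          rw [boxE_add, boxE_const hH]
        simp only [e10]
        rw [boxE_add, boxE_const hH]
      rw [e9]
      refine boxE_mono fun h hh => (norm_boxE_le H _).trans (boxE_mono fun h' hh' => ?_)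
      rw [avs_cb hm he S bs bm hw hr (hg N a) (hf a) hΦ N h h']
      have hmB : B1 (mav S bs (fun n => 1 * e (acb r α h h' * bm n))
          (fun i => cubeF S r (f a i) h h') N) :=
        mav_B1 S bs (fun n => by rw [one_mul]; exact (norm_e _).le)
          (fun i => cubeF_B1 S r (hf a i) h h') N
      have hcB : B1 (fun x => cb r (fun t => Φ t x) h h') := cb_B1 r Φ h h' hΦ
      have hgB : B1 (cubeF S r (g N a) h h') := cubeF_B1 S r (hg N a) h h'
      by_cases hq : ∃ q ∈ Λ, ∃ z : ℤ, acb r α h h' = q + z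
      · rw [if_pos hq, mul_one]
        have h1 : ‖∫ x, mav S bs (fun n => 1 * e (acb r α h h' * bm n))
            (fun i => cubeF S r (f a i) h h') N x *
            (cubeF S r (g N a) h h' x * cb r (fun t => Φ t x) h h') ∂μ‖ ≤
            ∫ x, ‖cb r (fun t => Φ t x) h h'‖ ∂μ := by
          refine norm_integral_le_of_norm_le hcB.integrable.norm (Eventually.of_forall fun x => ?_)
          rw [norm_mul, norm_mul]
          calc _ ≤ 1 * (1 * ‖cb r (fun t => Φ t x) h h'‖) := by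
                have := hmB.le x
                have := hgB.le x
                gcongr
            _ = _ := by ring
        linarith
      · rw [if_neg hq, mul_zero, add_zero]
        refine (norm_integral_mul_le hmB.bd fun x => (hgB.mul' hcB).le x).trans ?_
        rw [Real.sqrt_le_left hcT.le]
        exact hN a h hh h' hh' hq
    refine (Finset.sum_le_sum fun a _ => e4 a).trans ?_
    rw [← Finset.sum_mul]
    have hB0 : 0 ≤ B := by
      rw [hB]
      refine boxE_nonneg fun h _ => boxE_nonneg fun h' _ => mul_nonneg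
        (integral_nonneg fun x => norm_nonneg _) ?_
      split_ifs <;> norm_num
    exact mul_le_of_le_one_left (by positivity) hp1
  have hfin : ‖boxE H fun h => ∫ x, F x * psi S Φ Ψ h x ∂μ‖ ^ T ≤ c ^ T / 2 + B :=
    le_of_tendsto (hlim1.norm.pow T) hmain
  have := pow_le_pow_left₀ hc.le hI T
  linarith

end Pool.Agent.SqF
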