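import Pool.Agent.SqF.Targets
import Pool.Agent.SqF.Basic

/-!
# MP_0b2319_an, part DRAT: dual functions are measurable w.r.t. the rational Kronecker factor
-/

set_option autoImplicit false

open MeasureTheory Filter Topology
open scoped ComplexConjugate

namespace Pool.Agent.SqF

namespace DRAT

variable {X : Type} [MeasurableSpace X] {μ : Measure X}

lemma integral_avs {N : ℕ} {v : ℕ → X → ℂ} (hv : ∀ n, Integrable (v n) μ) :
    ∫ x, avs N (fun n => v n x) ∂μ = avs N (fun n => ∫ x, v n x ∂μ) := by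
  unfold avs
  rw [integral_const_mul, integral_finsetSum _ fun n _ => hv n]

lemma B1.mav1 {m : ℕ} (S : Sys X μ) (bs : Fin m → ℕ → ℤ) (bm : ℕ → ℤ) {w : ℕ → ℂ}
    (hw : ∀ n, ‖w n‖ ≤ 1) {g : Fin m → X → ℂ} (hg : ∀ i, B1 (g i)) {f : X → ℂ} (hf : B1 f)
    (N : ℕ) : B1 (mav1 S bs bm w g f N) := by
  apply B1.av'
  intro n
  exact ((B1.const (hw n)).mul' (B1.prod' _ fun i _ => (hg i).sh S _)).mul' (hf.sh S _)

lemma B1.mav {m : ℕ} (S : Sys X μ) (bs : Fin m → ℕ → ℤ) {w : ℕ → ℂ}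
    (hw : ∀ n, ‖w n‖ ≤ 1) {g : Fin m → X → ℂ} (hg : ∀ i, B1 (g i))
    (N : ℕ) : B1 (mav S bs w g N) := by
  apply B1.av'
  intro n
  exact (B1.const (hw n)).mul' (B1.prod' _ fun i _ => (hg i).sh S _)

/-- rewriting one term of the dual function -/
lemma term_eq [IsProbabilityMeasure μ] {m : ℕ} (S : Sys X μ) (bs : Fin m → ℕ → ℤ) (bm : ℕ → ℤ)
    {w : ℕ → ℂ} (hw : ∀ n, ‖w n‖ ≤ 1) {g : X → ℂ} (hg : B1 g) {f : Fin m → X → ℂ}
    (hf : ∀ i, B1 (f i)) {ψ : X → ℂ} (hψ : B1 ψ) (N : ℕ) :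
    (avs N fun n => conj (w n) *
        ∫ x, g x * (∏ i, f i (S.φ (bs i n) x)) * ψ (S.φ (bm n) x) ∂μ) =
      ∫ x, conj (mav1 S bs bm w (fun i x => conj (f i x)) (fun x => conj (ψ x)) N x) * g x ∂μ := by
  have h1 : ∀ x, conj (mav1 S bs bm w (fun i x => conj (f i x)) (fun x => conj (ψ x)) N x) * g x =
      avs N (fun n => conj (w n) *
        (g x * (∏ i, f i (S.φ (bs i n) x)) * ψ (S.φ (bm n) x))) := by
    intro x
    unfold mav1
    rw [av_apply, ← avs_conj, ← avs_mul_right]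
    congr 1
    ext n
    rw [map_mul, map_mul, map_prod, Complex.conj_conj]
    simp only [Complex.conj_conj]
    ring
  rw [integral_congr_ae (Eventually.of_forall h1), integral_avs]
  · congr 1
    ext n
    rw [integral_const_mul]
  · intro n
    exact (((hg.mul' (B1.prod' _ fun i _ => (hf i).sh S _)).mul' (hψ.sh S _)).integrable).const_mul _

lemma dual_bound [IsProbabilityMeasure μ] {m : ℕ} (S : Sys X μ) (bs : Fin m → ℕ → ℤ) (bm : ℕ → ℤ)
    {w : ℕ → ℂ} (hw : ∀ n, ‖w n‖ ≤ 1) {𝒰 : Ultrafilter ℕ} (hU : (𝒰 : Filter ℕ) ≤ atTop)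
    {F : X → ℂ} (hF : IsDual S bs bm w 𝒰 F) {ψ : X → ℂ} (hψ : B1 ψ) {c : ℝ}
    (h : ∀ f : Fin m → X → ℂ, (∀ i, B1 (f i)) →
      ∀ᶠ N in atTop, Q μ (mav1 S bs bm w f (fun x => conj (ψ x)) N) ≤ c) :
    ‖∫ x, F x * ψ x ∂μ‖ ≤ Real.sqrt c := by
  obtain ⟨-, A, hA, p, g, f, hp, hp1, hg, hf, hlim⟩ := hF
  have hev : ∀ᶠ N in atTop, ∀ a : A,
      Q μ (mav1 S bs bm w (fun i x => conj (f a i x)) (fun x => conj (ψ x)) N) ≤ c := by
    rw [eventually_all]
    intro a
    exact h _ fun i => (hf a i).conj'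
  refine le_of_tendsto (hlim ψ hψ).norm ?_
  filter_upwards [hU hev] with N hN
  calc ‖∑ a, (p a : ℂ) * avs N fun n => conj (w n) *
        ∫ x, g N a x * (∏ i, f a i (S.φ (bs i n) x)) * ψ (S.φ (bm n) x) ∂μ‖
      ≤ ∑ a, p a * Real.sqrt c := by
        refine (norm_sum_le _ _).trans (Finset.sum_le_sum fun a _ => ?_)
        rw [norm_mul, Complex.norm_real, Real.norm_eq_abs, abs_of_nonneg (hp a)]
        refine mul_le_mul_of_nonneg_left ?_ (hp a)
        rw [term_eq S bs bm hw (hg N a) (hf a) hψ N]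
        have hm := B1.mav1 S bs bm hw (fun i => (hf a i).conj') hψ.conj' N
        refine (norm_integral_mul_le hm.conj'.bd (hg N a).le).trans ?_
        apply Real.sqrt_le_sqrt
        have : Q μ (fun x => conj (mav1 S bs bm w (fun i x => conj (f a i x))
            (fun x => conj (ψ x)) N x)) =
            Q μ (mav1 S bs bm w (fun i x => conj (f a i x)) (fun x => conj (ψ x)) N) := by
          unfold Q
          congr 1
          ext x
          rw [Complex.norm_conj]
        rw [this]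
        exact hN a
    _ = (∑ a, p a) * Real.sqrt c := by rw [Finset.sum_mul]
    _ ≤ 1 * Real.sqrt c := mul_le_mul_of_nonneg_right hp1 (Real.sqrt_nonneg _)
    _ = Real.sqrt c := one_mul _

/-- (i) eigenvalues are in a finite set -/
lemma eig_finite [IsProbabilityMeasure μ] (hU2 : T_U2) {m : ℕ} (S : Sys X μ)
    (hE : Ergodic (S.φ 1) μ) (bs : Fin m → ℕ → ℤ)
    (bm : ℕ → ℤ) {w : ℕ → ℂ} (hw : ∀ n, ‖w n‖ ≤ 1) (hA3 : A3 S bs bm w) {δ : ℝ} (hδ : 0 < δ) :
    ∃ Λ : Finset ℚ, ∀ 𝒰 : Ultrafilter ℕ, (𝒰 : Filter ℕ) ≤ atTop → ∀ F : X → ℂ,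
      IsDual S bs bm w 𝒰 F → δ ≤ V S 1 F → ∃ (χ : X → ℂ) (α : ℝ), Eig S χ α ∧
        0 < ‖∫ x, F x * conj (χ x) ∂μ‖ ∧ ∃ q ∈ Λ, ∃ z : ℤ, α = q + z := by
  obtain ⟨Λ, hΛ⟩ := hA3 (δ / 16) (by positivity)
  refine ⟨Λ, fun 𝒰 hU F hF hV => ?_⟩
  obtain ⟨χ, α, hχ, hint⟩ := hU2 X μ S hE F hF.1 δ hδ hV
  refine ⟨χ, α, hχ, ?_, ?_⟩
  · by_contra h0
    have : ‖∫ x, F x * conj (χ x) ∂μ‖ = 0 := le_antisymm (not_lt.1 h0) (norm_nonneg _)
    rw [this] at hint
    norm_num at hint
    linarith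
  · by_contra hα
    push Not at hα
    have hχ1 : B1 χ := ⟨hχ.meas, fun x => (hχ.nm x).le⟩
    have key : ‖∫ x, F x * conj (χ x) ∂μ‖ ≤ Real.sqrt (δ / 16) := by
      apply dual_bound S bs bm hw hU hF hχ1.conj'
      intro f hf
      filter_upwards [hΛ α hα f hf] with N hN
      have hae : ∀ᵐ x ∂μ, mav1 S bs bm w f (fun x => conj (conj (χ x))) N x =
          χ x * mav S bs (fun n => w n * e (α * bm n)) f N x := by
        have hall : ∀ᵐ x ∂μ, ∀ n : ℕ, χ (S.φ (bm n) x) = e (α * bm n) * χ x :=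
          ae_all_iff.2 fun n => S.eig_iter hχ.eig (bm n)
        filter_upwards [hall] with x hx
        unfold mav1 mav
        rw [av_apply, av_apply, ← avs_mul_left]
        congr 1
        ext n
        simp only [Complex.conj_conj]
        rw [hx n]
        ring
      rw [Q_congr hae]
      have hw' : ∀ n, ‖w n * e (α * bm n)‖ ≤ 1 := fun n => by
        rw [norm_mul, norm_e, mul_one]; exact hw n
      exact (Q_mul_le (B1.mav S bs hw' hf N).bd fun x => (hχ.nm x).le).trans hN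
    have h2 : ‖∫ x, F x * conj (χ x) ∂μ‖ ^ 2 ≤ δ / 16 := by
      calc ‖∫ x, F x * conj (χ x) ∂μ‖ ^ 2 ≤ Real.sqrt (δ / 16) ^ 2 :=
            pow_le_pow_left₀ (norm_nonneg _) key 2
        _ = δ / 16 := Real.sq_sqrt (by positivity)
    linarith

/-- (ii) combinations of shifts of dual functions are dual -/
lemma dual_comb [IsProbabilityMeasure μ] {m : ℕ} (S : Sys X μ) (bs : Fin m → ℕ → ℤ) (bm : ℕ → ℤ)
    {w : ℕ → ℂ} (hw : ∀ n, ‖w n‖ ≤ 1) {𝒰 : Ultrafilter ℕ}
    {F : X → ℂ} (hF : IsDual S bs bm w 𝒰 F) {K : Type} [Fintype K] (q : K → ℝ) (ε : K → ℂ)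
    (s : K → ℤ) (hq : ∀ k, 0 ≤ q k) (hq1 : ∑ k, q k ≤ 1) (hε : ∀ k, ‖ε k‖ ≤ 1) :
    IsDual S bs bm w 𝒰 (fun x => ∑ k, (q k : ℂ) * (ε k * F (S.φ (s k) x))) := by
  obtain ⟨hFB, A, hA, p, g, f, hp, hp1, hg, hf, hlim⟩ := hF
  refine ⟨⟨?_, ?_⟩, A × K, inferInstance, fun a => p a.1 * q a.2,
    fun N a x => ε a.2 * g N a.1 (S.φ (s a.2) x), fun a i x => f a.1 i (S.φ (s a.2) x), ?_, ?_,
    ?_, ?_, ?_⟩
  · exact Finset.measurable_sum _ fun k _ =>
      (((hFB.sh S (s k)).meas.const_mul (ε k)).const_mul _)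
  · intro x
    calc ‖∑ k, (q k : ℂ) * (ε k * F (S.φ (s k) x))‖ ≤ ∑ k, q k := by
          refine (norm_sum_le _ _).trans (Finset.sum_le_sum fun k _ => ?_)
          rw [norm_mul, norm_mul, Complex.norm_real, Real.norm_eq_abs, abs_of_nonneg (hq k)]
          have : ‖ε k‖ * ‖F (S.φ (s k) x)‖ ≤ 1 :=
            mul_le_one₀ (hε k) (norm_nonneg _) (hFB.le _)
          nlinarith [hq k]
      _ ≤ 1 := hq1
  · exact fun a => mul_nonneg (hp _) (hq _)
  · rw [Fintype.sum_prod_type]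
    calc ∑ a, ∑ k, p a * q k = (∑ a, p a) * ∑ k, q k := by rw [Finset.sum_mul_sum]
      _ ≤ 1 * 1 := mul_le_mul hp1 hq1 (Finset.sum_nonneg fun k _ => hq k) zero_le_one
      _ = 1 := one_mul 1
  · exact fun N a => ((hg N a.1).sh S _).const_mul' (hε _)
  · exact fun a i => (hf a.1 i).sh S _
  · intro ψ hψ
    have h1 : ∫ x, (∑ k, (q k : ℂ) * (ε k * F (S.φ (s k) x))) * ψ x ∂μ =
        ∑ k, (q k : ℂ) * (ε k * ∫ x, F x * ψ (S.φ (-s k) x) ∂μ) := by
      have e1 : ∀ x, (∑ k, (q k : ℂ) * (ε k * F (S.φ (s k) x))) * ψ x =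
          ∑ k, ((q k : ℂ) * ε k) * (F (S.φ (s k) x) * ψ x) := by
        intro x
        rw [Finset.sum_mul]
        exact Finset.sum_congr rfl fun k _ => by ring
      rw [integral_congr_ae (Eventually.of_forall e1), integral_finsetSum]
      · refine Finset.sum_congr rfl fun k _ => ?_
        rw [integral_const_mul, mul_assoc]
        congr 2
        rw [← S.integral_comp (s k) (fun x => F x * ψ (S.φ (-s k) x))]
        congr 1
        ext x
        rw [S.neg_cancel]
      · intro k _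
        exact (((hFB.sh S (s k)).mul' hψ).integrable).const_mul _
    rw [h1]
    have h2 : ∀ N, ∑ a : A × K, ((p a.1 * q a.2 : ℝ) : ℂ) * avs N (fun n => conj (w n) *
        ∫ x, ε a.2 * g N a.1 (S.φ (s a.2) x) *
          (∏ i, f a.1 i (S.φ (s a.2) (S.φ (bs i n) x))) * ψ (S.φ (bm n) x) ∂μ) =
        ∑ k, (q k : ℂ) * (ε k * ∑ a, (p a : ℂ) * avs N (fun n => conj (w n) *
          ∫ x, g N a x * (∏ i, f a i (S.φ (bs i n) x)) * ψ (S.φ (-s k) (S.φ (bm n) x)) ∂μ)) := by
      intro N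
      rw [Fintype.sum_prod_type, Finset.sum_comm]
      refine Finset.sum_congr rfl fun k _ => ?_
      rw [Finset.mul_sum, Finset.mul_sum]
      refine Finset.sum_congr rfl fun a _ => ?_
      have h3 : (avs N fun n => conj (w n) *
          ∫ x, ε k * g N a (S.φ (s k) x) * (∏ i, f a i (S.φ (s k) (S.φ (bs i n) x))) *
            ψ (S.φ (bm n) x) ∂μ) = ε k * avs N (fun n => conj (w n) *
          ∫ x, g N a x * (∏ i, f a i (S.φ (bs i n) x)) * ψ (S.φ (-s k) (S.φ (bm n) x)) ∂μ) := by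
        rw [← avs_mul_left]
        congr 1
        ext n
        rw [← S.integral_comp (s k) (fun x => g N a x * (∏ i, f a i (S.φ (bs i n) x)) *
          ψ (S.φ (-s k) (S.φ (bm n) x)))]
        have h4 : ∀ x, ε k * g N a (S.φ (s k) x) * (∏ i, f a i (S.φ (s k) (S.φ (bs i n) x))) *
            ψ (S.φ (bm n) x) = ε k * (g N a (S.φ (s k) x) *
            (∏ i, f a i (S.φ (bs i n) (S.φ (s k) x))) *
            ψ (S.φ (-s k) (S.φ (bm n) (S.φ (s k) x)))) := by
          intro x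
          have h5 : S.φ (-s k) (S.φ (bm n) (S.φ (s k) x)) = S.φ (bm n) x := by
            rw [S.comm (bm n) (s k), S.neg_cancel]
          rw [h5]
          have h6 : ∀ i, S.φ (bs i n) (S.φ (s k) x) = S.φ (s k) (S.φ (bs i n) x) :=
            fun i => S.comm _ _ _
          simp only [h6]
          ring
        rw [integral_congr_ae (Eventually.of_forall h4), integral_const_mul]
        ring
      dsimp only
      rw [h3]
      push_cast
      ring
    simp only [h2]
    refine tendsto_finsetSum _ fun k _ => ?_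
    exact ((hlim (fun x => ψ (S.φ (-s k) x)) (hψ.sh S _)).const_mul _).const_mul _

/-- the difference of a function and its average over multiples of `l!` -/
noncomputable def FM (S : Sys X μ) (F : X → ℂ) (l M : ℕ) : X → ℂ := fun x =>
  (1 / 2 : ℂ) * (F x - (M : ℂ)⁻¹ * ∑ j ∈ Finset.range M, F (S.φ ((l.factorial : ℤ) * j) x))

lemma dual_FM [IsProbabilityMeasure μ] {m : ℕ} (S : Sys X μ) (bs : Fin m → ℕ → ℤ) (bm : ℕ → ℤ)
    {w : ℕ → ℂ} (hw : ∀ n, ‖w n‖ ≤ 1) {𝒰 : Ultrafilter ℕ}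
    {F : X → ℂ} (hF : IsDual S bs bm w 𝒰 F) (l M : ℕ) (hM : 0 < M) :
    IsDual S bs bm w 𝒰 (FM S F l M) := by
  have hM' : (M : ℝ) ≠ 0 := by exact_mod_cast hM.ne'
  have h := dual_comb S bs bm hw hF (K := Option (Fin M))
    (fun k => k.elim (1 / 2) fun _ => 1 / 2 * (M : ℝ)⁻¹)
    (fun k => k.elim 1 fun _ => -1)
    (fun k => k.elim 0 fun j => (l.factorial : ℤ) * (j : ℕ)) ?_ ?_ ?_
  · have e : (fun x => ∑ k : Option (Fin M),
        (((k.elim (1 / 2) fun _ => 1 / 2 * (M : ℝ)⁻¹ : ℝ)) : ℂ) *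
        ((k.elim 1 fun _ => -1) * F (S.φ (k.elim 0 fun j => (l.factorial : ℤ) * (j : ℕ)) x))) =
        FM S F l M := by
      ext x
      rw [Fintype.sum_option]
      simp only [Option.elim, S.zero]
      unfold FM
      rw [Finset.sum_range (fun j => F (S.φ ((l.factorial : ℤ) * (j : ℕ)) x)), ← Finset.mul_sum]
      simp only [neg_mul, one_mul, Finset.sum_neg_distrib]
      push_cast
      ring
    rw [e] at h
    exact h
  · intro k
    cases k with
    | none => simp only [Option.elim]; norm_num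
    | some j => simp only [Option.elim]; positivity
  · rw [Fintype.sum_option]
    simp only [Option.elim, Finset.sum_const, Finset.card_univ, Fintype.card_fin, nsmul_eq_mul]
    field_simp
    norm_num
  · intro k
    cases k with
    | none => simp
    | some j => simp

lemma int_FM [IsProbabilityMeasure μ] (S : Sys X μ) {F : X → ℂ} (hF : B1 F) {χ : X → ℂ}
    {α : ℝ} (hχ : Eig S χ α) (l M : ℕ) (hM : 0 < M) {q : ℚ} {z : ℤ} (hα : α = q + z)
    (hl : q.den ≤ l) : ∫ x, FM S F l M x * conj (χ x) ∂μ = 0 := by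
  have hχ1 : B1 χ := ⟨hχ.meas, fun x => (hχ.nm x).le⟩
  have hM' : (M : ℂ) ≠ 0 := by exact_mod_cast hM.ne'
  -- the eigenfunction is invariant under `φ (l! j)`
  have hinv : ∀ j : ℕ, ∀ᵐ x ∂μ, χ (S.φ ((l.factorial : ℤ) * j) x) = χ x := by
    intro j
    filter_upwards [S.eig_iter hχ.eig ((l.factorial : ℤ) * j)] with x hx
    rw [hx]
    have hd : (q.den : ℤ) ∣ (l.factorial : ℤ) := by
      exact_mod_cast Nat.dvd_factorial q.den_pos hl
    obtain ⟨c, hc⟩ := hd
    have : α * (((l.factorial : ℤ) * j : ℤ) : ℝ) =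
        (((q.num * c + z * l.factorial) * j : ℤ) : ℝ) := by
      have h1 : (q : ℝ) * ((l.factorial : ℤ) : ℝ) = ((q.num * c : ℤ) : ℝ) := by
        rw [hc]
        have h2 : (q : ℝ) * (q.den : ℝ) = (q.num : ℝ) := by
          have := Rat.mul_den_eq_num q
          exact_mod_cast congrArg (fun t : ℚ => (t : ℝ)) this
        push_cast
        rw [← mul_assoc, h2]
      rw [hα]
      push_cast at h1 ⊢
      rw [add_mul, ← mul_assoc, h1]
      ring
    rw [this, e_int, one_mul]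
  have hj : ∀ j : ℕ, ∫ x, F (S.φ ((l.factorial : ℤ) * j) x) * conj (χ x) ∂μ =
      ∫ x, F x * conj (χ x) ∂μ := by
    intro j
    rw [← S.integral_comp ((l.factorial : ℤ) * j) (fun x => F x * conj (χ x))]
    apply integral_congr_ae
    filter_upwards [hinv j] with x hx
    rw [hx]
  have e1 : ∀ x, FM S F l M x * conj (χ x) = (1 / 2 : ℂ) * (F x * conj (χ x)) -
      ∑ j ∈ Finset.range M, ((1 / 2 : ℂ) * (M : ℂ)⁻¹) *
        (F (S.φ ((l.factorial : ℤ) * j) x) * conj (χ x)) := by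
    intro x
    unfold FM
    rw [← Finset.mul_sum, ← Finset.sum_mul]
    ring
  have hi : ∀ j : ℕ, Integrable (fun x => F (S.φ ((l.factorial : ℤ) * j) x) * conj (χ x)) μ :=
    fun j => ((hF.sh S _).mul' hχ1.conj').integrable
  rw [integral_congr_ae (Eventually.of_forall e1), integral_sub, integral_const_mul,
    integral_finsetSum]
  · simp only [integral_const_mul, hj]
    rw [Finset.sum_const, Finset.card_range, nsmul_eq_mul]
    field_simp
    ring
  · exact fun j _ => (hi j).const_mul _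
  · exact ((hF.mul' hχ1.conj').integrable).const_mul _
  · exact integrable_finsetSum _ fun j _ => (hi j).const_mul _

lemma norm_int_le_Q [IsProbabilityMeasure μ] {f g : X → ℂ} (hf : Bd f) (hg : Bd g) :
    ∫ x, ‖f x - g x‖ ∂μ ≤ Real.sqrt (Q μ (fun x => f x - g x)) := by
  have hd := hf.sub hg
  -- apply Cauchy-Schwarz with a unimodular sign
  have h := norm_integral_mul_le (μ := μ) (F := fun x => ((‖f x - g x‖ : ℝ) : ℂ))
    (ψ := fun _ => 1) ⟨Complex.measurable_ofReal.comp hd.1.norm, by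
      obtain ⟨C, hC⟩ := hd.2
      exact ⟨C, fun x => by simpa using hC x⟩⟩ (by simp)
  simp only [mul_one] at h
  rw [integral_complex_ofReal, Complex.norm_real, Real.norm_eq_abs] at h
  have h2 : Q μ (fun x => ((‖f x - g x‖ : ℝ) : ℂ)) = Q μ (fun x => f x - g x) := by
    unfold Q
    congr 1
    ext x
    simp
  rw [h2] at h
  exact (le_abs_self _).trans h

/-- (iii): all seminorms are controlled by the first one, uniformly on dual functions -/
lemma down [IsProbabilityMeasure μ] (hDL : T_DL) {m : ℕ} (S : Sys X μ)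
    (hE : Ergodic (S.φ 1) μ) (bs : Fin m → ℕ → ℤ)
    (bm : ℕ → ℤ) {w : ℕ → ℂ} (hw : ∀ n, ‖w n‖ = 1) (hA3 : A3 S bs bm (fun _ => 1)) (s : ℕ) :
    ∀ δ > (0 : ℝ), ∃ ρ > (0 : ℝ), ∀ 𝒰 : Ultrafilter ℕ, (𝒰 : Filter ℕ) ≤ atTop → ∀ F : X → ℂ,
      IsDual S bs bm w 𝒰 F → δ ≤ V S (s + 1) F → ρ ≤ V S 1 F := by
  induction s with
  | zero => exact fun δ hδ => ⟨δ, hδ, fun _ _ _ _ h => h⟩
  | succ s ih =>
    intro δ hδ
    obtain ⟨ρ, hρ, h1⟩ := hDL X μ S hE m bs bm w hw hA3 (s + 1) (by omega) δ hδ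
    obtain ⟨ρ', hρ', h2⟩ := ih ρ hρ
    exact ⟨ρ', hρ', fun 𝒰 hU F hF h => h2 𝒰 hU F hF (h1 𝒰 hU F hF h)⟩

end DRAT

open DRAT

theorem DRAT (hDL : T_DL) (hU2 : T_U2) (hR : T_RAT) (hL : T_V_lip) (hB : T_V_bd) : T_DRAT := by
  intro X _ μ _ S hE m bs bm w hw hA1 hA3 hA3' 𝒰 hU F hF f hf hfo
  have hw1 : ∀ n, ‖w n‖ ≤ 1 := fun n => (hw n).le
  obtain ⟨G, P, hG, hGinv, hGM, hP, hGP, hOrth⟩ := hR X μ S F hF.1
  have hFB := hF.1
  have hFPb : Bd (fun x => F x - P x) := hFB.bd.sub hP.bd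
  -- f' = (F - P)/2
  have hf'B : B1 (fun x => (1 / 2 : ℂ) * (F x - P x)) := by
    refine ⟨(hFB.meas.sub hP.meas).const_mul _, fun x => ?_⟩
    rw [norm_mul]
    have h1 : ‖F x - P x‖ ≤ 1 + 1 := (norm_sub_le _ _).trans (add_le_add (hFB.le x) (hP.le x))
    have h2 : ‖(1 / 2 : ℂ)‖ = 1 / 2 := by norm_num
    rw [h2]
    linarith
  have hGlB : ∀ l, B1 (fun x => (1 / 2 : ℂ) * (F x - G l x)) := by
    intro l
    refine ⟨(hFB.meas.sub (hG l).meas).const_mul _, fun x => ?_⟩
    rw [norm_mul]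
    have h1 : ‖F x - G l x‖ ≤ 1 + 1 := (norm_sub_le _ _).trans (add_le_add (hFB.le x) ((hG l).le x))
    have h2 : ‖(1 / 2 : ℂ)‖ = 1 / 2 := by norm_num
    rw [h2]
    linarith
  have hTU : TU S (fun x => (1 / 2 : ℂ) * (F x - P x)) := by
    intro s
    cases s with
    | zero =>
      have h0 : ∫ x, (F x - P x) ∂μ = 0 := by
        have := hOrth 1 one_pos (fun _ => 1) B1.one (Eventually.of_forall fun _ => rfl)
        simpa using this
      show ‖∫ x, (1 / 2 : ℂ) * (F x - P x) ∂μ‖ ^ 2 = 0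
      rw [integral_const_mul, h0]
      simp
    | succ s =>
      refine le_antisymm ?_ (hB X μ S (s + 1) _ hf'B).1
      refine le_of_forall_pos_le_add fun δ hδ => ?_
      rw [zero_add]
      obtain ⟨ρ, hρ, hdown⟩ := down hDL S hE bs bm hw hA3' s δ hδ
      obtain ⟨Λ, hΛ⟩ := eig_finite hU2 S hE bs bm hw1 hA3 hρ
      obtain ⟨l0, hl0⟩ : ∃ l0 : ℕ, ∀ q ∈ Λ, q.den ≤ l0 :=
        ⟨Λ.sup fun q => q.den, fun q hq => Finset.le_sup (f := fun q : ℚ => q.den) hq⟩
      have hFMV : ∀ l ≥ l0, ∀ M > 0, V S (s + 1) (FM S F l M) ≤ δ := by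
        intro l hl M hM
        by_contra hcon
        have hd := dual_FM S bs bm hw1 hF l M hM
        have h1 := hdown 𝒰 hU _ hd (not_le.1 hcon).le
        obtain ⟨χ, α, hχ, hpos, q, hq, z, hα⟩ := hΛ 𝒰 hU _ hd h1
        rw [int_FM S hFB hχ l M hM hα ((hl0 q hq).trans hl)] at hpos
        simp at hpos
      -- limit in M
      have hGV : ∀ l ≥ l0, V S (s + 1) (fun x => (1 / 2 : ℂ) * (F x - G l x)) ≤ δ := by
        intro l hl
        have hlim : Tendsto (fun M : ℕ => δ + 2 ^ (s + 1 + 1) *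
            Real.sqrt ((1 / 2) ^ 2 * Q μ (fun x => (M : ℂ)⁻¹ *
              ∑ j ∈ Finset.range M, F (S.φ ((l.factorial : ℤ) * j) x) - G l x))) atTop
            (𝓝 (δ + 2 ^ (s + 1 + 1) * Real.sqrt ((1 / 2) ^ 2 * 0))) :=
          (((Real.continuous_sqrt.tendsto _).comp ((hGM l).const_mul _)).const_mul _).const_add _
        simp only [mul_zero, Real.sqrt_zero, add_zero] at hlim
        refine ge_of_tendsto hlim ?_
        filter_upwards [eventually_gt_atTop 0] with M hM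
        have hd := (dual_FM S bs bm hw1 hF l M hM).1
        have h1 := hL X μ S (s + 1) (fun x => (1 / 2 : ℂ) * (F x - G l x)) (FM S F l M) (hGlB l) hd
        have h2 := norm_int_le_Q (μ := μ) (hGlB l).bd hd.bd
        have h3 : Q μ (fun x => (1 / 2 : ℂ) * (F x - G l x) - FM S F l M x) =
            (1 / 2) ^ 2 * Q μ (fun x => (M : ℂ)⁻¹ *
              ∑ j ∈ Finset.range M, F (S.φ ((l.factorial : ℤ) * j) x) - G l x) := by
          have e1 : (fun x => (1 / 2 : ℂ) * (F x - G l x) - FM S F l M x) =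
              fun x => (1 / 2 : ℂ) * ((M : ℂ)⁻¹ *
              ∑ j ∈ Finset.range M, F (S.φ ((l.factorial : ℤ) * j) x) - G l x) := by
            ext x
            unfold FM
            ring
          rw [e1, Q_const_mul]
          norm_num
        rw [h3] at h2
        have h4 := (abs_le.1 h1).2
        have h5 := hFMV l hl M hM
        have h6 : (2 : ℝ) ^ (s + 1 + 1) *
            (∫ x, ‖(1 / 2 : ℂ) * (F x - G l x) - FM S F l M x‖ ∂μ) ≤ 2 ^ (s + 1 + 1) *
            Real.sqrt ((1 / 2) ^ 2 * Q μ (fun x => (M : ℂ)⁻¹ *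
              ∑ j ∈ Finset.range M, F (S.φ ((l.factorial : ℤ) * j) x) - G l x)) :=
          mul_le_mul_of_nonneg_left h2 (by positivity)
        linarith
      -- limit in l
      have hlim : Tendsto (fun l : ℕ => δ + 2 ^ (s + 1 + 1) *
          Real.sqrt ((1 / 2) ^ 2 * Q μ (fun x => G l x - P x))) atTop
          (𝓝 (δ + 2 ^ (s + 1 + 1) * Real.sqrt ((1 / 2) ^ 2 * 0))) :=
        (((Real.continuous_sqrt.tendsto _).comp (hGP.const_mul _)).const_mul _).const_add _
      simp only [mul_zero, Real.sqrt_zero, add_zero] at hlim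
      refine ge_of_tendsto hlim ?_
      filter_upwards [eventually_ge_atTop l0] with l hl
      have h1 := hL X μ S (s + 1) (fun x => (1 / 2 : ℂ) * (F x - P x))
        (fun x => (1 / 2 : ℂ) * (F x - G l x)) hf'B (hGlB l)
      have h2 := norm_int_le_Q (μ := μ) hf'B.bd (hGlB l).bd
      have h3 : Q μ (fun x => (1 / 2 : ℂ) * (F x - P x) - (1 / 2 : ℂ) * (F x - G l x)) =
          (1 / 2) ^ 2 * Q μ (fun x => G l x - P x) := by
        have e1 : (fun x => (1 / 2 : ℂ) * (F x - P x) - (1 / 2 : ℂ) * (F x - G l x)) =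
            fun x => (1 / 2 : ℂ) * (G l x - P x) := by
          ext x
          ring
        rw [e1, Q_const_mul]
        norm_num
      rw [h3] at h2
      have h4 := (abs_le.1 h1).2
      have h5 := hGV l hl
      have h6 : (2 : ℝ) ^ (s + 1 + 1) *
          (∫ x, ‖(1 / 2 : ℂ) * (F x - P x) - (1 / 2 : ℂ) * (F x - G l x)‖ ∂μ) ≤
          2 ^ (s + 1 + 1) * Real.sqrt ((1 / 2) ^ 2 * Q μ (fun x => G l x - P x)) :=
        mul_le_mul_of_nonneg_left h2 (by positivity)
      linarith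
  -- (iv) F is orthogonal to F - P
  have hFo : ∫ x, F x * conj (F x - P x) ∂μ = 0 := by
    have h1 : ‖∫ x, F x * conj ((1 / 2 : ℂ) * (F x - P x)) ∂μ‖ ≤ 0 := by
      have h2 : ∀ c > (0 : ℝ), ‖∫ x, F x * conj ((1 / 2 : ℂ) * (F x - P x)) ∂μ‖ ≤
          Real.sqrt c := by
        intro c hc
        apply dual_bound S bs bm hw1 hU hF hf'B.conj'
        intro g hg
        have h3 := hA1 _ hf'B hTU g hg
        have h4 : ∀ᶠ N in atTop, Q μ (mav1 S bs bm w g
            (fun x => (1 / 2 : ℂ) * (F x - P x)) N) < c := h3.eventually_lt_const hc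
        filter_upwards [h4] with N hN
        simp only [Complex.conj_conj]
        exact hN.le
      have h5 : Tendsto (fun c : ℝ => Real.sqrt c) (𝓝[>] 0) (𝓝 0) := by
        have := (Real.continuous_sqrt.tendsto 0).mono_left (nhdsWithin_le_nhds (s := Set.Ioi 0))
        simpa using this
      exact ge_of_tendsto h5 (by
        filter_upwards [self_mem_nhdsWithin] with c hc
        exact h2 c hc)
    have h6 : ∫ x, F x * conj ((1 / 2 : ℂ) * (F x - P x)) ∂μ =
        (1 / 2 : ℂ) * ∫ x, F x * conj (F x - P x) ∂μ := by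
      rw [← integral_const_mul]
      congr 1
      ext x
      rw [map_mul]
      have : conj (1 / 2 : ℂ) = 1 / 2 := by
        rw [map_div₀, map_one]
        congr 1
        exact Complex.conj_ofNat 2
      rw [this]
      ring
    rw [h6] at h1
    have h7 := norm_le_zero_iff.1 h1
    rcases mul_eq_zero.1 h7 with h | h
    · norm_num at h
    · exact h
  -- generic passage to the limit `G l → P`
  have hlimG : ∀ u : X → ℂ, Bd u →
      Tendsto (fun l => ∫ x, G l x * u x ∂μ) atTop (𝓝 (∫ x, P x * u x ∂μ)) := by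
    intro u hu
    rw [tendsto_iff_norm_sub_tendsto_zero]
    obtain ⟨hum, C, hC⟩ := hu
    have hC0 : 0 ≤ |C| + 1 := by positivity
    have hlim : Tendsto (fun l => (|C| + 1) * Real.sqrt (Q μ (fun x => G l x - P x))) atTop
        (𝓝 ((|C| + 1) * Real.sqrt 0)) :=
      ((Real.continuous_sqrt.tendsto _).comp hGP).const_mul _
    rw [Real.sqrt_zero, mul_zero] at hlim
    refine squeeze_zero (fun _ => norm_nonneg _) (fun l => ?_) hlim
    have hd : Bd (fun x => G l x - P x) := (hG l).bd.sub hP.bd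
    have e1 : ∫ x, G l x * u x ∂μ - ∫ x, P x * u x ∂μ =
        ((|C| + 1 : ℝ) : ℂ) * ∫ x, (G l x - P x) * (((|C| + 1 : ℝ) : ℂ)⁻¹ * u x) ∂μ := by
      rw [← integral_const_mul, ← integral_sub]
      · congr 1
        ext x
        have : ((|C| + 1 : ℝ) : ℂ) ≠ 0 := by
          have : (0 : ℝ) < |C| + 1 := by positivity
          exact_mod_cast this.ne'
        field_simp
      · exact (((hG l).bd.mul ⟨hum, C, hC⟩)).integrable
      · exact ((hP.bd.mul ⟨hum, C, hC⟩)).integrable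
    rw [e1, norm_mul, Complex.norm_real, Real.norm_eq_abs, abs_of_nonneg hC0]
    refine mul_le_mul_of_nonneg_left (norm_integral_mul_le hd fun x => ?_) hC0
    rw [norm_mul, norm_inv, Complex.norm_real, Real.norm_eq_abs, abs_of_nonneg hC0]
    have h1 : ‖u x‖ ≤ |C| + 1 := (hC x).trans ((le_abs_self C).trans (by linarith))
    rw [inv_mul_le_iff₀ (by positivity)]
    linarith
  have hconj : ∀ u v : X → ℂ, ∫ x, u x * conj (v x) ∂μ = conj (∫ x, v x * conj (u x) ∂μ) := by
    intro u v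
    rw [← integral_conj]
    congr 1
    ext x
    rw [map_mul, Complex.conj_conj, mul_comm]
  -- P is orthogonal to F - P
  have hPo : ∫ x, P x * conj (F x - P x) ∂μ = 0 := by
    have h1 := hlimG (fun x => conj (F x - P x)) ⟨Complex.continuous_conj.measurable.comp hFPb.1, by
      obtain ⟨C, hC⟩ := hFPb.2
      exact ⟨C, fun x => by rw [Complex.norm_conj]; exact hC x⟩⟩
    have h2 : ∀ l, ∫ x, G l x * conj (F x - P x) ∂μ = 0 := by
      intro l
      rw [hconj (G l) (fun x => F x - P x)]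
      have := hOrth l.factorial (Nat.factorial_pos l) (G l) (hG l) (hGinv l)
      rw [this, map_zero]
    simp only [h2] at h1
    exact (tendsto_nhds_unique h1 tendsto_const_nhds)
  have hQ0 : ∫ x, (F x - P x) * conj (F x - P x) ∂μ = 0 := by
    have hc : Bd (fun x => conj (F x - P x)) := ⟨Complex.continuous_conj.measurable.comp hFPb.1, by
      obtain ⟨C, hC⟩ := hFPb.2
      exact ⟨C, fun x => by rw [Complex.norm_conj]; exact hC x⟩⟩
    have e1 : ∀ x, (F x - P x) * conj (F x - P x) =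
        F x * conj (F x - P x) - P x * conj (F x - P x) := fun x => by ring
    rw [integral_congr_ae (Eventually.of_forall e1), integral_sub (hFB.bd.mul hc).integrable
      (hP.bd.mul hc).integrable, hFo, hPo, sub_zero]
  have hae : ∀ᵐ x ∂μ, F x = P x := by
    have h1 : ∫ x, ‖F x - P x‖ ^ 2 ∂μ = 0 := by
      have e2 : ∀ x, (F x - P x) * conj (F x - P x) = ((‖F x - P x‖ ^ 2 : ℝ) : ℂ) := fun x => by
        rw [Complex.mul_conj, Complex.normSq_eq_norm_sq]
      rw [integral_congr_ae (Eventually.of_forall e2), integral_complex_ofReal] at hQ0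
      exact_mod_cast hQ0
    rw [integral_eq_zero_iff_of_nonneg (fun x => by positivity) hFPb.sq_integrable] at h1
    filter_upwards [h1] with x hx
    have : ‖F x - P x‖ ^ 2 = 0 := hx
    have := pow_eq_zero_iff (two_ne_zero) |>.1 this
    exact sub_eq_zero.1 (norm_eq_zero.1 this)
  have hfin : ∫ x, P x * conj (f x) ∂μ = 0 := by
    have h1 := hlimG (fun x => conj (f x)) hf.conj'.bd
    have h2 : ∀ l, ∫ x, G l x * conj (f x) ∂μ = 0 := by
      intro l
      rw [hconj (G l) f]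
      have := hfo l.factorial (Nat.factorial_pos l) (G l) (hG l) (hGinv l)
      rw [this, map_zero]
    simp only [h2] at h1
    exact (tendsto_nhds_unique h1 tendsto_const_nhds)
  rw [← hfin]
  apply integral_congr_ae
  filter_upwards [hae] with x hx
  rw [hx]

end Pool.Agent.SqF
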