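import Pool.Agent.SqF.Targets
import Pool.Agent.SqF.Basic

/-!
# MP_0b2319_an: reduction of the Cauchy property to ergodic actions
-/

set_option autoImplicit false

open MeasureTheory Filter Topology ProbabilityTheory
open scoped ComplexConjugate

namespace Pool.Agent.SqF.ERGRED

variable {X : Type} [MeasurableSpace X] {μ : Measure X}

/-- the inverse of a measure-preserving bijection -/
lemma mp_neg (S : Sys X μ) (ν : Measure X) (n : ℤ) (h : MeasurePreserving (S.φ n) ν ν) :
    MeasurePreserving (S.φ (-n)) ν ν := by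
  have h1 : MeasurePreserving (S.equiv n) ν ν := h
  exact h1.symm (S.equiv n)

lemma mp_all (S : Sys X μ) (ν : Measure X) (h : MeasurePreserving (S.φ 1) ν ν) (n : ℤ) :
    MeasurePreserving (S.φ n) ν ν := by
  have hnat : ∀ n : ℕ, MeasurePreserving (S.φ n) ν ν := by
    intro n
    induction n with
    | zero =>
      have : S.φ ((0 : ℕ) : ℤ) = id := by ext x; simp [S.zero]
      rw [this]
      exact MeasurePreserving.id ν
    | succ n ih =>
      have : S.φ ((n + 1 : ℕ) : ℤ) = S.φ n ∘ S.φ 1 := by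
        ext x
        have : ((n + 1 : ℕ) : ℤ) = (n : ℤ) + 1 := by push_cast; ring
        rw [this, S.add]
        rfl
      rw [this]
      exact ih.comp h
  obtain ⟨k, rfl | rfl⟩ := n.eq_nat_or_neg
  · exact hnat k
  · exact mp_neg S ν _ (hnat k)

/-- the same action on another measure -/
def newS (S : Sys X μ) (ν : Measure X) (h : MeasurePreserving (S.φ 1) ν ν) : Sys X ν where
  φ := S.φ
  zero := S.zero
  add := S.add
  mp := mp_all S ν h

lemma Q_bind [IsProbabilityMeasure μ] (κ : Kernel X X) [IsMarkovKernel κ] (hb : μ.bind κ = μ)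
    {F : X → ℂ} (hF : Bd F) : Q μ F = ∫ ω, Q (κ ω) F ∂μ := by
  have h1 : Integrable (fun x => ‖F x‖ ^ 2) μ := hF.sq_integrable
  have h2 : Integrable (fun p : X × X => ‖F p.2‖ ^ 2) (μ ⊗ₘ κ) := by
    rw [Measure.integrable_compProd_snd_iff (f := fun x => ‖F x‖ ^ 2)]
    · rw [hb]; exact h1
    · rw [hb]; exact h1.aestronglyMeasurable
  have h3 := Measure.integral_compProd h2
  simp only at h3
  unfold Q
  rw [← h3]
  have h4 : (μ ⊗ₘ κ).snd = μ := by rw [Measure.snd_compProd, hb]
  conv_lhs => rw [← h4]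
  rw [Measure.snd, integral_map measurable_snd.aemeasurable]
  rw [← Measure.snd, h4]
  exact h1.aestronglyMeasurable

end Pool.Agent.SqF.ERGRED

namespace Pool.Agent.SqF

open Pool.Agent.SqF.ERGRED in
/-- the Cauchy property for arbitrary actions follows from the ergodic case -/
theorem ergred (hE : T_ERGD) : T_ERGRED := by
  intro m hPc X _ _ μ _ S c hc f hf
  obtain ⟨κ, hκ, herg, hb⟩ := hE X μ (S.φ 1) (S.mp 1)
  set D : ℕ × ℕ → X → ℂ := fun p x => mav S (fun i => b (c i)) (fun _ => 1) f p.1 x -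
      mav S (fun i => b (c i)) (fun _ => 1) f p.2 x with hD
  have hB : ∀ N, B1 (mav S (fun i => b (c i)) (fun _ => 1) f N) := by
    intro N
    unfold mav
    refine B1.av' fun n => ?_
    refine B1.one.mul' ?_
    exact B1.prod' _ fun i _ => (hf i).sh S _
  have hDb : ∀ p, Bd (D p) := fun p => (hB p.1).bd.sub (hB p.2).bd
  have hDle : ∀ p x, ‖D p x‖ ≤ 2 := by
    intro p x
    have h1 := (hB p.1).le x
    have h2 := (hB p.2).le x
    calc ‖D p x‖ ≤ _ + _ := norm_sub_le _ _
      _ ≤ 2 := by linarith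
  have hQ : ∀ p, Q μ (D p) = ∫ ω, Q (κ ω) (D p) ∂μ := fun p => Q_bind κ hb (hDb p)
  have hgoal : Tendsto (fun p => ∫ ω, Q (κ ω) (D p) ∂μ) atTop (𝓝 (∫ _, (0 : ℝ) ∂μ)) := by
    refine tendsto_integral_filter_of_dominated_convergence (fun _ => (2 : ℝ) ^ 2) ?_ ?_
      (integrable_const _) ?_
    · refine Eventually.of_forall fun p => ?_
      have h1 : Measurable (fun x => ‖D p x‖ ^ 2) := (hDb p).1.norm.pow_const 2
      have h2 : StronglyMeasurable (fun q : X × X => ‖D p q.2‖ ^ 2) :=
        (h1.comp measurable_snd).stronglyMeasurable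
      exact (StronglyMeasurable.integral_kernel_prod_right' (κ := κ) h2).aestronglyMeasurable
    · refine Eventually.of_forall fun p => Eventually.of_forall fun ω => ?_
      have h1 : 0 ≤ Q (κ ω) (D p) := Q_nonneg _
      rw [Real.norm_eq_abs, abs_of_nonneg h1]
      exact Q_le_of_norm_le (hDle p)
    · filter_upwards [herg] with ω hω
      have h1 := hPc X (κ ω) (newS S (κ ω) hω.toMeasurePreserving) hω c hc f hf
      exact h1
  rw [integral_zero] at hgoal
  refine hgoal.congr fun p => ?_
  exact (hQ p).symm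

end Pool.Agent.SqF
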