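import Pool.Agent.SqF.Targets
import Pool.Agent.SqF.CUBEALG
import Pool.Agent.SqF.BOX

/-!
# MP_0b2319_an, part WBOX: box inequality for window averages; lower complexity factors
-/

set_option autoImplicit false

open MeasureTheory Filter Topology
open scoped ComplexConjugate

namespace Pool.Agent.SqF

namespace WBOX

theorem L_pos (N : ℕ) : 0 < L N := Nat.succ_pos _

theorem card_W (N : ℕ) : (W N).card = L N := by
  unfold W
  rw [Nat.card_Ico]
  omega

/-- the uniform probability measure on the window -/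
noncomputable def wm (N : ℕ) : Measure ℕ :=
  ((L N : ENNReal)⁻¹) • ∑ n ∈ W N, Measure.dirac n

instance wm_prob (N : ℕ) : IsProbabilityMeasure (wm N) := by
  constructor
  unfold wm
  rw [Measure.smul_apply, Measure.coe_finsetSum, Finset.sum_apply]
  simp only [measure_univ, Finset.sum_const, card_W, nsmul_eq_mul, mul_one, smul_eq_mul]
  apply ENNReal.inv_mul_cancel
  · exact_mod_cast (L_pos N).ne'
  · exact ENNReal.natCast_ne_top _

theorem int_wm (N : ℕ) (f : ℕ → ℂ) : ∫ n, f n ∂(wm N) = avs N f := by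
  unfold wm avs
  rw [integral_smul_measure, integral_finsetSum_measure]
  · simp only [integral_dirac]
    rw [ENNReal.toReal_inv, ENNReal.toReal_natCast, Complex.real_smul]
    push_cast
    rfl
  · intro n _
    exact integrable_dirac (by simp)

theorem b1_nat (f : ℕ → ℂ) (hf : ∀ n, ‖f n‖ ≤ 1) : B1 f :=
  ⟨measurable_of_countable f, hf⟩

theorem avs_norm_le (N : ℕ) (v : ℕ → ℂ) (hv : ∀ n, ‖v n‖ ≤ 1) : ‖avs N v‖ ≤ 1 := by
  unfold avs
  rw [norm_mul, norm_inv, Complex.norm_natCast]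
  have hc : (0 : ℝ) < (L N : ℝ) := by exact_mod_cast L_pos N
  rw [inv_mul_le_iff₀ hc, mul_one]
  refine (norm_sum_le _ _).trans ?_
  refine (Finset.sum_le_sum (fun k _ => hv k)).trans ?_
  simp [card_W]

theorem boxE_norm_le {r : ℕ} (H : Fin r → ℕ) (F : (Fin r → ℕ) → ℂ) (hF : ∀ t, ‖F t‖ ≤ 1) :
    ‖boxE H F‖ ≤ 1 := by
  unfold boxE
  rw [norm_smul, norm_inv, Real.norm_natCast]
  rcases Nat.eq_zero_or_pos (box H).card with h0 | h0
  · rw [h0]; simp
  · have hc : (0 : ℝ) < ((box H).card : ℝ) := by exact_mod_cast h0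
    rw [inv_mul_le_iff₀ hc, mul_one]
    refine (norm_sum_le _ _).trans ?_
    refine (Finset.sum_le_sum (fun k _ => hF k)).trans ?_
    simp

/-- averages of constants -/
theorem boxE_const {r : ℕ} (H : Fin r → ℕ) (hH : ∀ j, 0 < H j) (c : ℂ) :
    boxE H (fun _ => c) = c := by
  unfold boxE
  have hc : ((box H).card : ℝ) ≠ 0 := by exact_mod_cast (BOX.card_box_pos H hH).ne'
  rw [Finset.sum_const, ← Nat.cast_smul_eq_nsmul ℝ, smul_smul, inv_mul_cancel₀ hc, one_smul]

theorem boxE_dist {r : ℕ} (H : Fin r → ℕ) (hH : ∀ j, 0 < H j) (c : ℂ) (F : (Fin r → ℕ) → ℂ)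
    (ε : ℝ) (hF : ∀ t ∈ box H, ‖c - F t‖ ≤ ε) : ‖c - boxE H F‖ ≤ ε := by
  have hc : (0 : ℝ) < ((box H).card : ℝ) := by exact_mod_cast BOX.card_box_pos H hH
  have h1 : c - boxE H F = boxE H (fun t => c - F t) := by
    conv_lhs => rw [← boxE_const H hH c]
    unfold boxE
    rw [← smul_sub, Finset.sum_sub_distrib]
  rw [h1]
  unfold boxE
  rw [norm_smul, norm_inv, Real.norm_natCast, inv_mul_le_iff₀ hc]
  refine (norm_sum_le _ _).trans ?_
  refine (Finset.sum_le_sum hF).trans ?_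
  simp

theorem pow_close (a b δ : ℝ) (ha : 0 ≤ a) (ha1 : a ≤ 1) (hb : 0 ≤ b) (hb1 : b ≤ 1)
    (h : a ≤ b + δ) (hδ : 0 ≤ δ) (m : ℕ) : a ^ m ≤ b ^ m + m * δ := by
  rcases le_total a b with hab | hab
  · have := pow_le_pow_left₀ ha hab m
    have h2 : (0 : ℝ) ≤ m * δ := by positivity
    linarith
  · have h1 : a ^ m - b ^ m ≤ m * (a - b) := by
      induction m with
      | zero => simp
      | succ m ih =>
        have e1 : a ^ (m + 1) - b ^ (m + 1) = a * (a ^ m - b ^ m) + b ^ m * (a - b) := by ring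
        rw [e1]
        have h3 : a ^ m - b ^ m ≥ 0 := sub_nonneg.2 (pow_le_pow_left₀ hb hab m)
        have h4 : a * (a ^ m - b ^ m) ≤ 1 * (a ^ m - b ^ m) :=
          mul_le_mul_of_nonneg_right ha1 h3
        have h5 : b ^ m * (a - b) ≤ 1 * (a - b) :=
          mul_le_mul_of_nonneg_right (pow_le_one₀ hb hb1) (by linarith)
        push_cast
        nlinarith
    have h2 : (m : ℝ) * (a - b) ≤ m * δ := by
      apply mul_le_mul_of_nonneg_left _ (by positivity)
      linarith
    linarith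

end WBOX

open WBOX

theorem wbox (hW : T_WSH) : T_WBOX := by
  intro R hR t ht H hH ε hε
  -- tolerance
  set m : ℕ := 2 ^ t with hm
  have hm0 : (0 : ℝ) < m := by rw [hm]; positivity
  have hev : ∀ᶠ N in atTop, ∀ h ∈ box H, ∀ v : ℕ → ℂ, (∀ n, ‖v n‖ ≤ 1) →
      ‖avs N v - avs N (fun n => v (n + R N * ∑ j, h j))‖ ≤ ε / m := by
    rw [Filter.eventually_all_finset]
    intro h _
    exact hW R hR (∑ j, h j) (ε / m) (by positivity)
  filter_upwards [hev] with N hN v hv
  set F : (Fin t → ℕ) → ℂ := fun h => avs N (fun n => v (n + R N * ∑ j, h j)) with hF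
  have h1 : ‖avs N v - boxE H F‖ ≤ ε / m :=
    boxE_dist H hH _ _ _ (fun h hh => hN h hh v hv)
  have hF1 : ∀ h, ‖F h‖ ≤ 1 := fun h => avs_norm_le N _ (fun n => hv _)
  have h2 : ‖avs N v‖ ≤ ‖boxE H F‖ + ε / m := by
    have := norm_le_insert' (avs N v) (boxE H F)
    linarith
  have h3 := pow_close ‖avs N v‖ ‖boxE H F‖ (ε / m) (norm_nonneg _) (avs_norm_le N v hv)
    (norm_nonneg _) (boxE_norm_le H F hF1) h2 (by positivity) m
  have h4 : (m : ℝ) * (ε / m) = ε := by field_simp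
  rw [h4] at h3
  have hb := box_cs ℕ (wm N) t H ht hH (fun h n => v (n + R N * ∑ j, h j)) (fun _ _ _ => 1)
    (fun h => b1_nat _ (fun n => hv _)) (fun j h => b1_nat _ (fun n => by simp))
    (fun j h s => rfl)
  simp only [Finset.prod_const_one, mul_one, int_wm] at hb
  refine h3.trans ?_
  exact add_le_add_left hb ε

theorem lowc : T_LOWC := by
  intro t ht H hH ξ θ h' Ψ hΨ hi
  obtain ⟨β, hβ1, hβ2⟩ := acb_fac t (fun q => ξ * ∏ l, (q l : ℝ)) h'
  obtain ⟨γ, hγ1, hγ2⟩ := acb_fac t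
    (fun q => ∑ j ∈ Finset.range (t + 1), (if j = t then 0 else θ j) * (sm q : ℝ) ^ j) 0
  have hP : ∀ h : Fin t → ℕ, ∑ j ∈ Finset.range (t + 1),
      (if j = t then 0 else θ j) * (sm h : ℝ) ^ j =
      ∑ j ∈ Finset.range t, θ j * (sm h : ℝ) ^ j := by
    intro h
    rw [Finset.sum_range_succ]
    simp only [if_true, zero_mul, add_zero]
    refine Finset.sum_congr rfl (fun j hj => ?_)
    rw [if_neg (Finset.mem_range.1 hj).ne]
  have hγ3 : ∀ h : Fin t → ℕ, ∑ j ∈ Finset.range t, θ j * (sm h : ℝ) ^ j = - ∑ j, γ j h := by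
    intro h
    have h1 := hγ2 h
    rw [(acb_poly t h 0).1 (fun j => if j = t then 0 else θ j)] at h1
    simp only [if_true, zero_mul] at h1
    rw [hP] at h1
    linarith
  have hβ3 : ∀ h : Fin t → ℕ, ξ * ∏ l, ((h l : ℝ) - h' l) =
      ξ * ∏ l, (h l : ℝ) + ∑ j, β j h := by
    intro h
    rw [← hβ2 h, (acb_poly t h h').2 ξ]
  have e_add : ∀ x y : ℝ, e (x + y) = e x * e y := by
    intro x y
    unfold e
    rw [← Complex.exp_add]
    congr 1
    push_cast
    ring
  have e_sum : ∀ (s : Finset (Fin t)) (f : Fin t → ℝ), e (∑ j ∈ s, f j) = ∏ j ∈ s, e (f j) := by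
    intro s f
    induction s using Finset.induction_on with
    | empty => simp [e]
    | insert a s ha ih => rw [Finset.sum_insert ha, Finset.prod_insert ha, e_add, ih]
  have e_norm : ∀ x : ℝ, ‖e x‖ = 1 := by
    intro x
    unfold e
    exact Complex.norm_exp_ofReal_mul_I _
  have key : (fun h : Fin t → ℕ => e (ξ * ∏ l, ((h l : ℝ) - h' l)) *
      e (∑ j ∈ Finset.range t, θ j * (sm h : ℝ) ^ j) * ∏ j, Ψ j h) =
      (fun h => ∫ _z, (e (ξ * ∏ l, (h l : ℝ))) *
        ∏ j, (e (β j h) * e (- γ j h) * Ψ j h) ∂(Measure.dirac () : Measure Unit)) := by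
    funext h
    rw [integral_const]
    simp only [probReal_univ, one_smul]
    rw [hβ3, hγ3, e_add, e_sum, ← Finset.sum_neg_distrib, e_sum, Finset.prod_mul_distrib,
      Finset.prod_mul_distrib]
    ring
  rw [key]
  have hb := box_cs Unit (Measure.dirac ()) t H ht hH (fun h _ => e (ξ * ∏ l, (h l : ℝ)))
    (fun j h _ => e (β j h) * e (- γ j h) * Ψ j h)
    (fun h => ⟨measurable_const, fun _ => (e_norm _).le⟩)
    (fun j h => ⟨measurable_const, fun _ => by
      rw [norm_mul, norm_mul, e_norm, e_norm, one_mul, one_mul]; exact hΨ j h⟩)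
    (fun j h s => by
      funext _
      rw [hβ1, hγ1, hi])
  refine hb.trans ?_
  refine (Complex.re_le_norm _).trans (le_of_eq ?_)
  congr 1
  congr 1
  funext r
  congr 1
  funext r'
  rw [integral_const]
  simp only [probReal_univ, one_smul]
  rw [cb_e, (acb_poly t r r').2 ξ]

end Pool.Agent.SqF
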