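import Pool.Agent.SqF.Targets
import Pool.Agent.SqF.WBOX

/-!
# MP_0b2319_an, part EXPS: box exponential sums; Gauss sums
-/

set_option autoImplicit false

open MeasureTheory Filter Topology
open scoped ComplexConjugate

namespace Pool.Agent.SqF

namespace EXPS

open BOX

theorem e_add (x y : ℝ) : e (x + y) = e x * e y := by
  unfold e
  rw [← Complex.exp_add]
  congr 1
  push_cast
  ring

theorem e_norm (x : ℝ) : ‖e x‖ = 1 := by
  unfold e
  exact Complex.norm_exp_ofReal_mul_I _

theorem e_nat_mul (x : ℝ) (k : ℕ) : e (x * k) = e x ^ k := by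
  unfold e
  rw [← Complex.exp_nat_mul]
  congr 1
  push_cast
  ring

theorem e_eq_one {x : ℝ} (h : e x = 1) : ∃ n : ℤ, x = n := by
  unfold e at h
  rw [Complex.exp_eq_one_iff] at h
  obtain ⟨n, hn⟩ := h
  refine ⟨n, ?_⟩
  have h1 : ((2 * Real.pi * x : ℝ) : ℂ) * Complex.I = ((2 * Real.pi * n : ℝ) : ℂ) * Complex.I := by
    rw [hn]; push_cast; ring
  have h2 := mul_right_cancel₀ Complex.I_ne_zero h1
  have h3 : 2 * Real.pi * x = 2 * Real.pi * n := by exact_mod_cast h2
  have hp : (2 * Real.pi) ≠ 0 := by positivity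
  exact mul_left_cancel₀ hp h3

theorem norm_aE_geom (x : ℝ) (hx : e x ≠ 1) (M : ℕ) :
    ‖aE M (fun k => e (x * k))‖ ≤ (M : ℝ)⁻¹ * (2 / ‖e x - 1‖) := by
  unfold aE
  rw [norm_smul, norm_inv, Real.norm_natCast]
  apply mul_le_mul_of_nonneg_left _ (by positivity)
  simp_rw [e_nat_mul]
  rw [geom_sum_eq hx, norm_div]
  apply div_le_div_of_nonneg_right _ (norm_nonneg _)
  refine (norm_sub_le _ _).trans ?_
  rw [norm_pow, e_norm]
  norm_num

/-- the double average factorises -/
theorem norm_aE_aE (x : ℝ) (M : ℕ) :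
    ‖aE M (fun k => aE M (fun k' => e (x * ((k : ℝ) - k'))))‖ ≤ ‖aE M (fun k => e (x * k))‖ := by
  have h1 : aE M (fun k => aE M (fun k' => e (x * ((k : ℝ) - k')))) =
      aE M (fun k => e (x * k)) * conj (aE M (fun k => e (x * k))) := by
    have h2 : ∀ k k' : ℕ, e (x * ((k : ℝ) - k')) = e (x * k) * conj (e (x * k')) := by
      intro k k'
      rw [mul_sub, CUBEALG.e_sub]
    simp_rw [h2]
    unfold aE
    simp only [Complex.real_smul, map_mul, map_sum, Complex.conj_ofReal]
    rw [mul_mul_mul_comm, Finset.sum_mul_sum]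
    simp only [Finset.mul_sum]
    refine Finset.sum_congr rfl (fun k _ => Finset.sum_congr rfl (fun k' _ => ?_))
    ring
  rw [h1, norm_mul, Complex.norm_conj]
  exact mul_le_of_le_one_right (norm_nonneg _) (aE_norm_le M _ (fun k => (e_norm _).le))

/-- indicator of the pairs for which the product vanishes -/
noncomputable def zer {t : ℕ} (r r' : Fin t → ℕ) : ℝ :=
  open Classical in if ∏ l, ((r l : ℝ) - r' l) = 0 then 1 else 0

theorem zer_nonneg {t : ℕ} (r r' : Fin t → ℕ) : 0 ≤ zer r r' := by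
  unfold zer
  split_ifs <;> norm_num

theorem zer_cons {t : ℕ} (k k' : ℕ) (s s' : Fin t → ℕ) :
    zer (Fin.cons k s : Fin (t + 1) → ℕ) (Fin.cons k' s') ≤ (if k' = k then 1 else 0) + zer s s' := by
  unfold zer
  rw [Fin.prod_univ_succ]
  simp only [Fin.cons_zero, Fin.cons_succ]
  by_cases h1 : k' = k
  · rw [if_pos h1]
    split_ifs <;> norm_num
  · rw [if_neg h1]
    have h2 : ((k : ℝ) - k') ≠ 0 := by
      intro h
      apply h1
      have : (k : ℝ) = k' := by linarith
      exact_mod_cast this.symm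
    simp only [mul_eq_zero, h2, false_or]
    simp

theorem boxE_add {t : ℕ} (H : Fin t → ℕ) (F G : (Fin t → ℕ) → ℝ) :
    boxE H (fun h => F h + G h) = boxE H F + boxE H G := by
  unfold boxE
  rw [Finset.sum_add_distrib, smul_add]

theorem aE_add (n : ℕ) (F G : ℕ → ℝ) :
    aE n (fun h => F h + G h) = aE n F + aE n G := by
  unfold aE
  rw [Finset.sum_add_distrib, smul_add]

theorem boxE_cst {t : ℕ} (H : Fin t → ℕ) (hH : ∀ j, 0 < H j) (c : ℝ) :
    boxE H (fun _ => c) = c := by
  unfold boxE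
  have hc : ((box H).card : ℝ) ≠ 0 := by exact_mod_cast (BOX.card_box_pos H hH).ne'
  rw [Finset.sum_const, ← Nat.cast_smul_eq_nsmul ℝ, smul_smul, inv_mul_cancel₀ hc, one_smul]

theorem aE_cst (n : ℕ) (hn : 0 < n) (c : ℝ) : aE n (fun _ => c) = c := by
  unfold aE
  have hc : (n : ℝ) ≠ 0 := by exact_mod_cast hn.ne'
  rw [Finset.sum_const, Finset.card_range, ← Nat.cast_smul_eq_nsmul ℝ, smul_smul,
    inv_mul_cancel₀ hc, one_smul]

theorem aE_single (n k : ℕ) (hk : k < n) : aE n (fun k' => if k' = k then (1 : ℝ) else 0) =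
    (n : ℝ)⁻¹ := by
  unfold aE
  rw [Finset.sum_ite_eq' (Finset.range n) k (fun _ => (1 : ℝ)), if_pos (Finset.mem_range.2 hk),
    smul_eq_mul, mul_one]

theorem boxE_zer (h : ℕ) (hh : 0 < h) : ∀ t : ℕ,
    boxE (fun _ : Fin t => h) (fun r => boxE (fun _ : Fin t => h) (fun r' => zer r r')) ≤
      (t : ℝ) * (h : ℝ)⁻¹ := by
  intro t
  induction t with
  | zero =>
    have : ∀ r r' : Fin 0 → ℕ, zer r r' = 0 := by
      intro r r'
      unfold zer
      simp
    simp_rw [this]
    simp [boxE]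
  | succ t ih =>
    have hH : ∀ j : Fin t, 0 < (fun _ : Fin t => h) j := fun _ => hh
    have htl : Fin.tail (fun _ : Fin (t + 1) => h) = (fun _ : Fin t => h) := rfl
    rw [boxE_succ]
    simp_rw [boxE_succ (fun _ : Fin (t + 1) => h), htl]
    have h1 : ∀ k ∈ Finset.range h, boxE (fun _ : Fin t => h) (fun s => aE h (fun k' =>
        boxE (fun _ : Fin t => h) (fun s' =>
          zer (Fin.cons k s : Fin (t + 1) → ℕ) (Fin.cons k' s')))) ≤
        (h : ℝ)⁻¹ + (t : ℝ) * (h : ℝ)⁻¹ := by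
      intro k hk
      have h2 : ∀ s : Fin t → ℕ, aE h (fun k' => boxE (fun _ : Fin t => h) (fun s' =>
          zer (Fin.cons k s : Fin (t + 1) → ℕ) (Fin.cons k' s'))) ≤
          (h : ℝ)⁻¹ + boxE (fun _ : Fin t => h) (fun s' => zer s s') := by
        intro s
        have h3 : ∀ k' : ℕ, boxE (fun _ : Fin t => h) (fun s' =>
            zer (Fin.cons k s : Fin (t + 1) → ℕ) (Fin.cons k' s')) ≤
            (if k' = k then 1 else 0) + boxE (fun _ : Fin t => h) (fun s' => zer s s') := by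
          intro k'
          refine (boxE_mono _ _ _ (fun s' => zer_cons k k' s s')).trans ?_
          rw [boxE_add, boxE_cst _ hH]
        refine (aE_mono _ _ _ h3).trans ?_
        rw [aE_add, aE_single h k (Finset.mem_range.1 hk), aE_cst h hh]
      refine (boxE_mono _ _ _ h2).trans ?_
      rw [boxE_add, boxE_cst _ hH]
      linarith
    unfold aE at *
    rw [smul_eq_mul]
    have hc : (0 : ℝ) < (h : ℝ) := by exact_mod_cast hh
    rw [inv_mul_le_iff₀ hc]
    refine (Finset.sum_le_sum h1).trans (le_of_eq ?_)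
    rw [Finset.sum_const, Finset.card_range, nsmul_eq_mul]
    push_cast
    ring

end EXPS

open EXPS BOX

theorem exps : T_EXPS := by
  intro ξ hξ t ht ε hε
  obtain ⟨t, rfl⟩ : ∃ s, t = s + 1 := ⟨t - 1, by omega⟩
  -- the side length of the last `t` coordinates
  obtain ⟨h, hh0, hh⟩ : ∃ h : ℕ, 0 < h ∧ (t : ℝ) * (h : ℝ)⁻¹ ≤ ε / 2 := by
    obtain ⟨h, hh⟩ := exists_nat_gt ((t : ℝ) / (ε / 2))
    have h0 : (0 : ℝ) ≤ (t : ℝ) / (ε / 2) := by positivity
    have hpos : (0 : ℝ) < h := lt_of_le_of_lt h0 hh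
    refine ⟨h, by exact_mod_cast hpos, ?_⟩
    rw [div_lt_iff₀ (by positivity)] at hh
    rw [← div_eq_mul_inv, div_le_iff₀ hpos]
    linarith
  set Ht : Fin t → ℕ := fun _ => h with hHt
  have hHt0 : ∀ j, 0 < Ht j := fun _ => hh0
  -- the first side length
  have hev : ∀ᶠ M : ℕ in atTop, ∀ p ∈ box Ht ×ˢ box Ht,
      ∏ l, ((p.1 l : ℝ) - p.2 l) ≠ 0 →
      ‖aE M (fun k => e ((ξ * ∏ l, ((p.1 l : ℝ) - p.2 l)) * k))‖ ≤ ε / 2 := by
    rw [Filter.eventually_all_finset]
    intro p _
    by_cases hp : ∏ l, ((p.1 l : ℝ) - p.2 l) = 0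
    · exact Eventually.of_forall (fun M h => absurd hp h)
    · set x : ℝ := ξ * ∏ l, ((p.1 l : ℝ) - p.2 l) with hx
      have hx1 : e x ≠ 1 := by
        intro h1
        obtain ⟨n, hn⟩ := e_eq_one h1
        set D : ℤ := ∏ l, ((p.1 l : ℤ) - p.2 l) with hD
        have hDr : ((D : ℤ) : ℝ) = ∏ l, ((p.1 l : ℝ) - p.2 l) := by
          rw [hD]; push_cast; rfl
        rw [← hDr] at hp hx
        have hD0 : D ≠ 0 := by
          intro h0; apply hp; rw [h0]; simp
        apply (irrational_iff_ne_rational ξ).1 hξ n D hD0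
        rw [eq_div_iff hp, ← hx, hn]
      have ht0 : Tendsto (fun M : ℕ => (M : ℝ)⁻¹ * (2 / ‖e x - 1‖)) atTop (𝓝 0) := by
        have := (tendsto_inv_atTop_nhds_zero_nat (𝕜 := ℝ)).mul_const (2 / ‖e x - 1‖)
        simpa using this
      filter_upwards [ht0.eventually_le_const (show (0 : ℝ) < ε / 2 by positivity)] with M hM _
      exact (norm_aE_geom x hx1 M).trans hM
  obtain ⟨M, hM, hM0⟩ := (hev.and (eventually_gt_atTop 0)).exists
  refine ⟨Fin.cons M Ht, ?_, ?_⟩
  · intro j
    refine Fin.cases ?_ (fun i => ?_) j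
    · simpa using hM0
    · simpa using hHt0 i
  -- the inner function
  set G : (Fin t → ℕ) → (Fin t → ℕ) → ℂ := fun s s' =>
    aE M (fun k => aE M (fun k' => e ((ξ * ∏ l, ((s l : ℝ) - s' l)) * ((k : ℝ) - k')))) with hG
  have hrew : boxE (Fin.cons M Ht : Fin (t + 1) → ℕ) (fun r =>
      boxE (Fin.cons M Ht : Fin (t + 1) → ℕ) fun r' => e (ξ * ∏ l, ((r l : ℝ) - r' l))) =
      boxE Ht (fun s => boxE Ht (fun s' => G s s')) := by
    rw [boxE_succ, aE_boxE_comm]
    simp only [Fin.cons_zero, Fin.tail_cons]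
    congr 1
    funext s
    rw [hG]
    simp only
    rw [← aE_boxE_comm]
    congr 1
    funext k
    rw [boxE_succ, aE_boxE_comm]
    simp only [Fin.cons_zero, Fin.tail_cons]
    congr 1
    funext s'
    congr 1
    funext k'
    rw [Fin.prod_univ_succ]
    simp only [Fin.cons_zero, Fin.cons_succ]
    congr 1
    ring
  rw [hrew]
  have hGle : ∀ s ∈ box Ht, ∀ s' ∈ box Ht, ‖G s s'‖ ≤ zer s s' + ε / 2 := by
    intro s hs s' hs'
    by_cases hp : ∏ l, ((s l : ℝ) - s' l) = 0
    · have h1 : zer s s' = 1 := by unfold zer; rw [if_pos hp]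
      have h2 : ‖G s s'‖ ≤ 1 := by
        rw [hG]
        exact aE_norm_le _ _ (fun k => aE_norm_le _ _ (fun k' => (e_norm _).le))
      rw [h1]; linarith
    · have h1 := hM (s, s') (Finset.mk_mem_product hs hs') hp
      have h2 : ‖G s s'‖ ≤ ε / 2 := (norm_aE_aE _ M).trans h1
      have := zer_nonneg s s'
      linarith
  have hc : (0 : ℝ) < ((box Ht).card : ℝ) := by exact_mod_cast card_box_pos Ht hHt0
  have hmono : ∀ F F' : (Fin t → ℕ) → ℝ, (∀ s ∈ box Ht, F s ≤ F' s) → boxE Ht F ≤ boxE Ht F' := by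
    intro F F' hF
    unfold boxE
    rw [smul_eq_mul, smul_eq_mul]
    exact mul_le_mul_of_nonneg_left (Finset.sum_le_sum hF) (by positivity)
  calc ‖boxE Ht (fun s => boxE Ht (fun s' => G s s'))‖
      ≤ boxE Ht (fun s => ‖boxE Ht (fun s' => G s s')‖) := norm_boxE_le _ _
    _ ≤ boxE Ht (fun s => boxE Ht (fun s' => ‖G s s'‖)) :=
        boxE_mono _ _ _ (fun s => norm_boxE_le _ _)
    _ ≤ boxE Ht (fun s => boxE Ht (fun s' => zer s s' + ε / 2)) :=
        hmono _ _ (fun s hs => hmono _ _ (fun s' hs' => hGle s hs s' hs'))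
    _ = boxE Ht (fun s => boxE Ht (fun s' => zer s s')) + ε / 2 := by
        simp_rw [boxE_add, boxE_cst Ht hHt0]
    _ ≤ (t : ℝ) * (h : ℝ)⁻¹ + ε / 2 := by
        have := boxE_zer h hh0 t
        linarith
    _ ≤ ε := by linarith

theorem gauss : T_GAUSS := by
  intro p q hq hpq
  have : NeZero q := ⟨hq.ne'⟩
  set ψ : AddChar (ZMod q) ℂ := ZMod.stdAddChar with hψ
  have hval : ∀ j : ℤ, ψ (j : ZMod q) = e ((j : ℝ) / q) := by
    intro j
    rw [hψ, ZMod.stdAddChar_coe]
    unfold e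
    congr 1
    push_cast
    ring
  set S : ℂ := ∑ x : ZMod q, ψ ((p : ZMod q) * x ^ 2) with hS
  have h1 : ∑ t ∈ Finset.range q, e ((p : ℝ) * (t : ℝ) ^ 2 / q) = S := by
    rw [hS]
    refine Finset.sum_bij' (fun t _ => (t : ZMod q)) (fun x _ => x.val) ?_ ?_ ?_ ?_ ?_
    · intro t _; exact Finset.mem_univ _
    · intro x _; exact Finset.mem_range.2 (ZMod.val_lt x)
    · intro t ht; exact ZMod.val_cast_of_lt (Finset.mem_range.1 ht)
    · intro x _; exact ZMod.natCast_zmod_val x
    · intro t _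
      have := hval (p * (t : ℤ) ^ 2)
      push_cast at this
      rw [this]
  have hnorm : ∀ x : ZMod q, conj (ψ x) = ψ (-x) := by
    intro x
    rw [AddChar.map_neg_eq_conj]
  have h2 : S * conj S = ∑ h : ZMod q, ψ ((p : ZMod q) * h ^ 2) *
      (if 2 * (p : ZMod q) * h = 0 then (q : ℂ) else 0) := by
    have e1 : S * conj S = ∑ s : ZMod q, ∑ x : ZMod q,
        ψ ((p : ZMod q) * x ^ 2 - (p : ZMod q) * s ^ 2) := by
      rw [hS, map_sum, Finset.sum_mul_sum, Finset.sum_comm]
      refine Finset.sum_congr rfl (fun s _ => Finset.sum_congr rfl (fun x _ => ?_))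
      rw [hnorm, ← AddChar.map_add_eq_mul, sub_eq_add_neg]
    rw [e1]
    have e2 : ∀ s : ZMod q, ∑ x : ZMod q, ψ ((p : ZMod q) * x ^ 2 - (p : ZMod q) * s ^ 2) =
        ∑ h : ZMod q, ψ ((p : ZMod q) * h ^ 2) * ψ (s * (2 * (p : ZMod q) * h)) := by
      intro s
      rw [← Equiv.sum_comp (Equiv.addRight s)]
      refine Finset.sum_congr rfl (fun h _ => ?_)
      rw [← AddChar.map_add_eq_mul]
      congr 1
      simp only [Equiv.coe_addRight]
      ring
    simp_rw [e2]
    rw [Finset.sum_comm]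
    refine Finset.sum_congr rfl (fun h _ => ?_)
    rw [← Finset.mul_sum, AddChar.sum_mulShift _ (ZMod.isPrimitive_stdAddChar q)]
    simp [ZMod.card]
  have hpu : IsUnit (p : ZMod q) := by
    obtain ⟨a, b, hab⟩ := hpq
    refine IsUnit.of_mul_eq_one (a : ZMod q) ?_
    have := congrArg (fun z : ℤ => (z : ZMod q)) hab
    push_cast at this
    rw [ZMod.natCast_self, mul_zero, add_zero] at this
    rw [mul_comm]; exact this
  have hcard : (Finset.univ.filter (fun h : ZMod q => 2 * (p : ZMod q) * h = 0)).card ≤ 2 := by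
    have hsub : (Finset.univ.filter (fun h : ZMod q => 2 * (p : ZMod q) * h = 0)) ⊆
        ({0, ((q / 2 : ℕ) : ZMod q)} : Finset (ZMod q)) := by
      intro h hh
      rw [Finset.mem_filter] at hh
      have h3 : 2 * h = 0 := by
        have : (p : ZMod q) * (2 * h) = 0 := by rw [← hh.2]; ring
        exact (hpu.mul_right_eq_zero).1 this
      have h4 : ((2 * h.val : ℕ) : ZMod q) = 0 := by
        push_cast
        rw [ZMod.natCast_zmod_val]; exact h3
      rw [ZMod.natCast_eq_zero_iff] at h4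
      have h5 := ZMod.val_lt h
      obtain ⟨c, hc⟩ := h4
      have hc2 : c < 2 := by
        by_contra hcc
        have : q * 2 ≤ q * c := Nat.mul_le_mul_left q (by omega)
        omega
      rw [Finset.mem_insert, Finset.mem_singleton]
      rcases Nat.lt_or_ge c 1 with h6 | h6
      · left
        have : c = 0 := by omega
        subst this
        have : h.val = 0 := by omega
        exact (ZMod.val_eq_zero h).1 this
      · right
        have : c = 1 := by omega
        subst this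
        have : h.val = q / 2 := by omega
        rw [← this, ZMod.natCast_zmod_val]
    exact (Finset.card_le_card hsub).trans (Finset.card_le_two)
  have h3 : ‖S‖ ^ 2 ≤ 2 * q := by
    have e1 : ‖S‖ ^ 2 = ‖S * conj S‖ := by
      rw [norm_mul, Complex.norm_conj, sq]
    rw [e1, h2]
    refine (norm_sum_le _ _).trans ?_
    have e2 : ∀ h : ZMod q, ‖ψ ((p : ZMod q) * h ^ 2) *
        (if 2 * (p : ZMod q) * h = 0 then (q : ℂ) else 0)‖ =
        if 2 * (p : ZMod q) * h = 0 then (q : ℝ) else 0 := by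
      intro h
      rw [norm_mul, AddChar.norm_apply, one_mul]
      split_ifs
      · simp
      · simp
    simp_rw [e2]
    rw [← Finset.sum_filter, Finset.sum_const, nsmul_eq_mul]
    have : ((Finset.univ.filter (fun h : ZMod q => 2 * (p : ZMod q) * h = 0)).card : ℝ) ≤ 2 := by
      exact_mod_cast hcard
    exact mul_le_mul_of_nonneg_right this (by positivity)
  rw [h1, norm_mul, mul_pow, norm_inv, Complex.norm_natCast]
  have hq' : (0 : ℝ) < q := by exact_mod_cast hq
  calc ((q : ℝ)⁻¹) ^ 2 * ‖S‖ ^ 2 ≤ ((q : ℝ)⁻¹) ^ 2 * (2 * q) :=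
        mul_le_mul_of_nonneg_left h3 (by positivity)
    _ = 2 / q := by field_simp

end Pool.Agent.SqF
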