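import Pool.Agent.SqF.Targets

/-!
# MP_0b2319_an: two-sided extension (T_EXT)
-/

set_option autoImplicit false

open MeasureTheory Filter Topology

namespace Pool.Agent.SqF

namespace EXT

/-- the two-sided sequence starting at time `-M` -/
def om {X K : Type} (T : X → X) (f : X → K) (M : ℕ) (x : X) : ℤ → K :=
  fun n => f (T^[(n + M).toNat] x)

lemma om_measurable {X K : Type} [MeasurableSpace X] [MeasurableSpace K] {T : X → X}
    (hT : Measurable T) {f : X → K} (hf : Measurable f) (M : ℕ) : Measurable (om T f M) := by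
  rw [measurable_pi_iff]
  intro n
  exact hf.comp (hT.iterate _)

theorem core (X K : Type) [MeasurableSpace X] (μ : Measure X)
    [IsProbabilityMeasure μ] (T : X → X) (hT : MeasurePreserving T μ μ)
    [TopologicalSpace K] [CompactSpace K] [T2Space K] [TopologicalSpace.MetrizableSpace K]
    [SecondCountableTopology K] [MeasurableSpace K] [BorelSpace K]
    (f : X → K) (hf : Measurable f) :
    ∃ ν : Measure (ℤ → K), IsProbabilityMeasure ν ∧
      MeasurePreserving (fun ω n => ω (n + 1)) ν ν ∧
      ∀ Φ : (ℕ → K) → ℝ, Continuous Φ →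
        ∫ x, Φ (fun n => f (T^[n] x)) ∂μ = ∫ ω, Φ (fun n => ω (n : ℤ)) ∂ν := by
  let P : ℕ → ProbabilityMeasure (ℤ → K) := fun M =>
    ⟨μ.map (om T f M), Measure.isProbabilityMeasure_map
      (om_measurable hT.measurable hf M).aemeasurable⟩
  obtain ⟨ν, hν⟩ : ∃ ν : ProbabilityMeasure (ℤ → K),
      Tendsto P (hyperfilter ℕ : Filter ℕ) (𝓝 ν) := by
    have h1 := isCompact_univ (X := ProbabilityMeasure (ℤ → K))
    obtain ⟨ν, -, hν⟩ := isCompact_iff_ultrafilter_le_nhds.1 h1
      (Ultrafilter.map P (hyperfilter ℕ)) (by simp)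
    exact ⟨ν, hν⟩
  have hlim : ∀ Φ : (ℤ → K) → ℝ, Continuous Φ →
      Tendsto (fun M => ∫ x, Φ (om T f M x) ∂μ) (hyperfilter ℕ : Filter ℕ)
        (𝓝 (∫ ω, Φ ω ∂(ν : Measure (ℤ → K)))) := by
    intro Φ hΦ
    have h1 := (ProbabilityMeasure.tendsto_iff_forall_integral_tendsto.1 hν)
      (BoundedContinuousFunction.mkOfCompact ⟨Φ, hΦ⟩)
    refine h1.congr fun M => ?_
    change ∫ ω, Φ ω ∂(μ.map (om T f M)) = _
    rw [integral_map (om_measurable hT.measurable hf M).aemeasurable
      hΦ.aestronglyMeasurable]
  have hle : (hyperfilter ℕ : Filter ℕ) ≤ atTop := by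
    rw [← Nat.cofinite_eq_atTop]; exact hyperfilter_le_cofinite
  have hsm : Measurable (fun (ω : ℤ → K) (n : ℤ) => ω (n + 1)) :=
    measurable_pi_iff.2 fun n => measurable_pi_apply _
  have hsc : Continuous (fun (ω : ℤ → K) (n : ℤ) => ω (n + 1)) :=
    continuous_pi fun n => continuous_apply _
  refine ⟨(ν : Measure (ℤ → K)), inferInstance, ⟨hsm, ?_⟩, ?_⟩
  · have key : ∀ I : Finset ℤ, (((ν : Measure (ℤ → K)).map (fun ω n => ω (n + 1))).map I.restrict) =
        (ν : Measure (ℤ → K)).map I.restrict := by
      intro I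
      have hIm : Measurable (I.restrict : (ℤ → K) → (I → K)) := Finset.measurable_restrict I
      rw [Measure.map_map hIm hsm]
      have p1 : IsProbabilityMeasure ((ν : Measure (ℤ → K)).map
          (I.restrict ∘ (fun ω n => ω (n + 1)))) :=
        Measure.isProbabilityMeasure_map (hIm.comp hsm).aemeasurable
      have p2 : IsProbabilityMeasure ((ν : Measure (ℤ → K)).map
          (I.restrict : (ℤ → K) → (I → K))) :=
        Measure.isProbabilityMeasure_map hIm.aemeasurable
      apply ext_of_forall_integral_eq_of_IsFiniteMeasure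
      intro g
      rw [integral_map (hIm.comp hsm).aemeasurable g.continuous.aestronglyMeasurable,
        integral_map hIm.aemeasurable g.continuous.aestronglyMeasurable]
      have hIc : Continuous (I.restrict : (ℤ → K) → (I → K)) :=
        continuous_pi fun n => continuous_apply _
      have l1 := hlim (fun ω => g ((I.restrict ∘ (fun (ω : ℤ → K) (n : ℤ) => ω (n + 1))) ω))
        (g.continuous.comp (hIc.comp hsc))
      have l2 := hlim (fun ω => g (I.restrict ω)) (g.continuous.comp hIc)
      refine tendsto_nhds_unique (l1.congr' ?_) l2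
      obtain ⟨m, hm⟩ : ∃ m : ℕ, ∀ i ∈ I, -(m : ℤ) ≤ i := by
        refine ⟨∑ i ∈ I, i.natAbs, fun i hi => ?_⟩
        have h1 : i.natAbs ≤ ∑ i ∈ I, i.natAbs :=
          Finset.single_le_sum (f := fun i : ℤ => i.natAbs) (fun _ _ => Nat.zero_le _) hi
        omega
      have hev : ∀ᶠ M in (hyperfilter ℕ : Filter ℕ), m ≤ M := hle (eventually_ge_atTop m)
      filter_upwards [hev] with M hM
      have e1 : ∀ x, (I.restrict ∘ (fun (ω : ℤ → K) (n : ℤ) => ω (n + 1))) (om T f M x) =
          I.restrict (om T f M (T x)) := by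
        intro x
        funext i
        have hi := hm i.1 i.2
        change f (T^[((i : ℤ) + 1 + M).toNat] x) = f (T^[((i : ℤ) + M).toNat] (T x))
        have e2 : ((i : ℤ) + 1 + M).toNat = ((i : ℤ) + M).toNat + 1 := by omega
        rw [e2, Function.iterate_succ_apply]
      simp only [e1]
      have h3 := integral_map (μ := μ) hT.measurable.aemeasurable
        (f := fun y => g (I.restrict (om T f M y)))
        (by
          rw [hT.map_eq]
          exact (g.continuous.measurable.comp
            (hIm.comp (om_measurable hT.measurable hf M))).aestronglyMeasurable)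
      rw [hT.map_eq] at h3
      exact h3.symm
    have h1 : IsProjectiveLimit ((ν : Measure (ℤ → K)).map (fun ω n => ω (n + 1)))
        (fun I : Finset ℤ => (ν : Measure (ℤ → K)).map I.restrict) := key
    have h2 : IsProjectiveLimit (ν : Measure (ℤ → K))
        (fun I : Finset ℤ => (ν : Measure (ℤ → K)).map I.restrict) := fun I => rfl
    have : ∀ I : Finset ℤ, IsFiniteMeasure ((ν : Measure (ℤ → K)).map
        (I.restrict : (ℤ → K) → (I → K))) := fun I => inferInstance
    exact h1.unique h2
  · intro Φ hΦ
    have hr : Continuous (fun (ω : ℤ → K) (n : ℕ) => ω (n : ℤ)) :=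
      continuous_pi fun n => continuous_apply _
    have l1 := hlim (fun ω => Φ (fun n => ω (n : ℤ))) (hΦ.comp hr)
    refine tendsto_nhds_unique (tendsto_const_nhds.congr fun M => ?_) l1
    have hmeas : Measurable (fun y => Φ (fun n => f (T^[n] y))) := by
      refine hΦ.measurable.comp ?_
      rw [measurable_pi_iff]
      intro n
      exact hf.comp (hT.measurable.iterate _)
    have hTM := hT.iterate M
    have h3 := integral_map (μ := μ) hTM.measurable.aemeasurable
      (f := fun y => Φ (fun n => f (T^[n] y))) (by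
        rw [hTM.map_eq]
        exact hmeas.aestronglyMeasurable)
    rw [hTM.map_eq] at h3
    rw [h3]
    congr 1
    funext x
    congr 1
    funext n
    change f (T^[n] (T^[M] x)) = f (T^[((n : ℤ) + M).toNat] x)
    have e2 : ((n : ℤ) + M).toNat = n + M := by omega
    rw [e2, Function.iterate_add_apply]

end EXT

open EXT

theorem ext : T_EXT := by
  intro k X _ μ _ T hT f hf
  exact core X (Fin k → Set.Icc (-1 : ℝ) 1) μ T hT f hf

end Pool.Agent.SqF
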