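import Pool.Agent.SqF.Targets
import Pool.Agent.SqF.Basic

/-!
# MP_0b2319_an: assembly of the frozen statement
-/

set_option autoImplicit false

open MeasureTheory Filter Topology
open scoped ComplexConjugate

namespace Pool.Agent.SqF

namespace FINAL

/-- the fibre space -/
abbrev I1 : Type := Set.Icc (-1 : ℝ) 1

/-- the two-sided sequence space -/
abbrev Om (k : ℕ) : Type := ℤ → Fin k → I1

noncomputable instance sbs (k : ℕ) : StandardBorelSpace (Om k) := by
  have : PolishSpace I1 := isClosed_Icc.polishSpace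
  infer_instance

/-- the shift -/
def shf {k : ℕ} (n : ℤ) (ω : Om k) : Om k := fun j => ω (j + n)

lemma shf_meas {k : ℕ} (n : ℤ) : Measurable (shf (k := k) n) :=
  measurable_pi_lambda _ fun _ => measurable_pi_apply _

lemma shf_add {k : ℕ} (m n : ℤ) (ω : Om k) : shf (m + n) ω = shf m (shf n ω) := by
  funext j
  change ω (j + (m + n)) = ω (j + m + n)
  rw [add_assoc]

lemma shf_zero {k : ℕ} (ω : Om k) : shf 0 ω = ω := by
  unfold shf; simp

/-- measure preservation for all powers -/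
lemma shf_mp {k : ℕ} {ν : Measure (Om k)} (h : MeasurePreserving (fun ω n => ω (n + 1)) ν ν)
    (n : ℤ) : MeasurePreserving (shf (k := k) n) ν ν := by
  have h1 : MeasurePreserving (shf (k := k) 1) ν ν := h
  have hnat : ∀ n : ℕ, MeasurePreserving (shf (k := k) n) ν ν := by
    intro n
    induction n with
    | zero =>
      have : shf (k := k) ((0 : ℕ) : ℤ) = id := by ext1 ω; exact shf_zero ω
      rw [this]; exact MeasurePreserving.id _
    | succ n ih =>
      have : shf (k := k) ((n + 1 : ℕ) : ℤ) = shf (n : ℤ) ∘ shf 1 := by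
        ext1 ω; push_cast; exact shf_add _ _ ω
      rw [this]; exact ih.comp h1
  obtain ⟨m, rfl | rfl⟩ := n.eq_nat_or_neg
  · exact hnat m
  · let E : Om k ≃ᵐ Om k :=
      { toFun := shf m
        invFun := shf (-m)
        left_inv := fun ω => by rw [← shf_add]; simp [shf_zero]
        right_inv := fun ω => by rw [← shf_add]; simp [shf_zero]
        measurable_toFun := shf_meas _
        measurable_invFun := shf_meas _ }
    have hE : MeasurePreserving E ν ν := hnat m
    exact hE.symm E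

/-- the action on the sequence space -/
def shSys {k : ℕ} {ν : Measure (Om k)} (h : MeasurePreserving (fun ω n => ω (n + 1)) ν ν) :
    Sys (Om k) ν where
  φ := shf
  zero := shf_zero
  add := shf_add
  mp := shf_mp h

/-- window averages on the original space -/
noncomputable def A {X : Type} {k : ℕ} (T : X → X) (c : Fin k → ℝ) (f : Fin k → X → ℝ) (N : ℕ)
    (x : X) : ℝ :=
  (L N : ℝ)⁻¹ * ∑ n ∈ W N, ∏ i, f i (T^[(b (c i) n).toNat] x)

lemma b_nonneg (c : ℝ) (n : ℕ) : 0 ≤ b c n := sq_nonneg _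

/-- the Cauchy property for functions bounded by one and increasing exponents -/
lemma cauchy_core (hWC : ∀ k, T_WC k) (hEXT : T_EXT) {X : Type} [MeasurableSpace X]
    (μ : Measure X) [IsProbabilityMeasure μ] (T : X → X) (hT : MeasurePreserving T μ μ) {k : ℕ}
    (c : Fin k → ℝ) (hc : Exps c) (f : Fin k → X → ℝ) (hf : ∀ i, Measurable (f i))
    (hf1 : ∀ i x, f i x ∈ Set.Icc (-1 : ℝ) 1) :
    Tendsto (fun p : ℕ × ℕ => ∫ x, (A T c f p.1 x - A T c f p.2 x) ^ 2 ∂μ) atTop (𝓝 0) := by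
  classical
  let F : X → Fin k → I1 := fun x i => ⟨f i x, hf1 i x⟩
  have hF : Measurable F := measurable_pi_lambda _ fun i => (hf i).subtype_mk
  obtain ⟨ν, hν, hsh, hcor⟩ := hEXT k X μ T hT F hF
  let S := shSys hsh
  let g : Fin k → Om k → ℂ := fun i ω => ((ω 0 i : ℝ) : ℂ)
  have hg : ∀ i, B1 (g i) := by
    intro i
    refine ⟨?_, fun ω => ?_⟩
    · exact Complex.measurable_ofReal.comp (measurable_subtype_coe.comp
        ((measurable_pi_apply i).comp (measurable_pi_apply (0 : ℤ))))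
    · rw [Complex.norm_real, Real.norm_eq_abs, abs_le]
      exact ⟨(ω 0 i).2.1, (ω 0 i).2.2⟩
  have key := hWC k (Om k) ν S c hc g hg
  -- the continuous function on one-sided sequences
  let R : ℕ → (ℕ → Fin k → I1) → ℝ := fun N η =>
    (L N : ℝ)⁻¹ * ∑ n ∈ W N, ∏ i, (η (b (c i) n).toNat i : ℝ)
  have hR : ∀ N, Continuous (R N) := by
    intro N
    refine continuous_const.mul (continuous_finsetSum _ fun n _ =>
      continuous_finsetProd _ fun i _ => ?_)
    exact continuous_subtype_val.comp ((continuous_apply i).comp (continuous_apply _))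
  have e1 : ∀ N x, R N (fun n => F (T^[n] x)) = A T c f N x := by
    intro N x; rfl
  have e2 : ∀ N (ω : Om k), mav S (fun i => b (c i)) (fun _ => 1) g N ω =
      ((R N (fun n => ω (n : ℤ)) : ℝ) : ℂ) := by
    intro N ω
    simp only [mav, av, R, S, shSys, shf, g]
    push_cast
    congr 1
    refine Finset.sum_congr rfl fun n _ => ?_
    rw [one_mul]
    refine Finset.prod_congr rfl fun i _ => ?_
    rw [Int.toNat_of_nonneg (b_nonneg _ _), zero_add]
  refine key.congr fun p => ?_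
  unfold Q
  have h3 := hcor (fun η => (R p.1 η - R p.2 η) ^ 2) (((hR _).sub (hR _)).pow 2)
  simp only [e1] at h3
  rw [h3]
  congr 1; ext ω
  simp only [e2]
  rw [← Complex.ofReal_sub, Complex.norm_real, Real.norm_eq_abs, sq_abs]

/-- the norm in `L^2` -/
lemma norm_toLp_sq {X : Type} [MeasurableSpace X] {μ : Measure X} {F : X → ℝ}
    (hF : MemLp F 2 μ) : ‖hF.toLp F‖ ^ 2 = ∫ x, F x ^ 2 ∂μ := by
  rw [← real_inner_self_eq_norm_sq, L2.inner_def]
  refine integral_congr_ae ?_
  filter_upwards [hF.coeFn_toLp] with x hx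
  rw [hx]
  simp [pow_two]

end FINAL

open FINAL in
/-- the frozen statement -/
theorem final (hWC : ∀ k, T_WC k) (hEXT : T_EXT) (hBLOCK : T_BLOCK) :
    ∀ (k : ℕ) (c : Fin k → ℝ), Function.Injective c →
      (∀ i, 0 < c i ∧ ∀ m : ℤ, c i ≠ (m : ℝ)) →
      ∀ (X : Type) [MeasurableSpace X] (μ : MeasureTheory.Measure X)
        [MeasureTheory.IsProbabilityMeasure μ] (T : X → X),
        MeasureTheory.MeasurePreserving T μ μ →
        ∀ f : Fin k → X → ℝ, (∀ i, Measurable (f i)) →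
          (∀ i, ∃ C : ℝ, ∀ x, |f i x| ≤ C) →
          ∃ g : X → ℝ, MeasureTheory.MemLp g 2 μ ∧
            Filter.Tendsto
              (fun N : ℕ => MeasureTheory.eLpNorm
                (fun x => (1 / (N : ℝ)) * ∑ n ∈ Finset.Icc 1 N,
                    ∏ i : Fin k, f i (T^[⌊(n : ℝ) ^ c i⌋₊ ^ 2] x) - g x) 2 μ)
              Filter.atTop (nhds 0) := by
  classical
  intro k c hinj hc X _ μ _ T hT f hf hfb
  choose C0 hC0 using hfb
  -- a common bound
  set C : ℝ := 1 + ∑ i, |C0 i| with hC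
  have hCpos : 0 < C := by positivity
  have hfC : ∀ i x, |f i x| ≤ C := by
    intro i x
    have h1 : |C0 i| ≤ ∑ i, |C0 i| :=
      Finset.single_le_sum (f := fun i => |C0 i|) (fun i _ => abs_nonneg _) (Finset.mem_univ i)
    linarith [hC0 i x, le_abs_self (C0 i)]
  -- sorting
  set σ : Equiv.Perm (Fin k) := Tuple.sort c with hσ
  have hmono : StrictMono (c ∘ σ) :=
    (Tuple.monotone_sort c).strictMono_of_injective (hinj.comp σ.injective)
  have hE : Exps (c ∘ σ) := ⟨hmono, fun i => (hc _).1, fun i => (hc _).2⟩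
  set F : Fin k → X → ℝ := fun i x => f (σ i) x / C with hF
  have hFm : ∀ i, Measurable (F i) := fun i => (hf _).div_const _
  have hF1 : ∀ i x, F i x ∈ Set.Icc (-1 : ℝ) 1 := by
    intro i x
    rw [Set.mem_Icc, ← abs_le, hF]
    simp only
    rw [abs_div, abs_of_pos hCpos, div_le_one hCpos]
    exact hfC _ x
  have key := cauchy_core hWC hEXT μ T hT (c ∘ σ) hE F hFm hF1
  -- the terms
  set a : ℕ → X → ℝ := fun n x => ∏ i : Fin k, f i (T^[⌊(n : ℝ) ^ c i⌋₊ ^ 2] x) with ha
  have ham : ∀ n, Measurable (a n) := fun n =>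
    Finset.measurable_prod _ fun i _ => (hf i).comp (hT.measurable.iterate _)
  have hab : ∀ n x, ‖a n x‖ ≤ C ^ k := by
    intro n x
    rw [ha, Real.norm_eq_abs]
    simp only
    rw [Finset.abs_prod]
    calc ∏ i, |f i (T^[⌊(n : ℝ) ^ c i⌋₊ ^ 2] x)| ≤ ∏ _i : Fin k, C :=
          Finset.prod_le_prod (fun i _ => abs_nonneg _) fun i _ => hfC i _
      _ = C ^ k := by simp
  have haLp : ∀ n, MemLp (a n) 2 μ := fun n =>
    MemLp.of_bound (ham n).aestronglyMeasurable (C ^ k) (Eventually.of_forall (hab n))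
  have haA : ∀ N x, (L N : ℝ)⁻¹ * ∑ n ∈ W N, a n x = C ^ k * A T (c ∘ σ) F N x := by
    intro N x
    have hterm : ∀ n, a n x = C ^ k * ∏ i, F i (T^[(b ((c ∘ σ) i) n).toNat] x) := by
      intro n
      have h1 : ∀ i, f (σ i) (T^[(b ((c ∘ σ) i) n).toNat] x) =
          C * F i (T^[(b ((c ∘ σ) i) n).toNat] x) := by
        intro i; rw [hF]; field_simp
      have h2 : a n x = ∏ i, f (σ i) (T^[(b ((c ∘ σ) i) n).toNat] x) := by
        rw [ha]
        simp only
        rw [← Equiv.prod_comp σ]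
        refine Finset.prod_congr rfl fun i _ => ?_
        have h3 : (b ((c ∘ σ) i) n).toNat = ⌊(n : ℝ) ^ c (σ i)⌋₊ ^ 2 := by
          have h4 : ((⌊(n : ℝ) ^ c (σ i)⌋₊ : ℕ) : ℤ) = ⌊(n : ℝ) ^ c (σ i)⌋ :=
            Int.natCast_floor_eq_floor (by positivity)
          unfold b
          rw [Function.comp_apply, ← h4]
          norm_cast
        rw [h3]
      rw [h2, Finset.prod_congr rfl fun i _ => h1 i, Finset.prod_mul_distrib]
      simp
    unfold A
    rw [Finset.sum_congr rfl fun n _ => hterm n, ← Finset.mul_sum]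
    ring
  -- vectors in L^2
  set v : ℕ → Lp ℝ 2 μ := fun n => (haLp n).toLp (a n) with hv
  have hvb : ∀ n, ‖v n‖ ≤ C ^ k := by
    intro n
    have h1 : ‖v n‖ ^ 2 ≤ (C ^ k) ^ 2 := by
      rw [hv]
      simp only
      rw [norm_toLp_sq]
      have h2 := norm_integral_le_of_norm_le_const (μ := μ) (f := fun x => a n x ^ 2)
        (C := (C ^ k) ^ 2) (Eventually.of_forall fun x => by
          rw [norm_pow]; exact pow_le_pow_left₀ (norm_nonneg _) (hab n x) 2)
      simp only [probReal_univ, mul_one] at h2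
      exact (le_abs_self _).trans h2
    exact le_of_sq_le_sq h1 (by positivity)
  set V2 : ℕ → Lp ℝ 2 μ := fun N => (L N : ℝ)⁻¹ • ∑ n ∈ W N, v n with hV2
  have hV2ae : ∀ N, (V2 N : X → ℝ) =ᵐ[μ] fun x => (L N : ℝ)⁻¹ * ∑ n ∈ W N, a n x := by
    intro N
    have h1 : ∀ᵐ x ∂μ, ∀ n, (v n : X → ℝ) x = a n x :=
      ae_all_iff.mpr fun n => (haLp n).coeFn_toLp
    have h3 : ∀ᵐ x ∂μ, ((∑ n ∈ W N, v n : Lp ℝ 2 μ) : X → ℝ) x = ∑ n ∈ W N, (v n : X → ℝ) x := by
      have := Lp.coeFn_finsetSum (W N) v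
      filter_upwards [this] with x hx
      rw [hx, Finset.sum_apply]
    filter_upwards [h1, Lp.coeFn_smul (L N : ℝ)⁻¹ (∑ n ∈ W N, v n), h3] with x hx1 hx2 hx3
    rw [hV2]
    simp only
    rw [hx2, Pi.smul_apply, hx3, smul_eq_mul, Finset.sum_congr rfl fun n _ => hx1 n]
  have hdist : ∀ p : ℕ × ℕ, ‖V2 p.1 - V2 p.2‖ ^ 2 =
      (C ^ k) ^ 2 * ∫ x, (A T (c ∘ σ) F p.1 x - A T (c ∘ σ) F p.2 x) ^ 2 ∂μ := by
    intro p
    rw [← real_inner_self_eq_norm_sq, L2.inner_def, ← integral_const_mul]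
    refine integral_congr_ae ?_
    filter_upwards [Lp.coeFn_sub (V2 p.1) (V2 p.2), hV2ae p.1, hV2ae p.2] with x h1 h2 h3
    rw [h1, Pi.sub_apply, h2, h3, haA, haA]
    simp only [RCLike.inner_apply, conj_trivial]
    ring
  have hcau : CauchySeq V2 := by
    rw [cauchySeq_iff_tendsto_dist_atTop_0]
    have h1 : Tendsto (fun p : ℕ × ℕ => ‖V2 p.1 - V2 p.2‖ ^ 2) atTop (𝓝 0) := by
      have := key.const_mul ((C ^ k) ^ 2)
      rw [mul_zero] at this
      exact this.congr fun p => (hdist p).symm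
    have h2 := h1.sqrt
    rw [Real.sqrt_zero] at h2
    refine h2.congr fun p => ?_
    rw [Real.sqrt_sq (norm_nonneg _), dist_eq_norm]
  obtain ⟨G, hG⟩ := cauchySeq_tendsto_of_complete hcau
  have hwin : Tendsto (fun N => (L N : ℝ)⁻¹ • ∑ n ∈ W N, (v n - G)) atTop (𝓝 0) := by
    have h1 : Tendsto (fun N => V2 N - G) atTop (𝓝 0) := by
      have := hG.sub_const G
      rwa [sub_self] at this
    refine h1.congr fun N => ?_
    rw [Finset.sum_sub_distrib, Finset.sum_const, card_W, smul_sub, ← Nat.cast_smul_eq_nsmul ℝ,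
      smul_smul, inv_mul_cancel₀ (L_pos' N).ne', one_smul]
  have hces := hBLOCK (Lp ℝ 2 μ) (fun n => v n - G) (C ^ k + ‖G‖)
    (fun n => (norm_sub_le _ _).trans (by gcongr; exact hvb n)) hwin
  refine ⟨G, Lp.memLp G, ?_⟩
  -- convert to eLpNorm
  have hmem : ∀ N : ℕ, MemLp (fun x => (1 / (N : ℝ)) * ∑ n ∈ Finset.Icc 1 N, a n x) 2 μ :=
    fun N => (memLp_finsetSum _ fun n _ => haLp n).const_mul _
  have hlp : Tendsto (fun N : ℕ => (hmem N).toLp _) atTop (𝓝 G) := by
    rw [tendsto_iff_norm_sub_tendsto_zero]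
    have h1 := hces.norm
    rw [norm_zero] at h1
    refine h1.congr' ?_
    filter_upwards [eventually_ge_atTop 1] with N hN
    congr 1
    have hN' : (N : ℝ) ≠ 0 := by positivity
    have h2 : (hmem N).toLp _ = (N : ℝ)⁻¹ • ∑ n ∈ Finset.Icc 1 N, v n := by
      refine Lp.ext ?_
      have h1 : ∀ᵐ x ∂μ, ∀ n, (v n : X → ℝ) x = a n x :=
        ae_all_iff.mpr fun n => (haLp n).coeFn_toLp
      filter_upwards [(hmem N).coeFn_toLp, h1, Lp.coeFn_smul (N : ℝ)⁻¹
        (∑ n ∈ Finset.Icc 1 N, v n), Lp.coeFn_finsetSum (Finset.Icc 1 N) v] with x hx0 hx1 hx2 hx3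
      rw [hx0, hx2, Pi.smul_apply, hx3, Finset.sum_apply, smul_eq_mul,
        Finset.sum_congr rfl fun n _ => hx1 n, one_div]
    rw [h2, Finset.sum_sub_distrib, Finset.sum_const, Nat.card_Icc, Nat.add_sub_cancel, smul_sub,
      ← Nat.cast_smul_eq_nsmul ℝ, smul_smul, inv_mul_cancel₀ hN', one_smul]
  have h5 := (Lp.tendsto_Lp_iff_tendsto_eLpNorm'' _ hmem G (Lp.memLp G)).mp
    (by rw [Lp.toLp_coeFn]; exact hlp)
  exact h5

end Pool.Agent.SqF
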