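import Pool.Agent.SqF.Targets

/-!
# MP_0b2319_an: functions with finitely many branches of derivatives (SQF-GP)
-/

set_option autoImplicit false

open Polynomial

namespace Pool.Agent.SqF

namespace GPf

/-- no branches: no function of positive degree -/
lemma pos {j B : ℕ} {G : ℤ → ℤ} (h : GP (j + 1) B G) : 0 < B := by
  obtain ⟨F, -, hF⟩ := h 0
  obtain ⟨i, -⟩ := hF 0
  exact i.pos

/-- more branches -/
lemma monoB {B B' : ℕ} (hB : B ≤ B') : ∀ {j : ℕ} {G : ℤ → ℤ}, GP j B G → GP j B' G := by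
  intro j
  induction j with
  | zero => intro G h; exact h
  | succ j ih =>
    intro G h r
    have hp := pos h
    obtain ⟨F, hF1, hF2⟩ := h r
    refine ⟨fun i => F ⟨min i.1 (B - 1), by omega⟩, fun i => ih (hF1 _), fun x => ?_⟩
    obtain ⟨i, hi⟩ := hF2 x
    refine ⟨⟨i.1, lt_of_lt_of_le i.2 hB⟩, ?_⟩
    rw [hi]
    congr 1
    apply Fin.ext
    have := i.2
    simp only
    omega

/-- the degree may be raised by one -/
lemma succJ {B : ℕ} (hB : 1 ≤ B) : ∀ {j : ℕ} {G : ℤ → ℤ}, GP j B G → GP (j + 1) B G := by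
  intro j
  induction j with
  | zero =>
    intro G h r
    obtain ⟨a, ha⟩ := h
    refine ⟨fun _ _ => 0, fun _ => ⟨0, fun _ => rfl⟩, fun x => ⟨⟨0, hB⟩, ?_⟩⟩
    rw [ha, ha, sub_self]
  | succ j ih =>
    intro G h r
    obtain ⟨F, hF1, hF2⟩ := h r
    exact ⟨F, fun i => ih (hF1 i), hF2⟩

lemma monoJ {B j j' : ℕ} (hB : 1 ≤ B) (hj : j ≤ j') {G : ℤ → ℤ} (h : GP j B G) : GP j' B G := by
  obtain ⟨d, rfl⟩ := Nat.exists_eq_add_of_le hj
  induction d with
  | zero => exact h
  | succ d ih => exact succJ hB (ih (Nat.le_add_right _ _))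

/-- multiplication by a constant -/
lemma cmul (a : ℤ) : ∀ {j B : ℕ} {G : ℤ → ℤ}, GP j B G → GP j B (fun h => a * G h) := by
  intro j B
  induction j with
  | zero =>
    rintro G ⟨c, hc⟩
    exact ⟨a * c, fun h => by simp only [hc]⟩
  | succ j ih =>
    intro G h r
    obtain ⟨F, hF1, hF2⟩ := h r
    refine ⟨fun i x => a * F i x, fun i => ih (hF1 i), fun x => ?_⟩
    obtain ⟨i, hi⟩ := hF2 x
    exact ⟨i, by simp only [← hi]; ring⟩

/-- branches indexed by an arbitrary finite type -/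
lemma of_fintype {j B : ℕ} {G : ℤ → ℤ} (T : Type) [Fintype T] [Nonempty T]
    (hT : Fintype.card T ≤ B)
    (h : ∀ r : ℤ, ∃ F : T → ℤ → ℤ, (∀ t, GP j B (F t)) ∧ ∀ x, ∃ t, G (x + r) - G x = F t x) :
    GP (j + 1) B G := by
  intro r
  obtain ⟨F, hF1, hF2⟩ := h r
  let e := Fintype.equivFin T
  have hpos : 0 < Fintype.card T := Fintype.card_pos
  refine ⟨fun i => F (e.symm ⟨min i.1 (Fintype.card T - 1), by omega⟩), fun i => hF1 _,
    fun x => ?_⟩
  obtain ⟨t, ht⟩ := hF2 x
  refine ⟨⟨(e t).1, lt_of_lt_of_le (e t).2 hT⟩, ?_⟩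
  rw [ht]
  have h1 : (⟨min (e t).1 (Fintype.card T - 1), by omega⟩ : Fin (Fintype.card T)) = e t := by
    apply Fin.ext
    have := (e t).2
    simp only
    omega
  simp only [h1, Equiv.symm_apply_apply]

lemma add {B B' : ℕ} : ∀ {j : ℕ} {G G' : ℤ → ℤ}, GP j B G → GP j B' G' →
    GP j (B * B') (fun h => G h + G' h) := by
  intro j
  induction j with
  | zero =>
    rintro G G' ⟨a, ha⟩ ⟨a', ha'⟩
    exact ⟨a + a', fun h => by simp only [ha, ha']⟩
  | succ j ih =>
    intro G G' h h'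
    have hp := pos h
    have hp' := pos h'
    have : Nonempty (Fin B × Fin B') := ⟨(⟨0, hp⟩, ⟨0, hp'⟩)⟩
    apply of_fintype (Fin B × Fin B') (by simp)
    intro r
    obtain ⟨F, hF1, hF2⟩ := h r
    obtain ⟨F', hF1', hF2'⟩ := h' r
    refine ⟨fun t x => F t.1 x + F' t.2 x, fun t => ih (hF1 t.1) (hF1' t.2), fun x => ?_⟩
    obtain ⟨i, hi⟩ := hF2 x
    obtain ⟨i', hi'⟩ := hF2' x
    refine ⟨(i, i'), ?_⟩
    simp only [← hi, ← hi']
    ring

lemma mul (n : ℕ) : ∀ (j j' : ℕ), j + j' = n → ∀ B B' : ℕ, ∃ B'' : ℕ, 1 ≤ B'' ∧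
    ∀ G G' : ℤ → ℤ, GP j B G → GP j' B' G' → GP (j + j') B'' (fun h => G h * G' h) := by
  induction n using Nat.strong_induction_on with
  | _ n ih =>
  intro j j' hn B B'
  cases j with
  | zero =>
    refine ⟨B' + 1, by omega, ?_⟩
    rintro G G' ⟨a, ha⟩ h'
    rw [Nat.zero_add]
    have h1 := monoB (Nat.le_succ B') (cmul a h')
    simp only [ha]
    exact h1
  | succ a =>
    cases j' with
    | zero =>
      refine ⟨B + 1, by omega, ?_⟩
      rintro G G' h ⟨c, hc⟩
      have h1 := monoB (Nat.le_succ B) (cmul c h)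
      have e1 : (fun h => G h * G' h) = fun h => c * G h := by
        funext x
        rw [hc, mul_comm]
      rw [e1]
      exact h1
    | succ b =>
      obtain ⟨B1, hB1, h1⟩ := ih (a + 1 + b) (by omega) (a + 1) b rfl B B'
      obtain ⟨B2, hB2, h2⟩ := ih (a + (b + 1)) (by omega) a (b + 1) rfl B B'
      obtain ⟨B3, hB3, h3⟩ := ih (a + b) (by omega) a b rfl B B'
      refine ⟨B * B' + B1 * B2 * B3, ?_, ?_⟩
      · have : 0 < B1 * B2 * B3 := by positivity
        omega
      · intro G G' h h'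
        have hp := pos h
        have hp' := pos h'
        have : Nonempty (Fin B × Fin B') := ⟨(⟨0, hp⟩, ⟨0, hp'⟩)⟩
        change GP ((a + 1 + b) + 1) _ _
        apply of_fintype (Fin B × Fin B') (by simp)
        intro r
        obtain ⟨F, hF1, hF2⟩ := h r
        obtain ⟨F', hF1', hF2'⟩ := h' r
        refine ⟨fun t x => (G x * F' t.2 x + F t.1 x * G' x) + F t.1 x * F' t.2 x,
          fun t => ?_, fun x => ?_⟩
        · have k1 := h1 G (F' t.2) h (hF1' t.2)
          have k2 := h2 (F t.1) G' (hF1 t.1) h'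
          have k3 := h3 (F t.1) (F' t.2) (hF1 t.1) (hF1' t.2)
          have k2' : GP (a + 1 + b) B2 (fun h => F t.1 h * G' h) := by
            have e1 : a + (b + 1) = a + 1 + b := by omega
            rw [e1] at k2
            exact k2
          have k3' : GP (a + 1 + b) B3 (fun h => F t.1 h * F' t.2 h) :=
            monoJ hB3 (by omega) k3
          exact monoB (Nat.le_add_left _ _) (add (add k1 k2') k3')
        · obtain ⟨i, hi⟩ := hF2 x
          obtain ⟨i', hi'⟩ := hF2' x
          refine ⟨(i, i'), ?_⟩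
          simp only [← hi, ← hi']
          ring

/-! ## Polynomials -/

lemma natDegree_diff {R : Type} [CommRing R] (p : R[X]) (r : R) (j : ℕ)
    (hp : p.natDegree ≤ j + 1) : (taylor r p - p).natDegree ≤ j := by
  rw [natDegree_le_iff_coeff_eq_zero]
  intro N hN
  rw [coeff_sub]
  rcases Nat.lt_or_ge (j + 1) N with h1 | h1
  · rw [coeff_eq_zero_of_natDegree_lt (lt_of_le_of_lt hp h1),
      coeff_eq_zero_of_natDegree_lt, sub_zero]
    rw [natDegree_taylor]
    exact lt_of_le_of_lt hp h1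
  · have h2 : N = j + 1 := by omega
    subst h2
    rcases Nat.lt_or_ge p.natDegree (j + 1) with h3 | h3
    · rw [coeff_eq_zero_of_natDegree_lt h3, coeff_eq_zero_of_natDegree_lt, sub_zero]
      rw [natDegree_taylor]
      exact h3
    · have h4 : p.natDegree = j + 1 := le_antisymm hp h3
      rw [← h4, coeff_taylor_natDegree, coeff_natDegree, sub_self]

lemma poly : ∀ (j : ℕ) (p : ℤ[X]), p.natDegree ≤ j → GP j 1 (fun h => p.eval h) := by
  intro j
  induction j with
  | zero =>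
    intro p hp
    refine ⟨p.coeff 0, fun h => ?_⟩
    have h1 : p = C (p.coeff 0) := eq_C_of_natDegree_le_zero hp
    simp only
    rw [h1, eval_C, coeff_C_zero]
  | succ j ih =>
    intro p hp r
    refine ⟨fun _ x => (taylor r p - p).eval x, fun _ => ih _ (natDegree_diff p r j hp),
      fun x => ⟨0, ?_⟩⟩
    simp only
    rw [eval_sub, taylor_eval]

lemma floor : ∀ (j : ℕ) (p : ℝ[X]), p.natDegree ≤ j → ∀ a : ℤ,
    GP j 2 (fun h : ℤ => ⌊p.eval (h : ℝ)⌋ + a) := by
  intro j
  induction j with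
  | zero =>
    intro p hp a
    refine ⟨⌊p.coeff 0⌋ + a, fun h => ?_⟩
    have h1 : p = C (p.coeff 0) := eq_C_of_natDegree_le_zero hp
    simp only
    rw [h1, eval_C, coeff_C_zero]
  | succ j ih =>
    intro p hp a r
    have hd := natDegree_diff p (r : ℝ) j hp
    refine ⟨fun i x => ⌊(taylor (r : ℝ) p - p).eval (x : ℝ)⌋ + ((i : ℕ) : ℤ), fun i => ih _ hd _,
      fun x => ?_⟩
    have h1 : p.eval ((x + r : ℤ) : ℝ) = (taylor (r : ℝ) p - p).eval (x : ℝ) + p.eval (x : ℝ) := by
      rw [eval_sub, taylor_eval]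
      push_cast
      ring
    set y := (taylor (r : ℝ) p - p).eval (x : ℝ) with hy
    set z := p.eval (x : ℝ) with hz
    have h2 : ⌊y⌋ + ⌊z⌋ ≤ ⌊y + z⌋ := Int.le_floor_add y z
    have h3 : ⌊y + z⌋ ≤ ⌊y⌋ + ⌊z⌋ + 1 := by
      have := Int.le_floor_add_floor y z
      omega
    rcases lt_or_ge ⌊y + z⌋ (⌊y⌋ + ⌊z⌋ + 1) with h4 | h4
    · refine ⟨0, ?_⟩
      simp only [h1, ← hy, ← hz]
      rw [Fin.val_zero]
      push_cast
      omega
    · refine ⟨1, ?_⟩
      simp only [h1, ← hy, ← hz]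
      rw [Fin.val_one]
      push_cast
      omega

lemma eval_sum' {R : Type} [CommRing R] (j : ℕ) (k : ℕ → R) (x : R) :
    (∑ i ∈ Finset.range (j + 1), C (k i) * X ^ i : R[X]).eval x =
      ∑ i ∈ Finset.range (j + 1), k i * x ^ i := by
  rw [eval_finsetSum]
  refine Finset.sum_congr rfl fun i _ => ?_
  rw [eval_mul, eval_C, eval_pow, eval_X]

lemma natDegree_sum' {R : Type} [CommRing R] (j : ℕ) (k : ℕ → R) :
    (∑ i ∈ Finset.range (j + 1), C (k i) * X ^ i : R[X]).natDegree ≤ j := by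
  apply natDegree_sum_le_of_forall_le
  intro i hi
  exact (natDegree_C_mul_X_pow_le _ _).trans (Nat.lt_succ_iff.1 (Finset.mem_range.1 hi))

lemma dmono (D : ℕ) (k r : ℤ) (hD : 2 ≤ D) :
    (C k * (X + C r) ^ D - C k * X ^ D - C (k * D * r) * X ^ (D - 1) : ℤ[X]).natDegree ≤ D - 2 := by
  rw [natDegree_le_iff_coeff_eq_zero]
  intro N hN
  rw [coeff_sub, coeff_sub, coeff_C_mul, coeff_X_add_C_pow, coeff_C_mul_X_pow, coeff_C_mul_X_pow]
  rcases Nat.lt_trichotomy N (D - 1) with h | h | h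
  · omega
  · subst h
    have e1 : D - (D - 1) = 1 := by omega
    have e2 : D.choose (D - 1) = D := by
      obtain ⟨d, rfl⟩ : ∃ d, D = d + 1 := ⟨D - 1, by omega⟩
      rw [Nat.add_sub_cancel, Nat.choose_succ_self_right]
    rw [if_neg (by omega), if_pos rfl, e1, e2, pow_one]
    ring
  · rw [if_neg (by omega : ¬ N = D - 1), sub_zero]
    by_cases h2 : N = D
    · subst h2
      rw [if_pos rfl, Nat.sub_self, pow_zero, Nat.choose_self]
      push_cast
      ring
    · rw [if_neg h2, Nat.choose_eq_zero_of_lt (by omega)]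
      push_cast
      ring

end GPf

open GPf

theorem gp_mono : T_GP_mono := fun _ _ _ _ _ hj hB hBB h => monoB hBB (monoJ hB hj h)

theorem gp_shift : T_GP_shift := by
  intro j B G s
  induction j generalizing G with
  | zero =>
    rintro ⟨a, ha⟩
    exact ⟨a, fun h => ha _⟩
  | succ j ih =>
    intro h r
    obtain ⟨F, hF1, hF2⟩ := h r
    refine ⟨fun i x => F i (x + s), fun i => ih _ (hF1 i), fun x => ?_⟩
    obtain ⟨i, hi⟩ := hF2 (x + s)
    refine ⟨i, ?_⟩
    have e1 : x + r + s = x + s + r := by ring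
    simp only [e1]
    exact hi

theorem gp_neg : T_GP_neg := by
  intro j B G h
  have h1 := GPf.cmul (-1) h
  simp only [neg_mul, one_mul] at h1
  exact h1

theorem gp_add : T_GP_add := fun _ _ _ _ _ h h' => GPf.add h h'

theorem gp_mul : T_GP_mul := fun j j' B B' => GPf.mul (j + j') j j' rfl B B'

theorem gp_poly : T_GP_poly := by
  intro j k
  have h1 := GPf.poly j _ (GPf.natDegree_sum' j k)
  simp only [GPf.eval_sum'] at h1
  exact h1

theorem gp_floor : T_GP_floor := by
  intro j θ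
  have h1 := GPf.floor j _ (GPf.natDegree_sum' j θ) 0
  simp only [GPf.eval_sum', add_zero] at h1
  exact h1

theorem gp_dmono : T_GP_dmono := by
  intro D k r hD
  have h1 := GPf.poly (D - 2) _ (GPf.dmono D k r hD)
  simp only [eval_sub, eval_mul, eval_C, eval_pow, eval_add, eval_X] at h1
  exact h1

end Pool.Agent.SqF
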