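import Pool.Agent.SqF.Targets
import Pool.Agent.SqF.Basic

/-!
# MP_0b2319_an: totally uniform functions do not contribute at the top exponent (SQF-H1)
-/

set_option autoImplicit false

open MeasureTheory Filter Topology
open scoped ComplexConjugate

namespace Pool.Agent.SqF

theorem h1 (hw : T_H1W) (hsh : T_WSH) : T_H1 := by
  intro X _ μ _ S m c cm hc hccm hcm hni w hw1 f hf hTU g hg
  obtain ⟨R, hR, hRη⟩ := hw X μ S m c cm hc hccm hcm hni f hf hTU
  set v : ℕ → X → ℂ := fun n x =>
    w n * (∏ i, g i (S.φ (b (c i) n) x)) * f (S.φ (b cm n) x) with hvdef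
  have hv : ∀ n, B1 (v n) := fun n =>
    ((B1.prod' Finset.univ fun i _ => (hg i).sh S _).const_mul' (hw1 n)).mul' (hf.sh S _)
  have hmain : ∀ ε > (0 : ℝ), ∀ᶠ N in atTop, Q μ (av N v) < ε := by
    intro ε hε
    obtain ⟨H, hH, hev⟩ := hRη (ε / 8) (by positivity)
    set δ := min 1 (ε / 8) with hδ
    have hδ0 : 0 < δ := lt_min one_pos (by positivity)
    have hδ2 : δ ^ 2 ≤ ε / 8 := by
      have h1 : δ ≤ 1 := min_le_left _ _
      have h2 : δ ≤ ε / 8 := min_le_right _ _
      nlinarith
    have hsh' : ∀ᶠ N in atTop, ∀ h ∈ Finset.range H, ∀ v' : ℕ → ℂ, (∀ n, ‖v' n‖ ≤ 1) →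
        ‖avs N v' - avs N (fun n => v' (n + R N * h))‖ ≤ δ := by
      rw [eventually_all_finset]
      intro h _
      exact hsh R hR h δ hδ0
    filter_upwards [hev, hsh'] with N hN1 hN2
    have hHr : (0 : ℝ) < H := by exact_mod_cast hH
    set z : ℕ → X → ℂ := fun n x => (H : ℂ)⁻¹ * ∑ h ∈ Finset.range H, v (n + R N * h) x with hz
    have hzb : ∀ n, Bd (z n) := fun n => (Bd.sum _ fun h _ => (hv _).bd).const_mul _
    have hav : Bd (av N v) := (B1.av' hv).bd
    have havz : Bd (av N z) := by
      unfold av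
      exact (Bd.sum _ fun n _ => hzb n).const_mul _
    have hz1 : Q μ (av N z) ≤ ε / 8 := by
      refine (Q_av_le hzb).trans ?_
      have h1 : ∑ n ∈ W N, Q μ (z n) ≤ ∑ n ∈ W N, ε / 8 :=
        Finset.sum_le_sum fun n hn => hN1 n hn w hw1 g hg
      rw [Finset.sum_const, card_W, nsmul_eq_mul] at h1
      have h2 := L_pos' N
      calc (L N : ℝ)⁻¹ * ∑ n ∈ W N, Q μ (z n) ≤ (L N : ℝ)⁻¹ * (L N * (ε / 8)) :=
            mul_le_mul_of_nonneg_left h1 (by positivity)
        _ = ε / 8 := by field_simp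
    have hD : ∀ x, ‖av N v x - av N z x‖ ≤ δ := by
      intro x
      have e1 : av N v x - av N z x = (H : ℂ)⁻¹ * ∑ h ∈ Finset.range H,
          (avs N (fun n => v n x) - avs N (fun n => v (n + R N * h) x)) := by
        have e2 : av N z x = (H : ℂ)⁻¹ * ∑ h ∈ Finset.range H, avs N (fun n => v (n + R N * h) x) := by
          change avs N (fun n => z n x) = _
          rw [hz, avs_mul_left, avs_sum]
        have e3 : av N v x = (H : ℂ)⁻¹ * ∑ h ∈ Finset.range H, avs N (fun n => v n x) := by
          rw [Finset.sum_const, Finset.card_range, nsmul_eq_mul, ← mul_assoc, inv_mul_cancel₀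
            (by exact_mod_cast hH.ne'), one_mul]
          rfl
        rw [e2, e3, Finset.sum_sub_distrib, mul_sub]
      rw [e1, norm_mul, norm_inv, Complex.norm_natCast]
      have h2 : ‖∑ h ∈ Finset.range H,
          (avs N (fun n => v n x) - avs N (fun n => v (n + R N * h) x))‖ ≤ H * δ := by
        calc _ ≤ ∑ h ∈ Finset.range H,
              ‖avs N (fun n => v n x) - avs N (fun n => v (n + R N * h) x)‖ := norm_sum_le _ _
          _ ≤ ∑ h ∈ Finset.range H, δ := Finset.sum_le_sum fun h hh =>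
              hN2 h hh (fun n => v n x) fun n => (hv n).le x
          _ = H * δ := by rw [Finset.sum_const, Finset.card_range, nsmul_eq_mul]
      calc (H : ℝ)⁻¹ * _ ≤ (H : ℝ)⁻¹ * (H * δ) := mul_le_mul_of_nonneg_left h2 (by positivity)
        _ = δ := by field_simp
    have h3 : Q μ (fun x => (av N v x - av N z x) + av N z x) ≤
        2 * Q μ (fun x => av N v x - av N z x) + 2 * Q μ (av N z) := Q_add_le (hav.sub havz) havz
    have h4 : Q μ (fun x => av N v x - av N z x) ≤ δ ^ 2 := Q_le_of_norm_le hD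
    have h5 : (fun x => (av N v x - av N z x) + av N z x) = av N v := by
      funext x; ring
    rw [h5] at h3
    linarith
  rw [tendsto_order]
  constructor
  · intro a ha
    filter_upwards with N
    exact lt_of_lt_of_le ha (Q_nonneg _)
  · intro a ha
    exact hmain a ha

end Pool.Agent.SqF
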