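import Pool.Agent.SqF.Targets
import Pool.Agent.SqF.Basic

/-!
# MP_0b2319_an: PET in one window
-/

set_option autoImplicit false

open MeasureTheory Filter Topology
open scoped ComplexConjugate

namespace Pool.Agent.SqF

namespace H1W

/-! ## GP functions -/

/-- polynomial with real coefficients -/
noncomputable def pl (k : ℕ) (θ : ℕ → ℝ) (h : ℝ) : ℝ := ∑ i ∈ Finset.range k, θ i * h ^ i

/-- integer parts of polynomials -/
noncomputable def fl (k : ℕ) (θ : ℕ → ℝ) (h : ℤ) : ℤ := ⌊pl k θ h⌋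

lemma gp_zero (hm : T_GP_mono) (j B : ℕ) (hB : 1 ≤ B) : GP j B (fun _ => 0) :=
  hm 0 j B B _ (Nat.zero_le _) hB le_rfl ⟨0, fun _ => rfl⟩

lemma fl_gp (hf : T_GP_floor) {k : ℕ} (hk : 1 ≤ k) (θ : ℕ → ℝ) : GP (k - 1) 2 (fl k θ) := by
  have h := hf (k - 1) θ
  rw [Nat.sub_add_cancel hk] at h
  exact h

/-- subtracting the leading term -/
lemma fl_succ {d : ℕ} {θ : ℕ → ℝ} (hθ : θ d = 1) (h : ℤ) :
    fl (d + 1) θ h - h ^ d = fl d θ h := by
  unfold fl pl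
  rw [Finset.sum_range_succ, hθ, one_mul]
  have : ∑ i ∈ Finset.range d, θ i * (h : ℝ) ^ i + (h : ℝ) ^ d =
      ∑ i ∈ Finset.range d, θ i * (h : ℝ) ^ i + ((h ^ d : ℤ) : ℝ) := by push_cast; ring
  rw [this, Int.floor_add_intCast]
  ring

/-- adding the leading term -/
lemma fl_succ' {d : ℕ} {θ : ℕ → ℝ} (hθ : θ d = 1) (h : ℤ) :
    fl (d + 1) θ h + h ^ d = fl (d + 1) (Function.update θ d 2) h := by
  unfold fl pl
  rw [Finset.sum_range_succ, Finset.sum_range_succ, hθ, one_mul, Function.update_self]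
  have e1 : ∑ i ∈ Finset.range d, (Function.update θ d 2) i * (h : ℝ) ^ i =
      ∑ i ∈ Finset.range d, θ i * (h : ℝ) ^ i := by
    refine Finset.sum_congr rfl fun i hi => ?_
    rw [Function.update_of_ne (Finset.mem_range.1 hi).ne]
  rw [e1]
  have : ∑ i ∈ Finset.range d, θ i * (h : ℝ) ^ i + 2 * (h : ℝ) ^ d =
      ∑ i ∈ Finset.range d, θ i * (h : ℝ) ^ i + (h : ℝ) ^ d + ((h ^ d : ℤ) : ℝ) := by
    push_cast; ring
  rw [this, Int.floor_add_intCast]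

/-- adding a constant -/
lemma fl_const {k : ℕ} (hk : 1 ≤ k) (θ : ℕ → ℝ) (a : ℤ) (h : ℤ) :
    fl k (fun i => θ i + if i = 0 then (a : ℝ) else 0) h = fl k θ h + a := by
  unfold fl pl
  rw [← Int.floor_add_intCast]
  congr 1
  simp_rw [add_mul]
  rw [Finset.sum_add_distrib]
  congr 1
  rw [Finset.sum_eq_single 0]
  · simp
  · intro i _ hi
    rw [if_neg hi, zero_mul]
  · intro h0
    exact absurd (Finset.mem_range.2 hk) h0

/-- the uniform bound for the number of branches -/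
lemma exists_B (hm : T_GP_mono) (hn : T_GP_neg) (ha : T_GP_add) (hmu : T_GP_mul)
    (hf : T_GP_floor) {d : ℕ} (hd : 1 ≤ d) : ∃ B : ℕ, 1 ≤ B ∧ ∀ θ θ' : ℕ → ℝ, θ d = 1 →
      GP (2 * d) B (fun h => fl (d + 1) θ h ^ 2) ∧
      GP (2 * d - 1) B (fun h => fl (d + 1) θ h ^ 2 - h ^ (2 * d)) ∧
      GP (2 * d - 1) B (fun h => fl d θ' h ^ 2) ∧
      GP (2 * d - 1) B (fun h => fl (d + 1) θ h ^ 2 - fl d θ' h ^ 2 - h ^ (2 * d)) := by
  obtain ⟨B1, hB1, h1⟩ := hmu d d 2 2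
  obtain ⟨B2, hB2, h2⟩ := hmu (d - 1) d 2 2
  obtain ⟨B3, hB3, h3⟩ := hmu (d - 1) (d - 1) 2 2
  have hB23 : 1 ≤ B2 * B3 := Nat.mul_pos hB2 hB3
  refine ⟨B1 + B2 + B3 + B2 * B3, by omega, fun θ θ' hθ => ?_⟩
  have g1 : GP d 2 (fl (d + 1) θ) := by
    have := fl_gp hf (Nat.le_add_left 1 d) θ
    rwa [Nat.add_sub_cancel] at this
  have g1' : GP d 2 (fl (d + 1) (Function.update θ d 2)) := by
    have := fl_gp hf (Nat.le_add_left 1 d) (Function.update θ d 2)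
    rwa [Nat.add_sub_cancel] at this
  have g2 : GP (d - 1) 2 (fl d θ) := fl_gp hf hd θ
  have g3 : GP (d - 1) 2 (fl d θ') := fl_gp hf hd θ'
  have e2 : (fun h : ℤ => fl (d + 1) θ h ^ 2 - h ^ (2 * d)) =
      fun h => fl d θ h * fl (d + 1) (Function.update θ d 2) h := by
    funext h
    rw [← fl_succ hθ, ← fl_succ' hθ]
    ring
  have q1 : GP (2 * d) B1 (fun h => fl (d + 1) θ h ^ 2) := by
    have := h1 _ _ g1 g1
    rw [← two_mul] at this
    simpa only [sq] using this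
  have q2 : GP (2 * d - 1) B2 (fun h => fl (d + 1) θ h ^ 2 - h ^ (2 * d)) := by
    rw [e2]
    have := h2 _ _ g2 g1'
    have e : d - 1 + d = 2 * d - 1 := by omega
    rwa [e] at this
  have q3 : GP (d - 1 + (d - 1)) B3 (fun h => fl d θ' h ^ 2) := by
    have := h3 _ _ g3 g3
    simpa only [sq] using this
  have q3' : GP (2 * d - 1) B3 (fun h => fl d θ' h ^ 2) :=
    hm _ _ _ _ _ (by omega) hB3 le_rfl q3
  refine ⟨hm _ _ _ _ _ le_rfl hB1 (by omega) q1, hm _ _ _ _ _ le_rfl hB2 (by omega) q2,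
    hm _ _ _ _ _ le_rfl hB3 (by omega) q3', ?_⟩
  have q4 := ha _ _ _ _ _ q2 (hn _ _ _ q3')
  refine hm _ _ _ _ _ le_rfl hB23 (by omega) ?_
  have e4 : (fun h : ℤ => fl (d + 1) θ h ^ 2 - fl d θ' h ^ 2 - h ^ (2 * d)) =
      fun h => fl (d + 1) θ h ^ 2 - h ^ (2 * d) + -(fl d θ' h ^ 2) := by
    funext h; ring
  rw [e4]
  exact q4

/-! ## The family -/

/-- the family of exponents in the window -/
noncomputable def fam (m d : ℕ) (c : Option (Fin m) → ℝ) (n r : ℕ) :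
    Fam (Option (Fin m)) (Option (Fin m)) where
  P j h := b (c j) (n + r * h.toNat)
  cl := id
  dg j := j.elim (2 * d) (fun _ => 2 * d - 1)
  i0 := none
  D _ := 2 * d
  k _ := 1

lemma fam_ok (hm : T_GP_mono) {m d B : ℕ} (hd : 1 ≤ d) (hB : 1 ≤ B)
    (hGP : ∀ θ θ' : ℕ → ℝ, θ d = 1 →
      GP (2 * d) B (fun h => fl (d + 1) θ h ^ 2) ∧
      GP (2 * d - 1) B (fun h => fl (d + 1) θ h ^ 2 - h ^ (2 * d)) ∧
      GP (2 * d - 1) B (fun h => fl d θ' h ^ 2) ∧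
      GP (2 * d - 1) B (fun h => fl (d + 1) θ h ^ 2 - fl d θ' h ^ 2 - h ^ (2 * d)))
    (c : Option (Fin m) → ℝ) (n r : ℕ) (A : Set ℤ) (θ : Option (Fin m) → ℕ → ℝ)
    (hθ : θ none d = 1)
    (h0 : ∀ h ∈ A, ⌊((n + r * h.toNat : ℕ) : ℝ) ^ c none⌋ = fl (d + 1) (θ none) h)
    (h1 : ∀ i, ∀ h ∈ A, ⌊((n + r * h.toNat : ℕ) : ℝ) ^ c (some i)⌋ = fl d (θ (some i)) h) :
    (fam m d c n r).Ok 1 B A where
  dg_pos j := by
    rcases j with _ | i
    · show 1 ≤ 2 * d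
      omega
    · show 1 ≤ 2 * d - 1
      omega
  dg_le j := by
    rcases j with _ | i
    · exact le_rfl
    · exact Nat.sub_le _ _
  D0 := rfl
  gp j := by
    rcases j with _ | i
    · exact ⟨_, (hGP (θ none) (θ none) hθ).1, fun h hh => by
        show ⌊((n + r * h.toNat : ℕ) : ℝ) ^ c none⌋ ^ 2 = _
        rw [h0 h hh]⟩
    · exact ⟨_, (hGP (θ none) (θ (some i)) hθ).2.2.1, fun h hh => by
        show ⌊((n + r * h.toNat : ℕ) : ℝ) ^ c (some i)⌋ ^ 2 = _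
        rw [h1 i h hh]⟩
  same j j' h := by
    have hj : j = j' := h
    subst hj
    exact ⟨_, gp_zero hm _ B hB, fun h _ => sub_self _⟩
  lead := ⟨_, (hGP (θ none) (θ none) hθ).2.1, fun h hh => by
    show ⌊((n + r * h.toNat : ℕ) : ℝ) ^ c none⌋ ^ 2 - 1 * h ^ (2 * d) = _
    rw [h0 h hh, one_mul]⟩
  D_pos j := by
    show 1 ≤ 2 * d
    omega
  D_le j := le_rfl
  k_ne j := one_ne_zero
  k_le j := by
    show |(1 : ℤ)| ≤ ((1 : ℕ) : ℤ)
    simp
  diff j hj := by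
    rcases j with _ | i
    · exact absurd rfl hj
    · exact ⟨_, (hGP (θ none) (θ (some i)) hθ).2.2.2, fun h hh => by
        show ⌊((n + r * h.toNat : ℕ) : ℝ) ^ c none⌋ ^ 2 -
          ⌊((n + r * h.toNat : ℕ) : ℝ) ^ c (some i)⌋ ^ 2 - 1 * h ^ (2 * d) = _
        rw [h0 h hh, h1 i h hh, one_mul]⟩
  cls j hj := by
    constructor
    · intro h
      exact absurd h hj
    · intro h
      exact absurd h (lt_irrefl _)

/-! ## Integer parts of close numbers -/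

lemma floor_close {x y : ℝ} (h : |x - y| ≤ 1 / 2) : ∃ t : Fin 3, ⌊x⌋ = ⌊y⌋ + ((t : ℕ) - 1 : ℤ) := by
  have h1 := abs_le.1 h
  have hx := Int.floor_le x
  have hx' := Int.lt_floor_add_one x
  have hy := Int.floor_le y
  have hy' := Int.lt_floor_add_one y
  have a1 : ((⌊x⌋ : ℤ) : ℝ) < ((⌊y⌋ + 2 : ℤ) : ℝ) := by push_cast; linarith
  have a2 : ((⌊y⌋ : ℤ) : ℝ) < ((⌊x⌋ + 2 : ℤ) : ℝ) := by push_cast; linarith
  have b1 : ⌊x⌋ < ⌊y⌋ + 2 := by exact_mod_cast a1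
  have b2 : ⌊y⌋ < ⌊x⌋ + 2 := by exact_mod_cast a2
  rcases (by omega : ⌊x⌋ = ⌊y⌋ - 1 ∨ ⌊x⌋ = ⌊y⌋ ∨ ⌊x⌋ = ⌊y⌋ + 1) with h | h | h
  · exact ⟨0, by rw [h]; simp [sub_eq_add_neg]⟩
  · exact ⟨1, by rw [h]; simp⟩
  · exact ⟨2, by rw [h]; simp⟩

/-! ## The estimate for one window -/

/-- one window: the exponents are close to polynomials -/
lemma window {X : Type} [MeasurableSpace X] {μ : Measure X} [IsProbabilityMeasure μ]
    (S : Sys X μ) {m d B H : ℕ} (hm : T_GP_mono) (hd : 1 ≤ d) (hB : 1 ≤ B)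
    (hGP : ∀ θ θ' : ℕ → ℝ, θ d = 1 →
      GP (2 * d) B (fun h => fl (d + 1) θ h ^ 2) ∧
      GP (2 * d - 1) B (fun h => fl (d + 1) θ h ^ 2 - h ^ (2 * d)) ∧
      GP (2 * d - 1) B (fun h => fl d θ' h ^ 2) ∧
      GP (2 * d - 1) B (fun h => fl (d + 1) θ h ^ 2 - fl d θ' h ^ 2 - h ^ (2 * d)))
    (c : Option (Fin m) → ℝ) (u : X → ℂ) (hu : B1 u) (η : ℝ)
    (hH : ∀ (n r : ℕ) (A : Set ℤ), (fam m d c n r).Ok 1 B A →
      ∀ g : Option (Fin m) → X → ℂ, (∀ j, B1 (g j)) → g none = u →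
      ∀ s : ℤ → ℂ, (∀ h, ‖s h‖ ≤ 1) → (∀ h, h ∉ A → s h = 0) →
        Q μ (fun x => (H : ℂ)⁻¹ * ∑ h ∈ Finset.range H,
          s h * ∏ j, g j (S.φ ((fam m d c n r).P j h) x)) ≤ η)
    (n r : ℕ) (θ : Option (Fin m) → ℕ → ℝ) (hθ : θ none d = 1)
    (h0 : ∀ h < H, |((n + r * h : ℕ) : ℝ) ^ c none - pl (d + 1) (θ none) h| ≤ 1 / 2)
    (h1 : ∀ i, ∀ h < H, |((n + r * h : ℕ) : ℝ) ^ c (some i) - pl d (θ (some i)) h| ≤ 1 / 2)
    (w : ℕ → ℂ) (hw : ∀ n, ‖w n‖ ≤ 1) (g : Fin m → X → ℂ) (hg : ∀ i, B1 (g i)) :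
    Q μ (fun x => (H : ℂ)⁻¹ * ∑ h ∈ Finset.range H, w (n + r * h) *
      (∏ i, g i (S.φ (b (c (some i)) (n + r * h)) x)) * u (S.φ (b (c none) (n + r * h)) x)) ≤
      (Fintype.card (Option (Fin m) → Fin 3) : ℝ) ^ 2 * η := by
  classical
  -- the length of the polynomials
  let ln : Option (Fin m) → ℕ := fun j => j.elim (d + 1) (fun _ => d)
  have hln : ∀ j, 1 ≤ ln j := by
    rintro (_ | i)
    · exact Nat.le_add_left 1 d
    · exact hd
  have hcl : ∀ j, ∀ h < H, |((n + r * h : ℕ) : ℝ) ^ c j - pl (ln j) (θ j) h| ≤ 1 / 2 := by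
    rintro (_ | i) h hh
    · exact h0 h hh
    · exact h1 i h hh
  -- the pattern
  have hτ : ∀ h : ℕ, ∃ τ : Option (Fin m) → Fin 3, h < H → ∀ j,
      ⌊((n + r * h : ℕ) : ℝ) ^ c j⌋ = fl (ln j) (θ j) h + ((τ j : ℕ) - 1 : ℤ) := by
    intro h
    by_cases hh : h < H
    · choose τ hτ using fun j => floor_close (hcl j h hh)
      refine ⟨τ, fun _ j => ?_⟩
      rw [hτ j]
      unfold fl
      simp
    · exact ⟨fun _ => 0, fun h' => absurd h' hh⟩
  choose τ hτ using hτ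
  let A : (Option (Fin m) → Fin 3) → Set ℤ := fun σ => {h | 0 ≤ h ∧ h < H ∧ τ h.toNat = σ}
  let g' : Option (Fin m) → X → ℂ := fun j => j.elim u g
  have hg' : ∀ j, B1 (g' j) := by
    rintro (_ | i)
    · exact hu
    · exact hg i
  let s : (Option (Fin m) → Fin 3) → ℤ → ℂ := fun σ h =>
    if h ∈ A σ then w (n + r * h.toNat) else 0
  let F : (Option (Fin m) → Fin 3) → X → ℂ := fun σ x => (H : ℂ)⁻¹ * ∑ h ∈ Finset.range H,
    s σ h * ∏ j, g' j (S.φ ((fam m d c n r).P j h) x)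
  have hs : ∀ σ h, ‖s σ h‖ ≤ 1 := by
    intro σ h
    show ‖(if h ∈ A σ then w (n + r * h.toNat) else 0 : ℂ)‖ ≤ 1
    split_ifs
    · exact hw _
    · simp
  have hF : ∀ σ, Q μ (F σ) ≤ η := by
    intro σ
    refine hH n r (A σ) ?_ g' hg' rfl (s σ) (hs σ) fun h hh => if_neg hh
    refine fam_ok hm hd hB hGP c n r (A σ)
      (fun j i => θ j i + if i = 0 then (((σ j : ℕ) - 1 : ℤ) : ℝ) else 0) ?_ ?_ ?_
    · show θ none d + (if d = 0 then (((σ none : ℕ) - 1 : ℤ) : ℝ) else 0) = 1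
      rw [if_neg (by omega), add_zero, hθ]
    · intro h hh
      obtain ⟨a1, a2, a3⟩ := hh
      have e := hτ h.toNat (by omega) none
      have e' : ((h.toNat : ℕ) : ℤ) = h := Int.toNat_of_nonneg a1
      rw [e, a3, e', fl_const (Nat.le_add_left 1 d)]
      rfl
    · intro i h hh
      obtain ⟨a1, a2, a3⟩ := hh
      have e := hτ h.toNat (by omega) (some i)
      have e' : ((h.toNat : ℕ) : ℤ) = h := Int.toNat_of_nonneg a1
      rw [e, a3, e', fl_const hd]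
      rfl
  have hFb : ∀ σ, Bd (F σ) := by
    intro σ
    refine Bd.const_mul (Bd.sum _ fun h _ => Bd.const_mul (B1.bd ?_) _) _
    exact B1.prod' _ fun j _ => (hg' j).sh S _
  have hsum : (fun x => (H : ℂ)⁻¹ * ∑ h ∈ Finset.range H, w (n + r * h) *
      (∏ i, g i (S.φ (b (c (some i)) (n + r * h)) x)) * u (S.φ (b (c none) (n + r * h)) x)) =
      fun x => ∑ σ, F σ x := by
    funext x
    show _ = ∑ σ, (H : ℂ)⁻¹ * ∑ h ∈ Finset.range H,
      s σ h * ∏ j, g' j (S.φ ((fam m d c n r).P j h) x)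
    rw [← Finset.mul_sum, Finset.sum_comm]
    congr 1
    refine Finset.sum_congr rfl fun h hh => ?_
    rw [← Finset.sum_mul, Fintype.prod_option]
    have e1 : ∑ σ, s σ (h : ℤ) = w (n + r * h) := by
      rw [Finset.sum_eq_single (τ h)]
      · show (if (h : ℤ) ∈ A (τ h) then w (n + r * (h : ℤ).toNat) else 0 : ℂ) = _
        rw [if_pos, Int.toNat_natCast]
        exact ⟨Int.natCast_nonneg h, by exact_mod_cast Finset.mem_range.1 hh, by
          rw [Int.toNat_natCast]⟩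
      · intro σ _ hσ
        refine if_neg fun hm => hσ ?_
        have := hm.2.2
        rw [Int.toNat_natCast] at this
        exact this.symm
      · intro h; exact absurd (Finset.mem_univ _) h
    rw [e1]
    have e2 : ∀ j, (fam m d c n r).P j (h : ℤ) = b (c j) (n + r * h) := fun j => by
      show b (c j) (n + r * (h : ℤ).toNat) = _
      rw [Int.toNat_natCast]
    simp_rw [e2]
    show w (n + r * h) * (∏ i, g i (S.φ (b (c (some i)) (n + r * h)) x)) *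
      u (S.φ (b (c none) (n + r * h)) x) = w (n + r * h) * (u (S.φ (b (c none) (n + r * h)) x) *
      ∏ i, g i (S.φ (b (c (some i)) (n + r * h)) x))
    ring
  rw [hsum]
  refine (Q_sum_le Finset.univ fun σ _ => hFb σ).trans ?_
  calc ((Finset.univ : Finset (Option (Fin m) → Fin 3)).card : ℝ) * ∑ σ, Q μ (F σ) ≤
      ((Finset.univ : Finset (Option (Fin m) → Fin 3)).card : ℝ) *
        ∑ _σ : Option (Fin m) → Fin 3, η := by
        gcongr with σ _
        exact hF σ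
    _ = _ := by
        rw [Finset.sum_const, Finset.card_univ, nsmul_eq_mul]; ring

lemma bin_pos {c : ℝ} {d : ℕ} (h : ∀ i < d, (i : ℝ) < c) : 0 < bin c d := by
  unfold bin
  refine div_pos (Finset.prod_pos fun i hi => ?_) (by positivity)
  exact sub_pos.2 (h i (Finset.mem_range.1 hi))

end H1W

open H1W in
theorem h1w (h_pet : T_PET) (h_tay : T_TAY) (h_rl : T_RL) (h_mono : T_GP_mono) (h_neg : T_GP_neg)
    (h_add : T_GP_add) (h_mul : T_GP_mul) (h_floor : T_GP_floor) : T_H1W := by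
  intro X _ μ _ S m c cm hc hcm hcm0 hz u hu hTU
  -- the degree
  set d : ℕ := ⌊cm⌋₊ + 1 with hd
  have hd1 : 1 ≤ d := Nat.le_add_left 1 _
  have hd0 : (0 : ℝ) < d := by exact_mod_cast hd1
  have hcd : cm < d := by rw [hd]; push_cast; exact Nat.lt_floor_add_one cm
  have hlt : ∀ i < d, (i : ℝ) < cm := by
    intro i hi
    have h1 : i ≤ ⌊cm⌋₊ := by omega
    have h2 : ((⌊cm⌋₊ : ℕ) : ℝ) ≤ cm := Nat.floor_le hcm0.le
    have h3 : ((⌊cm⌋₊ : ℕ) : ℝ) ≠ cm := fun h => hz (⌊cm⌋₊ : ℕ) (by rw [← h]; simp)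
    have h4 : (i : ℝ) ≤ (⌊cm⌋₊ : ℕ) := by exact_mod_cast h1
    exact h4.trans_lt (lt_of_le_of_ne h2 h3)
  have hbin := bin_pos hlt
  set σ : ℝ := 1 - cm / d with hσ
  have hσ0 : 0 < σ := by
    rw [hσ, sub_pos, div_lt_one hd0]; exact hcd
  have hσ1 : σ < 1 := by
    rw [hσ]; have : 0 < cm / d := div_pos hcm0 hd0
    linarith
  have h1σ : 1 - σ = cm / d := by rw [hσ]; ring
  set ρ : ℝ := (bin cm d) ^ (-(1 / (d : ℝ))) with hρ
  have hρ0 : 0 < ρ := Real.rpow_pos_of_pos hbin _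
  have hρd : bin cm d * ρ ^ d = 1 := by
    rw [hρ, ← Real.rpow_natCast, ← Real.rpow_mul hbin.le]
    have : -(1 / (d : ℝ)) * (d : ℝ) = -1 := by field_simp
    rw [this, Real.rpow_neg_one, mul_inv_cancel₀ hbin.ne']
  set R : ℕ → ℕ := fun N => ⌊ρ * (N : ℝ) ^ σ⌋₊ with hR
  refine ⟨R, h_rl σ ρ hσ0 hσ1 hρ0, fun η hη => ?_⟩
  -- Taylor expansions
  obtain ⟨θ0, hθ0, hl0, -⟩ := h_tay σ ρ hσ0 hσ1 hρ0 cm hcm0 d (by
    rw [h1σ]
    have : 0 < cm / d := div_pos hcm0 hd0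
    have e : ((d : ℝ) + 1) * (cm / d) = cm + cm / d := by field_simp
    rw [e]; linarith)
  have hlead := hl0 (by rw [h1σ]; field_simp)
  rw [hρd] at hlead
  have htay : ∀ i, ∃ θ : ℕ → ℕ → ℕ → ℝ, PA R (d - 1) (fun n => (n : ℝ) ^ c i) θ := by
    intro i
    obtain ⟨θ, hθ, -⟩ := h_tay σ ρ hσ0 hσ1 hρ0 (c i) (hc i) (d - 1) (by
      rw [h1σ]
      have e1 : (((d - 1 : ℕ) : ℝ) + 1) = d := by
        rw [Nat.cast_sub hd1]; push_cast; ring
      rw [e1]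
      have e : (d : ℝ) * (cm / d) = cm := by field_simp
      rw [e]; exact hcm i)
    exact ⟨θ, hθ⟩
  choose θ1 hθ1 using htay
  -- the number of branches
  obtain ⟨B, hB, hGP⟩ := exists_B h_mono h_neg h_add h_mul h_floor hd1
  -- PET
  set Γ : ℝ := (Fintype.card (Option (Fin m) → Fin 3) : ℝ) ^ 2 with hΓ
  have hΓ0 : 0 < Γ := by
    have : 0 < Fintype.card (Option (Fin m) → Fin 3) := Fintype.card_pos
    rw [hΓ]; positivity
  let cc : Option (Fin m) → ℝ := fun j => j.elim cm c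
  have hpet := h_pet X μ S ((Finset.univ : Finset (Option (Fin m))).val.map
    (fun j => j.elim (2 * d) (fun _ => 2 * d - 1))) u hu hTU (m + 1) 1 B (η / Γ) (by positivity)
  obtain ⟨H0, hH0⟩ := eventually_atTop.1 hpet
  refine ⟨H0 + 1, Nat.succ_pos _, ?_⟩
  have hH := hH0 (H0 + 1) (Nat.le_succ _)
  set H := H0 + 1 with hHdef
  have hHpos : (0 : ℝ) < H := by exact_mod_cast Nat.succ_pos _
  -- the eventual properties
  have ev0 : ∀ᶠ N in atTop, ∀ h ∈ Finset.range H, ∀ n ∈ W N,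
      |((n + R N * h : ℕ) : ℝ) ^ cm - ∑ j ∈ Finset.range (d + 1), θ0 N n j * (h : ℝ) ^ j| ≤
        1 / 4 := by
    rw [Filter.eventually_all_finset]
    exact fun h _ => hθ0 h (1 / 4) (by norm_num)
  have ev1 : ∀ᶠ N in atTop, ∀ n ∈ W N, |θ0 N n d - 1| ≤ 1 / (4 * (H : ℝ) ^ d) :=
    hlead _ (by positivity)
  have ev2 : ∀ᶠ N in atTop, ∀ i ∈ (Finset.univ : Finset (Fin m)), ∀ h ∈ Finset.range H, ∀ n ∈ W N,
      |((n + R N * h : ℕ) : ℝ) ^ c i - ∑ j ∈ Finset.range (d - 1 + 1), θ1 i N n j * (h : ℝ) ^ j| ≤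
        1 / 2 := by
    rw [Filter.eventually_all_finset]
    intro i _
    rw [Filter.eventually_all_finset]
    exact fun h _ => hθ1 i h (1 / 2) (by norm_num)
  filter_upwards [ev0, ev1, ev2] with N e0 e1 e2 n hn w hw g hg
  have key := window S h_mono hd1 hB hGP cc u hu (η / Γ) (H := H)
    (fun n r A hA g hg hgu s hs hs' => hH _ _ (fam m d cc n r) A hA (by simp) le_rfl g hg hgu s
      hs hs') n (R N)
    (fun j => j.elim (Function.update (θ0 N n) d 1) (fun i => θ1 i N n))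
    (by show Function.update (θ0 N n) d 1 d = 1; rw [Function.update_self]) ?_ ?_ w hw g hg
  · refine key.trans_eq ?_
    rw [← hΓ]; field_simp
  · intro h hh
    show |((n + R N * h : ℕ) : ℝ) ^ cm - pl (d + 1) (Function.update (θ0 N n) d 1) h| ≤ 1 / 2
    have a0 := e0 h (Finset.mem_range.2 hh) n hn
    have a1 := e1 n hn
    unfold pl
    rw [Finset.sum_range_succ] at a0 ⊢
    rw [Function.update_self]
    have e3 : ∑ i ∈ Finset.range d, (Function.update (θ0 N n) d 1) i * (h : ℝ) ^ i =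
        ∑ i ∈ Finset.range d, θ0 N n i * (h : ℝ) ^ i := by
      refine Finset.sum_congr rfl fun i hi => ?_
      rw [Function.update_of_ne (Finset.mem_range.1 hi).ne]
    rw [e3]
    have hhd : (h : ℝ) ^ d ≤ (H : ℝ) ^ d := by
      have : (h : ℝ) ≤ H := by exact_mod_cast hh.le
      gcongr
    have a2 : |(θ0 N n d - 1) * (h : ℝ) ^ d| ≤ 1 / 4 := by
      rw [abs_mul, abs_of_nonneg (by positivity : (0 : ℝ) ≤ (h : ℝ) ^ d)]
      calc |θ0 N n d - 1| * (h : ℝ) ^ d ≤ 1 / (4 * (H : ℝ) ^ d) * (H : ℝ) ^ d := by gcongr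
        _ = 1 / 4 := by field_simp
    have e4 : ((n + R N * h : ℕ) : ℝ) ^ cm - (∑ i ∈ Finset.range d, θ0 N n i * (h : ℝ) ^ i +
        1 * (h : ℝ) ^ d) = (((n + R N * h : ℕ) : ℝ) ^ cm - (∑ i ∈ Finset.range d,
          θ0 N n i * (h : ℝ) ^ i + θ0 N n d * (h : ℝ) ^ d)) + (θ0 N n d - 1) * (h : ℝ) ^ d := by
      ring
    rw [e4]
    refine (abs_add_le _ _).trans ?_
    linarith
  · intro i h hh
    show |((n + R N * h : ℕ) : ℝ) ^ c i - pl d (θ1 i N n) h| ≤ 1 / 2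
    have := e2 i (Finset.mem_univ _) h (Finset.mem_range.2 hh) n hn
    rw [Nat.sub_add_cancel hd1] at this
    exact this

end Pool.Agent.SqF
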