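import Pool.Agent.SqF.Targets
import Pool.Agent.SqF.Basic

/-!
# MP_0b2319_an: the induction on the number of functions (part IND)

Base cases `T_Pb 0` (from `T_B0`) and `T_Pc 0`, and the assembly of the induction.
-/

set_option autoImplicit false

open MeasureTheory Filter Topology
open scoped ComplexConjugate

namespace Pool.Agent.SqF

/-- no functions: the scalar case -/
theorem pb_zero (hB0 : T_B0) : T_Pb 0 := by
  intro X _ μ _ S _ c _ ι _ _ w hw _ f _
  have h0 := hB0 ι w hw
  have h1 : ∀ N, Q μ (mav S (fun i => b (c i)) w.w f N) = ‖avs N w.w‖ ^ 2 := by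
    intro N
    have h2 : mav S (fun i => b (c i)) w.w f N = fun _ => avs N w.w := by
      funext x
      simp [mav, av, avs]
    rw [h2]
    simp [Q]
  simp only [h1]
  have h3 := (h0.norm.pow 2)
  simpa using h3

/-- no functions: the averages are constant -/
theorem pc_zero : T_Pc 0 := by
  intro X _ μ _ S _ c _ f _
  have h1 : ∀ p : ℕ × ℕ, Q μ (fun x => mav S (fun i => b (c i)) (fun _ => 1) f p.1 x -
      mav S (fun i => b (c i)) (fun _ => 1) f p.2 x) = 0 := by
    intro p
    have h2 : ∀ N x, mav S (fun i => b (c i)) (fun _ => 1) f N x = 1 := by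
      intro N x
      have hL : (L N : ℂ) ≠ 0 := by
        have : L N ≠ 0 := by simp [L]
        exact_mod_cast this
      simp [mav, av, W, hL]
    simp [h2, Q]
  simp only [h1]
  exact tendsto_const_nhds

theorem pb_all (hB0 : T_B0) (hPA : T_PA_step) (hPB : T_PB_step) : ∀ m, T_Pb m := by
  intro m
  induction m with
  | zero => exact pb_zero hB0
  | succ m ih => exact hPB m ih (hPA m ih)

theorem pc_all (hB0 : T_B0) (hPA : T_PA_step) (hPB : T_PB_step) (hPC : T_PC_step) :
    ∀ m, T_Pc m := by
  intro m
  induction m with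
  | zero => exact pc_zero
  | succ m ih => exact hPC m (pb_all hB0 hPA hPB m) (hPA m (pb_all hB0 hPA hPB m)) ih

/-- the assembly of the induction -/
theorem ind (hB0 : T_B0) (hPA : T_PA_step) (hPB : T_PB_step) (hPC : T_PC_step)
    (hER : T_ERGRED) : ∀ m, T_WC m :=
  fun m => hER m (pc_all hB0 hPA hPB hPC m)

end Pool.Agent.SqF
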