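import Pool.Agent.SqF.Targets
import Pool.Agent.SqF.Basic

/-!
# MP_0b2319_an: linear families (part LIN)
-/

set_option autoImplicit false

open MeasureTheory Filter Topology
open scoped ComplexConjugate

namespace Pool.Agent.SqF

namespace LIN

/-- Jensen for powers `p ≤ 1`. -/
lemma avg_rpow {ι : Type} (s : Finset ι) (hs : s.Nonempty) (x : ι → ℝ) (hx : ∀ i ∈ s, 0 ≤ x i)
    {p : ℝ} (hp0 : 0 ≤ p) (hp1 : p ≤ 1) :
    ((s.card : ℝ))⁻¹ * ∑ i ∈ s, x i ^ p ≤ (((s.card : ℝ))⁻¹ * ∑ i ∈ s, x i) ^ p := by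
  have hc : (0 : ℝ) < s.card := by exact_mod_cast hs.card_pos
  have h := (Real.concaveOn_rpow hp0 hp1).le_map_sum (t := s) (w := fun _ => ((s.card : ℝ))⁻¹)
    (p := x) (fun _ _ => by positivity)
    (by rw [Finset.sum_const, nsmul_eq_mul]; field_simp) (fun i hi => hx i hi)
  simp only [smul_eq_mul] at h
  rw [Finset.mul_sum, Finset.mul_sum]
  exact h

lemma sqrt_add_le {a b : ℝ} (ha : 0 ≤ a) (hb : 0 ≤ b) :
    Real.sqrt (a + b) ≤ Real.sqrt a + Real.sqrt b := by
  rw [Real.sqrt_eq_rpow, Real.sqrt_eq_rpow, Real.sqrt_eq_rpow]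
  exact Real.rpow_add_le_add_rpow ha hb (by norm_num) (by norm_num)

lemma dsum {M : ℕ} (F : ℕ → ℕ → ℝ) :
    ((M : ℝ) ^ 2)⁻¹ * ∑ m ∈ Finset.range M, ∑ m' ∈ Finset.range M, F m m' =
      (((Finset.range M ×ˢ Finset.range M).card : ℝ))⁻¹ *
        ∑ q ∈ Finset.range M ×ˢ Finset.range M, F q.1 q.2 := by
  rw [Finset.sum_product, Finset.card_product, Finset.card_range]
  push_cast
  rw [pow_two]

variable {X : Type} [MeasurableSpace X] {μ : Measure X}

/-- the truncated sequence -/
noncomputable def vv {J : ℕ} (S : Sys X μ) (H : ℕ) (u : X → ℂ) (l0 a0 : ℤ) (l a : Fin J → ℤ)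
    (g : Fin J → X → ℂ) (s : ℤ → ℂ) (h : ℤ) (x : X) : ℂ :=
  if 0 ≤ h ∧ h < (H : ℤ) then s h * u (S.φ (l0 * h + a0) x) * ∏ j, g j (S.φ (l j * h + a j) x)
  else 0

lemma vv_B1 {J : ℕ} (S : Sys X μ) (H : ℕ) {u : X → ℂ} (hu : B1 u) (l0 a0 : ℤ) (l a : Fin J → ℤ)
    {g : Fin J → X → ℂ} (hg : ∀ j, B1 (g j)) {s : ℤ → ℂ} (hs : ∀ h, ‖s h‖ ≤ 1) (h : ℤ) :
    B1 (vv S H u l0 a0 l a g s h) := by
  by_cases hh : 0 ≤ h ∧ h < (H : ℤ)
  · have : vv S H u l0 a0 l a g s h = fun x => s h * u (S.φ (l0 * h + a0) x) *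
        ∏ j, g j (S.φ (l j * h + a j) x) := by
      funext x; simp [vv, hh]
    rw [this]
    exact ((hu.sh S _).const_mul' (hs h)).mul' (B1.prod' _ fun j _ => (hg j).sh S _)
  · have : vv S H u l0 a0 l a g s h = fun x => (0 : ℂ) := by
      funext x; simp [vv, hh]
    rw [this]; exact B1.zero

/-- the start of both cases: van der Corput -/
lemma start (hV : T_VDC) [IsProbabilityMeasure μ] {J : ℕ} (S : Sys X μ) (H M : ℕ) (hM : 0 < M)
    (hMH : M ≤ H) {u : X → ℂ} (hu : B1 u) (l0 a0 : ℤ) (l a : Fin J → ℤ)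
    {g : Fin J → X → ℂ} (hg : ∀ j, B1 (g j)) {s : ℤ → ℂ} (hs : ∀ h, ‖s h‖ ≤ 1) (Y : ℕ → ℕ → ℝ)
    (hY : ∀ m m' : ℕ, ‖(H : ℂ)⁻¹ * ∑ h ∈ Finset.range H,
      ∫ x, vv S H u l0 a0 l a g s ((h : ℤ) + ((m : ℤ) - m')) x *
        conj (vv S H u l0 a0 l a g s h x) ∂μ‖ ≤ Y m m') :
    Q μ (fun x => (H : ℂ)⁻¹ * ∑ h ∈ Finset.range H,
        s h * u (S.φ (l0 * h + a0) x) * ∏ j, g j (S.φ (l j * h + a j) x)) ≤
      2 * (((M : ℝ) ^ 2)⁻¹ * ∑ m ∈ Finset.range M, ∑ m' ∈ Finset.range M, Y m m') := by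
  have h1 := hV X μ H M hM hMH (vv S H u l0 a0 l a g s) (vv_B1 S H hu l0 a0 l a hg hs)
    (by
      intro h hh x
      have : ¬ (0 ≤ h ∧ h < (H : ℤ)) := by omega
      simp [vv, this])
  have h2 : (fun x => (H : ℂ)⁻¹ * ∑ h ∈ Finset.range H,
        s h * u (S.φ (l0 * h + a0) x) * ∏ j, g j (S.φ (l j * h + a j) x)) =
      fun x => (H : ℂ)⁻¹ * ∑ h ∈ Finset.range H, vv S H u l0 a0 l a g s h x := by
    funext x
    congr 1
    refine Finset.sum_congr rfl fun h hh => ?_
    have : (0 : ℤ) ≤ (h : ℤ) ∧ (h : ℤ) < (H : ℤ) := by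
      have := Finset.mem_range.mp hh; omega
    simp [vv, this]
  rw [h2]
  refine h1.trans ?_
  gcongr with m _ m' _
  exact hY m m'

end LIN

open LIN

theorem lin (hVDC : T_VDC) (hbd : T_V_bd) (hsh : T_V_shift) (hlin : T_V_lin) : T_LIN := by
  intro X _ μ _ S J K
  -- strengthen by κ ≤ 1
  suffices h : ∃ C κ : ℝ, 0 ≤ C ∧ 0 < κ ∧ κ ≤ 1 ∧ ∀ u : X → ℂ, B1 u → ∀ η > (0 : ℝ),
      ∀ᶠ H : ℕ in atTop, ∀ (l0 a0 : ℤ) (l a : Fin J → ℤ), l0 ≠ 0 → |l0| ≤ K →
        (∀ j, l0 - l j ≠ 0 ∧ |l0 - l j| ≤ K) → ∀ g : Fin J → X → ℂ, (∀ j, B1 (g j)) →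
        ∀ s : ℤ → ℂ, (∀ h, ‖s h‖ ≤ 1) →
          Q μ (fun x => (H : ℂ)⁻¹ * ∑ h ∈ Finset.range H,
            s h * u (S.φ (l0 * h + a0) x) * ∏ j, g j (S.φ (l j * h + a j) x)) ≤
            C * (V S (J + 1) u) ^ κ + η by
    obtain ⟨C, κ, h1, h2, _, h3⟩ := h
    exact ⟨C, κ, h1, h2, h3⟩
  induction J with
  | zero =>
    refine ⟨4 * K, 1 / 2, by positivity, by norm_num, by norm_num, ?_⟩
    intro u hu η hη
    -- choose η'
    set η' : ℝ := (η / (4 * K + 1)) ^ 2 with hη'
    have hη'0 : 0 < η' := by positivity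
    obtain ⟨M, _, hM0, hM⟩ := hlin X μ S 0 K u hu η' hη'0 0
    filter_upwards [eventually_ge_atTop M] with H hH
    intro l0 a0 l a hl0 hl0K hl g hg s hs
    have hpair : ∀ m m' : ℕ, B1 (fun x => u (S.φ (l0 * m) x) * conj (u (S.φ (l0 * m') x))) :=
      fun m m' => (hu.sh S _).mul' (hu.sh S _).conj'
    refine (start hVDC S H M hM0 hH hu l0 a0 l a hg hs
      (fun m m' => (V S 0 (fun x => u (S.φ (l0 * m) x) * conj (u (S.φ (l0 * m') x)))) ^ (1 / 2 : ℝ))
      ?_).trans ?_
    · intro m m'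
      have key : ∀ h : ℤ, ‖∫ x, vv S H u l0 a0 l a g s (h + ((m : ℤ) - m')) x *
          conj (vv S H u l0 a0 l a g s h x) ∂μ‖ ≤
          ‖∫ x, u (S.φ (l0 * m) x) * conj (u (S.φ (l0 * m') x)) ∂μ‖ := by
        intro h
        by_cases h1 : 0 ≤ h ∧ h < (H : ℤ)
        · by_cases h2 : 0 ≤ h + ((m : ℤ) - m') ∧ h + ((m : ℤ) - m') < (H : ℤ)
          · have e1 : ∀ x, vv S H u l0 a0 l a g s (h + ((m : ℤ) - m')) x *
                conj (vv S H u l0 a0 l a g s h x) =
                (s (h + ((m : ℤ) - m')) * conj (s h)) *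
                  (u (S.φ (l0 * m) (S.φ (l0 * (h - m') + a0) x)) *
                    conj (u (S.φ (l0 * m') (S.φ (l0 * (h - m') + a0) x)))) := by
              intro x
              rw [← S.add, ← S.add]
              have q1 : l0 * (m : ℤ) + (l0 * (h - m') + a0) = l0 * (h + ((m : ℤ) - m')) + a0 := by
                ring
              have q2 : l0 * (m' : ℤ) + (l0 * (h - m') + a0) = l0 * h + a0 := by ring
              rw [q1, q2]
              simp only [vv, h1, h2, and_self, if_true, Finset.univ_eq_empty,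
                Finset.prod_empty, mul_one, map_mul]
              ring
            simp_rw [e1]
            rw [integral_const_mul, norm_mul,
              S.integral_comp (l0 * (h - m') + a0)
                (fun x => u (S.φ (l0 * m) x) * conj (u (S.φ (l0 * m') x)))]
            refine mul_le_of_le_one_left (norm_nonneg _) ?_
            rw [norm_mul, RCLike.norm_conj]
            exact mul_le_one₀ (hs _) (norm_nonneg _) (hs _)
          · have : ∀ x, vv S H u l0 a0 l a g s (h + ((m : ℤ) - m')) x = 0 := by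
              intro x; simp only [vv]; rw [if_neg h2]
            simp only [this, zero_mul, integral_zero, norm_zero]
            positivity
        · have : ∀ x, vv S H u l0 a0 l a g s h x = 0 := by
            intro x; simp only [vv]; rw [if_neg h1]
          simp only [this, map_zero, mul_zero, integral_zero, norm_zero]
          positivity
      have e2 : (V S 0 (fun x => u (S.φ (l0 * m) x) * conj (u (S.φ (l0 * m') x)))) ^ (1 / 2 : ℝ)
          = ‖∫ x, u (S.φ (l0 * m) x) * conj (u (S.φ (l0 * m') x)) ∂μ‖ := by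
        show (‖∫ x, u (S.φ (l0 * m) x) * conj (u (S.φ (l0 * m') x)) ∂μ‖ ^ 2) ^ (1 / 2 : ℝ) = _
        rw [← Real.sqrt_eq_rpow, Real.sqrt_sq (norm_nonneg _)]
      rw [e2, norm_mul, norm_inv, Complex.norm_natCast]
      have hH0 : (0 : ℝ) < H := by
        have : 0 < H := lt_of_lt_of_le hM0 hH
        exact_mod_cast this
      rw [inv_mul_le_iff₀ hH0]
      calc ‖∑ h ∈ Finset.range H, ∫ x, vv S H u l0 a0 l a g s ((h : ℤ) + ((m : ℤ) - m')) x *
          conj (vv S H u l0 a0 l a g s h x) ∂μ‖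
          ≤ ∑ h ∈ Finset.range H, ‖∫ x, vv S H u l0 a0 l a g s ((h : ℤ) + ((m : ℤ) - m')) x *
          conj (vv S H u l0 a0 l a g s h x) ∂μ‖ := norm_sum_le _ _
        _ ≤ ∑ h ∈ Finset.range H,
            ‖∫ x, u (S.φ (l0 * m) x) * conj (u (S.φ (l0 * m') x)) ∂μ‖ :=
          Finset.sum_le_sum fun h _ => key h
        _ = _ := by rw [Finset.sum_const, Finset.card_range, nsmul_eq_mul]
    · rw [dsum (fun m m' => (V S 0 (fun x => u (S.φ (l0 * m) x) *
        conj (u (S.φ (l0 * m') x)))) ^ (1 / 2 : ℝ))]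
      have hne : (Finset.range M ×ˢ Finset.range M).Nonempty :=
        ⟨(0, 0), by simp [hM0]⟩
      have h3 := avg_rpow (Finset.range M ×ˢ Finset.range M) hne
        (fun q => V S 0 (fun x => u (S.φ (l0 * (q.1 : ℤ)) x) *
          conj (u (S.φ (l0 * (q.2 : ℤ)) x))))
        (fun q _ => (hbd X μ S 0 _ (hpair q.1 q.2)).1) (p := 1 / 2) (by norm_num) (by norm_num)
      have h4 := hM l0 hl0 hl0K
      rw [dsum (fun m m' => V S 0 (fun x => u (S.φ (l0 * m) x) *
        conj (u (S.φ (l0 * m') x))))] at h4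
      have hV1 := (hbd X μ S 1 u hu).1
      calc 2 * (((Finset.range M ×ˢ Finset.range M).card : ℝ)⁻¹ *
            ∑ q ∈ Finset.range M ×ˢ Finset.range M, (V S 0 (fun x => u (S.φ (l0 * (q.1 : ℤ)) x) *
              conj (u (S.φ (l0 * (q.2 : ℤ)) x)))) ^ (1 / 2 : ℝ))
          ≤ 2 * (4 * (K : ℝ) ^ 2 * (V S (0 + 1) u + η')) ^ (1 / 2 : ℝ) := by
            refine mul_le_mul_of_nonneg_left (h3.trans ?_) (by norm_num)
            refine Real.rpow_le_rpow ?_ h4 (by norm_num)
            exact mul_nonneg (by positivity)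
              (Finset.sum_nonneg fun q _ => (hbd X μ S 0 _ (hpair q.1 q.2)).1)
        _ = 4 * K * (V S (0 + 1) u + η') ^ (1 / 2 : ℝ) := by
            rw [Real.mul_rpow (by positivity) (by simpa using add_nonneg hV1 hη'0.le)]
            have : (4 * (K : ℝ) ^ 2) ^ (1 / 2 : ℝ) = 2 * K := by
              rw [← Real.sqrt_eq_rpow]
              rw [show 4 * (K : ℝ) ^ 2 = (2 * K) ^ 2 by ring]
              exact Real.sqrt_sq (by positivity)
            rw [this]; ring
        _ ≤ 4 * K * ((V S (0 + 1) u) ^ (1 / 2 : ℝ) + η' ^ (1 / 2 : ℝ)) := by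
            gcongr
            exact Real.rpow_add_le_add_rpow hV1 hη'0.le (by norm_num) (by norm_num)
        _ ≤ 4 * K * (V S (0 + 1) u) ^ (1 / 2 : ℝ) + η := by
            have : η' ^ (1 / 2 : ℝ) = η / (4 * K + 1) := by
              rw [hη', ← Real.sqrt_eq_rpow]
              exact Real.sqrt_sq (by positivity)
            rw [this, mul_add]
            have : 4 * (K : ℝ) * (η / (4 * K + 1)) ≤ η := by
              rw [mul_div_assoc', div_le_iff₀ (by positivity)]
              nlinarith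
            linarith
  | succ J ih =>
    obtain ⟨C', κ', hC'0, hκ'0, hκ'1, hIH⟩ := ih
    refine ⟨2 * Real.sqrt C' * (4 * (K : ℝ) ^ 2) ^ (κ' / 2), κ' / 2, by positivity, by positivity,
      by linarith, ?_⟩
    intro u hu η hη
    set A : ℝ := 2 * Real.sqrt C' * (4 * (K : ℝ) ^ 2) ^ (κ' / 2) with hA
    have hA0 : 0 ≤ A := by positivity
    set η' : ℝ := (η / (2 * (A + 1))) ^ (2 / κ') with hη'
    have hη'0 : 0 < η' := by positivity
    set η'' : ℝ := (η / 4) ^ 2 with hη''
    have hη''0 : 0 < η'' := by positivity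
    obtain ⟨M, _, hM0, hM⟩ := hlin X μ S (J + 1) K u hu η' hη'0 0
    -- the finitely many difference functions
    have hfin : ∀ᶠ H : ℕ in atTop, ∀ l0 ∈ Finset.Icc (-(K : ℤ)) K, ∀ r ∈ Finset.Icc (-(M : ℤ)) M,
        ∀ (l0' a0 : ℤ) (l a : Fin J → ℤ), l0' ≠ 0 → |l0'| ≤ K →
        (∀ j, l0' - l j ≠ 0 ∧ |l0' - l j| ≤ K) → ∀ g : Fin J → X → ℂ, (∀ j, B1 (g j)) →
        ∀ s : ℤ → ℂ, (∀ h, ‖s h‖ ≤ 1) →
          Q μ (fun x => (H : ℂ)⁻¹ * ∑ h ∈ Finset.range H,
            s h * (fun y => u (S.φ (l0 * r) y) * conj (u y)) (S.φ (l0' * h + a0) x) *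
              ∏ j, g j (S.φ (l j * h + a j) x)) ≤
            C' * (V S (J + 1) (fun y => u (S.φ (l0 * r) y) * conj (u y))) ^ κ' + η'' := by
      rw [Filter.eventually_all_finset]
      intro l0 _
      rw [Filter.eventually_all_finset]
      intro r _
      exact hIH _ ((hu.sh S _).mul' hu.conj') η'' hη''0
    filter_upwards [eventually_ge_atTop M, hfin] with H hH hfinH
    intro l0 a0 l a hl0 hl0K hl g hg s hs
    have hpair : ∀ m m' : ℕ, B1 (fun x => u (S.φ (l0 * m) x) * conj (u (S.φ (l0 * m') x))) :=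
      fun m m' => (hu.sh S _).mul' (hu.sh S _).conj'
    have hVnn : ∀ m m' : ℕ, 0 ≤ V S (J + 1) (fun x => u (S.φ (l0 * m) x) *
        conj (u (S.φ (l0 * m') x))) := fun m m' => (hbd X μ S (J + 1) _ (hpair m m')).1
    have hVsh : ∀ m m' : ℕ, V S (J + 1) (fun y => u (S.φ (l0 * ((m : ℤ) - m')) y) * conj (u y)) =
        V S (J + 1) (fun x => u (S.φ (l0 * m) x) * conj (u (S.φ (l0 * m') x))) := by
      intro m m'
      rw [← hsh X μ S (J + 1) (fun y => u (S.φ (l0 * ((m : ℤ) - m')) y) * conj (u y))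
        ((hu.sh S _).mul' hu.conj') (l0 * m')]
      congr 1
      funext x
      rw [← S.add]
      congr 3
      ring
    refine (LIN.start hVDC S H M hM0 hH hu l0 a0 l a hg hs
      (fun m m' => if m < M ∧ m' < M then Real.sqrt C' * (V S (J + 1) (fun x =>
        u (S.φ (l0 * m) x) * conj (u (S.φ (l0 * m') x)))) ^ (κ' / 2) + η / 4 else 1)
      ?_).trans ?_
    · intro m m'
      set r : ℤ := (m : ℤ) - m' with hr
      set ls := l (Fin.last J) with hls
      set as := a (Fin.last J) with has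
      -- each integral
      set s' : ℤ → ℂ := fun h => if (0 ≤ h ∧ h < (H : ℤ)) ∧ (0 ≤ h + r ∧ h + r < (H : ℤ)) then
        s (h + r) * conj (s h) else 0 with hs'
      have hs'1 : ∀ h, ‖s' h‖ ≤ 1 := by
        intro h
        simp only [hs']
        split_ifs
        · rw [norm_mul, RCLike.norm_conj]
          exact mul_le_one₀ (hs _) (norm_nonneg _) (hs _)
        · simp
      set g' : Fin J → X → ℂ := fun j y => g j.castSucc (S.φ (l j.castSucc * r) y) *
        conj (g j.castSucc y) with hg'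
      have hg'1 : ∀ j, B1 (g' j) := fun j => ((hg _).sh S _).mul' (hg _).conj'
      set Gs : X → ℂ := fun x => g (Fin.last J) (S.φ (ls * r) x) * conj (g (Fin.last J) x) with hGs
      have hGs1 : B1 Gs := ((hg _).sh S _).mul' (hg _).conj'
      set ur : X → ℂ := fun y => u (S.φ (l0 * r) y) * conj (u y) with hur
      have hur1 : B1 ur := (hu.sh S _).mul' hu.conj'
      have key : ∀ h : ℤ, ∫ x, vv S H u l0 a0 l a g s (h + r) x *
          conj (vv S H u l0 a0 l a g s h x) ∂μ =
          ∫ x, (s' h * ur (S.φ ((l0 - ls) * h + (a0 - as)) x) *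
            ∏ j, g' j (S.φ ((l j.castSucc - ls) * h + (a j.castSucc - as)) x)) * Gs x ∂μ := by
        intro h
        by_cases h1 : (0 ≤ h ∧ h < (H : ℤ)) ∧ (0 ≤ h + r ∧ h + r < (H : ℤ))
        · rw [← S.integral_comp (ls * h + as) (fun x =>
            (s' h * ur (S.φ ((l0 - ls) * h + (a0 - as)) x) *
            ∏ j, g' j (S.φ ((l j.castSucc - ls) * h + (a j.castSucc - as)) x)) * Gs x)]
          congr 1
          funext x
          simp only [vv, h1.1, h1.2, and_self, if_true, hs', hur, hg', hGs, ← S.add,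
            Fin.prod_univ_castSucc, map_mul, map_prod]
          have q1 : l0 * r + ((l0 - ls) * h + (a0 - as) + (ls * h + as)) = l0 * (h + r) + a0 := by
            ring
          have q2 : (l0 - ls) * h + (a0 - as) + (ls * h + as) = l0 * h + a0 := by ring
          have q3 : ∀ j : Fin J, l j.castSucc * r + ((l j.castSucc - ls) * h +
              (a j.castSucc - as) + (ls * h + as)) = l j.castSucc * (h + r) + a j.castSucc := by
            intro j; ring
          have q4 : ∀ j : Fin J, (l j.castSucc - ls) * h + (a j.castSucc - as) + (ls * h + as) =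
              l j.castSucc * h + a j.castSucc := by
            intro j; ring
          have q5 : ls * r + (ls * h + as) = ls * (h + r) + as := by ring
          simp only [q2, q4, q5, Finset.prod_mul_distrib]
          rw [← hls, ← has]
          ring_nf
        · have e1 : ∀ x, vv S H u l0 a0 l a g s (h + r) x *
              conj (vv S H u l0 a0 l a g s h x) = 0 := by
            intro x
            by_cases h2 : 0 ≤ h ∧ h < (H : ℤ)
            · have h3 : ¬ (0 ≤ h + r ∧ h + r < (H : ℤ)) := fun h3 => h1 ⟨h2, h3⟩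
              simp only [vv]; rw [if_neg h3, zero_mul]
            · simp only [vv]; rw [if_neg h2, map_zero, mul_zero]
          have e2 : s' h = 0 := by simp only [hs']; rw [if_neg h1]
          simp [e1, e2]
      have hterm : ∀ h : ℤ, B1 (fun x => s' h * ur (S.φ ((l0 - ls) * h + (a0 - as)) x) *
            ∏ j, g' j (S.φ ((l j.castSucc - ls) * h + (a j.castSucc - as)) x)) := fun h =>
        ((hur1.sh S _).const_mul' (hs'1 h)).mul' (B1.prod' _ fun j _ => (hg'1 j).sh S _)
      have hint : ∀ h : ℤ, Integrable (fun x =>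
          (s' h * ur (S.φ ((l0 - ls) * h + (a0 - as)) x) *
            ∏ j, g' j (S.φ ((l j.castSucc - ls) * h + (a j.castSucc - as)) x)) * Gs x) μ := by
        intro h
        exact ((hterm h).mul' hGs1).integrable
      have hsum : (H : ℂ)⁻¹ * ∑ h ∈ Finset.range H,
          ∫ x, vv S H u l0 a0 l a g s ((h : ℤ) + r) x *
            conj (vv S H u l0 a0 l a g s h x) ∂μ =
          ∫ x, ((H : ℂ)⁻¹ * ∑ h ∈ Finset.range H,
            s' h * ur (S.φ ((l0 - ls) * h + (a0 - as)) x) *
            ∏ j, g' j (S.φ ((l j.castSucc - ls) * h + (a j.castSucc - as)) x)) * Gs x ∂μ := by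
        simp_rw [key]
        rw [← integral_finsetSum (Finset.range H) (fun (h : ℕ) _ => hint (h : ℤ)),
          ← integral_const_mul]
        congr 1
        funext x
        rw [mul_assoc, Finset.sum_mul]
      by_cases hmm : m < M ∧ m' < M
      · rw [if_pos hmm, hsum]
        have hbdF : Bd (fun x => (H : ℂ)⁻¹ * ∑ h ∈ Finset.range H,
            s' h * ur (S.φ ((l0 - ls) * h + (a0 - as)) x) *
            ∏ j, g' j (S.φ ((l j.castSucc - ls) * h + (a j.castSucc - as)) x)) :=
          (Bd.sum (Finset.range H) (fun (h : ℕ) _ => (hterm (h : ℤ)).bd)).const_mul _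
        refine (norm_integral_mul_le hbdF hGs1.le).trans ?_
        have hl0mem : l0 ∈ Finset.Icc (-(K : ℤ)) K := by
          rw [Finset.mem_Icc]; exact abs_le.mp hl0K
        have hrmem : r ∈ Finset.Icc (-(M : ℤ)) M := by
          rw [Finset.mem_Icc]; omega
        have hb := hfinH l0 hl0mem r hrmem (l0 - ls) (a0 - as)
          (fun j => l j.castSucc - ls) (fun j => a j.castSucc - as)
          (hl (Fin.last J)).1 (hl (Fin.last J)).2
          (fun j => by
            have := hl j.castSucc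
            have e3 : l0 - ls - (l j.castSucc - ls) = l0 - l j.castSucc := by ring
            simp only [e3]; exact this) g' hg'1 s' hs'1
        refine (Real.sqrt_le_sqrt hb).trans ?_
        rw [hVsh m m']
        have hv := hVnn m m'
        refine (sqrt_add_le (mul_nonneg hC'0 (Real.rpow_nonneg hv _)) hη''0.le).trans ?_
        rw [Real.sqrt_mul hC'0]
        have e4 : Real.sqrt ((V S (J + 1) (fun x => u (S.φ (l0 * m) x) *
            conj (u (S.φ (l0 * m') x)))) ^ κ') = (V S (J + 1) (fun x => u (S.φ (l0 * m) x) *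
            conj (u (S.φ (l0 * m') x)))) ^ (κ' / 2) := by
          rw [Real.sqrt_eq_rpow, ← Real.rpow_mul hv]
          congr 1; ring
        have e5 : Real.sqrt η'' = η / 4 := by
          rw [hη'']; exact Real.sqrt_sq (by positivity)
        rw [e4, e5]
      · rw [if_neg hmm, hsum]
        have hB : B1 (fun x => ((H : ℂ)⁻¹ * ∑ h ∈ Finset.range H,
            s' h * ur (S.φ ((l0 - ls) * h + (a0 - as)) x) *
            ∏ j, g' j (S.φ ((l j.castSucc - ls) * h + (a j.castSucc - as)) x)) * Gs x) := by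
          refine B1.mul' ⟨?_, ?_⟩ hGs1
          · exact (Finset.measurable_sum (Finset.range H)
              (fun (h : ℕ) _ => (hterm (h : ℤ)).meas)).const_mul _
          · intro x
            rw [norm_mul, norm_inv, Complex.norm_natCast]
            have hH0 : (0 : ℝ) < H := by
              have : 0 < H := lt_of_lt_of_le hM0 hH
              exact_mod_cast this
            rw [inv_mul_le_iff₀ hH0, mul_one]
            refine (norm_sum_le _ _).trans ?_
            calc ∑ h ∈ Finset.range H, ‖s' h * ur (S.φ ((l0 - ls) * h + (a0 - as)) x) *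
                ∏ j, g' j (S.φ ((l j.castSucc - ls) * h + (a j.castSucc - as)) x)‖
                ≤ ∑ h ∈ Finset.range H, (1 : ℝ) := Finset.sum_le_sum fun h _ =>
                  (hterm (h : ℤ)).le x
              _ = H := by simp
        exact hB.norm_integral_le
    · have hrepl : ∀ m ∈ Finset.range M, ∀ m' ∈ Finset.range M,
          (if m < M ∧ m' < M then Real.sqrt C' * (V S (J + 1) (fun x =>
            u (S.φ (l0 * m) x) * conj (u (S.φ (l0 * m') x)))) ^ (κ' / 2) + η / 4 else (1 : ℝ)) =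
          Real.sqrt C' * (V S (J + 1) (fun x =>
            u (S.φ (l0 * m) x) * conj (u (S.φ (l0 * m') x)))) ^ (κ' / 2) + η / 4 := by
        intro m hm m' hm'
        rw [if_pos ⟨Finset.mem_range.mp hm, Finset.mem_range.mp hm'⟩]
      rw [Finset.sum_congr rfl fun m hm => Finset.sum_congr rfl fun m' hm' => hrepl m hm m' hm']
      rw [dsum (fun m m' => Real.sqrt C' * (V S (J + 1) (fun x =>
            u (S.φ (l0 * m) x) * conj (u (S.φ (l0 * m') x)))) ^ (κ' / 2) + η / 4)]
      have hne : (Finset.range M ×ˢ Finset.range M).Nonempty :=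
        ⟨(0, 0), by simp [hM0]⟩
      have hcard : (0 : ℝ) < ((Finset.range M ×ˢ Finset.range M).card : ℝ) := by
        exact_mod_cast hne.card_pos
      have h3 := avg_rpow (Finset.range M ×ˢ Finset.range M) hne
        (fun q => V S (J + 1) (fun x => u (S.φ (l0 * (q.1 : ℤ)) x) *
          conj (u (S.φ (l0 * (q.2 : ℤ)) x))))
        (fun q _ => hVnn q.1 q.2) (p := κ' / 2) (by positivity) (by linarith)
      have h4 := hM l0 hl0 hl0K
      rw [dsum (fun m m' => V S (J + 1) (fun x => u (S.φ (l0 * m) x) *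
        conj (u (S.φ (l0 * m') x))))] at h4
      have hV2 := (hbd X μ S (J + 1 + 1) u hu).1
      have h5 : ((Finset.range M ×ˢ Finset.range M).card : ℝ)⁻¹ *
            ∑ q ∈ Finset.range M ×ˢ Finset.range M, (Real.sqrt C' *
              (V S (J + 1) (fun x => u (S.φ (l0 * (q.1 : ℤ)) x) *
              conj (u (S.φ (l0 * (q.2 : ℤ)) x)))) ^ (κ' / 2) + η / 4) =
          Real.sqrt C' * (((Finset.range M ×ˢ Finset.range M).card : ℝ)⁻¹ *
            ∑ q ∈ Finset.range M ×ˢ Finset.range M, (V S (J + 1) (fun x =>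
              u (S.φ (l0 * (q.1 : ℤ)) x) * conj (u (S.φ (l0 * (q.2 : ℤ)) x)))) ^ (κ' / 2)) +
            η / 4 := by
        rw [Finset.sum_add_distrib, ← Finset.mul_sum, Finset.sum_const, nsmul_eq_mul]
        field_simp
      rw [h5]
      have h6 : ((Finset.range M ×ˢ Finset.range M).card : ℝ)⁻¹ *
            ∑ q ∈ Finset.range M ×ˢ Finset.range M, (V S (J + 1) (fun x =>
              u (S.φ (l0 * (q.1 : ℤ)) x) * conj (u (S.φ (l0 * (q.2 : ℤ)) x)))) ^ (κ' / 2) ≤
          (4 * (K : ℝ) ^ 2) ^ (κ' / 2) * ((V S (J + 1 + 1) u) ^ (κ' / 2) + η' ^ (κ' / 2)) := by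
        refine h3.trans ?_
        refine (Real.rpow_le_rpow ?_ h4 (by positivity)).trans ?_
        · exact mul_nonneg (by positivity) (Finset.sum_nonneg fun q _ => hVnn q.1 q.2)
        · rw [Real.mul_rpow (by positivity) (add_nonneg hV2 hη'0.le)]
          gcongr
          exact Real.rpow_add_le_add_rpow hV2 hη'0.le (by positivity) (by linarith)
      have h7 : η' ^ (κ' / 2) = η / (2 * (A + 1)) := by
        rw [hη', ← Real.rpow_mul (by positivity)]
        rw [show 2 / κ' * (κ' / 2) = 1 by field_simp]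
        exact Real.rpow_one _
      rw [h7] at h6
      have h8 : Real.sqrt C' * (((Finset.range M ×ˢ Finset.range M).card : ℝ)⁻¹ *
            ∑ q ∈ Finset.range M ×ˢ Finset.range M, (V S (J + 1) (fun x =>
              u (S.φ (l0 * (q.1 : ℤ)) x) * conj (u (S.φ (l0 * (q.2 : ℤ)) x)))) ^ (κ' / 2)) ≤
          Real.sqrt C' * ((4 * (K : ℝ) ^ 2) ^ (κ' / 2) *
            ((V S (J + 1 + 1) u) ^ (κ' / 2) + η / (2 * (A + 1)))) :=
        mul_le_mul_of_nonneg_left h6 (Real.sqrt_nonneg _)
      have h9 : A * (η / (2 * (A + 1))) ≤ η / 2 := by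
        rw [mul_div_assoc', div_le_div_iff₀ (by positivity) (by norm_num)]
        nlinarith
      calc 2 * (Real.sqrt C' * (((Finset.range M ×ˢ Finset.range M).card : ℝ)⁻¹ *
            ∑ q ∈ Finset.range M ×ˢ Finset.range M, (V S (J + 1) (fun x =>
              u (S.φ (l0 * (q.1 : ℤ)) x) * conj (u (S.φ (l0 * (q.2 : ℤ)) x)))) ^ (κ' / 2)) +
            η / 4)
          ≤ 2 * (Real.sqrt C' * ((4 * (K : ℝ) ^ 2) ^ (κ' / 2) *
            ((V S (J + 1 + 1) u) ^ (κ' / 2) + η / (2 * (A + 1)))) + η / 4) := by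
            gcongr
        _ = A * (V S (J + 1 + 1) u) ^ (κ' / 2) + (A * (η / (2 * (A + 1))) + η / 2) := by
            rw [hA]; ring
        _ ≤ A * (V S (J + 1 + 1) u) ^ (κ' / 2) + η := by linarith

end Pool.Agent.SqF
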