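import Pool.Agent.SqF.Targets
import Pool.Agent.SqF.Basic
import Pool.Agent.SqF.BOX
import Pool.Agent.SqF.CUBEALG

/-!
# MP_0b2319_an, part NB: common boxes for two seminorms
-/

set_option autoImplicit false

open MeasureTheory Filter Topology
open scoped ComplexConjugate

namespace Pool.Agent.SqF

namespace NB

variable {X : Type} [MeasurableSpace X] {μ : Measure X}

lemma cubeF_succ (S : Sys X μ) (r : ℕ) (F : X → ℂ) (h h' : Fin (r + 1) → ℕ) :
    cubeF S (r + 1) F h h' =
      cubeF S r (fun x => F (S.φ (h 0) x) * conj (F (S.φ (h' 0) x))) (Fin.tail h) (Fin.tail h') := by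
  funext x
  unfold cubeF
  rw [cb]
  congr 1
  funext t
  rw [CUBEALG.sm_cons, CUBEALG.sm_cons, S.add, S.add]

lemma aE_mono' {n : ℕ} {F G : ℕ → ℝ} (h : ∀ t, t < n → F t ≤ G t) :
    BOX.aE n F ≤ BOX.aE n G := by
  unfold BOX.aE
  rw [smul_eq_mul, smul_eq_mul]
  exact mul_le_mul_of_nonneg_left
    (Finset.sum_le_sum fun i hi => h i (Finset.mem_range.1 hi)) (by positivity)

lemma aE_sub_const {n : ℕ} (hn : 0 < n) (F : ℕ → ℝ) (c : ℝ) :
    BOX.aE n (fun k => F k - c) = BOX.aE n F - c := by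
  unfold BOX.aE
  have : (n : ℝ) ≠ 0 := by positivity
  rw [Finset.sum_sub_distrib, smul_sub, Finset.sum_const, Finset.card_range, nsmul_eq_mul,
    smul_eq_mul, smul_eq_mul, ← mul_assoc, inv_mul_cancel₀ this, one_mul]

lemma aE_aE (n : ℕ) (F : ℕ → ℕ → ℝ) :
    BOX.aE n (fun k => BOX.aE n (fun k' => F k k')) =
      ((n : ℝ) ^ 2)⁻¹ * ∑ h ∈ Finset.range n, ∑ h' ∈ Finset.range n, F h h' := by
  unfold BOX.aE
  simp only [smul_eq_mul]
  rw [← Finset.mul_sum, ← mul_assoc, sq, mul_inv]

/-- the double box average over `cons H₀ H` -/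
lemma double_box {r : ℕ} (H₀ : ℕ) (H : Fin r → ℕ) (G : (Fin (r + 1) → ℕ) → (Fin (r + 1) → ℕ) → ℝ) :
    boxE (Fin.cons H₀ H : Fin (r + 1) → ℕ) (fun h => boxE (Fin.cons H₀ H : Fin (r + 1) → ℕ)
      (fun h' => G h h')) =
    BOX.aE H₀ (fun k => BOX.aE H₀ (fun k' => boxE H (fun t => boxE H (fun t' =>
      G (Fin.cons k t) (Fin.cons k' t'))))) := by
  rw [BOX.boxE_succ]
  simp only [Fin.cons_zero, Fin.tail_cons]
  congr 1
  funext k
  rw [BOX.aE_boxE_comm]
  congr 1
  funext t
  rw [BOX.boxE_succ]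
  simp only [Fin.cons_zero, Fin.tail_cons]

lemma main (hbd : T_V_bd) (htd : T_V_tendsto) [IsProbabilityMeasure μ] (S : Sys X μ) : ∀ (r : ℕ)
    (A : Type) [Finite A] (F : A → X → ℂ), (∀ a, B1 (F a)) → ∀ η > (0 : ℝ),
    ∃ H : Fin r → ℕ, (∀ j, 0 < H j) ∧ ∀ a,
    V S (r + 1) (F a) - η ≤ boxE H (fun h => boxE H fun h' => V S 1 (cubeF S r (F a) h h')) ∧
    boxE H (fun h => boxE H fun h' => V S 0 (cubeF S r (F a) h h')) ≤ V S r (F a) + η := by
  intro r
  induction r with
  | zero =>
    intro A _ F hF η hη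
    refine ⟨fun _ => 1, fun j => Nat.one_pos, fun a => ?_⟩
    have h1 : ∀ h h', cubeF S 0 (F a) h h' = F a := by
      intro h h'
      funext x
      have : sm h = 0 := by simp [sm]
      change F a (S.φ (sm h) x) = F a x
      rw [this, S.zero]
    simp only [h1]
    rw [boxE_const (fun _ => Nat.one_pos), boxE_const (fun _ => Nat.one_pos),
      boxE_const (fun _ => Nat.one_pos), boxE_const (fun _ => Nat.one_pos)]
    simp only [zero_add]
    exact ⟨by linarith, by linarith⟩
  | succ r ih =>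
    intro A _ F hF η hη
    have hη2 : 0 < η / 2 := by linarith
    have ev1 : ∀ a, ∀ᶠ H : ℕ in (hyperfilter ℕ : Filter ℕ),
        V S (r + 1 + 1) (F a) - η / 2 ≤ ((H : ℝ) ^ 2)⁻¹ *
      ∑ h ∈ Finset.range H, ∑ h' ∈ Finset.range H,
        V S (r + 1) (fun x => F a (S.φ h x) * conj (F a (S.φ h' x))) := fun a =>
      (htd X μ S (r + 1) (F a) (hF a)).eventually_const_le (by linarith)
    have ev2 : ∀ a, ∀ᶠ H : ℕ in (hyperfilter ℕ : Filter ℕ),
        ((H : ℝ) ^ 2)⁻¹ *
      ∑ h ∈ Finset.range H, ∑ h' ∈ Finset.range H,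
        V S r (fun x => F a (S.φ h x) * conj (F a (S.φ h' x))) ≤ V S (r + 1) (F a) + η / 2 :=
      fun a => (htd X μ S r (F a) (hF a)).eventually_le_const (by linarith)
    obtain ⟨H₀, hH1, hH2, hH3⟩ := ((eventually_all.2 ev1).and ((eventually_all.2 ev2).and
      (hyperfilter_eventually_ge 1))).exists
    have hH0 : 0 < H₀ := hH3
    obtain ⟨H, hHp, hH⟩ := ih (A × Fin H₀ × Fin H₀)
      (fun p x => F p.1 (S.φ (p.2.1 : ℕ) x) * conj (F p.1 (S.φ (p.2.2 : ℕ) x)))
      (fun p => ((hF p.1).sh S _).mul' ((hF p.1).sh S _).conj') (η / 2) hη2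
    refine ⟨Fin.cons H₀ H, ?_, fun a => ?_⟩
    · intro j
      refine Fin.cases ?_ (fun i => ?_) j
      · simpa using hH0
      · simpa using hHp i
    · have key : ∀ s, boxE (Fin.cons H₀ H : Fin (r + 1) → ℕ) (fun h =>
          boxE (Fin.cons H₀ H : Fin (r + 1) → ℕ) fun h' => V S s (cubeF S (r + 1) (F a) h h')) =
          BOX.aE H₀ (fun k => BOX.aE H₀ (fun k' => boxE H (fun t => boxE H (fun t' =>
            V S s (cubeF S r (fun x => F a (S.φ k x) * conj (F a (S.φ k' x))) t t'))))) := by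
        intro s
        rw [double_box]
        congr 1
        funext k
        congr 1
        funext k'
        congr 1
        funext t
        congr 1
        funext t'
        rw [cubeF_succ]
        simp only [Fin.cons_zero, Fin.tail_cons]
      constructor
      · rw [key 1]
        have h1 : BOX.aE H₀ (fun k => BOX.aE H₀ (fun k' =>
            V S (r + 1) (fun x => F a (S.φ k x) * conj (F a (S.φ k' x))) - η / 2)) ≤
            BOX.aE H₀ (fun k => BOX.aE H₀ (fun k' => boxE H (fun t => boxE H (fun t' =>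
            V S 1 (cubeF S r (fun x => F a (S.φ k x) * conj (F a (S.φ k' x))) t t'))))) := by
          refine aE_mono' fun k hk => aE_mono' fun k' hk' => ?_
          exact (hH (a, ⟨k, hk⟩, ⟨k', hk'⟩)).1
        have h2 : BOX.aE H₀ (fun k => BOX.aE H₀ (fun k' =>
            V S (r + 1) (fun x => F a (S.φ k x) * conj (F a (S.φ k' x))) - η / 2)) =
            BOX.aE H₀ (fun k => BOX.aE H₀ (fun k' =>
            V S (r + 1) (fun x => F a (S.φ k x) * conj (F a (S.φ k' x))))) - η / 2 := by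
          simp only [aE_sub_const hH0]
        rw [h2, aE_aE] at h1
        have h3 := hH1 a
        linarith
      · rw [key 0]
        have h1 : BOX.aE H₀ (fun k => BOX.aE H₀ (fun k' => boxE H (fun t => boxE H (fun t' =>
            V S 0 (cubeF S r (fun x => F a (S.φ k x) * conj (F a (S.φ k' x))) t t'))))) ≤
            BOX.aE H₀ (fun k => BOX.aE H₀ (fun k' =>
            V S r (fun x => F a (S.φ k x) * conj (F a (S.φ k' x))) - (-(η / 2)))) := by
          refine aE_mono' fun k hk => aE_mono' fun k' hk' => ?_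
          rw [sub_neg_eq_add]
          exact (hH (a, ⟨k, hk⟩, ⟨k', hk'⟩)).2
        have h2 : BOX.aE H₀ (fun k => BOX.aE H₀ (fun k' =>
            V S r (fun x => F a (S.φ k x) * conj (F a (S.φ k' x))) - (-(η / 2)))) =
            BOX.aE H₀ (fun k => BOX.aE H₀ (fun k' =>
            V S r (fun x => F a (S.φ k x) * conj (F a (S.φ k' x))))) - (-(η / 2)) := by
          simp only [aE_sub_const hH0]
        have h4 := aE_aE H₀ (fun k k' =>
          V S r (fun x => F a (S.φ k x) * conj (F a (S.φ k' x))))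
        rw [h2, h4] at h1
        have h3 := hH2 a
        linarith

end NB

theorem nb (hbd : T_V_bd) (htd : T_V_tendsto) : T_NB := by
  intro X _ μ _ S r F hF η hη
  obtain ⟨H, h1, h2⟩ := NB.main hbd htd S r Unit (fun _ => F) (fun _ => hF) η hη
  exact ⟨H, h1, h2 ()⟩

end Pool.Agent.SqF
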