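import Pool.Agent.SqF.Targets
import Pool.Agent.SqF.Basic

/-! SQF-PASTEP: `T_PA_step` from `T_DEG`, `T_H1`, `T_RES`, `T_GAUSS`, `T_B0`. -/

set_option autoImplicit false

open MeasureTheory Filter Topology
open scoped ComplexConjugate

namespace Pool.Agent.SqF

namespace PASTEP

/-- adding one weight -/
noncomputable def addw {ι : Type} (w : Wts ι) (c : ℝ) (ty : Bool) (β : ℝ) : Wts (Option ι) where
  c := fun o => o.elim c w.c
  ty := fun o => o.elim ty w.ty
  β := fun o => o.elim β w.β

lemma addw_ok {ι : Type} {w : Wts ι} (hw : w.Ok) {c : ℝ} {ty : Bool} {β : ℝ} (hc : 0 < c)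
    (hn : ∀ m : ℤ, c ≠ m) (hlt : ∀ i, c < w.c i) (h1 : ty = true → Irrational β)
    (h2 : ty = false → β ≠ 0) : (addw w c ty β).Ok where
  inj := by
    rintro (_ | i) (_ | j) h
    · rfl
    · exact absurd h (hlt j).ne
    · exact absurd h (hlt i).ne'
    · rw [hw.inj h]
  pos := by
    rintro (_ | i)
    · exact hc
    · exact hw.pos i
  nonint := by
    rintro (_ | i)
    · exact hn
    · exact hw.nonint i
  irr := by
    rintro (_ | i)
    · exact h1
    · exact hw.irr i
  ne := by
    rintro (_ | i)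
    · exact h2
    · exact hw.ne i

lemma addw_w_true {ι : Type} [Fintype ι] (w : Wts ι) (c : ℝ) (β : ℝ) (n : ℕ) :
    (addw w c true β).w n = w.w n * e (β * (b c n : ℝ)) := by
  unfold Wts.w Wts.ph
  rw [Fintype.sum_option, e_add, mul_comm]
  rfl

lemma addw_w_false {ι : Type} [Fintype ι] (w : Wts ι) (c : ℝ) (β : ℝ) (n : ℕ) :
    (addw w c false β).w n = w.w n * e (β * (n : ℝ) ^ c) := by
  unfold Wts.w Wts.ph
  rw [Fintype.sum_option, e_add, mul_comm]
  rfl

lemma norm_w {ι : Type} [Fintype ι] (w : Wts ι) (n : ℕ) : ‖w.w n‖ = 1 := norm_e _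

lemma wv_B1 {X : Type} [MeasurableSpace X] {μ : Measure X} (S : Sys X μ) {m : ℕ}
    (bs : Fin m → ℕ → ℤ) (w : ℕ → ℂ) (hw : ∀ n, ‖w n‖ ≤ 1) (g : Fin m → X → ℂ)
    (hg : ∀ i, B1 (g i)) (n : ℕ) : B1 (fun x => w n * ∏ i, g i (S.φ (bs i n) x)) :=
  (B1.prod' Finset.univ fun i _ => (hg i).sh S (bs i n)).const_mul' (hw n)

/-- splitting `e (a k^2)` according to the residue of `k` -/
lemma e_split (a : ℚ) (k : ℤ) : e ((a : ℝ) * ((k ^ 2 : ℤ) : ℝ)) =
    ∑ t ∈ Finset.range a.den, e ((a.num : ℝ) * (t : ℝ) ^ 2 / a.den) *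
      (if k % (a.den : ℤ) = (t : ℤ) then (1 : ℂ) else 0) := by
  have hq : (0 : ℤ) < a.den := by exact_mod_cast a.den_pos
  have hqr : (a.den : ℝ) ≠ 0 := by exact_mod_cast a.den_pos.ne'
  have h0 : 0 ≤ k % (a.den : ℤ) := Int.emod_nonneg _ hq.ne'
  have h1 : k % (a.den : ℤ) < a.den := Int.emod_lt_of_pos _ hq
  obtain ⟨t, ht⟩ := Int.eq_ofNat_of_zero_le h0
  rw [ht]
  have ht' : t ∈ Finset.range a.den := by
    rw [Finset.mem_range]; rw [ht] at h1; exact_mod_cast h1
  rw [Finset.sum_eq_single_of_mem t ht']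
  · rw [if_pos rfl, mul_one]
    have hk : k = a.den * (k / a.den) + t := by
      rw [← ht]; exact (Int.mul_ediv_add_emod k a.den).symm
    set s := k / (a.den : ℤ) with hs
    have ha : (a : ℝ) = a.num / a.den := by
      have := Rat.num_div_den a
      exact_mod_cast this.symm
    have e1 : (a : ℝ) * ((k ^ 2 : ℤ) : ℝ) = (a.num : ℝ) * (t : ℝ) ^ 2 / a.den +
        ((a.num * (a.den * s ^ 2 + 2 * s * t) : ℤ) : ℝ) := by
      rw [hk, ha]
      push_cast
      field_simp
      ring
    rw [e1, e_add_int]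
  · intro t' _ hne
    rw [if_neg, mul_zero]
    intro h
    apply hne
    exact_mod_cast h.symm

/-- hypothesis (A3) for all admissible weights -/
lemma A3_of (hRES : T_RES) (hGAUSS : T_GAUSS) (hB0 : T_B0) {m : ℕ} (hPb : T_Pb m)
    {X : Type} [MeasurableSpace X] {μ : Measure X} [IsProbabilityMeasure μ] (S : Sys X μ)
    (hS : Ergodic (S.φ 1) μ) (c : Fin m → ℝ) (cm : ℝ) (hc : Exps c) (hlt : ∀ i, c i < cm)
    (hcm : 0 < cm) (hni : ∀ z : ℤ, cm ≠ z) {ι : Type} [Fintype ι] (w : Wts ι) (hw : w.Ok)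
    (hwc : ∀ i, cm < w.c i) : A3 S (fun i => b (c i)) (b cm) w.w := by
  intro ε hε
  -- the exceptional set
  obtain ⟨q0, hq0⟩ := exists_nat_gt (8 / ε)
  refine ⟨(Finset.range (q0 + 1)).biUnion fun q =>
    (Finset.range q).image fun p : ℕ => (p : ℚ) / (q : ℚ), ?_⟩
  intro α hα g hg
  by_cases hirr : Irrational α
  · -- irrational
    have hok := addw_ok hw (ty := true) (β := α) hcm hni hwc (fun _ => hirr) (by simp)
    have h1 := hPb X μ S hS c hc (Option ι) (addw w cm true α) hok (by
      rintro (_ | i) j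
      · exact hlt j
      · exact (hlt j).trans (hwc i)) g hg
    have h2 := h1.eventually (gt_mem_nhds hε)
    filter_upwards [h2] with N hN
    refine le_of_eq_of_le ?_ hN.le
    congr 1
    unfold mav
    congr 1
    funext n x
    rw [addw_w_true]
  · -- rational
    obtain ⟨a, rfl⟩ : ∃ a : ℚ, (a : ℝ) = α := by
      unfold Irrational at hirr
      push Not at hirr
      exact hirr
    have hqpos := a.den_pos
    have hq : q0 < a.den := by
      by_contra hle
      push Not at hle
      have hq' : (0 : ℤ) < a.den := by exact_mod_cast hqpos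
      have h0 : 0 ≤ a.num % (a.den : ℤ) := Int.emod_nonneg _ hq'.ne'
      have h1 : a.num % (a.den : ℤ) < a.den := Int.emod_lt_of_pos _ hq'
      obtain ⟨t, ht⟩ := Int.eq_ofNat_of_zero_le h0
      have hmem : ((t : ℚ) / (a.den : ℚ)) ∈ (Finset.range (q0 + 1)).biUnion fun q =>
          (Finset.range q).image fun p : ℕ => (p : ℚ) / (q : ℚ) := by
        rw [Finset.mem_biUnion]
        refine ⟨a.den, Finset.mem_range.mpr (by omega), ?_⟩
        rw [Finset.mem_image]
        refine ⟨t, Finset.mem_range.mpr ?_, rfl⟩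
        rw [ht] at h1; exact_mod_cast h1
      apply hα _ hmem (a.num / (a.den : ℤ))
      have hk : a.num = a.den * (a.num / a.den) + t := by
        rw [← ht]; exact (Int.mul_ediv_add_emod a.num a.den).symm
      have ha : (a : ℝ) = a.num / a.den := by
        have := Rat.num_div_den a
        exact_mod_cast this.symm
      have hdr : (a.den : ℝ) ≠ 0 := by exact_mod_cast hqpos.ne'
      rw [ha]
      have hk' : (a.num : ℝ) = a.den * ((a.num / (a.den : ℤ) : ℤ) : ℝ) + t := by
        exact_mod_cast hk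
      push_cast
      rw [eq_comm, div_add' _ _ _ hdr]
      congr 1
      rw [hk']
      have : ((((a.den : ℝ) * ((a.num / (a.den : ℤ) : ℤ) : ℝ) + t) : ℝ)) =
        a.den * ((a.num / (a.den : ℤ) : ℤ) : ℝ) + t := rfl
      ring
    have hqr : (0 : ℝ) < a.den := by exact_mod_cast hqpos
    -- the functions
    set v : ℕ → X → ℂ := fun n x => w.w n * ∏ i, g i (S.φ (b (c i) n) x) with hv
    have hvB : ∀ n, B1 (v n) := wv_B1 S _ _ (fun n => (norm_w w n).le) g hg
    have hR := hRES X μ v hvB (fun n => (n : ℝ) ^ cm) a.den hqpos (by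
      intro l hl
      have hβ : (l : ℝ) / a.den ≠ 0 := div_ne_zero (by exact_mod_cast hl) hqr.ne'
      have hok := addw_ok hw (ty := false) (β := (l : ℝ) / a.den) hcm hni hwc (by simp)
        (fun _ => hβ)
      have h1 := hPb X μ S hS c hc (Option ι) (addw w cm false ((l : ℝ) / a.den)) hok (by
        rintro (_ | i) j
        · exact hlt j
        · exact (hlt j).trans (hwc i)) g hg
      refine h1.congr fun N => ?_
      congr 1
      unfold mav
      congr 1
      funext n x
      rw [addw_w_false, hv]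
      have : (l : ℝ) / a.den * (n : ℝ) ^ cm = l * ((n : ℝ) ^ cm / a.den) := by ring
      rw [this]; ring) (by
      intro l hl
      have hβ : (l : ℝ) / a.den ≠ 0 := div_ne_zero (by exact_mod_cast hl) hqr.ne'
      have h1 := hB0 Unit ⟨fun _ => cm, fun _ => false, fun _ => (l : ℝ) / a.den⟩
        { inj := fun _ _ _ => rfl
          pos := fun _ => hcm
          nonint := fun _ => hni
          irr := fun _ h => by simp at h
          ne := fun _ _ => hβ }
      refine h1.congr fun N => ?_
      congr 1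
      funext n
      unfold Wts.w Wts.ph
      congr 1
      simp only [Finset.univ_unique, Finset.sum_singleton]
      rw [if_neg (by simp)]
      ring)
    -- names
    set E : ℕ → ℂ := fun t => e ((a.num : ℝ) * (t : ℝ) ^ 2 / a.den) with hE
    set U : ℕ → ℕ → X → ℂ := fun t N => av N (fun n y =>
      ((if ⌊(n : ℝ) ^ cm⌋ % (a.den : ℤ) = (t : ℤ) then (1 : ℂ) else 0) - (a.den : ℂ)⁻¹) * v n y)
      with hU
    have hU0 : ∀ t ∈ Finset.range a.den, Tendsto (fun N => Q μ (U t N)) atTop (𝓝 0) := by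
      intro t ht
      exact hR t (by positivity) (by exact_mod_cast Finset.mem_range.mp ht)
    have hUbd : ∀ t N, Bd (U t N) := by
      intro t N
      have h1 : U t N = fun x => (L N : ℂ)⁻¹ * ∑ n ∈ W N,
        ((if ⌊(n : ℝ) ^ cm⌋ % (a.den : ℤ) = (t : ℤ) then (1 : ℂ) else 0) - (a.den : ℂ)⁻¹) *
          v n x := rfl
      rw [h1]
      exact (Bd.sum _ fun n _ => ((hvB n).bd.const_mul _)).const_mul _
    have hdec : ∀ N, mav S (fun i => b (c i)) (fun n => w.w n * e ((a : ℝ) * (b cm n : ℝ))) g N =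
        fun x => (∑ t ∈ Finset.range a.den, E t * U t N x) +
          ((a.den : ℂ)⁻¹ * ∑ t ∈ Finset.range a.den, E t) * av N v x := by
      intro N
      funext x
      have h1 : ∀ t, E t * U t N x = avs N (fun n => E t * (((if ⌊(n : ℝ) ^ cm⌋ % (a.den : ℤ) =
          (t : ℤ) then (1 : ℂ) else 0) - (a.den : ℂ)⁻¹) * v n x)) := by
        intro t
        rw [avs_mul_left]; rfl
      rw [av_apply, ← avs_mul_left, Finset.sum_congr rfl fun t _ => h1 t, ← avs_sum, ← avs_add]
      unfold mav
      rw [av_apply]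
      congr 1
      funext n
      have h2 := e_split a ⌊(n : ℝ) ^ cm⌋
      show w.w n * e ((a : ℝ) * ((⌊(n : ℝ) ^ cm⌋ ^ 2 : ℤ) : ℝ)) *
        ∏ i, g i (S.φ (b (c i) n) x) = _
      rw [h2]
      have h4 : v n x = w.w n * ∏ i, g i (S.φ (b (c i) n) x) := rfl
      rw [h4]
      generalize ∏ i, g i (S.φ (b (c i) n) x) = P
      rw [Finset.mul_sum, Finset.sum_mul, Finset.mul_sum, Finset.sum_mul,
        ← Finset.sum_add_distrib]
      apply Finset.sum_congr rfl
      intro t _
      simp only [hE]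
      ring
    have hG := hGAUSS a.num a.den hqpos (by
      have := a.reduced
      rw [Int.isCoprime_iff_gcd_eq_one]
      exact this)
    have hQ : ∀ N, Q μ (mav S (fun i => b (c i)) (fun n => w.w n * e ((a : ℝ) * (b cm n : ℝ))) g N)
        ≤ 2 * (a.den * ∑ t ∈ Finset.range a.den, Q μ (U t N)) + ε / 2 := by
      intro N
      rw [hdec N]
      have hb1 : Bd (fun x => ∑ t ∈ Finset.range a.den, E t * U t N x) :=
        Bd.sum _ fun t _ => (hUbd t N).const_mul _
      have hb2 : Bd (fun x => ((a.den : ℂ)⁻¹ * ∑ t ∈ Finset.range a.den, E t) * av N v x) :=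
        (B1.av' hvB).bd.const_mul _
      refine (Q_add_le hb1 hb2).trans ?_
      have h1 : Q μ (fun x => ∑ t ∈ Finset.range a.den, E t * U t N x) ≤
          a.den * ∑ t ∈ Finset.range a.den, Q μ (U t N) := by
        refine (Q_sum_le _ fun t _ => (hUbd t N).const_mul (E t)).trans ?_
        rw [Finset.card_range]
        apply le_of_eq
        congr 1
        apply Finset.sum_congr rfl
        intro t _
        rw [Q_const_mul, hE, norm_e]
        ring
      have h2 : Q μ (fun x => ((a.den : ℂ)⁻¹ * ∑ t ∈ Finset.range a.den, E t) * av N v x) ≤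
          2 / a.den := by
        rw [Q_const_mul]
        calc ‖(a.den : ℂ)⁻¹ * ∑ t ∈ Finset.range a.den, E t‖ ^ 2 * Q μ (av N v)
            ≤ (2 / a.den) * 1 := by
              apply mul_le_mul hG (Q_le_one (B1.av' hvB)) (Q_nonneg _) (by positivity)
          _ = 2 / a.den := mul_one _
      have h3 : (2 : ℝ) * (2 / a.den) ≤ ε / 2 := by
        have h4 : 8 / ε < a.den := hq0.trans (by exact_mod_cast hq)
        rw [div_lt_iff₀ hε] at h4
        rw [mul_div_assoc', div_le_iff₀ hqr]
        nlinarith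
      linarith
    have hlim : Tendsto (fun N => 2 * (a.den * ∑ t ∈ Finset.range a.den, Q μ (U t N))) atTop
        (𝓝 0) := by
      have h1 := tendsto_finsetSum (Finset.range a.den) hU0
      have h2 := (h1.const_mul (a.den : ℝ)).const_mul (2 : ℝ)
      simpa using h2
    filter_upwards [hlim.eventually (gt_mem_nhds (half_pos hε))] with N hN
    have := hQ N
    linarith

end PASTEP

open PASTEP in
theorem pa_step (hDEG : T_DEG) (hH1 : T_H1) (hRES : T_RES) (hGAUSS : T_GAUSS) (hB0 : T_B0) :
    T_PA_step := by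
  intro m hPb X _ μ _ S hS c cm hc hlt hcm hni ι _ w hw hwc f hf hfo g hg
  have hA1 : A1 S (fun i => b (c i)) (b cm) w.w :=
    hH1 X μ S m c cm hc.pos hlt hcm hni w.w (fun n => (norm_w w n).le)
  have hA3 : A3 S (fun i => b (c i)) (b cm) w.w :=
    A3_of hRES hGAUSS hB0 hPb S hS c cm hc hlt hcm hni w hw hwc
  have hA3' : A3 S (fun i => b (c i)) (b cm) (fun _ => 1) := by
    have w0 : Wts Empty := ⟨fun i => i.elim, fun i => i.elim, fun i => i.elim⟩
    have h := A3_of hRES hGAUSS hB0 hPb S hS c cm hc hlt hcm hni w0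
      { inj := fun i => i.elim
        pos := fun i => i.elim
        nonint := fun i => i.elim
        irr := fun i => i.elim
        ne := fun i => i.elim } (fun i => i.elim)
    have h1 : w0.w = fun _ => 1 := by
      funext n
      unfold Wts.w Wts.ph
      simp [e_zero]
    rwa [h1] at h
  exact hDEG X μ S hS m _ _ _ (norm_w w) hA1 hA3 hA3' f hf hfo g hg

end Pool.Agent.SqF
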