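import Pool.Agent.SqF.Targets
import Pool.Agent.SqF.Basic

/-!
# SQF-PBSTEP (helper38): the induction step for nontrivial weights

The common decomposition lemma `PBSTEP.decomp` is also used in `PCSTEP.lean`.
-/

set_option autoImplicit false

open MeasureTheory Filter Topology
open scoped ComplexConjugate

namespace Pool.Agent.SqF

namespace PBSTEP

variable {X : Type} [MeasurableSpace X] {μ : Measure X}

/-- invariance under multiples -/
lemma inv_mul (S : Sys X μ) {G : X → ℂ} {r : ℤ} (h : ∀ᵐ x ∂μ, G (S.φ r x) = G x) (k : ℤ) :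
    ∀ᵐ x ∂μ, G (S.φ (k * r) x) = G x := by
  induction k using Int.induction_on with
  | zero => simp [S.zero]
  | succ k ih =>
    filter_upwards [ih, S.ae_comp (k * r) h] with x h1 h2
    rw [add_mul, one_mul, add_comm, S.add, h2, h1]
  | pred k ih =>
    filter_upwards [ih, S.ae_comp (-k * r - r) h] with x h1 h2
    rw [sub_mul, one_mul, ← h2, ← S.add]
    rw [← h1]
    congr 2
    ring

/-- a function invariant under `φ r` only sees the residue -/
lemma inv_res (S : Sys X μ) {G : X → ℂ} {r : ℕ} (hr : 0 < r)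
    (h : ∀ᵐ x ∂μ, G (S.φ r x) = G x) (a : ℤ) :
    ∀ᵐ y ∂μ, G (S.φ (a ^ 2) y) =
      ∑ t ∈ Finset.range r, (if a % (r : ℤ) = (t : ℤ) then (1 : ℂ) else 0) *
        G (S.φ ((t : ℤ) ^ 2) y) := by
  have hr' : (0 : ℤ) < r := by exact_mod_cast hr
  have h0 := Int.emod_nonneg a hr'.ne'
  have h1 := Int.emod_lt_of_pos a hr'
  obtain ⟨t, ht⟩ := Int.eq_ofNat_of_zero_le h0
  have ht' : t < r := by
    have : (t : ℤ) < r := by rw [← ht]; exact h1
    exact_mod_cast this
  obtain ⟨k, hk⟩ : ∃ k : ℤ, a ^ 2 = k * r + (t : ℤ) ^ 2 := by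
    have h2 : (r : ℤ) ∣ a ^ 2 - (t : ℤ) ^ 2 := by
      have h3 : (r : ℤ) ∣ a - t := by
        rw [← ht]
        exact Int.dvd_self_sub_emod
      have h4 : a ^ 2 - (t : ℤ) ^ 2 = (a - t) * (a + t) := by ring
      rw [h4]
      exact h3.mul_right _
    obtain ⟨k, hk⟩ := h2
    exact ⟨k, by linarith [hk, mul_comm (r : ℤ) k]⟩
  filter_upwards [S.ae_comp ((t : ℤ) ^ 2) (inv_mul S h k)] with y hy
  rw [Finset.sum_eq_single t]
  · rw [if_pos ht, one_mul, hk, S.add, hy]
  · intro s _ hs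
    rw [if_neg, zero_mul]
    intro hcon
    rw [ht] at hcon
    exact hs (by exact_mod_cast hcon.symm)
  · intro hcon
    exact absurd (Finset.mem_range.2 ht') hcon

lemma mav_last (S : Sys X μ) {m : ℕ} (bs : Fin (m + 1) → ℕ → ℤ) (w : ℕ → ℂ)
    (f : Fin (m + 1) → X → ℂ) (N : ℕ) :
    mav S bs w f N = mav1 S (fun i : Fin m => bs (Fin.castSucc i)) (bs (Fin.last m)) w
      (fun i => f (Fin.castSucc i)) (f (Fin.last m)) N := by
  unfold mav mav1
  congr 1
  funext n x
  rw [Fin.prod_univ_castSucc, mul_assoc]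

lemma mav1_add (S : Sys X μ) {m : ℕ} (bs : Fin m → ℕ → ℤ) (bm : ℕ → ℤ) (w : ℕ → ℂ)
    (g : Fin m → X → ℂ) (f f' : X → ℂ) (N : ℕ) (x : X) :
    mav1 S bs bm w g (fun y => f y + f' y) N x =
      mav1 S bs bm w g f N x + mav1 S bs bm w g f' N x := by
  unfold mav1
  rw [av_apply, av_apply, av_apply, ← avs_add]
  congr 1
  funext n
  ring

lemma mav1_smul (S : Sys X μ) {m : ℕ} (bs : Fin m → ℕ → ℤ) (bm : ℕ → ℤ) (w : ℕ → ℂ)
    (g : Fin m → X → ℂ) (a : ℂ) (f : X → ℂ) (N : ℕ) (x : X) :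
    mav1 S bs bm w g (fun y => a * f y) N x = a * mav1 S bs bm w g f N x := by
  unfold mav1
  rw [av_apply, av_apply, ← avs_mul_left]
  congr 1
  funext n
  ring

lemma Bd_av {v : ℕ → X → ℂ} (hv : ∀ n, Bd (v n)) (N : ℕ) : Bd (av N v) := by
  unfold av
  exact (Bd.sum _ fun n _ => hv n).const_mul _

/-- the common decomposition -/
theorem decomp (hRAT : T_RAT) (hRES : T_RES) [IsProbabilityMeasure μ] (S : Sys X μ) {m : ℕ}
    (bs : Fin m → ℕ → ℤ) (x : ℕ → ℝ) (w : ℕ → ℂ) (hw : ∀ n, ‖w n‖ ≤ 1) (g : Fin m → X → ℂ)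
    (hg : ∀ i, B1 (g i)) (F : X → ℂ) (hF : B1 F)
    (hA : ∀ h : X → ℂ, B1 h → OrthRat S h →
      Tendsto (fun N => Q μ (mav1 S bs (fun n => ⌊x n⌋ ^ 2) w g h N)) atTop (𝓝 0))
    (hR : ∀ r : ℕ, 0 < r → ∀ l : ℤ, l ≠ 0 →
      Tendsto (fun N => Q μ (mav S bs (fun n => e (l * (x n / r)) * w n) g N)) atTop (𝓝 0))
    (hB : ∀ r : ℕ, 0 < r → ∀ l : ℤ, l ≠ 0 →
      Tendsto (fun N => avs N (fun n => e (l * (x n / r)))) atTop (𝓝 0))
    (ε : ℝ) (hε : 0 < ε) :
    ∃ D : X → ℂ, B1 D ∧ ∀ᶠ N in atTop,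
      Q μ (fun y => mav1 S bs (fun n => ⌊x n⌋ ^ 2) w g F N y - D y * mav S bs w g N y) ≤ ε := by
  obtain ⟨G, P, hG, hGinv, -, hP, hGP, hO⟩ := hRAT X μ S F hF
  obtain ⟨l, hl⟩ := (hGP.eventually (eventually_lt_nhds (show (0 : ℝ) < ε / 12 by positivity))).exists
  set r : ℕ := l.factorial with hr
  have hr0 : 0 < r := Nat.factorial_pos l
  set v : ℕ → X → ℂ := fun n y => w n * ∏ i, g i (S.φ (bs i n) y) with hv
  have hvB : ∀ n, B1 (v n) := fun n =>
    (B1.prod' _ fun i _ => (hg i).sh S _).const_mul' (hw n)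
  set bm : ℕ → ℤ := fun n => ⌊x n⌋ ^ 2 with hbm
  have hM : ∀ N, mav S bs w g N = av N v := fun N => rfl
  have hM1 : ∀ (h : X → ℂ) N, mav1 S bs bm w g h N = av N (fun n y => v n y * h (S.φ (bm n) y)) :=
    fun h N => rfl
  have hBd1 : ∀ (h : X → ℂ) N, Bd h → Bd (mav1 S bs bm w g h N) := by
    intro h N hh
    rw [hM1]
    refine Bd_av (fun n => (hvB n).bd.mul ?_) N
    exact ⟨hh.1.comp (S.meas _), hh.2.choose, fun y => hh.2.choose_spec _⟩
  -- the constant in the approximation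
  set D : X → ℂ := fun y => (r : ℂ)⁻¹ * ∑ t ∈ Finset.range r, G l (S.φ ((t : ℤ) ^ 2) y) with hD
  have hDB : B1 D := by
    refine ⟨(Finset.measurable_sum _ fun t _ => ((hG l).sh S _).meas).const_mul _, fun y => ?_⟩
    rw [hD]
    simp only
    rw [norm_mul, norm_inv, Complex.norm_natCast]
    have h1 : ‖∑ t ∈ Finset.range r, G l (S.φ ((t : ℤ) ^ 2) y)‖ ≤ r := by
      refine (norm_sum_le _ _).trans ((Finset.sum_le_sum fun t _ => (hG l).le _).trans ?_)
      simp
    have h2 : (0 : ℝ) < r := by exact_mod_cast hr0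
    rw [inv_mul_le_iff₀ h2, mul_one]
    exact h1
  refine ⟨D, hDB, ?_⟩
  -- first part
  have hO' : OrthRat S (fun y => (2 : ℂ)⁻¹ * (F y - P y)) := by
    intro q hq K hK hKi
    have := hO q hq K hK hKi
    have h2 : ∀ y, (2 : ℂ)⁻¹ * (F y - P y) * conj (K y) = (2 : ℂ)⁻¹ * ((F y - P y) * conj (K y)) :=
      fun y => by ring
    simp_rw [h2]
    rw [integral_const_mul, this, mul_zero]
  have hBh : B1 (fun y => (2 : ℂ)⁻¹ * (F y - P y)) := by
    refine ⟨(hF.meas.sub hP.meas).const_mul _, fun y => ?_⟩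
    rw [norm_mul, norm_inv]
    have h1 : ‖F y - P y‖ ≤ 2 := (norm_sub_le _ _).trans (by linarith [hF.le y, hP.le y])
    have h2 : ‖(2 : ℂ)‖ = 2 := by simp
    rw [h2]
    linarith
  have e1 := (hA _ hBh hO').eventually (eventually_lt_nhds (show (0 : ℝ) < ε / 48 by positivity))
  -- third part
  have hres := hRES X μ v hvB x r hr0 (by
    intro l' hl'
    refine (hR r hr0 l' hl').congr fun N => ?_
    unfold mav
    congr 2
    funext n y
    rw [hv]
    ring) (hB r hr0)
  have e3 : Tendsto (fun N => (r : ℝ) * ∑ t ∈ Finset.range r, Q μ (av N (fun n y =>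
      ((if ⌊x n⌋ % (r : ℤ) = (t : ℤ) then (1 : ℂ) else 0) - (r : ℂ)⁻¹) * v n y))) atTop (𝓝 0) := by
    have : Tendsto (fun N => (r : ℝ) * ∑ t ∈ Finset.range r, Q μ (av N (fun n y =>
      ((if ⌊x n⌋ % (r : ℤ) = (t : ℤ) then (1 : ℂ) else 0) - (r : ℂ)⁻¹) * v n y))) atTop
      (𝓝 ((r : ℝ) * ∑ t ∈ Finset.range r, (0 : ℝ))) := by
      refine Tendsto.const_mul _ (tendsto_finsetSum _ fun t ht => ?_)
      exact hres t (by positivity) (by exact_mod_cast Finset.mem_range.1 ht)
    simpa using this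
  have e3' := e3.eventually (eventually_lt_nhds (show (0 : ℝ) < ε / 6 by positivity))
  filter_upwards [e1, e3'] with N h1 h3
  have hsplit : ∀ y, mav1 S bs bm w g F N y - D y * mav S bs w g N y =
      (mav1 S bs bm w g (fun y => F y - P y) N y + mav1 S bs bm w g (fun y => P y - G l y) N y) +
      (mav1 S bs bm w g (G l) N y - D y * mav S bs w g N y) := by
    intro y
    have h4 : mav1 S bs bm w g F N y = mav1 S bs bm w g (fun y => (F y - P y) + (P y - G l y)) N y +
        mav1 S bs bm w g (G l) N y := by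
      rw [← mav1_add]
      congr 1
      funext z
      ring
    rw [h4, mav1_add]
    ring
  have hb1 : Bd (fun y => F y - P y) := hF.bd.sub hP.bd
  have hb2 : Bd (fun y => P y - G l y) := hP.bd.sub (hG l).bd
  have hbM : Bd (mav S bs w g N) := by
    rw [hM]
    exact Bd_av (fun n => (hvB n).bd) N
  have q1 : Q μ (mav1 S bs bm w g (fun y => F y - P y) N) ≤ ε / 12 := by
    have h5 : mav1 S bs bm w g (fun y => F y - P y) N =
        fun y => 2 * mav1 S bs bm w g (fun y => (2 : ℂ)⁻¹ * (F y - P y)) N y := by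
      funext y
      rw [← mav1_smul]
      congr 1
      funext z
      ring
    rw [h5, Q_const_mul]
    have h6 : ‖(2 : ℂ)‖ ^ 2 = 4 := by norm_num
    rw [h6]
    have h7 : Q μ (mav1 S bs bm w g (fun y => (2 : ℂ)⁻¹ * (F y - P y)) N) < ε / 48 := h1
    linarith
  have q2 : Q μ (mav1 S bs bm w g (fun y => P y - G l y) N) ≤ ε / 12 := by
    rw [hM1]
    refine (Q_av_le fun n => ?_).trans ?_
    · exact (hvB n).bd.mul ⟨hb2.1.comp (S.meas _), hb2.2.choose, fun y => hb2.2.choose_spec _⟩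
    have h5 : ∀ n, Q μ (fun y => v n y * (P (S.φ (bm n) y) - G l (S.φ (bm n) y))) ≤ ε / 12 := by
      intro n
      refine (Q_mul_le (F := fun y => P (S.φ (bm n) y) - G l (S.φ (bm n) y)) ?_ (hvB n).le).trans ?_
      · exact ⟨hb2.1.comp (S.meas _), hb2.2.choose, fun y => hb2.2.choose_spec _⟩
      rw [Q_comp S (bm n) (fun y => P y - G l y)]
      have h6 : Q μ (fun y => P y - G l y) = Q μ (fun y => G l y - P y) := by
        unfold Q
        congr 1
        funext y
        rw [norm_sub_rev]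
      rw [h6]
      exact hl.le
    have hL := L_pos' N
    rw [inv_mul_le_iff₀ hL]
    refine (Finset.sum_le_sum fun n _ => h5 n).trans ?_
    rw [Finset.sum_const, card_W, nsmul_eq_mul]
  have q3 : Q μ (fun y => mav1 S bs bm w g (G l) N y - D y * mav S bs w g N y) ≤ ε / 6 := by
    have hae : ∀ᵐ y ∂μ, mav1 S bs bm w g (G l) N y - D y * mav S bs w g N y =
        ∑ t ∈ Finset.range r, G l (S.φ ((t : ℤ) ^ 2) y) * av N (fun n y =>
          ((if ⌊x n⌋ % (r : ℤ) = (t : ℤ) then (1 : ℂ) else 0) - (r : ℂ)⁻¹) * v n y) y := by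
      have hall : ∀ᵐ y ∂μ, ∀ n, G l (S.φ (bm n) y) =
          ∑ t ∈ Finset.range r, (if ⌊x n⌋ % (r : ℤ) = (t : ℤ) then (1 : ℂ) else 0) *
            G l (S.φ ((t : ℤ) ^ 2) y) :=
        ae_all_iff.2 fun n => inv_res S hr0 (hGinv l) ⌊x n⌋
      filter_upwards [hall] with y hy
      rw [hM1, hM, av_apply, av_apply]
      simp only [hy]
      rw [hD]
      simp only [av_apply]
      have h5 : ∀ t : ℕ, avs N (fun n =>
          ((if ⌊x n⌋ % (r : ℤ) = (t : ℤ) then (1 : ℂ) else 0) - (r : ℂ)⁻¹) * v n y) =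
          avs N (fun n => (if ⌊x n⌋ % (r : ℤ) = (t : ℤ) then (1 : ℂ) else 0) * v n y) -
            (r : ℂ)⁻¹ * avs N (fun n => v n y) := by
        intro t
        rw [← avs_mul_left, ← avs_sub]
        congr 1
        funext n
        ring
      simp only [h5, mul_sub, Finset.sum_sub_distrib]
      congr 1
      · rw [show (fun n => v n y * ∑ t ∈ Finset.range r,
            (if ⌊x n⌋ % (r : ℤ) = (t : ℤ) then (1 : ℂ) else 0) * G l (S.φ ((t : ℤ) ^ 2) y)) =
          fun n => ∑ t ∈ Finset.range r, G l (S.φ ((t : ℤ) ^ 2) y) *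
            ((if ⌊x n⌋ % (r : ℤ) = (t : ℤ) then (1 : ℂ) else 0) * v n y) from ?_]
        · rw [avs_sum]
          refine Finset.sum_congr rfl fun t _ => ?_
          rw [avs_mul_left]
        · funext n
          rw [Finset.mul_sum]
          refine Finset.sum_congr rfl fun t _ => ?_
          ring
      · rw [Finset.mul_sum, Finset.sum_mul]
        refine Finset.sum_congr rfl fun t _ => ?_
        ring
    rw [Q_congr hae]
    have hbt : ∀ t ∈ Finset.range r, Bd (fun y => G l (S.φ ((t : ℤ) ^ 2) y) * av N (fun n y =>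
          ((if ⌊x n⌋ % (r : ℤ) = (t : ℤ) then (1 : ℂ) else 0) - (r : ℂ)⁻¹) * v n y) y) := by
      intro t _
      refine ((hG l).sh S _).bd.mul (Bd_av (fun n => ?_) N)
      exact (hvB n).bd.const_mul _
    refine (Q_sum_le _ hbt).trans ?_
    rw [Finset.card_range]
    refine le_trans ?_ h3.le
    refine mul_le_mul_of_nonneg_left (Finset.sum_le_sum fun t _ => ?_) (by positivity)
    refine Q_mul_le (Bd_av (fun n => ?_) N) ((hG l).sh S _).le
    exact (hvB n).bd.const_mul _
  have hbx := hBd1 _ N hb1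
  have hby := hBd1 _ N hb2
  have hbz : Bd (fun y => mav1 S bs bm w g (G l) N y - D y * mav S bs w g N y) :=
    (hBd1 _ N (hG l).bd).sub (hDB.bd.mul hbM)
  calc Q μ (fun y => mav1 S bs bm w g F N y - D y * mav S bs w g N y)
      = Q μ (fun y => (mav1 S bs bm w g (fun y => F y - P y) N y +
          mav1 S bs bm w g (fun y => P y - G l y) N y) +
          (mav1 S bs bm w g (G l) N y - D y * mav S bs w g N y)) := by
        congr 1
        funext y
        exact hsplit y
    _ ≤ 2 * Q μ (fun y => mav1 S bs bm w g (fun y => F y - P y) N y +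
          mav1 S bs bm w g (fun y => P y - G l y) N y) +
        2 * Q μ (fun y => mav1 S bs bm w g (G l) N y - D y * mav S bs w g N y) :=
        Q_add_le (hbx.add hby) hbz
    _ ≤ 2 * (2 * Q μ (fun y => mav1 S bs bm w g (fun y => F y - P y) N y) +
          2 * Q μ (fun y => mav1 S bs bm w g (fun y => P y - G l y) N y)) + 2 * (ε / 6) := by
        have := Q_add_le hbx hby (μ := μ)
        linarith
    _ ≤ ε := by
        have a1 : Q μ (fun y => mav1 S bs bm w g (fun y => F y - P y) N y) ≤ ε / 12 := q1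
        have a2 : Q μ (fun y => mav1 S bs bm w g (fun y => P y - G l y) N y) ≤ ε / 12 := q2
        linarith

/-- adding an archimedean weight -/
noncomputable def addW {ι : Type} (w : Wts ι) (cm β : ℝ) : Wts (Option ι) where
  c o := o.elim cm w.c
  ty o := o.elim false w.ty
  β o := o.elim β w.β

lemma addW_ph {ι : Type} [Fintype ι] (w : Wts ι) (cm β : ℝ) (n : ℕ) :
    (addW w cm β).ph n = β * (n : ℝ) ^ cm + w.ph n := by
  unfold Wts.ph
  rw [Fintype.sum_option]
  simp [addW]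

lemma addW_w {ι : Type} [Fintype ι] (w : Wts ι) (cm β : ℝ) (n : ℕ) :
    (addW w cm β).w n = e (β * (n : ℝ) ^ cm) * w.w n := by
  unfold Wts.w
  rw [addW_ph, e_add]

lemma addW_ok {ι : Type} [Fintype ι] (w : Wts ι) (hw : w.Ok) (cm β : ℝ) (hcm : 0 < cm)
    (hni : ∀ z : ℤ, cm ≠ z) (hlt : ∀ i, cm < w.c i) (hβ : β ≠ 0) : (addW w cm β).Ok where
  inj := by
    rintro (_ | i) (_ | j) hij
    · rfl
    · exact absurd hij (hlt j).ne
    · exact absurd hij (hlt i).ne'
    · exact congrArg some (hw.inj hij)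
  pos := by
    rintro (_ | i)
    · exact hcm
    · exact hw.pos i
  nonint := by
    rintro (_ | i)
    · exact hni
    · exact hw.nonint i
  irr := by
    rintro (_ | i) h
    · exact absurd h (by simp [addW])
    · exact hw.irr i h
  ne := by
    rintro (_ | i) h
    · exact hβ
    · exact hw.ne i h

/-- the empty weight -/
noncomputable def emptyW : Wts Empty where
  c := Empty.elim
  ty := Empty.elim
  β := Empty.elim

lemma emptyW_ok : emptyW.Ok where
  inj := fun i => i.elim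
  pos := fun i => i.elim
  nonint := fun i => i.elim
  irr := fun i => i.elim
  ne := fun i => i.elim

lemma emptyW_w (n : ℕ) : emptyW.w n = 1 := by
  unfold Wts.w Wts.ph
  simp [e_zero]

end PBSTEP

open PBSTEP

theorem pb_step (hRAT : T_RAT) (hRES : T_RES) (hB0 : T_B0) : T_PB_step := by
  intro m hPb hPa X _ μ _ S hS c hc ι _ _ w hw hcw f hf
  set cm := c (Fin.last m) with hcm
  have hcm0 : 0 < cm := hc.pos _
  have hcmz : ∀ z : ℤ, cm ≠ z := hc.nonint _
  have hltc : ∀ i : Fin m, c (Fin.castSucc i) < cm := fun i => hc.mono (Fin.castSucc_lt_last i)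
  have hcmw : ∀ i, cm < w.c i := fun i => hcw i _
  have hexp : Exps (fun i : Fin m => c (Fin.castSucc i)) :=
    ⟨fun i j hij => hc.mono (Fin.castSucc_lt_castSucc_iff.2 hij), fun i => hc.pos _,
      fun i => hc.nonint _⟩
  have hww : ∀ n, ‖w.w n‖ ≤ 1 := fun n => (norm_e _).le
  set bs : Fin m → ℕ → ℤ := fun i => b (c (Fin.castSucc i)) with hbs
  set g : Fin m → X → ℂ := fun i => f (Fin.castSucc i) with hgdef
  have hg : ∀ i, B1 (g i) := fun i => hf _
  have hM0 : Tendsto (fun N => Q μ (mav S bs w.w g N)) atTop (𝓝 0) :=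
    hPb X μ S hS _ hexp ι w hw (fun i j => (hltc j).trans (hcmw i)) g hg
  have hdec := decomp hRAT hRES S bs (fun n => (n : ℝ) ^ cm) w.w hww g hg (f (Fin.last m)) (hf _)
    (fun h hh ho => hPa X μ S hS _ cm hexp hltc hcm0 hcmz ι w hw hcmw h hh ho g hg)
    (fun r hr l hl => by
      have hβ : (l : ℝ) / r ≠ 0 := by
        have h1 : (l : ℝ) ≠ 0 := by exact_mod_cast hl
        have h2 : (r : ℝ) ≠ 0 := by exact_mod_cast hr.ne'
        exact div_ne_zero h1 h2
      have := hPb X μ S hS _ hexp (Option ι) (addW w cm (l / r))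
        (addW_ok w hw cm _ hcm0 hcmz hcmw hβ) (by
          rintro (_ | i) j
          · exact hltc j
          · exact (hltc j).trans (hcmw i)) g hg
      refine this.congr fun N => ?_
      congr 2
      funext n
      rw [addW_w]
      congr 2
      ring)
    (fun r hr l hl => by
      have hβ : (l : ℝ) / r ≠ 0 := by
        have h1 : (l : ℝ) ≠ 0 := by exact_mod_cast hl
        have h2 : (r : ℝ) ≠ 0 := by exact_mod_cast hr.ne'
        exact div_ne_zero h1 h2
      have := hB0 (Option Empty) (addW emptyW cm (l / r))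
        (addW_ok emptyW emptyW_ok cm _ hcm0 hcmz (fun i => i.elim) hβ)
      refine this.congr fun N => ?_
      congr 1
      funext n
      rw [addW_w, emptyW_w, mul_one]
      congr 1
      ring)
  rw [Metric.tendsto_atTop]
  intro ε hε
  obtain ⟨D, hD, hev⟩ := hdec (ε / 8) (by positivity)
  have h1 := hM0.eventually (eventually_lt_nhds (show (0 : ℝ) < ε / 8 by positivity))
  obtain ⟨N₀, hN₀⟩ := eventually_atTop.1 (hev.and h1)
  refine ⟨N₀, fun N hN => ?_⟩
  obtain ⟨h2, h3⟩ := hN₀ N hN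
  rw [Real.dist_eq, sub_zero, abs_of_nonneg (Q_nonneg _)]
  rw [mav_last]
  have hvB : ∀ n, B1 (fun y => w.w n * ∏ i, g i (S.φ (bs i n) y)) := fun n =>
    (B1.prod' _ fun i _ => (hg i).sh S _).const_mul' (hww n)
  have hbM : Bd (mav S bs w.w g N) := Bd_av (fun n => (hvB n).bd) N
  have hb1 : Bd (mav1 S bs (b cm) w.w g (f (Fin.last m)) N) :=
    Bd_av (fun n => (hvB n).bd.mul ((hf _).sh S _).bd) N
  calc Q μ (mav1 S bs (b cm) w.w g (f (Fin.last m)) N)
      = Q μ (fun y => (mav1 S bs (b cm) w.w g (f (Fin.last m)) N y - D y * mav S bs w.w g N y) +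
          D y * mav S bs w.w g N y) := by
        congr 1
        funext y
        ring
    _ ≤ 2 * Q μ (fun y => mav1 S bs (b cm) w.w g (f (Fin.last m)) N y -
          D y * mav S bs w.w g N y) + 2 * Q μ (fun y => D y * mav S bs w.w g N y) :=
        Q_add_le (hb1.sub (hD.bd.mul hbM)) (hD.bd.mul hbM)
    _ ≤ 2 * (ε / 8) + 2 * (ε / 8) := by
        have h4 : Q μ (fun y => D y * mav S bs w.w g N y) ≤ Q μ (mav S bs w.w g N) :=
          Q_mul_le hbM hD.le
        have h5 : Q μ (fun y => mav1 S bs (b cm) w.w g (f (Fin.last m)) N y -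
          D y * mav S bs w.w g N y) ≤ ε / 8 := h2
        linarith
    _ < ε := by linarith

end Pool.Agent.SqF
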