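import Pool.Agent.SqF.PBSTEP

/-!
# SQF-PCSTEP (helper38): the induction step for the Cauchy property
-/

set_option autoImplicit false

open MeasureTheory Filter Topology
open scoped ComplexConjugate

namespace Pool.Agent.SqF

open PBSTEP

theorem pc_step (hRAT : T_RAT) (hRES : T_RES) (hB0 : T_B0) : T_PC_step := by
  intro m hPb hPa hPc X _ μ _ S hS c hc f hf
  set cm := c (Fin.last m) with hcm
  have hcm0 : 0 < cm := hc.pos _
  have hcmz : ∀ z : ℤ, cm ≠ z := hc.nonint _
  have hltc : ∀ i : Fin m, c (Fin.castSucc i) < cm := fun i => hc.mono (Fin.castSucc_lt_last i)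
  have hexp : Exps (fun i : Fin m => c (Fin.castSucc i)) :=
    ⟨fun i j hij => hc.mono (Fin.castSucc_lt_castSucc_iff.2 hij), fun i => hc.pos _,
      fun i => hc.nonint _⟩
  set w : ℕ → ℂ := fun _ => 1 with hwdef
  have hww : ∀ n, ‖w n‖ ≤ 1 := fun n => by simp [hwdef]
  have hww' : (emptyW.w : ℕ → ℂ) = w := funext emptyW_w
  set bs : Fin m → ℕ → ℤ := fun i => b (c (Fin.castSucc i)) with hbs
  set g : Fin m → X → ℂ := fun i => f (Fin.castSucc i) with hgdef
  have hg : ∀ i, B1 (g i) := fun i => hf _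
  have hM0 : Tendsto (fun p : ℕ × ℕ => Q μ (fun x => mav S bs w g p.1 x - mav S bs w g p.2 x))
      atTop (𝓝 0) := hPc X μ S hS _ hexp g hg
  have hdec := decomp hRAT hRES S bs (fun n => (n : ℝ) ^ cm) w hww g hg (f (Fin.last m)) (hf _)
    (fun h hh ho => by
      have := hPa X μ S hS _ cm hexp hltc hcm0 hcmz Empty emptyW emptyW_ok (fun i => i.elim)
        h hh ho g hg
      rw [hww'] at this
      exact this)
    (fun r hr l hl => by
      have hβ : (l : ℝ) / r ≠ 0 := by
        have h1 : (l : ℝ) ≠ 0 := by exact_mod_cast hl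
        have h2 : (r : ℝ) ≠ 0 := by exact_mod_cast hr.ne'
        exact div_ne_zero h1 h2
      have := hPb X μ S hS _ hexp (Option Empty) (addW emptyW cm (l / r))
        (addW_ok emptyW emptyW_ok cm _ hcm0 hcmz (fun i => i.elim) hβ) (by
          rintro (_ | i) j
          · exact hltc j
          · exact i.elim) g hg
      refine this.congr fun N => ?_
      congr 2
      funext n
      rw [addW_w, emptyW_w]
      congr 2
      ring)
    (fun r hr l hl => by
      have hβ : (l : ℝ) / r ≠ 0 := by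
        have h1 : (l : ℝ) ≠ 0 := by exact_mod_cast hl
        have h2 : (r : ℝ) ≠ 0 := by exact_mod_cast hr.ne'
        exact div_ne_zero h1 h2
      have := hB0 (Option Empty) (addW emptyW cm (l / r))
        (addW_ok emptyW emptyW_ok cm _ hcm0 hcmz (fun i => i.elim) hβ)
      refine this.congr fun N => ?_
      congr 1
      funext n
      rw [addW_w, emptyW_w, mul_one]
      congr 1
      ring)
  have hvB : ∀ n, B1 (fun y => w n * ∏ i, g i (S.φ (bs i n) y)) := fun n =>
    (B1.prod' _ fun i _ => (hg i).sh S _).const_mul' (hww n)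
  have hbM : ∀ N, Bd (mav S bs w g N) := fun N => Bd_av (fun n => (hvB n).bd) N
  have hb1 : ∀ N, Bd (mav1 S bs (b cm) w g (f (Fin.last m)) N) := fun N =>
    Bd_av (fun n => (hvB n).bd.mul ((hf _).sh S _).bd) N
  rw [tendsto_order]
  refine ⟨fun a ha => Eventually.of_forall fun p => lt_of_lt_of_le ha (Q_nonneg _), fun ε hε => ?_⟩
  obtain ⟨D, hD, hev⟩ := hdec (ε / 16) (by positivity)
  have h1 := hM0.eventually (eventually_lt_nhds (show (0 : ℝ) < ε / 8 by positivity))
  have hevp : ∀ᶠ p : ℕ × ℕ in atTop,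
      Q μ (fun y => mav1 S bs (b cm) w g (f (Fin.last m)) p.1 y - D y * mav S bs w g p.1 y) ≤ ε / 16 ∧
      Q μ (fun y => mav1 S bs (b cm) w g (f (Fin.last m)) p.2 y - D y * mav S bs w g p.2 y) ≤
        ε / 16 := by
    rw [← prod_atTop_atTop_eq]
    exact hev.prod_mk hev
  filter_upwards [hevp, h1] with p hp h3
  rw [mav_last, mav_last]
  set A : ℕ → X → ℂ := fun N => mav1 S bs (b cm) w g (f (Fin.last m)) N with hA
  set M : ℕ → X → ℂ := fun N => mav S bs w g N with hMdef
  have hbE : ∀ N, Bd (fun y => A N y - D y * M N y) := fun N => (hb1 N).sub (hD.bd.mul (hbM N))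
  have hbMM : Bd (fun y => M p.1 y - M p.2 y) := (hbM _).sub (hbM _)
  calc Q μ (fun y => A p.1 y - A p.2 y)
      = Q μ (fun y => ((A p.1 y - D y * M p.1 y) + (-1) * (A p.2 y - D y * M p.2 y)) +
          D y * (M p.1 y - M p.2 y)) := by
        congr 1
        funext y
        ring
    _ ≤ 2 * Q μ (fun y => (A p.1 y - D y * M p.1 y) + (-1) * (A p.2 y - D y * M p.2 y)) +
          2 * Q μ (fun y => D y * (M p.1 y - M p.2 y)) :=
        Q_add_le ((hbE _).add ((hbE _).const_mul _)) (hD.bd.mul hbMM)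
    _ ≤ 2 * (2 * Q μ (fun y => A p.1 y - D y * M p.1 y) +
          2 * Q μ (fun y => (-1) * (A p.2 y - D y * M p.2 y))) +
          2 * Q μ (fun y => M p.1 y - M p.2 y) := by
        have h4 := Q_add_le (μ := μ) (hbE p.1) ((hbE p.2).const_mul (-1))
        have h5 : Q μ (fun y => D y * (M p.1 y - M p.2 y)) ≤ Q μ (fun y => M p.1 y - M p.2 y) :=
          Q_mul_le hbMM hD.le
        linarith
    _ < ε := by
        have h6 : Q μ (fun y => (-1) * (A p.2 y - D y * M p.2 y)) =
            Q μ (fun y => A p.2 y - D y * M p.2 y) := by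
          rw [Q_const_mul]
          simp
        rw [h6]
        have h7 : Q μ (fun y => A p.1 y - D y * M p.1 y) ≤ ε / 16 := hp.1
        have h8 : Q μ (fun y => A p.2 y - D y * M p.2 y) ≤ ε / 16 := hp.2
        have h9 : Q μ (fun y => M p.1 y - M p.2 y) < ε / 8 := h3
        linarith

end Pool.Agent.SqF
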