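import Pool.Agent.SqF.Targets

/-!
# MP_0b2319_an: the uniform PET theorem (SQF-PET)
-/

set_option autoImplicit false

open MeasureTheory Filter Topology
open scoped ComplexConjugate

namespace Pool.Agent.SqF

namespace PET

variable {X : Type} [MeasurableSpace X] {μ : Measure X}

/-! ## Bounded functions -/

lemma b1_comp (S : Sys X μ) {f : X → ℂ} (hf : B1 f) (n : ℤ) : B1 (fun x => f (S.φ n x)) :=
  ⟨hf.meas.comp (S.mp n).measurable, fun _ => hf.le _⟩

lemma b1_conj {f : X → ℂ} (hf : B1 f) : B1 (fun x => conj (f x)) :=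
  ⟨Complex.continuous_conj.measurable.comp hf.meas, fun x => by
    rw [RCLike.norm_conj]; exact hf.le x⟩

lemma b1_mul {f g : X → ℂ} (hf : B1 f) (hg : B1 g) : B1 (fun x => f x * g x) :=
  ⟨hf.meas.mul hg.meas, fun x => by
    rw [norm_mul]; exact mul_le_one₀ (hf.le x) (norm_nonneg _) (hg.le x)⟩

lemma b1_const {c : ℂ} (hc : ‖c‖ ≤ 1) : B1 (fun _ : X => c) := ⟨measurable_const, fun _ => hc⟩

lemma b1_prod {ι : Type} (s : Finset ι) (f : ι → X → ℂ) (h : ∀ i, B1 (f i)) :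
    B1 (fun x => ∏ i ∈ s, f i x) := by
  classical
  induction s using Finset.induction_on with
  | empty => simpa using b1_const (X := X) (c := 1) (by simp)
  | insert a s ha ih =>
    have := b1_mul (h a) ih
    simpa only [Finset.prod_insert ha] using this

lemma b1_int [IsProbabilityMeasure μ] {f : X → ℂ} (hf : B1 f) : Integrable f μ :=
  Integrable.of_bound hf.meas.aestronglyMeasurable 1 (ae_of_all _ hf.le)

lemma b1_avg (H : ℕ) (f : ℕ → X → ℂ) (h : ∀ i, B1 (f i)) :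
    B1 (fun x => (H : ℂ)⁻¹ * ∑ i ∈ Finset.range H, f i x) := by
  refine ⟨measurable_const.mul (Finset.measurable_sum _ fun i _ => (h i).meas), fun x => ?_⟩
  rw [norm_mul, norm_inv, Complex.norm_natCast]
  have h1 : ‖∑ i ∈ Finset.range H, f i x‖ ≤ H := by
    calc ‖∑ i ∈ Finset.range H, f i x‖ ≤ ∑ i ∈ Finset.range H, ‖f i x‖ := norm_sum_le _ _
      _ ≤ ∑ i ∈ Finset.range H, (1 : ℝ) := Finset.sum_le_sum fun i _ => (h i).le x
      _ = H := by simp
  rcases Nat.eq_zero_or_pos H with h0 | h0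
  · subst h0; simp
  · have : (0 : ℝ) < H := by exact_mod_cast h0
    calc (H : ℝ)⁻¹ * ‖∑ i ∈ Finset.range H, f i x‖ ≤ (H : ℝ)⁻¹ * H :=
          mul_le_mul_of_nonneg_left h1 (by positivity)
      _ = 1 := inv_mul_cancel₀ this.ne'

/-- Cauchy-Schwarz -/
lemma int_le_sqrt [IsProbabilityMeasure μ] {f : X → ℂ} (hf : B1 f) :
    ∫ x, ‖f x‖ ∂μ ≤ Real.sqrt (Q μ f) := by
  set c := ∫ x, ‖f x‖ ∂μ with hc
  have i1 : Integrable (fun x => ‖f x‖) μ := (b1_int hf).norm
  have i2 : Integrable (fun x => ‖f x‖ ^ 2) μ := by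
    refine Integrable.of_bound (hf.meas.norm.pow_const 2).aestronglyMeasurable 1 (ae_of_all _ ?_)
    intro x
    rw [Real.norm_of_nonneg (by positivity)]
    exact pow_le_one₀ (norm_nonneg _) (hf.le x)
  have h0 : 0 ≤ ∫ x, (‖f x‖ - c) ^ 2 ∂μ := integral_nonneg fun x => sq_nonneg _
  have h1 : ∫ x, (‖f x‖ - c) ^ 2 ∂μ = Q μ f - c ^ 2 := by
    have e1 : (fun x => (‖f x‖ - c) ^ 2) = fun x => ‖f x‖ ^ 2 - (2 * c) * ‖f x‖ + c ^ 2 := by
      funext x; ring
    have i3 : Integrable (fun x => (2 * c) * ‖f x‖) μ := i1.const_mul _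
    have i4 : Integrable (fun x => ‖f x‖ ^ 2 - (2 * c) * ‖f x‖) μ := i2.sub i3
    rw [e1, integral_add i4 (integrable_const _), integral_sub i2 i3, integral_const_mul,
      integral_const]
    simp only [probReal_univ, smul_eq_mul, one_mul, ← hc]
    unfold Q
    ring
  apply Real.le_sqrt_of_sq_le
  linarith

lemma norm_int_le [IsProbabilityMeasure μ] {f : X → ℂ} (hf : B1 f) : ‖∫ x, f x ∂μ‖ ≤ 1 := by
  calc ‖∫ x, f x ∂μ‖ ≤ ∫ x, ‖f x‖ ∂μ := norm_integral_le_integral_norm _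
    _ ≤ ∫ _, (1 : ℝ) ∂μ := integral_mono (b1_int hf).norm (integrable_const _) hf.le
    _ = 1 := by simp

lemma int_shift (S : Sys X μ) {f : X → ℂ} (hf : B1 f) (n : ℤ) :
    ∫ x, f (S.φ n x) ∂μ = ∫ x, f x ∂μ := by
  have h := (S.mp n).map_eq
  have h2 : ∫ x, f x ∂(Measure.map (S.φ n) μ) = ∫ x, f (S.φ n x) ∂μ :=
    integral_map (S.mp n).measurable.aemeasurable hf.meas.aestronglyMeasurable
  rw [← h2, h]

/-! ## The correlations -/

/-- the functions of the new family: `g j` at `(j, true)`, its conjugate at `(j, false)` -/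
noncomputable def gg {ι : Type} (g : ι → X → ℂ) (y : ι × Bool) : X → ℂ :=
  if y.2 then g y.1 else fun x => conj (g y.1 x)

lemma b1_gg {ι : Type} {g : ι → X → ℂ} (hg : ∀ j, B1 (g j)) (y : ι × Bool) : B1 (gg g y) := by
  unfold gg
  split_ifs
  · exact hg _
  · exact b1_conj (hg _)

omit [MeasurableSpace X] in
lemma prod_gg {ι : Type} [Fintype ι] (g : ι → X → ℂ) (a c : ι → X) :
    (∏ j, g j (a j)) * ∏ j, conj (g j (c j)) =
      ∏ y : ι × Bool, gg g y (if y.2 then a y.1 else c y.1) := by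
  rw [Fintype.prod_prod_type, ← Finset.prod_mul_distrib]
  refine Finset.prod_congr rfl fun j _ => ?_
  rw [Fintype.prod_bool]
  simp [gg]

/-- the sequence of functions -/
noncomputable def vv {ι κ : Type} [Fintype ι] (S : Sys X μ) (F : Fam ι κ) (H : ℕ)
    (g : ι → X → ℂ) (s : ℤ → ℂ) (h : ℤ) : X → ℂ :=
  fun x => if 0 ≤ h ∧ h < H then s h * ∏ j, g j (S.φ (F.P j h) x) else 0

lemma b1_vv {ι κ : Type} [Fintype ι] (S : Sys X μ) (F : Fam ι κ) (H : ℕ)
    {g : ι → X → ℂ} (hg : ∀ j, B1 (g j)) {s : ℤ → ℂ} (hs : ∀ h, ‖s h‖ ≤ 1) (h : ℤ) :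
    B1 (vv S F H g s h) := by
  unfold vv
  split_ifs
  · exact b1_mul (b1_const (hs h)) (b1_prod _ _ fun j => b1_comp S (hg j) _)
  · exact b1_const (by simp)

/-- the weight of the correlation -/
noncomputable def s1 (H : ℕ) (s : ℤ → ℂ) (r h : ℤ) : ℂ :=
  if 0 ≤ h + r ∧ h + r < H then s (h + r) * conj (s h) else 0

lemma s1_le {H : ℕ} {s : ℤ → ℂ} (hs : ∀ h, ‖s h‖ ≤ 1) (r h : ℤ) : ‖s1 H s r h‖ ≤ 1 := by
  unfold s1
  split_ifs
  · rw [norm_mul, RCLike.norm_conj]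
    exact mul_le_one₀ (hs _) (norm_nonneg _) (hs _)
  · simp

/-- the new exponent -/
def ne {ι κ : Type} (F : Fam ι κ) (js : ι) (r : ℤ) (y : ι × Bool) (h : ℤ) : ℤ :=
  F.P y.1 (if y.2 then h + r else h) - F.P js h

lemma vv_mul {ι κ : Type} [Fintype ι] (S : Sys X μ) (F : Fam ι κ) (H : ℕ)
    (g : ι → X → ℂ) (s : ℤ → ℂ) (r : ℤ) (js : ι) {h : ℤ} (h0 : 0 ≤ h) (h1 : h < H) (x : X) :
    vv S F H g s (h + r) (S.φ (- F.P js h) x) * conj (vv S F H g s h (S.φ (- F.P js h) x)) =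
      s1 H s r h * ∏ y, gg g y (S.φ (ne F js r y h) x) := by
  unfold vv s1
  have e0 : (0 ≤ h ∧ h < (H : ℤ)) := ⟨h0, h1⟩
  by_cases h2 : 0 ≤ h + r ∧ h + r < (H : ℤ)
  · rw [if_pos h2, if_pos h2, if_pos e0, map_mul, map_prod]
    have e1 : ∀ n : ℤ, S.φ n (S.φ (- F.P js h) x) = S.φ (n - F.P js h) x := by
      intro n
      rw [← S.add, sub_eq_add_neg]
    simp only [e1]
    have e2 := prod_gg g (fun j => S.φ (F.P j (h + r) - F.P js h) x)
      (fun j => S.φ (F.P j h - F.P js h) x)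
    have e3 : ∀ y : ι × Bool, (if y.2 then S.φ (F.P y.1 (h + r) - F.P js h) x
        else S.φ (F.P y.1 h - F.P js h) x) = S.φ (ne F js r y h) x := by
      intro y
      unfold ne
      split_ifs <;> rfl
    simp only [e3] at e2
    rw [← e2]
    ring
  · rw [if_neg h2, if_neg h2, zero_mul, zero_mul]

/-- the correlation is a correlation of the new exponents -/
lemma corr_eq [IsProbabilityMeasure μ] {ι κ : Type} [Fintype ι] (S : Sys X μ) (F : Fam ι κ)
    (H : ℕ) {g : ι → X → ℂ} (hg : ∀ j, B1 (g j)) {s : ℤ → ℂ} (hs : ∀ h, ‖s h‖ ≤ 1) (r : ℤ)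
    (js : ι) :
    (H : ℂ)⁻¹ * ∑ h ∈ Finset.range H, ∫ x, vv S F H g s (h + r) x * conj (vv S F H g s h x) ∂μ =
      ∫ x, (H : ℂ)⁻¹ * ∑ h ∈ Finset.range H, s1 H s r h * ∏ y, gg g y (S.φ (ne F js r y h) x) ∂μ := by
  rw [integral_const_mul, integral_finsetSum]
  · congr 1
    refine Finset.sum_congr rfl fun h hh => ?_
    have hb : B1 (fun x => vv S F H g s (h + r) x * conj (vv S F H g s h x)) :=
      b1_mul (b1_vv S F H hg hs _) (b1_conj (b1_vv S F H hg hs _))
    rw [← int_shift S hb (- F.P js h)]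
    refine integral_congr_ae (ae_of_all _ fun x => ?_)
    exact vv_mul S F H g s r js (by positivity) (by exact_mod_cast Finset.mem_range.1 hh) x
  · intro h _
    exact b1_int (b1_mul (b1_const (s1_le hs r h)) (b1_prod _ _ fun y => b1_comp S (b1_gg hg y) _))

/-- the part of the weight on a piece -/
noncomputable def s2 (H : ℕ) (s : ℤ → ℂ) (A : Set ℤ) (r : ℤ) {n : ℕ} (pc : ℤ → Fin n) (π : Fin n)
    (h : ℤ) : ℂ :=
  open Classical in if h ∈ piece A r pc π then s1 H s r h else 0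

lemma s2_le {H : ℕ} {s : ℤ → ℂ} (hs : ∀ h, ‖s h‖ ≤ 1) (A : Set ℤ) (r : ℤ) {n : ℕ}
    (pc : ℤ → Fin n) (π : Fin n) (h : ℤ) : ‖s2 H s A r pc π h‖ ≤ 1 := by
  unfold s2
  split_ifs
  · exact s1_le hs r h
  · simp

lemma sum_s2 {H : ℕ} {s : ℤ → ℂ} {A : Set ℤ} (hsA : ∀ h, h ∉ A → s h = 0) (r : ℤ) {n : ℕ}
    (pc : ℤ → Fin n) (h : ℤ) : s1 H s r h = ∑ π, s2 H s A r pc π h := by
  classical
  by_cases hA : h ∈ A ∧ h + r ∈ A
  · rw [Finset.sum_eq_single (pc h)]
    · unfold s2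
      rw [if_pos ⟨hA.1, hA.2, rfl⟩]
    · intro b _ hb
      unfold s2
      rw [if_neg]
      exact fun hh => hb hh.2.2.symm
    · intro hh
      exact absurd (Finset.mem_univ _) hh
  · rw [Finset.sum_eq_zero]
    · unfold s1
      split_ifs
      · by_cases h1 : h ∈ A
        · have h2 : h + r ∉ A := fun h2 => hA ⟨h1, h2⟩
          rw [hsA _ h2, zero_mul]
        · rw [hsA _ h1, map_zero, mul_zero]
      · rfl
    · intro π _
      unfold s2
      rw [if_neg]
      exact fun hh => hA ⟨hh.1, hh.2.1⟩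

/-- the correlation is bounded by the averages over the pieces -/
lemma corr_le [IsProbabilityMeasure μ] {ι κ : Type} [Fintype ι] [Fintype κ] (S : Sys X μ)
    (F : Fam ι κ) (A : Set ℤ) (js : ι) (b0 : Bool) (r : ℤ) (K' B' : ℕ)
    (hst : StepGoal F A js b0 r K' B') (H : ℕ) {g : ι → X → ℂ} (hg : ∀ j, B1 (g j))
    {s : ℤ → ℂ} (hs : ∀ h, ‖s h‖ ≤ 1) (hsA : ∀ h, h ∉ A → s h = 0) (ε : ℝ)
    (hIH : ∀ (ι' κ' : Type) [Fintype ι'] [Fintype κ'] (F' : Fam ι' κ') (A' : Set ℤ),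
      F'.Ok K' B' A' → Fintype.card ι' ≤ 2 * Fintype.card ι →
      (∃ d ∈ (Finset.univ : Finset κ).val.map F.dg, 1 ≤ d ∧
        (Finset.univ : Finset κ').val.map F'.dg ≤
          ((Finset.univ : Finset κ).val.map F.dg).erase d +
            Multiset.replicate (2 * Fintype.card ι) (d - 1)) →
      ∀ g' : ι' → X → ℂ, (∀ j, B1 (g' j)) → g' F'.i0 = gg g (F.i0, b0) →
      ∀ s' : ℤ → ℂ, (∀ h, ‖s' h‖ ≤ 1) → (∀ h, h ∉ A' → s' h = 0) →
      Q μ (fun x => (H : ℂ)⁻¹ * ∑ h ∈ Finset.range H, s' h * ∏ j, g' j (S.φ (F'.P j h) x)) ≤ ε) :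
    ‖(H : ℂ)⁻¹ * ∑ h ∈ Finset.range H,
      ∫ x, vv S F H g s (h + r) x * conj (vv S F H g s h x) ∂μ‖ ≤ B' * Real.sqrt ε := by
  classical
  rw [corr_eq S F H hg hs r js]
  obtain ⟨n, pc, hn, hπ⟩ := hst
  have hY : ∀ h : ℤ, B1 (fun x => ∏ y, gg g y (S.φ (ne F js r y h) x)) := fun h =>
    b1_prod _ _ fun y => b1_comp S (b1_gg hg y) _
  have hG : ∀ π, B1 (fun x => (H : ℂ)⁻¹ * ∑ h ∈ Finset.range H, s2 H s A r pc π h *
      ∏ y, gg g y (S.φ (ne F js r y h) x)) := fun π =>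
    b1_avg H (fun h x => s2 H s A r pc π h * ∏ y, gg g y (S.φ (ne F js r y h) x)) fun h =>
      b1_mul (b1_const (s2_le hs A r pc π h)) (hY h)
  have e1 : ∀ x, (H : ℂ)⁻¹ * ∑ h ∈ Finset.range H, s1 H s r h *
      ∏ y, gg g y (S.φ (ne F js r y h) x) = ∑ π, (H : ℂ)⁻¹ * ∑ h ∈ Finset.range H,
        s2 H s A r pc π h * ∏ y, gg g y (S.φ (ne F js r y h) x) := by
    intro x
    rw [← Finset.mul_sum, Finset.sum_comm]
    congr 1
    refine Finset.sum_congr rfl fun h _ => ?_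
    rw [← Finset.sum_mul, ← sum_s2 hsA]
  simp only [e1]
  rw [integral_finsetSum _ fun π _ => b1_int (hG π)]
  have hsq : 0 ≤ Real.sqrt ε := Real.sqrt_nonneg _
  calc ‖∑ π, ∫ x, (H : ℂ)⁻¹ * ∑ h ∈ Finset.range H, s2 H s A r pc π h *
        ∏ y, gg g y (S.φ (ne F js r y h) x) ∂μ‖
      ≤ ∑ π, ‖∫ x, (H : ℂ)⁻¹ * ∑ h ∈ Finset.range H, s2 H s A r pc π h *
        ∏ y, gg g y (S.φ (ne F js r y h) x) ∂μ‖ := norm_sum_le _ _
    _ ≤ ∑ π : Fin n, Real.sqrt ε := by
        refine Finset.sum_le_sum fun π _ => ?_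
        obtain ⟨keep, κ', _, F', hi0, hok, hP, hnk, hd⟩ := hπ π
        let _ : Fintype {x // keep x} := Subtype.fintype keep
        have hnk' : ∀ y : {y // ¬ keep y}, ∃ a : ℤ, ∀ h ∈ piece A r pc π, ne F js r y.1 h = a :=
          fun y => hnk y.1 y.2
        choose a ha using hnk'
        have hrest : B1 (fun x => (H : ℂ)⁻¹ * ∑ h ∈ Finset.range H, s2 H s A r pc π h *
            ∏ y : {y // keep y}, gg g y.1 (S.φ (F'.P y h) x)) :=
          b1_avg H (fun h x => s2 H s A r pc π h *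
            ∏ y : {y // keep y}, gg g y.1 (S.φ (F'.P y h) x)) fun h =>
            b1_mul (b1_const (s2_le hs A r pc π h))
              (b1_prod _ _ fun y => b1_comp S (b1_gg hg y.1) _)
        have hN : B1 (fun x => ∏ y : {y // ¬ keep y}, gg g y.1 (S.φ (a y) x)) :=
          b1_prod _ _ fun y => b1_comp S (b1_gg hg y.1) _
        have e2 : ∀ x, (H : ℂ)⁻¹ * ∑ h ∈ Finset.range H, s2 H s A r pc π h *
            ∏ y, gg g y (S.φ (ne F js r y h) x) =
            (∏ y : {y // ¬ keep y}, gg g y.1 (S.φ (a y) x)) *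
            ((H : ℂ)⁻¹ * ∑ h ∈ Finset.range H, s2 H s A r pc π h *
              ∏ y : {y // keep y}, gg g y.1 (S.φ (F'.P y h) x)) := by
          intro x
          rw [mul_left_comm]
          congr 1
          rw [Finset.mul_sum]
          refine Finset.sum_congr rfl fun h _ => ?_
          by_cases hp : (h : ℤ) ∈ piece A r pc π
          · rw [← Fintype.prod_subtype_mul_prod_subtype keep
              (fun y => gg g y (S.φ (ne F js r y h) x))]
            have e3 : ∀ y : {y // keep y}, ne F js r y.1 h = F'.P y h := fun y => (hP y h).symm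
            have e4 : ∀ y : {y // ¬ keep y}, ne F js r y.1 h = a y := fun y => ha y h hp
            simp only [e3, e4]
            ring
          · have e5 : s2 H s A r pc π h = 0 := by
              unfold s2
              rw [if_neg hp]
            rw [e5, zero_mul, zero_mul, mul_zero]
        have hcard : Fintype.card {x // keep x} ≤ 2 * Fintype.card ι := by
          have h1 := Fintype.card_subtype_le keep
          rw [Fintype.card_prod, Fintype.card_bool, mul_comm] at h1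
          exact h1
        have hQ := hIH {x // keep x} κ' F' (piece A r pc π) hok hcard hd
          (fun y => gg g y.1) (fun y => b1_gg hg y.1) (by rw [hi0])
          (s2 H s A r pc π) (s2_le hs A r pc π) (by
            intro h hh
            unfold s2
            rw [if_neg hh])
        calc ‖∫ x, (H : ℂ)⁻¹ * ∑ h ∈ Finset.range H, s2 H s A r pc π h *
              ∏ y, gg g y (S.φ (ne F js r y h) x) ∂μ‖
            ≤ ∫ x, ‖(H : ℂ)⁻¹ * ∑ h ∈ Finset.range H, s2 H s A r pc π h *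
              ∏ y, gg g y (S.φ (ne F js r y h) x)‖ ∂μ := norm_integral_le_integral_norm _
          _ ≤ ∫ x, ‖(H : ℂ)⁻¹ * ∑ h ∈ Finset.range H, s2 H s A r pc π h *
              ∏ y : {y // keep y}, gg g y.1 (S.φ (F'.P y h) x)‖ ∂μ := by
              refine integral_mono (b1_int (hG π)).norm (b1_int hrest).norm fun x => ?_
              simp only
              rw [e2 x, norm_mul]
              exact mul_le_of_le_one_left (norm_nonneg _) (hN.le x)
          _ ≤ Real.sqrt (Q μ _) := int_le_sqrt hrest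
          _ ≤ Real.sqrt ε := Real.sqrt_le_sqrt hQ
    _ = n * Real.sqrt ε := by rw [Finset.sum_const, Finset.card_univ, Fintype.card_fin, nsmul_eq_mul]
    _ ≤ B' * Real.sqrt ε := mul_le_mul_of_nonneg_right (by exact_mod_cast hn) hsq

/-! ## Counting -/

lemma count (M0 : ℕ) (hM0 : 0 < M0) (n : ℕ) (T : Finset ℤ) (hT : T.card ≤ n) (c : ℤ → ℝ) (η' : ℝ)
    (h1 : ∀ r, c r ≤ 1) (hη' : 0 ≤ η')
    (h2 : ∀ m < M0, ∀ m' < M0, ((m : ℤ) - m') ∉ T → c ((m : ℤ) - m') ≤ η') :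
    ((M0 : ℝ) ^ 2)⁻¹ * ∑ m ∈ Finset.range M0, ∑ m' ∈ Finset.range M0, c ((m : ℤ) - m') ≤
      η' + n / M0 := by
  classical
  have hM : (0 : ℝ) < M0 := by exact_mod_cast hM0
  have e1 : ∀ m < M0, ∀ m' < M0, c ((m : ℤ) - m') ≤
      η' + ∑ t ∈ T, if (m : ℤ) - m' = t then (1 : ℝ) else 0 := by
    intro m hm m' hm'
    by_cases ht : ((m : ℤ) - m') ∈ T
    · rw [Finset.sum_ite_eq, if_pos ht]
      linarith [h1 ((m : ℤ) - m')]
    · rw [Finset.sum_ite_eq, if_neg ht]
      linarith [h2 m hm m' hm' ht]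
  have e2 : ∑ m ∈ Finset.range M0, ∑ m' ∈ Finset.range M0, c ((m : ℤ) - m') ≤
      (M0 : ℝ) ^ 2 * η' + n * M0 := by
    calc ∑ m ∈ Finset.range M0, ∑ m' ∈ Finset.range M0, c ((m : ℤ) - m')
        ≤ ∑ m ∈ Finset.range M0, ∑ m' ∈ Finset.range M0,
            (η' + ∑ t ∈ T, if (m : ℤ) - m' = t then (1 : ℝ) else 0) :=
          Finset.sum_le_sum fun m hm => Finset.sum_le_sum fun m' hm' =>
            e1 m (Finset.mem_range.1 hm) m' (Finset.mem_range.1 hm')
      _ = (M0 : ℝ) ^ 2 * η' + ∑ m ∈ Finset.range M0, ∑ m' ∈ Finset.range M0, ∑ t ∈ T,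
            (if (m : ℤ) - m' = t then (1 : ℝ) else 0) := by
          simp only [Finset.sum_add_distrib, Finset.sum_const, Finset.card_range, nsmul_eq_mul]
          ring
      _ ≤ (M0 : ℝ) ^ 2 * η' + n * M0 := by
          have e3 : ∀ m ∈ Finset.range M0, ∑ m' ∈ Finset.range M0, ∑ t ∈ T,
              (if (m : ℤ) - m' = t then (1 : ℝ) else 0) ≤ n := by
            intro m _
            rw [Finset.sum_comm]
            have e4 : ∀ t ∈ T, ∑ m' ∈ Finset.range M0,
                (if (m : ℤ) - m' = t then (1 : ℝ) else 0) ≤ 1 := by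
              intro t _
              rw [← Finset.sum_filter, Finset.sum_const, nsmul_eq_mul, mul_one]
              have : (Finset.filter (fun m' : ℕ => (m : ℤ) - m' = t) (Finset.range M0)).card ≤ 1 := by
                rw [Finset.card_le_one]
                intro a ha b hb
                have h1 := (Finset.mem_filter.1 ha).2
                have h2 := (Finset.mem_filter.1 hb).2
                omega
              exact_mod_cast this
            calc _ ≤ ∑ t ∈ T, (1 : ℝ) := Finset.sum_le_sum e4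
              _ = T.card := by simp
              _ ≤ n := by exact_mod_cast hT
          have e5 := Finset.sum_le_sum e3
          rw [Finset.sum_const, Finset.card_range, nsmul_eq_mul] at e5
          linarith
  have e6 : ((M0 : ℝ) ^ 2)⁻¹ * ((M0 : ℝ) ^ 2 * η' + n * M0) = η' + n / M0 := by
    field_simp
  rw [← e6]
  exact mul_le_mul_of_nonneg_left e2 (by positivity)

lemma ok_mono {ι κ : Type} {F : Fam ι κ} {K K' B : ℕ} {A : Set ℤ} (h : F.Ok K B A)
    (hK : K ≤ K') : F.Ok K' B A :=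
  { h with k_le := fun j => (h.k_le j).trans (by exact_mod_cast hK) }

/-- one step of the descent -/
lemma step [IsProbabilityMeasure μ] (hvdc : T_VDC) {ι κ : Type} [Fintype ι] [Fintype κ]
    (S : Sys X μ) (F : Fam ι κ) (A : Set ℤ) (js : ι) (b0 : Bool) (K K' B' D1 M0 : ℕ)
    (hM0 : 0 < M0) (hK' : K * (1 + D1 * M0) ≤ K') (T : Finset ℤ)
    (hT : T.card ≤ Fintype.card ι + 1)
    (hst : ∀ r : ℤ, r ∉ T → StepGoal F A js b0 r (K * (1 + D1 * r.natAbs)) B') (H : ℕ)
    (hH : M0 ≤ H)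
    {g : ι → X → ℂ} (hg : ∀ j, B1 (g j)) {s : ℤ → ℂ} (hs : ∀ h, ‖s h‖ ≤ 1)
    (hsA : ∀ h, h ∉ A → s h = 0) (ε : ℝ)
    (hIH : ∀ (ι' κ' : Type) [Fintype ι'] [Fintype κ'] (F' : Fam ι' κ') (A' : Set ℤ),
      F'.Ok K' B' A' → Fintype.card ι' ≤ 2 * Fintype.card ι →
      (∃ d ∈ (Finset.univ : Finset κ).val.map F.dg, 1 ≤ d ∧
        (Finset.univ : Finset κ').val.map F'.dg ≤
          ((Finset.univ : Finset κ).val.map F.dg).erase d +
            Multiset.replicate (2 * Fintype.card ι) (d - 1)) →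
      ∀ g' : ι' → X → ℂ, (∀ j, B1 (g' j)) → g' F'.i0 = gg g (F.i0, b0) →
      ∀ s' : ℤ → ℂ, (∀ h, ‖s' h‖ ≤ 1) → (∀ h, h ∉ A' → s' h = 0) →
      Q μ (fun x => (H : ℂ)⁻¹ * ∑ h ∈ Finset.range H, s' h * ∏ j, g' j (S.φ (F'.P j h) x)) ≤ ε) :
    Q μ (fun x => (H : ℂ)⁻¹ * ∑ h ∈ Finset.range H, s h * ∏ j, g j (S.φ (F.P j h) x)) ≤
      2 * (B' * Real.sqrt ε + (Fintype.card ι + 1 : ℕ) / M0) := by
  have h1 := hvdc X μ H M0 hM0 hH (vv S F H g s) (b1_vv S F H hg hs) (by
    intro h hh x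
    unfold vv
    rw [if_neg]
    rintro ⟨h1, h2⟩
    rcases hh with hh | hh <;> omega)
  have e1 : (fun x => (H : ℂ)⁻¹ * ∑ h ∈ Finset.range H, s h * ∏ j, g j (S.φ (F.P j h) x)) =
      fun x => (H : ℂ)⁻¹ * ∑ h ∈ Finset.range H, vv S F H g s h x := by
    funext x
    congr 1
    refine Finset.sum_congr rfl fun h hh => ?_
    unfold vv
    rw [if_pos ⟨by positivity, by exact_mod_cast Finset.mem_range.1 hh⟩]
  rw [e1]
  refine h1.trans (mul_le_mul_of_nonneg_left ?_ (by norm_num))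
  apply count M0 hM0 (Fintype.card ι + 1) T hT
    (fun r => ‖(H : ℂ)⁻¹ * ∑ h ∈ Finset.range H,
      ∫ x, vv S F H g s (h + r) x * conj (vv S F H g s h x) ∂μ‖)
  · intro r
    have hb : ∀ h : ℕ, ‖∫ x, vv S F H g s (h + r) x * conj (vv S F H g s h x) ∂μ‖ ≤ 1 :=
      fun h => norm_int_le (b1_mul (b1_vv S F H hg hs _) (b1_conj (b1_vv S F H hg hs _)))
    rw [norm_mul, norm_inv, Complex.norm_natCast]
    have h2 : ‖∑ h ∈ Finset.range H,
        ∫ x, vv S F H g s (h + r) x * conj (vv S F H g s h x) ∂μ‖ ≤ H := by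
      calc _ ≤ ∑ h ∈ Finset.range H,
            ‖∫ x, vv S F H g s (h + r) x * conj (vv S F H g s h x) ∂μ‖ := norm_sum_le _ _
        _ ≤ ∑ _h ∈ Finset.range H, (1 : ℝ) := Finset.sum_le_sum fun h _ => hb h
        _ = H := by simp
    have h3 : (0 : ℝ) < H := by exact_mod_cast lt_of_lt_of_le hM0 hH
    calc _ ≤ (H : ℝ)⁻¹ * H := mul_le_mul_of_nonneg_left h2 (by positivity)
      _ = 1 := inv_mul_cancel₀ h3.ne'
  · positivity
  · intro m hm m' hm' hr
    refine corr_le S F A js b0 ((m : ℤ) - m') _ B' (hst _ hr) H hg hs hsA ε ?_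
    intro ι' κ' _ _ F' A' hok
    refine hIH ι' κ' F' A' (ok_mono hok (le_trans ?_ hK'))
    apply Nat.mul_le_mul_left
    apply Nat.add_le_add_left
    apply Nat.mul_le_mul_left
    omega

/-! ## The linear case -/

lemma gpon_zero {B : ℕ} {A : Set ℤ} {P : ℤ → ℤ} (h : GPon 0 B A P) : ∃ a : ℤ, ∀ h ∈ A, P h = a := by
  obtain ⟨G, ⟨a, ha⟩, hG⟩ := h
  exact ⟨a, fun h hh => (hG h hh).trans (ha h)⟩

lemma lin_case {ι κ : Type} [Fintype ι] (S : Sys X μ) (F : Fam ι κ) (K B H : ℕ) (A : Set ℤ)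
    (hok : F.Ok K B A) (hD : F.D F.i0 = 1) (J : ℕ) (hJ : Fintype.card ι = J + 1) (u : X → ℂ)
    (η : ℝ)
    (hL : ∀ (l0 a0 : ℤ) (l a : Fin J → ℤ), l0 ≠ 0 → |l0| ≤ K →
      (∀ j, l0 - l j ≠ 0 ∧ |l0 - l j| ≤ K) → ∀ g : Fin J → X → ℂ, (∀ j, B1 (g j)) →
      ∀ s : ℤ → ℂ, (∀ h, ‖s h‖ ≤ 1) →
        Q μ (fun x => (H : ℂ)⁻¹ * ∑ h ∈ Finset.range H,
          s h * u (S.φ (l0 * h + a0) x) * ∏ j, g j (S.φ (l j * h + a j) x)) ≤ η)
    {g : ι → X → ℂ} (hg : ∀ j, B1 (g j)) (hgi : g F.i0 = u) {s : ℤ → ℂ} (hs : ∀ h, ‖s h‖ ≤ 1)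
    (hsA : ∀ h, h ∉ A → s h = 0) :
    Q μ (fun x => (H : ℂ)⁻¹ * ∑ h ∈ Finset.range H, s h * ∏ j, g j (S.φ (F.P j h) x)) ≤ η := by
  classical
  have hcard : Fintype.card (Fin J) = Fintype.card {j // j ≠ F.i0} := by
    rw [Fintype.card_fin, Fintype.card_subtype_compl, Fintype.card_subtype_eq, hJ]
    rfl
  let e : Fin J ≃ {j // j ≠ F.i0} := Fintype.equivOfCardEq hcard
  have h0 := hok.lead
  rw [hD] at h0
  obtain ⟨a0, ha0⟩ := gpon_zero h0
  have hDj : ∀ j, F.D j = 1 := fun j =>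
    le_antisymm ((hok.D_le j).trans hD.le) (hok.D_pos j)
  have h1 : ∀ j : {j // j ≠ F.i0}, ∃ a : ℤ, ∀ h ∈ A, F.P F.i0 h - F.P j.1 h - F.k j.1 * h ^ 1 = a := by
    intro j
    have h2 := hok.diff j.1 j.2
    rw [hDj] at h2
    exact gpon_zero h2
  choose a ha using h1
  have key := hL (F.k F.i0) a0 (fun j => F.k F.i0 - F.k (e j).1) (fun j => a0 - a (e j))
    (hok.k_ne _) (hok.k_le _) (by
      intro j
      rw [sub_sub_cancel]
      exact ⟨hok.k_ne _, hok.k_le _⟩) (fun j => g (e j).1) (fun j => hg _) s hs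
  refine le_of_eq_of_le ?_ key
  congr 1
  funext x
  congr 1
  refine Finset.sum_congr rfl fun h _ => ?_
  by_cases hA : (h : ℤ) ∈ A
  · rw [Fintype.prod_eq_mul_prod_subtype_ne _ F.i0, ← mul_assoc, hgi]
    have e1 : F.P F.i0 h = F.k F.i0 * h + a0 := by
      have := ha0 h hA
      rw [pow_one] at this
      linarith
    have e2 : ∀ j : {j // j ≠ F.i0}, F.P j.1 h = (F.k F.i0 - F.k j.1) * h + (a0 - a j) := by
      intro j
      have := ha j h hA
      rw [pow_one, e1] at this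
      linarith
    rw [e1]
    congr 1
    rw [← Equiv.prod_comp e]
    refine Finset.prod_congr rfl fun j _ => ?_
    rw [e2]
  · rw [hsA _ hA, zero_mul, zero_mul, zero_mul]

end PET

open PET

/-- the uniform PET theorem -/
theorem pet (hvdc : T_VDC) (hlin : T_LIN) (ha : T_PETA) (hb : T_PETB) (hconj : T_V_conj) :
    T_PET := by
  intro X _ μ _ S M
  induction M using (Multiset.wellFounded_isDershowitzMannaLT (α := ℕ)).induction with
  | _ M IH =>
  intro u hu hTU Lc K B η hη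
  obtain ⟨BA, hBA⟩ := ha Lc B M.sum
  obtain ⟨BB, hBB⟩ := hb Lc B M.sum
  obtain ⟨M0, hM0⟩ := exists_nat_ge (4 * ((Lc : ℝ) + 1) / η)
  have hM0pos : 0 < M0 := by
    have h1 : (0 : ℝ) < 4 * ((Lc : ℝ) + 1) / η := by positivity
    exact_mod_cast lt_of_lt_of_le h1 hM0
  set K' := K * (1 + M.sum * M0) with hK'
  -- the linear case
  have hl : ∀ᶠ H : ℕ in atTop, ∀ J ∈ Finset.range (Lc + 1),
      ∀ (l0 a0 : ℤ) (l a : Fin J → ℤ), l0 ≠ 0 → |l0| ≤ K →
      (∀ j, l0 - l j ≠ 0 ∧ |l0 - l j| ≤ K) → ∀ g : Fin J → X → ℂ, (∀ j, B1 (g j)) →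
      ∀ s : ℤ → ℂ, (∀ h, ‖s h‖ ≤ 1) →
        Q μ (fun x => (H : ℂ)⁻¹ * ∑ h ∈ Finset.range H,
          s h * u (S.φ (l0 * h + a0) x) * ∏ j, g j (S.φ (l j * h + a j) x)) ≤ η := by
    rw [eventually_all_finset]
    intro J _
    obtain ⟨C, κ, hC, hκ, h1⟩ := hlin X μ S J K
    filter_upwards [h1 u hu η hη] with H hH l0 a0 l a h2 h3 h4 g hg s hs
    have h5 := hH l0 a0 l a h2 h3 h4 g hg s hs
    rw [hTU (J + 1), Real.zero_rpow hκ.ne', mul_zero, zero_add] at h5
    exact h5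
  -- the induction hypotheses
  have hIH : ∀ (u' : X → ℂ) (B' : ℕ) (ε : ℝ), B1 u' → TU S u' → 0 < ε → ∀ᶠ H : ℕ in atTop,
      ∀ d ∈ M.toFinset, 1 ≤ d → ∀ (ι κ : Type) [Fintype ι] [Fintype κ] (F : Fam ι κ) (A : Set ℤ),
      F.Ok K' B' A → Fintype.card ι ≤ 2 * Lc →
      (Finset.univ : Finset κ).val.map F.dg ≤ M.erase d + Multiset.replicate (2 * Lc) (d - 1) →
      ∀ g : ι → X → ℂ, (∀ j, B1 (g j)) → g F.i0 = u' →
      ∀ s : ℤ → ℂ, (∀ h, ‖s h‖ ≤ 1) → (∀ h, h ∉ A → s h = 0) →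
      Q μ (fun x => (H : ℂ)⁻¹ * ∑ h ∈ Finset.range H, s h * ∏ j, g j (S.φ (F.P j h) x)) ≤ ε := by
    intro u' B' ε hu' hTU' hε
    rw [eventually_all_finset]
    intro d hd
    rw [Multiset.mem_toFinset] at hd
    by_cases hd1 : 1 ≤ d
    · have hDM : Multiset.IsDershowitzMannaLT
          (M.erase d + Multiset.replicate (2 * Lc) (d - 1)) M := by
        refine ⟨M.erase d, Multiset.replicate (2 * Lc) (d - 1), {d}, ?_, rfl, ?_, ?_⟩
        · exact Multiset.singleton_ne_zero d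
        · rw [add_comm, Multiset.singleton_add, Multiset.cons_erase hd]
        · intro y hy
          refine ⟨d, Multiset.mem_singleton_self d, ?_⟩
          rw [Multiset.eq_of_mem_replicate hy]
          omega
      filter_upwards [IH _ hDM u' hu' hTU' (2 * Lc) K' B' ε hε] with H hH _
      exact hH
    · filter_upwards with H h
      exact absurd h hd1
  have hcu : B1 (fun x => conj (u x)) := b1_conj hu
  have hcTU : TU S (fun x => conj (u x)) := by
    intro s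
    rw [hconj X μ S s u hu]
    exact hTU s
  have hεA : 0 < (η / (4 * ((BA : ℝ) + 1))) ^ 2 := by positivity
  have hεB : 0 < (η / (4 * ((BB : ℝ) + 1))) ^ 2 := by positivity
  filter_upwards [hl, hIH _ BA _ hcu hcTU hεA, hIH _ BB _ hu hTU hεB, eventually_ge_atTop M0]
    with H hH1 hH2 hH3 hH4
  intro ι κ _ _ F A hok hcard hM g hg hgi s hs hsA
  have hmem : F.D F.i0 ∈ M := by
    apply Multiset.mem_of_le hM
    rw [← hok.D0]
    exact Multiset.mem_map_of_mem _ (Finset.mem_univ _)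
  have hsum : F.D F.i0 ≤ M.sum := Multiset.le_sum_of_mem hmem
  have hpos : 1 ≤ F.D F.i0 := hok.D_pos _
  have hne : Fintype.card ι ≠ 0 := by
    have : Nonempty ι := ⟨F.i0⟩
    exact Fintype.card_ne_zero
  rcases Nat.lt_or_ge 1 (F.D F.i0) with hD | hD
  · -- the descent
    have hfin : ∀ B' : ℕ, 2 * (B' * Real.sqrt ((η / (4 * ((B' : ℝ) + 1))) ^ 2) +
        (Fintype.card ι + 1 : ℕ) / M0) ≤ η := by
      intro B'
      have hB0 : (0 : ℝ) ≤ B' := Nat.cast_nonneg _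
      rw [Real.sqrt_sq (by positivity)]
      have hM0' : (0 : ℝ) < M0 := by exact_mod_cast hM0pos
      have h1 : (B' : ℝ) * (η / (4 * ((B' : ℝ) + 1))) ≤ η / 4 := by
        rw [mul_div_assoc', div_le_div_iff₀ (by positivity) (by norm_num)]
        nlinarith
      have h2 : ((Fintype.card ι + 1 : ℕ) : ℝ) / M0 ≤ η / 4 := by
        rw [div_le_div_iff₀ hM0' (by norm_num)]
        rw [div_le_iff₀ hη] at hM0
        have h3 : ((Fintype.card ι + 1 : ℕ) : ℝ) ≤ (Lc : ℝ) + 1 := by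
          push_cast
          have : (Fintype.card ι : ℝ) ≤ Lc := by exact_mod_cast hcard
          linarith
        nlinarith
      linarith
    have hmono : ∀ (b0 : Bool) (u' : X → ℂ) (B' : ℕ) (ε : ℝ), u' = gg g (F.i0, b0) →
        (∀ d ∈ M.toFinset, 1 ≤ d → ∀ (ι κ : Type) [Fintype ι] [Fintype κ] (F : Fam ι κ)
          (A : Set ℤ), F.Ok K' B' A → Fintype.card ι ≤ 2 * Lc →
          (Finset.univ : Finset κ).val.map F.dg ≤
            M.erase d + Multiset.replicate (2 * Lc) (d - 1) →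
          ∀ g : ι → X → ℂ, (∀ j, B1 (g j)) → g F.i0 = u' →
          ∀ s : ℤ → ℂ, (∀ h, ‖s h‖ ≤ 1) → (∀ h, h ∉ A → s h = 0) →
          Q μ (fun x => (H : ℂ)⁻¹ * ∑ h ∈ Finset.range H, s h * ∏ j, g j (S.φ (F.P j h) x)) ≤ ε) →
        (∀ (ι' κ' : Type) [Fintype ι'] [Fintype κ'] (F' : Fam ι' κ') (A' : Set ℤ),
          F'.Ok K' B' A' → Fintype.card ι' ≤ 2 * Fintype.card ι →
          (∃ d ∈ (Finset.univ : Finset κ).val.map F.dg, 1 ≤ d ∧
            (Finset.univ : Finset κ').val.map F'.dg ≤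
              ((Finset.univ : Finset κ).val.map F.dg).erase d +
                Multiset.replicate (2 * Fintype.card ι) (d - 1)) →
          ∀ g' : ι' → X → ℂ, (∀ j, B1 (g' j)) → g' F'.i0 = gg g (F.i0, b0) →
          ∀ s' : ℤ → ℂ, (∀ h, ‖s' h‖ ≤ 1) → (∀ h, h ∉ A' → s' h = 0) →
          Q μ (fun x => (H : ℂ)⁻¹ * ∑ h ∈ Finset.range H,
            s' h * ∏ j, g' j (S.φ (F'.P j h) x)) ≤ ε) := by
      intro b0 u' B' ε hu' hall ι' κ' _ _ F' A' hok' hcard' hd g' hg' hgi' s' hs' hsA'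
      obtain ⟨d, hdm, hd1, hdle⟩ := hd
      have hdM : d ∈ M := Multiset.mem_of_le hM hdm
      refine hall d (Multiset.mem_toFinset.2 hdM) hd1 ι' κ' F' A' hok'
        (hcard'.trans (Nat.mul_le_mul_left 2 hcard)) (hdle.trans ?_) g' hg' (hgi'.trans hu'.symm)
        s' hs' hsA'
      exact add_le_add (Multiset.erase_le_erase d hM)
        (Multiset.replicate_le_replicate (d - 1) |>.2 (Nat.mul_le_mul_left 2 hcard))
    by_cases hcl : ∀ j, F.cl j = F.cl F.i0
    · -- one class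
      refine le_trans (step hvdc S F A F.i0 true K K' BB M.sum M0 hM0pos le_rfl
        (insert 0 (Finset.univ.image fun j => (- F.k j) / (F.k F.i0 * F.D F.i0))) ?_ ?_ H hH4 hg hs
        hsA _ (hmono true u BB _ ?_ hH3)) (hfin BB)
      · refine (Finset.card_insert_le _ _).trans (Nat.add_le_add_right ?_ 1)
        exact Finset.card_image_le.trans (by rw [Finset.card_univ])
      · intro r hr
        rw [Finset.mem_insert, not_or] at hr
        refine hBB ι κ F K A hok hcard hsum hD hcl r hr.1 ?_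
        intro j _ _ hk
        apply hr.2
        rw [Finset.mem_image]
        refine ⟨j, Finset.mem_univ _, ?_⟩
        rw [hk, neg_neg]
        apply Int.mul_ediv_cancel_left
        exact mul_ne_zero (hok.k_ne _) (by exact_mod_cast (by omega : F.D F.i0 ≠ 0))
      · simp [gg, hgi]
    · -- several classes
      push Not at hcl
      obtain ⟨j0, hj0⟩ := hcl
      classical
      obtain ⟨js, hjs, hmin⟩ := Finset.exists_min_image
        (Finset.univ.filter fun j => F.cl j ≠ F.cl F.i0) (fun j => F.dg (F.cl j))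
        ⟨j0, Finset.mem_filter.2 ⟨Finset.mem_univ _, hj0⟩⟩
      refine le_trans (step hvdc S F A js false K K' BA M.sum M0 hM0pos le_rfl
        (insert 0 (Finset.univ.image fun j => (F.k j) / (F.k F.i0 * F.D F.i0))) ?_ ?_ H hH4 hg hs
        hsA _ (hmono false _ BA _ ?_ hH2)) (hfin BA)
      · refine (Finset.card_insert_le _ _).trans (Nat.add_le_add_right ?_ 1)
        exact Finset.card_image_le.trans (by rw [Finset.card_univ])
      · intro r hr
        rw [Finset.mem_insert, not_or] at hr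
        refine hBA ι κ F K A hok hcard hsum hD js (Finset.mem_filter.1 hjs).2 ?_ r hr.1 ?_
        · intro j hj
          exact hmin j (Finset.mem_filter.2 ⟨Finset.mem_univ _, hj⟩)
        intro j _ _ hk
        apply hr.2
        rw [Finset.mem_image]
        refine ⟨j, Finset.mem_univ _, ?_⟩
        rw [hk]
        apply Int.mul_ediv_cancel_left
        exact mul_ne_zero (hok.k_ne _) (by exact_mod_cast (by omega : F.D F.i0 ≠ 0))
      · simp [gg, hgi]
  · -- the linear case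
    have hD1 : F.D F.i0 = 1 := le_antisymm hD hpos
    obtain ⟨J, hJ⟩ : ∃ J, Fintype.card ι = J + 1 := ⟨Fintype.card ι - 1, by omega⟩
    exact lin_case S F K B H A hok hD1 J hJ u η
      (hH1 J (Finset.mem_range.2 (by omega))) hg hgi hs hsA

end Pool.Agent.SqF
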