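import Pool.Agent.SqF.PETC

/-!
# MP_0b2319_an: combinatorial van der Corput step with more than one class
-/

set_option autoImplicit false

namespace Pool.Agent.SqF.PETA

open Pool.Agent.SqF Pool.Agent.SqF.PETC

variable {ι κ : Type}

/-- the indices that are kept -/
def keep (F : Fam ι κ) (js : ι) (x : ι × Bool) : Prop :=
  x ≠ (js, false) ∧ (F.dg (F.cl js) = 1 → F.cl x.1 ≠ F.cl js)

open Classical in
/-- the new degree data -/
noncomputable def newD (F : Fam ι κ) (j : ι) (ε : Bool) : ℕ :=
  if ε then (if j = F.i0 then F.D F.i0 - 1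
    else if F.D j = F.D F.i0 then F.D F.i0 else F.D F.i0 - 1)
  else F.D j

open Classical in
/-- the new leading coefficients -/
noncomputable def newk (F : Fam ι κ) (js : ι) (r : ℤ) (j : ι) (ε : Bool) : ℤ :=
  if ε then (if j = F.i0 then -(F.k F.i0 * F.D F.i0 * r)
    else if F.D j = F.D F.i0 then F.k j
    else if F.D j + 1 = F.D F.i0 then F.k j - F.k F.i0 * F.D F.i0 * r
    else -(F.k F.i0 * F.D F.i0 * r))
  else if j = F.i0 then F.k js else F.k j

open Classical in
/-- the new family -/
noncomputable def newF (F : Fam ι κ) (js : ι) (r : ℤ) (h0 : keep F js (F.i0, false)) :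
    Fam {x // keep F js x} ({c : κ // c ≠ F.cl js} ⊕ {x // keep F js x}) where
  P x h := F.P x.1.1 (if x.1.2 then h + r else h) - F.P js h
  cl x := if h : F.cl x.1.1 = F.cl js then Sum.inr x else Sum.inl ⟨F.cl x.1.1, h⟩
  dg := Sum.elim (fun c => F.dg c.1) (fun _ => F.dg (F.cl js) - 1)
  i0 := ⟨(F.i0, false), h0⟩
  D x := newD F x.1.1 x.1.2
  k x := newk F js r x.1.1 x.1.2

theorem shift_piece (a : Alg) {B j m n : ℕ} {A : Set ℤ} {r : ℤ} {pc : ℤ → Fin n} {π : Fin n}
    {P : ℤ → ℤ} (h : GPon j (B ^ m) A P) :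
    GPon j (B ^ m) (piece A r pc π) (fun x => P (x + r)) :=
  gshift a h piece_shift

theorem restr (a : Alg) {B j m n : ℕ} (hB : 1 ≤ B) {A : Set ℤ} {r : ℤ} {pc : ℤ → Fin n}
    {π : Fin n} {P : ℤ → ℤ} (h : GPon j (B ^ m) A P) :
    GPon j (B ^ m) (piece A r pc π) P :=
  gmono a hB h le_rfl le_rfl piece_sub

section
variable (a : Alg) (F : Fam ι κ) {K B : ℕ} {A : Set ℤ} (hF : F.Ok K B A)
  (hD : 2 ≤ F.D F.i0) (js : ι) (hjs : F.cl js ≠ F.cl F.i0)
  (hmin : ∀ j, F.cl j ≠ F.cl F.i0 → F.dg (F.cl js) ≤ F.dg (F.cl j)) (r : ℤ) (hr : r ≠ 0)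
  (hk : ∀ j, j ≠ F.i0 → F.D j + 1 = F.D F.i0 → F.k j ≠ F.k F.i0 * F.D F.i0 * r)
  {n : ℕ} (pc : ℤ → Fin n) (π : Fin n)
  (h1 : ∀ j, GPon (F.dg (F.cl j) - 1) (B ^ 1) (piece A r pc π)
        (fun h => F.P j (h + r) - F.P j h))
  (h2 : GPon (F.D F.i0 - 2) (B ^ 1) (piece A r pc π)
        (fun h => F.P F.i0 (h + r) - F.P F.i0 h -
          F.k F.i0 * F.D F.i0 * r * h ^ (F.D F.i0 - 1)))

theorem keep0 (hjs : F.cl js ≠ F.cl F.i0) : keep F js (F.i0, false) := by
  refine ⟨fun h => ?_, fun _ h => hjs h.symm⟩
  have h' := congrArg Prod.fst h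
  simp only at h'
  exact hjs (by rw [← h'])

include hF

theorem D_js (hjs : F.cl js ≠ F.cl F.i0) : F.D js = F.D F.i0 := by
  have h := hF.cls js (fun h => hjs (by rw [h]))
  have h' := hF.D_le js
  by_contra hne
  exact hjs (h.2 (lt_of_le_of_ne h' hne))

theorem newD_pos (hD : 2 ≤ F.D F.i0) (j : ι) (ε : Bool) : 1 ≤ newD F j ε := by
  have := hF.D_pos j
  unfold newD
  split_ifs <;> omega

theorem newD_le (hD : 2 ≤ F.D F.i0) (j : ι) (ε : Bool) : newD F j ε ≤ F.D F.i0 := by
  have := hF.D_le j
  unfold newD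
  split_ifs <;> omega

include hk hr hD in
theorem newk_ne (j : ι) (ε : Bool) : newk F js r j ε ≠ 0 := by
  have h0 := hF.k_ne F.i0
  have h3 : (F.D F.i0 : ℤ) ≠ 0 := by
    have : F.D F.i0 ≠ 0 := by omega
    exact_mod_cast this
  have h4 : F.k F.i0 * F.D F.i0 * r ≠ 0 := mul_ne_zero (mul_ne_zero h0 h3) hr
  unfold newk
  split_ifs with e1 e2 e3 e4 e5
  · exact neg_ne_zero.2 h4
  · exact hF.k_ne j
  · exact sub_ne_zero.2 (hk j e2 e4)
  · exact neg_ne_zero.2 h4
  · exact hF.k_ne js
  · exact hF.k_ne j

theorem newk_le {D1 : ℕ} (hD1 : F.D F.i0 ≤ D1) (j : ι) (ε : Bool) :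
    |newk F js r j ε| ≤ ((K * (1 + D1 * r.natAbs) : ℕ) : ℤ) := by
  have hK := hF.k_le F.i0
  have hKj := hF.k_le j
  have hKjs := hF.k_le js
  have hK0 : (0 : ℤ) ≤ K := Int.natCast_nonneg K
  have h4 : |F.k F.i0 * F.D F.i0 * r| ≤ (K : ℤ) * (D1 * r.natAbs) := by
    rw [abs_mul, abs_mul, mul_assoc]
    have e1 : |r| = (r.natAbs : ℤ) := Int.abs_eq_natAbs r
    have e2 : |(F.D F.i0 : ℤ)| = (F.D F.i0 : ℤ) := abs_of_nonneg (Int.natCast_nonneg _)
    rw [e1, e2]
    have e3 : (F.D F.i0 : ℤ) ≤ D1 := by exact_mod_cast hD1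
    have e4 : (0 : ℤ) ≤ (r.natAbs : ℤ) := Int.natCast_nonneg _
    exact mul_le_mul hK (mul_le_mul_of_nonneg_right e3 e4)
      (mul_nonneg (Int.natCast_nonneg _) e4) hK0
  have h5 : (0 : ℤ) ≤ (K : ℤ) * (D1 * r.natAbs) := le_trans (abs_nonneg _) h4
  have h6 : ((K * (1 + D1 * r.natAbs) : ℕ) : ℤ) = (K : ℤ) + (K : ℤ) * (D1 * r.natAbs) := by
    push_cast
    ring
  rw [h6]
  unfold newk
  split_ifs with e1 e2 e3 e4 e5
  · rw [abs_neg]; linarith
  · linarith
  · exact le_trans (abs_sub _ _) (by linarith)
  · rw [abs_neg]; linarith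
  · linarith
  · linarith

include hD h1 h2 a in
/-- the differences with the designated exponent -/
theorem diff' (x : ι × Bool) (hx : x ≠ (F.i0, false)) :
    GPon (newD F x.1 x.2 - 1) (B ^ 2) (piece A r pc π)
      (fun h => F.P F.i0 h - F.P x.1 (if x.2 then h + r else h) -
        newk F js r x.1 x.2 * h ^ newD F x.1 x.2) := by
  obtain ⟨j, ε⟩ := x
  have hB := one_le_B hF
  have hD0 := hF.D0
  have h1' := h1 F.i0
  rw [hD0] at h1'
  cases ε with
  | false =>
    have hj : j ≠ F.i0 := fun h => hx (by rw [h])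
    have h3 := hF.diff j hj
    rw [← pow_one B] at h3
    have h4 := gmono a hB h3 le_rfl (by norm_num : 1 ≤ 2) (piece_sub (r := r) (pc := pc) (π := π))
    simpa [newD, newk, hj] using h4
  | true =>
    by_cases hj : j = F.i0
    · subst hj
      have h4 : GPon (F.D F.i0 - 1 - 1) (B ^ 2) (piece A r pc π)
          (fun h => -(F.P F.i0 (h + r) - F.P F.i0 h -
          F.k F.i0 * F.D F.i0 * r * h ^ (F.D F.i0 - 1))) :=
        gneg a (gmono a hB h2 (by omega) (by norm_num) (Set.Subset.refl _))
      have h5 : newD F F.i0 true = F.D F.i0 - 1 := by simp [newD]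
      have h6 : newk F js r F.i0 true = -(F.k F.i0 * F.D F.i0 * r) := by simp [newk]
      simp only [h5, h6]
      refine gcongr h4 fun h _ => ?_
      simp only [if_true]
      ring
    · have h3 := hF.diff j hj
      rw [← pow_one B] at h3
      have h4 := shift_piece a (r := r) (pc := pc) (π := π) h3
      have hle := hF.D_le j
      have hpos := hF.D_pos j
      by_cases e1 : F.D j = F.D F.i0
      · have h5 : newD F j true = F.D F.i0 := by simp [newD, hj, e1]
        have h6 : newk F js r j true = F.k j := by simp [newk, hj, e1]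
        simp only [h5, h6]
        rw [e1] at h4
        have h7 := gsub a (gadd a h4 (gdiff' (m := 0) a hB (j := F.D F.i0 - 1) (F.D F.i0)
          (piece A r pc π) (F.k j) r (by omega) (by omega)))
          h1'
        refine gcongr h7 fun h _ => ?_
        simp only [if_true]
        ring
      · by_cases e2 : F.D j + 1 = F.D F.i0
        · have h5 : newD F j true = F.D F.i0 - 1 := by simp [newD, hj, e1]
          have h6 : newk F js r j true = F.k j - F.k F.i0 * F.D F.i0 * r := by
            simp [newk, hj, e1, e2]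
          simp only [h5, h6]
          have e3 : F.D j = F.D F.i0 - 1 := by omega
          rw [e3] at h4
          have e4 : F.D F.i0 - 2 = F.D F.i0 - 1 - 1 := by omega
          rw [e4] at h2
          have h7 := gsub a (gadd a h4 (gdiff' (m := 0) a hB (j := F.D F.i0 - 1 - 1)
            (F.D F.i0 - 1) (piece A r pc π) (F.k j) r (by omega) (by omega))) h2
          refine gcongr h7 fun h _ => ?_
          simp only [if_true]
          ring
        · have h5 : newD F j true = F.D F.i0 - 1 := by simp [newD, hj, e1]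
          have h6 : newk F js r j true = -(F.k F.i0 * F.D F.i0 * r) := by
            simp [newk, hj, e1, e2]
          simp only [h5, h6]
          have e4 : F.D F.i0 - 2 = F.D F.i0 - 1 - 1 := by omega
          rw [e4] at h2
          have h8 : GPon (F.D F.i0 - 1 - 1) (B ^ 1) (piece A r pc π)
              (fun x => F.P F.i0 (x + r) - F.P j (x + r) - F.k j * (x + r) ^ F.D j) :=
            gmono a hB h4 (by omega) le_rfl (Set.Subset.refl _)
          have h9 : GPon (F.D F.i0 - 1 - 1) (B ^ 0) (piece A r pc π)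
              (fun x => F.k j * (x + r) ^ F.D j) := by
            have h10 := gmono' (m := 0) a hB (j := F.D F.i0 - 1 - 1) (F.D j) Set.univ (F.k j)
              (by omega)
            exact gshift a h10 fun _ _ => Set.mem_univ _
          have h7 := gsub a (gadd a h8 h9) h2
          refine gcongr h7 fun h _ => ?_
          simp only [if_true]
          ring

include hmin a in
/-- degrees of the new exponents -/
theorem gp' (x : ι × Bool) (hx : F.cl x.1 ≠ F.cl js) :
    GPon (F.dg (F.cl x.1)) (B ^ 2) (piece A r pc π)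
      (fun h => F.P x.1 (if x.2 then h + r else h) - F.P js h) := by
  obtain ⟨j, ε⟩ := x
  have hB := one_le_B hF
  have hle : F.dg (F.cl js) ≤ F.dg (F.cl j) := by
    by_cases h : F.cl j = F.cl F.i0
    · rw [h, hF.D0]
      exact hF.dg_le js
    · exact hmin j h
  have h3 := hF.gp js
  rw [← pow_one B] at h3
  have h4 : GPon (F.dg (F.cl j)) (B ^ 1) (piece A r pc π) (F.P js) :=
    gmono a hB h3 hle le_rfl piece_sub
  have h5 := hF.gp j
  rw [← pow_one B] at h5
  cases ε with
  | false => exact gcongr (gsub a (restr a hB h5) h4) fun h _ => by simp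
  | true => exact gcongr (gsub a (shift_piece a h5) h4) fun h _ => by simp

include h1 a in
theorem gp'' (x : ι × Bool) (hx : F.cl x.1 = F.cl js) :
    GPon (F.dg (F.cl js) - 1) (B ^ 2) (piece A r pc π)
      (fun h => F.P x.1 (if x.2 then h + r else h) - F.P js h) := by
  obtain ⟨j, ε⟩ := x
  have hB := one_le_B hF
  simp only at hx
  have h3 := hF.same j js hx
  rw [← pow_one B, hx] at h3
  cases ε with
  | false =>
    exact gcongr (gmono a hB h3 le_rfl (by norm_num : 1 ≤ 2) piece_sub) fun h _ => by simp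
  | true =>
    have h4 := h1 j
    rw [hx] at h4
    exact gcongr (gadd a (restr a hB h3) h4) fun h _ => by simp only [if_true]; ring

include h1 a in
/-- differences within a class -/
theorem same' (x x' : ι × Bool) (hx : F.cl x.1 = F.cl x'.1) :
    GPon (F.dg (F.cl x.1) - 1) (B ^ 2) (piece A r pc π)
      (fun h => (F.P x.1 (if x.2 then h + r else h) - F.P js h) -
        (F.P x'.1 (if x'.2 then h + r else h) - F.P js h)) := by
  obtain ⟨j, ε⟩ := x
  obtain ⟨j', ε'⟩ := x'
  have hB := one_le_B hF
  simp only at hx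
  have h3 := hF.same j j' hx
  rw [← pow_one B] at h3
  have h4 := h1 j'
  rw [← hx] at h4
  cases ε with
  | false =>
    cases ε' with
    | false =>
      exact gcongr (gmono a hB h3 le_rfl (by norm_num : 1 ≤ 2) piece_sub) fun h _ => by
        simp
    | true =>
      exact gcongr (gsub a (restr a hB h3) h4) fun h _ => by
        simp only [if_true]
        simp only [Bool.false_eq_true, if_false]
        ring
  | true =>
    cases ε' with
    | false =>
      exact gcongr (gadd a (shift_piece a h3) h4) fun h _ => by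
        simp only [if_true]
        simp only [Bool.false_eq_true, if_false]
        ring
    | true =>
      exact gcongr (gmono a hB (shift_piece a h3) le_rfl (by norm_num : 1 ≤ 2)
        (Set.Subset.refl _)) fun h _ => by
        simp only [if_true]
        ring

theorem cls' (hD : 2 ≤ F.D F.i0) (x : ι × Bool) (hx : x ≠ (F.i0, false)) :
    F.cl x.1 = F.cl F.i0 ↔ newD F x.1 x.2 < F.D F.i0 := by
  obtain ⟨j, ε⟩ := x
  cases ε with
  | false =>
    have hj : j ≠ F.i0 := fun h => hx (by rw [h])
    have h3 := hF.cls j hj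
    simpa [newD] using h3
  | true =>
    by_cases hj : j = F.i0
    · subst hj
      have h5 : newD F F.i0 true = F.D F.i0 - 1 := by simp [newD]
      simp only [h5]
      exact ⟨fun _ => by omega, fun _ => trivial⟩
    · have h3 := hF.cls j hj
      by_cases e1 : F.D j = F.D F.i0
      · have h5 : newD F j true = F.D F.i0 := by simp [newD, hj, e1]
        simp only [h5]
        rw [h3, e1]
      · have h5 : newD F j true = F.D F.i0 - 1 := by simp [newD, hj, e1]
        simp only [h5]
        have h6 := hF.D_le j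
        exact ⟨fun _ => by omega, fun _ => h3.2 (by omega)⟩

include a hD hmin hr hk h1 h2 in
/-- the new family satisfies the conditions -/
theorem ok {D1 m : ℕ} (hD1 : F.D F.i0 ≤ D1) (hm : 2 ≤ m) (hjs : F.cl js ≠ F.cl F.i0) :
    (newF F js r (keep0 F js hjs)).Ok (K * (1 + D1 * r.natAbs)) (B ^ m)
      (piece A r pc π) := by
  classical
  have hB := one_le_B hF
  have up : ∀ {j : ℕ} {P : ℤ → ℤ}, GPon j (B ^ 2) (piece A r pc π) P →
      GPon j (B ^ m) (piece A r pc π) P := fun h =>
    gmono a hB h le_rfl hm (Set.Subset.refl _)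
  have hi0 : (newF F js r (keep0 F js hjs)).D (newF F js r (keep0 F js hjs)).i0 =
      F.D F.i0 := by
    show newD F F.i0 false = F.D F.i0
    simp [newD]
  have hk0 : (newF F js r (keep0 F js hjs)).k (newF F js r (keep0 F js hjs)).i0 =
      F.k js := by
    show newk F js r F.i0 false = F.k js
    simp [newk]
  have hcl : ∀ x : {x // keep F js x}, F.cl x.1.1 = F.cl js →
      (newF F js r (keep0 F js hjs)).cl x = Sum.inr x := by
    intro x hx
    exact dif_pos hx
  have hcl' : ∀ x : {x // keep F js x}, ∀ hx : F.cl x.1.1 ≠ F.cl js,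
      (newF F js r (keep0 F js hjs)).cl x = Sum.inl ⟨F.cl x.1.1, hx⟩ := by
    intro x hx
    exact dif_neg hx
  have hdgr : ∀ y, (newF F js r (keep0 F js hjs)).dg (Sum.inr y) = F.dg (F.cl js) - 1 :=
    fun y => rfl
  have hdgl : ∀ c, (newF F js r (keep0 F js hjs)).dg (Sum.inl c) = F.dg c.1 :=
    fun c => rfl
  have hP : ∀ x h, (newF F js r (keep0 F js hjs)).P x h =
      F.P x.1.1 (if x.1.2 then h + r else h) - F.P js h := fun x h => rfl
  have hcl0 : (newF F js r (keep0 F js hjs)).cl (newF F js r (keep0 F js hjs)).i0 =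
      Sum.inl ⟨F.cl F.i0, fun h => hjs h.symm⟩ := hcl' ⟨(F.i0, false), _⟩ _
  constructor
  · -- dg_pos
    intro x
    by_cases hx : F.cl x.1.1 = F.cl js
    · rw [hcl x hx, hdgr]
      have h3 := x.2.2
      have h4 := hF.dg_pos js
      have h5 : F.dg (F.cl js) ≠ 1 := fun h => h3 h hx
      omega
    · rw [hcl' x hx, hdgl]
      exact hF.dg_pos _
  · -- dg_le
    intro x
    rw [hi0]
    by_cases hx : F.cl x.1.1 = F.cl js
    · rw [hcl x hx, hdgr]
      have := hF.dg_le js
      omega
    · rw [hcl' x hx, hdgl]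
      exact hF.dg_le _
  · -- D0
    rw [hi0, hcl0, hdgl]
    exact hF.D0
  · -- gp
    intro x
    by_cases hx : F.cl x.1.1 = F.cl js
    · rw [hcl x hx, hdgr]
      exact up (gp'' a F hF js r pc π h1 x.1 hx)
    · rw [hcl' x hx, hdgl]
      exact up (gp' a F hF js hmin r pc π x.1 hx)
  · -- same
    intro x x' hxx
    by_cases hx : F.cl x.1.1 = F.cl js
    · rw [hcl x hx] at hxx
      by_cases hx' : F.cl x'.1.1 = F.cl js
      · rw [hcl x' hx'] at hxx
        have hxx' : x = x' := Sum.inr_injective hxx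
        subst hxx'
        have h3 := gconst a B (F.dg (F.cl js) - 1 - 1) (piece A r pc π) 0
        rw [hcl x hx, hdgr]
        refine gcongr (gmono a hB h3 le_rfl (Nat.zero_le m) (Set.Subset.refl _))
          fun h _ => ?_
        simp
      · rw [hcl' x' hx'] at hxx
        cases hxx
    · have hxx2 := hxx
      rw [hcl' x hx] at hxx
      by_cases hx' : F.cl x'.1.1 = F.cl js
      · rw [hcl x' hx'] at hxx
        cases hxx
      · rw [hcl' x' hx'] at hxx
        have h3 := Sum.inl_injective hxx
        have h4 : F.cl x.1.1 = F.cl x'.1.1 := by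
          have := congrArg Subtype.val h3
          simpa using this
        rw [hcl' x hx, hdgl]
        exact up (same' a F hF js r pc π h1 x.1 x'.1 h4)
  · -- lead
    rw [hi0, hk0]
    have h3 := hF.diff js (fun h => hjs (by rw [h]))
    rw [D_js F hF js hjs, ← pow_one B] at h3
    refine gcongr (gmono a hB h3 le_rfl (by omega : 1 ≤ m) piece_sub) fun h _ => ?_
    rw [hP]
    have e0 : (newF F js r (keep0 F js hjs)).i0.1 = (F.i0, false) := rfl
    rw [e0]
    simp
  · -- D_pos
    intro x
    exact newD_pos F hF hD x.1.1 x.1.2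
  · -- D_le
    intro x
    rw [hi0]
    exact newD_le F hF hD x.1.1 x.1.2
  · -- k_ne
    intro x
    exact newk_ne F hF hD js r hr hk x.1.1 x.1.2
  · -- k_le
    intro x
    exact newk_le F hF js r hD1 x.1.1 x.1.2
  · -- diff
    intro x hx
    have hx' : x.1 ≠ (F.i0, false) := fun h => hx (Subtype.ext h)
    refine gcongr (up (diff' a F hF hD js r pc π h1 h2 x.1 hx')) fun h _ => ?_
    rw [hP, hP]
    have e0 : (newF F js r (keep0 F js hjs)).i0.1 = (F.i0, false) := rfl
    rw [e0]
    show _ - newk F js r x.1.1 x.1.2 * h ^ newD F x.1.1 x.1.2 = _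
    simp
  · -- cls
    intro x hx
    have hx' : x.1 ≠ (F.i0, false) := fun h => hx (Subtype.ext h)
    rw [hi0, hcl0]
    have h3 := cls' F hF hD x.1 hx'
    show _ ↔ newD F x.1.1 x.1.2 < F.D F.i0
    rw [← h3]
    by_cases hx2 : F.cl x.1.1 = F.cl js
    · rw [hcl x hx2]
      constructor
      · intro h
        cases h
      · intro h
        exact absurd (hx2.symm.trans h) hjs
    · rw [hcl' x hx2]
      constructor
      · intro h
        have := congrArg Subtype.val (Sum.inl_injective h)
        simpa using this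
      · intro h
        congr 1
        exact Subtype.ext h

end

/-- degrees of a sum of two index types -/
theorem map_sum {α β : Type} [Fintype α] [Fintype β] (f : α ⊕ β → ℕ) :
    (Finset.univ : Finset (α ⊕ β)).val.map f =
      (Finset.univ : Finset α).val.map (fun x => f (Sum.inl x)) +
        (Finset.univ : Finset β).val.map (fun x => f (Sum.inr x)) := by
  rw [← Finset.univ_disjSum_univ, Finset.val_disjSum, Multiset.disjSum, Multiset.map_add,
    Multiset.map_map, Multiset.map_map]
  rfl

/-- degrees after removing one class -/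
theorem map_erase {κ : Type} [Fintype κ] (f : κ → ℕ) (c : κ) [Fintype {x : κ // x ≠ c}] :
    (Finset.univ : Finset {x : κ // x ≠ c}).val.map (fun x => f x.1) =
      ((Finset.univ : Finset κ).val.map f).erase (f c) := by
  classical
  have h1 : (Finset.univ : Finset {x : κ // x ≠ c}).val.map (fun x => x.1) =
      ((Finset.univ : Finset κ).erase c).val := by
    have h2 : (Finset.univ : Finset {x : κ // x ≠ c}).map (Function.Embedding.subtype _) =
        (Finset.univ : Finset κ).erase c := by
      ext x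
      simp
    rw [← h2]
    rfl
  rw [← Multiset.map_erase_of_mem f _ (Finset.mem_univ c), ← Finset.erase_val, ← h1,
    Multiset.map_map]
  rfl

theorem main (a : Alg) : T_PETA := by
  classical
  intro Lc B D1
  refine ⟨B ^ (Lc + 2), ?_⟩
  intro ι κ _ _ F K A hF hLc hD1 hD js hjs hmin r hr hk
  obtain ⟨n, pc, hn, hp⟩ := pieces a F hF hD r
  have hB := one_le_B hF
  refine ⟨n, pc, le_trans hn (Nat.pow_le_pow_right hB (by omega)), fun π => ?_⟩
  obtain ⟨h1, h2⟩ := hp π
  refine ⟨keep F js, _, inferInstance, newF F js r (keep0 F js hjs), rfl, ?_,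
    fun x h => rfl, ?_, F.dg (F.cl js), ?_, hF.dg_pos js, ?_⟩
  · exact ok a F hF hD js hmin r hr hk pc π h1 h2 hD1 (by omega) hjs
  · intro x hx
    unfold keep at hx
    by_cases hx1 : x = (js, false)
    · refine ⟨0, fun h _ => ?_⟩
      rw [hx1]
      simp
    · have hx2 : F.dg (F.cl js) = 1 ∧ F.cl x.1 = F.cl js := by
        by_contra hc
        apply hx
        refine ⟨hx1, fun h3 h4 => hc ⟨h3, h4⟩⟩
      have h3 := gp'' a F hF js r pc π h1 x hx2.2
      rw [hx2.1] at h3
      exact gzero_const h3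
  · exact Multiset.mem_map_of_mem _ (Finset.mem_univ _)
  · rw [map_sum]
    have e1 : (fun x : {c : κ // c ≠ F.cl js} =>
        (newF F js r (keep0 F js hjs)).dg (Sum.inl x)) = fun x => F.dg x.1 := rfl
    have e2 : (fun x : {x // keep F js x} =>
        (newF F js r (keep0 F js hjs)).dg (Sum.inr x)) = fun _ => F.dg (F.cl js) - 1 := rfl
    rw [e1, e2, map_erase F.dg (F.cl js), Multiset.map_const']
    refine add_le_add_right ?_ _
    rw [Multiset.replicate_le_replicate]
    have h3 : Fintype.card {x // keep F js x} ≤ Fintype.card (ι × Bool) :=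
      Fintype.card_subtype_le _
    rw [Fintype.card_prod, Fintype.card_bool] at h3
    have h4 : (Finset.univ : Finset {x // keep F js x}).val.card =
        Fintype.card {x // keep F js x} := rfl
    rw [h4]
    omega

end Pool.Agent.SqF.PETA

namespace Pool.Agent.SqF

/-- combinatorial van der Corput step, more than one class -/
theorem peta (hmono : T_GP_mono) (hshift : T_GP_shift) (hneg : T_GP_neg) (hadd : T_GP_add)
    (hpoly : T_GP_poly) (hdmono : T_GP_dmono) : T_PETA :=
  PETA.main ⟨hmono, hshift, hneg, hadd, hpoly, hdmono⟩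

end Pool.Agent.SqF
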