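import Pool.Agent.SqF.PETA

/-!
# MP_0b2319_an: combinatorial van der Corput step with one class
-/

set_option autoImplicit false

namespace Pool.Agent.SqF.PETB

open Pool.Agent.SqF Pool.Agent.SqF.PETC Pool.Agent.SqF.PETA

variable {ι κ : Type}

/-- the indices that are kept -/
def keepB (F : Fam ι κ) (x : ι × Bool) : Prop := x ≠ (F.i0, false)

open Classical in
/-- the new degree data -/
noncomputable def newDB (F : Fam ι κ) (j : ι) (ε : Bool) : ℕ :=
  if ε then (if j = F.i0 then F.D F.i0 - 1 else F.D j) else F.D F.i0 - 1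

open Classical in
/-- the new leading coefficients -/
noncomputable def newkB (F : Fam ι κ) (r : ℤ) (j : ι) (ε : Bool) : ℤ :=
  if ε then (if j = F.i0 then F.k F.i0 * F.D F.i0 * r else F.k j)
  else if F.D j + 1 = F.D F.i0 then F.k j + F.k F.i0 * F.D F.i0 * r
    else F.k F.i0 * F.D F.i0 * r

theorem keepB0 (F : Fam ι κ) : keepB F (F.i0, true) := by
  intro h
  have := congrArg Prod.snd h
  simp at this

open Classical in
/-- the new family -/
noncomputable def newFB (F : Fam ι κ) (r : ℤ) :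
    Fam {x // keepB F x} {x // keepB F x} where
  P x h := F.P x.1.1 (if x.1.2 then h + r else h) - F.P F.i0 h
  cl x := if newDB F x.1.1 x.1.2 < F.D F.i0 - 1 then ⟨(F.i0, true), keepB0 F⟩ else x
  dg _ := F.D F.i0 - 1
  i0 := ⟨(F.i0, true), keepB0 F⟩
  D x := newDB F x.1.1 x.1.2
  k x := newkB F r x.1.1 x.1.2

section
variable (a : Alg) (F : Fam ι κ) {K B : ℕ} {A : Set ℤ} (hF : F.Ok K B A)
  (hD : 2 ≤ F.D F.i0) (hall : ∀ j, F.cl j = F.cl F.i0) (r : ℤ) (hr : r ≠ 0)
  (hk : ∀ j, j ≠ F.i0 → F.D j + 1 = F.D F.i0 → F.k j ≠ -(F.k F.i0 * F.D F.i0 * r))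
  {n : ℕ} (pc : ℤ → Fin n) (π : Fin n)
  (h1 : ∀ j, GPon (F.dg (F.cl j) - 1) (B ^ 1) (piece A r pc π)
        (fun h => F.P j (h + r) - F.P j h))
  (h2 : GPon (F.D F.i0 - 2) (B ^ 1) (piece A r pc π)
        (fun h => F.P F.i0 (h + r) - F.P F.i0 h -
          F.k F.i0 * F.D F.i0 * r * h ^ (F.D F.i0 - 1)))

include hF

include hall in
theorem D_lt (j : ι) (hj : j ≠ F.i0) : F.D j < F.D F.i0 := (hF.cls j hj).1 (hall j)

include hD in
theorem newDB_pos (j : ι) (ε : Bool) : 1 ≤ newDB F j ε := by
  have := hF.D_pos j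
  unfold newDB
  split_ifs <;> omega

include hall in
theorem newDB_le (j : ι) (ε : Bool) : newDB F j ε ≤ F.D F.i0 - 1 := by
  unfold newDB
  split_ifs with e1 e2
  · exact le_rfl
  · have := D_lt F hF hall j e2
    omega
  · exact le_rfl

include hk hr hD in
theorem newkB_ne (j : ι) (ε : Bool) (hx : (j, ε) ≠ (F.i0, false)) : newkB F r j ε ≠ 0 := by
  have h0 := hF.k_ne F.i0
  have h3 : (F.D F.i0 : ℤ) ≠ 0 := by
    have : F.D F.i0 ≠ 0 := by omega
    exact_mod_cast this
  have h4 : F.k F.i0 * F.D F.i0 * r ≠ 0 := mul_ne_zero (mul_ne_zero h0 h3) hr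
  unfold newkB
  split_ifs with e1 e2 e3
  · exact h4
  · exact hF.k_ne j
  · have hj : j ≠ F.i0 := by
      intro h
      apply hx
      rw [h, Bool.eq_false_of_not_eq_true e1]
    intro h
    exact hk j hj e3 (by linarith)
  · exact h4

theorem newkB_le {D1 : ℕ} (hD1 : F.D F.i0 ≤ D1) (j : ι) (ε : Bool) :
    |newkB F r j ε| ≤ ((K * (1 + D1 * r.natAbs) : ℕ) : ℤ) := by
  have hK := hF.k_le F.i0
  have hKj := hF.k_le j
  have hK0 : (0 : ℤ) ≤ K := Int.natCast_nonneg K
  have h4 : |F.k F.i0 * F.D F.i0 * r| ≤ (K : ℤ) * (D1 * r.natAbs) := by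
    rw [abs_mul, abs_mul, mul_assoc]
    have e1 : |r| = (r.natAbs : ℤ) := Int.abs_eq_natAbs r
    have e2 : |(F.D F.i0 : ℤ)| = (F.D F.i0 : ℤ) := abs_of_nonneg (Int.natCast_nonneg _)
    rw [e1, e2]
    have e3 : (F.D F.i0 : ℤ) ≤ D1 := by exact_mod_cast hD1
    have e4 : (0 : ℤ) ≤ (r.natAbs : ℤ) := Int.natCast_nonneg _
    exact mul_le_mul hK (mul_le_mul_of_nonneg_right e3 e4)
      (mul_nonneg (Int.natCast_nonneg _) e4) hK0
  have h5 : (0 : ℤ) ≤ (K : ℤ) * (D1 * r.natAbs) := le_trans (abs_nonneg _) h4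
  have h6 : ((K * (1 + D1 * r.natAbs) : ℕ) : ℤ) = (K : ℤ) + (K : ℤ) * (D1 * r.natAbs) := by
    push_cast
    ring
  rw [h6]
  unfold newkB
  split_ifs with e1 e2 e3
  · linarith
  · linarith
  · exact le_trans (abs_add_le _ _) (by linarith)
  · linarith

include hD hall h2 a in
/-- the differences with the designated exponent -/
theorem diffB (x : ι × Bool) (hx : x ≠ (F.i0, true)) (hx0 : x ≠ (F.i0, false)) :
    GPon (newDB F x.1 x.2 - 1) (B ^ 2) (piece A r pc π)
      (fun h => F.P F.i0 (h + r) - F.P x.1 (if x.2 then h + r else h) -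
        newkB F r x.1 x.2 * h ^ newDB F x.1 x.2) := by
  obtain ⟨j, ε⟩ := x
  have hB := one_le_B hF
  have hj : j ≠ F.i0 := by
    intro h
    subst h
    cases ε
    · exact hx0 rfl
    · exact hx rfl
  have hlt := D_lt F hF hall j hj
  have hpos := hF.D_pos j
  have h3 := hF.diff j hj
  rw [← pow_one B] at h3
  cases ε with
  | true =>
    have h4 := shift_piece a (r := r) (pc := pc) (π := π) h3
    have h5 : newDB F j true = F.D j := by simp [newDB, hj]
    have h6 : newkB F r j true = F.k j := by simp [newkB, hj]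
    simp only [h5, h6]
    have h7 := gadd a h4 (gdiff' (m := 1) a hB (j := F.D j - 1) (F.D j)
          (piece A r pc π) (F.k j) r (by omega) (by omega))
    refine gcongr h7 fun h _ => ?_
    simp only [if_true]
    ring
  | false =>
    have h4 := restr a hB (r := r) (pc := pc) (π := π) h3
    have h5 : newDB F j false = F.D F.i0 - 1 := by simp [newDB]
    have e4 : F.D F.i0 - 2 = F.D F.i0 - 1 - 1 := by omega
    rw [e4] at h2
    by_cases e2 : F.D j + 1 = F.D F.i0
    · have h6 : newkB F r j false = F.k j + F.k F.i0 * F.D F.i0 * r := by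
        simp [newkB, e2]
      simp only [h5, h6]
      have e3 : F.D j = F.D F.i0 - 1 := by omega
      rw [e3] at h4
      refine gcongr (gadd a h4 h2) fun h _ => ?_
      simp only [Bool.false_eq_true, if_false]
      ring
    · have h6 : newkB F r j false = F.k F.i0 * F.D F.i0 * r := by
        simp [newkB, e2]
      simp only [h5, h6]
      have h8 : GPon (F.D F.i0 - 1 - 1) (B ^ 1) (piece A r pc π)
          (fun x => F.P F.i0 x - F.P j x - F.k j * x ^ F.D j) :=
        gmono a hB h4 (by omega) le_rfl (Set.Subset.refl _)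
      have h9 : GPon (F.D F.i0 - 1 - 1) (B ^ 0) (piece A r pc π)
          (fun x => F.k j * x ^ F.D j) := gmono' a hB _ _ _ (by omega)
      refine gcongr (gadd a (gadd a h8 h9) h2) fun h _ => ?_
      simp only [Bool.false_eq_true, if_false]
      ring

include hall h1 a in
/-- degrees of the new exponents -/
theorem gpB (x : ι × Bool) :
    GPon (F.D F.i0 - 1) (B ^ 2) (piece A r pc π)
      (fun h => F.P x.1 (if x.2 then h + r else h) - F.P F.i0 h) := by
  obtain ⟨j, ε⟩ := x
  have hB := one_le_B hF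
  have h3 := hF.same j F.i0 (hall j)
  rw [← pow_one B, hall j, hF.D0] at h3
  cases ε with
  | false =>
    exact gcongr (gmono a hB h3 le_rfl (by norm_num : 1 ≤ 2) piece_sub) fun h _ => by simp
  | true =>
    have h4 := h1 j
    rw [hall j, hF.D0] at h4
    exact gcongr (gadd a (restr a hB h3) h4) fun h _ => by simp only [if_true]; ring

include hD hall h2 a in
/-- the class of the designated exponent -/
theorem clsB (x : ι × Bool) (hx0 : x ≠ (F.i0, false))
    (hx : x = (F.i0, true) ∨ newDB F x.1 x.2 < F.D F.i0 - 1) :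
    GPon (F.D F.i0 - 1 - 1) (B ^ 2) (piece A r pc π)
      (fun h => F.P F.i0 (h + r) - F.P x.1 (if x.2 then h + r else h)) := by
  have hB := one_le_B hF
  by_cases h : x = (F.i0, true)
  · subst h
    refine gcongr (gmono a hB (gconst a B (F.D F.i0 - 1 - 1) (piece A r pc π) 0) le_rfl
      (Nat.zero_le _) (Set.Subset.refl _)) fun h _ => ?_
    simp
  · have hlt : newDB F x.1 x.2 < F.D F.i0 - 1 := by
      rcases hx with h' | h'
      · exact absurd h' h
      · exact h'
    have h3 := diffB a F hF hD hall r pc π h2 x h hx0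
    have h4 : GPon (F.D F.i0 - 1 - 1) (B ^ 2) (piece A r pc π) _ :=
      gmono a hB h3 (by omega) le_rfl (Set.Subset.refl _)
    have h5 : GPon (F.D F.i0 - 1 - 1) (B ^ 0) (piece A r pc π)
        (fun h => newkB F r x.1 x.2 * h ^ newDB F x.1 x.2) :=
      gmono' a hB _ _ _ (by omega)
    exact gcongr (gadd a h4 h5) fun h _ => by ring

include a hD hall hr hk h1 h2 in
/-- the new family satisfies the conditions -/
theorem okB {D1 m : ℕ} (hD1 : F.D F.i0 ≤ D1) (hm : 4 ≤ m) :
    (newFB F r).Ok (K * (1 + D1 * r.natAbs)) (B ^ m) (piece A r pc π) := by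
  classical
  have hB := one_le_B hF
  have up : ∀ {j l : ℕ} {P : ℤ → ℤ}, l ≤ 4 → GPon j (B ^ l) (piece A r pc π) P →
      GPon j (B ^ m) (piece A r pc π) P := fun hl h =>
    gmono a hB h le_rfl (le_trans hl hm) (Set.Subset.refl _)
  have hi0 : (newFB F r).D (newFB F r).i0 = F.D F.i0 - 1 := by
    show newDB F F.i0 true = F.D F.i0 - 1
    simp [newDB]
  have hk0 : (newFB F r).k (newFB F r).i0 = F.k F.i0 * F.D F.i0 * r := by
    show newkB F r F.i0 true = _
    simp [newkB]
  have hdg : ∀ c, (newFB F r).dg c = F.D F.i0 - 1 := fun _ => rfl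
  have hP : ∀ x h, (newFB F r).P x h =
      F.P x.1.1 (if x.1.2 then h + r else h) - F.P F.i0 h := fun x h => rfl
  have e0 : (newFB F r).i0.1 = (F.i0, true) := rfl
  have hcl : ∀ x : {x // keepB F x}, newDB F x.1.1 x.1.2 < F.D F.i0 - 1 →
      (newFB F r).cl x = (newFB F r).i0 := fun x hx => if_pos hx
  have hcl' : ∀ x : {x // keepB F x}, ¬ newDB F x.1.1 x.1.2 < F.D F.i0 - 1 →
      (newFB F r).cl x = x := fun x hx => if_neg hx
  have hcl0 : (newFB F r).cl (newFB F r).i0 = (newFB F r).i0 := by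
    apply hcl'
    have : newDB F (newFB F r).i0.1.1 (newFB F r).i0.1.2 = F.D F.i0 - 1 := hi0
    rw [this]
    exact lt_irrefl _
  constructor
  · intro x
    rw [hdg]
    omega
  · intro x
    rw [hdg, hi0]
  · rw [hdg, hi0]
  · intro x
    rw [hdg]
    exact up (by norm_num) (gpB a F hF hall r pc π h1 x.1)
  · -- same
    intro x x' hxx
    rw [hdg]
    by_cases hxe : x = x'
    · subst hxe
      refine gcongr (up (by norm_num) (gconst a B (F.D F.i0 - 1 - 1) (piece A r pc π) 0))
          fun h _ => ?_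
      simp
    · have key : ∀ y y' : {x // keepB F x}, y ≠ y' → (newFB F r).cl y = (newFB F r).cl y' →
          y.1 = (F.i0, true) ∨ newDB F y.1.1 y.1.2 < F.D F.i0 - 1 := by
        intro y y' hy hyy
        by_contra hc
        rw [not_or] at hc
        rw [hcl' y hc.2] at hyy
        by_cases h3 : newDB F y'.1.1 y'.1.2 < F.D F.i0 - 1
        · rw [hcl y' h3] at hyy
          exact hc.1 (by rw [hyy, e0])
        · rw [hcl' y' h3] at hyy
          exact hy hyy
      have h3 := clsB a F hF hD hall r pc π h2 x.1 x.2 (key x x' hxe hxx)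
      have h4 := clsB a F hF hD hall r pc π h2 x'.1 x'.2 (key x' x (Ne.symm hxe) hxx.symm)
      refine gcongr (up (by norm_num) (gsub a h4 h3)) fun h _ => ?_
      rw [hP, hP]
      ring
  · -- lead
    rw [hi0, hk0]
    refine gcongr (up (by norm_num) h2) fun h _ => ?_
    rw [hP, e0]
    simp only [if_true]
  · intro x
    exact newDB_pos F hF hD x.1.1 x.1.2
  · intro x
    rw [hi0]
    exact newDB_le F hF hall x.1.1 x.1.2
  · intro x
    exact newkB_ne F hF hD r hr hk x.1.1 x.1.2 x.2
  · intro x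
    exact newkB_le F hF r hD1 x.1.1 x.1.2
  · -- diff
    intro x hx
    have hx' : x.1 ≠ (F.i0, true) := fun h => hx (Subtype.ext h)
    refine gcongr (up (by norm_num) (diffB a F hF hD hall r pc π h2 x.1 hx' x.2)) fun h _ => ?_
    rw [hP, hP, e0]
    show _ - newkB F r x.1.1 x.1.2 * h ^ newDB F x.1.1 x.1.2 = _
    simp
  · -- cls
    intro x hx
    rw [hi0, hcl0]
    show _ ↔ newDB F x.1.1 x.1.2 < F.D F.i0 - 1
    constructor
    · intro h
      by_contra hc
      rw [hcl' x hc] at h
      exact hx h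
    · intro h
      exact hcl x h

end

theorem main (a : Alg) : T_PETB := by
  classical
  intro Lc B D1
  refine ⟨B ^ (Lc + 4), ?_⟩
  intro ι κ _ _ F K A hF hLc hD1 hD hall r hr hk
  obtain ⟨n, pc, hn, hp⟩ := pieces a F hF hD r
  have hB := one_le_B hF
  refine ⟨n, pc, le_trans hn (Nat.pow_le_pow_right hB (by omega)), fun π => ?_⟩
  obtain ⟨h1, h2⟩ := hp π
  refine ⟨keepB F, _, inferInstance, newFB F r, rfl, ?_, fun x h => rfl, ?_,
    F.dg (F.cl F.i0), ?_, hF.dg_pos F.i0, ?_⟩
  · exact okB a F hF hD hall r hr hk pc π h1 h2 hD1 (by omega)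
  · intro x hx
    unfold keepB at hx
    rw [not_not] at hx
    refine ⟨0, fun h _ => ?_⟩
    rw [hx]
    simp
  · exact Multiset.mem_map_of_mem _ (Finset.mem_univ _)
  · have e1 : (newFB F r).dg = fun _ => F.dg (F.cl F.i0) - 1 := by
      rw [hF.D0]
      rfl
    rw [e1, Multiset.map_const']
    refine le_trans ?_ (Multiset.le_add_left _ _)
    rw [Multiset.replicate_le_replicate]
    have h3 : Fintype.card {x // keepB F x} ≤ Fintype.card (ι × Bool) :=
      Fintype.card_subtype_le _
    rw [Fintype.card_prod, Fintype.card_bool] at h3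
    have h4 : (Finset.univ : Finset {x // keepB F x}).val.card =
        Fintype.card {x // keepB F x} := rfl
    rw [h4]
    omega

end Pool.Agent.SqF.PETB

namespace Pool.Agent.SqF

/-- combinatorial van der Corput step, one class -/
theorem petb (hmono : T_GP_mono) (hshift : T_GP_shift) (hneg : T_GP_neg) (hadd : T_GP_add)
    (hpoly : T_GP_poly) (hdmono : T_GP_dmono) : T_PETB :=
  PETB.main ⟨hmono, hshift, hneg, hadd, hpoly, hdmono⟩

end Pool.Agent.SqF
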