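import Pool.Agent.SqF.Targets
import Pool.Agent.SqF.Basic

/-!
# MP_0b2319_an: projection to the rational Kronecker factor (T_RAT)
-/

set_option autoImplicit false
set_option linter.unusedSectionVars false

open MeasureTheory Filter Topology
open scoped ComplexConjugate

namespace Pool.Agent.SqF.RAT

variable {X : Type} [MeasurableSpace X] {μ : Measure X} [IsProbabilityMeasure μ]

lemma memLp {F : X → ℂ} (hF : B1 F) : MemLp F 2 μ :=
  MemLp.of_bound hF.meas.aestronglyMeasurable 1 (Eventually.of_forall hF.le)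

lemma inner_eq {F G : X → ℂ} {f g : Lp ℂ 2 μ} (hF : ∀ᵐ x ∂μ, F x = f x)
    (hG : ∀ᵐ x ∂μ, G x = g x) : ∫ x, F x * conj (G x) ∂μ = inner ℂ g f := by
  rw [MeasureTheory.L2.inner_def]
  refine integral_congr_ae ?_
  filter_upwards [hF, hG] with x h1 h2
  rw [h1, h2]
  simp

lemma Q_eq {F : X → ℂ} {f : Lp ℂ 2 μ} (hF : ∀ᵐ x ∂μ, F x = f x) : Q μ F = ‖f‖ ^ 2 := by
  have h := inner_eq hF hF
  rw [inner_self_eq_norm_sq_to_K] at h
  have h2 : ∫ x, F x * conj (F x) ∂μ = ((Q μ F : ℝ) : ℂ) := by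
    have h3 : ((Q μ F : ℝ) : ℂ) = ∫ x, (((‖F x‖ ^ 2 : ℝ)) : ℂ) ∂μ := integral_ofReal.symm
    rw [h3]
    refine integral_congr_ae (Eventually.of_forall fun x => ?_)
    simp only
    rw [Complex.mul_conj, Complex.normSq_eq_norm_sq]
  rw [h2] at h
  have h4 : ((Q μ F : ℝ) : ℂ) = ((‖f‖ ^ 2 : ℝ) : ℂ) := by rw [h]; simp
  exact Complex.ofReal_injective h4

/-- representative bounded by one -/
noncomputable def rep (f : Lp ℂ 2 μ) : X → ℂ := fun x => if ‖f x‖ ≤ 1 then f x else 0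

lemma rep_B1 (f : Lp ℂ 2 μ) : B1 (rep f) := by
  refine ⟨?_, fun x => ?_⟩
  · have hf : Measurable f := (Lp.stronglyMeasurable f).measurable
    exact Measurable.ite (measurableSet_le hf.norm measurable_const) hf measurable_const
  · unfold rep
    split_ifs with h
    · exact h
    · simp

lemma rep_ae {f : Lp ℂ 2 μ} (hf : ∀ᵐ x ∂μ, ‖f x‖ ≤ 1) : ∀ᵐ x ∂μ, rep f x = f x := by
  filter_upwards [hf] with x hx
  simp [rep, hx]

lemma bdd_of_tendsto {u : ℕ → Lp ℂ 2 μ} {g : Lp ℂ 2 μ} (hu : Tendsto u atTop (𝓝 g))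
    (hb : ∀ n, ∀ᵐ x ∂μ, ‖u n x‖ ≤ 1) : ∀ᵐ x ∂μ, ‖g x‖ ≤ 1 := by
  obtain ⟨ns, -, hns⟩ := (tendstoInMeasure_of_tendsto_Lp hu).exists_seq_tendsto_ae
  have hb' : ∀ᵐ x ∂μ, ∀ n, ‖u n x‖ ≤ 1 := ae_all_iff.2 hb
  filter_upwards [hns, hb'] with x h1 h2
  exact le_of_tendsto h1.norm (Eventually.of_forall fun n => h2 _)

/-- Koopman operator -/
noncomputable def U (S : Sys X μ) (n : ℤ) : Lp ℂ 2 μ →L[ℂ] Lp ℂ 2 μ :=
  (Lp.compMeasurePreservingₗᵢ ℂ (S.φ n) (S.mp n)).toContinuousLinearMap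

lemma U_ae (S : Sys X μ) (n : ℤ) (f : Lp ℂ 2 μ) : ∀ᵐ x ∂μ, U S n f x = f (S.φ n x) :=
  Lp.coeFn_compMeasurePreserving f (S.mp n)

lemma U_norm (S : Sys X μ) (n : ℤ) : ‖U S n‖ ≤ 1 :=
  LinearIsometry.norm_toContinuousLinearMap_le _

lemma U_add (S : Sys X μ) (a b : ℤ) (f : Lp ℂ 2 μ) : U S (a + b) f = U S b (U S a f) := by
  apply Lp.ext
  filter_upwards [U_ae S (a + b) f, U_ae S b (U S a f), S.ae_comp b (U_ae S a f)] with x h1 h2 h3
  rw [h1, h2, h3, S.add]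

lemma U_fix (S : Sys X μ) (a : ℤ) (f : Lp ℂ 2 μ) (h : U S a f = f) (k : ℕ) :
    U S (a * k) f = f := by
  induction k with
  | zero =>
    apply Lp.ext
    filter_upwards [U_ae S (a * (0 : ℕ)) f] with x h1
    rw [h1]
    simp [S.zero]
  | succ k ih =>
    have e : a * ((k + 1 : ℕ) : ℤ) = a * k + a := by push_cast; ring
    rw [e, U_add, ih, h]

/-- the invariant functions -/
noncomputable def K (S : Sys X μ) (l : ℕ) : Submodule ℂ (Lp ℂ 2 μ) :=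
  (U S (l.factorial : ℤ)).eqLocus (1 : Lp ℂ 2 μ →L[ℂ] Lp ℂ 2 μ)

lemma mem_K (S : Sys X μ) (l : ℕ) (f : Lp ℂ 2 μ) : f ∈ K S l ↔ U S (l.factorial : ℤ) f = f :=
  Iff.rfl

lemma mem_K_of_dvd (S : Sys X μ) {r : ℕ} {l : ℕ} (hr : r ∣ l.factorial) (f : Lp ℂ 2 μ)
    (h : U S (r : ℤ) f = f) : f ∈ K S l := by
  obtain ⟨k, hk⟩ := hr
  rw [mem_K, hk]
  push_cast
  exact U_fix S r f h k

lemma K_mono (S : Sys X μ) : Monotone (K S) := by
  intro l m hlm f hf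
  exact mem_K_of_dvd S (Nat.factorial_dvd_factorial hlm) f hf

instance (S : Sys X μ) (l : ℕ) : (K S l).HasOrthogonalProjection := by
  unfold K
  infer_instance

/-- orbit of a function -/
lemma iter_ae (S : Sys X μ) (n : ℤ) {F : X → ℂ} {f : Lp ℂ 2 μ} (hF : ∀ᵐ x ∂μ, F x = f x)
    (j : ℕ) : ∀ᵐ x ∂μ, F (S.φ (n * j) x) = ((U S n)^[j] f) x := by
  induction j with
  | zero =>
    filter_upwards [hF] with x h
    simp [S.zero, h]
  | succ j ih =>
    rw [Function.iterate_succ_apply']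
    filter_upwards [U_ae S n ((U S n)^[j] f), S.ae_comp n ih] with x h1 h2
    rw [h1, ← h2, ← S.add]
    congr 2
    push_cast
    ring

lemma birk_ae (S : Sys X μ) (n : ℤ) {F : X → ℂ} {f : Lp ℂ 2 μ} (hF : ∀ᵐ x ∂μ, F x = f x)
    (M : ℕ) : ∀ᵐ x ∂μ, (M : ℂ)⁻¹ * ∑ j ∈ Finset.range M, F (S.φ (n * j) x) =
      birkhoffAverage ℂ (U S n) _root_.id M f x := by
  have h1 : ∀ᵐ x ∂μ, ∀ j : ℕ, F (S.φ (n * j) x) = ((U S n)^[j] f) x :=
    ae_all_iff.2 (iter_ae S n hF)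
  unfold birkhoffAverage birkhoffSum
  filter_upwards [h1, Lp.coeFn_smul (M : ℂ)⁻¹ (∑ k ∈ Finset.range M, _root_.id ((U S n)^[k] f)),
    Lp.coeFn_finsetSum (Finset.range M) (fun k => _root_.id ((U S n)^[k] f))] with x h2 h3 h4
  rw [h3]
  simp only [Pi.smul_apply, smul_eq_mul]
  rw [h4]
  simp [h2]

lemma birk_bdd (S : Sys X μ) (n : ℤ) {F : X → ℂ} (hB : B1 F) {f : Lp ℂ 2 μ}
    (hF : ∀ᵐ x ∂μ, F x = f x) (M : ℕ) :
    ∀ᵐ x ∂μ, ‖birkhoffAverage ℂ (U S n) _root_.id M f x‖ ≤ 1 := by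
  filter_upwards [birk_ae S n hF M] with x hx
  rw [← hx, norm_mul, norm_inv, Complex.norm_natCast]
  have h1 : ‖∑ j ∈ Finset.range M, F (S.φ (n * j) x)‖ ≤ M := by
    refine (norm_sum_le _ _).trans ?_
    refine (Finset.sum_le_sum fun j _ => hB.le _).trans ?_
    simp
  rcases Nat.eq_zero_or_pos M with rfl | hM
  · simp
  · have hM' : (0 : ℝ) < M := by exact_mod_cast hM
    calc (M : ℝ)⁻¹ * ‖∑ j ∈ Finset.range M, F (S.φ (n * j) x)‖ ≤ (M : ℝ)⁻¹ * M := by gcongr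
      _ = 1 := inv_mul_cancel₀ hM'.ne'

end Pool.Agent.SqF.RAT

namespace Pool.Agent.SqF

open RAT in
theorem rat : T_RAT := by
  intro X _ μ _ S F hF
  set f : Lp ℂ 2 μ := (memLp hF).toLp F with hf
  have hFf : ∀ᵐ x ∂μ, F x = f x := (MemLp.coeFn_toLp (memLp hF)).symm
  set g : ℕ → Lp ℂ 2 μ := fun l => (K S l).starProjection f with hg
  set p : Lp ℂ 2 μ := (⨆ l, K S l).topologicalClosure.starProjection f with hp
  have hgl : ∀ l, Tendsto (fun M => birkhoffAverage ℂ (U S (l.factorial : ℤ)) _root_.id M f) atTop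
      (𝓝 (g l)) := fun l =>
    ContinuousLinearMap.tendsto_birkhoffAverage_orthogonalProjection _ (U_norm S _) f
  have hgp : Tendsto g atTop (𝓝 p) :=
    Submodule.starProjection_tendsto_closure_iSup (K S) (K_mono S) f
  have hgb : ∀ l, ∀ᵐ x ∂μ, ‖g l x‖ ≤ 1 := fun l =>
    bdd_of_tendsto (hgl l) (fun M => birk_bdd S _ hF hFf M)
  have hpb : ∀ᵐ x ∂μ, ‖p x‖ ≤ 1 := bdd_of_tendsto hgp hgb
  have hgK : ∀ l, g l ∈ K S l := fun l => Submodule.starProjection_apply_mem _ _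
  refine ⟨fun l => rep (g l), rep p, fun l => rep_B1 _, fun l => ?_, fun l => ?_, rep_B1 _, ?_, ?_⟩
  · have h1 := (mem_K S l (g l)).1 (hgK l)
    filter_upwards [rep_ae (hgb l), S.ae_comp (l.factorial : ℤ) (rep_ae (hgb l)),
      U_ae S (l.factorial : ℤ) (g l)] with x h2 h3 h4
    rw [h2, h3, ← h4, h1]
  · have h1 : ∀ M : ℕ, Q μ (fun x => (M : ℂ)⁻¹ *
      ∑ j ∈ Finset.range M, F (S.φ ((l.factorial : ℤ) * j) x) - rep (g l) x) =
        ‖birkhoffAverage ℂ (U S (l.factorial : ℤ)) _root_.id M f - g l‖ ^ 2 := by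
      intro M
      apply Q_eq
      filter_upwards [birk_ae S (l.factorial : ℤ) hFf M, rep_ae (hgb l),
        Lp.coeFn_sub (birkhoffAverage ℂ (U S (l.factorial : ℤ)) _root_.id M f) (g l)] with x h2 h3 h4
      rw [h4, h2, h3]
      rfl
    simp only [h1]
    have h2 := (tendsto_iff_norm_sub_tendsto_zero.1 (hgl l)).pow 2
    simpa using h2
  · have h1 : ∀ l : ℕ, Q μ (fun x => rep (g l) x - rep p x) = ‖g l - p‖ ^ 2 := by
      intro l
      apply Q_eq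
      filter_upwards [rep_ae (hgb l), rep_ae hpb, Lp.coeFn_sub (g l) p] with x h2 h3 h4
      rw [h4, h2, h3]
      rfl
    simp only [h1]
    have h2 := (tendsto_iff_norm_sub_tendsto_zero.1 hgp).pow 2
    simpa using h2
  · intro r hr G hG hGr
    set γ : Lp ℂ 2 μ := (memLp hG).toLp G with hγ
    have hGγ : ∀ᵐ x ∂μ, G x = γ x := (MemLp.coeFn_toLp (memLp hG)).symm
    have h1 : ∫ x, (F x - rep p x) * conj (G x) ∂μ = inner ℂ γ (f - p) := by
      apply inner_eq _ hGγ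
      filter_upwards [hFf, rep_ae hpb, Lp.coeFn_sub f p] with x h2 h3 h4
      rw [h4, h2, h3]
      rfl
    have h2 : U S (r : ℤ) γ = γ := by
      apply Lp.ext
      filter_upwards [U_ae S (r : ℤ) γ, hGγ, S.ae_comp (r : ℤ) hGγ, hGr] with x h3 h4 h5 h6
      rw [h3, ← h5, h6, h4]
    have h3 : γ ∈ (⨆ l, K S l).topologicalClosure := by
      apply Submodule.le_topologicalClosure
      exact (le_iSup (K S) r) (mem_K_of_dvd S (Nat.dvd_factorial hr le_rfl) γ h2)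
    rw [h1, hp]
    exact Submodule.inner_right_of_mem_orthogonal h3 (Submodule.sub_starProjection_mem_orthogonal f)

end Pool.Agent.SqF
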