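import Pool.Agent.SqF.Targets
import Pool.Agent.SqF.Basic

/-!
# MP_0b2319_an: basic facts on the seminorm powers `V`
-/

set_option autoImplicit false

open MeasureTheory Filter Topology
open scoped ComplexConjugate

namespace Pool.Agent.SqF

namespace SEM

variable {X : Type} [MeasurableSpace X] {μ : Measure X}

/-- the function `f o phi h * conj (f o phi h')` -/
lemma b1_pair (S : Sys X μ) {f : X → ℂ} (hf : B1 f) (h h' : ℤ) :
    B1 (fun x => f (S.φ h x) * conj (f (S.φ h' x))) :=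
  (hf.sh S h).mul' (hf.sh S h').conj'

/-- averages of numbers in an interval -/
lemma avg_mem {H : ℕ} {a : ℕ → ℕ → ℝ} {c : ℝ} (hc : 0 ≤ c) (ha : ∀ h h', |a h h'| ≤ c) :
    |((H : ℝ) ^ 2)⁻¹ * ∑ h ∈ Finset.range H, ∑ h' ∈ Finset.range H, a h h'| ≤ c := by
  rw [abs_mul, abs_of_nonneg (by positivity : (0 : ℝ) ≤ ((H : ℝ) ^ 2)⁻¹)]
  have h1 : |∑ h ∈ Finset.range H, ∑ h' ∈ Finset.range H, a h h'| ≤ (H : ℝ) ^ 2 * c := by
    calc |∑ h ∈ Finset.range H, ∑ h' ∈ Finset.range H, a h h'|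
        ≤ ∑ h ∈ Finset.range H, |∑ h' ∈ Finset.range H, a h h'| := Finset.abs_sum_le_sum_abs _ _
      _ ≤ ∑ h ∈ Finset.range H, ∑ h' ∈ Finset.range H, |a h h'| :=
          Finset.sum_le_sum fun h _ => Finset.abs_sum_le_sum_abs _ _
      _ ≤ ∑ h ∈ Finset.range H, ∑ h' ∈ Finset.range H, c :=
          Finset.sum_le_sum fun h _ => Finset.sum_le_sum fun h' _ => ha h h'
      _ = (H : ℝ) ^ 2 * c := by simp; ring
  rcases Nat.eq_zero_or_pos H with rfl | hH
  · simpa using hc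
  · have hH' : (0 : ℝ) < (H : ℝ) ^ 2 := by positivity
    calc ((H : ℝ) ^ 2)⁻¹ * |∑ h ∈ Finset.range H, ∑ h' ∈ Finset.range H, a h h'|
        ≤ ((H : ℝ) ^ 2)⁻¹ * ((H : ℝ) ^ 2 * c) := by gcongr
      _ = c := by field_simp

lemma avg_nonneg {H : ℕ} {a : ℕ → ℕ → ℝ} (ha : ∀ h h', 0 ≤ a h h') :
    0 ≤ ((H : ℝ) ^ 2)⁻¹ * ∑ h ∈ Finset.range H, ∑ h' ∈ Finset.range H, a h h' :=
  mul_nonneg (by positivity) (Finset.sum_nonneg fun h _ => Finset.sum_nonneg fun h' _ => ha h h')

lemma V_bd_aux [IsProbabilityMeasure μ] (S : Sys X μ) (s : ℕ) :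
    ∀ f : X → ℂ, B1 f → 0 ≤ V S s f ∧ V S s f ≤ 1 := by
  induction s with
  | zero =>
    intro f hf
    have h1 := hf.norm_integral_le (μ := μ)
    have h0 := norm_nonneg (∫ x, f x ∂μ)
    constructor
    · simp only [V]; positivity
    · simp only [V]; nlinarith
  | succ s ih =>
    intro f hf
    have hb : ∀ h h' : ℤ, 0 ≤ V S s (fun x => f (S.φ h x) * conj (f (S.φ h' x))) ∧
        V S s (fun x => f (S.φ h x) * conj (f (S.φ h' x))) ≤ 1 := fun h h' =>
      ih _ (b1_pair S hf h h')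
    have hab : ∀ H : ℕ, |((H : ℝ) ^ 2)⁻¹ * ∑ h ∈ Finset.range H, ∑ h' ∈ Finset.range H,
        V S s (fun x => f (S.φ h x) * conj (f (S.φ h' x)))| ≤ 1 := fun H =>
      avg_mem (a := fun h h' => V S s (fun x => f (S.φ h x) * conj (f (S.φ h' x)))) zero_le_one
        fun h h' => abs_le.mpr ⟨by linarith [(hb h h').1], (hb h h').2⟩
    have ht := tendsto_ulim (hyperfilter ℕ) hab
    constructor
    · exact ge_of_tendsto' ht fun H => avg_nonneg
        (a := fun h h' => V S s (fun x => f (S.φ h x) * conj (f (S.φ h' x)))) fun h h' => (hb h h').1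
    · exact le_of_tendsto' ht fun H => (abs_le.mp (hab H)).2

lemma abs_V_le [IsProbabilityMeasure μ] (S : Sys X μ) (s : ℕ) {f : X → ℂ} (hf : B1 f) :
    |V S s f| ≤ 1 := by
  obtain ⟨h0, h1⟩ := V_bd_aux S s f hf
  exact abs_le.mpr ⟨by linarith, h1⟩

lemma V_tendsto_aux [IsProbabilityMeasure μ] (S : Sys X μ) (s : ℕ) {f : X → ℂ} (hf : B1 f) :
    Tendsto (fun H : ℕ => ((H : ℝ) ^ 2)⁻¹ *
      ∑ h ∈ Finset.range H, ∑ h' ∈ Finset.range H,
        V S s (fun x => f (S.φ h x) * conj (f (S.φ h' x))))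
    (hyperfilter ℕ : Filter ℕ) (𝓝 (V S (s + 1) f)) := by
  refine tendsto_ulim (hyperfilter ℕ) (C := 1) fun H => ?_
  exact avg_mem (a := fun h h' => V S s (fun x => f (S.φ h x) * conj (f (S.φ h' x)))) zero_le_one
    fun h h' => abs_V_le S s (b1_pair S hf h h')

lemma V_shift_aux (S : Sys X μ) (s : ℕ) :
    ∀ (f : X → ℂ) (n : ℤ), V S s (fun x => f (S.φ n x)) = V S s f := by
  induction s with
  | zero =>
    intro f n
    simp only [V]
    rw [S.integral_comp n f]
  | succ s ih =>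
    intro f n
    simp only [V]
    congr 1
    funext H
    congr 1
    refine Finset.sum_congr rfl fun h _ => Finset.sum_congr rfl fun h' _ => ?_
    rw [← ih (fun x => f (S.φ h x) * conj (f (S.φ h' x))) n]
    congr 1
    funext x
    rw [S.comm n h, S.comm n h']

lemma V_conj_aux (S : Sys X μ) (s : ℕ) :
    ∀ (f : X → ℂ), V S s (fun x => conj (f x)) = V S s f := by
  induction s with
  | zero =>
    intro f
    simp only [V]
    rw [integral_conj, RCLike.norm_conj]
  | succ s ih =>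
    intro f
    simp only [V]
    congr 1
    funext H
    congr 1
    refine Finset.sum_congr rfl fun h _ => Finset.sum_congr rfl fun h' _ => ?_
    rw [← ih (fun x => f (S.φ h x) * conj (f (S.φ h' x)))]
    congr 1
    funext x
    rw [map_mul]

lemma V_lip_aux [IsProbabilityMeasure μ] (S : Sys X μ) (s : ℕ) :
    ∀ (f g : X → ℂ), B1 f → B1 g →
      |V S s f - V S s g| ≤ 2 ^ (s + 1) * ∫ x, ‖f x - g x‖ ∂μ := by
  induction s with
  | zero =>
    intro f g hf hg
    simp only [V]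
    have h1 := hf.norm_integral_le (μ := μ)
    have h2 := hg.norm_integral_le (μ := μ)
    have h3 : |‖∫ x, f x ∂μ‖ - ‖∫ x, g x ∂μ‖| ≤ ∫ x, ‖f x - g x‖ ∂μ := by
      refine (abs_norm_sub_norm_le _ _).trans ?_
      rw [← integral_sub hf.integrable hg.integrable]
      exact norm_integral_le_integral_norm _
    have h4 : ‖∫ x, f x ∂μ‖ ^ 2 - ‖∫ x, g x ∂μ‖ ^ 2 =
        (‖∫ x, f x ∂μ‖ + ‖∫ x, g x ∂μ‖) * (‖∫ x, f x ∂μ‖ - ‖∫ x, g x ∂μ‖) := by ring
    rw [h4, abs_mul]
    have h5 : |‖∫ x, f x ∂μ‖ + ‖∫ x, g x ∂μ‖| ≤ 2 := by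
      rw [abs_of_nonneg (by positivity)]; linarith
    calc _ ≤ 2 * ∫ x, ‖f x - g x‖ ∂μ := by gcongr
      _ = _ := by ring
  | succ s ih =>
    intro f g hf hg
    have hint : Integrable (fun x => ‖f x - g x‖) μ := (hf.integrable.sub hg.integrable).norm
    have key : ∀ h h' : ℤ, |V S s (fun x => f (S.φ h x) * conj (f (S.φ h' x))) -
        V S s (fun x => g (S.φ h x) * conj (g (S.φ h' x)))| ≤
        2 ^ (s + 1 + 1) * ∫ x, ‖f x - g x‖ ∂μ := by
      intro h h'
      refine (ih _ _ (b1_pair S hf h h') (b1_pair S hg h h')).trans ?_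
      have hi1 : Integrable (fun x => ‖f (S.φ h x) - g (S.φ h x)‖) μ :=
        ((hf.sh S h).integrable.sub (hg.sh S h).integrable).norm
      have hi2 : Integrable (fun x => ‖f (S.φ h' x) - g (S.φ h' x)‖) μ :=
        ((hf.sh S h').integrable.sub (hg.sh S h').integrable).norm
      have h1 : ∫ x, ‖f (S.φ h x) * conj (f (S.φ h' x)) - g (S.φ h x) * conj (g (S.φ h' x))‖ ∂μ ≤
          ∫ x, (‖f (S.φ h x) - g (S.φ h x)‖ + ‖f (S.φ h' x) - g (S.φ h' x)‖) ∂μ := by
        refine integral_mono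
          (((b1_pair S hf h h').integrable.sub (b1_pair S hg h h').integrable).norm)
          (hi1.add hi2) fun x => ?_
        have e1 : f (S.φ h x) * conj (f (S.φ h' x)) - g (S.φ h x) * conj (g (S.φ h' x)) =
            (f (S.φ h x) - g (S.φ h x)) * conj (f (S.φ h' x)) +
              g (S.φ h x) * conj (f (S.φ h' x) - g (S.φ h' x)) := by
          rw [map_sub]; ring
        show ‖f (S.φ h x) * conj (f (S.φ h' x)) - g (S.φ h x) * conj (g (S.φ h' x))‖ ≤
          ‖f (S.φ h x) - g (S.φ h x)‖ + ‖f (S.φ h' x) - g (S.φ h' x)‖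
        rw [e1]
        refine (norm_add_le _ _).trans (add_le_add ?_ ?_)
        · rw [norm_mul]
          exact mul_le_of_le_one_right (norm_nonneg _) (by rw [RCLike.norm_conj]; exact hf.le _)
        · rw [norm_mul, RCLike.norm_conj]
          exact mul_le_of_le_one_left (norm_nonneg _) (hg.le _)
      have h2 : ∫ x, (‖f (S.φ h x) - g (S.φ h x)‖ + ‖f (S.φ h' x) - g (S.φ h' x)‖) ∂μ =
          2 * ∫ x, ‖f x - g x‖ ∂μ := by
        rw [integral_add hi1 hi2, S.integral_comp h (fun x => ‖f x - g x‖),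
          S.integral_comp h' (fun x => ‖f x - g x‖)]
        ring
      calc (2 : ℝ) ^ (s + 1) * _ ≤ 2 ^ (s + 1) * (2 * ∫ x, ‖f x - g x‖ ∂μ) := by
            rw [← h2]; gcongr
        _ = _ := by ring
    have ht := (V_tendsto_aux S s hf).sub (V_tendsto_aux S s hg)
    refine le_of_tendsto' ht.abs fun H => ?_
    rw [← mul_sub, ← Finset.sum_sub_distrib]
    have : ∀ h ∈ Finset.range H, (∑ h' ∈ Finset.range H,
          V S s (fun x => f (S.φ h x) * conj (f (S.φ h' x)))) -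
        (∑ h' ∈ Finset.range H, V S s (fun x => g (S.φ h x) * conj (g (S.φ h' x)))) =
        ∑ h' ∈ Finset.range H, (V S s (fun x => f (S.φ h x) * conj (f (S.φ h' x))) -
          V S s (fun x => g (S.φ h x) * conj (g (S.φ h' x)))) := fun h _ => by
      rw [Finset.sum_sub_distrib]
    rw [Finset.sum_congr rfl this]
    exact avg_mem (a := fun h h' => V S s (fun x => f (S.φ h x) * conj (f (S.φ h' x))) -
          V S s (fun x => g (S.φ h x) * conj (g (S.φ h' x))))
      (mul_nonneg (by positivity) (integral_nonneg fun x => norm_nonneg _))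
      fun h h' => key h h'

/-- positive multiples -/
lemma lin_pos {a : ℤ → ℤ → ℝ} (ha : ∀ h h', 0 ≤ a h h') {M H l : ℕ} (hl : 0 < l)
    (hM : l * M ≤ H) :
    ∑ m ∈ Finset.range M, ∑ m' ∈ Finset.range M, a (l * m) (l * m') ≤
      ∑ h ∈ Finset.range H, ∑ h' ∈ Finset.range H, a h h' := by
  classical
  have hinj : Function.Injective (fun p : ℕ × ℕ => (l * p.1, l * p.2)) := by
    rintro ⟨p, q⟩ ⟨p', q'⟩ h
    simp only [Prod.mk.injEq] at h
    rw [Nat.mul_right_inj hl.ne', Nat.mul_right_inj hl.ne'] at h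
    exact Prod.ext h.1 h.2
  rw [← Finset.sum_product', ← Finset.sum_product']
  have h1 : ∑ p ∈ Finset.range M ×ˢ Finset.range M, a (l * (p.1 : ℕ)) (l * (p.2 : ℕ)) =
      ∑ p ∈ (Finset.range M ×ˢ Finset.range M).image (fun p : ℕ × ℕ => (l * p.1, l * p.2)),
        a (p.1 : ℕ) (p.2 : ℕ) := by
    rw [Finset.sum_image fun p _ q _ h => hinj h]
    refine Finset.sum_congr rfl fun p _ => ?_
    push_cast
    rfl
  rw [h1]
  refine Finset.sum_le_sum_of_subset_of_nonneg ?_ fun p _ _ => ha _ _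
  intro p hp
  simp only [Finset.mem_image, Finset.mem_product, Finset.mem_range] at hp ⊢
  obtain ⟨q, ⟨hq1, hq2⟩, rfl⟩ := hp
  exact ⟨lt_of_lt_of_le (Nat.mul_lt_mul_of_pos_left hq1 hl) hM,
    lt_of_lt_of_le (Nat.mul_lt_mul_of_pos_left hq2 hl) hM⟩

end SEM

open SEM

theorem v_bd : T_V_bd := by
  intro X _ μ _ S s f hf
  exact V_bd_aux S s f hf

theorem v_tendsto : T_V_tendsto := by
  intro X _ μ _ S s f hf
  exact V_tendsto_aux S s hf

theorem v_shift : T_V_shift := by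
  intro X _ μ _ S s f _ n
  exact V_shift_aux S s f n

theorem v_conj : T_V_conj := by
  intro X _ μ _ S s f _
  exact V_conj_aux S s f

theorem v_lip : T_V_lip := by
  intro X _ μ _ S s f g hf hg
  exact V_lip_aux S s f g hf hg

theorem v_lin : T_V_lin := by
  intro X _ μ _ S s K u hu η hη M₀
  rcases Nat.eq_zero_or_pos K with rfl | hK
  · refine ⟨M₀ + 1, by omega, by omega, fun l hl hlK => ?_⟩
    exfalso
    have : |l| = 0 := le_antisymm (by simpa using hlK) (abs_nonneg l)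
    exact hl (abs_eq_zero.mp this)
  set a : ℤ → ℤ → ℝ := fun h h' => V S s (fun x => u (S.φ h x) * conj (u (S.φ h' x))) with ha
  have ha0 : ∀ h h', 0 ≤ a h h' := fun h h' => (V_bd_aux S s _ (b1_pair S hu h h')).1
  have hev : ∀ᶠ H : ℕ in (hyperfilter ℕ : Filter ℕ), ((H : ℝ) ^ 2)⁻¹ *
      ∑ h ∈ Finset.range H, ∑ h' ∈ Finset.range H, a h h' < V S (s + 1) u + η :=
    (V_tendsto_aux S s hu).eventually_lt_const (by linarith)
  obtain ⟨H, hH1, hH2⟩ := (hev.and (hyperfilter_eventually_ge (2 * K * (M₀ + 1)))).exists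
  have hMle : 2 * (M₀ + 1) ≤ H / K := by
    rw [Nat.le_div_iff_mul_le hK]
    nlinarith
  refine ⟨H / K, by omega, by omega, fun l hl hlK => ?_⟩
  set M := H / K with hM
  have hMpos : 0 < M := by omega
  have hHlt : H < K * (M + 1) := by
    have := Nat.lt_div_mul_add hK (a := H)
    rw [← hM] at this
    nlinarith
  have hHle : (H : ℝ) ≤ 2 * K * M := by
    have h1 : H ≤ 2 * K * M := by nlinarith
    exact_mod_cast h1
  have hHpos : 0 < H := by
    rcases Nat.eq_zero_or_pos H with h | h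
    · rw [h] at hM; simp at hM; omega
    · exact h
  -- the sum over the multiples is at most the full sum
  have hsum : ∑ m ∈ Finset.range M, ∑ m' ∈ Finset.range M, a (l * m) (l * m') ≤
      ∑ h ∈ Finset.range H, ∑ h' ∈ Finset.range H, a h h' := by
    have hlnat : ∀ k : ℕ, 0 < k → k ≤ K → k * M ≤ H := by
      intro k _ hk
      calc k * M ≤ K * M := Nat.mul_le_mul_right _ hk
        _ ≤ H := by rw [hM]; exact Nat.mul_div_le H K
    obtain ⟨k, rfl | rfl⟩ := l.eq_nat_or_neg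
    · have hk0 : 0 < k := by
        rcases Nat.eq_zero_or_pos k with h | h
        · rw [h] at hl; simp at hl
        · exact h
      have hkK : k ≤ K := by
        rw [Nat.abs_cast] at hlK; exact_mod_cast hlK
      exact lin_pos ha0 hk0 (hlnat k hk0 hkK)
    · have hk0 : 0 < k := by
        rcases Nat.eq_zero_or_pos k with h | h
        · rw [h] at hl; simp at hl
        · exact h
      have hkK : k ≤ K := by
        rw [abs_neg, Nat.abs_cast] at hlK; exact_mod_cast hlK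
      refine le_trans (le_of_eq ?_) (lin_pos ha0 hk0 (hlnat k hk0 hkK))
      rw [← Finset.sum_range_reflect (fun m => ∑ m' ∈ Finset.range M, a ((k : ℤ) * (m : ℕ)) (k * (m' : ℕ))) M]
      refine Finset.sum_congr rfl fun m hm => ?_
      rw [← Finset.sum_range_reflect (fun m' => a ((k : ℤ) * ((M - 1 - m : ℕ) : ℤ)) (k * (m' : ℕ))) M]
      refine Finset.sum_congr rfl fun m' hm' => ?_
      rw [Finset.mem_range] at hm hm'
      simp only [ha]
      rw [← V_shift_aux S s (fun x => u (S.φ (-(k : ℤ) * (m : ℤ)) x) *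
        conj (u (S.φ (-(k : ℤ) * (m' : ℤ)) x))) ((k : ℤ) * ((M : ℤ) - 1))]
      congr 1
      funext x
      rw [← S.add, ← S.add]
      have e1 : -(k : ℤ) * (m : ℤ) + (k : ℤ) * ((M : ℤ) - 1) = (k : ℤ) * ((M - 1 - m : ℕ) : ℤ) := by
        rw [Nat.cast_sub (by omega), Nat.cast_sub (by omega)]; push_cast; ring
      have e2 : -(k : ℤ) * (m' : ℤ) + (k : ℤ) * ((M : ℤ) - 1) = (k : ℤ) * ((M - 1 - m' : ℕ) : ℤ) := by
        rw [Nat.cast_sub (by omega), Nat.cast_sub (by omega)]; push_cast; ring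
      rw [e1, e2]
  have hfull : ∑ h ∈ Finset.range H, ∑ h' ∈ Finset.range H, a h h' ≤
      (H : ℝ) ^ 2 * (V S (s + 1) u + η) := by
    have hH' : (0 : ℝ) < (H : ℝ) ^ 2 := by positivity
    have := mul_le_mul_of_nonneg_left hH1.le hH'.le
    rwa [← mul_assoc, mul_inv_cancel₀ hH'.ne', one_mul] at this
  have hV : 0 ≤ V S (s + 1) u + η := by linarith [(V_bd_aux S (s + 1) u hu).1]
  have hM' : (0 : ℝ) < (M : ℝ) ^ 2 := by positivity
  calc ((M : ℝ) ^ 2)⁻¹ * ∑ m ∈ Finset.range M, ∑ m' ∈ Finset.range M, a (l * m) (l * m')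
      ≤ ((M : ℝ) ^ 2)⁻¹ * ((H : ℝ) ^ 2 * (V S (s + 1) u + η)) := by
        gcongr; exact hsum.trans hfull
    _ ≤ ((M : ℝ) ^ 2)⁻¹ * ((2 * K * M) ^ 2 * (V S (s + 1) u + η)) := by gcongr
    _ = 4 * (K : ℝ) ^ 2 * (V S (s + 1) u + η) := by field_simp; ring

end Pool.Agent.SqF
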