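import Pool.Agent.SqF.Targets

/-!
# Taylor expansion of powers in windows
-/

set_option autoImplicit false

open MeasureTheory Filter Topology
open scoped ComplexConjugate

namespace Pool.Agent.SqF

namespace TAY

lemma bin_zero (c : ℝ) : bin c 0 = 1 := by simp [bin]

lemma bin_succ (c : ℝ) (j : ℕ) : ((j : ℝ) + 1) * bin c (j + 1) = c * bin (c - 1) j := by
  unfold bin
  rw [Finset.prod_range_succ', Nat.factorial_succ]
  have h1 : ∏ k ∈ Finset.range j, (c - ((k + 1 : ℕ) : ℝ)) = ∏ k ∈ Finset.range j, (c - 1 - (k : ℝ)) := by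
    refine Finset.prod_congr rfl fun k _ => ?_
    push_cast; ring
  rw [h1]
  have h2 : ((j.factorial : ℕ) : ℝ) ≠ 0 := by exact_mod_cast Nat.factorial_ne_zero j
  have h3 : ((j : ℝ) + 1) ≠ 0 := by positivity
  push_cast
  field_simp
  ring

lemma taylor (D : ℕ) : ∀ c : ℝ, ∃ C : ℝ, 0 ≤ C ∧ ∀ x ∈ Set.Icc (0 : ℝ) 1,
    |(1 + x) ^ c - ∑ j ∈ Finset.range (D + 1), bin c j * x ^ j| ≤ C * x ^ (D + 1) := by
  induction D with
  | zero =>
    intro c
    refine ⟨|c| * 2 ^ |c - 1|, by positivity, fun x hx => ?_⟩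
    have hder : ∀ t ∈ Set.Icc (0 : ℝ) x, HasDerivWithinAt (fun t : ℝ => (1 + t) ^ c)
        (c * (1 + t) ^ (c - 1)) (Set.Icc 0 x) t := by
      intro t ht
      have h1 : HasDerivAt (fun t : ℝ => 1 + t) 1 t := (hasDerivAt_id t).const_add 1
      have h2 := h1.rpow_const (p := c) (Or.inl (by have := ht.1; positivity))
      simp only [one_mul] at h2
      exact h2.hasDerivWithinAt
    have hb : ∀ t ∈ Set.Icc (0 : ℝ) x, ‖c * (1 + t) ^ (c - 1)‖ ≤ |c| * 2 ^ |c - 1| := by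
      intro t ht
      have h0 : (0 : ℝ) < 1 + t := by have := ht.1; positivity
      rw [norm_mul, Real.norm_eq_abs, Real.norm_eq_abs, abs_of_pos (Real.rpow_pos_of_pos h0 _)]
      refine mul_le_mul_of_nonneg_left ?_ (abs_nonneg _)
      calc (1 + t) ^ (c - 1) ≤ (1 + t) ^ |c - 1| :=
            Real.rpow_le_rpow_of_exponent_le (by linarith [ht.1]) (le_abs_self _)
        _ ≤ 2 ^ |c - 1| := Real.rpow_le_rpow h0.le (by linarith [ht.2, hx.2]) (abs_nonneg _)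
    have h3 := (convex_Icc (0 : ℝ) x).norm_image_sub_le_of_norm_hasDerivWithin_le hder hb
      (Set.left_mem_Icc.2 hx.1) (Set.right_mem_Icc.2 hx.1)
    simp only [add_zero, Real.one_rpow, sub_zero] at h3
    rw [Real.norm_eq_abs, Real.norm_eq_abs, abs_of_nonneg hx.1] at h3
    simpa [bin_zero] using h3
  | succ D ih =>
    intro c
    obtain ⟨C, hC, h⟩ := ih (c - 1)
    refine ⟨|c| * C, by positivity, fun x hx => ?_⟩
    set f : ℝ → ℝ := fun t => (1 + t) ^ c - ∑ j ∈ Finset.range (D + 1 + 1), bin c j * t ^ j with hf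
    set f' : ℝ → ℝ := fun t => c * ((1 + t) ^ (c - 1) -
      ∑ j ∈ Finset.range (D + 1), bin (c - 1) j * t ^ j) with hf'
    have hder : ∀ t ∈ Set.Icc (0 : ℝ) x, HasDerivWithinAt f (f' t) (Set.Icc 0 x) t := by
      intro t ht
      have h1 : HasDerivAt (fun t : ℝ => 1 + t) 1 t := (hasDerivAt_id t).const_add 1
      have h2 := h1.rpow_const (p := c) (Or.inl (by have := ht.1; positivity))
      simp only [one_mul] at h2
      have h3 : HasDerivAt (fun t : ℝ => ∑ j ∈ Finset.range (D + 1 + 1), bin c j * t ^ j)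
          (∑ j ∈ Finset.range (D + 1 + 1), bin c j * ((j : ℝ) * t ^ (j - 1))) t := by
        refine HasDerivAt.fun_sum fun j _ => ?_
        exact (hasDerivAt_pow j t).const_mul (bin c j)
      have h4 : f' t = c * (1 + t) ^ (c - 1) -
          ∑ j ∈ Finset.range (D + 1 + 1), bin c j * ((j : ℝ) * t ^ (j - 1)) := by
        rw [hf', Finset.sum_range_succ']
        simp only [Nat.cast_zero, zero_mul, mul_zero, add_zero, Nat.add_sub_cancel]
        rw [mul_sub, Finset.mul_sum]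
        congr 1
        refine Finset.sum_congr rfl fun j _ => ?_
        have := bin_succ c j
        push_cast
        calc c * (bin (c - 1) j * t ^ j) = (c * bin (c - 1) j) * t ^ j := by ring
          _ = (((j : ℝ) + 1) * bin c (j + 1)) * t ^ j := by rw [this]
          _ = bin c (j + 1) * (((j : ℝ) + 1) * t ^ j) := by ring
      rw [h4]
      exact (h2.sub h3).hasDerivWithinAt
    have hb : ∀ t ∈ Set.Icc (0 : ℝ) x, ‖f' t‖ ≤ |c| * (C * x ^ (D + 1)) := by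
      intro t ht
      rw [hf', Real.norm_eq_abs, abs_mul]
      refine mul_le_mul_of_nonneg_left ((h t ⟨ht.1, ht.2.trans hx.2⟩).trans ?_) (abs_nonneg _)
      exact mul_le_mul_of_nonneg_left (pow_le_pow_left₀ ht.1 ht.2 _) hC
    have h3 := (convex_Icc (0 : ℝ) x).norm_image_sub_le_of_norm_hasDerivWithin_le hder hb
      (Set.left_mem_Icc.2 hx.1) (Set.right_mem_Icc.2 hx.1)
    have hf0 : f 0 = 0 := by
      simp only [hf]
      rw [Finset.sum_range_succ']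
      simp [bin_zero]
    rw [hf0, sub_zero, sub_zero, Real.norm_eq_abs, Real.norm_eq_abs, abs_of_nonneg hx.1] at h3
    calc |f x| ≤ |c| * (C * x ^ (D + 1)) * x := h3
      _ = |c| * C * x ^ (D + 1 + 1) := by ring

/-! ### Windows -/

lemma L_le (N : ℕ) (hN : 1 ≤ N) : L N ≤ N + 1 := by
  have h1 : (1 : ℝ) ≤ Real.log ((N : ℝ) + 2) := by
    rw [Real.le_log_iff_exp_le (by positivity)]
    have : (1 : ℝ) ≤ N := by exact_mod_cast hN
    linarith [Real.exp_one_lt_d9]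
  have h2 : (N : ℝ) / Real.log ((N : ℝ) + 2) ≤ N := div_le_self (Nat.cast_nonneg _) h1
  have h3 : ⌊(N : ℝ) / Real.log ((N : ℝ) + 2)⌋₊ ≤ N := by
    have := Nat.floor_le_floor h2
    rwa [Nat.floor_natCast] at this
  unfold L
  omega

lemma mem_W {N n : ℕ} (h : n ∈ W N) : N ≤ n ∧ n < N + L N := by
  unfold W at h
  exact Finset.mem_Ico.1 h

lemma L_div : Tendsto (fun N : ℕ => (L N : ℝ) / N) atTop (𝓝 0) := by
  have h1 : Tendsto (fun N : ℕ => (Real.log ((N : ℝ) + 2))⁻¹ + (N : ℝ)⁻¹) atTop (𝓝 (0 + 0)) := by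
    refine Tendsto.add ?_ tendsto_inv_atTop_nhds_zero_nat
    refine Tendsto.inv_tendsto_atTop (Real.tendsto_log_atTop.comp ?_)
    exact tendsto_atTop_add_const_right _ _ tendsto_natCast_atTop_atTop
  rw [add_zero] at h1
  refine squeeze_zero' (Eventually.of_forall fun N => by positivity) ?_ h1
  filter_upwards [eventually_ge_atTop 1] with N hN
  have hN' : (0 : ℝ) < N := by exact_mod_cast hN
  have hlog : 0 < Real.log ((N : ℝ) + 2) := Real.log_pos (by linarith)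
  have h2 : (L N : ℝ) ≤ (N : ℝ) / Real.log ((N : ℝ) + 2) + 1 := by
    unfold L
    push_cast
    linarith [Nat.floor_le (show (0 : ℝ) ≤ (N : ℝ) / Real.log ((N : ℝ) + 2) by positivity)]
  calc (L N : ℝ) / N ≤ ((N : ℝ) / Real.log ((N : ℝ) + 2) + 1) / N := by gcongr
    _ = (Real.log ((N : ℝ) + 2))⁻¹ + (N : ℝ)⁻¹ := by field_simp

lemma rpow_neg_tendsto {a : ℝ} (ha : a < 0) : Tendsto (fun N : ℕ => (N : ℝ) ^ a) atTop (𝓝 0) := by
  have h1 := tendsto_rpow_neg_atTop (y := -a) (by linarith)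
  rw [neg_neg] at h1
  exact h1.comp tendsto_natCast_atTop_atTop

/-- size of `n^c (R y / n)^k` in the window -/
lemma size {σ ρ c : ℝ} (hρ : 0 < ρ) (hc : 0 < c) (k : ℕ) (y : ℝ)
    (hy : 0 ≤ y) {N n : ℕ} (hN : 1 ≤ N) (hn : n ∈ W N) :
    (n : ℝ) ^ c * (((⌊ρ * (N : ℝ) ^ σ⌋₊ : ℕ) : ℝ) * y / n) ^ k ≤
      3 ^ c * (ρ * y) ^ k * (N : ℝ) ^ (c - k * (1 - σ)) := by
  obtain ⟨h1, h2⟩ := mem_W hn
  have hN' : (0 : ℝ) < N := by exact_mod_cast hN
  have hn' : (N : ℝ) ≤ n := by exact_mod_cast h1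
  have hn0 : (0 : ℝ) < n := lt_of_lt_of_le hN' hn'
  have h3 : (n : ℝ) ≤ 3 * N := by
    have := L_le N hN
    have h4 : n ≤ 3 * N := by omega
    exact_mod_cast h4
  have h5 : (n : ℝ) ^ c ≤ 3 ^ c * (N : ℝ) ^ c := by
    rw [← Real.mul_rpow (by norm_num) hN'.le]
    exact Real.rpow_le_rpow hn0.le h3 hc.le
  have hR : ((⌊ρ * (N : ℝ) ^ σ⌋₊ : ℕ) : ℝ) ≤ ρ * (N : ℝ) ^ σ :=
    Nat.floor_le (by positivity)
  have h6 : ((⌊ρ * (N : ℝ) ^ σ⌋₊ : ℕ) : ℝ) * y / n ≤ ρ * y * (N : ℝ) ^ (σ - 1) := by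
    rw [Real.rpow_sub hN', Real.rpow_one]
    calc ((⌊ρ * (N : ℝ) ^ σ⌋₊ : ℕ) : ℝ) * y / n ≤ (ρ * (N : ℝ) ^ σ) * y / N := by gcongr
      _ = ρ * y * ((N : ℝ) ^ σ / N) := by ring
  have h7 : (((⌊ρ * (N : ℝ) ^ σ⌋₊ : ℕ) : ℝ) * y / n) ^ k ≤ (ρ * y * (N : ℝ) ^ (σ - 1)) ^ k :=
    pow_le_pow_left₀ (by positivity) h6 k
  calc (n : ℝ) ^ c * (((⌊ρ * (N : ℝ) ^ σ⌋₊ : ℕ) : ℝ) * y / n) ^ k
      ≤ (3 ^ c * (N : ℝ) ^ c) * (ρ * y * (N : ℝ) ^ (σ - 1)) ^ k := by gcongr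
    _ = 3 ^ c * (ρ * y) ^ k * (N : ℝ) ^ (c - k * (1 - σ)) := by
        rw [mul_pow, ← Real.rpow_natCast ((N : ℝ) ^ (σ - 1)) k, ← Real.rpow_mul hN'.le]
        have : c - k * (1 - σ) = c + (σ - 1) * k := by ring
        rw [this, Real.rpow_add hN']
        ring

lemma floor_div {σ ρ : ℝ} (hσ0 : 0 < σ) :
    Tendsto (fun N : ℕ => (ρ * (N : ℝ) ^ σ - 1) / ((N : ℝ) + L N) ^ σ) atTop (𝓝 ρ) := by
  have h1 : Tendsto (fun N : ℕ => (ρ - (N : ℝ) ^ (-σ)) / (1 + (L N : ℝ) / N) ^ σ) atTop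
      (𝓝 ((ρ - 0) / (1 + 0) ^ σ)) := by
    refine Tendsto.div (tendsto_const_nhds.sub (rpow_neg_tendsto (by linarith)))
      ((tendsto_const_nhds.add L_div).rpow_const (Or.inl (by norm_num))) (by simp)
  have h2 : (ρ - 0) / (1 + (0 : ℝ)) ^ σ = ρ := by simp
  rw [h2] at h1
  refine h1.congr' ?_
  filter_upwards [eventually_ge_atTop 1] with N hN
  have hN' : (0 : ℝ) < N := by exact_mod_cast hN
  have h3 : (N : ℝ) + L N = N * (1 + (L N : ℝ) / N) := by field_simp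
  have h4 : (0 : ℝ) ≤ 1 + (L N : ℝ) / N := by positivity
  have h5 : (N : ℝ) ^ σ ≠ 0 := (Real.rpow_pos_of_pos hN' _).ne'
  rw [h3, Real.mul_rpow hN'.le h4, Real.rpow_neg hN'.le]
  field_simp

end TAY

open TAY in
theorem tay : T_TAY := by
  intro σ ρ hσ0 hσ1 hρ c hc D hcD
  set R : ℕ → ℕ := fun N => ⌊ρ * (N : ℝ) ^ σ⌋₊ with hR
  open Classical in
  refine ⟨fun N n j => if j = D ∧ c < D * (1 - σ) then 0 else
    bin c j * ((n : ℝ) ^ c * (((R N : ℕ) : ℝ) / n) ^ j), ?_, ?_, ?_⟩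
  · -- PA
    intro y ε hε
    obtain ⟨C, hC, htay⟩ := taylor D c
    have hy0 : (0 : ℝ) ≤ y := Nat.cast_nonneg y
    -- the three limits
    have l1 : Tendsto (fun N : ℕ => C * (3 ^ c * (ρ * y) ^ (D + 1) *
        (N : ℝ) ^ (c - ((D + 1 : ℕ) : ℝ) * (1 - σ)))) atTop (𝓝 0) := by
      have := ((rpow_neg_tendsto (a := c - ((D + 1 : ℕ) : ℝ) * (1 - σ))
        (by push_cast; linarith)).const_mul (3 ^ c * (ρ * y) ^ (D + 1))).const_mul C
      simpa using this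
    have l2 : Tendsto (fun N : ℕ => (N : ℝ) ^ (σ - 1) * (ρ * y)) atTop (𝓝 0) := by
      have := (rpow_neg_tendsto (a := σ - 1) (by linarith)).mul_const (ρ * y)
      simpa using this
    have l3 : ∀ᶠ N : ℕ in atTop, c < D * (1 - σ) → |bin c D| * (3 ^ c * (ρ * y) ^ D *
        (N : ℝ) ^ (c - (D : ℝ) * (1 - σ))) < ε / 2 := by
      by_cases h : c < D * (1 - σ)
      · have := ((rpow_neg_tendsto (a := c - (D : ℝ) * (1 - σ))
          (by linarith)).const_mul (3 ^ c * (ρ * y) ^ D)).const_mul |bin c D|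
        rw [mul_zero, mul_zero] at this
        filter_upwards [this.eventually_lt_const (half_pos hε)] with N hN _
        exact hN
      · exact Eventually.of_forall fun N h' => absurd h' h
    filter_upwards [eventually_ge_atTop 1, l1.eventually_lt_const (half_pos hε),
      l2.eventually_lt_const zero_lt_one, l3] with N hN h1 h2 h3 n hn
    obtain ⟨hn1, hn2⟩ := mem_W hn
    have hN' : (0 : ℝ) < N := by exact_mod_cast hN
    have hn' : (N : ℝ) ≤ n := by exact_mod_cast hn1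
    have hn0 : (0 : ℝ) < n := lt_of_lt_of_le hN' hn'
    set x : ℝ := ((R N : ℕ) : ℝ) * y / n with hx
    have hx0 : 0 ≤ x := by positivity
    have hx1 : x ≤ 1 := by
      have hRN : ((R N : ℕ) : ℝ) ≤ ρ * (N : ℝ) ^ σ := Nat.floor_le (by positivity)
      have h6 : x ≤ (N : ℝ) ^ (σ - 1) * (ρ * y) := by
        rw [Real.rpow_sub hN', Real.rpow_one, hx]
        calc ((R N : ℕ) : ℝ) * y / n ≤ (ρ * (N : ℝ) ^ σ) * y / N := by gcongr
          _ = (N : ℝ) ^ σ / N * (ρ * y) := by ring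
      linarith
    have h7 := htay x ⟨hx0, hx1⟩
    have hpow : (((n + R N * y : ℕ) : ℕ) : ℝ) ^ c = (n : ℝ) ^ c * (1 + x) ^ c := by
      rw [← Real.mul_rpow hn0.le (by positivity)]
      congr 1
      rw [hx]
      push_cast
      field_simp
    have hsum : ∀ j : ℕ, bin c j * ((n : ℝ) ^ c * (((R N : ℕ) : ℝ) / n) ^ j) * (y : ℝ) ^ j
        = (n : ℝ) ^ c * (bin c j * x ^ j) := by
      intro j
      rw [hx]
      have : ((R N : ℕ) : ℝ) * y / n = ((R N : ℕ) : ℝ) / n * y := by ring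
      rw [this, mul_pow]
      ring
    have h8 : |(n : ℝ) ^ c * (1 + x) ^ c -
        ∑ j ∈ Finset.range (D + 1), bin c j * ((n : ℝ) ^ c * (((R N : ℕ) : ℝ) / n) ^ j) * (y : ℝ) ^ j|
        ≤ ε / 2 := by
      rw [Finset.sum_congr rfl fun j _ => hsum j, ← Finset.mul_sum, ← mul_sub, abs_mul,
        abs_of_pos (Real.rpow_pos_of_pos hn0 c)]
      calc (n : ℝ) ^ c * |(1 + x) ^ c - ∑ j ∈ Finset.range (D + 1), bin c j * x ^ j|
          ≤ (n : ℝ) ^ c * (C * x ^ (D + 1)) := by gcongr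
        _ = C * ((n : ℝ) ^ c * x ^ (D + 1)) := by ring
        _ ≤ C * (3 ^ c * (ρ * y) ^ (D + 1) * (N : ℝ) ^ (c - ((D + 1 : ℕ) : ℝ) * (1 - σ))) :=
            mul_le_mul_of_nonneg_left (size hρ hc (D + 1) y hy0 hN hn) hC
        _ ≤ ε / 2 := h1.le
    show |(((n + R N * y : ℕ) : ℕ) : ℝ) ^ c - _| ≤ ε
    rw [hpow]
    by_cases hD : c < D * (1 - σ)
    · have h9 : ∑ j ∈ Finset.range (D + 1), bin c j * ((n : ℝ) ^ c * (((R N : ℕ) : ℝ) / n) ^ j) *
          (y : ℝ) ^ j = (∑ j ∈ Finset.range (D + 1), (if j = D ∧ c < D * (1 - σ) then 0 else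
          bin c j * ((n : ℝ) ^ c * (((R N : ℕ) : ℝ) / n) ^ j)) * (y : ℝ) ^ j) +
          (n : ℝ) ^ c * (bin c D * x ^ D) := by
        rw [Finset.sum_range_succ, Finset.sum_range_succ, hsum D, if_pos ⟨rfl, hD⟩]
        rw [zero_mul, add_zero]
        congr 1
        refine Finset.sum_congr rfl fun j hj => ?_
        rw [if_neg (fun h => by have := Finset.mem_range.1 hj; omega)]
      have h10 : |(n : ℝ) ^ c * (bin c D * x ^ D)| ≤ ε / 2 := by
        rw [abs_mul, abs_mul, abs_of_pos (Real.rpow_pos_of_pos hn0 c),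
          abs_of_nonneg (pow_nonneg hx0 D)]
        calc (n : ℝ) ^ c * (|bin c D| * x ^ D) = |bin c D| * ((n : ℝ) ^ c * x ^ D) := by ring
          _ ≤ |bin c D| * (3 ^ c * (ρ * y) ^ D * (N : ℝ) ^ (c - (D : ℝ) * (1 - σ))) :=
              mul_le_mul_of_nonneg_left (size hρ hc D y hy0 hN hn) (abs_nonneg _)
          _ ≤ ε / 2 := (h3 hD).le
      rw [h9] at h8
      rw [abs_le] at h8 h10 ⊢
      constructor <;> linarith [h8.1, h8.2, h10.1, h10.2]
    · have h9 : ∀ j, (if j = D ∧ c < D * (1 - σ) then (0 : ℝ) else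
          bin c j * ((n : ℝ) ^ c * (((R N : ℕ) : ℝ) / n) ^ j)) =
          bin c j * ((n : ℝ) ^ c * (((R N : ℕ) : ℝ) / n) ^ j) := fun j =>
        if_neg (fun h => hD h.2)
      simp only [h9]
      linarith
  · -- the leading coefficient
    intro hcD' ε hε
    have hlim : Tendsto (fun N : ℕ => |bin c D| * (ρ ^ D -
        ((ρ * (N : ℝ) ^ σ - 1) / ((N : ℝ) + L N) ^ σ) ^ D)) atTop (𝓝 0) := by
      have h0 : Tendsto (fun _ : ℕ => ρ ^ D) atTop (𝓝 (ρ ^ D)) := tendsto_const_nhds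
      have := (h0.sub ((floor_div (ρ := ρ) hσ0).pow D)).const_mul |bin c D|
      simpa using this
    have hpos : ∀ᶠ N : ℕ in atTop, 0 < (ρ * (N : ℝ) ^ σ - 1) / ((N : ℝ) + L N) ^ σ :=
      (floor_div hσ0).eventually_const_lt hρ
    filter_upwards [eventually_ge_atTop 1, hlim.eventually_lt_const hε, hpos] with N hN h1 h2 n hn
    obtain ⟨hn1, hn2⟩ := mem_W hn
    have hN' : (0 : ℝ) < N := by exact_mod_cast hN
    have hn' : (N : ℝ) ≤ n := by exact_mod_cast hn1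
    have hn0 : (0 : ℝ) < n := lt_of_lt_of_le hN' hn'
    have hneg : ¬ (c < D * (1 - σ)) := by rw [hcD']; exact lt_irrefl _
    show |(if D = D ∧ c < D * (1 - σ) then (0 : ℝ) else
      bin c D * ((n : ℝ) ^ c * (((R N : ℕ) : ℝ) / n) ^ D)) - bin c D * ρ ^ D| ≤ ε
    rw [if_neg (fun h => hneg h.2)]
    have h3 : (n : ℝ) ^ c * (((R N : ℕ) : ℝ) / n) ^ D = (((R N : ℕ) : ℝ) / (n : ℝ) ^ σ) ^ D := by
      have h4 : (n : ℝ) ^ c = ((n : ℝ) ^ (1 - σ)) ^ D := by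
        rw [← Real.rpow_natCast, ← Real.rpow_mul hn0.le, hcD']
        congr 1; ring
      rw [h4, ← mul_pow]
      congr 1
      rw [Real.rpow_sub hn0, Real.rpow_one]
      have h5 : (n : ℝ) ^ σ ≠ 0 := (Real.rpow_pos_of_pos hn0 _).ne'
      field_simp
    rw [h3, ← mul_sub, abs_mul]
    have hnσ : 0 < (n : ℝ) ^ σ := Real.rpow_pos_of_pos hn0 _
    have h6 : ((R N : ℕ) : ℝ) / (n : ℝ) ^ σ ≤ ρ := by
      rw [div_le_iff₀ hnσ]
      calc ((R N : ℕ) : ℝ) ≤ ρ * (N : ℝ) ^ σ := Nat.floor_le (by positivity)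
        _ ≤ ρ * (n : ℝ) ^ σ := by gcongr
    have h7 : (ρ * (N : ℝ) ^ σ - 1) / ((N : ℝ) + L N) ^ σ ≤ ((R N : ℕ) : ℝ) / (n : ℝ) ^ σ := by
      have h8 : ρ * (N : ℝ) ^ σ - 1 ≤ ((R N : ℕ) : ℝ) := by
        have := Nat.lt_floor_add_one (ρ * (N : ℝ) ^ σ)
        simp only [hR]
        linarith
      have h9 : (n : ℝ) ^ σ ≤ ((N : ℝ) + L N) ^ σ := by
        refine Real.rpow_le_rpow hn0.le ?_ hσ0.le
        have : n ≤ N + L N := hn2.le
        exact_mod_cast this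
      calc (ρ * (N : ℝ) ^ σ - 1) / ((N : ℝ) + L N) ^ σ
          ≤ ((R N : ℕ) : ℝ) / ((N : ℝ) + L N) ^ σ := by
            gcongr
        _ ≤ ((R N : ℕ) : ℝ) / (n : ℝ) ^ σ := by gcongr
    have h10 : (((R N : ℕ) : ℝ) / (n : ℝ) ^ σ) ^ D ≤ ρ ^ D := pow_le_pow_left₀ (by positivity) h6 D
    have h11 : ((ρ * (N : ℝ) ^ σ - 1) / ((N : ℝ) + L N) ^ σ) ^ D ≤
        (((R N : ℕ) : ℝ) / (n : ℝ) ^ σ) ^ D := pow_le_pow_left₀ h2.le h7 D
    rw [abs_sub_comm ((((R N : ℕ) : ℝ) / (n : ℝ) ^ σ) ^ D) (ρ ^ D),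
      abs_of_nonneg (sub_nonneg.2 h10)]
    calc |bin c D| * (ρ ^ D - (((R N : ℕ) : ℝ) / (n : ℝ) ^ σ) ^ D)
        ≤ |bin c D| * (ρ ^ D - ((ρ * (N : ℝ) ^ σ - 1) / ((N : ℝ) + L N) ^ σ) ^ D) := by gcongr
      _ ≤ ε := h1.le
  · intro h N n
    show (if D = D ∧ c < D * (1 - σ) then (0 : ℝ) else _) = 0
    rw [if_pos ⟨rfl, h⟩]

end Pool.Agent.SqF
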