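import Pool.Agent.SqF.Targets
import Pool.Agent.SqF.Basic

/-!
# MP_0b2319_an: part U2, inverse theorem for `V 1`
-/

set_option autoImplicit false

open MeasureTheory Filter Topology
open scoped ComplexConjugate

namespace Pool.Agent.SqF

namespace U2

/-- orthogonality of the characters on the grid -/
lemma grid_orth {M : ℕ} {k : ℤ} (hk : k ≠ 0) (hkM : |k| < M) :
    ∑ j ∈ Finset.range M, e ((j : ℝ) / M * k) = 0 := by
  have hM : (0 : ℝ) < M := by
    have : (0 : ℤ) < M := lt_of_le_of_lt (abs_nonneg k) hkM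
    exact_mod_cast this
  have h1 : ∀ j : ℕ, e ((j : ℝ) / M * k) = e ((k : ℝ) / M) ^ j := by
    intro j
    rw [← e_nat_mul]
    congr 1; ring
  simp_rw [h1]
  have h2 : e ((k : ℝ) / M) ≠ 1 := by
    intro h
    unfold e at h
    rw [Complex.exp_eq_one_iff] at h
    obtain ⟨n, hn⟩ := h
    have h3 : ((2 * Real.pi * ((k : ℝ) / M) : ℝ) : ℂ) = ((n * (2 * Real.pi) : ℝ) : ℂ) := by
      have hI : Complex.I ≠ 0 := Complex.I_ne_zero
      apply mul_right_cancel₀ hI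
      rw [hn]; push_cast; ring
    have h4 : 2 * Real.pi * ((k : ℝ) / M) = n * (2 * Real.pi) := by exact_mod_cast h3
    have h5 : (k : ℝ) / M = n := by
      have := Real.two_pi_pos
      nlinarith [mul_left_cancel₀ this.ne' (show 2 * Real.pi * ((k : ℝ) / M) = 2 * Real.pi * n by
        rw [h4]; ring)]
    rw [div_eq_iff hM.ne'] at h5
    have h6 : k = n * M := by exact_mod_cast h5
    rcases eq_or_ne n 0 with h7 | h7
    · rw [h7, zero_mul] at h6; exact hk h6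
    · have h8 : 1 ≤ |n| := Int.one_le_abs h7
      rw [h6, abs_mul, Nat.abs_cast] at hkM
      nlinarith
  have h3 := mul_neg_geom_sum (e ((k : ℝ) / M)) M
  have h4 : e ((k : ℝ) / M) ^ M = 1 := by
    rw [← e_nat_mul, mul_div_cancel₀ _ hM.ne', e_int]
  rw [h4, sub_self] at h3
  exact (mul_eq_zero.1 h3).resolve_left (sub_ne_zero.2 (Ne.symm h2))

lemma grid_sum {M : ℕ} {k : ℤ} (hkM : |k| < M) :
    ∑ j ∈ Finset.range M, e ((j : ℝ) / M * k) = if k = 0 then (M : ℂ) else 0 := by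
  split_ifs with h
  · simp [h, e_zero]
  · exact grid_orth h hkM

section Hilb

variable {E : Type} [NormedAddCommGroup E] [InnerProductSpace ℂ E]

/-- difference of a pair -/
def dd (p : ℕ × ℕ) : ℤ := (p.1 : ℤ) - p.2

/-- the square norm of an exponential sum -/
noncomputable def KK (x : ℕ → E) (N : ℕ) (α : ℝ) : ℝ :=
  ‖∑ h ∈ Finset.range N, e (-(α * h)) • x h‖ ^ 2

lemma KK_nonneg (x : ℕ → E) (N : ℕ) (α : ℝ) : 0 ≤ KK x N α := by unfold KK; positivity

lemma KK_expand (x : ℕ → E) (c : ℤ → ℂ)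
    (hc : ∀ h h' : ℕ, inner ℂ (x h) (x h') = c ((h' : ℤ) - h)) (N : ℕ) (α : ℝ) :
    (KK x N α : ℂ) = ∑ p ∈ Finset.range N ×ˢ Finset.range N, e (α * (dd p : ℝ)) * c (-dd p) := by
  unfold KK
  have h1 := inner_self_eq_norm_sq_to_K (𝕜 := ℂ) (∑ h ∈ Finset.range N, e (-(α * h)) • x h)
  have h2 : ((‖∑ h ∈ Finset.range N, e (-(α * h)) • x h‖ ^ 2 : ℝ) : ℂ) =
      inner ℂ (∑ h ∈ Finset.range N, e (-(α * h)) • x h)
        (∑ h ∈ Finset.range N, e (-(α * h)) • x h) := by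
    rw [h1]; push_cast; rfl
  rw [h2, sum_inner, Finset.sum_product]
  refine Finset.sum_congr rfl fun h _ => ?_
  rw [inner_sum]
  refine Finset.sum_congr rfl fun h' _ => ?_
  rw [inner_smul_left, inner_smul_right, hc, ← mul_assoc, conj_e, ← e_add]
  have e1 : - -(α * (h : ℝ)) + -(α * h') = α * (dd (h, h') : ℝ) := by
    unfold dd; push_cast; ring
  have e2 : (h' : ℤ) - h = -dd (h, h') := by unfold dd; ring
  rw [e1, e2]

lemma dd_lt {N : ℕ} {p : ℕ × ℕ} (hp : p ∈ Finset.range N ×ˢ Finset.range N) :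
    |dd p| < N := by
  rw [Finset.mem_product, Finset.mem_range, Finset.mem_range] at hp
  unfold dd
  rw [abs_lt]; omega

lemma sum_KK (x : ℕ → E) (c : ℤ → ℂ)
    (hc : ∀ h h' : ℕ, inner ℂ (x h) (x h') = c ((h' : ℤ) - h)) (N : ℕ) :
    ∑ j ∈ Finset.range (2 * N), KK x N ((j : ℝ) / (2 * N : ℕ)) = (2 * N : ℕ) * (N * ‖x 0‖ ^ 2) := by
  have h1 : ((∑ j ∈ Finset.range (2 * N), KK x N ((j : ℝ) / (2 * N : ℕ)) : ℝ) : ℂ) =
      (((2 * N : ℕ) * (N * ‖x 0‖ ^ 2) : ℝ) : ℂ) := by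
    push_cast [KK_expand x c hc]
    rw [Finset.sum_comm]
    have h2 : ∀ p ∈ Finset.range N ×ˢ Finset.range N,
        ∑ j ∈ Finset.range (2 * N), e ((j : ℝ) / (2 * N) * (dd p : ℝ)) * c (-dd p) =
        (if dd p = 0 then ((2 * N : ℕ) : ℂ) else 0) * c 0 := by
      intro p hp
      rw [← Finset.sum_mul]
      have h3 := grid_sum (M := 2 * N) (k := dd p) (by
        have := dd_lt hp
        push_cast
        have : (0 : ℤ) ≤ N := by positivity
        linarith)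
      push_cast at h3 ⊢
      rw [h3]
      split_ifs with h
      · rw [h, neg_zero]
      · simp
    rw [Finset.sum_congr rfl h2, ← Finset.sum_mul, Finset.sum_product]
    have h3 : ∀ h ∈ Finset.range N, ∑ h' ∈ Finset.range N,
        (if dd (h, h') = 0 then ((2 * N : ℕ) : ℂ) else 0) = ((2 * N : ℕ) : ℂ) := by
      intro h hh
      have : ∀ h' : ℕ, (dd (h, h') = 0) ↔ h = h' := by intro h'; unfold dd; push_cast; omega
      simp_rw [this]
      rw [Finset.sum_ite_eq, if_pos hh]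
    rw [Finset.sum_congr rfl h3, Finset.sum_const, Finset.card_range, nsmul_eq_mul]
    have h4 : c 0 = ((‖x 0‖ : ℝ) : ℂ) ^ 2 := by
      have := hc 0 0
      rw [inner_self_eq_norm_sq_to_K] at this
      simpa using this.symm
    rw [h4]; push_cast; ring
  exact_mod_cast h1

lemma sum_KK_sq (x : ℕ → E) (c : ℤ → ℂ)
    (hc : ∀ h h' : ℕ, inner ℂ (x h) (x h') = c ((h' : ℤ) - h)) (N : ℕ) :
    ∑ j ∈ Finset.range (2 * N), KK x N ((j : ℝ) / (2 * N : ℕ)) ^ 2 = (2 * N : ℕ) *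
      ∑ q ∈ Finset.range N ×ˢ Finset.range N,
      ∑ p ∈ Finset.range N ×ˢ Finset.range N, if dd p = dd q then ‖c (-dd q)‖ ^ 2 else 0 := by
  have h0 : ∀ α : ℝ, ((KK x N α ^ 2 : ℝ) : ℂ) =
      ∑ p ∈ Finset.range N ×ˢ Finset.range N, ∑ q ∈ Finset.range N ×ˢ Finset.range N,
        e (α * ((dd p - dd q : ℤ) : ℝ)) * (c (-dd p) * conj (c (-dd q))) := by
    intro α
    have h1 : ((KK x N α ^ 2 : ℝ) : ℂ) = (KK x N α : ℂ) * conj (KK x N α : ℂ) := by
      rw [Complex.conj_ofReal, pow_two]; push_cast; ring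
    rw [h1, KK_expand x c hc, map_sum, Finset.sum_mul_sum]
    refine Finset.sum_congr rfl fun p _ => Finset.sum_congr rfl fun q _ => ?_
    rw [map_mul]
    have : α * ((dd p - dd q : ℤ) : ℝ) = α * (dd p : ℝ) - α * (dd q : ℝ) := by push_cast; ring
    rw [this, e_sub]; ring
  have h1 : ((∑ j ∈ Finset.range (2 * N), KK x N ((j : ℝ) / (2 * N : ℕ)) ^ 2 : ℝ) : ℂ) =
      (((2 * N : ℕ) * ∑ q ∈ Finset.range N ×ˢ Finset.range N,
      ∑ p ∈ Finset.range N ×ˢ Finset.range N, if dd p = dd q then ‖c (-dd q)‖ ^ 2 else 0 : ℝ)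
        : ℂ) := by
    rw [Complex.ofReal_sum]
    simp_rw [h0]
    rw [Finset.sum_comm]
    simp_rw [Finset.sum_comm (s := Finset.range (2 * N))]
    rw [Finset.sum_comm]
    rw [Complex.ofReal_mul, Complex.ofReal_sum, Finset.mul_sum]
    refine Finset.sum_congr rfl fun q hq => ?_
    rw [Complex.ofReal_sum, Finset.mul_sum]
    refine Finset.sum_congr rfl fun p hp => ?_
    rw [← Finset.sum_mul]
    rw [grid_sum (M := 2 * N) (k := dd p - dd q) (by
        have h3 := abs_lt.1 (dd_lt hp)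
        have h4 := abs_lt.1 (dd_lt hq)
        rw [abs_lt]; push_cast
        constructor <;> linarith [h3.1, h3.2, h4.1, h4.2])]
    by_cases h : dd p = dd q
    · rw [if_pos (by rw [h, sub_self]), if_pos h, h, Complex.mul_conj, Complex.normSq_eq_norm_sq]
      push_cast; ring
    · rw [if_neg (sub_ne_zero.2 h), if_neg h]; simp
  exact_mod_cast h1

lemma count_le (H : ℕ) (c : ℤ → ℂ) :
    (H : ℝ) * ∑ q ∈ Finset.range H ×ˢ Finset.range H, ‖c (-dd q)‖ ^ 2 ≤
      ∑ q ∈ Finset.range (2 * H) ×ˢ Finset.range (2 * H),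
      ∑ p ∈ Finset.range (2 * H) ×ˢ Finset.range (2 * H),
        if dd p = dd q then ‖c (-dd q)‖ ^ 2 else 0 := by
  rw [Finset.mul_sum]
  have hsub : Finset.range H ×ˢ Finset.range H ⊆ Finset.range (2 * H) ×ˢ Finset.range (2 * H) :=
    Finset.product_subset_product (Finset.range_subset_range.2 (by omega))
      (Finset.range_subset_range.2 (by omega))
  refine (Finset.sum_le_sum ?_).trans (Finset.sum_le_sum_of_subset_of_nonneg hsub ?_)
  · intro q hq
    rw [← Finset.sum_filter, Finset.sum_const, nsmul_eq_mul]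
    refine mul_le_mul_of_nonneg_right ?_ (by positivity)
    rw [Finset.mem_product, Finset.mem_range, Finset.mem_range] at hq
    have hinj : Function.Injective (fun t : ℕ => (q.1 + t, q.2 + t)) := by
      intro a b hab
      have := congrArg Prod.fst hab
      simpa using this
    have h1 : (Finset.range H).map ⟨_, hinj⟩ ⊆
        (Finset.range (2 * H) ×ˢ Finset.range (2 * H)).filter (fun p => dd p = dd q) := by
      intro p hp
      rw [Finset.mem_map] at hp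
      obtain ⟨t, ht, rfl⟩ := hp
      rw [Finset.mem_range] at ht
      rw [Finset.mem_filter, Finset.mem_product, Finset.mem_range, Finset.mem_range]
      refine ⟨⟨?_, ?_⟩, ?_⟩
      · show q.1 + t < 2 * H; omega
      · show q.2 + t < 2 * H; omega
      · show dd (q.1 + t, q.2 + t) = dd q
        unfold dd; push_cast; ring
    have h2 := Finset.card_le_card h1
    rw [Finset.card_map, Finset.card_range] at h2
    exact_mod_cast h2
  · intro q _ _
    exact Finset.sum_nonneg fun p _ => by split_ifs <;> positivity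

lemma exists_alpha (x : ℕ → E) (c : ℤ → ℂ)
    (hc : ∀ h h' : ℕ, inner ℂ (x h) (x h') = c ((h' : ℤ) - h)) (hx : ‖x 0‖ ≤ 1) (H : ℕ)
    (hH : 0 < H) :
    ∃ α ∈ Set.Icc (0 : ℝ) 1, (1 / 8) * (((H : ℝ) ^ 2)⁻¹ *
      ∑ q ∈ Finset.range H ×ˢ Finset.range H, ‖c (-dd q)‖ ^ 2) ≤
      ‖((2 * H : ℕ) : ℂ)⁻¹ • ∑ h ∈ Finset.range (2 * H), e (-(α * h)) • x h‖ ^ 2 := by
  have hH' : (0 : ℝ) < H := by exact_mod_cast hH
  set S := ∑ q ∈ Finset.range H ×ˢ Finset.range H, ‖c (-dd q)‖ ^ 2 with hS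
  have h1 := sum_KK x c hc (2 * H)
  have h2 := sum_KK_sq x c hc (2 * H)
  have h3 := count_le H c
  obtain ⟨j, hj, hmax⟩ := Finset.exists_max_image (Finset.range (2 * (2 * H)))
    (fun j => KK x (2 * H) ((j : ℝ) / (2 * (2 * H) : ℕ))) ⟨0, by rw [Finset.mem_range]; omega⟩
  rw [Finset.mem_range] at hj
  set K := KK x (2 * H) ((j : ℝ) / (2 * (2 * H) : ℕ)) with hK
  have h4 : ∑ j ∈ Finset.range (2 * (2 * H)), KK x (2 * H) ((j : ℝ) / (2 * (2 * H) : ℕ)) ^ 2 ≤
      K * ∑ j ∈ Finset.range (2 * (2 * H)), KK x (2 * H) ((j : ℝ) / (2 * (2 * H) : ℕ)) := by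
    rw [Finset.mul_sum]
    refine Finset.sum_le_sum fun i hi => ?_
    rw [pow_two]
    exact mul_le_mul_of_nonneg_right (hmax i hi) (KK_nonneg _ _ _)
  rw [h1, h2] at h4
  have hKn : 0 ≤ K := KK_nonneg _ _ _
  have h5 : S / 2 ≤ K := by
    have e1 : ((2 * (2 * H) : ℕ) : ℝ) * (H * S) ≤ ((2 * (2 * H) : ℕ) : ℝ) * (K * (2 * H)) := by
      calc ((2 * (2 * H) : ℕ) : ℝ) * (H * S) ≤ _ := mul_le_mul_of_nonneg_left h3 (by positivity)
        _ ≤ _ := h4
        _ ≤ K * (((2 * (2 * H) : ℕ) : ℝ) * (((2 * H : ℕ) : ℝ) * 1)) := by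
            gcongr
            exact pow_le_one₀ (norm_nonneg _) hx
        _ = _ := by push_cast; ring
    have e2 : (H : ℝ) * S ≤ K * (2 * H) := le_of_mul_le_mul_left e1 (by push_cast; positivity)
    nlinarith
  refine ⟨(j : ℝ) / (2 * (2 * H) : ℕ), ⟨by positivity, ?_⟩, ?_⟩
  · rw [div_le_one (by push_cast; positivity)]
    exact_mod_cast hj.le
  · rw [norm_smul, mul_pow]
    change _ ≤ _ * K
    rw [norm_inv, Complex.norm_natCast]
    push_cast
    have e3 : ((2 * (H : ℝ))⁻¹) ^ 2 * K = (1 / 4) * (((H : ℝ) ^ 2)⁻¹ * K) := by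
      field_simp; ring
    rw [e3]
    have e4 : ((H : ℝ) ^ 2)⁻¹ * (S / 2) ≤ ((H : ℝ) ^ 2)⁻¹ * K :=
      mul_le_mul_of_nonneg_left h5 (by positivity)
    linarith

/-- normalised exponential sums along an orbit -/
noncomputable def nn (T : E →ₗᵢ[ℂ] E) (v : E) (α : ℝ) (N : ℕ) : ℝ :=
  ‖(N : ℂ)⁻¹ • ∑ h ∈ Finset.range N, e (-(α * h)) • T^[h] v‖

lemma nn_nonneg (T : E →ₗᵢ[ℂ] E) (v : E) (α : ℝ) (N : ℕ) : 0 ≤ nn T v α N := norm_nonneg _

lemma norm_iter (T : E →ₗᵢ[ℂ] E) (v : E) (h : ℕ) : ‖T^[h] v‖ = ‖v‖ := by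
  induction h with
  | zero => rfl
  | succ h ih => rw [Function.iterate_succ_apply', T.norm_map, ih]

lemma iter_smul (T : E →ₗᵢ[ℂ] E) (v : E) (h : ℕ) (z : ℂ) : T^[h] (z • v) = z • T^[h] v := by
  induction h with
  | zero => rfl
  | succ h ih => rw [Function.iterate_succ_apply', ih, T.map_smul, Function.iterate_succ_apply']

lemma iter_sum (T : E →ₗᵢ[ℂ] E) (v : ℕ → E) (h k : ℕ) :
    T^[h] (∑ j ∈ Finset.range k, v j) = ∑ j ∈ Finset.range k, T^[h] (v j) := by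
  induction h with
  | zero => rfl
  | succ h ih =>
    rw [Function.iterate_succ_apply', ih, map_sum]
    simp_rw [Function.iterate_succ_apply']

omit [InnerProductSpace ℂ E] in
lemma shift_err (u : ℕ → E) (hu : ∀ h, ‖u h‖ ≤ 1) (N j : ℕ) :
    ‖∑ h ∈ Finset.range N, u h - ∑ h ∈ Finset.range N, u (h + j)‖ ≤ 2 * j := by
  induction j with
  | zero => simp
  | succ j ih =>
    have h1 : ∑ h ∈ Finset.range N, u (h + j) - ∑ h ∈ Finset.range N, u (h + (j + 1)) =
        u j - u (N + j) := by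
      have e1 := Finset.sum_range_succ (fun h => u (h + j)) N
      have e2 := Finset.sum_range_succ' (fun h => u (h + j)) N
      rw [e1] at e2
      simp only [zero_add] at e2
      have e3 : ∀ h, u (h + 1 + j) = u (h + (j + 1)) := fun h => by congr 1; ring
      simp_rw [e3] at e2
      rw [sub_eq_sub_iff_add_eq_add, e2, add_comm]
    have h2 : ∑ h ∈ Finset.range N, u h - ∑ h ∈ Finset.range N, u (h + (j + 1)) =
        (∑ h ∈ Finset.range N, u h - ∑ h ∈ Finset.range N, u (h + j)) + (u j - u (N + j)) := by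
      rw [← h1]; abel
    rw [h2]
    calc _ ≤ ‖∑ h ∈ Finset.range N, u h - ∑ h ∈ Finset.range N, u (h + j)‖ + ‖u j - u (N + j)‖ :=
          norm_add_le _ _
      _ ≤ 2 * j + (‖u j‖ + ‖u (N + j)‖) := add_le_add ih (norm_sub_le _ _)
      _ ≤ 2 * j + (1 + 1) := by gcongr <;> exact hu _
      _ = 2 * ((j + 1 : ℕ) : ℝ) := by push_cast; ring

lemma nn_mono (T : E →ₗᵢ[ℂ] E) (v : E) (hv : ‖v‖ ≤ 1) (α : ℝ) {N k : ℕ} (hN : 0 < N)
    (hk : 0 < k) : nn T v α N ≤ nn T v α k + 2 * k / N := by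
  set u : ℕ → E := fun h => e (-(α * h)) • T^[h] v with hu
  have hun : ∀ h, ‖u h‖ ≤ 1 := by
    intro h
    rw [hu, norm_smul, norm_e, one_mul, norm_iter]
    exact hv
  have hN' : (0 : ℝ) < N := by exact_mod_cast hN
  have hk' : (0 : ℝ) < k := by exact_mod_cast hk
  have hkc : (k : ℂ) ≠ 0 := by exact_mod_cast hk.ne'
  have hshift : ∀ h j : ℕ, u (h + j) = e (-(α * h)) • T^[h] (u j) := by
    intro h j
    simp only [hu]
    rw [iter_smul, smul_smul, ← e_add, ← Function.iterate_add_apply]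
    congr 2
    push_cast; ring
  set B := ∑ j ∈ Finset.range k, u j with hB
  have hdouble : ∑ j ∈ Finset.range k, ∑ h ∈ Finset.range N, u (h + j) =
      ∑ h ∈ Finset.range N, e (-(α * h)) • T^[h] B := by
    rw [Finset.sum_comm]
    refine Finset.sum_congr rfl fun h _ => ?_
    rw [hB, iter_sum, Finset.smul_sum]
    exact Finset.sum_congr rfl fun j _ => hshift h j
  have h1 : ‖∑ j ∈ Finset.range k, ∑ h ∈ Finset.range N, u (h + j)‖ ≤ N * ‖B‖ := by
    rw [hdouble]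
    calc _ ≤ ∑ h ∈ Finset.range N, ‖e (-(α * h)) • T^[h] B‖ := norm_sum_le _ _
      _ = ∑ h ∈ Finset.range N, ‖B‖ := by
          refine Finset.sum_congr rfl fun h _ => ?_
          rw [norm_smul, norm_e, one_mul, norm_iter]
      _ = N * ‖B‖ := by rw [Finset.sum_const, Finset.card_range, nsmul_eq_mul]
  have h2 : ‖(k : ℂ) • (∑ h ∈ Finset.range N, u h) -
      ∑ j ∈ Finset.range k, ∑ h ∈ Finset.range N, u (h + j)‖ ≤ k * (2 * k) := by
    have e1 : (k : ℂ) • (∑ h ∈ Finset.range N, u h) =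
        ∑ j ∈ Finset.range k, ∑ h ∈ Finset.range N, u h := by
      rw [Finset.sum_const, Finset.card_range, Nat.cast_smul_eq_nsmul]
    rw [e1, ← Finset.sum_sub_distrib]
    calc _ ≤ ∑ j ∈ Finset.range k, ‖∑ h ∈ Finset.range N, u h - ∑ h ∈ Finset.range N, u (h + j)‖ :=
          norm_sum_le _ _
      _ ≤ ∑ j ∈ Finset.range k, (2 * k : ℝ) := by
          refine Finset.sum_le_sum fun j hj => (shift_err u hun N j).trans ?_
          have : (j : ℝ) ≤ k := by exact_mod_cast (Finset.mem_range.1 hj).le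
          linarith
      _ = k * (2 * k) := by rw [Finset.sum_const, Finset.card_range, nsmul_eq_mul]
  have h3 : (k : ℝ) * ‖∑ h ∈ Finset.range N, u h‖ ≤ N * ‖B‖ + k * (2 * k) := by
    have e1 : (k : ℝ) * ‖∑ h ∈ Finset.range N, u h‖ = ‖(k : ℂ) • (∑ h ∈ Finset.range N, u h)‖ := by
      rw [norm_smul, Complex.norm_natCast]
    rw [e1]
    have e2 : (k : ℂ) • (∑ h ∈ Finset.range N, u h) =
        (∑ j ∈ Finset.range k, ∑ h ∈ Finset.range N, u (h + j)) +
        ((k : ℂ) • (∑ h ∈ Finset.range N, u h) -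
          ∑ j ∈ Finset.range k, ∑ h ∈ Finset.range N, u (h + j)) := by abel
    rw [e2]
    exact (norm_add_le _ _).trans (add_le_add h1 h2)
  have e1 : nn T v α N = (N : ℝ)⁻¹ * ‖∑ h ∈ Finset.range N, u h‖ := by
    unfold nn; rw [norm_smul, norm_inv, Complex.norm_natCast]
  have e2 : nn T v α k = (k : ℝ)⁻¹ * ‖B‖ := by
    unfold nn; rw [norm_smul, norm_inv, Complex.norm_natCast]
  rw [e1, e2]
  have h4 : ((N : ℝ) * k) * ((N : ℝ)⁻¹ * ‖∑ h ∈ Finset.range N, u h‖) ≤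
      ((N : ℝ) * k) * ((k : ℝ)⁻¹ * ‖B‖ + 2 * k / N) := by
    have e3 : ((N : ℝ) * k) * ((N : ℝ)⁻¹ * ‖∑ h ∈ Finset.range N, u h‖) =
        k * ‖∑ h ∈ Finset.range N, u h‖ := by field_simp
    have e4 : ((N : ℝ) * k) * ((k : ℝ)⁻¹ * ‖B‖ + 2 * k / N) = N * ‖B‖ + k * (2 * k) := by
      field_simp
    rw [e3, e4]; exact h3
  exact le_of_mul_le_mul_left h4 (by positivity)

lemma nn_cont (T : E →ₗᵢ[ℂ] E) (v : E) (N : ℕ) : Continuous (fun α => nn T v α N) := by
  unfold nn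
  have := continuous_e
  fun_prop

/-- the limit point -/
lemma exists_lim (T : E →ₗᵢ[ℂ] E) (v : E) (hv : ‖v‖ ≤ 1) (a : ℕ → ℝ) (V0 : ℝ)
    (ha : Tendsto a (hyperfilter ℕ : Filter ℕ) (𝓝 V0))
    (h : ∀ H : ℕ, 0 < H → ∃ α ∈ Set.Icc (0 : ℝ) 1, (1 / 8) * a H ≤ nn T v α (2 * H) ^ 2) :
    ∃ α : ℝ, ∀ k : ℕ, 0 < k → V0 / 8 ≤ nn T v α k ^ 2 := by
  have h' : ∀ H : ℕ, ∃ α ∈ Set.Icc (0 : ℝ) 1, 0 < H → (1 / 8) * a H ≤ nn T v α (2 * H) ^ 2 := by
    intro H
    rcases Nat.eq_zero_or_pos H with h0 | h0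
    · exact ⟨0, by simp, fun h1 => by omega⟩
    · obtain ⟨α, h1, h2⟩ := h H h0
      exact ⟨α, h1, fun _ => h2⟩
  choose al hal hal2 using h'
  have hm : (↑((hyperfilter ℕ).map al) : Filter ℝ) ≤ 𝓟 (Set.Icc (0 : ℝ) 1) := by
    rw [Ultrafilter.coe_map, le_principal_iff, mem_map]
    exact Filter.univ_mem' fun n => hal n
  obtain ⟨α, _, hα⟩ := isCompact_Icc.ultrafilter_le_nhds ((hyperfilter ℕ).map al) hm
  have hα' : Tendsto al (hyperfilter ℕ : Filter ℕ) (𝓝 α) := hα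
  refine ⟨α, fun k hk => ?_⟩
  have l1 : Tendsto (fun H : ℕ => nn T v (al H) k + 2 * k / ((2 * H : ℕ) : ℝ))
      (hyperfilter ℕ : Filter ℕ) (𝓝 (nn T v α k + 0)) := by
    refine ((nn_cont T v k).tendsto α |>.comp hα').add ?_
    have : Tendsto (fun H : ℕ => 2 * (k : ℝ) / ((2 * H : ℕ) : ℝ)) atTop (𝓝 0) := by
      refine Tendsto.div_atTop tendsto_const_nhds ?_
      refine tendsto_natCast_atTop_atTop.comp ?_
      exact tendsto_id.const_mul_atTop' (by norm_num : (0 : ℕ) < 2)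
    exact this.mono_left hyperfilter_le_atTop
  rw [add_zero] at l1
  have l2 : Tendsto (fun H : ℕ => (1 / 8) * a H) (hyperfilter ℕ : Filter ℕ) (𝓝 ((1 / 8) * V0)) :=
    ha.const_mul _
  have l3 := le_of_tendsto_of_tendsto l2 (l1.pow 2) (by
    filter_upwards [hyperfilter_eventually_ge 1] with H hH
    refine (hal2 H (by omega)).trans ?_
    exact pow_le_pow_left₀ (nn_nonneg _ _ _ _)
      (nn_mono T v hv (al H) (N := 2 * H) (by omega) hk) 2)
  linarith

variable [CompleteSpace E]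

/-- the eigenvector -/
lemma exists_eigvec (T : E →ₗᵢ[ℂ] E) (v : E) (α δ : ℝ)
    (h : ∀ k : ℕ, 0 < k → δ ≤ nn T v α k ^ 2) :
    ∃ ψ : E, T ψ = e α • ψ ∧ inner ℂ ψ v = ((‖ψ‖ : ℝ) : ℂ) ^ 2 ∧ δ ≤ ‖ψ‖ ^ 2 := by
  set f : E →L[ℂ] E := e (-α) • T.toContinuousLinearMap with hf
  have hfa : ∀ x, f x = e (-α) • T x := fun x => rfl
  have hf1 : ‖f‖ ≤ 1 := by
    refine ContinuousLinearMap.opNorm_le_bound _ zero_le_one fun x => ?_
    rw [hfa, norm_smul, norm_e, T.norm_map]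
  have hit : ∀ n : ℕ, f^[n] v = e (-(α * n)) • T^[n] v := by
    intro n
    induction n with
    | zero => simp [e_zero]
    | succ n ih =>
      rw [Function.iterate_succ_apply', ih, hfa, T.map_smul, smul_smul, ← e_add,
        Function.iterate_succ_apply']
      congr 2; push_cast; ring
  have hlim := f.tendsto_birkhoffAverage_orthogonalProjection hf1 v
  set P := (f.eqLocus (1 : E →L[ℂ] E)).orthogonalProjectionOnto v with hP
  have hnorm : ∀ k : ℕ, ‖birkhoffAverage ℂ f _root_.id k v‖ = nn T v α k := by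
    intro k
    unfold birkhoffAverage birkhoffSum nn
    simp only [_root_.id, hit]
  refine ⟨(P : E), ?_, ?_, ?_⟩
  · have h1 : f (P : E) = (P : E) := P.2
    rw [hfa] at h1
    calc T (P : E) = e α • (e (-α) • T (P : E)) := by
          rw [smul_smul, ← e_add, add_neg_cancel, e_zero, one_smul]
      _ = e α • (P : E) := by rw [h1]
  · have h1 := (f.eqLocus (1 : E →L[ℂ] E)).inner_orthogonalProjectionOnto_eq_of_mem_left P v
    rw [← h1, ← hP, inner_self_eq_norm_sq_to_K]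
    rfl
  · have h2 : Tendsto (fun k => ‖birkhoffAverage ℂ f _root_.id k v‖ ^ 2) atTop
        (𝓝 (‖(P : E)‖ ^ 2)) := (hlim.norm).pow 2
    refine ge_of_tendsto h2 ?_
    filter_upwards [eventually_ge_atTop 1] with k hk
    rw [hnorm]
    exact h k (by omega)

end Hilb

section Sys

variable {X : Type} [MeasurableSpace X] {μ : Measure X} [IsProbabilityMeasure μ]

/-- the correlation sequence -/
noncomputable def cor (S : Sys X μ) (v : X → ℂ) (k : ℤ) : ℂ := ∫ x, v (S.φ k x) * conj (v x) ∂μ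

omit [IsProbabilityMeasure μ] in
lemma cor_eq (S : Sys X μ) (v : X → ℂ) (h h' : ℤ) :
    ∫ x, v (S.φ h x) * conj (v (S.φ h' x)) ∂μ = cor S v (h - h') := by
  unfold cor
  rw [← S.integral_comp h' (fun x => v (S.φ (h - h') x) * conj (v x))]
  congr 1; ext x
  rw [← S.add]
  congr 3; ring

lemma memLp_sh (S : Sys X μ) {v : X → ℂ} (hv : B1 v) (h : ℤ) :
    MemLp (fun x => v (S.φ h x)) 2 μ :=
  MemLp.of_bound (hv.sh S h).meas.aestronglyMeasurable 1 (Eventually.of_forall (hv.sh S h).le)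

/-- the Koopman operator -/
noncomputable def Koop (S : Sys X μ) : Lp ℂ 2 μ →ₗᵢ[ℂ] Lp ℂ 2 μ :=
  Lp.compMeasurePreservingₗᵢ ℂ (S.φ 1) (S.mp 1)

lemma koop_iter (S : Sys X μ) {v : X → ℂ} (hv : B1 v) (h : ℕ) :
    (Koop S)^[h] ((memLp_sh S hv 0).toLp _) = (memLp_sh S hv h).toLp _ := by
  induction h with
  | zero => rfl
  | succ h ih =>
    rw [Function.iterate_succ_apply', ih]
    have h1 : Koop S ((memLp_sh S hv h).toLp _) =
        ((memLp_sh S hv h).comp_measurePreserving (S.mp 1)).toLp _ := rfl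
    rw [h1]
    refine MemLp.toLp_congr _ _ (Eventually.of_forall fun x => ?_)
    show v (S.φ h (S.φ 1 x)) = v (S.φ ((h + 1 : ℕ) : ℤ) x)
    rw [← S.add]; push_cast; rfl

omit [IsProbabilityMeasure μ] in
lemma inner_toLp {f g : X → ℂ} (hf : MemLp f 2 μ) (hg : MemLp g 2 μ) :
    inner ℂ (hf.toLp f) (hg.toLp g) = ∫ x, g x * conj (f x) ∂μ := by
  rw [L2.inner_def]
  refine integral_congr_ae ?_
  filter_upwards [hf.coeFn_toLp, hg.coeFn_toLp] with x h1 h2
  rw [h1, h2]; rfl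

lemma norm_v0 (S : Sys X μ) {v : X → ℂ} (hv : B1 v) (h : ℤ) : ‖(memLp_sh S hv h).toLp _‖ ≤ 1 := by
  have h1 := inner_toLp (memLp_sh S hv h) (memLp_sh S hv h)
  rw [inner_self_eq_norm_sq_to_K] at h1
  have h2 := ((hv.sh S h).mul' (hv.sh S h).conj').norm_integral_le (μ := μ)
  rw [← h1] at h2
  simp only [norm_pow] at h2
  have h3 : ‖((‖(memLp_sh S hv h).toLp _‖ : ℝ) : ℂ)‖ = ‖(memLp_sh S hv h).toLp _‖ := by
    rw [Complex.norm_real, norm_norm]
  have h4 : ‖(memLp_sh S hv h).toLp _‖ ^ 2 ≤ 1 := by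
    rw [← h3]; exact h2
  nlinarith [norm_nonneg ((memLp_sh S hv h).toLp _)]

end Sys

end U2

open U2 in
theorem u2 : T_U2 := by
  intro X _ μ _ S herg v hv δ hδ hV
  -- the averages
  set a : ℕ → ℝ := fun H => ((H : ℝ) ^ 2)⁻¹ *
      ∑ h ∈ Finset.range H, ∑ h' ∈ Finset.range H,
        V S 0 (fun x => v (S.φ h x) * conj (v (S.φ h' x))) with ha
  have hterm : ∀ h h' : ℕ, V S 0 (fun x => v (S.φ h x) * conj (v (S.φ h' x))) =
      ‖cor S v ((h : ℤ) - h')‖ ^ 2 := by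
    intro h h'
    show ‖∫ x, v (S.φ h x) * conj (v (S.φ h' x)) ∂μ‖ ^ 2 = _
    rw [cor_eq]
  have hterm1 : ∀ h h' : ℕ, V S 0 (fun x => v (S.φ h x) * conj (v (S.φ h' x))) ≤ 1 := by
    intro h h'
    have := ((hv.sh S h).mul' (hv.sh S h').conj').norm_integral_le (μ := μ)
    exact pow_le_one₀ (norm_nonneg _) this
  have hterm0 : ∀ h h' : ℕ, 0 ≤ V S 0 (fun x => v (S.φ h x) * conj (v (S.φ h' x))) := by
    intro h h'; rw [hterm]; positivity
  have hbd : ∀ H, |a H| ≤ 1 := by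
    intro H
    have h0 : 0 ≤ a H := mul_nonneg (by positivity)
      (Finset.sum_nonneg fun h _ => Finset.sum_nonneg fun h' _ => hterm0 h h')
    rw [abs_of_nonneg h0]
    have h1 : ∑ h ∈ Finset.range H, ∑ h' ∈ Finset.range H,
        V S 0 (fun x => v (S.φ h x) * conj (v (S.φ h' x))) ≤ (H : ℝ) ^ 2 := by
      calc _ ≤ ∑ h ∈ Finset.range H, ∑ h' ∈ Finset.range H, (1 : ℝ) :=
            Finset.sum_le_sum fun h _ => Finset.sum_le_sum fun h' _ => hterm1 h h'
        _ = (H : ℝ) ^ 2 := by simp [pow_two]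
    rcases Nat.eq_zero_or_pos H with h2 | h2
    · simp [ha, h2]
    · have h3 : (0 : ℝ) < (H : ℝ) ^ 2 := by positivity
      calc a H ≤ ((H : ℝ) ^ 2)⁻¹ * (H : ℝ) ^ 2 := mul_le_mul_of_nonneg_left h1 (by positivity)
        _ = 1 := inv_mul_cancel₀ h3.ne'
  have hlim : Tendsto a (hyperfilter ℕ : Filter ℕ) (𝓝 (V S 1 v)) := tendsto_ulim _ hbd
  -- the Hilbert space
  set v0 := (memLp_sh S hv 0).toLp _ with hv0
  have hxc : ∀ h h' : ℕ, inner ℂ ((Koop S)^[h] v0) ((Koop S)^[h'] v0) =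
      cor S v ((h' : ℤ) - h) := by
    intro h h'
    rw [hv0, koop_iter S hv, koop_iter S hv, inner_toLp, cor_eq]
  have hnv : ‖v0‖ ≤ 1 := norm_v0 S hv 0
  obtain ⟨α, hα⟩ := exists_lim (Koop S) v0 hnv a (V S 1 v) hlim (by
    intro H hH
    obtain ⟨α, h1, h2⟩ := exists_alpha (fun h => (Koop S)^[h] v0) (cor S v) hxc hnv H hH
    refine ⟨α, h1, ?_⟩
    have h3 : a H = ((H : ℝ) ^ 2)⁻¹ *
        ∑ q ∈ Finset.range H ×ˢ Finset.range H, ‖cor S v (-dd q)‖ ^ 2 := by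
      rw [ha]
      simp only [hterm]
      rw [Finset.sum_comm, Finset.sum_product]
      congr 1
      refine Finset.sum_congr rfl fun h _ => Finset.sum_congr rfl fun h' _ => ?_
      unfold dd
      congr 3; ring
    rw [h3]
    exact h2)
  obtain ⟨ψ, hψ1, hψ2, hψ3⟩ := exists_eigvec (Koop S) v0 α (V S 1 v / 8) hα
  -- the function
  have hmeas : Measurable (ψ : X → ℂ) := (Lp.stronglyMeasurable ψ).measurable
  have he1 : ∀ᵐ x ∂μ, (ψ : X → ℂ) (S.φ 1 x) = e α * (ψ : X → ℂ) x := by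
    have h1 : (Koop S ψ : X → ℂ) =ᵐ[μ] (ψ : X → ℂ) ∘ S.φ 1 :=
      Lp.coeFn_compMeasurePreserving ψ (S.mp 1)
    have h2 := Lp.coeFn_smul (e α) ψ
    rw [← hψ1] at h2
    filter_upwards [h1, h2] with x h3 h4
    rw [h3] at h4
    exact h4
  obtain ⟨κ, hκ⟩ := herg.ae_eq_const_of_ae_eq_comp_ae (g := fun x => ‖(ψ : X → ℂ) x‖)
    hmeas.norm.aestronglyMeasurable (by
      filter_upwards [he1] with x hx
      show ‖(ψ : X → ℂ) (S.φ 1 x)‖ = ‖(ψ : X → ℂ) x‖
      rw [hx, norm_mul, norm_e, one_mul])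
  have hκ' : ∀ᵐ x ∂μ, ‖(ψ : X → ℂ) x‖ = κ := hκ
  have hκ0 : 0 ≤ κ := by
    obtain ⟨x, hx⟩ := hκ'.exists
    rw [← hx]; exact norm_nonneg _
  have hnorm : ‖ψ‖ ^ 2 = κ ^ 2 := by
    have h1 : inner ℂ ψ ψ = ∫ x, inner ℂ ((ψ : X → ℂ) x) ((ψ : X → ℂ) x) ∂μ := L2.inner_def _ _
    have h2 : ∫ x, inner ℂ ((ψ : X → ℂ) x) ((ψ : X → ℂ) x) ∂μ = ∫ _ : X, ((κ : ℂ)) ^ 2 ∂μ := by
      refine integral_congr_ae ?_
      filter_upwards [hκ'] with x hx
      rw [inner_self_eq_norm_sq_to_K, hx]; rfl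
    rw [h2, inner_self_eq_norm_sq_to_K] at h1
    simp only [integral_const, probReal_univ, one_smul] at h1
    have h3 : (((‖ψ‖ ^ 2 : ℝ)) : ℂ) = ((κ ^ 2 : ℝ) : ℂ) := by push_cast; exact h1
    exact_mod_cast h3
  have hκpos : 0 < κ := by
    rcases hκ0.lt_or_eq with h | h
    · exact h
    · rw [hnorm, ← h] at hψ3
      exfalso
      have : (0 : ℝ) ^ 2 = 0 := by norm_num
      rw [this] at hψ3
      linarith
  have hκc : (κ : ℂ) ≠ 0 := by exact_mod_cast hκpos.ne'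
  classical
  set χ : X → ℂ := fun x => if ‖(ψ : X → ℂ) x‖ = κ then (ψ : X → ℂ) x / κ else 1 with hχ
  refine ⟨χ, α, ⟨?_, ?_, ?_⟩, ?_⟩
  · exact Measurable.ite (measurableSet_eq_fun hmeas.norm measurable_const)
      (hmeas.div_const _) measurable_const
  · intro x
    simp only [hχ]
    split_ifs with h
    · rw [norm_div, h, Complex.norm_real, Real.norm_of_nonneg hκ0, div_self hκpos.ne']
    · simp
  · filter_upwards [he1, hκ', S.ae_comp 1 hκ'] with x h1 h2 h3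
    simp only [hχ]
    rw [if_pos h2, if_pos h3, h1, mul_div_assoc]
  · have h1 : ∫ x, v x * conj (χ x) ∂μ = κ := by
      have h2 : inner ℂ ψ v0 = ∫ x, v x * conj ((ψ : X → ℂ) x) ∂μ := by
        rw [L2.inner_def]
        refine integral_congr_ae ?_
        filter_upwards [(memLp_sh S hv 0).coeFn_toLp] with x hx
        rw [hv0, hx]
        show v (S.φ 0 x) * conj ((ψ : X → ℂ) x) = _
        rw [S.zero]
      have h3 : ∫ x, v x * conj (χ x) ∂μ = (κ : ℂ)⁻¹ * ∫ x, v x * conj ((ψ : X → ℂ) x) ∂μ := by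
        rw [← integral_const_mul]
        refine integral_congr_ae ?_
        filter_upwards [hκ'] with x hx
        simp only [hχ]
        rw [if_pos hx, map_div₀, Complex.conj_ofReal]
        field_simp
      rw [h3, ← h2, hψ2]
      have h4 : (((‖ψ‖ : ℝ)) : ℂ) ^ 2 = (κ : ℂ) ^ 2 := by exact_mod_cast hnorm
      rw [h4]
      field_simp
    rw [h1, Complex.norm_real, Real.norm_of_nonneg hκ0, ← hnorm]
    linarith

end Pool.Agent.SqF
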