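import Pool.Agent.SqF.Targets

/-!
# The van der Corput inequality
-/

set_option autoImplicit false

open MeasureTheory Filter Topology
open scoped ComplexConjugate

namespace Pool.Agent.SqF

namespace VDC

lemma sum_range_eq (f : ℤ → ℂ) (H : ℕ) :
    ∑ h ∈ Finset.range H, f (h : ℤ) = ∑ h ∈ Finset.Ico (0 : ℤ) H, f h := by
  rw [← Finset.sum_image (s := Finset.range H) (g := fun n : ℕ => (n : ℤ))
    (f := f) (fun x _ y _ h => Nat.cast_injective (R := ℤ) h)]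
  congr 1
  ext k
  simp only [Finset.mem_image, Finset.mem_range, Finset.mem_Ico]
  constructor
  · rintro ⟨n, hn, rfl⟩
    omega
  · rintro ⟨h1, h2⟩
    exact ⟨k.toNat, by omega, by omega⟩

lemma shift_sum (f : ℤ → ℂ) (H : ℕ) (hf : ∀ h, (h < 0 ∨ (H : ℤ) ≤ h) → f h = 0)
    (α β c : ℤ) (h1 : α + c ≤ 0) (h2 : (H : ℤ) ≤ β + c) :
    ∑ h ∈ Finset.Ico α β, f (h + c) = ∑ h ∈ Finset.range H, f (h : ℤ) := by
  rw [sum_range_eq]
  have h3 : ∑ h ∈ Finset.Ico α β, f (h + c) = ∑ h ∈ Finset.Ico (α + c) (β + c), f h := by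
    rw [← Finset.image_add_right_Ico, Finset.sum_image (fun x _ y _ h => by simpa using h)]
  rw [h3]
  symm
  refine Finset.sum_subset ?_ ?_
  · intro x hx
    rw [Finset.mem_Ico] at hx ⊢
    omega
  · intro x _ hx
    rw [Finset.mem_Ico] at hx
    exact hf x (by omega)

lemma point (a : ℤ → ℂ) (H M : ℕ) (hM : 0 < M) (hMH : M ≤ H)
    (ha : ∀ h, (h < 0 ∨ (H : ℤ) ≤ h) → a h = 0) :
    (M : ℝ) ^ 2 * ‖∑ h ∈ Finset.range H, a (h : ℤ)‖ ^ 2 ≤
      2 * (H : ℝ) * ∑ m ∈ Finset.range M, ∑ m' ∈ Finset.range M,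
        (∑ h ∈ Finset.range H, a (h + ((m : ℤ) - m')) * conj (a h)).re := by
  set I : Finset ℤ := Finset.Ico (1 - (M : ℤ)) H with hI
  have hcard : (I.card : ℝ) ≤ 2 * (H : ℝ) := by
    rw [hI, Int.card_Ico]
    have : ((H : ℤ) - (1 - (M : ℤ))).toNat ≤ 2 * H := by omega
    exact_mod_cast this
  -- the shifted sums
  have h1 : (M : ℂ) * ∑ h ∈ Finset.range H, a (h : ℤ)
      = ∑ h ∈ I, ∑ m ∈ Finset.range M, a (h + m) := by
    rw [Finset.sum_comm]
    rw [← nsmul_eq_mul, ← Finset.card_range M, ← Finset.sum_const, Finset.card_range]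
    refine Finset.sum_congr rfl fun m hm => ?_
    rw [Finset.mem_range] at hm
    exact (shift_sum a H ha _ _ _ (by omega) (by omega)).symm
  have h2 : (M : ℝ) ^ 2 * ‖∑ h ∈ Finset.range H, a (h : ℤ)‖ ^ 2
      = ‖∑ h ∈ I, ∑ m ∈ Finset.range M, a (h + m)‖ ^ 2 := by
    rw [← h1, norm_mul, mul_pow, Complex.norm_natCast]
  rw [h2]
  have h3 : ‖∑ h ∈ I, ∑ m ∈ Finset.range M, a (h + m)‖ ^ 2
      ≤ I.card * ∑ h ∈ I, ‖∑ m ∈ Finset.range M, a (h + m)‖ ^ 2 :=
    (pow_le_pow_left₀ (norm_nonneg _) (norm_sum_le _ _) 2).trans sq_sum_le_card_mul_sum_sq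
  have h4 : ∑ h ∈ I, ‖∑ m ∈ Finset.range M, a (h + m)‖ ^ 2
      = ∑ m ∈ Finset.range M, ∑ m' ∈ Finset.range M,
        (∑ h ∈ Finset.range H, a (h + ((m : ℤ) - m')) * conj (a h)).re := by
    have h5 : ∀ h : ℤ, ‖∑ m ∈ Finset.range M, a (h + m)‖ ^ 2
        = ∑ m ∈ Finset.range M, ∑ m' ∈ Finset.range M, (a (h + m) * conj (a (h + m'))).re := by
      intro h
      have h6 : ((‖∑ m ∈ Finset.range M, a (h + m)‖ ^ 2 : ℝ) : ℂ)
          = ∑ m ∈ Finset.range M, ∑ m' ∈ Finset.range M, (a (h + m) * conj (a (h + m'))) := by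
        rw [← Finset.sum_mul_sum, ← map_sum, Complex.mul_conj, Complex.normSq_eq_norm_sq]
      have h7 := congrArg Complex.re h6
      rw [Complex.ofReal_re] at h7
      rw [h7, Complex.re_sum]
      exact Finset.sum_congr rfl fun m _ => Complex.re_sum _ _
    rw [Finset.sum_congr rfl fun h _ => h5 h, Finset.sum_comm]
    refine Finset.sum_congr rfl fun m hm => ?_
    rw [Finset.sum_comm]
    refine Finset.sum_congr rfl fun m' hm' => ?_
    rw [Finset.mem_range] at hm hm'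
    rw [← Complex.re_sum]
    congr 1
    have h8 := shift_sum (fun k => a (k + ((m : ℤ) - m')) * conj (a k)) H
      (fun k hk => by rw [ha k hk, map_zero, mul_zero]) (1 - (M : ℤ)) H m' (by omega) (by omega)
    rw [← h8]
    refine Finset.sum_congr rfl fun h _ => ?_
    congr 2
    ring
  rw [h4] at h3
  have h9 : 0 ≤ ∑ m ∈ Finset.range M, ∑ m' ∈ Finset.range M,
        (∑ h ∈ Finset.range H, a (h + ((m : ℤ) - m')) * conj (a h)).re := by
    rw [← h4]
    positivity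
  exact h3.trans (mul_le_mul_of_nonneg_right hcard h9)

end VDC

theorem vdc : T_VDC := by
  intro X _ μ _ H M hM hMH v hv hv0
  have hH : (0 : ℝ) < H := by exact_mod_cast lt_of_lt_of_le hM hMH
  have hM' : (0 : ℝ) < M := by exact_mod_cast hM
  have hint : ∀ k l : ℤ, Integrable (fun x => v k x * conj (v l x)) μ := by
    intro k l
    refine Integrable.of_bound (C := 1) ?_ (Eventually.of_forall fun x => ?_)
    · exact ((hv k).meas.mul (Complex.continuous_conj.measurable.comp (hv l).meas)).aestronglyMeasurable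
    · rw [norm_mul, RCLike.norm_conj]
      exact mul_le_one₀ ((hv k).le x) (norm_nonneg _) ((hv l).le x)
  set R : X → ℝ := fun x => ∑ m ∈ Finset.range M, ∑ m' ∈ Finset.range M,
        (∑ h ∈ Finset.range H, v (h + ((m : ℤ) - m')) x * conj (v h x)).re with hR
  have hpt : ∀ x, ‖(H : ℂ)⁻¹ * ∑ h ∈ Finset.range H, v h x‖ ^ 2 ≤
      2 * ((H : ℝ)⁻¹ * ((M : ℝ) ^ 2)⁻¹) * R x := by
    intro x
    have h1 := VDC.point (fun h => v h x) H M hM hMH (fun h hh => hv0 h hh x)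
    have h1' : (M : ℝ) ^ 2 * ‖∑ h ∈ Finset.range H, v h x‖ ^ 2 ≤ 2 * (H : ℝ) * R x := h1
    rw [norm_mul, mul_pow, norm_inv, Complex.norm_natCast]
    have h2 : ‖∑ h ∈ Finset.range H, v h x‖ ^ 2 ≤ 2 * (H : ℝ) * R x / (M : ℝ) ^ 2 := by
      rw [le_div_iff₀ (by positivity)]
      linarith
    calc ((H : ℝ)⁻¹) ^ 2 * ‖∑ h ∈ Finset.range H, v h x‖ ^ 2
        ≤ ((H : ℝ)⁻¹) ^ 2 * (2 * (H : ℝ) * R x / (M : ℝ) ^ 2) := by gcongr
      _ = 2 * ((H : ℝ)⁻¹ * ((M : ℝ) ^ 2)⁻¹) * R x := by field_simp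
  have hint1 : ∀ m m' : ℕ, Integrable
      (fun x => ∑ h ∈ Finset.range H, v (h + ((m : ℤ) - m')) x * conj (v h x)) μ :=
    fun m m' => integrable_finsetSum _ fun h _ => hint _ _
  have hint2 : ∀ m m' : ℕ, Integrable
      (fun x => (∑ h ∈ Finset.range H, v (h + ((m : ℤ) - m')) x * conj (v h x)).re) μ :=
    fun m m' => (hint1 m m').re
  have hRint : Integrable R μ :=
    integrable_finsetSum _ fun m _ => integrable_finsetSum _ fun m' _ => hint2 m m'
  have hle : Q μ (fun x => (H : ℂ)⁻¹ * ∑ h ∈ Finset.range H, v h x)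
      ≤ ∫ x, 2 * ((H : ℝ)⁻¹ * ((M : ℝ) ^ 2)⁻¹) * R x ∂μ := by
    unfold Q
    exact integral_mono_of_nonneg (Eventually.of_forall fun x => by positivity)
      (hRint.const_mul _) (Eventually.of_forall hpt)
  refine hle.trans ?_
  rw [integral_const_mul]
  have hRI : ∫ x, R x ∂μ = ∑ m ∈ Finset.range M, ∑ m' ∈ Finset.range M,
      (∑ h ∈ Finset.range H, ∫ x, v (h + ((m : ℤ) - m')) x * conj (v h x) ∂μ).re := by
    rw [hR]
    rw [integral_finsetSum (Finset.range M)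
      (fun m _ => integrable_finsetSum (Finset.range M) fun m' _ => hint2 m m')]
    refine Finset.sum_congr rfl fun m _ => ?_
    rw [integral_finsetSum (Finset.range M) (fun m' _ => hint2 m m')]
    refine Finset.sum_congr rfl fun m' _ => ?_
    have h3 := integral_re (hint1 m m')
    have h4 : ∫ x, (∑ h ∈ Finset.range H, v (h + ((m : ℤ) - m')) x * conj (v h x)).re ∂μ
        = (∫ x, ∑ h ∈ Finset.range H, v (h + ((m : ℤ) - m')) x * conj (v h x) ∂μ).re := h3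
    rw [h4, integral_finsetSum _ fun h _ => hint _ _]
  rw [hRI]
  have h5 : ∀ m m' : ℕ,
      (∑ h ∈ Finset.range H, ∫ x, v (h + ((m : ℤ) - m')) x * conj (v h x) ∂μ).re
        ≤ (H : ℝ) * ‖(H : ℂ)⁻¹ * ∑ h ∈ Finset.range H,
          ∫ x, v (h + ((m : ℤ) - m')) x * conj (v h x) ∂μ‖ := by
    intro m m'
    rw [norm_mul, norm_inv, Complex.norm_natCast, mul_inv_cancel_left₀ hH.ne']
    exact Complex.re_le_norm _
  calc 2 * ((H : ℝ)⁻¹ * ((M : ℝ) ^ 2)⁻¹) * ∑ m ∈ Finset.range M, ∑ m' ∈ Finset.range M,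
        (∑ h ∈ Finset.range H, ∫ x, v (h + ((m : ℤ) - m')) x * conj (v h x) ∂μ).re
      ≤ 2 * ((H : ℝ)⁻¹ * ((M : ℝ) ^ 2)⁻¹) * ∑ m ∈ Finset.range M, ∑ m' ∈ Finset.range M,
        ((H : ℝ) * ‖(H : ℂ)⁻¹ * ∑ h ∈ Finset.range H,
          ∫ x, v (h + ((m : ℤ) - m')) x * conj (v h x) ∂μ‖) := by
        gcongr with m _ m' _
        exact h5 m m'
    _ = 2 * (((M : ℝ) ^ 2)⁻¹ * ∑ m ∈ Finset.range M, ∑ m' ∈ Finset.range M,
      ‖(H : ℂ)⁻¹ * ∑ h ∈ Finset.range H, ∫ x, v (h + ((m : ℤ) - m')) x * conj (v h x) ∂μ‖) := by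
        simp only [← Finset.mul_sum]
        field_simp

end Pool.Agent.SqF
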