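import Pool.Agent.SqF.Targets
import Pool.Agent.SqF.Basic

/-!
# MP_0b2319_an, part WIN: windows
-/

set_option autoImplicit false

open MeasureTheory Filter Topology
open scoped ComplexConjugate

namespace Pool.Agent.SqF

namespace WIN

lemma norm_sum_Ico_le {E : Type} [NormedAddCommGroup E] {v : ℕ → E} {C : ℝ}
    (h : ∀ n, ‖v n‖ ≤ C) (a b : ℕ) : ‖∑ n ∈ Finset.Ico a b, v n‖ ≤ ((b - a : ℕ) : ℝ) * C := by
  refine (norm_sum_le _ _).trans ?_
  calc ∑ n ∈ Finset.Ico a b, ‖v n‖ ≤ ∑ n ∈ Finset.Ico a b, C :=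
        Finset.sum_le_sum fun n _ => h n
    _ = ((b - a : ℕ) : ℝ) * C := by rw [Finset.sum_const, Nat.card_Ico, nsmul_eq_mul]

lemma shift_bound {v : ℕ → ℂ} (h : ∀ n, ‖v n‖ ≤ 1) (N s : ℕ) :
    ‖avs N v - avs N (fun n => v (n + s))‖ ≤ 2 * s / L N := by
  have h1 : ∑ n ∈ W N, v (n + s) = ∑ n ∈ Finset.Ico (N + s) (N + L N + s), v n := by
    rw [W, Finset.sum_Ico_add']
  have h2 : ∑ n ∈ Finset.Ico N (N + L N), v n + ∑ n ∈ Finset.Ico (N + L N) (N + L N + s), v n =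
      ∑ n ∈ Finset.Ico N (N + L N + s), v n :=
    Finset.sum_Ico_consecutive _ (by omega) (by omega)
  have h3 : ∑ n ∈ Finset.Ico N (N + s), v n + ∑ n ∈ Finset.Ico (N + s) (N + L N + s), v n =
      ∑ n ∈ Finset.Ico N (N + L N + s), v n :=
    Finset.sum_Ico_consecutive _ (by omega) (by omega)
  have h4 : avs N v - avs N (fun n => v (n + s)) = (L N : ℂ)⁻¹ *
      (∑ n ∈ Finset.Ico N (N + s), v n - ∑ n ∈ Finset.Ico (N + L N) (N + L N + s), v n) := by
    unfold avs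
    rw [h1, ← mul_sub]
    congr 1
    rw [W]
    have := h2.trans h3.symm
    linear_combination this
  rw [h4, norm_mul, norm_inv, Complex.norm_natCast]
  have h5 := norm_sum_Ico_le h N (N + s)
  have h6 := norm_sum_Ico_le h (N + L N) (N + L N + s)
  have e5 : N + s - N = s := by omega
  have e6 : N + L N + s - (N + L N) = s := by omega
  rw [e5] at h5
  rw [e6] at h6
  have hL := L_pos' N
  have h7 := norm_sub_le (∑ n ∈ Finset.Ico N (N + s), v n)
    (∑ n ∈ Finset.Ico (N + L N) (N + L N + s), v n)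
  rw [inv_mul_eq_div]
  gcongr
  linarith

end WIN

open WIN in
theorem wsh : T_WSH := by
  intro R hR y ε hε
  have h1 : Tendsto (fun N => 2 * (y : ℝ) * ((R N : ℝ) / L N)) atTop (𝓝 0) := by
    simpa using hR.const_mul (2 * (y : ℝ))
  filter_upwards [h1.eventually_le_const hε] with N hN v hv
  refine (shift_bound hv N (R N * y)).trans (le_trans (le_of_eq ?_) hN)
  push_cast
  ring

open WIN in
theorem block : T_BLOCK := by
  intro E _ _ v C hC hlim
  have hC0 : 0 ≤ C := (norm_nonneg _).trans (hC 0)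
  rw [Metric.tendsto_atTop] at hlim ⊢
  intro δ hδ
  set ε : ℝ := δ / (4 + 2 * C) with hε
  have hε0 : 0 < ε := by positivity
  obtain ⟨N1, hN1⟩ := hlim ε hε0
  have h2 := (L_div_tendsto.eventually_le_const hε0)
  obtain ⟨N2, hN2⟩ := eventually_atTop.1 h2
  set N0 := max (max N1 N2) 1 with hN0
  have hN01 : 1 ≤ N0 := le_max_right _ _
  have hblock : ∀ N, N0 ≤ N → ‖∑ n ∈ Finset.Ico N (N + L N), v n‖ ≤ ε * L N := by
    intro N hN
    have h3 := hN1 N ((le_max_left _ _).trans ((le_max_left _ _).trans hN))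
    rw [dist_zero_right, norm_smul, norm_inv, Real.norm_natCast, W] at h3
    have hL := L_pos' N
    rw [inv_mul_lt_iff₀ hL] at h3
    linarith
  have hLN : ∀ N, N0 ≤ N → (L N : ℝ) ≤ ε * N := by
    intro N hN
    have h3 := hN2 N ((le_max_right _ _).trans ((le_max_left _ _).trans hN))
    have hNp : (0 : ℝ) < N := by
      have : 1 ≤ N := hN01.trans hN
      exact_mod_cast this
    rwa [div_le_iff₀ hNp] at h3
  have hgreedy : ∀ k : ℕ, ∃ M, N0 ≤ M ∧ M ≤ N0 + k ∧ N0 + k < M + L M ∧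
      ‖∑ n ∈ Finset.Ico N0 M, v n‖ ≤ ε * ((M : ℝ) - N0) := by
    intro k
    induction k with
    | zero => exact ⟨N0, le_rfl, by omega, by have := L_pos N0; omega, by simp⟩
    | succ k ih =>
      obtain ⟨M, h1, h2, h3, h4⟩ := ih
      by_cases h5 : N0 + (k + 1) < M + L M
      · exact ⟨M, h1, by omega, h5, h4⟩
      · refine ⟨M + L M, by omega, by omega, by have := L_pos (M + L M); omega, ?_⟩
        rw [← Finset.sum_Ico_consecutive _ h1 (by omega : M ≤ M + L M)]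
        refine (norm_add_le _ _).trans ((add_le_add h4 (hblock M h1)).trans (le_of_eq ?_))
        push_cast
        ring
  have hbig : ∀ N, N0 ≤ N → ‖∑ n ∈ Finset.Ico N0 N, v n‖ ≤ (ε + C * ε) * N := by
    intro N hN
    obtain ⟨M, h1, h2, h3, h4⟩ := hgreedy (N - N0)
    have e1 : N0 + (N - N0) = N := by omega
    rw [e1] at h2 h3
    rw [← Finset.sum_Ico_consecutive _ h1 h2]
    have h5 := norm_sum_Ico_le hC M N
    have h6 : ((N - M : ℕ) : ℝ) ≤ L M := by
      have : N - M ≤ L M := by omega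
      exact_mod_cast this
    have h7 := hLN M h1
    have h8 : (M : ℝ) ≤ N := by exact_mod_cast h2
    have h9 : (0 : ℝ) ≤ N0 := by positivity
    calc ‖∑ n ∈ Finset.Ico N0 M, v n + ∑ n ∈ Finset.Ico M N, v n‖
        ≤ ε * ((M : ℝ) - N0) + ((N - M : ℕ) : ℝ) * C := (norm_add_le _ _).trans (add_le_add h4 h5)
      _ ≤ ε * M + (ε * M) * C := by
          have : ((N - M : ℕ) : ℝ) * C ≤ (ε * M) * C :=
            mul_le_mul_of_nonneg_right (h6.trans h7) hC0
          nlinarith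
      _ ≤ (ε + C * ε) * N := by
          have : 0 ≤ (ε + C * ε) * ((N : ℝ) - M) := by
            apply mul_nonneg (by positivity) (by linarith)
          linarith
  obtain ⟨N3, hN3⟩ := exists_nat_gt (C * N0 / ε)
  refine ⟨max N0 N3, fun N hN => ?_⟩
  have hNN0 : N0 ≤ N := (le_max_left _ _).trans hN
  have hNN3 : N3 ≤ N := (le_max_right _ _).trans hN
  have hNp : (1 : ℝ) ≤ N := by
    have : 1 ≤ N := hN01.trans hNN0
    exact_mod_cast this
  have e1 : Finset.Icc 1 N = Finset.Ico 1 (N + 1) := by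
    ext n; simp
  rw [dist_zero_right, norm_smul, norm_inv, Real.norm_natCast, e1,
    ← Finset.sum_Ico_consecutive _ hN01 (by omega : N0 ≤ N + 1)]
  have h1 := norm_sum_Ico_le hC 1 N0
  have h2 := hbig (N + 1) (by omega)
  have h3 : ((N0 - 1 : ℕ) : ℝ) ≤ N0 := by
    have : N0 - 1 ≤ N0 := by omega
    exact_mod_cast this
  have h4 : C * N0 ≤ ε * N := by
    have h5 : C * N0 / ε < N := hN3.trans_le (by exact_mod_cast hNN3)
    rw [div_lt_iff₀ hε0] at h5
    linarith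
  have h6 : ‖∑ n ∈ Finset.Ico 1 N0, v n + ∑ n ∈ Finset.Ico N0 (N + 1), v n‖ ≤
      ε * N + (ε + C * ε) * (N + 1) := by
    refine (norm_add_le _ _).trans (add_le_add (h1.trans ?_) ?_)
    · have := mul_le_mul_of_nonneg_right h3 hC0
      linarith
    · push_cast at h2
      exact h2
  have h7 : ε * N + (ε + C * ε) * (N + 1) ≤ (3 + 2 * C) * ε * N := by
    have : 0 ≤ (ε + C * ε) * ((N : ℝ) - 1) := mul_nonneg (by positivity) (by linarith)
    nlinarith
  rw [inv_mul_lt_iff₀ (by linarith)]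
  have h8 : (4 + 2 * C) * ε = δ := by
    rw [hε]; field_simp
  have h9 : (3 + 2 * C) * ε < δ := by nlinarith
  calc _ ≤ (3 + 2 * C) * ε * N := h6.trans h7
    _ < N * δ := by nlinarith

theorem rl : T_RL := by
  intro σ ρ hσ0 hσ1 hρ
  have h1 : Tendsto (fun x : ℝ => Real.log x / x ^ (1 - σ)) atTop (𝓝 0) :=
    (isLittleO_log_rpow_atTop (by linarith : (0 : ℝ) < 1 - σ)).tendsto_div_nhds_zero
  have h2 : Tendsto (fun N : ℕ => (N : ℝ) + 2) atTop atTop :=
    tendsto_atTop_add_const_right _ _ tendsto_natCast_atTop_atTop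
  have h3 := (h1.comp h2).const_mul (3 * ρ)
  rw [mul_zero] at h3
  refine squeeze_zero' (Eventually.of_forall fun N => by positivity) ?_ h3
  filter_upwards [eventually_ge_atTop 1] with N hN
  have hN' : (1 : ℝ) ≤ N := by exact_mod_cast hN
  have hN0 : (0 : ℝ) < N := by linarith
  have hlog : 0 < Real.log ((N : ℝ) + 2) := Real.log_pos (by linarith)
  have hL := L_pos' N
  have hLl := div_log_le_L N
  have hfl : ((⌊ρ * (N : ℝ) ^ σ⌋₊ : ℕ) : ℝ) ≤ ρ * (N : ℝ) ^ σ := Nat.floor_le (by positivity)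
  have hd : (0 : ℝ) < (N : ℝ) / Real.log ((N : ℝ) + 2) := by positivity
  have h4 : ((⌊ρ * (N : ℝ) ^ σ⌋₊ : ℕ) : ℝ) / L N ≤
      ρ * (N : ℝ) ^ σ / ((N : ℝ) / Real.log ((N : ℝ) + 2)) := by
    gcongr
  refine h4.trans ?_
  simp only [Function.comp_apply]
  have h5 : ((N : ℝ) + 2) ^ (1 - σ) ≤ 3 * (N : ℝ) ^ (1 - σ) := by
    calc ((N : ℝ) + 2) ^ (1 - σ) ≤ (3 * (N : ℝ)) ^ (1 - σ) :=
          Real.rpow_le_rpow (by positivity) (by linarith) (by linarith)
      _ = (3 : ℝ) ^ (1 - σ) * (N : ℝ) ^ (1 - σ) := Real.mul_rpow (by norm_num) hN0.le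
      _ ≤ 3 * (N : ℝ) ^ (1 - σ) := by
          gcongr
          calc (3 : ℝ) ^ (1 - σ) ≤ (3 : ℝ) ^ (1 : ℝ) :=
                Real.rpow_le_rpow_of_exponent_le (by norm_num) (by linarith)
            _ = 3 := Real.rpow_one 3
  have h6 : (N : ℝ) ^ σ * (N : ℝ) ^ (1 - σ) = N := by
    rw [← Real.rpow_add hN0]; simp
  have hP : (0 : ℝ) < ((N : ℝ) + 2) ^ (1 - σ) := by positivity
  have hQ : (0 : ℝ) < (N : ℝ) ^ (1 - σ) := by positivity
  rw [div_div_eq_mul_div, mul_div_assoc', div_le_div_iff₀ hN0 hP]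
  calc ρ * (N : ℝ) ^ σ * Real.log ((N : ℝ) + 2) * ((N : ℝ) + 2) ^ (1 - σ)
      ≤ ρ * (N : ℝ) ^ σ * Real.log ((N : ℝ) + 2) * (3 * (N : ℝ) ^ (1 - σ)) := by gcongr
    _ = 3 * ρ * Real.log ((N : ℝ) + 2) * ((N : ℝ) ^ σ * (N : ℝ) ^ (1 - σ)) := by ring
    _ = 3 * ρ * Real.log ((N : ℝ) + 2) * N := by rw [h6]

end Pool.Agent.SqF
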