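import Pool.Agent.SqF.Targets
import Pool.Agent.SqF.Basic

/-!
# MP_0b2319_an: weak limits along ultrafilters
-/

set_option autoImplicit false

open MeasureTheory Filter Topology
open scoped ComplexConjugate

namespace Pool.Agent.SqF.WLIM

variable {X : Type} [MeasurableSpace X] {μ : Measure X}

lemma B1.memLp [IsProbabilityMeasure μ] {f : X → ℂ} (hf : B1 f) : MemLp f 2 μ :=
  MemLp.of_bound hf.meas.aestronglyMeasurable 1 (Eventually.of_forall hf.le)

lemma norm_toLp_le [IsProbabilityMeasure μ] {f : X → ℂ} (hf : B1 f) :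
    ‖(B1.memLp hf (μ := μ)).toLp f‖ ≤ 1 := by
  rw [Lp.norm_toLp]
  have h := eLpNorm_le_of_ae_bound (μ := μ) (p := 2) (C := 1) (Eventually.of_forall hf.le)
  simp only [measure_univ, ENNReal.one_rpow, one_mul, ENNReal.ofReal_one] at h
  exact ENNReal.toReal_le_of_le_ofReal zero_le_one (by simpa using h)

/-- the functional given by a bounded function -/
lemma inner_toLp [IsProbabilityMeasure μ] {f g : X → ℂ} (hf : B1 f) (hg : B1 g) :
    inner ℂ ((B1.memLp hf (μ := μ)).toLp f) ((B1.memLp hg (μ := μ)).toLp g) =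
      ∫ x, conj (f x) * g x ∂μ := by
  rw [L2.inner_def]
  refine integral_congr_ae ?_
  filter_upwards [(B1.memLp hf (μ := μ)).coeFn_toLp, (B1.memLp hg (μ := μ)).coeFn_toLp]
    with x h1 h2
  rw [h1, h2, RCLike.inner_apply]
  ring

/-- weak limits in `L^2` -/
lemma exists_weak [IsProbabilityMeasure μ] (G : ℕ → X → ℂ) (hG : ∀ N, B1 (G N))
    (𝒰 : Ultrafilter ℕ) : ∃ F : X → ℂ, Measurable F ∧ MemLp F 2 μ ∧
    ∀ ψ : X → ℂ, B1 ψ → Tendsto (fun N => ∫ x, G N x * ψ x ∂μ) (𝒰 : Filter ℕ)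
      (𝓝 (∫ x, F x * ψ x ∂μ)) := by
  set v : ℕ → Lp ℂ 2 μ := fun N => (B1.memLp (hG N).conj' (μ := μ)).toLp _ with hv
  set d : ℕ → WeakDual ℂ (Lp ℂ 2 μ) := fun N =>
    StrongDual.toWeakDual (InnerProductSpace.toDual ℂ (Lp ℂ 2 μ) (v N)) with hd
  have hc := WeakDual.isCompact_closedBall (0 : StrongDual ℂ (Lp ℂ 2 μ)) 1
  have hm : (↑(𝒰.map d) : Filter (WeakDual ℂ (Lp ℂ 2 μ))) ≤
      𝓟 (WeakDual.toStrongDual ⁻¹' Metric.closedBall (0 : StrongDual ℂ (Lp ℂ 2 μ)) 1) := by
    rw [Ultrafilter.coe_map, le_principal_iff, mem_map]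
    refine Filter.univ_mem' fun N => ?_
    simp only [Set.mem_preimage, Metric.mem_closedBall, dist_zero_right, hd]
    have : ‖InnerProductSpace.toDual ℂ (Lp ℂ 2 μ) (v N)‖ ≤ 1 := by
      rw [LinearIsometryEquiv.norm_map]
      exact norm_toLp_le (hG N).conj'
    exact this
  obtain ⟨φ, -, hφ⟩ := hc.ultrafilter_le_nhds (𝒰.map d) hm
  have hφ' : Tendsto d (𝒰 : Filter ℕ) (𝓝 φ) := hφ
  set F' : Lp ℂ 2 μ := (InnerProductSpace.toDual ℂ (Lp ℂ 2 μ)).symm (WeakDual.toStrongDual φ)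
    with hF'
  have hF'm : Measurable (F' : X → ℂ) := (Lp.stronglyMeasurable F').measurable
  refine ⟨fun x => conj (F' x), Complex.continuous_conj.measurable.comp hF'm, ?_, ?_⟩
  · exact (Lp.memLp F').star
  · intro ψ hψ
    have h1 : Tendsto (fun N => d N ((B1.memLp hψ (μ := μ)).toLp ψ)) (𝒰 : Filter ℕ)
        (𝓝 (φ ((B1.memLp hψ (μ := μ)).toLp ψ))) :=
      ((WeakDual.eval_continuous _).tendsto φ).comp hφ'
    have h2 : ∀ N, d N ((B1.memLp hψ (μ := μ)).toLp ψ) = ∫ x, G N x * ψ x ∂μ := by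
      intro N
      have h3 : d N ((B1.memLp hψ (μ := μ)).toLp ψ) =
          inner ℂ (v N) ((B1.memLp hψ (μ := μ)).toLp ψ) :=
        InnerProductSpace.toDual_apply_apply
      rw [h3, hv, inner_toLp (hG N).conj' hψ]
      simp
    have h4 : φ ((B1.memLp hψ (μ := μ)).toLp ψ) = ∫ x, conj (F' x) * ψ x ∂μ := by
      have h5 : φ ((B1.memLp hψ (μ := μ)).toLp ψ) =
          inner ℂ F' ((B1.memLp hψ (μ := μ)).toLp ψ) := by
        rw [hF', InnerProductSpace.toDual_symm_apply]
        rfl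
      rw [h5, L2.inner_def]
      refine integral_congr_ae ?_
      filter_upwards [(B1.memLp hψ (μ := μ)).coeFn_toLp] with x h1
      rw [h1, RCLike.inner_apply]
      ring
    rw [← h4]
    exact h1.congr h2

lemma ae_le_one [IsProbabilityMeasure μ] {F : X → ℂ} (hFm : Measurable F) (hF : Integrable F μ)
    (h : ∀ ψ : X → ℂ, B1 ψ → ‖∫ x, F x * ψ x ∂μ‖ ≤ ∫ x, ‖ψ x‖ ∂μ) : ∀ᵐ x ∂μ, ‖F x‖ ≤ 1 := by
  set S : Set X := {x | 1 < ‖F x‖} with hS
  have hSm : MeasurableSet S := measurableSet_lt measurable_const hFm.norm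
  set ψ : X → ℂ := S.indicator (fun x => conj (F x) / (‖F x‖ : ℂ)) with hψ
  have hψn : ∀ x, ‖ψ x‖ = S.indicator (fun _ => (1 : ℝ)) x := by
    intro x
    rw [hψ]
    by_cases hx : x ∈ S
    · rw [Set.indicator_of_mem hx, Set.indicator_of_mem hx, norm_div, RCLike.norm_conj,
        Complex.norm_real, norm_norm]
      have : (1 : ℝ) < ‖F x‖ := hx
      exact div_self (by linarith)
    · rw [Set.indicator_of_notMem hx, Set.indicator_of_notMem hx, norm_zero]
  have hψB : B1 ψ := by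
    refine ⟨Measurable.indicator ?_ hSm, fun x => ?_⟩
    · exact (Complex.continuous_conj.measurable.comp hFm).div
        (Complex.continuous_ofReal.measurable.comp hFm.norm)
    · rw [hψn]
      exact Set.indicator_le_self' (fun _ _ => zero_le_one) x
  have h1 := h ψ hψB
  have h2 : ∀ x, F x * ψ x = ((S.indicator (fun x => ‖F x‖) x : ℝ) : ℂ) := by
    intro x
    rw [hψ]
    by_cases hx : x ∈ S
    · rw [Set.indicator_of_mem hx, Set.indicator_of_mem hx]
      have h3 : (1 : ℝ) < ‖F x‖ := hx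
      have h4 : (‖F x‖ : ℂ) ≠ 0 := by
        exact_mod_cast (by linarith : ‖F x‖ ≠ 0)
      rw [mul_div_assoc', Complex.mul_conj, Complex.normSq_eq_norm_sq]
      push_cast
      field_simp
    · rw [Set.indicator_of_notMem hx, Set.indicator_of_notMem hx]; simp
  simp only [h2, hψn] at h1
  rw [integral_complex_ofReal, Complex.norm_real] at h1
  have i1 : Integrable (S.indicator (fun x => ‖F x‖)) μ := hF.norm.indicator hSm
  have i2 : Integrable (S.indicator (fun _ : X => (1 : ℝ))) μ :=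
    (integrable_const 1).indicator hSm
  have h5 : ∫ x, (S.indicator (fun x => ‖F x‖) x - S.indicator (fun _ => (1 : ℝ)) x) ∂μ ≤ 0 := by
    rw [integral_sub i1 i2]
    have := (le_abs_self _).trans h1
    linarith
  have h6 : ∀ x, 0 ≤ S.indicator (fun x => ‖F x‖) x - S.indicator (fun _ => (1 : ℝ)) x := by
    intro x
    by_cases hx : x ∈ S
    · rw [Set.indicator_of_mem hx, Set.indicator_of_mem hx]
      have h3 : (1 : ℝ) < ‖F x‖ := hx
      linarith
    · rw [Set.indicator_of_notMem hx, Set.indicator_of_notMem hx]; simp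
  have h7 := le_antisymm h5 (integral_nonneg h6)
  rw [integral_eq_zero_iff_of_nonneg h6 (i1.sub i2)] at h7
  filter_upwards [h7] with x hx
  by_contra hcon
  push Not at hcon
  have hxS : x ∈ S := hcon
  simp only [Set.indicator_of_mem hxS, Pi.zero_apply] at hx
  linarith

end Pool.Agent.SqF.WLIM

namespace Pool.Agent.SqF

open WLIM

theorem wlim : T_WLIM := by
  intro X _ μ _ G hG 𝒰
  obtain ⟨F₀, hm, hL, hlim⟩ := exists_weak (μ := μ) G hG 𝒰
  have hint : Integrable F₀ μ := hL.integrable one_le_two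
  have hle : ∀ᵐ x ∂μ, ‖F₀ x‖ ≤ 1 := by
    refine ae_le_one hm hint fun ψ hψ => ?_
    refine le_of_tendsto (hlim ψ hψ).norm (Eventually.of_forall fun N => ?_)
    refine norm_integral_le_of_norm_le hψ.integrable.norm (Eventually.of_forall fun x => ?_)
    rw [norm_mul]
    exact mul_le_of_le_one_left (norm_nonneg _) ((hG N).le x)
  classical
  refine ⟨fun x => if ‖F₀ x‖ ≤ 1 then F₀ x else 0, ⟨?_, fun x => ?_⟩, fun ψ hψ => ?_⟩
  · exact Measurable.ite (measurableSet_le hm.norm measurable_const) hm measurable_const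
  · split_ifs with h
    · exact h
    · simp
  · have : ∫ x, (if ‖F₀ x‖ ≤ 1 then F₀ x else 0) * ψ x ∂μ = ∫ x, F₀ x * ψ x ∂μ := by
      refine integral_congr_ae ?_
      filter_upwards [hle] with x hx
      rw [if_pos hx]
    rw [this]
    exact hlim ψ hψ

end Pool.Agent.SqF
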