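import Mathlib

/-!
# MP_0b2319_an: definitions used by all parts

Convergence of multiple averages along squares of integer parts of fractional powers.
See `Blueprint.lean.txt` in this folder for the mathematical proof and the split into parts.
-/

set_option autoImplicit false

open MeasureTheory Filter Topology
open scoped ComplexConjugate

namespace Pool.Agent.SqF

/-! ## Exponential, exponent sequences, windows -/

/-- `e x = exp(2 pi i x)` -/
noncomputable def e (x : ℝ) : ℂ := Complex.exp ((2 * Real.pi * x : ℝ) * Complex.I)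

/-- the exponent sequence `floor(n^c)^2` -/
noncomputable def b (c : ℝ) (n : ℕ) : ℤ := ⌊(n : ℝ) ^ c⌋ ^ 2

/-- length of the window starting at `N` -/
noncomputable def L (N : ℕ) : ℕ := ⌊(N : ℝ) / Real.log ((N : ℝ) + 2)⌋₊ + 1

/-- the window `[N, N + L N)` -/
noncomputable def W (N : ℕ) : Finset ℕ := Finset.Ico N (N + L N)

/-- window average of complex numbers -/
noncomputable def avs (N : ℕ) (v : ℕ → ℂ) : ℂ := (L N : ℂ)⁻¹ * ∑ n ∈ W N, v n

/-- window average of functions -/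
noncomputable def av {X : Type} (N : ℕ) (v : ℕ → X → ℂ) : X → ℂ :=
  fun x => (L N : ℂ)⁻¹ * ∑ n ∈ W N, v n x

/-! ## Measure-preserving actions of the integers -/

/-- a measure-preserving action of the integers -/
structure Sys (X : Type) [MeasurableSpace X] (μ : Measure X) where
  φ : ℤ → X → X
  zero : ∀ x, φ 0 x = x
  add : ∀ m n x, φ (m + n) x = φ m (φ n x)
  mp : ∀ n, MeasurePreserving (φ n) μ μ

/-- measurable functions bounded by one -/
structure B1 {X : Type} [MeasurableSpace X] (f : X → ℂ) : Prop where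
  meas : Measurable f
  le : ∀ x, ‖f x‖ ≤ 1

/-- the square of the `L^2` norm -/
noncomputable def Q {X : Type} [MeasurableSpace X] (μ : Measure X) (F : X → ℂ) : ℝ :=
  ∫ x, ‖F x‖ ^ 2 ∂μ

/-! ## Limits along ultrafilters and the seminorms -/

/-- limit along an ultrafilter of a (bounded) real sequence -/
noncomputable def ulim (𝒰 : Ultrafilter ℕ) (a : ℕ → ℝ) : ℝ := limUnder (𝒰 : Filter ℕ) a

/-- `V S s f` is a power of the Gowers-Host-Kra seminorm of order `s+1` of `f` (with ergodic `S` in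
mind): `V 0 f = |int f|^2`, `V (s+1) f = ulim_H E_{h,h'<H} V s (f o phi h * conj (f o phi h'))`. -/
noncomputable def V {X : Type} [MeasurableSpace X] {μ : Measure X} (S : Sys X μ) :
    ℕ → (X → ℂ) → ℝ
  | 0, f => ‖∫ x, f x ∂μ‖ ^ 2
  | s + 1, f => ulim (hyperfilter ℕ) fun H => ((H : ℝ) ^ 2)⁻¹ *
      ∑ h ∈ Finset.range H, ∑ h' ∈ Finset.range H,
        V S s (fun x => f (S.φ h x) * conj (f (S.φ h' x)))

/-- totally uniform functions -/
def TU {X : Type} [MeasurableSpace X] {μ : Measure X} (S : Sys X μ) (f : X → ℂ) : Prop :=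
  ∀ s, V S s f = 0

/-- unimodular eigenfunctions with eigenvalue `e α` -/
structure Eig {X : Type} [MeasurableSpace X] {μ : Measure X} (S : Sys X μ) (χ : X → ℂ) (α : ℝ) :
    Prop where
  meas : Measurable χ
  nm : ∀ x, ‖χ x‖ = 1
  eig : ∀ᵐ x ∂μ, χ (S.φ 1 x) = e α * χ x

/-- orthogonal to all functions invariant under some `phi r`, `r >= 1` -/
def OrthRat {X : Type} [MeasurableSpace X] {μ : Measure X} (S : Sys X μ) (f : X → ℂ) : Prop :=
  ∀ r : ℕ, 0 < r → ∀ G : X → ℂ, B1 G → (∀ᵐ x ∂μ, G (S.φ r x) = G x) →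
    ∫ x, f x * conj (G x) ∂μ = 0

/-! ## Boxes and cubes -/

/-- the box `prod_j [0, H_j)` -/
def box {r : ℕ} (H : Fin r → ℕ) : Finset (Fin r → ℕ) :=
  Fintype.piFinset fun j => Finset.range (H j)

/-- average over a box -/
noncomputable def boxE {E : Type} [AddCommGroup E] [Module ℝ E] {r : ℕ} (H : Fin r → ℕ)
    (F : (Fin r → ℕ) → E) : E :=
  ((box H).card : ℝ)⁻¹ • ∑ h ∈ box H, F h

/-- multiplicative alternating product of `A` over the cube with corners `h`, `h'`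
(the vertex `h` occurs without conjugation) -/
noncomputable def cb : (r : ℕ) → ((Fin r → ℕ) → ℂ) → (Fin r → ℕ) → (Fin r → ℕ) → ℂ
  | 0, A, h, _ => A h
  | r + 1, A, h, h' =>
      cb r (fun t => A (Fin.cons (h 0) t) * conj (A (Fin.cons (h' 0) t))) (Fin.tail h) (Fin.tail h')

/-- additive alternating sum over the cube with corners `h`, `h'` (sign `+` at `h`) -/
noncomputable def acb : (r : ℕ) → ((Fin r → ℕ) → ℝ) → (Fin r → ℕ) → (Fin r → ℕ) → ℝ
  | 0, a, h, _ => a h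
  | r + 1, a, h, h' =>
      acb r (fun t => a (Fin.cons (h 0) t) - a (Fin.cons (h' 0) t)) (Fin.tail h) (Fin.tail h')

/-- sum of the coordinates, as an integer -/
def sm {r : ℕ} (h : Fin r → ℕ) : ℤ := ∑ j, (h j : ℤ)

/-- the cube function `F_{h,h'}` -/
noncomputable def cubeF {X : Type} [MeasurableSpace X] {μ : Measure X} (S : Sys X μ) (r : ℕ)
    (F : X → ℂ) (h h' : Fin r → ℕ) : X → ℂ :=
  fun x => cb r (fun t => F (S.φ (sm t) x)) h h'

/-- vertices of the cube: coordinate `l` is `h' l` if `ω l`, and `h l` otherwise -/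
def vtx {r : ℕ} (h h' : Fin r → ℕ) (ω : Fin r → Bool) : Fin r → ℕ :=
  fun l => if ω l then h' l else h l

/-! ## Functions with finitely many branches of derivatives (floor polynomials) -/

/-- `GP j B G`: `G` behaves like the integer part of a polynomial of degree `<= j`, every
difference having at most `B` branches -/
def GP : ℕ → ℕ → (ℤ → ℤ) → Prop
  | 0, _, G => ∃ a : ℤ, ∀ h, G h = a
  | j + 1, B, G => ∀ r : ℤ, ∃ F : Fin B → ℤ → ℤ, (∀ i, GP j B (F i)) ∧
      ∀ h, ∃ i, G (h + r) - G h = F i h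

/-- `P` agrees on `A` with a `GP j B` function -/
def GPon (j B : ℕ) (A : Set ℤ) (P : ℤ → ℤ) : Prop := ∃ G, GP j B G ∧ ∀ h ∈ A, P h = G h

/-- combinatorial data of a family of exponents -/
structure Fam (ι κ : Type) where
  /-- the exponents -/
  P : ι → ℤ → ℤ
  /-- the class of an exponent -/
  cl : ι → κ
  /-- the degree of a class -/
  dg : κ → ℕ
  /-- the designated index -/
  i0 : ι
  /-- `D j` is the degree of `P i0 - P j`; `D i0` is the degree of `P i0` -/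
  D : ι → ℕ
  /-- `k j` is the leading coefficient of `P i0 - P j`; `k i0` is that of `P i0` -/
  k : ι → ℤ

/-- the conditions on a family, on the set `A` -/
structure Fam.Ok {ι κ : Type} (F : Fam ι κ) (K B : ℕ) (A : Set ℤ) : Prop where
  dg_pos : ∀ j, 1 ≤ F.dg (F.cl j)
  dg_le : ∀ j, F.dg (F.cl j) ≤ F.D F.i0
  D0 : F.dg (F.cl F.i0) = F.D F.i0
  gp : ∀ j, GPon (F.dg (F.cl j)) B A (F.P j)
  same : ∀ j j', F.cl j = F.cl j' →
    GPon (F.dg (F.cl j) - 1) B A (fun h => F.P j h - F.P j' h)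
  lead : GPon (F.D F.i0 - 1) B A (fun h => F.P F.i0 h - F.k F.i0 * h ^ F.D F.i0)
  D_pos : ∀ j, 1 ≤ F.D j
  D_le : ∀ j, F.D j ≤ F.D F.i0
  k_ne : ∀ j, F.k j ≠ 0
  k_le : ∀ j, |F.k j| ≤ K
  diff : ∀ j, j ≠ F.i0 →
    GPon (F.D j - 1) B A (fun h => F.P F.i0 h - F.P j h - F.k j * h ^ F.D j)
  cls : ∀ j, j ≠ F.i0 → (F.cl j = F.cl F.i0 ↔ F.D j < F.D F.i0)

/-- the piece of `A` with shift `r` and branch pattern `π` -/
def piece {n : ℕ} (A : Set ℤ) (r : ℤ) (pc : ℤ → Fin n) (π : Fin n) : Set ℤ :=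
  {h | h ∈ A ∧ h + r ∈ A ∧ pc h = π}

/-- what one van der Corput step has to produce: the shift is `r`, the exponent `P js` is
subtracted, the new designated index is `(i0, b0)`; `true` stands for the shifted copy -/
def StepGoal {ι κ : Type} [Fintype ι] [Fintype κ] (F : Fam ι κ) (A : Set ℤ) (js : ι) (b0 : Bool)
    (r : ℤ) (K' B' : ℕ) : Prop :=
  ∃ (n : ℕ) (pc : ℤ → Fin n), n ≤ B' ∧ ∀ π : Fin n,
    ∃ (keep : ι × Bool → Prop) (κ' : Type) (_ : Fintype κ') (F' : Fam {x // keep x} κ'),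
      F'.i0.1 = (F.i0, b0) ∧
      F'.Ok K' B' (piece A r pc π) ∧
      (∀ x h, F'.P x h = F.P x.1.1 (if x.1.2 then h + r else h) - F.P js h) ∧
      (∀ x : ι × Bool, ¬ keep x → ∃ a : ℤ, ∀ h ∈ piece A r pc π,
        F.P x.1 (if x.2 then h + r else h) - F.P js h = a) ∧
      ∃ d ∈ (Finset.univ : Finset κ).val.map F.dg, 1 ≤ d ∧
        (Finset.univ : Finset κ').val.map F'.dg ≤
          ((Finset.univ : Finset κ).val.map F.dg).erase d +
            Multiset.replicate (2 * Fintype.card ι) (d - 1)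

/-! ## Polynomial approximation in windows -/

/-- `x (n + R_N y)` is approximately the polynomial `sum_j θ N n j y^j` of degree `<= D`,
uniformly for `n` in the window `W N`, for every fixed `y` -/
def PA (R : ℕ → ℕ) (D : ℕ) (x : ℕ → ℝ) (θ : ℕ → ℕ → ℕ → ℝ) : Prop :=
  ∀ y : ℕ, ∀ ε > (0 : ℝ), ∀ᶠ N in atTop, ∀ n ∈ W N,
    |x (n + R N * y) - ∑ j ∈ Finset.range (D + 1), θ N n j * (y : ℝ) ^ j| ≤ ε

/-- the coefficient number `D` tends to `lam`, uniformly in the window -/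
def Lead (D : ℕ) (θ : ℕ → ℕ → ℕ → ℝ) (lam : ℝ) : Prop :=
  ∀ ε > (0 : ℝ), ∀ᶠ N in atTop, ∀ n ∈ W N, |θ N n D - lam| ≤ ε

/-- generalized binomial coefficient -/
noncomputable def bin (c : ℝ) (D : ℕ) : ℝ :=
  (∏ i ∈ Finset.range D, (c - (i : ℝ))) / (D.factorial : ℝ)

/-! ## Scalar weights -/

/-- data of a product of weights `e(β floor(n^c)^2)` (if `ty`) or `e(β n^c)` (if not `ty`) -/
structure Wts (ι : Type) where
  c : ι → ℝ
  ty : ι → Bool
  β : ι → ℝ

/-- the phase of the weight -/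
noncomputable def Wts.ph {ι : Type} [Fintype ι] (w : Wts ι) (n : ℕ) : ℝ :=
  ∑ i, if w.ty i then w.β i * (b (w.c i) n : ℝ) else w.β i * (n : ℝ) ^ w.c i

/-- the weight -/
noncomputable def Wts.w {ι : Type} [Fintype ι] (w : Wts ι) (n : ℕ) : ℂ := e (w.ph n)

/-- admissible weights -/
structure Wts.Ok {ι : Type} (w : Wts ι) : Prop where
  inj : Function.Injective w.c
  pos : ∀ i, 0 < w.c i
  nonint : ∀ i, ∀ m : ℤ, w.c i ≠ m
  irr : ∀ i, w.ty i = true → Irrational (w.β i)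
  ne : ∀ i, w.ty i = false → w.β i ≠ 0

/-- admissible exponents -/
structure Exps {m : ℕ} (c : Fin m → ℝ) : Prop where
  mono : StrictMono c
  pos : ∀ i, 0 < c i
  nonint : ∀ i, ∀ z : ℤ, c i ≠ z

/-! ## Hypotheses and the dual class in the degree lowering argument -/

/-- the multiple average with general sequences -/
noncomputable def mav {X : Type} [MeasurableSpace X] {μ : Measure X} (S : Sys X μ) {m : ℕ}
    (bs : Fin m → ℕ → ℤ) (w : ℕ → ℂ) (g : Fin m → X → ℂ) (N : ℕ) : X → ℂ :=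
  av N fun n x => w n * ∏ i, g i (S.φ (bs i n) x)

/-- the multiple average with general sequences and a last sequence `bm` -/
noncomputable def mav1 {X : Type} [MeasurableSpace X] {μ : Measure X} (S : Sys X μ) {m : ℕ}
    (bs : Fin m → ℕ → ℤ) (bm : ℕ → ℤ) (w : ℕ → ℂ) (g : Fin m → X → ℂ) (f : X → ℂ) (N : ℕ) :
    X → ℂ :=
  av N fun n x => w n * (∏ i, g i (S.φ (bs i n) x)) * f (S.φ (bm n) x)

/-- hypothesis (A1): totally uniform functions do not contribute at the last place -/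
def A1 {X : Type} [MeasurableSpace X] {μ : Measure X} (S : Sys X μ) {m : ℕ}
    (bs : Fin m → ℕ → ℤ) (bm : ℕ → ℤ) (w : ℕ → ℂ) : Prop :=
  ∀ f : X → ℂ, B1 f → TU S f → ∀ g : Fin m → X → ℂ, (∀ i, B1 (g i)) →
    Tendsto (fun N => Q μ (mav1 S bs bm w g f N)) atTop (𝓝 0)

/-- hypothesis (A3): minor arcs -/
def A3 {X : Type} [MeasurableSpace X] {μ : Measure X} (S : Sys X μ) {m : ℕ}
    (bs : Fin m → ℕ → ℤ) (bm : ℕ → ℤ) (w : ℕ → ℂ) : Prop :=
  ∀ c > (0 : ℝ), ∃ Λ : Finset ℚ, ∀ α : ℝ, (∀ q ∈ Λ, ∀ z : ℤ, α ≠ q + z) →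
    ∀ g : Fin m → X → ℂ, (∀ i, B1 (g i)) →
      ∀ᶠ N in atTop, Q μ (mav S bs (fun n => w n * e (α * bm n)) g N) ≤ c

/-- the dual class: `F` is the weak limit along `𝒰` of
`F_N = sum_a p_a E_n conj(w n) phi(-bm n) (g_{N,a} prod_i f_{a,i} o phi(b_i n))` -/
def IsDual {X : Type} [MeasurableSpace X] {μ : Measure X} (S : Sys X μ) {m : ℕ}
    (bs : Fin m → ℕ → ℤ) (bm : ℕ → ℤ) (w : ℕ → ℂ) (𝒰 : Ultrafilter ℕ) (F : X → ℂ) : Prop :=
  B1 F ∧ ∃ (A : Type) (_ : Fintype A) (p : A → ℝ) (g : ℕ → A → X → ℂ) (f : A → Fin m → X → ℂ),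
    (∀ a, 0 ≤ p a) ∧ ∑ a, p a ≤ 1 ∧ (∀ N a, B1 (g N a)) ∧ (∀ a i, B1 (f a i)) ∧
    ∀ ψ : X → ℂ, B1 ψ →
      Tendsto (fun N => ∑ a, (p a : ℂ) * avs N fun n => conj (w n) *
        ∫ x, g N a x * (∏ i, f a i (S.φ (bs i n) x)) * ψ (S.φ (bm n) x) ∂μ)
        (𝒰 : Filter ℕ) (𝓝 (∫ x, F x * ψ x ∂μ))

end Pool.Agent.SqF
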