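import Pool.Agent.SqF.Targets

set_option autoImplicit false

open MeasureTheory Filter Topology ProbabilityTheory
open scoped ENNReal

namespace Pool.Agent.SqF.ERGD

section basics

variable {Ω : Type} [MeasurableSpace Ω] {μ : Measure Ω} [IsProbabilityMeasure μ] {T : Ω → Ω}

omit [IsProbabilityMeasure μ] in
lemma meas_avg (hT : Measurable T) {f : Ω → ℝ} (hf : Measurable f) (n : ℕ) :
    Measurable (birkhoffAverage ℝ T f n) := by
  have h1 : Measurable (fun x => (n : ℝ)⁻¹ * ∑ k ∈ Finset.range n, f (T^[k] x)) := by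
    refine Measurable.const_mul ?_ _
    refine Finset.measurable_fun_sum _ fun k _ => ?_
    exact hf.comp (hT.iterate k)
  exact h1

omit [IsProbabilityMeasure μ] in
lemma iter_ae (hT : MeasurePreserving T μ μ) (F : Lp ℝ 2 μ) (n : ℕ) :
    ((⇑(Lp.compMeasurePreservingₗᵢ ℝ T hT))^[n] F : Lp ℝ 2 μ) =ᵐ[μ] fun x => F (T^[n] x) := by
  induction n with
  | zero => simp
  | succ n ih =>
    rw [Function.iterate_succ_apply']
    set G : Lp ℝ 2 μ := (⇑(Lp.compMeasurePreservingₗᵢ ℝ T hT))^[n] F with hG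
    have h1 : ((Lp.compMeasurePreservingₗᵢ ℝ T hT) G : Lp ℝ 2 μ) =ᵐ[μ] G ∘ T :=
      Lp.coeFn_compMeasurePreserving G hT
    have h2 : (G ∘ T : Ω → ℝ) =ᵐ[μ] (fun x => F (T^[n] x)) ∘ T :=
      hT.quasiMeasurePreserving.ae_eq_comp ih
    filter_upwards [h1, h2] with x hx1 hx2
    rw [hx1, hx2]
    simp [Function.iterate_succ_apply]

omit [IsProbabilityMeasure μ] in
lemma avg_ae (hT : MeasurePreserving T μ μ) (f : Ω → ℝ) (hf : MemLp f 2 μ) (n : ℕ) :
    (birkhoffAverage ℝ (⇑(Lp.compMeasurePreservingₗᵢ ℝ T hT)) _root_.id n (hf.toLp f) : Lp ℝ 2 μ)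
      =ᵐ[μ] birkhoffAverage ℝ T f n := by
  have h1 : ∀ k, ((⇑(Lp.compMeasurePreservingₗᵢ ℝ T hT))^[k] (hf.toLp f) : Lp ℝ 2 μ)
      =ᵐ[μ] fun x => f (T^[k] x) := by
    intro k
    have h2 : (fun x => (hf.toLp f) (T^[k] x)) =ᵐ[μ] fun x => f (T^[k] x) :=
      (hT.iterate k).quasiMeasurePreserving.ae_eq_comp hf.coeFn_toLp
    exact (iter_ae hT _ k).trans h2
  have h3 : ((∑ k ∈ Finset.range n, (⇑(Lp.compMeasurePreservingₗᵢ ℝ T hT))^[k] (hf.toLp f) :
      Lp ℝ 2 μ) : Ω → ℝ) =ᵐ[μ] fun x => ∑ k ∈ Finset.range n, f (T^[k] x) := by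
    induction n with
    | zero =>
      simp only [Finset.range_zero, Finset.sum_empty]
      exact Lp.coeFn_zero ℝ 2 μ
    | succ n ih =>
      rw [Finset.sum_range_succ]
      filter_upwards [Lp.coeFn_add (∑ k ∈ Finset.range n,
        (⇑(Lp.compMeasurePreservingₗᵢ ℝ T hT))^[k] (hf.toLp f))
        ((⇑(Lp.compMeasurePreservingₗᵢ ℝ T hT))^[n] (hf.toLp f)), ih, h1 n] with x a1 a2 a3
      rw [a1, Pi.add_apply, a2, a3, Finset.sum_range_succ]
  unfold birkhoffAverage birkhoffSum
  simp only [_root_.id]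
  filter_upwards [Lp.coeFn_smul ((n : ℝ)⁻¹) (∑ k ∈ Finset.range n,
        (⇑(Lp.compMeasurePreservingₗᵢ ℝ T hT))^[k] (hf.toLp f)), h3] with x a1 a2
  rw [a1, Pi.smul_apply, a2]

/-- along a subsequence the averages converge almost everywhere -/
lemma exists_subseq (hT : MeasurePreserving T μ μ) (f : Ω → ℝ) (hf : Measurable f)
    (hb : ∀ x, |f x| ≤ 1) :
    ∃ ns : ℕ → ℕ, StrictMono ns ∧ ∀ᵐ x ∂μ, ∃ c : ℝ,
      Tendsto (fun j => birkhoffAverage ℝ T f (ns j) x) atTop (𝓝 c) := by
  have hm : MemLp f 2 μ := MemLp.of_bound hf.aestronglyMeasurable 1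
    (Eventually.of_forall fun x => by simpa using hb x)
  set U := Lp.compMeasurePreservingₗᵢ ℝ T hT (p := 2) (E := ℝ) with hU
  have hU1 : ‖U.toContinuousLinearMap‖ ≤ 1 := U.norm_toContinuousLinearMap_le
  have h0 := U.toContinuousLinearMap.tendsto_birkhoffAverage_orthogonalProjection hU1 (hm.toLp f)
  set P : Lp ℝ 2 μ := ((U.toContinuousLinearMap.eqLocus
    (1 : Lp ℝ 2 μ →L[ℝ] Lp ℝ 2 μ)).orthogonalProjectionOnto (hm.toLp f) : Lp ℝ 2 μ) with hP
  have h1 : Tendsto (fun n => eLpNorm (⇑(birkhoffAverage ℝ (⇑U) _root_.id n (hm.toLp f)) - ⇑P) 2 μ)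
      atTop (𝓝 0) := by
    rw [← Lp.tendsto_Lp_iff_tendsto_eLpNorm'] 
    exact h0
  have h2 : Tendsto (fun n => eLpNorm (birkhoffAverage ℝ T f n - ⇑P) 2 μ) atTop (𝓝 0) := by
    refine h1.congr fun n => ?_
    refine eLpNorm_congr_ae ?_
    filter_upwards [avg_ae hT f hm n] with x hx
    rw [Pi.sub_apply, Pi.sub_apply, hx]
  have hmeas : ∀ n, Measurable (birkhoffAverage ℝ T f n) := meas_avg hT.measurable hf
  have h3 := tendstoInMeasure_of_tendsto_eLpNorm (p := 2) (by norm_num)
    (fun n => (hmeas n).aestronglyMeasurable) (Lp.aestronglyMeasurable P) h2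
  obtain ⟨ns, hns, hae⟩ := h3.exists_seq_tendsto_ae
  refine ⟨ns, hns, ?_⟩
  filter_upwards [hae] with x hx
  exact ⟨_, hx⟩

omit [MeasurableSpace Ω] in
lemma bdd_orbit {f : Ω → ℝ} (hb : ∀ x, |f x| ≤ 1) (x : Ω) :
    Bornology.IsBounded (Set.range (fun n : ℕ => f (T^[n] x))) :=
  isBounded_iff_forall_norm_le.2 ⟨1, by rintro _ ⟨n, rfl⟩; exact hb _⟩

/-- the limit along a subsequence, as an invariant function -/
lemma exists_inv (hT : MeasurePreserving T μ μ) (f : Ω → ℝ) (hf : Measurable f)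
    (hb : ∀ x, |f x| ≤ 1) :
    ∃ (ns : ℕ → ℕ) (G : Ω → ℝ), StrictMono ns ∧ Measurable[MeasurableSpace.invariants T] G ∧
      ∀ᵐ x ∂μ, Tendsto (fun j => birkhoffAverage ℝ T f (ns j) x) atTop (𝓝 (G x)) := by
  classical
  obtain ⟨ns, hns, hae⟩ := exists_subseq hT f hf hb
  set C : Set Ω := {x | ∃ c : ℝ, Tendsto (fun j => birkhoffAverage ℝ T f (ns j) x) atTop (𝓝 c)}
    with hC
  have hCm : MeasurableSet C := measurableSet_exists_tendsto
    (f := fun j x => birkhoffAverage ℝ T f (ns j) x)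
    (fun j => meas_avg hT.measurable hf (ns j))
  set G : Ω → ℝ := fun x => if h : x ∈ C then Classical.choose h else 0 with hG
  have hGs : ∀ x (h : x ∈ C), Tendsto (fun j => birkhoffAverage ℝ T f (ns j) x) atTop (𝓝 (G x)) := by
    intro x h
    have : G x = Classical.choose h := by simp only [hG, dif_pos h]
    rw [this]
    exact Classical.choose_spec h
  have hG0 : ∀ x, x ∉ C → G x = 0 := by
    intro x h
    simp only [hG, dif_neg h]
  have hdiff : ∀ x, Tendsto (fun j => birkhoffAverage ℝ T f (ns j) (T x) -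
      birkhoffAverage ℝ T f (ns j) x) atTop (𝓝 0) := by
    intro x
    have := tendsto_birkhoffAverage_apply_sub_birkhoffAverage ℝ (bdd_orbit (T := T) hb x)
    exact this.comp hns.tendsto_atTop
  have hlim : ∀ x c, Tendsto (fun j => birkhoffAverage ℝ T f (ns j) x) atTop (𝓝 c) →
      Tendsto (fun j => birkhoffAverage ℝ T f (ns j) (T x)) atTop (𝓝 c) := by
    intro x c h
    have := (hdiff x).add h
    simpa using this
  have hlim' : ∀ x c, Tendsto (fun j => birkhoffAverage ℝ T f (ns j) (T x)) atTop (𝓝 c) →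
      Tendsto (fun j => birkhoffAverage ℝ T f (ns j) x) atTop (𝓝 c) := by
    intro x c h
    have := h.sub (hdiff x)
    simpa using this
  have hinv : ∀ x, G (T x) = G x := by
    intro x
    by_cases h : x ∈ C
    · have h1 := hlim x _ (hGs x h)
      have h2 : T x ∈ C := ⟨_, h1⟩
      exact tendsto_nhds_unique (hGs _ h2) h1
    · have h2 : T x ∉ C := by
        rintro ⟨c, hc⟩
        exact h ⟨c, hlim' x c hc⟩
      rw [hG0 _ h, hG0 _ h2]
  have hGm : Measurable G := by
    refine measurable_of_tendsto_metrizable (f := fun j => C.indicator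
      (fun x => birkhoffAverage ℝ T f (ns j) x))
      (fun j => (meas_avg hT.measurable hf (ns j)).indicator hCm) ?_
    rw [tendsto_pi_nhds]
    intro x
    by_cases h : x ∈ C
    · simpa [Set.indicator_of_mem h] using hGs x h
    · simp [Set.indicator_of_notMem h, hG0 x h]
  refine ⟨ns, G, hns, ?_, ?_⟩
  · rw [MeasurableSpace.measurable_invariants_dom]
    refine ⟨hGm, fun s _ => ?_⟩
    ext x
    simp [hinv]
  · filter_upwards [hae] with x hx
    exact hGs x hx

end basics

section final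

variable {Ω : Type} [MeasurableSpace Ω] {ν : Measure Ω} [IsProbabilityMeasure ν] {T : Ω → Ω}

lemma ergodic_of (hTm : Measurable T) (𝒞 : Set (Set Ω))
    (hgen : ‹MeasurableSpace Ω› = MeasurableSpace.generateFrom 𝒞) (hpi : IsPiSystem 𝒞)
    (hmeas : ∀ A ∈ 𝒞, MeasurableSet A) (hinv : ∀ A ∈ 𝒞, ν (T ⁻¹' A) = ν A)
    (hav : ∀ A ∈ 𝒞, ∃ (ns : ℕ → ℕ) (c : ℝ), StrictMono ns ∧
      ∀ᵐ x ∂ν, Tendsto (fun j => birkhoffAverage ℝ T (A.indicator fun _ => (1 : ℝ)) (ns j) x)
        atTop (𝓝 c)) : Ergodic T ν := by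
  have hmp : MeasurePreserving T ν ν := by
    refine ⟨hTm, ?_⟩
    refine ext_of_generate_finite 𝒞 hgen hpi (fun A hA => ?_) ?_
    · rw [Measure.map_apply hTm (hmeas A hA)]
      exact hinv A hA
    · rw [Measure.map_apply hTm MeasurableSet.univ]
      simp
  refine ⟨hmp, ⟨fun s hs hsi => ?_⟩⟩
  -- the averages over an invariant set
  have hsk : ∀ k, T^[k] ⁻¹' s = s := by
    intro k
    induction k with
    | zero => simp
    | succ k ih => rw [Function.iterate_succ, Set.preimage_comp, ih, hsi]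
  have key : ∀ A ∈ 𝒞, ∀ t : Set Ω, MeasurableSet t → (∀ k, T^[k] ⁻¹' t = t) → ∀ n : ℕ, n ≠ 0 →
      ∫ x in t, birkhoffAverage ℝ T (A.indicator fun _ => (1 : ℝ)) n x ∂ν = ν.real (A ∩ t) := by
    intro A hA t ht htk n hn
    have h1 : ∀ k, ∫ x in t, (A.indicator fun _ => (1 : ℝ)) (T^[k] x) ∂ν = ν.real (A ∩ t) := by
      intro k
      have h2 : (fun x => (A.indicator fun _ => (1 : ℝ)) (T^[k] x)) =
          (T^[k] ⁻¹' A).indicator fun _ => (1 : ℝ) := by
        ext x
        rfl
      rw [h2, integral_indicator_const _ (hTm.iterate k (hmeas A hA)), smul_eq_mul, mul_one,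
        measureReal_restrict_apply (hTm.iterate k (hmeas A hA))]
      conv_lhs => rw [← htk k]
      rw [← Set.preimage_inter, measureReal_def, measureReal_def,
        (hmp.iterate k).measure_preimage ((hmeas A hA).inter ht).nullMeasurableSet]
    have h3 : ∀ x, birkhoffAverage ℝ T (A.indicator fun _ => (1 : ℝ)) n x =
        (n : ℝ)⁻¹ * ∑ k ∈ Finset.range n, (A.indicator fun _ => (1 : ℝ)) (T^[k] x) := fun x => rfl
    simp_rw [h3]
    rw [integral_const_mul, integral_finsetSum]
    · rw [Finset.sum_congr rfl fun k _ => h1 k]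
      simp only [Finset.sum_const, Finset.card_range, nsmul_eq_mul]
      field_simp
    · intro k _
      refine Integrable.of_bound (C := 1) ?_ (Eventually.of_forall fun x => ?_)
      · exact ((measurable_const.indicator (hmeas A hA)).comp (hTm.iterate k)).aestronglyMeasurable
      · by_cases h : T^[k] x ∈ A <;> simp [Set.indicator, h]
  have hlim : ∀ A ∈ 𝒞, ∀ (ns : ℕ → ℕ) (c : ℝ), StrictMono ns →
      (∀ᵐ x ∂ν, Tendsto (fun j => birkhoffAverage ℝ T (A.indicator fun _ => (1 : ℝ)) (ns j) x)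
        atTop (𝓝 c)) → ∀ t : Set Ω, MeasurableSet t → (∀ k, T^[k] ⁻¹' t = t) →
      ν.real (A ∩ t) = c * ν.real t := by
    intro A hA ns c hns hc t ht htk
    have hf : Measurable (A.indicator fun _ => (1 : ℝ)) := measurable_const.indicator (hmeas A hA)
    have h1 : Tendsto (fun j => ∫ x in t,
        birkhoffAverage ℝ T (A.indicator fun _ => (1 : ℝ)) (ns j) x ∂ν) atTop
        (𝓝 (∫ _ in t, c ∂ν)) := by
      refine tendsto_integral_of_dominated_convergence (fun _ => (1 : ℝ))
        (fun j => (meas_avg hTm hf (ns j)).aestronglyMeasurable) (integrable_const _)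
        (fun j => Eventually.of_forall fun x => ?_) (ae_restrict_of_ae hc)
      have h3 : birkhoffAverage ℝ T (A.indicator fun _ => (1 : ℝ)) (ns j) x =
        ((ns j : ℕ) : ℝ)⁻¹ * ∑ k ∈ Finset.range (ns j), (A.indicator fun _ => (1 : ℝ)) (T^[k] x) :=
          rfl
      have h4 : |∑ k ∈ Finset.range (ns j), (A.indicator fun _ => (1 : ℝ)) (T^[k] x)| ≤ ns j := by
        refine (Finset.abs_sum_le_sum_abs _ _).trans ?_
        calc ∑ k ∈ Finset.range (ns j), |(A.indicator fun _ => (1 : ℝ)) (T^[k] x)|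
            ≤ ∑ k ∈ Finset.range (ns j), (1 : ℝ) := by
              refine Finset.sum_le_sum fun k _ => ?_
              by_cases h : T^[k] x ∈ A <;> simp [Set.indicator, h]
          _ = ns j := by simp
      rw [h3, Real.norm_eq_abs, abs_mul, abs_inv, Nat.abs_cast]
      rcases Nat.eq_zero_or_pos (ns j) with h | h
      · simp [h]
      · have hp : (0 : ℝ) < ns j := by exact_mod_cast h
        rw [inv_mul_le_iff₀ hp, mul_one]
        exact h4
    have h2 : Tendsto (fun j => ∫ x in t,
        birkhoffAverage ℝ T (A.indicator fun _ => (1 : ℝ)) (ns j) x ∂ν) atTop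
        (𝓝 (ν.real (A ∩ t))) := by
      refine tendsto_const_nhds.congr' ?_
      filter_upwards [eventually_gt_atTop 0] with j hj
      rw [key A hA t ht htk (ns j) ?_]
      have := hns.id_le j
      simp only [id_eq] at this
      omega
    have h5 := tendsto_nhds_unique h2 h1
    rw [h5, setIntegral_const, smul_eq_mul, mul_comm]
  have hprod : ∀ A ∈ 𝒞, ν (A ∩ s) = ν s * ν A := by
    intro A hA
    obtain ⟨ns, c, hns, hc⟩ := hav A hA
    have h1 := hlim A hA ns c hns hc s hs hsk
    have h2 := hlim A hA ns c hns hc Set.univ MeasurableSet.univ (by simp)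
    rw [Set.inter_univ, probReal_univ, mul_one] at h2
    rw [← h2] at h1
    rw [← ENNReal.toReal_eq_toReal_iff' (measure_ne_top _ _)
      (ENNReal.mul_ne_top (measure_ne_top _ _) (measure_ne_top _ _)), ENNReal.toReal_mul]
    simp only [measureReal_def] at h1
    rw [h1, mul_comm]
  have hmeq : ν.restrict s = ν s • ν := by
    refine ext_of_generate_finite 𝒞 hgen hpi (fun A hA => ?_) ?_
    · rw [Measure.restrict_apply (hmeas A hA), hprod A hA]
      simp
    · simp
  have hss : ν s = ν s * ν s := by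
    have := congrArg (fun m : Measure Ω => m s) hmeq
    simpa [Measure.restrict_apply hs] using this
  rw [eventuallyConst_set']
  rcases eq_or_ne (ν s) 0 with h0 | h0
  · left
    exact ae_eq_empty.2 h0
  · right
    have h1 : ν s = 1 := by
      have h2 : ν s * 1 = ν s * ν s := by rw [mul_one]; exact hss
      exact ((ENNReal.mul_right_inj h0 (measure_ne_top _ _)).1 h2).symm
    rw [ae_eq_univ, prob_compl_eq_zero_iff hs]
    exact h1

end final

section kernel

variable {Ω : Type} {m : MeasurableSpace Ω} [mΩ : MeasurableSpace Ω] [StandardBorelSpace Ω]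
  {μ : Measure Ω} [IsProbabilityMeasure μ]

/-- a function measurable with respect to the sub-sigma-algebra is almost surely constant for
almost every conditional measure -/
lemma const_ae (hm : m ≤ mΩ) (G : Ω → ℝ) (hG : Measurable[m] G) :
    ∀ᵐ ω ∂μ, ∀ᵐ x ∂(condExpKernel μ m ω), G x = G ω := by
  have h1 := compProd_trim_condExpKernel (μ := μ) hm
  have hS : MeasurableSet[m.prod mΩ] {p : Ω × Ω | G p.2 = G p.1} := by
    have a1 : @Measurable _ _ (m.prod mΩ) _ (fun p : Ω × Ω => G p.2) :=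
      (hG.mono hm le_rfl).comp (@measurable_snd Ω Ω m mΩ)
    have a2 : @Measurable _ _ (m.prod mΩ) _ (fun p : Ω × Ω => G p.1) :=
      hG.comp (@measurable_fst Ω Ω m mΩ)
    let _ : MeasurableSpace (Ω × Ω) := m.prod mΩ
    exact measurableSet_eq_fun a1 a2
  have h2 : ((μ.trim hm) ⊗ₘ condExpKernel μ m) {p : Ω × Ω | G p.2 = G p.1}ᶜ = 0 := by
    rw [h1]
    rw [@Measure.map_apply Ω (Ω × Ω) mΩ (m.prod mΩ) μ Function.diag ?_ _ hS.compl]
    · simp [Function.diag]
    · exact @Measurable.prodMk Ω mΩ Ω Ω m mΩ id id (measurable_id'' hm) measurable_id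
  rw [Measure.compProd_apply hS.compl, lintegral_eq_zero_iff
    (Kernel.measurable_kernel_prodMk_left hS.compl)] at h2
  have h3 := ae_of_ae_trim hm h2
  filter_upwards [h3] with ω hω
  exact hω

lemma inv_ae {T : Ω → Ω} (hT : MeasurePreserving T μ μ) (A : Set Ω) (hA : MeasurableSet A) :
    ∀ᵐ ω ∂μ, condExpKernel μ (MeasurableSpace.invariants T) ω (T ⁻¹' A) =
      condExpKernel μ (MeasurableSpace.invariants T) ω A := by
  have hm : MeasurableSpace.invariants T ≤ mΩ := MeasurableSpace.invariants_le T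
  have h1 := condExpKernel_ae_eq_condExp (μ := μ) hm hA
  have h2 := condExpKernel_ae_eq_condExp (μ := μ) hm (hT.measurable hA)
  have h3 : μ⟦A | MeasurableSpace.invariants T⟧ =ᵐ[μ]
      μ⟦T ⁻¹' A | MeasurableSpace.invariants T⟧ := by
    refine ae_eq_condExp_of_forall_setIntegral_eq hm ?_ (fun s _ _ => integrable_condExp.integrableOn)
      (fun s hs _ => ?_) stronglyMeasurable_condExp.aestronglyMeasurable
    · exact (integrable_const _).indicator (hT.measurable hA)
    · rw [setIntegral_condExp hm ((integrable_const _).indicator hA) hs,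
        integral_indicator_const _ hA, integral_indicator_const _ (hT.measurable hA),
        measureReal_restrict_apply hA, measureReal_restrict_apply (hT.measurable hA)]
      obtain ⟨hs1, hs2⟩ := hs
      congr 1
      conv_rhs => rw [← hs2]
      rw [← Set.preimage_inter, measureReal_def, measureReal_def,
        hT.measure_preimage (hA.inter hs1).nullMeasurableSet]
  filter_upwards [h1, h2, h3] with ω a1 a2 a3
  have a4 : (condExpKernel μ (MeasurableSpace.invariants T) ω).real (T ⁻¹' A) =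
      (condExpKernel μ (MeasurableSpace.invariants T) ω).real A := by
    rw [a1, a2, a3]
  rw [measureReal_def, measureReal_def, ENNReal.toReal_eq_toReal_iff' (measure_ne_top _ _)
    (measure_ne_top _ _)] at a4
  exact a4

end kernel

end Pool.Agent.SqF.ERGD

namespace Pool.Agent.SqF

open Pool.Agent.SqF.ERGD in
/-- ergodic decomposition -/
theorem ergd : T_ERGD := by
  intro Ω mΩ _ μ _ T hT
  have hm : MeasurableSpace.invariants T ≤ mΩ := MeasurableSpace.invariants_le T
  set κ : Kernel Ω Ω := Kernel.comap (condExpKernel μ (MeasurableSpace.invariants T)) id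
    (measurable_id'' hm) with hκ
  have hκa : ∀ ω, κ ω = condExpKernel μ (MeasurableSpace.invariants T) ω := fun ω => rfl
  have hmark : IsMarkovKernel κ := by rw [hκ]; infer_instance
  have hbind : μ.bind κ = μ := by
    ext s hs
    rw [Measure.bind_apply hs κ.aemeasurable]
    have h1 := condExpKernel_comp_trim (μ := μ) hm
    have h2 : (condExpKernel μ (MeasurableSpace.invariants T) ∘ₘ μ.trim hm) s = μ s := by rw [h1]
    rw [Measure.bind_apply hs (Kernel.aemeasurable _)] at h2
    rw [← h2]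
    simp_rw [hκa]
    exact (lintegral_trim hm (measurable_condExpKernel hs)).symm
  refine ⟨κ, hmark, ?_, hbind⟩
  -- a countable generating algebra
  set 𝒜 : Set (Set Ω) := generateSetAlgebra (MeasurableSpace.countableGeneratingSet Ω) with h𝒜
  have hcount : 𝒜.Countable := countable_generateSetAlgebra
    (MeasurableSpace.countable_countableGeneratingSet)
  have hgen : mΩ = MeasurableSpace.generateFrom 𝒜 := by
    rw [h𝒜, generateFrom_generateSetAlgebra_eq]
    exact (MeasurableSpace.generateFrom_countableGeneratingSet).symm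
  have hpi : IsPiSystem 𝒜 := fun s hs t ht _ =>
    (isSetAlgebra_generateSetAlgebra).inter_mem hs ht
  have hmeas : ∀ A ∈ 𝒜, MeasurableSet A := by
    intro A hA
    rw [hgen]
    exact MeasurableSpace.measurableSet_generateFrom hA
  have key : ∀ A ∈ 𝒜, ∀ᵐ ω ∂μ, κ ω (T ⁻¹' A) = κ ω A ∧ ∃ (ns : ℕ → ℕ) (c : ℝ), StrictMono ns ∧
      ∀ᵐ x ∂(κ ω), Tendsto (fun j => birkhoffAverage ℝ T (A.indicator fun _ => (1 : ℝ)) (ns j) x)
        atTop (𝓝 c) := by
    intro A hA
    obtain ⟨ns, G, hns, hG, hae⟩ := exists_inv hT (A.indicator fun _ => (1 : ℝ))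
      (measurable_const.indicator (hmeas A hA))
      (fun x => by by_cases h : x ∈ A <;> simp [Set.indicator, h])
    have h1 := inv_ae hT A (hmeas A hA)
    have h2 := const_ae (μ := μ) hm G hG
    have h3 : ∀ᵐ ω ∂μ, ∀ᵐ x ∂(κ ω), Tendsto (fun j =>
        birkhoffAverage ℝ T (A.indicator fun _ => (1 : ℝ)) (ns j) x) atTop (𝓝 (G x)) := by
      rw [← hbind] at hae
      exact Measure.ae_ae_of_ae_bind κ.aemeasurable hae
    filter_upwards [h1, h2, h3] with ω a1 a2 a3
    refine ⟨a1, ns, G ω, hns, ?_⟩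
    rw [← hκa] at a2
    filter_upwards [a2, a3] with x b1 b2
    rw [← b1]
    exact b2
  have hall := (ae_ball_iff hcount).2 key
  filter_upwards [hall] with ω hω
  exact ergodic_of hT.measurable 𝒜 hgen hpi hmeas (fun A hA => (hω A hA).1)
    (fun A hA => (hω A hA).2)

end Pool.Agent.SqF
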