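import Pool.Agent.SqF.Targets

/-!
# MP_0b2319_an: common lemmas for the combinatorial van der Corput steps

Functions of the class `GPon j (B ^ m)`: sums, shifts, monomials, branches of derivatives.
-/

set_option autoImplicit false

namespace Pool.Agent.SqF.PETC

open Pool.Agent.SqF

/-- the closure properties of GP functions that are used -/
structure Alg : Prop where
  mono : T_GP_mono
  shift : T_GP_shift
  neg : T_GP_neg
  add : T_GP_add
  poly : T_GP_poly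
  dmono : T_GP_dmono

theorem gmono (a : Alg) {B : ℕ} (hB : 1 ≤ B) {j j' m m' : ℕ} {A A' : Set ℤ} {P : ℤ → ℤ}
    (h : GPon j (B ^ m) A P) (hj : j ≤ j') (hm : m ≤ m') (hA : A' ⊆ A) :
    GPon j' (B ^ m') A' P := by
  obtain ⟨G, hG, hP⟩ := h
  exact ⟨G, a.mono j j' _ _ G hj (Nat.one_le_pow _ _ hB) (Nat.pow_le_pow_right hB hm) hG,
    fun x hx => hP x (hA hx)⟩

theorem gadd (a : Alg) {B : ℕ} {j m m' : ℕ} {A : Set ℤ} {P P' : ℤ → ℤ}
    (h : GPon j (B ^ m) A P) (h' : GPon j (B ^ m') A P') :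
    GPon j (B ^ (m + m')) A (fun x => P x + P' x) := by
  obtain ⟨G, hG, hP⟩ := h
  obtain ⟨G', hG', hP'⟩ := h'
  refine ⟨fun x => G x + G' x, ?_, fun x hx => by simp only [hP x hx, hP' x hx]⟩
  rw [pow_add]
  exact a.add j _ _ G G' hG hG'

theorem gneg (a : Alg) {B : ℕ} {j : ℕ} {A : Set ℤ} {P : ℤ → ℤ}
    (h : GPon j B A P) : GPon j B A (fun x => - P x) := by
  obtain ⟨G, hG, hP⟩ := h
  exact ⟨fun x => - G x, a.neg j _ G hG, fun x hx => by simp only [hP x hx]⟩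

theorem gcongr {B : ℕ} {j : ℕ} {A : Set ℤ} {P P' : ℤ → ℤ}
    (h : GPon j B A P) (e : ∀ x ∈ A, P' x = P x) : GPon j B A P' := by
  obtain ⟨G, hG, hP⟩ := h
  exact ⟨G, hG, fun x hx => by rw [e x hx, hP x hx]⟩

theorem gsub (a : Alg) {B : ℕ} {j m m' : ℕ} {A : Set ℤ} {P P' : ℤ → ℤ}
    (h : GPon j (B ^ m) A P) (h' : GPon j (B ^ m') A P') :
    GPon j (B ^ (m + m')) A (fun x => P x - P' x) :=
  gcongr (gadd a h (gneg a h')) fun x _ => by ring

theorem gshift (a : Alg) {B : ℕ} {j : ℕ} {A A' : Set ℤ} {P : ℤ → ℤ} {s : ℤ}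
    (h : GPon j B A P) (hA : ∀ x ∈ A', x + s ∈ A) : GPon j B A' (fun x => P (x + s)) := by
  obtain ⟨G, hG, hP⟩ := h
  exact ⟨fun x => G (x + s), a.shift j _ G s hG, fun x hx => hP _ (hA x hx)⟩

theorem gconst (a : Alg) (B : ℕ) (j : ℕ) (A : Set ℤ) (c : ℤ) :
    GPon j (B ^ 0) A (fun _ => c) := by
  have h := a.poly j (fun i => if i = 0 then c else 0)
  refine ⟨_, by rw [pow_zero]; exact h, fun x _ => ?_⟩
  simp only
  rw [Finset.sum_eq_single 0]
  · simp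
  · intro b _ hb
    simp [hb]
  · intro h0
    simp at h0

theorem gmonomial (a : Alg) (B : ℕ) (j : ℕ) (A : Set ℤ) (c : ℤ) :
    GPon j (B ^ 0) A (fun h => c * h ^ j) := by
  have h := a.poly j (fun i => if i = j then c else 0)
  refine ⟨_, by rw [pow_zero]; exact h, fun x _ => ?_⟩
  simp only
  rw [Finset.sum_eq_single j]
  · simp
  · intro b _ hb
    simp [hb]
  · intro h0
    simp at h0

/-- the derivative of a monomial has smaller degree -/
theorem gdiff (a : Alg) {B : ℕ} (hB : 1 ≤ B) (D : ℕ) (hD : 1 ≤ D) (A : Set ℤ) (c r : ℤ) :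
    GPon (D - 1) (B ^ 0) A (fun h => c * (h + r) ^ D - c * h ^ D) := by
  rcases Nat.lt_or_ge 1 D with h2 | h2
  · have h := a.dmono D c r h2
    have h1 : GPon (D - 2) (B ^ 0) A
        (fun h => c * (h + r) ^ D - c * h ^ D - c * D * r * h ^ (D - 1)) :=
      ⟨_, by rw [pow_zero]; exact h, fun x _ => rfl⟩
    have h3 := gadd a (gmono a hB h1 (by omega : D - 2 ≤ D - 1) le_rfl (Set.Subset.refl A))
      (gmonomial a B (D - 1) A (c * D * r))
    exact gcongr h3 fun x _ => by ring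
  · have h1 : D = 1 := le_antisymm h2 hD
    subst h1
    exact gcongr (gconst a B 0 A (c * r)) fun x _ => by ring

theorem gzero_const {B : ℕ} {A : Set ℤ} {P : ℤ → ℤ} (h : GPon 0 B A P) :
    ∃ c : ℤ, ∀ x ∈ A, P x = c := by
  obtain ⟨G, ⟨c, hc⟩, hP⟩ := h
  exact ⟨c, fun x hx => by rw [hP x hx, hc]⟩

/-- branches of a derivative -/
theorem branch {j B : ℕ} {A : Set ℤ} {P : ℤ → ℤ} (hP : GPon (j + 1) B A P) (r : ℤ) :
    ∃ β : ℤ → Fin B, ∀ i : Fin B,
      GPon j B {h | h ∈ A ∧ h + r ∈ A ∧ β h = i} (fun h => P (h + r) - P h) := by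
  obtain ⟨G, hG, hPG⟩ := hP
  obtain ⟨F, hF, hb⟩ := hG r
  choose β hβ using hb
  refine ⟨β, fun i => ⟨F i, hF i, ?_⟩⟩
  rintro h ⟨h1, h2, h3⟩
  simp only
  rw [hPG h h1, hPG _ h2, hβ h, h3]

/-- the branch number of a family is positive -/
theorem one_le_B {ι κ : Type} {F : Fam ι κ} {K B : ℕ} {A : Set ℤ} (hF : F.Ok K B A) :
    1 ≤ B := by
  rcases Nat.eq_zero_or_pos B with h | h
  · subst h
    exfalso
    obtain ⟨G, hG, -⟩ := hF.gp F.i0
    have h1 := hF.dg_pos F.i0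
    obtain ⟨j, hj⟩ : ∃ j, F.dg (F.cl F.i0) = j + 1 := ⟨_, (Nat.succ_pred_eq_of_pos h1).symm⟩
    rw [hj] at hG
    obtain ⟨F0, -, h2⟩ := hG 0
    obtain ⟨i, -⟩ := h2 0
    exact i.elim0
  · exact h

theorem piece_sub {n : ℕ} {A : Set ℤ} {r : ℤ} {pc : ℤ → Fin n} {π : Fin n} :
    piece A r pc π ⊆ A := fun _ hx => hx.1

theorem piece_shift {n : ℕ} {A : Set ℤ} {r : ℤ} {pc : ℤ → Fin n} {π : Fin n} :
    ∀ x ∈ piece A r pc π, x + r ∈ A := fun _ hx => hx.2.1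

/-- the pieces on which all derivatives have one branch -/
theorem pieces (a : Alg) {ι κ : Type} [Fintype ι] (F : Fam ι κ) {K B : ℕ} {A : Set ℤ}
    (hF : F.Ok K B A) (hD : 2 ≤ F.D F.i0) (r : ℤ) :
    ∃ (n : ℕ) (pc : ℤ → Fin n), n ≤ B ^ (Fintype.card ι + 1) ∧ ∀ π : Fin n,
      (∀ j, GPon (F.dg (F.cl j) - 1) (B ^ 1) (piece A r pc π)
        (fun h => F.P j (h + r) - F.P j h)) ∧
      GPon (F.D F.i0 - 2) (B ^ 1) (piece A r pc π)
        (fun h => F.P F.i0 (h + r) - F.P F.i0 h -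
          F.k F.i0 * F.D F.i0 * r * h ^ (F.D F.i0 - 1)) := by
  classical
  have hB := one_le_B hF
  have h1 : ∀ j, ∃ β : ℤ → Fin B, ∀ i : Fin B,
      GPon (F.dg (F.cl j) - 1) B {h | h ∈ A ∧ h + r ∈ A ∧ β h = i}
        (fun h => F.P j (h + r) - F.P j h) := by
    intro j
    have h2 := hF.gp j
    have h3 := hF.dg_pos j
    rw [← Nat.sub_add_cancel h3] at h2
    exact branch h2 r
  choose β hβ using h1
  obtain ⟨β0, hβ0⟩ : ∃ β : ℤ → Fin B, ∀ i : Fin B,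
      GPon (F.D F.i0 - 2) B {h | h ∈ A ∧ h + r ∈ A ∧ β h = i}
        (fun h => (F.P F.i0 (h + r) - F.k F.i0 * (h + r) ^ F.D F.i0) -
          (F.P F.i0 h - F.k F.i0 * h ^ F.D F.i0)) := by
    have h2 := hF.lead
    have h3 : F.D F.i0 - 1 = (F.D F.i0 - 2) + 1 := by omega
    rw [h3] at h2
    exact branch h2 r
  let γ : ℤ → (Option ι → Fin B) := fun h o => match o with
    | none => β0 h
    | some j => β j h
  let E := Fintype.equivFin (Option ι → Fin B)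
  refine ⟨Fintype.card (Option ι → Fin B), fun h => E (γ h), ?_, fun π => ⟨fun j => ?_, ?_⟩⟩
  · rw [Fintype.card_fun, Fintype.card_option, Fintype.card_fin]
  · rw [pow_one]
    obtain ⟨G, hG, hPG⟩ := hβ j (E.symm π (some j))
    refine ⟨G, hG, fun h hh => hPG h ⟨hh.1, hh.2.1, ?_⟩⟩
    have h4 : γ h = E.symm π := by
      rw [Equiv.eq_symm_apply]
      exact hh.2.2
    exact congrFun h4 (some j)
  · have h5 : GPon (F.D F.i0 - 2) (B ^ 1) (piece A r (fun h => E (γ h)) π)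
        (fun h => (F.P F.i0 (h + r) - F.k F.i0 * (h + r) ^ F.D F.i0) -
          (F.P F.i0 h - F.k F.i0 * h ^ F.D F.i0)) := by
      rw [pow_one]
      obtain ⟨G, hG, hPG⟩ := hβ0 (E.symm π none)
      refine ⟨G, hG, fun h hh => hPG h ⟨hh.1, hh.2.1, ?_⟩⟩
      have h4 : γ h = E.symm π := by
        rw [Equiv.eq_symm_apply]
        exact hh.2.2
      exact congrFun h4 none
    have h6 : GPon (F.D F.i0 - 2) (B ^ 0) (piece A r (fun h => E (γ h)) π)
        (fun h => F.k F.i0 * (h + r) ^ F.D F.i0 - F.k F.i0 * h ^ F.D F.i0 -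
          F.k F.i0 * F.D F.i0 * r * h ^ (F.D F.i0 - 1)) :=
      ⟨_, by rw [pow_zero]; exact a.dmono (F.D F.i0) (F.k F.i0) r hD, fun x _ => rfl⟩
    exact gcongr (gadd a h5 h6) fun x _ => by ring

/-- monomials of lower degree, as members of a larger class -/
theorem gmono' (a : Alg) {B : ℕ} (hB : 1 ≤ B) {j m : ℕ} (i : ℕ) (A : Set ℤ) (c : ℤ)
    (hij : i ≤ j) : GPon j (B ^ m) A (fun h => c * h ^ i) :=
  gmono a hB (gmonomial a B i A c) hij (Nat.zero_le _) (Set.Subset.refl A)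

theorem gdiff' (a : Alg) {B : ℕ} (hB : 1 ≤ B) {j m : ℕ} (i : ℕ) (A : Set ℤ) (c r : ℤ)
    (hi : 1 ≤ i) (hij : i ≤ j + 1) :
    GPon j (B ^ m) A (fun h => c * (h + r) ^ i - c * h ^ i) :=
  gmono a hB (gdiff a hB i hi A c r) (by omega) (Nat.zero_le _) (Set.Subset.refl A)

end Pool.Agent.SqF.PETC
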