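import Pool.Agent.SqF.Targets
import Pool.Agent.SqF.Basic

/-!
# MP_0b2319_an: trigonometric approximation and residues of integer parts
-/

set_option autoImplicit false

open MeasureTheory Filter Topology
open scoped ComplexConjugate

namespace Pool.Agent.SqF

theorem TRIG : T_TRIG := by
  intro g hg hper ε hε
  have : Fact (0 < (1 : ℝ)) := ⟨one_pos⟩
  have hper' : Function.Periodic g 1 := hper
  have hcont : Continuous (hper'.lift) := by
    refine continuous_coinduced_dom.mpr ?_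
    exact hg
  let G : C(AddCircle (1 : ℝ), ℂ) := ⟨hper'.lift, hcont⟩
  have hdense : G ∈ (Submodule.span ℂ (Set.range (@fourier 1))).topologicalClosure := by
    rw [span_fourier_closure_eq_top]; trivial
  have hcl : G ∈ closure ((Submodule.span ℂ (Set.range (@fourier 1)) : Submodule ℂ _) :
      Set C(AddCircle (1 : ℝ), ℂ)) := hdense
  obtain ⟨P, hP, hPG⟩ := Metric.mem_closure_iff.mp hcl ε hε
  obtain ⟨c, hc⟩ := Finsupp.mem_span_range_iff_exists_finsupp.mp hP
  refine ⟨c.support, fun l => c l, fun x => ?_⟩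
  have h1 : G (x : AddCircle (1 : ℝ)) = g x := rfl
  have h2 : P (x : AddCircle (1 : ℝ)) = ∑ l ∈ c.support, c l * e (l * x) := by
    rw [← hc, Finsupp.sum, ContinuousMap.coe_sum, Finset.sum_apply]
    refine Finset.sum_congr rfl fun l _ => ?_
    rw [ContinuousMap.coe_smul, Pi.smul_apply, smul_eq_mul, fourier_coe_apply]
    congr 1
    unfold e
    congr 1
    push_cast
    ring
  rw [← h1, ← h2, ← dist_eq_norm]
  exact (ContinuousMap.dist_apply_le_dist _).trans hPG.le

namespace TRIG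

variable {X : Type} [MeasurableSpace X] {μ : Measure X}

lemma integral_e (l : ℤ) (hl : l ≠ 0) : ∫ x in (0 : ℝ)..1, e (l * x) = 0 := by
  have hc : (2 * Real.pi * l : ℝ) * Complex.I ≠ 0 := by
    have : (2 * Real.pi * (l : ℝ)) ≠ 0 := by
      have : (l : ℝ) ≠ 0 := by exact_mod_cast hl
      positivity
    exact mul_ne_zero (by exact_mod_cast this) Complex.I_ne_zero
  have h := integral_exp_mul_complex (a := 0) (b := 1) hc
  have h2 : (fun x : ℝ => e (l * x)) =
      fun x : ℝ => Complex.exp ((2 * Real.pi * l : ℝ) * Complex.I * (x : ℂ)) := by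
    ext x; unfold e; congr 1; push_cast; ring
  rw [h2]
  rw [h]
  have h3 : Complex.exp ((2 * Real.pi * l : ℝ) * Complex.I * ((1 : ℝ) : ℂ)) = 1 := by
    have := e_int l
    unfold e at this
    rw [← this]; congr 1; push_cast; ring
  rw [h3]
  simp

lemma integral_poly (F : Finset ℤ) (a : ℤ → ℂ) :
    ∫ x in (0 : ℝ)..1, ∑ l ∈ F, a l * e (l * x) = ∑ l ∈ F, if l = 0 then a l else 0 := by
  rw [intervalIntegral.integral_finsetSum]
  · refine Finset.sum_congr rfl fun l _ => ?_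
    rw [intervalIntegral.integral_const_mul]
    split_ifs with h
    · subst h; simp [e_zero]
    · rw [integral_e l h, mul_zero]
  · intro l _
    exact (continuous_const.mul (continuous_e.comp (by fun_prop))).intervalIntegrable _ _

/-- equidistribution, vector valued version -/
lemma equi [IsProbabilityMeasure μ] (v : ℕ → X → ℂ) (hv : ∀ n, B1 (v n)) (u : ℕ → ℝ)
    (h : ∀ l : ℤ, l ≠ 0 → Tendsto (fun N => Q μ (av N (fun n y => e (l * u n) * v n y)))
      atTop (𝓝 0)) (g : ℝ → ℂ) (hg : Continuous g) (hper : ∀ x, g (x + 1) = g x) :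
    Tendsto (fun N => Q μ (av N (fun n y => (g (u n) - ∫ x in (0 : ℝ)..1, g x) * v n y)))
      atTop (𝓝 0) := by
  rw [Metric.tendsto_atTop]
  intro η hη
  -- choose ε
  obtain ⟨ε, hε, hε2⟩ : ∃ ε > (0 : ℝ), 2 * (2 * ε) ^ 2 ≤ η / 2 := by
    refine ⟨min 1 (η / 16), by positivity, ?_⟩
    have h1 : min 1 (η / 16) ≤ 1 := min_le_left _ _
    have h2 : min 1 (η / 16) ≤ η / 16 := min_le_right _ _
    have h3 : 0 < min 1 (η / 16) := by positivity
    nlinarith
  obtain ⟨F, a, hF⟩ := TRIG g hg hper ε hε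
  set c : ℂ := ∫ x in (0 : ℝ)..1, g x with hc
  set p : ℝ → ℂ := fun x => ∑ l ∈ F, a l * e (l * x) with hp
  set p0 : ℂ := ∑ l ∈ F, if l = 0 then a l else 0 with hp0
  have hpc : Continuous p := continuous_finsetSum _ fun l _ =>
    continuous_const.mul (continuous_e.comp (by fun_prop))
  have hcp : ‖p0 - c‖ ≤ ε := by
    rw [hp0, ← integral_poly, hc, ← intervalIntegral.integral_sub
      (hpc.intervalIntegrable _ _) (hg.intervalIntegrable _ _)]
    have := intervalIntegral.norm_integral_le_of_norm_le_const (a := 0) (b := 1) (C := ε)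
      (f := fun x => p x - g x) (fun x _ => by rw [norm_sub_rev]; exact hF x)
    simpa using this
  -- main part
  have hmain : Tendsto (fun N => (F.card : ℝ) * ∑ l ∈ F, ‖(if l = 0 then 0 else a l : ℂ)‖ ^ 2 *
      Q μ (av N (fun n y => e (l * u n) * v n y))) atTop (𝓝 0) := by
    have : Tendsto (fun N => (F.card : ℝ) * ∑ l ∈ F, ‖(if l = 0 then 0 else a l : ℂ)‖ ^ 2 *
      Q μ (av N (fun n y => e (l * u n) * v n y))) atTop
      (𝓝 ((F.card : ℝ) * ∑ l ∈ F, 0)) := by
      refine Tendsto.const_mul _ (tendsto_finsetSum _ fun l _ => ?_)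
      by_cases hl : l = 0
      · simp [hl]
      · simpa using (h l hl).const_mul (‖(if l = 0 then 0 else a l : ℂ)‖ ^ 2)
    simpa using this
  have hev := (Metric.tendsto_atTop.mp hmain) (η / 8) (by positivity)
  obtain ⟨N0, hN0⟩ := hev
  refine ⟨N0, fun N hN => ?_⟩
  have h1 := hN0 N hN
  rw [Real.dist_eq, sub_zero] at h1 ⊢
  have h1' := (le_abs_self _).trans_lt h1
  rw [abs_of_nonneg (Q_nonneg _)]
  -- decomposition
  have hB1e : ∀ l : ℤ, ∀ n, B1 (fun y => e (l * u n) * v n y) := fun l n =>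
    (hv n).const_mul' (norm_e _).le
  have hbdB : ∀ l : ℤ, Bd (av N (fun n y => e (l * u n) * v n y)) := fun l =>
    (B1.av' (hB1e l)).bd
  have hA : ∀ y, ‖avs N (fun n => ((g (u n) - p (u n)) + (p0 - c)) * v n y)‖ ≤ 2 * ε := by
    intro y
    refine norm_avs_le_of fun n _ => ?_
    rw [norm_mul]
    have hb : ‖(g (u n) - p (u n)) + (p0 - c)‖ ≤ 2 * ε := by
      refine (norm_add_le _ _).trans ?_
      have := hF (u n)
      linarith
    calc _ ≤ 2 * ε * 1 := mul_le_mul hb ((hv n).le y) (norm_nonneg _) (by positivity)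
      _ = 2 * ε := mul_one _
  have hdec : av N (fun n y => (g (u n) - c) * v n y) = fun y =>
      avs N (fun n => ((g (u n) - p (u n)) + (p0 - c)) * v n y) +
      ∑ l ∈ F, (if l = 0 then 0 else a l : ℂ) * av N (fun n y => e (l * u n) * v n y) y := by
    ext y
    rw [av_apply]
    have : ∀ l ∈ F, (if l = 0 then 0 else a l : ℂ) * av N (fun n y => e (l * u n) * v n y) y =
        avs N (fun n => (if l = 0 then 0 else a l : ℂ) * (e (l * u n) * v n y)) := by
      intro l _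
      rw [avs_mul_left, av_apply]
    rw [Finset.sum_congr rfl this, ← avs_sum, ← avs_add]
    congr 1
    ext n
    have h5 : ∑ l ∈ F, (if l = 0 then 0 else a l : ℂ) * (e (l * u n) * v n y) =
        (p (u n) - p0) * v n y := by
      rw [hp, hp0, ← Finset.sum_sub_distrib, Finset.sum_mul]
      refine Finset.sum_congr rfl fun l _ => ?_
      split_ifs with hl
      · subst hl; simp [e_zero]
      · ring
    rw [h5]; ring
  have hmeasA : Bd (fun y => avs N (fun n => ((g (u n) - p (u n)) + (p0 - c)) * v n y)) := by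
    refine ⟨?_, 2 * ε, hA⟩
    unfold Pool.Agent.SqF.avs
    exact (Finset.measurable_sum _ fun n _ => (hv n).meas.const_mul _).const_mul _
  rw [hdec]
  have hQA : Q μ (fun y => avs N (fun n => ((g (u n) - p (u n)) + (p0 - c)) * v n y)) ≤
      (2 * ε) ^ 2 := Q_le_of_norm_le hA
  have hQB : Q μ (fun y => ∑ l ∈ F, (if l = 0 then 0 else a l : ℂ) *
      av N (fun n y => e (l * u n) * v n y) y) ≤ (F.card : ℝ) * ∑ l ∈ F,
        ‖(if l = 0 then 0 else a l : ℂ)‖ ^ 2 * Q μ (av N (fun n y => e (l * u n) * v n y)) := by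
    refine (Q_sum_le F fun l _ => (hbdB l).const_mul _).trans ?_
    refine mul_le_mul_of_nonneg_left (Finset.sum_le_sum fun l _ => ?_) (by positivity)
    rw [Q_const_mul]
  calc _ ≤ 2 * Q μ (fun y => avs N (fun n => ((g (u n) - p (u n)) + (p0 - c)) * v n y)) +
        2 * Q μ (fun y => ∑ l ∈ F, (if l = 0 then 0 else a l : ℂ) *
          av N (fun n y => e (l * u n) * v n y) y) :=
        Q_add_le hmeasA (Bd.sum F fun l _ => (hbdB l).const_mul _)
    _ ≤ 2 * (2 * ε) ^ 2 + 2 * ((F.card : ℝ) * ∑ l ∈ F,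
        ‖(if l = 0 then 0 else a l : ℂ)‖ ^ 2 * Q μ (av N (fun n y => e (l * u n) * v n y))) := by
        gcongr
    _ < η := by linarith

/-- equidistribution, scalar version -/
lemma equis (u : ℕ → ℝ)
    (h : ∀ l : ℤ, l ≠ 0 → Tendsto (fun N => avs N (fun n => e (l * u n))) atTop (𝓝 0))
    (g : ℝ → ℂ) (hg : Continuous g) (hper : ∀ x, g (x + 1) = g x) :
    Tendsto (fun N => avs N (fun n => g (u n))) atTop (𝓝 (∫ x in (0 : ℝ)..1, g x)) := by
  have key : ∀ (N : ℕ) (w : ℕ → ℂ), Q (Measure.dirac ()) (av N (fun n (_ : Unit) => w n)) =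
      ‖avs N w‖ ^ 2 := by
    intro N w
    unfold Q
    simp [av, avs]
  have h1 := equi (μ := Measure.dirac ()) (fun _ _ => (1 : ℂ)) (fun _ => B1.one) u (fun l hl => by
    have := (h l hl).norm.pow 2
    simp only [norm_zero, ne_eq, OfNat.ofNat_ne_zero, not_false_eq_true, zero_pow] at this
    simp only [mul_one]
    refine this.congr fun N => ?_
    rw [key]) g hg hper
  simp only [mul_one] at h1
  have h2 : Tendsto (fun N => ‖avs N (fun n => g (u n)) - ∫ x in (0 : ℝ)..1, g x‖ ^ 2)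
      atTop (𝓝 0) := by
    refine h1.congr fun N => ?_
    rw [key, avs_sub, avs_const]
  have h3 : Tendsto (fun N => ‖avs N (fun n => g (u n)) - ∫ x in (0 : ℝ)..1, g x‖)
      atTop (𝓝 0) := by
    have := h2.sqrt
    simpa using this
  exact tendsto_iff_norm_sub_tendsto_zero.mpr h3

/-! ## the bump -/

/-- the bump of width `1/r` -/
noncomputable def bump (r : ℕ) (δ : ℝ) (y : ℝ) : ℝ :=
  max 0 (min 1 (min (Int.fract y / δ) (((r : ℝ)⁻¹ - Int.fract y) / δ)))

lemma bump_cont (r : ℕ) (hr : 0 < r) (δ : ℝ) (hδ : 0 < δ) : Continuous (bump r δ) := by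
  have h1 : Continuous (fun f : ℝ => max 0 (min 1 (min (f / δ) (((r : ℝ)⁻¹ - f) / δ)))) := by
    fun_prop
  have hr1 : (r : ℝ)⁻¹ ≤ 1 := by
    have : (1 : ℝ) ≤ r := by exact_mod_cast hr
    exact inv_le_one_of_one_le₀ this
  have h2 : (fun f : ℝ => max 0 (min 1 (min (f / δ) (((r : ℝ)⁻¹ - f) / δ)))) 0 =
      (fun f : ℝ => max 0 (min 1 (min (f / δ) (((r : ℝ)⁻¹ - f) / δ)))) 1 := by
    have e1 : min 1 (min ((0 : ℝ) / δ) (((r : ℝ)⁻¹ - 0) / δ)) ≤ 0 := by
      refine (min_le_right _ _).trans ((min_le_left _ _).trans ?_)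
      simp
    have e2 : min 1 (min ((1 : ℝ) / δ) (((r : ℝ)⁻¹ - 1) / δ)) ≤ 0 := by
      refine (min_le_right _ _).trans ((min_le_right _ _).trans ?_)
      exact div_nonpos_of_nonpos_of_nonneg (by linarith) hδ.le
    simp only [max_eq_left e1, max_eq_left e2]
  exact ContinuousOn.comp_fract'' h1.continuousOn h2

lemma bump_per (r : ℕ) (δ : ℝ) (y : ℝ) : bump r δ (y + 1) = bump r δ y := by
  unfold bump; rw [Int.fract_add_one]

lemma bump_nonneg (r : ℕ) (δ : ℝ) (y : ℝ) : 0 ≤ bump r δ y := le_max_left _ _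

lemma bump_le_one (r : ℕ) (δ : ℝ) (y : ℝ) : bump r δ y ≤ 1 :=
  max_le zero_le_one (min_le_left _ _)

lemma bump_pos (r : ℕ) (δ : ℝ) (hδ : 0 < δ) (y : ℝ) (h : bump r δ y ≠ 0) :
    Int.fract y < (r : ℝ)⁻¹ := by
  by_contra hcon
  push Not at hcon
  apply h
  unfold bump
  refine max_eq_left ?_
  refine (min_le_right _ _).trans ((min_le_right _ _).trans ?_)
  exact div_nonpos_of_nonpos_of_nonneg (by linarith) hδ.le

lemma bump_eq_one (r : ℕ) (δ : ℝ) (hδ : 0 < δ) (y : ℝ) (h1 : δ ≤ Int.fract y)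
    (h2 : Int.fract y ≤ (r : ℝ)⁻¹ - δ) : bump r δ y = 1 := by
  unfold bump
  rw [min_eq_left, max_eq_right zero_le_one]
  refine le_min ?_ ?_
  · rw [le_div_iff₀ hδ]; linarith
  · rw [le_div_iff₀ hδ]; linarith

lemma floor_mod_of_bump (r : ℕ) (hr : 0 < r) (δ : ℝ) (hδ : 0 < δ) (x : ℝ) (t : ℤ) (ht0 : 0 ≤ t)
    (htr : t < r) (h : bump r δ (x / r - t / r) ≠ 0) : ⌊x⌋ % (r : ℤ) = t := by
  have hr' : (0 : ℝ) < r := by exact_mod_cast hr
  have h1 := bump_pos r δ hδ _ h
  set y : ℝ := x / r - t / r with hy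
  have h2 : y = ⌊y⌋ + Int.fract y := (Int.floor_add_fract y).symm
  have h3 : x = (r : ℝ) * ⌊y⌋ + t + r * Int.fract y := by
    have : x = r * y + t := by rw [hy]; field_simp; ring
    rw [this]
    conv_lhs => rw [h2]
    ring
  have h4 : r * Int.fract y < 1 := by
    calc (r : ℝ) * Int.fract y < r * (r : ℝ)⁻¹ := by gcongr
      _ = 1 := mul_inv_cancel₀ hr'.ne'
  have h5 : 0 ≤ r * Int.fract y := mul_nonneg hr'.le (Int.fract_nonneg _)
  have h6 : ⌊x⌋ = (r : ℤ) * ⌊y⌋ + t := by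
    rw [Int.floor_eq_iff]
    push_cast
    constructor
    · linarith
    · linarith
  rw [h6, Int.mul_add_emod_self_left]
  exact Int.emod_eq_of_lt ht0 htr

/-- the indicator of a residue class -/
noncomputable def ind (r : ℕ) (x : ℝ) (t : ℤ) : ℝ := if ⌊x⌋ % (r : ℤ) = t then 1 else 0

lemma bump_le_ind (r : ℕ) (hr : 0 < r) (δ : ℝ) (hδ : 0 < δ) (x : ℝ) (t : ℤ) (ht0 : 0 ≤ t)
    (htr : t < r) : bump r δ (x / r - t / r) ≤ ind r x t := by
  unfold ind
  split_ifs with h
  · exact bump_le_one _ _ _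
  · by_contra hcon
    push Not at hcon
    exact h (floor_mod_of_bump r hr δ hδ x t ht0 htr hcon.ne')

lemma sum_ind (r : ℕ) (hr : 0 < r) (x : ℝ) : ∑ t ∈ Finset.range r, ind r x (t : ℤ) = 1 := by
  have h0 : 0 ≤ ⌊x⌋ % (r : ℤ) := Int.emod_nonneg _ (by exact_mod_cast hr.ne')
  have h1 : ⌊x⌋ % (r : ℤ) < r := Int.emod_lt_of_pos _ (by exact_mod_cast hr)
  obtain ⟨k, hk⟩ := Int.eq_ofNat_of_zero_le h0
  have hkr : k < r := by rw [hk] at h1; exact_mod_cast h1
  rw [Finset.sum_eq_single k]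
  · unfold ind; rw [if_pos hk]
  · intro t _ htk
    unfold ind
    rw [if_neg]
    rw [hk]
    intro h
    apply htk
    exact_mod_cast h.symm
  · intro h
    exact absurd (Finset.mem_range.mpr hkr) h

/-- the defect function -/
noncomputable def defect (r : ℕ) (δ : ℝ) (y : ℝ) : ℝ :=
  1 - ∑ t ∈ Finset.range r, bump r δ (y - t / r)

lemma defect_bound (r : ℕ) (hr : 0 < r) (δ : ℝ) (hδ : 0 < δ) (x : ℝ) (t : ℤ) (ht0 : 0 ≤ t)
    (htr : t < r) : |ind r x t - bump r δ (x / r - t / r)| ≤ defect r δ (x / r) := by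
  have h1 := bump_le_ind r hr δ hδ x t ht0 htr
  rw [abs_of_nonneg (by linarith)]
  have h2 : defect r δ (x / r) = ∑ s ∈ Finset.range r, (ind r x (s : ℤ) -
      bump r δ (x / r - (s : ℝ) / r)) := by
    rw [Finset.sum_sub_distrib, sum_ind r hr]; rfl
  obtain ⟨k, rfl⟩ := Int.eq_ofNat_of_zero_le ht0
  have hkr : k < r := by exact_mod_cast htr
  rw [h2]
  have h3 := Finset.single_le_sum (f := fun s : ℕ => ind r x (s : ℤ) -
      bump r δ (x / r - (s : ℝ) / r)) (s := Finset.range r) (a := k) (by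
      intro s hs
      have := bump_le_ind r hr δ hδ x (s : ℤ) (by positivity)
        (by exact_mod_cast Finset.mem_range.mp hs)
      simp only [Int.cast_natCast] at this
      linarith) (Finset.mem_range.mpr hkr)
  simpa using h3

lemma defect_nonneg (r : ℕ) (hr : 0 < r) (δ : ℝ) (hδ : 0 < δ) (y : ℝ) : 0 ≤ defect r δ y := by
  have hr' : (0 : ℝ) < r := by exact_mod_cast hr
  have h := defect_bound r hr δ hδ (r * y) 0 le_rfl (by exact_mod_cast hr)
  have h2 : (r : ℝ) * y / r = y := by field_simp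
  rw [h2] at h
  exact (abs_nonneg _).trans h

lemma defect_cont (r : ℕ) (hr : 0 < r) (δ : ℝ) (hδ : 0 < δ) : Continuous (defect r δ) := by
  unfold defect
  refine continuous_const.sub (continuous_finsetSum _ fun t _ => ?_)
  exact (bump_cont r hr δ hδ).comp (by fun_prop)

lemma defect_per (r : ℕ) (δ : ℝ) (y : ℝ) : defect r δ (y + 1) = defect r δ y := by
  unfold defect
  congr 1
  refine Finset.sum_congr rfl fun t _ => ?_
  rw [← bump_per r δ (y - t / r)]
  congr 1; ring

lemma integral_shift (r : ℕ) (δ s : ℝ) :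
    ∫ y in (0 : ℝ)..1, bump r δ (y - s) = ∫ y in (0 : ℝ)..1, bump r δ y := by
  rw [intervalIntegral.integral_comp_sub_right]
  have hp : Function.Periodic (bump r δ) 1 := bump_per r δ
  have := hp.intervalIntegral_add_eq (0 - s) 0
  have e1 : (1 : ℝ) - s = 0 - s + 1 := by ring
  rw [e1, this, zero_add]

lemma integral_lower (r : ℕ) (hr : 0 < r) (δ : ℝ) (hδ : 0 < δ) :
    (r : ℝ)⁻¹ - 2 * δ ≤ ∫ y in (0 : ℝ)..1, bump r δ y := by
  have hr1 : (r : ℝ)⁻¹ ≤ 1 := by
    have : (1 : ℝ) ≤ r := by exact_mod_cast hr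
    exact inv_le_one_of_one_le₀ this
  have hnn : 0 ≤ ∫ y in (0 : ℝ)..1, bump r δ y :=
    intervalIntegral.integral_nonneg zero_le_one fun y _ => bump_nonneg _ _ _
  by_cases hcase : (r : ℝ)⁻¹ - 2 * δ ≤ 0
  · linarith
  push Not at hcase
  have hc := bump_cont r hr δ hδ
  have hi : ∀ a b : ℝ, IntervalIntegrable (bump r δ) volume a b := fun a b =>
    hc.intervalIntegrable _ _
  have h1 : ∫ y in (0 : ℝ)..1, bump r δ y = (∫ y in (0 : ℝ)..δ, bump r δ y) +
      (∫ y in δ..((r : ℝ)⁻¹ - δ), bump r δ y) + ∫ y in ((r : ℝ)⁻¹ - δ)..1, bump r δ y := by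
    rw [intervalIntegral.integral_add_adjacent_intervals (hi _ _) (hi _ _),
      intervalIntegral.integral_add_adjacent_intervals (hi _ _) (hi _ _)]
  have h2 : 0 ≤ ∫ y in (0 : ℝ)..δ, bump r δ y :=
    intervalIntegral.integral_nonneg hδ.le fun y _ => bump_nonneg _ _ _
  have h3 : 0 ≤ ∫ y in ((r : ℝ)⁻¹ - δ)..1, bump r δ y :=
    intervalIntegral.integral_nonneg (by linarith) fun y _ => bump_nonneg _ _ _
  have h4 : ∫ y in δ..((r : ℝ)⁻¹ - δ), bump r δ y = ∫ y in δ..((r : ℝ)⁻¹ - δ), (1 : ℝ) := by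
    refine intervalIntegral.integral_congr fun y hy => ?_
    rw [Set.uIcc_of_le (by linarith)] at hy
    have hf : Int.fract y = y := Int.fract_eq_self.mpr ⟨by linarith [hy.1], by linarith [hy.2]⟩
    exact bump_eq_one r δ hδ y (by rw [hf]; exact hy.1) (by rw [hf]; exact hy.2)
  rw [h1, h4]
  simp only [intervalIntegral.integral_const, smul_eq_mul, mul_one]
  linarith

lemma integral_defect (r : ℕ) (hr : 0 < r) (δ : ℝ) (hδ : 0 < δ) :
    ∫ y in (0 : ℝ)..1, defect r δ y = 1 - r * ∫ y in (0 : ℝ)..1, bump r δ y := by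
  have hc : ∀ t : ℕ, Continuous (fun y : ℝ => bump r δ (y - t / r)) := fun t =>
    (bump_cont r hr δ hδ).comp (by fun_prop)
  have hcs : Continuous (fun y : ℝ => ∑ t ∈ Finset.range r, bump r δ (y - t / r)) :=
    continuous_finsetSum _ fun t _ => hc t
  unfold defect
  rw [intervalIntegral.integral_sub (by simp) (hcs.intervalIntegrable _ _),
    intervalIntegral.integral_finsetSum fun t _ => (hc t).intervalIntegrable _ _]
  simp only [integral_shift]
  simp

lemma complex_integral {f : ℝ → ℝ} : ∫ y in (0 : ℝ)..1, ((f y : ℝ) : ℂ) =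
    ((∫ y in (0 : ℝ)..1, f y : ℝ) : ℂ) := intervalIntegral.integral_ofReal

end TRIG

open TRIG in
theorem RES : T_RES := by
  intro X _ μ _ v hv x r hr h1 h2 t ht0 htr
  have hr' : (0 : ℝ) < r := by exact_mod_cast hr
  rw [Metric.tendsto_atTop]
  intro η hη
  set K : ℝ := 2 * r + 3 with hK
  have hKpos : 0 < K := by positivity
  obtain ⟨δ, hδ, hδ2⟩ : ∃ δ > (0 : ℝ), 2 * (K * δ) ^ 2 ≤ η / 2 := by
    refine ⟨min 1 (η / (4 * K ^ 2)), by positivity, ?_⟩
    set m := min 1 (η / (4 * K ^ 2)) with hm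
    have e1 : m ≤ 1 := min_le_left _ _
    have e2 : m ≤ η / (4 * K ^ 2) := min_le_right _ _
    have e3 : 0 < m := by positivity
    have e4 : m * (4 * K ^ 2) ≤ η := by rwa [le_div_iff₀ (by positivity)] at e2
    have e5 : m * m ≤ m := by nlinarith
    have e6 : 0 < K ^ 2 := by positivity
    nlinarith [mul_le_mul_of_nonneg_right e5 e6.le]
  set c : ℝ := ∫ y in (0 : ℝ)..1, bump r δ y with hc
  have hcl : (r : ℝ)⁻¹ - 2 * δ ≤ c := integral_lower r hr δ hδ
  have hdef : ∫ y in (0 : ℝ)..1, defect r δ y = 1 - r * c := integral_defect r hr δ hδ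
  have hdnn : 0 ≤ ∫ y in (0 : ℝ)..1, defect r δ y :=
    intervalIntegral.integral_nonneg zero_le_one fun y _ => defect_nonneg r hr δ hδ y
  have hcu : c ≤ (r : ℝ)⁻¹ := by
    rw [hdef] at hdnn
    rw [← one_div, le_div_iff₀ hr']; linarith
  have hdu : 1 - r * c ≤ 2 * r * δ := by
    have : (r : ℝ) * ((r : ℝ)⁻¹ - 2 * δ) ≤ r * c := by gcongr
    rw [mul_sub, mul_inv_cancel₀ hr'.ne'] at this
    linarith
  -- equidistribution for the bump
  have hE := equi (μ := μ) v hv (fun n => x n / r) h1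
    (fun y => ((bump r δ (y - t / r) : ℝ) : ℂ))
    (Complex.continuous_ofReal.comp ((bump_cont r hr δ hδ).comp (by fun_prop)))
    (fun y => by
      rw [← bump_per r δ (y - t / r)]
      congr 2; ring)
  rw [complex_integral, integral_shift, ← hc] at hE
  have hS := equis (fun n => x n / r) h2 (fun y => ((defect r δ y : ℝ) : ℂ))
    (Complex.continuous_ofReal.comp (defect_cont r hr δ hδ))
    (fun y => by rw [defect_per])
  rw [complex_integral, hdef] at hS
  obtain ⟨N1, hN1⟩ := (Metric.tendsto_atTop.mp hE) (η / 8) (by positivity)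
  obtain ⟨N2, hN2⟩ := (Metric.tendsto_atTop.mp hS) δ hδ
  refine ⟨max N1 N2, fun N hN => ?_⟩
  have a1 := hN1 N ((le_max_left _ _).trans hN)
  have a2 := hN2 N ((le_max_right _ _).trans hN)
  rw [Real.dist_eq, sub_zero] at a1 ⊢
  rw [abs_of_nonneg (Q_nonneg _)] at a1 ⊢
  rw [dist_eq_norm] at a2
  have a3 : ‖avs N (fun n => ((defect r δ (x n / r) : ℝ) : ℂ))‖ ≤ 2 * r * δ + δ := by
    have e1 : avs N (fun n => ((defect r δ (x n / r) : ℝ) : ℂ)) =
        (avs N (fun n => ((defect r δ (x n / r) : ℝ) : ℂ)) - ((1 - r * c : ℝ) : ℂ)) +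
          ((1 - r * c : ℝ) : ℂ) := by ring
    rw [e1]
    refine (norm_add_le _ _).trans ?_
    rw [Complex.norm_real, Real.norm_of_nonneg (by rw [← hdef]; exact hdnn)]
    linarith
  -- pointwise bound
  have hA : ∀ y, ‖avs N (fun n => ((((ind r (x n) t - bump r δ (x n / r - t / r) : ℝ)) : ℂ) +
      ((c - (r : ℝ)⁻¹ : ℝ) : ℂ)) * v n y)‖ ≤ K * δ := by
    intro y
    have e0 : (fun n => ((((ind r (x n) t - bump r δ (x n / r - t / r) : ℝ)) : ℂ) +
      ((c - (r : ℝ)⁻¹ : ℝ) : ℂ)) * v n y) = fun n =>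
        (((ind r (x n) t - bump r δ (x n / r - t / r) : ℝ)) : ℂ) * v n y +
          ((c - (r : ℝ)⁻¹ : ℝ) : ℂ) * v n y := by ext n; ring
    rw [e0, avs_add, avs_mul_left]
    refine (norm_add_le _ _).trans ?_
    have e1 : ‖avs N (fun n => (((ind r (x n) t - bump r δ (x n / r - t / r) : ℝ)) : ℂ) *
        v n y)‖ ≤ 2 * r * δ + δ := by
      refine le_trans ?_ a3
      unfold Pool.Agent.SqF.avs
      rw [norm_mul, norm_mul]
      refine mul_le_mul_of_nonneg_left ?_ (norm_nonneg _)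
      have e2 : ∑ n ∈ W N, ((defect r δ (x n / r) : ℝ) : ℂ) =
          ((∑ n ∈ W N, defect r δ (x n / r) : ℝ) : ℂ) := by push_cast; rfl
      rw [e2, Complex.norm_real, Real.norm_of_nonneg
        (Finset.sum_nonneg fun n _ => defect_nonneg r hr δ hδ _)]
      refine (norm_sum_le _ _).trans (Finset.sum_le_sum fun n _ => ?_)
      rw [norm_mul, Complex.norm_real, Real.norm_eq_abs]
      calc _ ≤ |ind r (x n) t - bump r δ (x n / r - t / r)| * 1 := by
            gcongr; exact (hv n).le y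
        _ ≤ _ := by rw [mul_one]; exact defect_bound r hr δ hδ (x n) t ht0 htr
    have e3 : ‖((c - (r : ℝ)⁻¹ : ℝ) : ℂ) * avs N (fun n => v n y)‖ ≤ 2 * δ := by
      rw [norm_mul, Complex.norm_real, Real.norm_eq_abs]
      have e4 : |c - (r : ℝ)⁻¹| ≤ 2 * δ := by rw [abs_le]; constructor <;> linarith
      calc _ ≤ 2 * δ * 1 := mul_le_mul e4 (norm_avs_le fun n => (hv n).le y) (norm_nonneg _)
            (by positivity)
        _ = 2 * δ := mul_one _
    calc _ ≤ (2 * r * δ + δ) + 2 * δ := add_le_add e1 e3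
      _ = K * δ := by rw [hK]; ring
  have hdec : av N (fun n y => ((if ⌊x n⌋ % (r : ℤ) = t then (1 : ℂ) else 0) - (r : ℂ)⁻¹) *
      v n y) = fun y =>
      avs N (fun n => ((((ind r (x n) t - bump r δ (x n / r - t / r) : ℝ)) : ℂ) +
        ((c - (r : ℝ)⁻¹ : ℝ) : ℂ)) * v n y) +
      av N (fun n y => (((bump r δ (x n / r - t / r) : ℝ) : ℂ) - (c : ℂ)) * v n y) y := by
    ext y
    rw [av_apply, av_apply, ← avs_add]
    congr 1
    ext n
    have : (if ⌊x n⌋ % (r : ℤ) = t then (1 : ℂ) else 0) = ((ind r (x n) t : ℝ) : ℂ) := by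
      unfold ind; split_ifs <;> simp
    rw [this]; push_cast; ring
  have hbA : Bd (fun y => avs N (fun n => ((((ind r (x n) t -
      bump r δ (x n / r - t / r) : ℝ)) : ℂ) + ((c - (r : ℝ)⁻¹ : ℝ) : ℂ)) * v n y)) := by
    refine ⟨?_, K * δ, hA⟩
    unfold Pool.Agent.SqF.avs
    exact (Finset.measurable_sum _ fun n _ => (hv n).meas.const_mul _).const_mul _
  have hbB : Bd (av N (fun n y => (((bump r δ (x n / r - t / r) : ℝ) : ℂ) - (c : ℂ)) *
      v n y)) := by
    refine ⟨?_, 1 + |c|, fun y => ?_⟩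
    · unfold Pool.Agent.SqF.av
      exact (Finset.measurable_sum _ fun n _ => (hv n).meas.const_mul _).const_mul _
    · rw [av_apply]
      refine norm_avs_le_of fun n _ => ?_
      rw [norm_mul]
      have e1 : ‖((bump r δ (x n / r - t / r) : ℝ) : ℂ) - (c : ℂ)‖ ≤ 1 + |c| := by
        refine (norm_sub_le _ _).trans ?_
        rw [Complex.norm_real, Complex.norm_real, Real.norm_of_nonneg (bump_nonneg _ _ _),
          Real.norm_eq_abs]
        gcongr
        exact bump_le_one _ _ _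
      calc _ ≤ (1 + |c|) * 1 := mul_le_mul e1 ((hv n).le y) (norm_nonneg _) (by positivity)
        _ = _ := mul_one _
  rw [hdec]
  calc _ ≤ 2 * Q μ (fun y => avs N (fun n => ((((ind r (x n) t -
          bump r δ (x n / r - t / r) : ℝ)) : ℂ) + ((c - (r : ℝ)⁻¹ : ℝ) : ℂ)) * v n y)) +
        2 * Q μ (av N (fun n y => (((bump r δ (x n / r - t / r) : ℝ) : ℂ) - (c : ℂ)) *
          v n y)) := Q_add_le hbA hbB
    _ ≤ 2 * (K * δ) ^ 2 + 2 * (η / 8) := by
        have := Q_le_of_norm_le (μ := μ) hA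
        gcongr
    _ < η := by linarith

end Pool.Agent.SqF
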