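import Pool.Agent.SqF.Defs

/-!
# MP_0b2319_an: exact statements of the parts

Every `T_xxx` is a proposition; a part proves `theorem xxx : T_xxx` (possibly from hypotheses
`T_yyy`, as the blueprint says) in its own file.
-/

set_option autoImplicit false

open MeasureTheory Filter Topology
open scoped ComplexConjugate

namespace Pool.Agent.SqF

/-! ## GP functions -/

def T_GP_mono : Prop := ∀ (j j' B B' : ℕ) (G : ℤ → ℤ), j ≤ j' → 1 ≤ B → B ≤ B' →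
  GP j B G → GP j' B' G

def T_GP_shift : Prop := ∀ (j B : ℕ) (G : ℤ → ℤ) (s : ℤ), GP j B G → GP j B (fun h => G (h + s))

def T_GP_neg : Prop := ∀ (j B : ℕ) (G : ℤ → ℤ), GP j B G → GP j B (fun h => - G h)

def T_GP_add : Prop := ∀ (j B B' : ℕ) (G G' : ℤ → ℤ), GP j B G → GP j B' G' →
  GP j (B * B') (fun h => G h + G' h)

def T_GP_mul : Prop := ∀ (j j' B B' : ℕ), ∃ B'' : ℕ, 1 ≤ B'' ∧ ∀ G G' : ℤ → ℤ,
  GP j B G → GP j' B' G' → GP (j + j') B'' (fun h => G h * G' h)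

def T_GP_poly : Prop := ∀ (j : ℕ) (k : ℕ → ℤ), GP j 1 (fun h => ∑ i ∈ Finset.range (j + 1), k i * h ^ i)

def T_GP_floor : Prop := ∀ (j : ℕ) (θ : ℕ → ℝ),
  GP j 2 (fun h => ⌊∑ i ∈ Finset.range (j + 1), θ i * (h : ℝ) ^ i⌋)

/-- derivative of a monomial -/
def T_GP_dmono : Prop := ∀ (D : ℕ) (k r : ℤ), 2 ≤ D →
  GP (D - 2) 1 (fun h => k * (h + r) ^ D - k * h ^ D - k * D * r * h ^ (D - 1))

/-! ## Seminorms -/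

def T_V_bd : Prop := ∀ (X : Type) [MeasurableSpace X] (μ : Measure X) [IsProbabilityMeasure μ]
  (S : Sys X μ) (s : ℕ) (f : X → ℂ), B1 f → 0 ≤ V S s f ∧ V S s f ≤ 1

def T_V_tendsto : Prop := ∀ (X : Type) [MeasurableSpace X] (μ : Measure X)
  [IsProbabilityMeasure μ] (S : Sys X μ) (s : ℕ) (f : X → ℂ), B1 f →
  Tendsto (fun H : ℕ => ((H : ℝ) ^ 2)⁻¹ *
      ∑ h ∈ Finset.range H, ∑ h' ∈ Finset.range H,
        V S s (fun x => f (S.φ h x) * conj (f (S.φ h' x))))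
    (hyperfilter ℕ : Filter ℕ) (𝓝 (V S (s + 1) f))

def T_V_shift : Prop := ∀ (X : Type) [MeasurableSpace X] (μ : Measure X)
  [IsProbabilityMeasure μ] (S : Sys X μ) (s : ℕ) (f : X → ℂ), B1 f → ∀ n : ℤ,
  V S s (fun x => f (S.φ n x)) = V S s f

def T_V_conj : Prop := ∀ (X : Type) [MeasurableSpace X] (μ : Measure X)
  [IsProbabilityMeasure μ] (S : Sys X μ) (s : ℕ) (f : X → ℂ), B1 f →
  V S s (fun x => conj (f x)) = V S s f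

def T_V_lip : Prop := ∀ (X : Type) [MeasurableSpace X] (μ : Measure X)
  [IsProbabilityMeasure μ] (S : Sys X μ) (s : ℕ) (f g : X → ℂ), B1 f → B1 g →
  |V S s f - V S s g| ≤ 2 ^ (s + 1) * ∫ x, ‖f x - g x‖ ∂μ

/-- averages over multiples -/
def T_V_lin : Prop := ∀ (X : Type) [MeasurableSpace X] (μ : Measure X) [IsProbabilityMeasure μ]
  (S : Sys X μ) (s K : ℕ) (u : X → ℂ), B1 u → ∀ η > (0 : ℝ), ∀ M₀ : ℕ, ∃ M ≥ M₀, 0 < M ∧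
  ∀ l : ℤ, l ≠ 0 → |l| ≤ K →
    ((M : ℝ) ^ 2)⁻¹ * ∑ m ∈ Finset.range M, ∑ m' ∈ Finset.range M,
      V S s (fun x => u (S.φ (l * m) x) * conj (u (S.φ (l * m') x))) ≤
      4 * (K : ℝ) ^ 2 * (V S (s + 1) u + η)

/-! ## van der Corput, linear families, PET -/

def T_VDC : Prop := ∀ (X : Type) [MeasurableSpace X] (μ : Measure X) [IsProbabilityMeasure μ]
  (H M : ℕ), 0 < M → M ≤ H → ∀ v : ℤ → X → ℂ, (∀ h, B1 (v h)) →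
  (∀ h, (h < 0 ∨ (H : ℤ) ≤ h) → ∀ x, v h x = 0) →
  Q μ (fun x => (H : ℂ)⁻¹ * ∑ h ∈ Finset.range H, v h x) ≤
    2 * (((M : ℝ) ^ 2)⁻¹ * ∑ m ∈ Finset.range M, ∑ m' ∈ Finset.range M,
      ‖(H : ℂ)⁻¹ * ∑ h ∈ Finset.range H, ∫ x, v (h + ((m : ℤ) - m')) x * conj (v h x) ∂μ‖)

def T_LIN : Prop := ∀ (X : Type) [MeasurableSpace X] (μ : Measure X) [IsProbabilityMeasure μ]
  (S : Sys X μ) (J K : ℕ), ∃ C κ : ℝ, 0 ≤ C ∧ 0 < κ ∧ ∀ u : X → ℂ, B1 u → ∀ η > (0 : ℝ),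
  ∀ᶠ H : ℕ in atTop, ∀ (l0 a0 : ℤ) (l a : Fin J → ℤ), l0 ≠ 0 → |l0| ≤ K →
    (∀ j, l0 - l j ≠ 0 ∧ |l0 - l j| ≤ K) → ∀ g : Fin J → X → ℂ, (∀ j, B1 (g j)) →
    ∀ s : ℤ → ℂ, (∀ h, ‖s h‖ ≤ 1) →
      Q μ (fun x => (H : ℂ)⁻¹ * ∑ h ∈ Finset.range H,
        s h * u (S.φ (l0 * h + a0) x) * ∏ j, g j (S.φ (l j * h + a j) x)) ≤
        C * (V S (J + 1) u) ^ κ + η

/-- combinatorial van der Corput step, more than one class -/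
def T_PETA : Prop := ∀ Lc B D1 : ℕ, ∃ B' : ℕ, ∀ (ι κ : Type) [Fintype ι] [Fintype κ]
  (F : Fam ι κ) (K : ℕ) (A : Set ℤ), F.Ok K B A → Fintype.card ι ≤ Lc → F.D F.i0 ≤ D1 →
  2 ≤ F.D F.i0 → ∀ js : ι, F.cl js ≠ F.cl F.i0 →
  (∀ j, F.cl j ≠ F.cl F.i0 → F.dg (F.cl js) ≤ F.dg (F.cl j)) →
  ∀ r : ℤ, r ≠ 0 →
  (∀ j, j ≠ F.i0 → F.D j + 1 = F.D F.i0 → F.k j ≠ F.k F.i0 * F.D F.i0 * r) →
  StepGoal F A js false r (K * (1 + D1 * r.natAbs)) B'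

/-- combinatorial van der Corput step, one class -/
def T_PETB : Prop := ∀ Lc B D1 : ℕ, ∃ B' : ℕ, ∀ (ι κ : Type) [Fintype ι] [Fintype κ]
  (F : Fam ι κ) (K : ℕ) (A : Set ℤ), F.Ok K B A → Fintype.card ι ≤ Lc → F.D F.i0 ≤ D1 →
  2 ≤ F.D F.i0 → (∀ j, F.cl j = F.cl F.i0) →
  ∀ r : ℤ, r ≠ 0 →
  (∀ j, j ≠ F.i0 → F.D j + 1 = F.D F.i0 → F.k j ≠ - (F.k F.i0 * F.D F.i0 * r)) →
  StepGoal F A F.i0 true r (K * (1 + D1 * r.natAbs)) B'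

/-- the uniform PET theorem -/
def T_PET : Prop := ∀ (X : Type) [MeasurableSpace X] (μ : Measure X) [IsProbabilityMeasure μ]
  (S : Sys X μ) (M : Multiset ℕ) (u : X → ℂ), B1 u → TU S u → ∀ (Lc K B : ℕ) (η : ℝ), 0 < η →
  ∀ᶠ H : ℕ in atTop, ∀ (ι κ : Type) [Fintype ι] [Fintype κ] (F : Fam ι κ) (A : Set ℤ),
    F.Ok K B A → Fintype.card ι ≤ Lc → (Finset.univ : Finset κ).val.map F.dg ≤ M →
    ∀ g : ι → X → ℂ, (∀ j, B1 (g j)) → g F.i0 = u →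
    ∀ s : ℤ → ℂ, (∀ h, ‖s h‖ ≤ 1) → (∀ h, h ∉ A → s h = 0) →
      Q μ (fun x => (H : ℂ)⁻¹ * ∑ h ∈ Finset.range H, s h * ∏ j, g j (S.φ (F.P j h) x)) ≤ η

/-! ## Windows -/

/-- window averages are asymptotically invariant under shifts that are short compared with `L` -/
def T_WSH : Prop := ∀ R : ℕ → ℕ, Tendsto (fun N => (R N : ℝ) / L N) atTop (𝓝 0) →
  ∀ (y : ℕ) (ε : ℝ), 0 < ε → ∀ᶠ N in atTop, ∀ v : ℕ → ℂ, (∀ n, ‖v n‖ ≤ 1) →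
    ‖avs N v - avs N (fun n => v (n + R N * y))‖ ≤ ε

/-- from windows to Cesaro averages -/
def T_BLOCK : Prop := ∀ (E : Type) [NormedAddCommGroup E] [NormedSpace ℝ E] (v : ℕ → E) (C : ℝ),
  (∀ n, ‖v n‖ ≤ C) →
  Tendsto (fun N => (L N : ℝ)⁻¹ • ∑ n ∈ W N, v n) atTop (𝓝 0) →
  Tendsto (fun N : ℕ => (N : ℝ)⁻¹ • ∑ n ∈ Finset.Icc 1 N, v n) atTop (𝓝 0)

/-- Taylor expansion of `(n + R_N y)^c` in windows -/
def T_TAY : Prop := ∀ (σ ρ : ℝ), 0 < σ → σ < 1 → 0 < ρ → ∀ (c : ℝ), 0 < c → ∀ D : ℕ,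
  c < (D + 1) * (1 - σ) →
  ∃ θ : ℕ → ℕ → ℕ → ℝ, PA (fun N => ⌊ρ * (N : ℝ) ^ σ⌋₊) D (fun n => (n : ℝ) ^ c) θ ∧
    (c = D * (1 - σ) → Lead D θ (bin c D * ρ ^ D)) ∧
    (c < D * (1 - σ) → ∀ N n, θ N n D = 0)

/-- the step of the window is short compared with the window -/
def T_RL : Prop := ∀ (σ ρ : ℝ), 0 < σ → σ < 1 → 0 < ρ →
  Tendsto (fun N : ℕ => ((⌊ρ * (N : ℝ) ^ σ⌋₊ : ℕ) : ℝ) / L N) atTop (𝓝 0)

/-- PET in one window -/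
def T_H1W : Prop := ∀ (X : Type) [MeasurableSpace X] (μ : Measure X) [IsProbabilityMeasure μ]
  (S : Sys X μ) (m : ℕ) (c : Fin m → ℝ) (cm : ℝ), (∀ i, 0 < c i) → (∀ i, c i < cm) →
  0 < cm → (∀ z : ℤ, cm ≠ z) → ∀ u : X → ℂ, B1 u → TU S u →
  ∃ R : ℕ → ℕ, Tendsto (fun N => (R N : ℝ) / L N) atTop (𝓝 0) ∧
  ∀ η > (0 : ℝ), ∃ H : ℕ, 0 < H ∧ ∀ᶠ N in atTop, ∀ n ∈ W N,
    ∀ w : ℕ → ℂ, (∀ n, ‖w n‖ ≤ 1) → ∀ g : Fin m → X → ℂ, (∀ i, B1 (g i)) →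
    Q μ (fun x => (H : ℂ)⁻¹ * ∑ h ∈ Finset.range H, w (n + R N * h) *
      (∏ i, g i (S.φ (b (c i) (n + R N * h)) x)) * u (S.φ (b cm (n + R N * h)) x)) ≤ η

/-- totally uniform functions do not contribute at the top exponent -/
def T_H1 : Prop := ∀ (X : Type) [MeasurableSpace X] (μ : Measure X) [IsProbabilityMeasure μ]
  (S : Sys X μ) (m : ℕ) (c : Fin m → ℝ) (cm : ℝ), (∀ i, 0 < c i) → (∀ i, c i < cm) →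
  0 < cm → (∀ z : ℤ, cm ≠ z) → ∀ w : ℕ → ℂ, (∀ n, ‖w n‖ ≤ 1) →
  A1 S (fun i => b (c i)) (b cm) w

/-! ## Boxes and cubes -/

def T_CB_mul : Prop := ∀ (r : ℕ) (A A' : (Fin r → ℕ) → ℂ) (h h' : Fin r → ℕ),
  cb r (fun t => A t * A' t) h h' = cb r A h h' * cb r A' h h'

def T_CB_conj : Prop := ∀ (r : ℕ) (A : (Fin r → ℕ) → ℂ) (h h' : Fin r → ℕ),
  cb r (fun t => conj (A t)) h h' = conj (cb r A h h')

def T_CB_e : Prop := ∀ (r : ℕ) (a : (Fin r → ℕ) → ℝ) (h h' : Fin r → ℕ),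
  cb r (fun t => e (a t)) h h' = e (acb r a h h')

/-- lower complexity factorisation -/
def T_CB_fac : Prop := ∀ (Z : Type) [MeasurableSpace Z] (r : ℕ) (A : (Fin r → ℕ) → Z → ℂ)
  (h' : Fin r → ℕ), (∀ t, B1 (A t)) →
  ∃ Ψ : Fin r → (Fin r → ℕ) → Z → ℂ, (∀ j h, B1 (Ψ j h)) ∧
    (∀ j h t, Ψ j (Function.update h j t) = Ψ j h) ∧
    ∀ h z, cb r (fun t => A t z) h h' = A h z * ∏ j, Ψ j h z

def T_ACB_fac : Prop := ∀ (r : ℕ) (a : (Fin r → ℕ) → ℝ) (h' : Fin r → ℕ),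
  ∃ β : Fin r → (Fin r → ℕ) → ℝ, (∀ j h t, β j (Function.update h j t) = β j h) ∧
    ∀ h, acb r a h h' = a h + ∑ j, β j h

/-- the cube depends only on the vertices; a zero at a vertex gives zero -/
def T_CB_vtx : Prop := ∀ (r : ℕ) (h h' : Fin r → ℕ),
  (∀ A A' : (Fin r → ℕ) → ℂ, (∀ ω, A (vtx h h' ω) = A' (vtx h h' ω)) →
    cb r A h h' = cb r A' h h') ∧
  (∀ a a' : (Fin r → ℕ) → ℝ, (∀ ω, a (vtx h h' ω) = a' (vtx h h' ω)) →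
    acb r a h h' = acb r a' h h') ∧
  (∀ A : (Fin r → ℕ) → ℂ, cb r A h h' ≠ 0 → ∀ ω, A (vtx h h' ω) ≠ 0) ∧
  (∀ A : (Fin r → ℕ) → ℂ, (∀ t, ‖A t‖ ≤ 1) → ‖cb r A h h'‖ ≤ 1) ∧
  (∀ (a a' : (Fin r → ℕ) → ℝ) (ε : ℝ), (∀ ω, |a (vtx h h' ω) - a' (vtx h h' ω)| ≤ ε) →
    |acb r a h h' - acb r a' h h'| ≤ 2 ^ r * ε)

/-- box Cauchy-Schwarz -/
def T_BOX : Prop := ∀ (Z : Type) [MeasurableSpace Z] (ν : Measure Z) [IsProbabilityMeasure ν]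
  (r : ℕ) (H : Fin r → ℕ), 1 ≤ r → (∀ j, 0 < H j) →
  ∀ (A : (Fin r → ℕ) → Z → ℂ) (Ψ : Fin r → (Fin r → ℕ) → Z → ℂ),
  (∀ h, B1 (A h)) → (∀ j h, B1 (Ψ j h)) →
  (∀ j h t, Ψ j (Function.update h j t) = Ψ j h) →
  ‖boxE H (fun h => ∫ z, A h z * ∏ j, Ψ j h z ∂ν)‖ ^ (2 ^ r) ≤
    (boxE H fun h => boxE H fun h' => ∫ z, cb r (fun t => A t z) h h' ∂ν).re

/-- alternating sums of polynomials of the sum of the coordinates, and of the product -/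
def T_ACB_poly : Prop := ∀ (t : ℕ) (r r' : Fin t → ℕ),
  (∀ θ : ℕ → ℝ, acb t (fun q => ∑ j ∈ Finset.range (t + 1), θ j * (sm q : ℝ) ^ j) r r' =
    θ t * (t.factorial : ℝ) * ∏ l, ((r l : ℝ) - r' l)) ∧
  (∀ ξ : ℝ, acb t (fun q => ξ * ∏ l, (q l : ℝ)) r r' = ξ * ∏ l, ((r l : ℝ) - r' l))

/-- alternating sums of the squares of integer valued functions close to polynomials -/
def T_CUBE : Prop := ∀ (t D : ℕ), 1 ≤ t → 2 * D ≤ t → ∀ (r r' : Fin t → ℕ)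
  (a : (Fin t → ℕ) → ℤ) (θ : ℕ → ℝ) (a₀ δ : ℝ) (lam : ℤ),
  (∀ ω : Fin t → Bool, |(a (vtx r r' ω) : ℝ) + a₀ -
    ∑ j ∈ Finset.range (D + 1), θ j * (sm (vtx r r' ω) : ℝ) ^ j| ≤ δ) →
  2 ^ t * δ + (if 2 * D = t then |θ D - lam| * (D.factorial : ℝ) *
    ∏ l, (1 + |(r l : ℝ) - r' l|) else 0) < 1 →
  ∀ α : ℝ, acb t (fun q => α * (a q : ℝ) ^ 2) r r' =
    if 2 * D = t then α * (lam : ℝ) ^ 2 * (t.factorial : ℝ) * ∏ l, ((r l : ℝ) - r' l) else 0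

/-- box exponential sums -/
def T_EXPS : Prop := ∀ (ξ : ℝ), Irrational ξ → ∀ t : ℕ, 1 ≤ t → ∀ ε > (0 : ℝ),
  ∃ H : Fin t → ℕ, (∀ j, 0 < H j) ∧
    ‖boxE H (fun r => boxE H fun r' => e (ξ * ∏ l, ((r l : ℝ) - r' l)))‖ ≤ ε

/-- trigonometric approximation -/
def T_TRIG : Prop := ∀ g : ℝ → ℂ, Continuous g → (∀ x, g (x + 1) = g x) → ∀ ε > (0 : ℝ),
  ∃ (F : Finset ℤ) (a : ℤ → ℂ), ∀ x, ‖g x - ∑ l ∈ F, a l * e (l * x)‖ ≤ ε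

/-! ## Scalar equidistribution -/

/-- box inequality for window averages -/
def T_WBOX : Prop := ∀ R : ℕ → ℕ, Tendsto (fun N => (R N : ℝ) / L N) atTop (𝓝 0) →
  ∀ t : ℕ, 1 ≤ t → ∀ H : Fin t → ℕ, (∀ j, 0 < H j) → ∀ ε > (0 : ℝ), ∀ᶠ N in atTop,
  ∀ v : ℕ → ℂ, (∀ n, ‖v n‖ ≤ 1) →
    ‖avs N v‖ ^ (2 ^ t) ≤ (boxE H fun h => boxE H fun h' =>
      avs N (fun n => cb t (fun q => v (n + R N * ∑ j, q j)) h h')).re + ε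

/-- lower complexity factors do not help against `e (ξ prod h_l)` -/
def T_LOWC : Prop := ∀ (t : ℕ), 1 ≤ t → ∀ H : Fin t → ℕ, (∀ j, 0 < H j) → ∀ (ξ : ℝ)
  (θ : ℕ → ℝ) (h' : Fin t → ℕ) (Ψ : Fin t → (Fin t → ℕ) → ℂ), (∀ j h, ‖Ψ j h‖ ≤ 1) →
  (∀ j h s, Ψ j (Function.update h j s) = Ψ j h) →
  ‖boxE H (fun h => e (ξ * ∏ l, ((h l : ℝ) - h' l)) *
      e (∑ j ∈ Finset.range t, θ j * (sm h : ℝ) ^ j) * ∏ j, Ψ j h)‖ ^ (2 ^ t) ≤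
    ‖boxE H (fun r => boxE H fun r' => e (ξ * ∏ l, ((r l : ℝ) - r' l)))‖

/-- the scalar case localised to a cell -/
def T_CELL : Prop := ∀ (ι : Type) [Fintype ι] (R : ℕ → ℕ),
  Tendsto (fun N => (R N : ℝ) / L N) atTop (𝓝 0) → ∀ t D : ℕ, 1 ≤ t → 2 * D ≤ t →
  ∀ (x : ι → ℕ → ℝ) (θ : ι → ℕ → ℕ → ℕ → ℝ), (∀ i, PA R D (x i) (θ i)) →
  ∀ (Ψ : ℕ → ℝ) (ϑ : ℕ → ℕ → ℕ → ℝ), PA R t Ψ ϑ → ∀ γ : ℝ, Lead t ϑ γ →
  ∀ (α : ι → ℝ) (lam : ι → ℤ), (2 * D = t → ∀ i, Lead D (θ i) (lam i)) →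
  Irrational ((t.factorial : ℝ) * (γ + if 2 * D = t then ∑ i, α i * (lam i : ℝ) ^ 2 else 0)) →
  ∀ (g : ι → ℝ → ℝ) (a : ι → ℝ) (δ : ℝ), (∀ i, Continuous (g i)) →
  (∀ i y, g i (y + 1) = g i y) → (∀ i y, 0 ≤ g i y ∧ g i y ≤ 1) →
  (∀ i y, g i y ≠ 0 → |Int.fract y - a i| ≤ δ) → 2 ^ t * δ < 1 →
  Tendsto (fun N => avs N (fun n => e (∑ i, α i * ((⌊x i n⌋ : ℤ) : ℝ) ^ 2 + Ψ n) *
    ∏ i, (g i (x i n) : ℂ))) atTop (𝓝 0)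

/-- the core of the scalar case -/
def T_B0C : Prop := ∀ (ι : Type) [Fintype ι] (R : ℕ → ℕ),
  Tendsto (fun N => (R N : ℝ) / L N) atTop (𝓝 0) → ∀ t D : ℕ, 1 ≤ t → 2 * D ≤ t →
  ∀ (x : ι → ℕ → ℝ) (θ : ι → ℕ → ℕ → ℕ → ℝ), (∀ i, PA R D (x i) (θ i)) →
  ∀ (Ψ : ℕ → ℝ) (ϑ : ℕ → ℕ → ℕ → ℝ), PA R t Ψ ϑ → ∀ γ : ℝ, Lead t ϑ γ →
  ∀ (α : ι → ℝ) (lam : ι → ℤ), (2 * D = t → ∀ i, Lead D (θ i) (lam i)) →
  Irrational ((t.factorial : ℝ) * (γ + if 2 * D = t then ∑ i, α i * (lam i : ℝ) ^ 2 else 0)) →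
  (∀ i, ∀ l : ℤ, l ≠ 0 → Tendsto (fun N => avs N (fun n => e (l * x i n))) atTop (𝓝 0)) →
  Tendsto (fun N => avs N (fun n => e (∑ i, α i * ((⌊x i n⌋ : ℤ) : ℝ) ^ 2 + Ψ n))) atTop (𝓝 0)

/-- nontrivial scalar weights have mean zero -/
def T_B0 : Prop := ∀ (ι : Type) [Fintype ι] [Nonempty ι] (w : Wts ι), w.Ok →
  Tendsto (fun N => avs N w.w) atTop (𝓝 0)

/-- residues of integer parts -/
def T_RES : Prop := ∀ (X : Type) [MeasurableSpace X] (μ : Measure X) [IsProbabilityMeasure μ]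
  (v : ℕ → X → ℂ), (∀ n, B1 (v n)) → ∀ (x : ℕ → ℝ) (r : ℕ), 0 < r →
  (∀ l : ℤ, l ≠ 0 → Tendsto (fun N => Q μ (av N (fun n y => e (l * (x n / r)) * v n y)))
    atTop (𝓝 0)) →
  (∀ l : ℤ, l ≠ 0 → Tendsto (fun N => avs N (fun n => e (l * (x n / r)))) atTop (𝓝 0)) →
  ∀ t : ℤ, 0 ≤ t → t < r →
    Tendsto (fun N => Q μ (av N (fun n y =>
      ((if ⌊x n⌋ % (r : ℤ) = t then (1 : ℂ) else 0) - (r : ℂ)⁻¹) * v n y))) atTop (𝓝 0)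

/-- Gauss sums -/
def T_GAUSS : Prop := ∀ (p : ℤ) (q : ℕ), 0 < q → IsCoprime p (q : ℤ) →
  ‖(q : ℂ)⁻¹ * ∑ t ∈ Finset.range q, e ((p : ℝ) * (t : ℝ) ^ 2 / q)‖ ^ 2 ≤ 2 / q

/-! ## Ergodic theory -/

/-- inverse theorem for `V 1` -/
def T_U2 : Prop := ∀ (X : Type) [MeasurableSpace X] (μ : Measure X) [IsProbabilityMeasure μ]
  (S : Sys X μ), Ergodic (S.φ 1) μ → ∀ v : X → ℂ, B1 v → ∀ δ > (0 : ℝ), δ ≤ V S 1 v →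
  ∃ (χ : X → ℂ) (α : ℝ), Eig S χ α ∧ δ / 8 ≤ ‖∫ x, v x * conj (χ x) ∂μ‖ ^ 2

/-- common boxes for two seminorms -/
def T_NB : Prop := ∀ (X : Type) [MeasurableSpace X] (μ : Measure X) [IsProbabilityMeasure μ]
  (S : Sys X μ) (r : ℕ) (F : X → ℂ), B1 F → ∀ η > (0 : ℝ), ∃ H : Fin r → ℕ, (∀ j, 0 < H j) ∧
    V S (r + 1) F - η ≤ boxE H (fun h => boxE H fun h' => V S 1 (cubeF S r F h h')) ∧
    boxE H (fun h => boxE H fun h' => V S 0 (cubeF S r F h h')) ≤ V S r F + η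

/-- projections to the rational Kronecker factor -/
def T_RAT : Prop := ∀ (X : Type) [MeasurableSpace X] (μ : Measure X) [IsProbabilityMeasure μ]
  (S : Sys X μ) (F : X → ℂ), B1 F → ∃ (G : ℕ → X → ℂ) (P : X → ℂ),
    (∀ l, B1 (G l)) ∧ (∀ l, ∀ᵐ x ∂μ, G l (S.φ (l.factorial : ℤ) x) = G l x) ∧
    (∀ l, Tendsto (fun M : ℕ => Q μ (fun x => (M : ℂ)⁻¹ *
      ∑ j ∈ Finset.range M, F (S.φ ((l.factorial : ℤ) * j) x) - G l x)) atTop (𝓝 0)) ∧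
    B1 P ∧ Tendsto (fun l => Q μ (fun x => G l x - P x)) atTop (𝓝 0) ∧
    OrthRat S (fun x => F x - P x)

/-- weak limits along ultrafilters -/
def T_WLIM : Prop := ∀ (X : Type) [MeasurableSpace X] (μ : Measure X) [IsProbabilityMeasure μ]
  (G : ℕ → X → ℂ), (∀ N, B1 (G N)) → ∀ 𝒰 : Ultrafilter ℕ, ∃ F : X → ℂ, B1 F ∧
    ∀ ψ : X → ℂ, B1 ψ → Tendsto (fun N => ∫ x, G N x * ψ x ∂μ) (𝒰 : Filter ℕ)
      (𝓝 (∫ x, F x * ψ x ∂μ))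

/-- degree lowering, first half: alternating sums of the eigenvalues are often in a finite set -/
def T_DL1 : Prop := ∀ (X : Type) [MeasurableSpace X] (μ : Measure X) [IsProbabilityMeasure μ]
  (S : Sys X μ) (m : ℕ) (bs : Fin m → ℕ → ℤ) (bm : ℕ → ℤ) (w : ℕ → ℂ), (∀ n, ‖w n‖ = 1) →
  A3 S bs bm (fun _ => 1) → ∀ r : ℕ, 1 ≤ r → ∀ c > (0 : ℝ), ∃ (Λ : Finset ℚ) (c' : ℝ), 0 < c' ∧
  ∀ (𝒰 : Ultrafilter ℕ), (𝒰 : Filter ℕ) ≤ atTop → ∀ F : X → ℂ, IsDual S bs bm w 𝒰 F →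
  ∀ H : Fin r → ℕ, (∀ j, 0 < H j) →
  ∀ (Φ : (Fin r → ℕ) → X → ℂ) (α : (Fin r → ℕ) → ℝ) (Ψ : Fin r → (Fin r → ℕ) → X → ℂ),
  (∀ h, B1 (Φ h)) → (∀ h, ∀ᵐ x ∂μ, Φ h (S.φ 1 x) = e (α h) * Φ h x) → (∀ j h, B1 (Ψ j h)) →
  (∀ j h t, Ψ j (Function.update h j t) = Ψ j h) →
  c ≤ ‖boxE H (fun h => ∫ x, F (S.φ (sm h) x) * (∏ j, Ψ j h x) * Φ h x ∂μ)‖ →
  c' ≤ boxE H (fun h => boxE H fun h' =>
    (∫ x, ‖cb r (fun t => Φ t x) h h'‖ ∂μ) *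
      (open Classical in if ∃ q ∈ Λ, ∃ z : ℤ, acb r α h h' = q + z then (1 : ℝ) else 0))

/-- degree lowering -/
def T_DL : Prop := ∀ (X : Type) [MeasurableSpace X] (μ : Measure X) [IsProbabilityMeasure μ]
  (S : Sys X μ), Ergodic (S.φ 1) μ → ∀ (m : ℕ) (bs : Fin m → ℕ → ℤ) (bm : ℕ → ℤ) (w : ℕ → ℂ),
  (∀ n, ‖w n‖ = 1) → A3 S bs bm (fun _ => 1) → ∀ s : ℕ, 1 ≤ s → ∀ δ > (0 : ℝ), ∃ ρ > (0 : ℝ),
  ∀ (𝒰 : Ultrafilter ℕ), (𝒰 : Filter ℕ) ≤ atTop → ∀ F : X → ℂ, IsDual S bs bm w 𝒰 F →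
    δ ≤ V S (s + 1) F → ρ ≤ V S s F

/-- dual functions are measurable with respect to the rational Kronecker factor -/
def T_DRAT : Prop := ∀ (X : Type) [MeasurableSpace X] (μ : Measure X) [IsProbabilityMeasure μ]
  (S : Sys X μ), Ergodic (S.φ 1) μ → ∀ (m : ℕ) (bs : Fin m → ℕ → ℤ) (bm : ℕ → ℤ) (w : ℕ → ℂ),
  (∀ n, ‖w n‖ = 1) → A1 S bs bm w → A3 S bs bm w → A3 S bs bm (fun _ => 1) →
  ∀ (𝒰 : Ultrafilter ℕ), (𝒰 : Filter ℕ) ≤ atTop → ∀ F : X → ℂ, IsDual S bs bm w 𝒰 F →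
    ∀ f : X → ℂ, B1 f → OrthRat S f → ∫ x, F x * conj (f x) ∂μ = 0

/-- the characteristic factor at the last place -/
def T_DEG : Prop := ∀ (X : Type) [MeasurableSpace X] (μ : Measure X) [IsProbabilityMeasure μ]
  (S : Sys X μ), Ergodic (S.φ 1) μ → ∀ (m : ℕ) (bs : Fin m → ℕ → ℤ) (bm : ℕ → ℤ) (w : ℕ → ℂ),
  (∀ n, ‖w n‖ = 1) → A1 S bs bm w → A3 S bs bm w → A3 S bs bm (fun _ => 1) →
  ∀ f : X → ℂ, B1 f → OrthRat S f → ∀ g : Fin m → X → ℂ, (∀ i, B1 (g i)) →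
    Tendsto (fun N => Q μ (mav1 S bs bm w g f N)) atTop (𝓝 0)

/-! ## Induction on the number of functions -/

/-- (b): nontrivial weights -/
def T_Pb (m : ℕ) : Prop := ∀ (X : Type) [MeasurableSpace X] (μ : Measure X)
  [IsProbabilityMeasure μ] (S : Sys X μ), Ergodic (S.φ 1) μ → ∀ (c : Fin m → ℝ), Exps c →
  ∀ (ι : Type) [Fintype ι] [Nonempty ι] (w : Wts ι), w.Ok → (∀ i j, c j < w.c i) →
  ∀ f : Fin m → X → ℂ, (∀ i, B1 (f i)) →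
    Tendsto (fun N => Q μ (mav S (fun i => b (c i)) w.w f N)) atTop (𝓝 0)

/-- (a): the last function is orthogonal to the rational Kronecker factor -/
def T_Pa (m : ℕ) : Prop := ∀ (X : Type) [MeasurableSpace X] (μ : Measure X)
  [IsProbabilityMeasure μ] (S : Sys X μ), Ergodic (S.φ 1) μ → ∀ (c : Fin m → ℝ) (cm : ℝ),
  Exps c → (∀ i, c i < cm) → 0 < cm → (∀ z : ℤ, cm ≠ z) →
  ∀ (ι : Type) [Fintype ι] (w : Wts ι), w.Ok → (∀ i, cm < w.c i) →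
  ∀ f : X → ℂ, B1 f → OrthRat S f → ∀ g : Fin m → X → ℂ, (∀ i, B1 (g i)) →
    Tendsto (fun N => Q μ (mav1 S (fun i => b (c i)) (b cm) w.w g f N)) atTop (𝓝 0)

/-- Cauchy property of the window averages for ergodic actions -/
def T_Pc (m : ℕ) : Prop := ∀ (X : Type) [MeasurableSpace X] (μ : Measure X)
  [IsProbabilityMeasure μ] (S : Sys X μ), Ergodic (S.φ 1) μ → ∀ (c : Fin m → ℝ), Exps c →
  ∀ f : Fin m → X → ℂ, (∀ i, B1 (f i)) →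
    Tendsto (fun p : ℕ × ℕ => Q μ (fun x => mav S (fun i => b (c i)) (fun _ => 1) f p.1 x -
      mav S (fun i => b (c i)) (fun _ => 1) f p.2 x)) atTop (𝓝 0)

def T_PA_step : Prop := ∀ m, T_Pb m → T_Pa m

def T_PB_step : Prop := ∀ m, T_Pb m → T_Pa m → T_Pb (m + 1)

def T_PC_step : Prop := ∀ m, T_Pb m → T_Pa m → T_Pc m → T_Pc (m + 1)

/-! ## Reduction to ergodic actions -/

/-- ergodic decomposition -/
def T_ERGD : Prop := ∀ (Ω : Type) [MeasurableSpace Ω] [StandardBorelSpace Ω] (μ : Measure Ω)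
  [IsProbabilityMeasure μ] (T : Ω → Ω), MeasurePreserving T μ μ →
  ∃ κ : ProbabilityTheory.Kernel Ω Ω, ProbabilityTheory.IsMarkovKernel κ ∧
    (∀ᵐ ω ∂μ, Ergodic T (κ ω)) ∧ μ.bind κ = μ

/-- the Cauchy property for arbitrary actions on standard Borel spaces -/
def T_WC (m : ℕ) : Prop := ∀ (X : Type) [MeasurableSpace X] [StandardBorelSpace X]
  (μ : Measure X) [IsProbabilityMeasure μ] (S : Sys X μ), ∀ (c : Fin m → ℝ), Exps c →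
  ∀ f : Fin m → X → ℂ, (∀ i, B1 (f i)) →
    Tendsto (fun p : ℕ × ℕ => Q μ (fun x => mav S (fun i => b (c i)) (fun _ => 1) f p.1 x -
      mav S (fun i => b (c i)) (fun _ => 1) f p.2 x)) atTop (𝓝 0)

def T_ERGRED : Prop := ∀ m, T_Pc m → T_WC m

/-- two-sided extension -/
def T_EXT : Prop := ∀ (k : ℕ) (X : Type) [MeasurableSpace X] (μ : Measure X)
  [IsProbabilityMeasure μ] (T : X → X), MeasurePreserving T μ μ →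
  ∀ f : X → Fin k → Set.Icc (-1 : ℝ) 1, Measurable f →
  ∃ ν : Measure (ℤ → Fin k → Set.Icc (-1 : ℝ) 1), IsProbabilityMeasure ν ∧
    MeasurePreserving (fun ω n => ω (n + 1)) ν ν ∧
    ∀ Φ : (ℕ → Fin k → Set.Icc (-1 : ℝ) 1) → ℝ, Continuous Φ →
      ∫ x, Φ (fun n => f (T^[n] x)) ∂μ = ∫ ω, Φ (fun n => ω (n : ℤ)) ∂ν

end Pool.Agent.SqF
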